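import Mathlib

set_option autoImplicit false

namespace Pool.Agent.Helper583

universe u

/-- A clone on the set `A`.  The operations of arity `n + 1` are the maps
`(Fin (n + 1) → A) → A`; `carrier n` is the set of the members of arity `n + 1`.
All projections are members, and the members are closed under composition. -/
@[ext]
structure CloneOn (A : Type u) where
  carrier : (n : ℕ) → Set ((Fin (n + 1) → A) → A)
  proj_mem : ∀ (n : ℕ) (i : Fin (n + 1)), (fun x : Fin (n + 1) → A => x i) ∈ carrier n
  comp_mem : ∀ (m n : ℕ) (f : (Fin (m + 1) → A) → A)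
    (g : Fin (m + 1) → (Fin (n + 1) → A) → A),
    f ∈ carrier m → (∀ i, g i ∈ carrier n) → (fun x => f (fun i => g i x)) ∈ carrier n

/-- The clones on `A` are ordered by inclusion. -/
instance CloneOn.instPartialOrder (A : Type u) : PartialOrder (CloneOn A) where
  le C D := ∀ n, C.carrier n ⊆ D.carrier n
  le_refl C n := subset_rfl
  le_trans C D E h1 h2 n := (h1 n).trans (h2 n)
  le_antisymm C D h1 h2 := by
    ext n f
    exact ⟨fun h => h1 n h, fun h => h2 n h⟩

/-- A poset is a structure for the first order language of orders, whose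
only symbol is `≤`; in particular the lattice of clones `CloneOn A` is one. -/
instance ordS (M : Type u) [LE M] : FirstOrder.Language.order.Structure M :=
  FirstOrder.Language.orderStructure M

/-- Formulas of third order logic over a bare set.  `ThreeForm p q r` are the formulas
with `p` free element variables, `q` free variables for unary functions, and `r` free
variables for sets of unary functions.  Atomic formulas are `x i = x j`, `f k (x i) = x j`
and `f k ∈ S l`.  A quantifier binds the variable number `0` of its kind. -/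
inductive ThreeForm : ℕ → ℕ → ℕ → Type
  | eqE {p q r : ℕ} (i j : Fin p) : ThreeForm p q r
  | app {p q r : ℕ} (k : Fin q) (i j : Fin p) : ThreeForm p q r
  | mem {p q r : ℕ} (k : Fin q) (l : Fin r) : ThreeForm p q r
  | neg {p q r : ℕ} (φ : ThreeForm p q r) : ThreeForm p q r
  | and {p q r : ℕ} (φ ψ : ThreeForm p q r) : ThreeForm p q r
  | allE {p q r : ℕ} (φ : ThreeForm (p + 1) q r) : ThreeForm p q r
  | allF {p q r : ℕ} (φ : ThreeForm p (q + 1) r) : ThreeForm p q r
  | allS {p q r : ℕ} (φ : ThreeForm p q (r + 1)) : ThreeForm p q r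

/-- Truth of a third order formula in the bare set `A` under an assignment: the element
variables range over `A`, the function variables over all maps `A → A`, and the set
variables over all sets of maps `A → A`.  The definition is by recursion on the formula. -/
noncomputable def Sat (A : Type u) {p q r : ℕ} (φ : ThreeForm p q r) :
    (Fin p → A) → (Fin q → A → A) → (Fin r → Set (A → A)) → Prop :=
  ThreeForm.rec
    (motive := fun p q r _ => (Fin p → A) → (Fin q → A → A) → (Fin r → Set (A → A)) → Prop)
    (fun i j x _ _ => x i = x j)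
    (fun k i j x f _ => f k (x i) = x j)
    (fun k l _ f S => f k ∈ S l)
    (fun _ ih x f S => ¬ ih x f S)
    (fun _ _ ih₁ ih₂ x f S => ih₁ x f S ∧ ih₂ x f S)
    (fun _ ih x f S => ∀ a : A, ih (Fin.cons a x) f S)
    (fun _ ih x f S => ∀ g : A → A, ih x (Fin.cons g f) S)
    (fun _ ih x f S => ∀ T : Set (A → A), ih x f (Fin.cons T S))
    φ

/-- Two sets are third order equivalent if the same third order sentences hold in them. -/
def ThirdOrderEquiv (A B : Type u) : Prop :=
  ∀ φ : ThreeForm 0 0 0,
    Sat A φ Fin.elim0 Fin.elim0 Fin.elim0 ↔ Sat B φ Fin.elim0 Fin.elim0 Fin.elim0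

section sat
variable {A : Type u} {p q r : ℕ} {x : Fin p → A} {f : Fin q → A → A} {S : Fin r → Set (A → A)}

theorem Sat_eqE {i j : Fin p} : Sat A (.eqE i j) x f S ↔ x i = x j := Iff.rfl
theorem Sat_app {k : Fin q} {i j : Fin p} : Sat A (.app k i j) x f S ↔ f k (x i) = x j := Iff.rfl
theorem Sat_mem {k : Fin q} {l : Fin r} : Sat A (.mem k l) x f S ↔ f k ∈ S l := Iff.rfl
theorem Sat_neg {φ : ThreeForm p q r} : Sat A (.neg φ) x f S ↔ ¬ Sat A φ x f S := Iff.rfl
theorem Sat_and {φ ψ : ThreeForm p q r} :
    Sat A (.and φ ψ) x f S ↔ Sat A φ x f S ∧ Sat A ψ x f S := Iff.rfl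
theorem Sat_allE {φ : ThreeForm (p + 1) q r} :
    Sat A (.allE φ) x f S ↔ ∀ a : A, Sat A φ (Fin.cons a x) f S := Iff.rfl
theorem Sat_allF {φ : ThreeForm p (q + 1) r} :
    Sat A (.allF φ) x f S ↔ ∀ g : A → A, Sat A φ x (Fin.cons g f) S := Iff.rfl
theorem Sat_allS {φ : ThreeForm p q (r + 1)} :
    Sat A (.allS φ) x f S ↔ ∀ T : Set (A → A), Sat A φ x f (Fin.cons T S) := Iff.rfl

end sat

end Pool.Agent.Helper583
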