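import Mathlib
import Pool.Agent.Helper583.ClDefs

set_option autoImplicit false
set_option linter.unusedVariables false

namespace Pool.Agent.Helper583

universe u

variable {A : Type u}

/-- `f` is a projection -/
def IsProj {n : ℕ} (f : (Fin (n + 1) → A) → A) : Prop := ∃ i, f = fun x => x i

namespace CloneOn

theorem le_def {C D : CloneOn A} : C ≤ D ↔ ∀ n, C.carrier n ⊆ D.carrier n := Iff.rfl

/-- a unary function is in the clone -/
def M1 (C : CloneOn A) (φ : A → A) : Prop := (fun x : Fin 1 → A => φ (x 0)) ∈ C.carrier 0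

/-- a binary function is in the clone -/
def M2 (C : CloneOn A) (F : A → A → A) : Prop :=
  (fun x : Fin 2 → A => F (x 0) (x 1)) ∈ C.carrier 1

/-- a ternary function is in the clone -/
def M3 (C : CloneOn A) (F : A → A → A → A) : Prop :=
  (fun x : Fin 3 → A => F (x 0) (x 1) (x 2)) ∈ C.carrier 2

theorem isProj_mem (C : CloneOn A) {n : ℕ} {f : (Fin (n + 1) → A) → A} (h : IsProj f) :
    f ∈ C.carrier n := by
  obtain ⟨i, rfl⟩ := h
  exact C.proj_mem n i

theorem M1.app {C : CloneOn A} {φ : A → A} (h : C.M1 φ) {n : ℕ}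
    {g : (Fin (n + 1) → A) → A} (hg : g ∈ C.carrier n) :
    (fun x => φ (g x)) ∈ C.carrier n :=
  C.comp_mem 0 n _ (fun _ => g) h (fun _ => hg)

theorem M2.app {C : CloneOn A} {F : A → A → A} (h : C.M2 F) {n : ℕ}
    {g₁ g₂ : (Fin (n + 1) → A) → A} (hg₁ : g₁ ∈ C.carrier n) (hg₂ : g₂ ∈ C.carrier n) :
    (fun x => F (g₁ x) (g₂ x)) ∈ C.carrier n := by
  have := C.comp_mem 1 n _ (fun i => if i = 0 then g₁ else g₂) h
    (by intro i; split_ifs <;> assumption)
  simpa using this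

theorem M3.app {C : CloneOn A} {F : A → A → A → A} (h : C.M3 F) {n : ℕ}
    {g₁ g₂ g₃ : (Fin (n + 1) → A) → A} (hg₁ : g₁ ∈ C.carrier n) (hg₂ : g₂ ∈ C.carrier n)
    (hg₃ : g₃ ∈ C.carrier n) :
    (fun x => F (g₁ x) (g₂ x) (g₃ x)) ∈ C.carrier n := by
  have := C.comp_mem 2 n _ (fun i => if i = 0 then g₁ else if i = 1 then g₂ else g₃) h
    (by intro i; split_ifs <;> assumption)
  simpa using this

theorem m1_id (C : CloneOn A) : C.M1 (fun x => x) := C.proj_mem 0 0

theorem M1.comp {C : CloneOn A} {φ ψ : A → A} (h : C.M1 φ) (h' : C.M1 ψ) :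
    C.M1 (fun x => φ (ψ x)) := h.app h'

theorem M2.app1 {C : CloneOn A} {F : A → A → A} (h : C.M2 F) {φ ψ : A → A}
    (h1 : C.M1 φ) (h2 : C.M1 ψ) : C.M1 (fun x => F (φ x) (ψ x)) := h.app h1 h2

theorem M3.app1 {C : CloneOn A} {F : A → A → A → A} (h : C.M3 F) {φ ψ χ : A → A}
    (h1 : C.M1 φ) (h2 : C.M1 ψ) (h3 : C.M1 χ) : C.M1 (fun x => F (φ x) (ψ x) (χ x)) :=
  h.app h1 h2 h3

/-- substitution of unary members into a member -/
theorem subst1 {C : CloneOn A} {n : ℕ} {f : (Fin (n + 1) → A) → A} (hf : f ∈ C.carrier n)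
    {g : Fin (n + 1) → A → A} (hg : ∀ i, C.M1 (g i)) : C.M1 (fun x => f (fun i => g i x)) :=
  C.comp_mem n 0 f (fun i x => g i (x 0)) hf hg

theorem diag {C : CloneOn A} {n : ℕ} {f : (Fin (n + 1) → A) → A} (hf : f ∈ C.carrier n) :
    C.M1 (fun x => f (fun _ => x)) :=
  subst1 hf (fun _ => C.m1_id)

/-- identification of variables -/
theorem minor {C : CloneOn A} {m n : ℕ} {f : (Fin (m + 1) → A) → A} (hf : f ∈ C.carrier m)
    (s : Fin (m + 1) → Fin (n + 1)) : (fun x => f (fun i => x (s i))) ∈ C.carrier n :=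
  C.comp_mem m n f (fun i x => x (s i)) hf (fun i => C.proj_mem n (s i))

/-- unary members give members of all arities -/
theorem M1.lift {C : CloneOn A} {φ : A → A} (h : C.M1 φ) {n : ℕ} (i : Fin (n + 1)) :
    (fun x : Fin (n + 1) → A => φ (x i)) ∈ C.carrier n := h.app (C.proj_mem n i)

theorem M1.mono {C D : CloneOn A} (h : C ≤ D) {φ : A → A} (hφ : C.M1 φ) : D.M1 φ := h 0 hφ

theorem M1.of_lift {C : CloneOn A} {φ : A → A} {n : ℕ} {i : Fin (n + 1)}
    (h : (fun x : Fin (n + 1) → A => φ (x i)) ∈ C.carrier n) : C.M1 φ := diag h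

theorem M1.iterate {C : CloneOn A} {φ : A → A} (h : C.M1 φ) (n : ℕ) : C.M1 (φ^[n]) := by
  induction n with
  | zero => exact C.m1_id
  | succ n ih => exact ih.comp h

/-- the essentially unary clone of a monoid of unary functions -/
def EU (M : Set (A → A)) (h1 : id ∈ M) (h2 : ∀ f ∈ M, ∀ g ∈ M, f ∘ g ∈ M) : CloneOn A where
  carrier n := {f | ∃ i, ∃ m ∈ M, f = fun x => m (x i)}
  proj_mem n i := ⟨i, id, h1, rfl⟩
  comp_mem m n f g := by
    rintro ⟨i, p, hp, rfl⟩ hg
    obtain ⟨j, q, hq, hgi⟩ := hg i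
    exact ⟨j, p ∘ q, h2 p hp q hq, by funext x; simp only [hgi, Function.comp]⟩

theorem mem_EU {M : Set (A → A)} {h1 : id ∈ M} {h2 : ∀ f ∈ M, ∀ g ∈ M, f ∘ g ∈ M} {n : ℕ}
    {f : (Fin (n + 1) → A) → A} :
    f ∈ (EU M h1 h2).carrier n ↔ ∃ i, ∃ m ∈ M, f = fun x => m (x i) := Iff.rfl

theorem EU_M1 {M : Set (A → A)} {h1 : id ∈ M} {h2 : ∀ f ∈ M, ∀ g ∈ M, f ∘ g ∈ M} {φ : A → A} :
    (EU M h1 h2).M1 φ ↔ φ ∈ M := by
  constructor
  · rintro ⟨i, m, hm, h⟩
    have : φ = m := by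
      funext x
      have := congrFun h (fun _ => x)
      simpa using this
    rw [this]; exact hm
  · intro h
    exact ⟨0, φ, h, rfl⟩

theorem EU_le {M : Set (A → A)} {h1 : id ∈ M} {h2 : ∀ f ∈ M, ∀ g ∈ M, f ∘ g ∈ M}
    {D : CloneOn A} : EU M h1 h2 ≤ D ↔ ∀ φ ∈ M, D.M1 φ := by
  constructor
  · intro h φ hφ
    exact M1.mono h (EU_M1.2 hφ)
  · rintro h n f ⟨i, m, hm, rfl⟩
    exact (h m hm).lift i

/-- the clone of projections -/
def bot (A : Type u) : CloneOn A where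
  carrier n := {f | IsProj f}
  proj_mem n i := ⟨i, rfl⟩
  comp_mem m n f g := by
    rintro ⟨i, rfl⟩ hg
    exact hg i

theorem mem_bot {n : ℕ} {f : (Fin (n + 1) → A) → A} : f ∈ (bot A).carrier n ↔ IsProj f :=
  Iff.rfl

theorem bot_le' (C : CloneOn A) : bot A ≤ C := fun _ _ h => C.isProj_mem h

/-- the clone of all operations -/
def top (A : Type u) : CloneOn A where
  carrier n := Set.univ
  proj_mem n i := trivial
  comp_mem m n f g := fun _ _ => trivial

theorem le_top' (C : CloneOn A) : C ≤ top A := fun _ _ _ => trivial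

/-- intersection of two clones -/
def inf (C D : CloneOn A) : CloneOn A where
  carrier n := C.carrier n ∩ D.carrier n
  proj_mem n i := ⟨C.proj_mem n i, D.proj_mem n i⟩
  comp_mem m n f g := fun hf hg =>
    ⟨C.comp_mem m n f g hf.1 (fun i => (hg i).1), D.comp_mem m n f g hf.2 (fun i => (hg i).2)⟩

theorem le_inf {C D E : CloneOn A} (h1 : E ≤ C) (h2 : E ≤ D) : E ≤ inf C D :=
  fun n _ h => ⟨h1 n h, h2 n h⟩
theorem inf_le_left' {C D : CloneOn A} : inf C D ≤ C := fun _ _ h => h.1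
theorem inf_le_right' {C D : CloneOn A} : inf C D ≤ D := fun _ _ h => h.2

/-- the clone of the operations `f` with `f(x,…,x) = x` for all `x` outside `S` -/
def DS (S : Set A) : CloneOn A where
  carrier n := {f | ∀ x, x ∉ S → f (fun _ => x) = x}
  proj_mem n i := fun x _ => rfl
  comp_mem m n f g := by
    intro hf hg x hx
    have : (fun i => g i (fun _ => x)) = fun _ => x := by
      funext i; exact hg i x hx
    show f (fun i => g i (fun _ => x)) = x
    rw [this]; exact hf x hx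

theorem mem_DS {S : Set A} {n : ℕ} {f : (Fin (n + 1) → A) → A} :
    f ∈ (DS S).carrier n ↔ ∀ x, x ∉ S → f (fun _ => x) = x := Iff.rfl

theorem DS_M1 {S : Set A} {φ : A → A} : (DS S).M1 φ ↔ ∀ x, x ∉ S → φ x = x := Iff.rfl

/-- the idempotent clone -/
def idem (A : Type u) : CloneOn A := DS ∅

theorem mem_idem {n : ℕ} {f : (Fin (n + 1) → A) → A} :
    f ∈ (idem A).carrier n ↔ ∀ x, f (fun _ => x) = x := by
  simp [idem, mem_DS]

theorem DS_mono {S T : Set A} (h : S ⊆ T) : DS S ≤ DS T :=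
  fun _ _ hf x hx => hf x (fun hx' => hx (h hx'))

/-- only projections in common -/
def Dj (X Y : CloneOn A) : Prop :=
  ∀ (n : ℕ) (f : (Fin (n + 1) → A) → A), f ∈ X.carrier n → f ∈ Y.carrier n → IsProj f

/-- `Y` is the pseudocomplement of `X` -/
structure Pc (X Y : CloneOn A) : Prop where
  dj : Dj X Y
  max : ∀ D : CloneOn A, Dj X D → D ≤ Y

theorem isProj_lift {φ : A → A} {n : ℕ} {i : Fin (n + 1)}
    (h : IsProj (fun x : Fin (n + 1) → A => φ (x i))) : φ = fun x => x := by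
  obtain ⟨j, hj⟩ := h
  funext x
  exact congrFun hj (fun _ => x)

theorem Dj.m1 {X Y : CloneOn A} (h : Dj X Y) {φ : A → A} (h1 : X.M1 φ) (h2 : Y.M1 φ) :
    φ = fun x => x := isProj_lift (h 0 _ h1 h2)

/-- nonidentity involution or retraction -/
def At (φ : A → A) : Prop := φ ∘ φ = φ ∨ φ ∘ φ = id

theorem Pc.color {X Y : CloneOn A} (h : Pc X Y) {φ : A → A} (hφ : At φ) :
    X.M1 φ ∨ Y.M1 φ := by
  by_cases hX : X.M1 φ
  · exact Or.inl hX
  · right
    have h1 : (id : A → A) ∈ ({id, φ} : Set (A → A)) := by simp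
    have h2 : ∀ f ∈ ({id, φ} : Set (A → A)), ∀ g ∈ ({id, φ} : Set (A → A)),
        f ∘ g ∈ ({id, φ} : Set (A → A)) := by
      rintro f (rfl | rfl) g (rfl | rfl)
      · simp
      · simp
      · simp
      · rcases hφ with h | h <;> simp [h]
    have hD : EU _ h1 h2 ≤ Y := by
      apply h.max
      rintro n f hfX ⟨i, m, hm, rfl⟩
      rcases hm with rfl | rfl
      · exact ⟨i, rfl⟩
      · exact absurd (M1.of_lift hfX) hX
    exact EU_le.1 hD φ (by simp)

end CloneOn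

end Pool.Agent.Helper583
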