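import Mathlib
import Pool.Agent.Helper583.ClBase

set_option autoImplicit false
set_option linter.unusedVariables false

namespace Pool.Agent.Helper583

universe u

open CloneOn

variable {A : Type u}

/-- involution (the identity allowed) -/
def Inv (σ : A → A) : Prop := ∀ x, σ (σ x) = x

theorem Inv.at {σ : A → A} (h : Inv σ) : At σ := Or.inr (funext h)

open Classical in
/-- the swap as a function -/
noncomputable def sw (a b : A) : A → A := fun x => if x = a then b else if x = b then a else x

/-- the elementary retraction -/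
noncomputable def rr (b c : A) : A → A := open Classical in fun x => if x = b then c else x

theorem sw_inv (a b : A) : Inv (sw a b) := by
  intro x
  unfold sw
  by_cases h1 : x = a
  · subst h1
    by_cases h2 : b = x <;> simp [h2]
  · by_cases h2 : x = b
    · simp [h2]
    · simp [h1, h2]

theorem sw_comm (a b : A) : sw a b = sw b a := by
  funext x
  unfold sw
  split_ifs <;> simp_all

theorem sw_left (a b : A) : sw a b a = b := by simp [sw]
theorem sw_right (a b : A) : sw a b b = a := by
  unfold sw
  split_ifs <;> simp_all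

theorem sw_other {a b x : A} (h1 : x ≠ a) (h2 : x ≠ b) : sw a b x = x := by
  simp [sw, h1, h2]

theorem sw_ne {a b : A} (h : a ≠ b) : sw a b ≠ fun x => x := by
  intro h'
  have := congrFun h' a
  rw [sw_left] at this
  exact h this.symm

theorem rr_at (b c : A) : At (rr b c) := by
  left
  funext x
  simp only [rr, Function.comp]
  split_ifs <;> simp_all

theorem rr_ne {b c : A} (h : b ≠ c) : rr b c ≠ fun x => x := by
  intro h'
  have := congrFun h' b
  simp only [rr, if_true] at this
  exact h this.symm

section links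
variable {X Y : CloneOn A}

theorem conj_X (hP : Pc X Y) {φ σ : A → A} (hφ : At φ) (hσ : Inv σ) (h : X.M1 φ) :
    X.M1 (fun x => σ (φ (σ x))) := by
  have hat : At (fun x => σ (φ (σ x))) := by
    rcases hφ with h | h
    · left; funext x
      have := congrFun h (σ x)
      simp only [Function.comp] at this ⊢
      rw [hσ, this]
    · right; funext x
      have := congrFun h (σ x)
      simp only [Function.comp, id] at this ⊢
      rw [hσ, this, hσ]
  rcases hP.color hσ.at with h1 | h1
  · exact (h1.comp h).comp h1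
  · rcases hP.color hat with h2 | h2
    · exact h2
    · have h3 : Y.M1 φ := by
        have := (h1.comp h2).comp h1
        have e : (fun x => σ (σ (φ (σ (σ x))))) = φ := by
          funext x; rw [hσ, hσ]
        rw [← e]; exact this
      have h4 := hP.dj.m1 h h3
      have e : (fun x => σ (φ (σ x))) = fun x => x := by
        funext x; rw [h4]; exact hσ x
      rw [e]; exact X.m1_id

theorem conj_Y (hP : Pc X Y) {φ σ : A → A} (hφ : At φ) (hσ : Inv σ) (h : Y.M1 φ) :
    Y.M1 (fun x => σ (φ (σ x))) := by
  have hat : At (fun x => σ (φ (σ x))) := by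
    rcases hφ with h | h
    · left; funext x
      have := congrFun h (σ x)
      simp only [Function.comp] at this ⊢
      rw [hσ, this]
    · right; funext x
      have := congrFun h (σ x)
      simp only [Function.comp, id] at this ⊢
      rw [hσ, this, hσ]
  rcases hP.color hσ.at with h1 | h1
  · rcases hP.color hat with h2 | h2
    · have h3 : X.M1 φ := by
        have := (h1.comp h2).comp h1
        have e : (fun x => σ (σ (φ (σ (σ x))))) = φ := by
          funext x; rw [hσ, hσ]
        rw [← e]; exact this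
      have h4 := hP.dj.m1 h3 h
      have e : (fun x => σ (φ (σ x))) = fun x => x := by
        funext x; rw [h4]; exact hσ x
      rw [e]; exact Y.m1_id
    · exact h2
  · exact (h1.comp h).comp h1

theorem comm_of_split (hP : Pc X Y) {σ τ : A → A} (hσ : Inv σ) (hτ : Inv τ)
    (h1 : X.M1 σ) (h2 : Y.M1 τ) (x : A) : σ (τ x) = τ (σ x) := by
  have h3 := conj_X hP hσ.at hτ h1
  have h4 := conj_Y hP hτ.at hσ h2
  have h5 : X.M1 (fun x => σ (τ (σ (τ x)))) := h1.comp h3
  have h6 : Y.M1 (fun x => σ (τ (σ (τ x)))) := h4.comp h2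
  have h7 := congrFun (hP.dj.m1 h5 h6) x
  have h8 : τ (σ (τ x)) = σ x := by
    have := congrArg σ h7
    rw [hσ] at this
    exact this
  have := congrArg τ h8
  rw [hτ] at this
  exact this

/-- abstract form of the connection between the involutions -/
theorem all_swaps (h3 : ∀ a b : A, ∃ c, c ≠ a ∧ c ≠ b) (P Q : (A → A) → Prop)
    (hcol : ∀ σ, Inv σ → P σ ∨ Q σ)
    (hcomm : ∀ σ τ, Inv σ → Inv τ → P σ → Q τ → ∀ x, σ (τ x) = τ (σ x))
    {σ : A → A} (hσ : Inv σ) (h1 : σ ≠ fun x => x) (hP : P σ) :
    ∀ c d, c ≠ d → P (sw c d) := by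
  have key : ∀ σ : A → A, Inv σ → P σ → ∀ a c, σ a ≠ a → c ≠ a → c ≠ σ a → P (sw (σ a) c) := by
    intro σ hσ hP a c h1 h2 h3
    rcases hcol _ (sw_inv (σ a) c) with h | h
    · exact h
    · exfalso
      have := hcomm σ _ hσ (sw_inv _ _) hP h a
      rw [sw_left, sw_other (fun h => h1 h.symm) (fun h => h2 h.symm)] at this
      have h4 := congrArg σ this
      rw [hσ] at h4
      have := hcomm σ _ hσ (sw_inv _ _) hP h (σ a)
      rw [hσ, sw_left] at this
      rw [sw_other (fun h => h1 h.symm) (fun h => h2 h.symm)] at this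
      -- σ c = a
      have h5 : c = σ a := by
        rw [← this, hσ]
      exact h3 h5
  obtain ⟨a, ha⟩ : ∃ a, σ a ≠ a := by
    by_contra hh
    push Not at hh
    exact h1 (funext hh)
  obtain ⟨e, he1, he2⟩ := h3 a (σ a)
  have k2 : ∀ a b c, a ≠ b → c ≠ a → c ≠ b → P (sw a b) → P (sw b c) := by
    intro a b c hab hca hcb h
    have := key (sw a b) (sw_inv a b) h a c (by rw [sw_left]; exact hab.symm) hca
      (by rw [sw_left]; exact hcb)
    rwa [sw_left] at this
  have h0 : P (sw (σ a) e) := key σ hσ hP a e ha he1 he2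
  have k3 : ∀ a b, a ≠ b → P (sw a b) → ∀ c d, c ≠ d → P (sw c d) := by
    intro a b hab h c d hcd
    have h' : P (sw b a) := by rw [sw_comm]; exact h
    -- first: P (sw a c) for all c ≠ a
    have s1 : ∀ c, c ≠ a → P (sw a c) := by
      intro c hc
      by_cases hcb : c = b
      · rw [hcb]; exact h
      · exact k2 b a c hab.symm hcb hc h'
    by_cases hca : c = a
    · rw [hca]; exact s1 d (by rw [← hca]; exact hcd.symm)
    · by_cases hda : d = a
      · rw [sw_comm, hda]; exact s1 c hca
      · exact k2 a c d (fun h => hca h.symm) hda hcd.symm (s1 c hca)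
  exact k3 _ _ (fun h => he2 h.symm) h0

theorem not_split (h3 : ∀ a b : A, ∃ c, c ≠ a ∧ c ≠ b) (hP : Pc X Y) {σ τ : A → A}
    (hσ : Inv σ) (hτ : Inv τ) (hσ1 : σ ≠ fun x => x) (hτ1 : τ ≠ fun x => x)
    (h1 : X.M1 σ) (h2 : Y.M1 τ) : False := by
  have k1 := all_swaps h3 X.M1 Y.M1 (fun σ h => hP.color h.at)
    (fun σ τ hσ hτ h1 h2 x => comm_of_split hP hσ hτ h1 h2 x) hσ hσ1 h1
  have k2 := all_swaps h3 Y.M1 X.M1 (fun σ h => (hP.color h.at).symm)
    (fun σ τ hσ hτ h1 h2 x => (comm_of_split hP hτ hσ h2 h1 x).symm) hτ hτ1 h2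
  obtain ⟨a, ha⟩ : ∃ a, σ a ≠ a := by
    by_contra hh
    push Not at hh
    exact hσ1 (funext hh)
  exact sw_ne ha (hP.dj.m1 (k1 _ _ ha) (k2 _ _ ha))

theorem inv_color (h3 : ∀ a b : A, ∃ c, c ≠ a ∧ c ≠ b) (hP : Pc X Y) :
    (∀ σ, Inv σ → X.M1 σ) ∨ (∀ σ, Inv σ → Y.M1 σ) := by
  by_cases h : ∀ σ, Inv σ → X.M1 σ
  · exact Or.inl h
  · right
    push Not at h
    obtain ⟨τ, hτ, hτX⟩ := h
    have hτY : Y.M1 τ := (hP.color hτ.at).resolve_left hτX
    intro σ hσ
    rcases hP.color hσ.at with h1 | h1
    · by_cases h2 : σ = fun x => x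
      · rw [h2]; exact Y.m1_id
      · exact (not_split h3 hP hσ hτ h2 (fun h => hτX (by rw [h]; exact X.m1_id)) h1 hτY).elim
    · exact h1

theorem const_at (a : A) : At (fun _ : A => a) := Or.inl rfl

theorem const_color [Nontrivial A] (hP : Pc X Y) :
    (∀ a, X.M1 (fun _ => a)) ∨ (∀ a, Y.M1 (fun _ => a)) := by
  have key : ∀ a b, X.M1 (fun _ => a) → Y.M1 (fun _ => b) → False := by
    intro a b h1 h2
    have k : ∀ c : A, X.M1 (fun _ => c) → Y.M1 (fun _ => c) → False := by
      intro c h1 h2
      have := hP.dj.m1 h1 h2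
      obtain ⟨d, hd⟩ := exists_ne c
      exact hd (congrFun this d).symm
    rcases hP.color (sw_inv a b).at with h | h
    · have := h.comp h1
      simp only [sw_left] at this
      exact k b this h2
    · have := h.comp h2
      simp only [sw_right] at this
      exact k a h1 this
  by_cases h : ∀ a, X.M1 (fun _ => a)
  · exact Or.inl h
  · right
    push Not at h
    obtain ⟨b, hb⟩ := h
    intro a
    have hbY := (hP.color (const_at b)).resolve_left hb
    rcases hP.color (const_at a) with h1 | h1
    · exact (key a b h1 hbY).elim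
    · exact h1

end links

section link3

/-- the clone used for the third link -/
def D3 (a : A) (τ : A → A) (hτ : Inv τ) (hτa : τ a = a) : CloneOn A where
  carrier n := {f | ∃ i : Fin (n + 1), ∃ N : Set (Fin (n + 1)) → Prop, ¬ N ∅ ∧
    ∀ x, (N {j | x j = a} → f x = τ (x i)) ∧ (¬ N {j | x j = a} → f x = x i)}
  proj_mem n i := ⟨i, fun _ => False, fun h => h, fun x => ⟨fun h => h.elim, fun _ => rfl⟩⟩
  comp_mem m n f g := by
    rintro ⟨i, N, hN, hf⟩ hg
    choose s M hM hg using hg
    have hval : ∀ k x, g k x = a ↔ x (s k) = a := by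
      intro k x
      by_cases h : M k {j | x j = a}
      · rw [(hg k x).1 h]
        constructor
        · intro h'
          have := congrArg τ h'
          rwa [hτ, hτa] at this
        · intro h'; rw [h', hτa]
      · rw [(hg k x).2 h]
    have hset : ∀ x, {k | g k x = a} = s ⁻¹' {j | x j = a} := by
      intro x; ext k; exact hval k x
    refine ⟨s i, fun I => ¬ (N (s ⁻¹' I) ↔ M i I), ?_, ?_⟩
    · simp only [Set.preimage_empty, not_not]
      exact iff_of_false hN (hM i)
    · intro x
      have h1 := hf (fun k => g k x)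
      rw [hset] at h1
      have h2 := hg i x
      constructor
      · intro h
        show f (fun k => g k x) = _
        by_cases hA : N (s ⁻¹' {j | x j = a})
        · have hB : ¬ M i {j | x j = a} := fun hB => h (iff_of_true hA hB)
          rw [h1.1 hA, h2.2 hB]
        · have hB : M i {j | x j = a} := by
            by_contra hB; exact h (iff_of_false hA hB)
          rw [h1.2 hA, h2.1 hB]
      · intro h
        rw [not_not] at h
        show f (fun k => g k x) = _
        by_cases hA : N (s ⁻¹' {j | x j = a})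
        · rw [h1.1 hA, h2.1 (h.1 hA), hτ]
        · rw [h1.2 hA, h2.2 (fun hB => hA (h.2 hB))]

theorem D3_nontriv {a : A} {τ : A → A} {hτ : Inv τ} {hτa : τ a = a} {n : ℕ}
    {f : (Fin (n + 1) → A) → A} (hf : f ∈ (D3 a τ hτ hτa).carrier n) (h : ¬ IsProj f) :
    ∃ i : Fin (n + 1), ∃ I : Set (Fin (n + 1)), i ∉ I ∧
      (∀ x, {j | x j = a} = I → f x = τ (x i)) ∧ (∀ x, {j | x j = a} = ∅ → f x = x i) ∧
      (∀ x, x i = a → f x = a) := by
  obtain ⟨i, N, hN, hf⟩ := hf
  by_cases hh : ∃ I, i ∉ I ∧ N I
  · obtain ⟨I, hiI, hNI⟩ := hh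
    refine ⟨i, I, hiI, ?_, ?_, ?_⟩
    · intro x hx
      exact (hf x).1 (by rw [hx]; exact hNI)
    · intro x hx
      exact (hf x).2 (by rw [hx]; exact hN)
    · intro x hx
      by_cases h : N {j | x j = a}
      · rw [(hf x).1 h, hx, hτa]
      · rw [(hf x).2 h, hx]
  · exfalso
    apply h
    refine ⟨i, funext fun x => ?_⟩
    by_cases hx : x i = a
    · by_cases h : N {j | x j = a}
      · rw [(hf x).1 h, hx, hτa]
      · rw [(hf x).2 h]
    · apply (hf x).2
      intro h'
      exact hh ⟨_, hx, h'⟩

variable {X Y : CloneOn A}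

/-- substitution of the transposition `(a b)` turns a nontrivial member into `r` -/
theorem D3_sub_sw {a b c : A} (hab : a ≠ b) (hac : a ≠ c) {hτ : Inv (sw b c)}
    {hτa : sw b c a = a} {Z : CloneOn A} {n : ℕ} {f : (Fin (n + 1) → A) → A}
    (hf : f ∈ (D3 a (sw b c) hτ hτa).carrier n) (h : ¬ IsProj f) (hZ : f ∈ Z.carrier n)
    (hs : Z.M1 (sw a b)) : Z.M1 (rr b c) := by
  classical
  obtain ⟨i, I, hiI, h1, h2, h3⟩ := D3_nontriv hf h
  have hsub : Z.M1 (fun x => f (fun j => if j ∈ I then sw a b x else x)) := by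
    have : Z.M1 (fun x => f (fun j => (if j ∈ I then sw a b else fun x => x) x)) :=
      subst1 hZ (fun j => by split_ifs; exact hs; exact Z.m1_id)
    convert this using 4 with x j
    split_ifs <;> rfl
  have e : (fun x => f (fun j => if j ∈ I then sw a b x else x)) = rr b c := by
    funext x
    by_cases hxb : x = b
    · subst hxb
      rw [h1]
      · simp only [hiI, if_false, sw_left, rr, if_true]
      · ext j
        simp only [Set.mem_ofPred_eq]
        split_ifs with hj
        · simp [hj, sw_right]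
        · simp [hj, Ne.symm hab]
    · by_cases hxa : x = a
      · subst hxa
        rw [h3 _ (by simp [hiI])]
        simp [rr, hab]
      · have hx : sw a b x = x := sw_other hxa hxb
        rw [h2]
        · simp [hiI, rr, hxb]
        · ext j
          simp [hx, hxa]
  rwa [e] at hsub

/-- substitution of `x ↦ a` for `x = b, c` turns a nontrivial member into the transposition -/
theorem D3_sub_rr {a b c : A} (hab : a ≠ b) (hac : a ≠ c) {hτ : Inv (sw b c)}
    {hτa : sw b c a = a} {Z : CloneOn A} {n : ℕ} {f : (Fin (n + 1) → A) → A}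
    (hf : f ∈ (D3 a (sw b c) hτ hτa).carrier n) (h : ¬ IsProj f) (hZ : f ∈ Z.carrier n)
    (hs : Z.M1 (rr b a)) (hs' : Z.M1 (rr c a)) : Z.M1 (sw b c) := by
  classical
  obtain ⟨i, I, hiI, h1, h2, h3⟩ := D3_nontriv hf h
  have hs2 : Z.M1 (fun x => rr b a (rr c a x)) := hs.comp hs'
  have hsub : Z.M1 (fun x => f (fun j => if j ∈ I then rr b a (rr c a x) else x)) := by
    have : Z.M1 (fun x => f (fun j => (if j ∈ I then (fun x => rr b a (rr c a x))
        else fun x => x) x)) :=
      subst1 hZ (fun j => by split_ifs; exact hs2; exact Z.m1_id)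
    convert this using 4 with x j
    split_ifs <;> rfl
  have e : (fun x => f (fun j => if j ∈ I then rr b a (rr c a x) else x)) = sw b c := by
    funext x
    by_cases hxb : x = b
    · subst hxb
      rw [h1]
      · simp only [hiI, if_false]
      · ext j
        simp only [Set.mem_ofPred_eq]
        split_ifs with hj
        · simp only [hj, iff_true, rr]
          split_ifs <;> simp_all
        · simp [hj, Ne.symm hab]
    · by_cases hxc : x = c
      · subst hxc
        rw [h1]
        · simp only [hiI, if_false]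
        · ext j
          simp only [Set.mem_ofPred_eq]
          split_ifs with hj
          · simp only [hj, iff_true, rr]
            split_ifs <;> simp_all
          · simp [hj, Ne.symm hac]
      · by_cases hxa : x = a
        · subst hxa
          rw [h3 _ (by simp [hiI])]
          rw [sw_other hxb hxc]
        · have hx : rr b a (rr c a x) = x := by simp [rr, hxb, hxc]
          rw [h2]
          · simp [hiI, sw_other hxb hxc]
          · ext j
            simp [hx, hxa]
  rwa [e] at hsub

theorem zeta_mem {a b c : A} (hab : a ≠ b) (hac : a ≠ c) (hτ : Inv (sw b c))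
    (hτa : sw b c a = a) : ∃ f, f ∈ (D3 a (sw b c) hτ hτa).carrier 1 ∧ (b ≠ c → ¬ IsProj f) := by
  classical
  refine ⟨fun x => if x 1 = a then sw b c (x 0) else x 0, ⟨0, fun I => 1 ∈ I, by simp, ?_⟩, ?_⟩
  · intro x
    constructor
    · intro h
      have h : x 1 = a := h
      simp [h]
    · intro h
      have h : ¬ x 1 = a := h
      simp [h]
  · rintro hbc ⟨i, hi⟩
    have h1 := congrFun hi ![b, a]
    have h2 := congrFun hi ![a, b]
    simp only [Matrix.cons_val_zero, Matrix.cons_val_one, if_true, sw_left] at h1 h2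
    rw [if_neg (Ne.symm hab)] at h2
    fin_cases i
    · simp at h1
      exact hbc h1.symm
    · simp at h1
      exact hac h1.symm

theorem rr_conj {b c : A} {σ : A → A} (hσ : Inv σ) :
    (fun x => σ (rr b c (σ x))) = rr (σ b) (σ c) := by
  classical
  funext x
  simp only [rr]
  by_cases h : σ x = b
  · rw [if_pos h, if_pos (by rw [← h, hσ])]
  · rw [if_neg h, if_neg (fun h' => h (by rw [h', hσ])), hσ]

theorem link3_X (hP : Pc X Y) (hinv : ∀ σ, Inv σ → X.M1 σ) {a b c : A} (hab : a ≠ b)
    (hac : a ≠ c) (hbc : b ≠ c) : X.M1 (rr b c) := by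
  rcases hP.color (rr_at b c) with h | h
  · exact h
  · exfalso
    -- r_{b→c} in Y, hence also r_{b→a}, r_{c→a}
    have h1 : Y.M1 (rr b a) := by
      have := conj_Y hP (rr_at b c) (sw_inv c a) h
      rwa [rr_conj (sw_inv c a), sw_left, sw_other hbc (Ne.symm hab)] at this
    have h2 : Y.M1 (rr c a) := by
      have := conj_Y hP (rr_at b a) (sw_inv b c) h1
      rwa [rr_conj (sw_inv b c), sw_left, sw_other hab hac] at this
    have hτa : sw b c a = a := sw_other hab hac
    have hD : D3 a (sw b c) (sw_inv b c) hτa ≤ Y := by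
      apply hP.max
      intro n f hfX hfD
      by_contra hf
      have := D3_sub_sw hab hac hfD hf hfX (hinv _ (sw_inv a b))
      exact rr_ne hbc (hP.dj.m1 this h)
    obtain ⟨f, hf, hf'⟩ := zeta_mem hab hac (sw_inv b c) hτa
    have := D3_sub_rr hab hac hf (hf' hbc) (hD 1 hf) h1 h2
    exact sw_ne hbc (hP.dj.m1 (hinv _ (sw_inv b c)) this)

theorem link3_Y (hP : Pc X Y) (hinv : ∀ σ, Inv σ → Y.M1 σ) {a b c : A} (hab : a ≠ b)
    (hac : a ≠ c) (hbc : b ≠ c) : Y.M1 (rr b c) := by
  rcases hP.color (rr_at b c) with h | h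
  · exfalso
    have h1 : X.M1 (rr b a) := by
      have := conj_X hP (rr_at b c) (sw_inv c a) h
      rwa [rr_conj (sw_inv c a), sw_left, sw_other hbc (Ne.symm hab)] at this
    have h2 : X.M1 (rr c a) := by
      have := conj_X hP (rr_at b a) (sw_inv b c) h1
      rwa [rr_conj (sw_inv b c), sw_left, sw_other hab hac] at this
    have hτa : sw b c a = a := sw_other hab hac
    have hD : D3 a (sw b c) (sw_inv b c) hτa ≤ Y := by
      apply hP.max
      intro n f hfX hfD
      by_contra hf
      have := D3_sub_rr hab hac hfD hf hfX h1 h2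
      exact sw_ne hbc (hP.dj.m1 this (hinv _ (sw_inv b c)))
    obtain ⟨f, hf, hf'⟩ := zeta_mem hab hac (sw_inv b c) hτa
    have := D3_sub_sw hab hac hf (hf' hbc) (hD 1 hf) (hinv _ (sw_inv a b))
    exact rr_ne hbc (hP.dj.m1 h this)
  · exact h

end link3

end Pool.Agent.Helper583
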