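import Mathlib
import Pool.Agent.Helper583.ClLink

set_option autoImplicit false
set_option linter.unusedVariables false

namespace Pool.Agent.Helper583

universe u

open CloneOn

variable {A : Type u}

/-- swaps and elementary retractions generate all unary functions on a finite set -/
theorem gen_finite [Finite A] (P : (A → A) → Prop) (hid : P (fun x => x))
    (hcomp : ∀ f g : A → A, P f → P g → P (fun x => f (g x)))
    (hsw : ∀ a b, P (sw a b)) (hrr : ∀ b c, b ≠ c → P (rr b c)) (φ : A → A) : P φ := by
  classical
  have := Fintype.ofFinite A
  have hperm : ∀ π : Equiv.Perm A, P π := by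
    intro π
    induction π using Equiv.Perm.swap_induction_on with
    | one => exact hid
    | swap_mul f x y _ ih =>
      have : (⇑(Equiv.swap x y * f) : A → A) = fun z => sw x y (f z) := by
        funext z
        simp only [Equiv.Perm.coe_mul, Function.comp, Equiv.swap_apply_def, sw]
      rw [this]
      exact hcomp _ _ (hsw x y) ih
  have main : ∀ n : ℕ, ∀ φ : A → A, ((Finset.univ.image φ)ᶜ).card = n → P φ := by
    intro n
    induction n with
    | zero =>
      intro φ h
      rw [Finset.card_eq_zero, Finset.compl_eq_empty_iff] at h
      have hs : Function.Surjective φ := by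
        intro y
        have : y ∈ Finset.univ.image φ := by rw [h]; exact Finset.mem_univ y
        simpa using this
      have hb : Function.Bijective φ := ⟨Finite.injective_iff_surjective.2 hs, hs⟩
      exact hperm (Equiv.ofBijective φ hb)
    | succ n ih =>
      intro φ h
      have hne : ((Finset.univ.image φ)ᶜ).Nonempty := by
        rw [← Finset.card_pos, h]; omega
      obtain ⟨z, hz⟩ := hne
      have hz' : ∀ x, φ x ≠ z := by
        intro x hx
        rw [Finset.mem_compl] at hz
        exact hz (Finset.mem_image.2 ⟨x, Finset.mem_univ x, hx⟩)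
      have hns : ¬ Function.Injective φ := by
        intro hi
        obtain ⟨x, hx⟩ := Finite.injective_iff_surjective.1 hi z
        exact hz' x hx
      rw [Function.not_injective_iff] at hns
      obtain ⟨x, y, hxy, hne⟩ := hns
      have him : Finset.univ.image (Function.update φ x z) = insert z (Finset.univ.image φ) := by
        ext w
        simp only [Finset.mem_image, Finset.mem_univ, true_and, Finset.mem_insert]
        constructor
        · rintro ⟨t, rfl⟩
          by_cases ht : t = x
          · left; rw [ht, Function.update_self]
          · right; exact ⟨t, by rw [Function.update_of_ne ht]⟩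
        · rintro (rfl | ⟨t, rfl⟩)
          · exact ⟨x, Function.update_self _ _ _⟩
          · by_cases ht : t = x
            · exact ⟨y, by rw [Function.update_of_ne hne.symm, ht, hxy]⟩
            · exact ⟨t, by rw [Function.update_of_ne ht]⟩
      have hP' : P (Function.update φ x z) := by
        apply ih
        rw [him]
        have : (insert z (Finset.univ.image φ))ᶜ = ((Finset.univ.image φ)ᶜ).erase z := by
          ext w
          simp only [Finset.mem_compl, Finset.mem_insert, Finset.mem_erase, not_or]
        rw [this, Finset.card_erase_of_mem hz, h]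
        rfl
      have e : φ = fun u => rr z (φ x) (Function.update φ x z u) := by
        funext u
        by_cases hu : u = x
        · rw [hu, Function.update_self]; simp [rr]
        · rw [Function.update_of_ne hu]; simp [rr, hz' u]
      rw [e]
      exact hcomp _ _ (hrr _ _ (Ne.symm (hz' x))) hP'
  exact main _ φ rfl

theorem dep_of_ne {n : ℕ} {f : (Fin (n + 1) → A) → A}
    (h : ∀ (i : Fin (n + 1)) (c : Fin (n + 1) → A) (a : A), f (Function.update c i a) = f c)
    (x y : Fin (n + 1) → A) : f x = f y := by
  classical
  have : ∀ s : Finset (Fin (n + 1)), f (s.piecewise x y) = f y := by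
    intro s
    induction s using Finset.induction_on with
    | empty => simp
    | insert j s hj ih =>
      rw [Finset.piecewise_insert, h, ih]
  have h2 := this Finset.univ
  rw [Finset.piecewise_univ] at h2
  exact h2

/-- three tuples with distinct values which in every coordinate take only two values -/
theorem three_tuples (h3 : ∀ a b : A, ∃ c, c ≠ a ∧ c ≠ b) {n : ℕ}
    {f : (Fin (n + 1) → A) → A} (hid : ∀ x, f (fun _ => x) = x) (hf : ¬ IsProj f)
    [Nonempty A] :
    ∃ u v w : Fin (n + 1) → A, f u ≠ f v ∧ f u ≠ f w ∧ f v ≠ f w ∧
      ∀ j, u j = v j ∨ u j = w j := by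
  classical
  obtain ⟨i, c, a0, hne⟩ : ∃ (i : Fin (n + 1)) (c : Fin (n + 1) → A) (a : A),
      f (Function.update c i a) ≠ f c := by
    by_contra hh
    push Not at hh
    obtain ⟨a⟩ := ‹Nonempty A›
    obtain ⟨b, hb, _⟩ := h3 a a
    have := dep_of_ne hh (fun _ => b) (fun _ => a)
    rw [hid, hid] at this
    exact hb this
  have hc : Function.update c i (c i) = c := Function.update_eq_self i c
  -- the section is nonconstant
  have hns : ∀ a, ∃ b, f (Function.update c i b) ≠ f (Function.update c i a) := by
    intro a
    by_contra hh
    push Not at hh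
    apply hne
    rw [hh a0, ← hh (c i), hc]
  have fin : ∀ a b d, f (Function.update c i b) ≠ f (Function.update c i a) →
      f (Function.update d i a) ≠ f (Function.update c i a) →
      f (Function.update d i a) ≠ f (Function.update c i b) →
      ∃ u v w : Fin (n + 1) → A, f u ≠ f v ∧ f u ≠ f w ∧ f v ≠ f w ∧
      ∀ j, u j = v j ∨ u j = w j := by
    intro a b d h1 h2 h3
    refine ⟨Function.update c i a, Function.update c i b, Function.update d i a,
      h1.symm, h2.symm, h3.symm, ?_⟩
    intro j
    by_cases hj : j = i
    · right; rw [hj, Function.update_self, Function.update_self]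
    · left; rw [Function.update_of_ne hj, Function.update_of_ne hj]
  by_cases hA : ∃ a d, ∀ t, f (Function.update d i a) ≠ f (Function.update c i t)
  · obtain ⟨a, d, had⟩ := hA
    obtain ⟨b, hb⟩ := hns a
    exact fin a b d hb (had a) (had b)
  · push Not at hA
    obtain ⟨a, d, had⟩ : ∃ a d, f (Function.update d i a) ≠ f (Function.update c i a) := by
      by_contra hh
      push Not at hh
      apply hf
      refine ⟨i, funext fun x => ?_⟩
      have h1 := hh (x i) x
      rw [Function.update_eq_self] at h1
      have h2 := hh (x i) (fun _ => x i)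
      have h4 : Function.update (fun _ : Fin (n + 1) => x i) i (x i) = fun _ => x i :=
        Function.update_eq_self i _
      rw [h4, hid] at h2
      rw [h1, ← h2]
    obtain ⟨v, hv1, hv2⟩ := h3 (f (Function.update c i a)) (f (Function.update d i a))
    obtain ⟨b, hb⟩ := hA v (fun _ => v)
    have h4 : Function.update (fun _ : Fin (n + 1) => v) i v = fun _ => v :=
      Function.update_eq_self i _
    rw [h4, hid] at hb
    exact fin a b d (by rw [← hb]; exact hv1) had (by rw [← hb]; exact hv2.symm)

/-- essentially unary or nonsurjective operations -/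
def Slu (A : Type u) [Finite A] : CloneOn A where
  carrier n := {f | (∃ i, ∃ φ : A → A, f = fun x => φ (x i)) ∨ ¬ Function.Surjective f}
  proj_mem n i := Or.inl ⟨i, id, rfl⟩
  comp_mem m n f g := by
    rintro (⟨i, φ, rfl⟩ | hf) hg
    · rcases hg i with ⟨j, ψ, hj⟩ | h
      · left
        exact ⟨j, φ ∘ ψ, by funext x; simp only [hj, Function.comp]⟩
      · right
        intro hs
        apply h
        have hφ : Function.Surjective φ := by
          intro y
          obtain ⟨x, hx⟩ := hs y
          exact ⟨_, hx⟩
        have hinj : Function.Injective φ := Finite.injective_iff_surjective.2 hφ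
        intro y
        obtain ⟨x, hx⟩ := hs (φ y)
        exact ⟨x, hinj hx⟩
    · right
      intro hs
      apply hf
      intro y
      obtain ⟨x, hx⟩ := hs y
      exact ⟨_, hx⟩

variable {X Y : CloneOn A}

theorem le_idem_of_all (hP : Pc X Y) (h : ∀ φ, X.M1 φ) : Y ≤ idem A := by
  intro n f hf
  rw [mem_idem]
  intro x
  exact congrFun (hP.dj.m1 (h _) (diag hf)) x

theorem le_idem_of_all' (hP : Pc X Y) (h : ∀ φ, Y.M1 φ) : X ≤ idem A := by
  intro n f hf
  rw [mem_idem]
  intro x
  exact congrFun (hP.dj.m1 (diag hf) (h _)) x

theorem finite_class [Finite A] [Nonempty A] (h3 : ∀ a b : A, ∃ c, c ≠ a ∧ c ≠ b)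
    (hP : Pc X Y) :
    Y ≤ idem A ∨ ∀ D, Y ≤ D → ¬ D ≤ Y → top A ≤ D := by
  rcases inv_color h3 hP with hinv | hinv
  · left
    apply le_idem_of_all hP
    intro φ
    apply gen_finite X.M1 X.m1_id (fun f g hf hg => hf.comp hg) (fun a b => hinv _ (sw_inv a b))
    intro b c hbc
    obtain ⟨a, hab, hac⟩ := h3 b c
    exact link3_X hP hinv hab hac hbc
  · right
    have hall : ∀ φ, Y.M1 φ := by
      intro φ
      apply gen_finite Y.M1 Y.m1_id (fun f g hf hg => hf.comp hg)
        (fun a b => hinv _ (sw_inv a b))
      intro b c hbc
      obtain ⟨a, hab, hac⟩ := h3 b c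
      exact link3_Y hP hinv hab hac hbc
    have hX : X ≤ idem A := le_idem_of_all' hP hall
    have hS : Slu A ≤ Y := by
      apply hP.max
      intro n f hfX hfS
      have hid := mem_idem.1 (hX n hfX)
      rcases hfS with ⟨i, φ, rfl⟩ | h
      · refine ⟨i, ?_⟩
        funext x
        exact hid (x i)
      · exact (h (fun y => ⟨fun _ => y, hid y⟩)).elim
    intro D hYD hDY
    have hnd : ¬ Dj X D := fun h => hDY (hP.max D h)
    simp only [Dj] at hnd
    push Not at hnd
    obtain ⟨n, f, hfX, hfD, hf⟩ := hnd
    have hid := mem_idem.1 (hX n hfX)
    classical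
    obtain ⟨u, v, w, h1, h2, h4, h5⟩ := three_tuples h3 hid hf
    intro m h _
    set T : A → Fin (n + 1) → A := fun y => if y = f u then u else if y = f v then v
      else if y = f w then w else fun _ => y with hT
    have hTf : ∀ y, f (T y) = y := by
      intro y
      simp only [hT]
      split_ifs with c1 c2 c3
      · exact c1.symm
      · exact c2.symm
      · exact c3.symm
      · exact hid y
    have hTs : ∀ j, ¬ Function.Surjective (fun y => T y j) := by
      intro j hs
      have hinj := Finite.injective_iff_surjective.2 hs
      have e1 : T (f u) = u := by simp [hT]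
      have e2 : T (f v) = v := by simp [hT, Ne.symm h1]
      have e3 : T (f w) = w := by simp [hT, Ne.symm h2, Ne.symm h4]
      rcases h5 j with h | h
      · apply h1
        apply hinj
        simp only [e1, e2, h]
      · apply h2
        apply hinj
        simp only [e1, e3, h]
    have e : h = fun x => f (fun j => T (h x) j) := by
      funext x
      exact (hTf (h x)).symm
    rw [e]
    apply D.comp_mem n m f (fun j x => T (h x) j) hfD
    intro j
    apply hYD
    apply hS
    right
    intro hs
    apply hTs j
    intro y
    obtain ⟨x, hx⟩ := hs y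
    exact ⟨h x, hx⟩

end Pool.Agent.Helper583
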