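import Mathlib
import Pool.Agent.Helper583.ClLink

set_option autoImplicit false
set_option linter.unusedVariables false

namespace Pool.Agent.Helper583

universe u

open CloneOn

variable {A : Type u}

section card
open Cardinal

theorem exists_equiv_finsupp [Infinite A] : Nonempty (A ≃ (A →₀ ZMod 3)) := by
  have : Nontrivial (ZMod 3) := ⟨0, 1, by decide⟩
  rw [← Cardinal.eq, mk_finsupp_lift_of_infinite]
  simp only [lift_id']
  rw [max_eq_left]
  have h : #(ZMod 3) < ℵ₀ := Cardinal.lt_aleph0_of_finite _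
  have h2 : lift.{u} #(ZMod 3) < ℵ₀ := by simpa using h
  exact h2.le.trans (aleph0_le_mk A)

theorem exists_equiv_prod_bool [Infinite A] : Nonempty (A ≃ A × (Bool × Bool)) := by
  rw [← Cardinal.eq, mk_prod]
  simp only [lift_id', lift_uzero]
  have h : ℵ₀ ≤ #A := aleph0_le_mk A
  have h2 : lift.{u} #(Bool × Bool) < ℵ₀ := by
    simp only [lift_lt_aleph0]; exact Cardinal.lt_aleph0_of_finite _
  rw [mul_eq_left h (h2.le.trans h)]
  · simp

theorem exists_equiv_big [Infinite A] : Nonempty (A ≃ Bool × (ℕ × A)) := by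
  rw [← Cardinal.eq, mk_prod, mk_prod]
  simp only [lift_id', lift_uzero, mk_bool, mk_eq_aleph0, lift_aleph0]
  simp only [lift_ofNat, lift_id']
  have h : ℵ₀ ≤ #A := aleph0_le_mk A
  have h2 : (2 : Cardinal.{u}) ≤ #A := (natCast_lt_aleph0).le.trans h
  rw [aleph0_mul_eq h, mul_eq_right h h2 two_ne_zero]

theorem exists_equiv_sum [Infinite A] : Nonempty (A ⊕ A ≃ A) := by
  rw [← Cardinal.eq, mk_sum]
  simp only [lift_id]
  exact add_eq_self (aleph0_le_mk A)

end card

section link2
variable {V : Type u} [AddCommGroup V] [Module (ZMod 3) V]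

/-- the clone of idempotent affine operations -/
def Aff (e : A ≃ V) : CloneOn A where
  carrier n := {f | ∃ α : Fin (n + 1) → ZMod 3, ∑ i, α i = 1 ∧
    ∀ x, e (f x) = ∑ i, α i • e (x i)}
  proj_mem n i := ⟨Pi.single i 1, by simp, by intro x; simp [Pi.single_apply, ite_smul]⟩
  comp_mem m n f g := by
    rintro ⟨α, hα, hf⟩ hg
    choose β hβ hg using hg
    refine ⟨fun j => ∑ i, α i * β i j, ?_, ?_⟩
    · rw [Finset.sum_comm]; simp [← Finset.mul_sum, hβ, hα]
    · intro x
      rw [hf]
      simp only [hg, Finset.smul_sum, Finset.sum_smul, mul_smul]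
      rw [Finset.sum_comm]

/-- the generator -/
def Hf (e : A ≃ V) : A → A → A := fun x y => e.symm (-(e x) - e y)

theorem zmod3_cases : ∀ z : ZMod 3, z ≠ 0 → z = 1 ∨ z = -1 := by decide

theorem Aff_gen {e : A ≃ V} {n : ℕ} {f : (Fin (n + 1) → A) → A}
    (hf : f ∈ (Aff e).carrier n) (h : ¬ IsProj f) {Z : CloneOn A} (hZ : f ∈ Z.carrier n) :
    Z.M2 (Hf e) := by
  obtain ⟨α, hα, hf⟩ := hf
  obtain ⟨i, j, hij, hi, hj⟩ : ∃ i j, i ≠ j ∧ α i ≠ 0 ∧ α j ≠ 0 := by
    by_contra hh
    push Not at hh
    obtain ⟨i, _, hi⟩ : ∃ i ∈ Finset.univ, α i ≠ 0 := by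
      apply Finset.exists_ne_zero_of_sum_ne_zero
      rw [hα]; decide
    have h0 : ∀ j, j ≠ i → α j = 0 := fun j hj => hh i j hj.symm hi
    have h1 : α i = 1 := by
      rw [← hα, Finset.sum_eq_single i (fun j _ hj => h0 j hj) (by simp)]
    apply h
    refine ⟨i, funext fun x => ?_⟩
    apply e.injective
    rw [hf, Finset.sum_eq_single i (fun j _ hj => by rw [h0 j hj, zero_smul]) (by simp), h1,
      one_smul]
  obtain ⟨S, hS⟩ : ∃ S : Finset (Fin (n + 1)), ∑ k ∈ S, α k = -1 := by
    rcases zmod3_cases _ hi with h1 | h1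
    · rcases zmod3_cases _ hj with h2 | h2
      · refine ⟨{i, j}, ?_⟩
        rw [Finset.sum_pair hij, h1, h2]; decide
      · exact ⟨{j}, by simpa using h2⟩
    · exact ⟨{i}, by simpa using h1⟩
  have hS' : ∑ k ∈ Finset.univ \ S, α k = -1 := by
    have := Finset.sum_sdiff (f := α) (Finset.subset_univ S)
    rw [hα, hS] at this
    have h2 : ∑ k ∈ Finset.univ \ S, α k = 1 - (-1) := eq_sub_of_add_eq this
    rw [h2]; decide
  have hm : (fun x : Fin 2 → A => f (fun k => x (if k ∈ S then 0 else 1))) ∈ Z.carrier 1 :=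
    minor hZ (fun k => if k ∈ S then (0 : Fin 2) else 1)
  have e1 : (fun x : Fin 2 → A => f (fun k => x (if k ∈ S then 0 else 1))) =
      fun x => Hf e (x 0) (x 1) := by
    funext x
    apply e.injective
    rw [hf, Hf, Equiv.apply_symm_apply]
    have : ∀ k, α k • e (x (if k ∈ S then 0 else 1)) =
        if k ∈ S then α k • e (x 0) else α k • e (x 1) := by
      intro k; split_ifs <;> rfl
    simp only [this]
    rw [Finset.sum_ite, ← Finset.sum_smul, ← Finset.sum_smul]
    have f1 : Finset.univ.filter (fun k => k ∈ S) = S := by ext; simp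
    have f2 : Finset.univ.filter (fun k => k ∉ S) = Finset.univ \ S := by ext; simp
    rw [f1, f2, hS, hS', neg_smul, neg_smul, one_smul, one_smul, sub_eq_add_neg]
  rw [e1] at hm
  exact hm

theorem Hf_mem (e : A ≃ V) : (Aff e).M2 (Hf e) := by
  refine ⟨fun _ => -1, ?_, ?_⟩
  · decide
  · intro x
    have : ∑ i : Fin 2, (-1 : ZMod 3) • e (x i) = (-1 : ZMod 3) • e (x 0) +
        (-1 : ZMod 3) • e (x 1) := Fin.sum_univ_two _
    show e (Hf e (x 0) (x 1)) = ∑ i : Fin 2, (-1 : ZMod 3) • e (x i)
    rw [this]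
    simp only [Hf, Equiv.apply_symm_apply, neg_smul, one_smul, sub_eq_add_neg]

variable {X Y : CloneOn A}

theorem Hf_color (hP : Pc X Y) (e : A ≃ V) : X.M2 (Hf e) ∨ Y.M2 (Hf e) := by
  by_cases h : X.M2 (Hf e)
  · exact Or.inl h
  · right
    have : Aff e ≤ Y := by
      apply hP.max
      intro n f hfX hfA
      by_contra hf
      exact h (Aff_gen hfA hf hfX)
    exact this 1 (Hf_mem e)

theorem link2 [Infinite A] (hP : Pc X Y) :
    ((∀ a, X.M1 (fun _ => a)) → (∀ σ, Inv σ → Y.M1 σ) → False) ∧
    ((∀ a, Y.M1 (fun _ => a)) → (∀ σ, Inv σ → X.M1 σ) → False) := by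
  obtain ⟨e⟩ := exists_equiv_finsupp (A := A)
  set ν : A → A := fun x => e.symm (-(e x)) with hν
  have hνinv : Inv ν := by intro x; simp [hν]
  have hν1 : ν ≠ fun x => x := by
    intro h
    obtain ⟨a⟩ : Nonempty A := inferInstance
    have := congrFun h (e.symm (Finsupp.single a 1))
    simp only [hν, Equiv.apply_symm_apply, Equiv.symm_apply_eq] at this
    have h2 := DFunLike.congr_fun this a
    simp at h2
    exact absurd h2 (by decide)
  have hc : ∀ Z : CloneOn A, Z.M2 (Hf e) → (∀ a, Z.M1 (fun _ => a)) → Z.M1 ν := by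
    intro Z h1 h2
    have := h1.app1 Z.m1_id (h2 (e.symm 0))
    simpa [Hf, hν] using this
  have hd : ∀ Z : CloneOn A, Z.M2 (Hf e) → (∀ σ, Inv σ → Z.M1 σ) →
      Z.M1 (fun _ => e.symm 0) := by
    intro Z h1 h2
    have := h1.app1 Z.m1_id (h2 ν hνinv)
    simpa [Hf, hν] using this
  have hconst : ∀ a : A, (fun _ : A => a) ≠ fun x => x := by
    intro a h
    obtain ⟨b, hb⟩ := exists_ne a
    exact hb (congrFun h b).symm
  constructor
  · intro hX hY
    rcases Hf_color hP e with h | h
    · exact hν1 (hP.dj.m1 (hc X h hX) (hY ν hνinv))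
    · exact hconst _ (hP.dj.m1 (hX _) (hd Y h hY))
  · intro hY hX
    rcases Hf_color hP e with h | h
    · exact hconst _ (hP.dj.m1 (hd X h hX) (hY _))
    · exact hν1 (hP.dj.m1 (hX ν hνinv) (hc Y h hY))

end link2

section case1

/-- operations that are projections or constantly `o` on the cubes `{w, o}ⁿ` -/
def Do (o : A) : CloneOn A where
  carrier n := {f | IsProj f ∨ ∀ w x, (∀ i, x i = w ∨ x i = o) → f x = o}
  proj_mem n i := Or.inl ⟨i, rfl⟩
  comp_mem m n f g := by
    rintro (⟨i, rfl⟩ | hf) hg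
    · exact hg i
    · right
      intro w x hx
      apply hf w
      intro i
      rcases hg i with ⟨j, hj⟩ | h
      · rw [hj]; exact hx j
      · right; exact h w x hx

/-- operations that are projections or have range in `S` -/
def Rg (S : Set A) : CloneOn A where
  carrier n := {f | IsProj f ∨ ∀ x, f x ∈ S}
  proj_mem n i := Or.inl ⟨i, rfl⟩
  comp_mem m n f g := by
    rintro (⟨i, rfl⟩ | hf) hg
    · exact hg i
    · right
      intro x
      exact hf _

variable {X Y : CloneOn A}

theorem case1 [Infinite A] (hP : Pc X Y) (hc : ∀ a, Y.M1 (fun _ => a))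
    (hi : ∀ σ, Inv σ → Y.M1 σ) : Dj X (top A) := by
  classical
  have hconst : ∀ a : A, (fun _ : A => a) ≠ fun x => x := by
    intro a h
    obtain ⟨b, hb⟩ := exists_ne a
    exact hb (congrFun h b).symm
  have hall : ∀ ξ, Y.M1 ξ := by
    intro ξ
    obtain ⟨e⟩ := exists_equiv_prod_bool (A := A)
    obtain ⟨o⟩ : Nonempty A := inferInstance
    set σ : A → A := fun x => e.symm ((e x).1, (!(e x).2.1, (e x).2.2)) with hσ
    set τ : A → A := fun x => e.symm ((e x).1, ((e x).2.1, !(e x).2.2)) with hτ
    have hσi : Inv σ := by intro x; simp [hσ]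
    have hτi : Inv τ := by intro x; simp [hτ]
    have h1 : ∀ x, σ x ≠ x := by
      intro x h
      rw [hσ] at h
      simp only [Equiv.symm_apply_eq] at h
      have := congrArg (fun p => p.2.1) h
      simp at this
    have h2 : ∀ x, τ x ≠ x := by
      intro x h
      rw [hτ] at h
      simp only [Equiv.symm_apply_eq] at h
      have := congrArg (fun p => p.2.2) h
      simp at this
    have h3 : ∀ x, σ x ≠ τ x := by
      intro x h
      rw [hτ, hσ] at h
      have h := e.symm.injective h
      have := congrArg (fun p => p.2.2) h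
      simp at this
    have hD : Do o ≤ Y := by
      apply hP.max
      rintro n f hfX (hf | hf)
      · exact hf
      · exfalso
        have : X.M1 (fun _ => o) := by
          have h := diag hfX
          have e : (fun x => f (fun _ => x)) = fun _ => o := by
            funext x
            exact hf x _ (fun _ => Or.inl rfl)
          rwa [e] at h
        exact hconst o (hP.dj.m1 this (hc o))
    have hF : Y.M3 (fun x y z => if y = σ x ∧ z = τ x then ξ x else o) := by
      apply hD
      right
      intro w x hx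
      have : ¬ (x 1 = σ (x 0) ∧ x 2 = τ (x 0)) := by
        rintro ⟨a1, a2⟩
        have b1 := h1 (x 0)
        have b2 := h2 (x 0)
        have b3 := h3 (x 0)
        rw [← a1] at b1 b3
        rw [← a2] at b2 b3
        clear a1 a2
        have key : ∀ p q r : A, q ≠ p → r ≠ p → q ≠ r → (p = w ∨ p = o) → (q = w ∨ q = o) →
            (r = w ∨ r = o) → False := by
          rintro p q r n1 n2 n3 (rfl | rfl) (rfl | rfl) (rfl | rfl) <;>
            first
              | exact n1 rfl
              | exact n2 rfl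
              | exact n3 rfl
        exact key _ _ _ b1 b2 b3 (hx 0) (hx 1) (hx 2)
      simp [this]
    have := hF.app1 Y.m1_id (hi σ hσi) (hi τ hτi)
    simpa using this
  have hX : ∀ n f, f ∈ X.carrier n → ∀ x, f (fun _ => x) = x := by
    intro n f hf x
    exact congrFun (hP.dj.m1 (diag hf) (hall _)) x
  intro n f hfX _
  by_contra hf
  obtain ⟨e⟩ := exists_equiv_sum (A := A)
  set ε : A → A := fun x => e (Sum.inl x) with hε
  have hεi : Function.Injective ε := fun x y h => Sum.inl_injective (e.injective h)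
  have hD : Rg (Set.range ε) ≤ Y := by
    apply hP.max
    rintro n f hfX (hf | hf)
    · exact hf
    · exfalso
      obtain ⟨o⟩ : Nonempty A := inferInstance
      obtain ⟨z, hz⟩ := hf (fun _ => e (Sum.inr o))
      rw [hX n f hfX] at hz
      have := e.injective hz
      simp at this
  have h1 : (fun x => ε (f x)) ∈ Y.carrier n := by
    apply hD
    right
    intro x
    exact ⟨_, rfl⟩
  have h2 := (hall (Function.invFun ε)).app h1
  have e3 : (fun x => Function.invFun ε (ε (f x))) = f :=
    funext fun x => Function.leftInverse_invFun hεi _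
  rw [e3] at h2
  exact hf (hP.dj n f hfX h2)

end case1

end Pool.Agent.Helper583
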