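import Mathlib
import Pool.Agent.Helper583.ClInf1
import Pool.Agent.Helper583.ClFin

set_option autoImplicit false
set_option linter.unusedVariables false

namespace Pool.Agent.Helper583

universe u

open CloneOn

variable {A : Type u}

/-- extension of an injection of a set off itself to an involution -/
theorem inv_ext {S : Set A} {l : A → A} (hi : Set.InjOn l S) (hm : ∀ x ∈ S, l x ∉ S) :
    ∃ σ, Inv σ ∧ ∀ z ∈ S, σ z = l z := by
  classical
  set σ : A → A := fun x => if x ∈ S then l x else if h : ∃ z ∈ S, l z = x then h.choose else x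
    with hσ
  have h1 : ∀ z ∈ S, σ z = l z := by
    intro z hz; simp [hσ, hz]
  have h2 : ∀ z ∈ S, σ (l z) = z := by
    intro z hz
    have hex : ∃ y ∈ S, l y = l z := ⟨z, hz, rfl⟩
    have : σ (l z) = hex.choose := by
      simp only [hσ]
      rw [if_neg (hm z hz), dif_pos hex]
    rw [this]
    exact hi hex.choose_spec.1 hz hex.choose_spec.2
  refine ⟨σ, ?_, h1⟩
  intro x
  by_cases hx : x ∈ S
  · rw [h1 x hx, h2 x hx]
  · by_cases hx2 : ∃ z ∈ S, l z = x
    · obtain ⟨z, hz, rfl⟩ := hx2
      rw [h2 z hz, h1 z hz]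
    · have : σ x = x := by
        simp only [hσ]
        rw [if_neg hx, dif_neg hx2]
      rw [this, this]

/-- the clone used for hidden functions -/
def DG (S : Set A) (η σ : A → A) (h1 : ∀ x ∈ S, η x ∈ S)
    (h3 : ∀ x ∈ S, σ x ∉ S) (h4 : Set.InjOn σ S) : CloneOn A where
  carrier n := {f | ∃ i : Fin (n + 1), ∃ Act : Set (Fin (n + 1)), i ∉ Act ∧
    (∀ x, x i ∉ S → f x = x i) ∧
    (∀ x, x i ∈ S → f x ∈ S) ∧
    (∀ x, x i ∈ S → (∀ j ∈ Act, x j ≠ σ (x i)) → f x = x i) ∧
    (∀ x, x i ∈ S → (∀ k, x k ∈ S ∨ x k = σ (x i)) → (∃ j ∈ Act, x j = σ (x i)) →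
      f x = η (x i))}
  proj_mem n i := ⟨i, ∅, by simp, fun _ _ => rfl, fun _ h => h, fun _ _ _ => rfl,
    fun x _ _ ⟨j, hj, _⟩ => hj.elim⟩
  comp_mem m n f g := by
    rintro ⟨i, Act, hiA, q0, q1, q2, q3⟩ hg
    choose b Ac hbA p0 p1 p2 p3 using hg
    refine ⟨b i, {j | j ≠ b i ∧ (j ∈ Ac i ∨ ∃ k ∈ Act, b k = j)}, by simp, ?_, ?_, ?_, ?_⟩
    · intro x hx
      have e := p0 i x hx
      show f (fun k => g k x) = _
      rw [q0 (fun k => g k x) (by simp only [e]; exact hx)]
      exact e
    · intro x hx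
      exact q1 (fun k => g k x) (p1 i x hx)
    · intro x hx hact
      have e : g i x = x (b i) := by
        apply p2 i x hx
        intro j hj
        apply hact
        exact ⟨fun h => hbA i (h ▸ hj), Or.inl hj⟩
      show f (fun k => g k x) = _
      rw [q2 (fun k => g k x) (by simp only [e]; exact hx)]
      · exact e
      · intro k hk
        simp only [e]
        intro hgk
        have hnot : σ (x (b i)) ∉ S := h3 _ hx
        by_cases hbk : x (b k) ∈ S
        · exact hnot (hgk ▸ p1 k x hbk)
        · have e2 := p0 k x hbk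
          have hne : b k ≠ b i := fun h => hbk (by rw [h]; exact hx)
          exact hact (b k) ⟨hne, Or.inr ⟨k, hk, rfl⟩⟩ (by rw [← e2]; exact hgk)
    · intro x hx hall hex
      have hnot : σ (x (b i)) ∉ S := h3 _ hx
      have hg : ∀ k, g k x ∈ S ∨ g k x = σ (x (b i)) := by
        intro k
        by_cases hbk : x (b k) ∈ S
        · exact Or.inl (p1 k x hbk)
        · right
          rw [p0 k x hbk]
          exact (hall (b k)).resolve_left hbk
      show f (fun k => g k x) = _
      by_cases ha : ∃ j ∈ Ac i, x j = σ (x (b i))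
      · have e : g i x = η (x (b i)) := p3 i x hx hall ha
        have hgS : g i x ∈ S := p1 i x hx
        by_cases hk : ∃ k ∈ Act, g k x = σ (g i x)
        · obtain ⟨k, hk, hk2⟩ := hk
          have hk3 : g k x = σ (x (b i)) := by
            rcases hg k with h | h
            · exact absurd (hk2 ▸ h) (h3 _ hgS)
            · exact h
          have hk4 : g i x = x (b i) := h4 hgS hx (by rw [← hk2, hk3])
          rw [q3 (fun k => g k x) hgS (by simpa only [hk4] using hg) ⟨k, hk, hk2⟩]
          simp only [hk4]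
        · push Not at hk
          rw [q2 (fun k => g k x) hgS hk]
          exact e
      · have e : g i x = x (b i) := by
          apply p2 i x hx
          push Not at ha
          exact ha
        obtain ⟨j, ⟨hj1, hj2⟩, hj3⟩ := hex
        rcases hj2 with hj2 | ⟨k, hk, rfl⟩
        · exact absurd ⟨j, hj2, hj3⟩ ha
        · have hbk : x (b k) ∉ S := by rw [hj3]; exact hnot
          have e2 : g k x = σ (x (b i)) := by rw [p0 k x hbk, hj3]
          rw [q3 (fun k => g k x) (by simp only [e]; exact hx) (by simpa only [e] using hg)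
            ⟨k, hk, by simp only [e]; exact e2⟩]
          simp only [e]

section caseTwo
variable {X Y : CloneOn A}

/-- conjugate clone -/
def Cj (σ : A → A) (hσ : Inv σ) (C : CloneOn A) : CloneOn A where
  carrier n := {f | (fun x => σ (f (fun i => σ (x i)))) ∈ C.carrier n}
  proj_mem n i := by
    have : (fun x : Fin (n + 1) → A => σ (σ (x i))) = fun x => x i := by
      funext x; rw [hσ]
    show (fun x : Fin (n + 1) → A => σ (σ (x i))) ∈ C.carrier n
    rw [this]; exact C.proj_mem n i
  comp_mem m n f g hf hg := by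
    have := C.comp_mem m n _ (fun i x => σ (g i (fun j => σ (x j)))) hf hg
    simp only [hσ _] at this
    exact this

theorem conj_closed (hP : Pc X Y) (hinv : ∀ σ, Inv σ → X.M1 σ) {η σ : A → A} (hσ : Inv σ)
    (h : Y.M1 η) : Y.M1 (fun x => σ (η (σ x))) := by
  have hD : Cj σ hσ Y ≤ Y := by
    apply hP.max
    intro n f hfX hfC
    have h1 : (fun x => σ (f (fun i => σ (x i)))) ∈ X.carrier n := by
      have h2 : (fun x => f (fun i => σ (x i))) ∈ X.carrier n :=
        X.comp_mem n n f (fun i x => σ (x i)) hfX (fun i => (hinv σ hσ).lift i)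
      exact (hinv σ hσ).app h2
    obtain ⟨i, hi⟩ := hP.dj n _ h1 hfC
    refine ⟨i, ?_⟩
    funext x
    have h2 := congrFun hi (fun j => σ (x j))
    simp only [hσ _] at h2
    have h3 := congrArg σ h2
    rw [hσ, hσ] at h3
    exact h3
  apply hD
  show (fun x : Fin 1 → A => σ (σ (η (σ (σ (x 0)))))) ∈ Y.carrier 0
  have : (fun x : Fin 1 → A => σ (σ (η (σ (σ (x 0)))))) = fun x => η (x 0) := by
    funext x; rw [hσ, hσ]
  rw [this]; exact h

/-- hidden functions -/
def Hid (η : A → A) : Prop :=
  ∃ (S : Set A) (l : A → A), Set.InjOn l S ∧ (∀ x ∈ S, l x ∉ S) ∧ (∀ x ∈ S, η x ∈ S) ∧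
    ∀ x, x ∉ S → η x = x

theorem hid_not (hP : Pc X Y) (hinv : ∀ σ, Inv σ → X.M1 σ)
    (hrr : ∀ b c, b ≠ c → X.M1 (rr b c)) {η : A → A} (hη : Hid η) (hY : Y.M1 η) :
    η = fun x => x := by
  classical
  by_contra hne
  obtain ⟨S, l, hl1, hl2, h1, h2⟩ := hη
  obtain ⟨σ, hσ, hσl⟩ := inv_ext hl1 hl2
  have h3 : ∀ x ∈ S, σ x ∉ S := fun x hx => by rw [hσl x hx]; exact hl2 x hx
  have h4 : Set.InjOn σ S := fun x hx y hy h => hl1 hx hy (by rw [← hσl x hx, ← hσl y hy]; exact h)
  have hD : DG S η σ h1 h3 h4 ≤ Y := by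
    apply hP.max
    rintro n f hfX ⟨i, Act, hiA, q0, q1, q2, q3⟩
    by_contra hf
    apply hne
    obtain ⟨x, hx⟩ : ∃ x, f x ≠ x i := by
      by_contra hh
      push Not at hh
      exact hf ⟨i, funext hh⟩
    have hxS : x i ∈ S := by
      by_contra h; exact hx (q0 x h)
    obtain ⟨j, hj, hj2⟩ : ∃ j ∈ Act, x j = σ (x i) := by
      by_contra hh
      push Not at hh
      exact hx (q2 x hxS hh)
    have hsub : X.M1 (fun x => f (fun j => if j ∈ Act then σ x else x)) := by
      have : X.M1 (fun x => f (fun j => (if j ∈ Act then σ else fun x => x) x)) :=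
        subst1 hfX (fun j => by split_ifs; exact hinv σ hσ; exact X.m1_id)
      convert this using 4 with x j
      split_ifs <;> rfl
    have e : (fun x => f (fun j => if j ∈ Act then σ x else x)) = η := by
      funext t
      by_cases ht : t ∈ S
      · rw [q3 _ (by simpa [hiA] using ht)]
        · simp [hiA]
        · intro k
          simp only [hiA, if_false]
          by_cases hk : k ∈ Act
          · right; simp [hk]
          · left; simpa [hk] using ht
        · exact ⟨j, hj, by simp [hj, hiA]⟩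
      · rw [q0 _ (by simpa [hiA] using ht), h2 t ht]
        simp [hiA]
    rw [e] at hsub
    exact hP.dj.m1 hsub hY
  have hG : Y.M2 (fun x y => if x ∈ S ∧ y = σ x then η x else x) := by
    apply hD
    refine ⟨0, {1}, by simp, ?_, ?_, ?_, ?_⟩
    · intro x hx; simp [hx]
    · intro x hx
      dsimp only
      split_ifs with h
      · exact h1 _ h.1
      · exact hx
    · intro x hx h
      have := h 1 rfl
      simp [this]
    · rintro x hx _ ⟨j, hj, hj2⟩
      have hj : j = 1 := hj
      subst hj
      simp [hx, hj2]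
  obtain ⟨b, hb⟩ : ∃ b, η b ≠ b := by
    by_contra hh
    push Not at hh
    exact hne (funext hh)
  have hbS : b ∈ S := by
    by_contra h; exact hb (h2 b h)
  set c := η b with hc
  have hcS : c ∈ S := h1 b hbS
  have hσb : σ b ∉ S := h3 b hbS
  have hπ := conj_closed hP hinv (sw_inv c (σ b)) hY
  have h5 := hG.app1 Y.m1_id hπ
  have hpS : ∀ x ∈ S, x ≠ c → sw c (σ b) x = x := fun x hx hxc =>
    sw_other hxc (fun h => hσb (h ▸ hx))
  have e : (fun x => if x ∈ S ∧ sw c (σ b) (η (sw c (σ b) x)) = σ x then η x else x)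
      = rr b c := by
    funext x
    by_cases hx : x ∈ S
    · simp only [hx, true_and]
      by_cases hxb : x = b
      · subst hxb
        rw [hpS x hx (Ne.symm hb), ← hc, sw_left, if_pos rfl]
        simp [rr]
      · have hr : rr b c x = x := by simp [rr, hxb]
        rw [hr, if_neg]
        intro h
        by_cases hxc : x = c
        · rw [hxc, sw_left, h2 _ hσb, sw_right] at h
          exact h3 c hcS (h ▸ hcS)
        · rw [hpS x hx hxc] at h
          by_cases hxc2 : η x = c
          · rw [hxc2, sw_left] at h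
            exact hxb (h4 hbS hx h).symm
          · rw [hpS _ (h1 x hx) hxc2] at h
            exact h3 x hx (h ▸ h1 x hx)
    · have hxb : x ≠ b := fun h => hx (h ▸ hbS)
      simp [hx, rr, hxb]
  rw [e] at h5
  exact rr_ne (Ne.symm hb) (hP.dj.m1 (hrr b c (Ne.symm hb)) h5)

theorem pow_mem (hP : Pc X Y) {φ : A → A} (h : ¬ Y.M1 φ) : ∃ N, 1 ≤ N ∧ X.M1 (φ^[N]) := by
  by_contra hh
  push Not at hh
  apply h
  have h1 : (id : A → A) ∈ Set.range (fun n => φ^[n]) := ⟨0, rfl⟩
  have h2 : ∀ f ∈ Set.range (fun n => φ^[n]), ∀ g ∈ Set.range (fun n => φ^[n]),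
      f ∘ g ∈ Set.range (fun n => φ^[n]) := by
    rintro _ ⟨m, rfl⟩ _ ⟨n, rfl⟩
    exact ⟨m + n, by simp only [Function.iterate_add]⟩
  have hD : EU _ h1 h2 ≤ Y := by
    apply hP.max
    rintro n f hfX ⟨i, _, ⟨N, rfl⟩, rfl⟩
    rcases Nat.eq_zero_or_pos N with h0 | h0
    · subst h0
      exact ⟨i, rfl⟩
    · exact absurd (M1.of_lift hfX) (hh N h0)
  exact EU_le.1 hD φ ⟨1, rfl⟩

theorem case2 [Infinite A] (hP : Pc X Y) (hinv : ∀ σ, Inv σ → X.M1 σ)
    (hrr : ∀ b c, b ≠ c → X.M1 (rr b c)) (θ : A → A) : X.M1 θ := by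
  classical
  obtain ⟨e⟩ := exists_equiv_big (A := A)
  obtain ⟨e₁⟩ := exists_equiv_sum (A := A)
  set ε : A → A := fun x => if (e x).1 = true then e.symm (true, ((e x).2.1 + 1, (e x).2.2))
    else x with hε
  set g : A → A := fun x => if (e x).1 = true then e.symm (true, ((e x).2.1 - 1, (e x).2.2))
    else x with hg
  set l : A → A := fun x => e.symm (!(e x).1, (e x).2) with hl
  have hgε : Function.LeftInverse g ε := by
    intro x
    simp only [hg, hε]
    by_cases h : (e x).1 = true
    · simp only [h, if_true, Equiv.apply_symm_apply]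
      rw [Equiv.symm_apply_eq]
      ext <;> simp [h]
    · simp [h]
  have hli : Function.Injective l := by
    intro x y h
    have h := e.symm.injective h
    simp only [Prod.mk.injEq] at h
    apply e.injective
    exact Prod.ext (by simpa using h.1) h.2
  have hlS : ∀ x ∈ {x : A | (e x).1 = true}, l x ∉ {x : A | (e x).1 = true} := by
    intro x hx
    have hx : (e x).1 = true := hx
    show ¬ (e (l x)).1 = true
    simp [hl, hx]
  have hidε : Hid ε := by
    refine ⟨{x | (e x).1 = true}, l, hli.injOn, hlS, ?_, ?_⟩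
    · intro x hx
      have hx : (e x).1 = true := hx
      show (e (ε x)).1 = true
      simp [hε, hx]
    · intro x hx
      have hx : ¬ (e x).1 = true := hx
      simp [hε, hx]
  have hidg : Hid g := by
    refine ⟨{x | (e x).1 = true}, l, hli.injOn, hlS, ?_, ?_⟩
    · intro x hx
      have hx : (e x).1 = true := hx
      show (e (g x)).1 = true
      simp [hg, hx]
    · intro x hx
      have hx : ¬ (e x).1 = true := hx
      simp [hg, hx]
  obtain ⟨a0⟩ : Nonempty A := inferInstance
  have hεY : ¬ Y.M1 ε := by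
    intro h
    have := congrFun (hid_not hP hinv hrr hidε h) (e.symm (true, (0, a0)))
    simp [hε] at this
  have hgY : ¬ Y.M1 g := by
    intro h
    have := congrFun (hid_not hP hinv hrr hidg h) (e.symm (true, (1, a0)))
    simp [hg] at this
  obtain ⟨N, hN, hNX⟩ := pow_mem hP hεY
  obtain ⟨N', hN', hNX'⟩ := pow_mem hP hgY
  set K := N * N' with hK
  have hK1 : 1 ≤ K := Nat.mul_pos hN hN'
  have hEX : X.M1 (ε^[K]) := by
    rw [hK, Function.iterate_mul]; exact hNX.iterate N'
  have hGX : X.M1 (g^[K]) := by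
    rw [hK, Nat.mul_comm, Function.iterate_mul]; exact hNX'.iterate N
  set E := ε^[K] with hE
  set G := g^[K] with hG
  have hGE : Function.LeftInverse G E := hgε.iterate K
  set κ : A → A := fun x => e.symm (true, (0, e₁ (Sum.inl x))) with hκ
  set lam : A → A := fun x => e.symm (true, (0, e₁ (Sum.inr x))) with hlam
  have hκi : Function.Injective κ := by
    intro x y h
    have h := e.symm.injective h
    simp only [Prod.mk.injEq, true_and] at h
    exact Sum.inl_injective (e₁.injective h)
  have hlami : Function.Injective lam := by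
    intro x y h
    have h := e.symm.injective h
    simp only [Prod.mk.injEq, true_and] at h
    exact Sum.inr_injective (e₁.injective h)
  have hκlam : ∀ x y, κ x ≠ lam y := by
    intro x y h
    have h := e.symm.injective h
    simp only [Prod.mk.injEq, true_and] at h
    have := e₁.injective h
    simp at this
  have hεr : ∀ x a, ε x ≠ e.symm (true, (0, a)) := by
    intro x a h
    simp only [hε] at h
    split_ifs at h with h1
    · have h := e.symm.injective h
      simp at h
    · rw [h] at h1
      simp at h1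
  have hEr : ∀ x a, E x ≠ e.symm (true, (0, a)) := by
    intro x a
    obtain ⟨K', hK'⟩ : ∃ K', K = K' + 1 := ⟨K - 1, by omega⟩
    rw [hE, hK', Function.iterate_succ_apply']
    exact hεr _ a
  -- κ is in X
  obtain ⟨π, hπ, hπ2⟩ : ∃ σ, Inv σ ∧ ∀ z ∈ Set.range E, σ z = κ (G z) := by
    apply inv_ext
    · rintro _ ⟨x, rfl⟩ _ ⟨y, rfl⟩ h
      simp only [hGE x, hGE y] at h
      rw [hκi h]
    · rintro _ ⟨x, rfl⟩ ⟨y, hy⟩
      exact hEr y _ hy
  have hκX : X.M1 κ := by
    have := (hinv π hπ).comp hEX
    have e2 : (fun x => π (E x)) = κ := by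
      funext x
      rw [hπ2 _ ⟨x, rfl⟩, hGE x]
    rwa [e2] at this
  set ω : A → A := fun x => if x ∈ Set.range κ then E (θ (Function.invFun κ x)) else x with hω
  have hωκ : ∀ x, ω (κ x) = E (θ x) := by
    intro x
    simp only [hω]
    rw [if_pos ⟨x, rfl⟩, Function.leftInverse_invFun hκi x]
  have hEκ : ∀ x, E x ∉ Set.range κ := by
    rintro x ⟨y, hy⟩
    exact hEr x _ hy.symm
  have hω2 : ∀ x, x ∉ Set.range κ → ω x = x := by
    intro x hx
    simp only [hω]
    rw [if_neg hx]
  have hωat : At ω := by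
    left
    funext x
    simp only [Function.comp]
    by_cases hx : x ∈ Set.range κ
    · obtain ⟨y, rfl⟩ := hx
      rw [hωκ, hω2 _ (hEκ _)]
    · rw [hω2 x hx, hω2 x hx]
  have hωhid : Hid ω := by
    refine ⟨Set.range κ ∪ Set.range E, lam, hlami.injOn, ?_, ?_, ?_⟩
    · rintro x _ (⟨y, hy⟩ | ⟨y, hy⟩)
      · exact hκlam _ _ hy
      · exact hEr y _ hy
    · rintro _ (⟨y, rfl⟩ | ⟨y, rfl⟩)
      · rw [hωκ]; exact Or.inr ⟨_, rfl⟩
      · rw [hω2 _ (hEκ _)]; exact Or.inr ⟨_, rfl⟩
    · intro x hx
      exact hω2 x (fun h => hx (Or.inl h))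
  have hωX : X.M1 ω := by
    rcases hP.color hωat with h | h
    · exact h
    · rw [hid_not hP hinv hrr hωhid h]; exact X.m1_id
  have h1 := hGX.comp (hωX.comp hκX)
  have e3 : (fun x => G (ω (κ x))) = θ := by
    funext x
    rw [hωκ, hGE]
  rwa [e3] at h1

end caseTwo

theorem three_of_infinite [Infinite A] (a b : A) : ∃ c : A, c ≠ a ∧ c ≠ b := by
  classical
  obtain ⟨c, hc⟩ := Infinite.exists_notMem_finset ({a, b} : Finset A)
  simp only [Finset.mem_insert, Finset.mem_singleton, not_or] at hc
  exact ⟨c, hc.1, hc.2⟩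

/-- On an infinite set the pseudocomplement of a nontrivial clone is idempotent. -/
theorem infinite_class [Infinite A] {X Y : CloneOn A} (hP : Pc X Y) (hX : ¬ Dj X (top A)) :
    Y ≤ idem A := by
  have h3 := three_of_infinite (A := A)
  have hl2 := link2 hP
  rcases inv_color h3 hP with hinv | hinv
  · apply le_idem_of_all hP
    apply case2 hP hinv
    intro b c hbc
    obtain ⟨a, hab, hac⟩ := h3 b c
    exact link3_X hP hinv hab hac hbc
  · rcases const_color hP with hc | hc
    · exact (hl2.1 hc hinv).elim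
    · exact (hX (case1 hP hc hinv)).elim

end Pool.Agent.Helper583
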