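import Mathlib
import Pool.Agent.Helper583.ClInf2

set_option autoImplicit false
set_option linter.unusedVariables false

namespace Pool.Agent.Helper583

universe u

open CloneOn

section poset
variable {P : Type u} [PartialOrder P]

def Bt (x : P) : Prop := ∀ y, x ≤ y
def Tp (x : P) : Prop := ∀ y, y ≤ x
def Djo (x d : P) : Prop := ∀ z, z ≤ x → z ≤ d → Bt z
def Pco (x y : P) : Prop := ∀ d, Djo x d ↔ d ≤ y
def InP (y : P) : Prop := ∃ x, ¬ Bt x ∧ Pco x y
def Atm (x : P) : Prop := ¬ Bt x ∧ ∀ d, d ≤ x → Bt d ∨ x ≤ d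
def Coa (x : P) : Prop := ¬ Tp x ∧ ∀ d, x ≤ d → Tp d ∨ d ≤ x
def IsI (y : P) : Prop := InP y ∧ ∀ y', InP y' → y' ≤ y
def LJ (e c d : P) : Prop := ∀ t, c ≤ t → d ≤ t → e ≤ t
def IsJ (t c d : P) : Prop := c ≤ t ∧ d ≤ t ∧ ∀ s, c ≤ s → d ≤ s → t ≤ s

/-- the point clones, `i` is the idempotent clone -/
def PtI (i c : P) : Prop :=
  Atm c ∧ ∃ t, IsJ t c i ∧ Coa t ∧ ∀ c', Atm c' → ∀ t', IsJ t' c' i → Coa t' → t' ≠ t →
    ∃ c'', Atm c'' ∧ IsJ t' c'' i ∧ ∀ d, Atm d → LJ d c c'' → d = c ∨ d = c''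

/-- the function clones -/
def FnI (i s m : P) : Prop :=
  Atm m ∧ ¬ m ≤ i ∧ ∀ c, PtI i c →
    (c ≤ s → ∃ d, PtI i d ∧ ¬ d ≤ s ∧ LJ d m c ∧ ∀ d', PtI i d' → LJ d' m c → d' = c ∨ d' = d) ∧
    (¬ c ≤ s → ∀ d', PtI i d' → LJ d' m c → d' = c)

def Good (i s m : P) : Prop :=
  FnI i s m ∧ ∀ d, PtI i d → ¬ d ≤ s → ∃ c, PtI i c ∧ c ≤ s ∧ LJ d m c ∧
    ∀ c', PtI i c' → c' ≤ s → LJ d m c' → c' = c

end poset

variable {A : Type u}

theorem bt_iff {Z : CloneOn A} : Bt Z ↔ ∀ n (f : (Fin (n + 1) → A) → A), f ∈ Z.carrier n →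
    IsProj f :=
  ⟨fun h n f hf => h (bot A) n hf, fun h D n f hf => D.isProj_mem (h n f hf)⟩

theorem tp_iff {Z : CloneOn A} : Tp Z ↔ top A ≤ Z :=
  ⟨fun h => h _, fun h D => (le_top' D).trans h⟩

theorem djo_iff {X D : CloneOn A} : Djo X D ↔ Dj X D := by
  constructor
  · intro h n f h1 h2
    exact bt_iff.1 (h (inf X D) inf_le_left' inf_le_right') n f ⟨h1, h2⟩
  · intro h Z h1 h2
    rw [bt_iff]
    intro n f hf
    exact h n f (h1 n hf) (h2 n hf)

theorem pco_iff {X Y : CloneOn A} : Pco X Y ↔ Pc X Y := by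
  constructor
  · intro h
    refine ⟨djo_iff.1 ((h Y).2 le_rfl), fun D hD => (h D).1 (djo_iff.2 hD)⟩
  · intro h D
    rw [djo_iff]
    refine ⟨h.max D, fun hD n f h1 h2 => h.dj n f h1 (hD n h2)⟩

theorem not_bt_iff {X : CloneOn A} : ¬ Bt X ↔ ¬ Dj X (top A) := by
  rw [bt_iff]
  constructor
  · intro h h'
    exact h (fun n f hf => h' n f hf trivial)
  · intro h h'
    exact h (fun n f hf _ => h' n f hf)

/-- all essentially unary operations -/
def Un (A : Type u) : CloneOn A := EU Set.univ trivial (fun _ _ _ _ => trivial)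

theorem pc_Un : Pc (Un A) (idem A) := by
  constructor
  · rintro n f ⟨i, m, _, rfl⟩ h
    refine ⟨i, ?_⟩
    funext x
    exact mem_idem.1 h (x i)
  · intro D hD n f hf
    rw [mem_idem]
    intro x
    exact congrFun (hD.m1 (EU_M1.2 trivial) (diag hf)) x

theorem const_ne [Nontrivial A] (a : A) : (fun _ : A => a) ≠ fun x => x := by
  intro h
  obtain ⟨b, hb⟩ := exists_ne a
  exact hb (congrFun h b).symm

theorem not_bt_of_m1 {Z : CloneOn A} {φ : A → A} (h : Z.M1 φ) (hφ : φ ≠ fun x => x) : ¬ Bt Z := by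
  intro h'
  exact hφ (isProj_lift (bt_iff.1 h' 0 _ h))

theorem inP_idem [Nontrivial A] : InP (idem A) := by
  refine ⟨Un A, ?_, pco_iff.2 pc_Un⟩
  obtain ⟨a⟩ : Nonempty A := inferInstance
  exact not_bt_of_m1 (φ := fun _ => a) (EU_M1.2 trivial) (const_ne a)

theorem inP_le [Infinite A] {Y : CloneOn A} (h : InP Y) : Y ≤ idem A := by
  obtain ⟨X, h1, h2⟩ := h
  exact infinite_class (pco_iff.1 h2) (not_bt_iff.1 h1)

theorem isI_iff [Infinite A] {Y : CloneOn A} : IsI Y ↔ Y = idem A := by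
  constructor
  · intro h
    exact le_antisymm (inP_le h.1) (h.2 _ inP_idem)
  · rintro rfl
    exact ⟨inP_idem, fun y h => inP_le h⟩

theorem inP_fin [Finite A] [Nonempty A] (h3 : ∀ a b : A, ∃ c, c ≠ a ∧ c ≠ b) {Y : CloneOn A}
    (h : InP Y) : Y ≤ idem A ∨ ∀ T, Coa T → Y ≤ T → T = Y := by
  obtain ⟨X, h1, h2⟩ := h
  rcases finite_class h3 (pco_iff.1 h2) with h | h
  · exact Or.inl h
  · right
    intro T hT hYT
    by_contra hne
    apply hT.1
    rw [tp_iff]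
    exact h T hYT (fun h' => hne (le_antisymm h' hYT))

/-- support lemma -/
theorem supp1 {D : CloneOn A} (hD : idem A ≤ D) {φ : A → A} (hφ : D.M1 φ) {n : ℕ}
    {h : (Fin (n + 1) → A) → A} (hh : ∀ x, φ x = x → h (fun _ => x) = x) : h ∈ D.carrier n := by
  classical
  set F : (Fin (n + 1 + 1) → A) → A := fun z =>
    if z (Fin.last (n + 1)) = φ (z 0) then h (fun i => z i.castSucc) else z (Fin.last (n + 1))
    with hF
  have hFm : F ∈ D.carrier (n + 1) := by
    apply hD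
    rw [mem_idem]
    intro x
    simp only [hF]
    split_ifs with h1
    · exact hh x h1.symm
    · rfl
  have := D.comp_mem (n + 1) n F
    (Fin.snoc (α := fun _ => (Fin (n + 1) → A) → A) (fun i x => x i) (fun x => φ (x 0))) hFm
    (by
      intro i
      refine Fin.lastCases ?_ ?_ i
      · rw [Fin.snoc_last]
        exact hφ.lift 0
      · intro i
        rw [Fin.snoc_castSucc]
        exact D.proj_mem n i)
  have e : (fun x : Fin (n + 1) → A => F (fun i => (Fin.snoc (α := fun _ => (Fin (n + 1) → A) → A)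
      (fun i x => x i) (fun x => φ (x 0)) : Fin (n + 1 + 1) → (Fin (n + 1) → A) → A) i x)) = h := by
    funext x
    have h0 : (0 : Fin (n + 1 + 1)) = Fin.castSucc 0 := rfl
    simp only [hF, h0, Fin.snoc_last, Fin.snoc_castSucc, if_true]
  rw [e] at this
  exact this

theorem supp2 {D : CloneOn A} (hD : idem A ≤ D) {φ ψ : A → A} (hφ : D.M1 φ) (hψ : D.M1 ψ) :
    ∃ χ, D.M1 χ ∧ ∀ x, χ x = x → φ x = x ∧ ψ x = x := by
  classical
  have h3 : D.M3 (fun x y z => if y = x then z else y) := by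
    apply hD
    rw [mem_idem]
    intro x
    simp
  refine ⟨_, h3.app1 D.m1_id hφ hψ, ?_⟩
  intro x hx
  split_ifs at hx with h
  · exact ⟨h, hx⟩
  · exact absurd hx h

/-- the coatom given by the point `a` -/
def Ta (a : A) : CloneOn A := DS {a}ᶜ

theorem mem_Ta {a : A} {n : ℕ} {f : (Fin (n + 1) → A) → A} :
    f ∈ (Ta a).carrier n ↔ f (fun _ => a) = a := by
  simp [Ta, mem_DS]

theorem Ta_M1 {a : A} {φ : A → A} : (Ta a).M1 φ ↔ φ a = a := by
  simp [Ta, DS_M1]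

theorem idem_le_Ta (a : A) : idem A ≤ Ta a := DS_mono (by simp)

theorem top_le_of_full {D : CloneOn A} (hD : idem A ≤ D) {φ : A → A} (hφ : D.M1 φ)
    (h : ∀ x, φ x ≠ x) : top A ≤ D := fun n f _ => supp1 hD hφ (fun x hx => absurd hx (h x))

theorem Ta_not_top [Nontrivial A] (a : A) : ¬ top A ≤ Ta a := by
  intro h
  obtain ⟨b, hb⟩ := exists_ne a
  have : (Ta a).M1 (fun _ => b) := h 0 trivial
  exact hb (Ta_M1.1 this)

theorem Ta_coa [Nontrivial A] (a : A) : Coa (Ta a) := by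
  constructor
  · rw [tp_iff]; exact Ta_not_top a
  · intro D hD
    by_cases h : D ≤ Ta a
    · exact Or.inr h
    · left
      rw [tp_iff]
      rw [CloneOn.le_def] at h
      push Not at h
      obtain ⟨n, h⟩ := h
      rw [Set.not_subset] at h
      obtain ⟨f, hf, hf2⟩ := h
      rw [mem_Ta] at hf2
      have hI : idem A ≤ D := (idem_le_Ta a).trans hD
      obtain ⟨χ, hχ, hχ2⟩ := supp2 hI (diag hf) (M1.mono hD (Ta_M1.2 rfl : (Ta a).M1 (fun _ => a)))
      apply top_le_of_full hI hχ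
      intro x hx
      obtain ⟨h1, h2⟩ := hχ2 x hx
      subst h2
      exact hf2 h1

theorem Ta_inj [Nontrivial A] {a b : A} (h : Ta a = Ta b) : a = b := by
  have : (Ta b).M1 (fun _ => a) := by rw [← h]; exact Ta_M1.2 rfl
  exact Ta_M1.1 this

theorem coa_eq_Ta [Nontrivial A] {T : CloneOn A} (hT : Coa T) {a : A} (h : T ≤ Ta a) : T = Ta a := by
  rcases hT.2 _ h with h1 | h1
  · exact absurd (tp_iff.1 h1) (Ta_not_top a)
  · exact le_antisymm h h1

theorem coa_above_idem_fin [Finite A] [Nontrivial A] {T : CloneOn A} (hT : Coa T)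
    (h : idem A ≤ T) : ∃ a, T = Ta a := by
  classical
  by_contra hh
  push Not at hh
  have h1 : ∀ a, ∃ φ, T.M1 φ ∧ φ a ≠ a := by
    intro a
    have : ¬ T ≤ Ta a := fun h => hh a (coa_eq_Ta hT h)
    rw [CloneOn.le_def] at this
    push Not at this
    obtain ⟨n, h⟩ := this
    rw [Set.not_subset] at h
    obtain ⟨f, hf, hf2⟩ := h
    rw [mem_Ta] at hf2
    exact ⟨_, diag hf, hf2⟩
  have := Fintype.ofFinite A
  have h2 : ∀ S : Finset A, ∃ φ, T.M1 φ ∧ ∀ x ∈ S, φ x ≠ x := by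
    intro S
    induction S using Finset.induction_on with
    | empty => exact ⟨fun x => x, T.m1_id, by simp⟩
    | insert a S _ ih =>
      obtain ⟨φ, hφ, hφ2⟩ := ih
      obtain ⟨ψ, hψ, hψ2⟩ := h1 a
      obtain ⟨χ, hχ, hχ2⟩ := supp2 h hφ hψ
      refine ⟨χ, hχ, ?_⟩
      intro x hx hx2
      obtain ⟨e1, e2⟩ := hχ2 x hx2
      rcases Finset.mem_insert.1 hx with rfl | hx
      · exact hψ2 e2
      · exact hφ2 x hx e1
  obtain ⟨φ, hφ, hφ2⟩ := h2 Finset.univ
  exact hT.1 (tp_iff.2 (top_le_of_full h hφ (fun x => hφ2 x (Finset.mem_univ x))))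

end Pool.Agent.Helper583
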