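import Mathlib
import Pool.Agent.Helper583.ClOrd

set_option autoImplicit false
set_option linter.unusedVariables false

namespace Pool.Agent.Helper583

universe u

open CloneOn

section transport
variable {A B : Type u}

/-- transport of a clone along a bijection -/
def mapC (e : A ≃ B) (C : CloneOn A) : CloneOn B where
  carrier n := {f | (fun x : Fin (n + 1) → A => e.symm (f (fun i => e (x i)))) ∈ C.carrier n}
  proj_mem n i := by
    show (fun x : Fin (n + 1) → A => e.symm (e (x i))) ∈ C.carrier n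
    simp only [Equiv.symm_apply_apply]
    exact C.proj_mem n i
  comp_mem m n f g hf hg := by
    have := C.comp_mem m n _ (fun i x => e.symm (g i (fun j => e (x j)))) hf hg
    simp only [Equiv.apply_symm_apply] at this
    exact this

theorem mapC_mono {e : A ≃ B} {C D : CloneOn A} (h : C ≤ D) : mapC e C ≤ mapC e D :=
  fun n _ hf => h n hf

theorem mapC_symm (e : A ≃ B) (C : CloneOn A) : mapC e.symm (mapC e C) = C := by
  ext n f
  show (fun x : Fin (n + 1) → A => e.symm (e.symm.symm (f fun i => e.symm (e (x i))))) ∈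
    C.carrier n ↔ _
  simp

/-- the clone lattices of equinumerous sets are isomorphic -/
def mapIso (e : A ≃ B) : CloneOn A ≃o CloneOn B where
  toFun := mapC e
  invFun := mapC e.symm
  left_inv := mapC_symm e
  right_inv C := by
    have := mapC_symm e.symm C
    rwa [Equiv.symm_symm] at this
  map_rel_iff' := by
    intro C D
    constructor
    · intro h
      have := mapC_mono (e := e.symm) h
      change mapC e.symm (mapC e C) ≤ mapC e.symm (mapC e D) at this
      rwa [mapC_symm, mapC_symm] at this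
    · exact mapC_mono

theorem Bt.map {P Q : Type u} [PartialOrder P] [PartialOrder Q] (e : P ≃o Q) {x : P} (h : Bt x) :
    Bt (e x) := fun y => by
  have := h (e.symm y)
  rwa [← e.le_iff_le, e.apply_symm_apply] at this

theorem Atm.map {P Q : Type u} [PartialOrder P] [PartialOrder Q] (e : P ≃o Q) {x : P}
    (h : Atm x) : Atm (e x) := by
  constructor
  · intro h'
    apply h.1
    have := h'.map e.symm
    rwa [e.symm_apply_apply] at this
  · intro d hd
    have h1 : e.symm d ≤ x := by rwa [e.symm_apply_le]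
    rcases h.2 _ h1 with h2 | h2
    · left
      have := h2.map e
      rwa [e.apply_symm_apply] at this
    · right
      rwa [← e.le_symm_apply]

end transport

variable {A : Type u}

/-- the clone generated by a unary function -/
def Gm (φ : A → A) : CloneOn A :=
  EU (Set.range (fun n => φ^[n])) ⟨0, rfl⟩ (by
    rintro _ ⟨m, rfl⟩ _ ⟨n, rfl⟩
    exact ⟨m + n, by simp only [Function.iterate_add]⟩)

theorem Gm_le {φ : A → A} {D : CloneOn A} : Gm φ ≤ D ↔ D.M1 φ := by
  rw [Gm, EU_le]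
  constructor
  · intro h
    exact h φ ⟨1, rfl⟩
  · rintro h _ ⟨n, rfl⟩
    exact h.iterate n

theorem Gm_self (φ : A → A) : (Gm φ).M1 φ := Gm_le.1 le_rfl

theorem mem_Gm {φ : A → A} {n : ℕ} {f : (Fin (n + 1) → A) → A} (h : f ∈ (Gm φ).carrier n) :
    ∃ i k, f = fun x => φ^[k] (x i) := by
  obtain ⟨i, m, ⟨k, rfl⟩, rfl⟩ := h
  exact ⟨i, k, rfl⟩

theorem Gm_M1 {φ ψ : A → A} (h : (Gm φ).M1 ψ) : ∃ k, ψ = φ^[k] := by
  obtain ⟨k, hk⟩ := EU_M1.1 h
  exact ⟨k, hk.symm⟩

theorem iter_idem {φ : A → A} (h : ∀ x, φ (φ x) = φ x) (k : ℕ) : φ^[k] = id ∨ φ^[k] = φ := by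
  induction k with
  | zero => exact Or.inl rfl
  | succ k ih =>
    right
    rw [Function.iterate_succ']
    rcases ih with ih | ih
    · rw [ih]; rfl
    · rw [ih]; exact funext h

theorem Gm_not_bt {φ : A → A} (h : φ ≠ fun x => x) : ¬ Bt (Gm φ) := not_bt_of_m1 (Gm_self φ) h

theorem exists_nonproj {Z : CloneOn A} (h : ¬ Bt Z) :
    ∃ n, ∃ f : (Fin (n + 1) → A) → A, f ∈ Z.carrier n ∧ ¬ IsProj f := by
  rw [bt_iff] at h
  push Not at h
  exact h

theorem Gm_atm {φ : A → A} (h : ∀ x, φ (φ x) = φ x) (hφ : φ ≠ fun x => x) : Atm (Gm φ) := by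
  refine ⟨Gm_not_bt hφ, ?_⟩
  intro d hd
  by_cases hb : Bt d
  · exact Or.inl hb
  · right
    obtain ⟨n, f, hf, hf2⟩ := exists_nonproj hb
    obtain ⟨i, k, rfl⟩ := mem_Gm (hd n hf)
    rw [Gm_le]
    rcases iter_idem h k with e | e
    · rw [e] at hf2
      exact absurd ⟨i, rfl⟩ hf2
    · rw [e] at hf
      exact M1.of_lift hf

theorem atm_gen {C : CloneOn A} (hC : Atm C) {φ : A → A} (h : C.M1 φ) (hφ : φ ≠ fun x => x) :
    C = Gm φ := by
  have h1 : Gm φ ≤ C := Gm_le.2 h
  rcases hC.2 _ h1 with h2 | h2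
  · exact absurd h2 (Gm_not_bt hφ)
  · exact le_antisymm h2 h1

theorem atm_le {C D : CloneOn A} (hC : Atm C) {φ : A → A} (h : C.M1 φ) (hφ : φ ≠ fun x => x)
    (hD : D.M1 φ) : C ≤ D := by
  rw [atm_gen hC h hφ]; exact Gm_le.2 hD

theorem atom_unary {C : CloneOn A} (hC : Atm C) {φ : A → A} (h : C.M1 φ)
    (hφ : φ ≠ fun x => x) : (∃ k, 1 ≤ k ∧ φ^[k] = id) ∨ ∀ x, φ (φ x) = φ x := by
  by_cases h2 : φ^[2] = id
  · exact Or.inl ⟨2, by norm_num, h2⟩
  · have h3 : C ≤ Gm (φ^[2]) := atm_le hC (h.iterate 2) h2 (Gm_self _)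
    obtain ⟨n, hn⟩ := Gm_M1 (M1.mono h3 h)
    rw [← Function.iterate_mul] at hn
    have hn1 : 1 ≤ n := by
      rcases Nat.eq_zero_or_pos n with h0 | h0
      · subst h0
        exact absurd hn hφ
      · exact h0
    obtain ⟨k, hk⟩ : ∃ k, 2 * n = k + 1 := ⟨2 * n - 1, by omega⟩
    have hk1 : 1 ≤ k := by omega
    rw [hk] at hn
    -- φ = φ^[k+1]
    have e1 : φ^[k] ∘ φ^[k] = φ^[k] := by
      obtain ⟨j, hj⟩ : ∃ j, k = j + 1 := ⟨k - 1, by omega⟩
      have h5 : φ^[k + k] = φ^[k] := by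
        have : k + k = j + (k + 1) := by omega
        rw [this, Function.iterate_add, ← hn, ← Function.iterate_succ, hj]
      rw [← Function.iterate_add, h5]
    by_cases hid : φ^[k] = id
    · exact Or.inl ⟨k, hk1, hid⟩
    · right
      have h6 : C ≤ Gm (φ^[k]) := atm_le hC (h.iterate k) hid (Gm_self _)
      obtain ⟨m, hm⟩ := Gm_M1 (M1.mono h6 h)
      rcases iter_idem (φ := φ^[k]) (fun x => congrFun e1 x) m with h7 | h7
      · rw [h7] at hm
        exact absurd hm hφ
      · rw [h7] at hm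
        intro x
        have := congrFun e1 x
        rw [← hm] at this
        exact this

theorem exists_unary_of_not_le {C : CloneOn A} (h : ¬ C ≤ idem A) :
    ∃ φ, C.M1 φ ∧ φ ≠ fun x => x := by
  rw [CloneOn.le_def] at h
  push Not at h
  obtain ⟨n, h⟩ := h
  rw [Set.not_subset] at h
  obtain ⟨f, hf, hf2⟩ := h
  refine ⟨_, diag hf, ?_⟩
  intro h
  apply hf2
  rw [mem_idem]
  exact fun x => congrFun h x

theorem coa_atom [Nontrivial A] {C T : CloneOn A} (hC : Atm C) (hJ : IsJ T C (idem A))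
    (hT : Coa T) : ∃ a φ, T = Ta a ∧ C.M1 φ ∧ ∀ x, φ x = x ↔ x = a := by
  obtain ⟨φ, hφC, hφ⟩ : ∃ φ, C.M1 φ ∧ φ ≠ fun x => x := by
    apply exists_unary_of_not_le
    intro h
    have hTi : T ≤ idem A := hJ.2.2 _ h le_rfl
    obtain ⟨a, b, hab⟩ := exists_pair_ne A
    have h1 := coa_eq_Ta hT (hTi.trans (idem_le_Ta a))
    have h2 := coa_eq_Ta hT (hTi.trans (idem_le_Ta b))
    exact hab (Ta_inj (h1.symm.trans h2))
  have hDS : C ≤ DS {x | φ x ≠ x} := atm_le hC hφC hφ (by
    rw [DS_M1]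
    intro x hx
    by_contra h
    exact hx h)
  have hid : idem A ≤ DS {x | φ x ≠ x} := DS_mono (by simp)
  have hTle : T ≤ DS {x | φ x ≠ x} := hJ.2.2 _ hDS hid
  have hTM : T.M1 φ := M1.mono hJ.1 hφC
  have hge : DS {x | φ x ≠ x} ≤ T := fun n f hf => supp1 hJ.2.1 hTM (fun x hx => hf x (by simp [hx]))
  have hTe : T = DS {x | φ x ≠ x} := le_antisymm hTle hge
  obtain ⟨a, ha⟩ : ∃ a, φ a = a := by
    by_contra hh
    push Not at hh
    exact hT.1 (tp_iff.2 (top_le_of_full hJ.2.1 hTM hh))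
  have hTa : T = Ta a := by
    apply coa_eq_Ta hT
    rw [hTe]
    apply DS_mono
    intro x hx hxa
    have hxa : x = a := hxa
    subst hxa
    exact hx ha
  refine ⟨a, φ, hTa, hφC, ?_⟩
  intro x
  constructor
  · intro hx
    have : T.M1 (fun _ => a) := by rw [hTa]; exact Ta_M1.2 rfl
    rw [hTe, DS_M1] at this
    exact (this x (by simp [hx])).symm
  · rintro rfl; exact ha

/-- the clone generated by the constant `a` -/
def Ca (a : A) : CloneOn A := Gm (fun _ => a)

theorem Ca_atm [Nontrivial A] (a : A) : Atm (Ca a) := Gm_atm (fun _ => rfl) (const_ne a)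

theorem Ca_le {a : A} {D : CloneOn A} : Ca a ≤ D ↔ D.M1 (fun _ => a) := Gm_le

theorem Ca_inj [Nontrivial A] {a b : A} (h : Ca a = Ca b) : a = b := by
  have h1 : (Ca b).M1 (fun _ => a) := by rw [← h]; exact Gm_self _
  obtain ⟨k, hk⟩ := Gm_M1 h1
  rcases iter_idem (φ := fun _ : A => b) (fun _ => rfl) k with e | e
  · rw [e] at hk; exact absurd hk (const_ne a)
  · rw [e] at hk; exact congrFun hk a

theorem Ca_isJ (a : A) : IsJ (Ta a) (Ca a) (idem A) := by
  refine ⟨Ca_le.2 (Ta_M1.2 rfl), idem_le_Ta a, ?_⟩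
  intro s h1 h2 n f hf
  apply supp1 h2 (Ca_le.1 h1)
  rintro x rfl
  exact mem_Ta.1 hf

theorem ptI_Ca [Nontrivial A] (a : A) : PtI (idem A) (Ca a) := by
  refine ⟨Ca_atm a, Ta a, Ca_isJ a, Ta_coa a, ?_⟩
  intro c' hc' t' ht' hcoa hne
  obtain ⟨b, ψ, rfl, _, _⟩ := coa_atom hc' ht' hcoa
  refine ⟨Ca b, Ca_atm b, Ca_isJ b, ?_⟩
  intro d hd hdJ
  have h1 : (id : A → A) ∈ ({id, fun _ => a, fun _ => b} : Set (A → A)) := by simp
  have h2 : ∀ f ∈ ({id, fun _ => a, fun _ => b} : Set (A → A)),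
      ∀ g ∈ ({id, fun _ => a, fun _ => b} : Set (A → A)),
      f ∘ g ∈ ({id, fun _ => a, fun _ => b} : Set (A → A)) := by
    rintro f (rfl | rfl | rfl) g (rfl | rfl | rfl) <;> simp [Function.comp_def]
  have hle : d ≤ EU _ h1 h2 := hdJ _ (Ca_le.2 (EU_M1.2 (by simp))) (Ca_le.2 (EU_M1.2 (by simp)))
  obtain ⟨n, f, hf, hf2⟩ := exists_nonproj hd.1
  obtain ⟨i, m, hm, rfl⟩ := hle n hf
  rcases hm with rfl | rfl | rfl
  · exact absurd ⟨i, rfl⟩ hf2
  · left
    exact atm_gen hd (M1.of_lift (i := i) hf) (const_ne a)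
  · right
    exact atm_gen hd (M1.of_lift (i := i) hf) (const_ne b)

theorem ptI_iff [Nontrivial A] {C : CloneOn A} : PtI (idem A) C ↔ ∃ a, C = Ca a := by
  constructor
  · rintro ⟨hC, t, hJ, hcoa, hrest⟩
    obtain ⟨a, φ, rfl, hφC, hφ⟩ := coa_atom hC hJ hcoa
    obtain ⟨b, hb⟩ := exists_ne a
    obtain ⟨C'', hC'', hJ'', htwo⟩ := hrest (Ca b) (Ca_atm b) (Ta b) (Ca_isJ b) (Ta_coa b)
      (fun h => hb (Ta_inj h))
    obtain ⟨b', ψ, hb', hψC, hψ⟩ := coa_atom hC'' hJ'' (Ta_coa b)
    have := Ta_inj hb'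
    subst this
    have hφ1 : φ ≠ fun x => x := fun h => hb ((hφ b).1 (by rw [h]))
    have hψ1 : ψ ≠ fun x => x := fun h => hb ((hψ a).1 (by rw [h])).symm
    refine ⟨a, ?_⟩
    rcases atom_unary hC hφC hφ1 with ⟨k, hk, hkid⟩ | hidem
    · exfalso
      obtain ⟨j, rfl⟩ : ∃ j, k = j + 1 := ⟨k - 1, by omega⟩
      have hl : Function.LeftInverse (φ^[j]) φ := by
        intro x
        have := congrFun hkid x
        rwa [Function.iterate_succ_apply] at this
      have hr : Function.RightInverse (φ^[j]) φ := by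
        intro x
        have := congrFun hkid x
        rwa [Function.iterate_succ_apply'] at this
      let π : A ≃ A := ⟨φ, φ^[j], hl, hr⟩
      have hd : Atm (mapIso π C'') := hC''.map (mapIso π)
      set χ : A → A := fun x => φ (ψ (φ^[j] x)) with hχ
      have hdχ : (mapIso π C'').M1 χ := by
        show (fun x : Fin 1 → A => φ^[j] (φ (ψ (φ^[j] (φ (x 0)))))) ∈ C''.carrier 0
        have e : (fun x : Fin 1 → A => φ^[j] (φ (ψ (φ^[j] (φ (x 0)))))) = fun x => ψ (x 0) := by
          funext x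
          rw [hl, hl]
        rw [e]; exact hψC
      have hχb : χ (φ b) = φ b := by
        simp only [hχ]
        rw [hl, (hψ b).2 rfl]
      have hχ1 : ∀ x, χ x = x → x = φ b := by
        intro x hx
        simp only [hχ] at hx
        have h2 : ψ (φ^[j] x) = φ^[j] x := by
          have := congrArg (φ^[j]) hx
          rwa [hl] at this
        have h3 := (hψ _).1 h2
        rw [← h3, hr]
      have hχne : χ ≠ fun x => x := by
        intro h
        have h4 := hχ1 a (by rw [h])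
        have h5 := hχ1 b (by rw [h])
        exact hb (h5.trans h4.symm)
      have hgen := atm_gen hd hdχ hχne
      have hLJ : LJ (mapIso π C'') C C'' := by
        intro t h1 h2
        rw [hgen, Gm_le]
        exact (M1.mono h1 hφC).comp ((M1.mono h2 hψC).comp ((M1.mono h1 hφC).iterate j))
      rcases htwo _ hd hLJ with h | h
      · have h1 : (Ta a).M1 χ := by
          rw [h] at hdχ
          exact M1.mono hJ.1 hdχ
        have h2 := hχ1 a (Ta_M1.1 h1)
        have h3 : φ a = a := (hφ a).2 rfl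
        exact hb (hl.injective (h2.symm.trans h3.symm))
      · have h1 : (Ta b).M1 χ := by
          rw [h] at hdχ
          exact M1.mono hJ''.1 hdχ
        have h2 := hχ1 b (Ta_M1.1 h1)
        exact hb ((hφ b).1 h2.symm)
    · have e : φ = fun _ => a := by
        funext x
        exact (hφ _).1 (hidem x)
      rw [Ca, ← e]
      exact atm_gen hC hφC hφ1
  · rintro ⟨a, rfl⟩
    exact ptI_Ca a

/-- operations preserving the set `O` -/
def PolS (O : Set A) : CloneOn A where
  carrier n := {f | ∀ x, (∀ i, x i ∈ O) → f x ∈ O}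
  proj_mem n i := fun x hx => hx i
  comp_mem m n f g := fun hf hg x hx => hf _ (fun i => hg i x hx)

theorem PolS_M1 {O : Set A} {φ : A → A} : (PolS O).M1 φ ↔ ∀ x ∈ O, φ x ∈ O :=
  ⟨fun h x hx => h (fun _ => x) (fun _ => hx), fun h x hx => h _ (hx 0)⟩

theorem LJ_Ca_of {φ : A → A} {a b : A} (h : b = a ∨ b = φ a) : LJ (Ca b) (Gm φ) (Ca a) := by
  intro t h1 h2
  rw [Ca_le] at h2 ⊢
  rw [Gm_le] at h1
  rcases h with rfl | rfl
  · exact h2
  · exact h1.comp h2

theorem LJ_Ca_mem {O : Set A} {M : CloneOn A} {a b : A} (hM : M ≤ PolS O) (ha : a ∈ O)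
    (h : LJ (Ca b) M (Ca a)) : b ∈ O := by
  have := h (PolS O) hM (Ca_le.2 (PolS_M1.2 (fun _ _ => ha)))
  exact PolS_M1.1 (Ca_le.1 this) a ha

theorem fnI_iff [Nontrivial A] {S M : CloneOn A} (hS : ∃ a, Ca a ≤ S) :
    FnI (idem A) S M ↔ ∃ r : A → A, M = Gm r ∧ (∀ a, Ca a ≤ S → ¬ Ca (r a) ≤ S) ∧
      (∀ a, ¬ Ca a ≤ S → r a = a) := by
  constructor
  · rintro ⟨hM, hMi, hall⟩
    obtain ⟨φ, hφM, hφ1⟩ := exists_unary_of_not_le hMi
    have hgen := atm_gen hM hφM hφ1
    refine ⟨φ, hgen, ?_, ?_⟩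
    · intro a ha
      obtain ⟨d, hd, hdS, hdJ, huniq⟩ := (hall (Ca a) (ptI_Ca a)).1 ha
      obtain ⟨b, rfl⟩ := ptI_iff.1 hd
      have h1 := huniq (Ca (φ a)) (ptI_Ca _) (by rw [hgen]; exact LJ_Ca_of (Or.inr rfl))
      rcases h1 with h1 | h1
      · exfalso
        have h2 := Ca_inj h1
        have h3 : b ∈ ({a} : Set A) := by
          apply LJ_Ca_mem (M := M) (a := a) _ (Set.mem_singleton a) hdJ
          rw [hgen, Gm_le, PolS_M1]
          rintro x rfl
          exact h2
        rw [Set.mem_singleton_iff.1 h3] at hdS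
        exact hdS ha
      · rw [h1]; exact hdS
    · intro a ha
      have := (hall (Ca a) (ptI_Ca a)).2 ha (Ca (φ a)) (ptI_Ca _)
        (by rw [hgen]; exact LJ_Ca_of (Or.inr rfl))
      exact Ca_inj this
  · rintro ⟨r, rfl, h1, h2⟩
    have hidem : ∀ x, r (r x) = r x := by
      intro x
      by_cases hx : Ca x ≤ S
      · exact h2 _ (h1 x hx)
      · rw [h2 x hx, h2 x hx]
    obtain ⟨a0, ha0⟩ := hS
    have hr1 : r ≠ fun x => x := by
      intro h
      apply h1 a0 ha0
      rw [h]; exact ha0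
    refine ⟨Gm_atm hidem hr1, ?_, ?_⟩
    · intro h
      apply hr1
      funext x
      exact mem_idem.1 (h 0 (Gm_self r)) x
    · intro c hc
      obtain ⟨a, rfl⟩ := ptI_iff.1 hc
      have hmem : ∀ d', PtI (idem A) d' → LJ d' (Gm r) (Ca a) → d' = Ca a ∨ d' = Ca (r a) := by
        intro d' hd' hJ
        obtain ⟨b, rfl⟩ := ptI_iff.1 hd'
        have : b ∈ ({a, r a} : Set A) := by
          apply LJ_Ca_mem (M := Gm r) (a := a) _ (by simp) hJ
          rw [Gm_le, PolS_M1]
          rintro x (rfl | rfl)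
          · right; rfl
          · right; exact hidem a
        rcases this with rfl | rfl
        · exact Or.inl rfl
        · exact Or.inr rfl
      constructor
      · intro ha
        refine ⟨Ca (r a), ptI_Ca _, h1 a ha, LJ_Ca_of (Or.inr rfl), hmem⟩
      · intro ha d' hd' hJ
        rcases hmem d' hd' hJ with h | h
        · exact h
        · rw [h, h2 a ha]

end Pool.Agent.Helper583
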