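import Mathlib
import Pool.Agent.Helper583.ClPoint

set_option autoImplicit false
set_option linter.unusedVariables false
set_option linter.unusedSimpArgs false

namespace Pool.Agent.Helper583

universe u

open CloneOn

section poset
variable {P : Type u} [PartialOrder P]

def AppI (i s mb m x y : P) : Prop := ∃ d, PtI i d ∧ ¬ d ≤ s ∧ LJ d m x ∧ LJ d mb y

/-- translation of third order formulas, `i` idempotent clone, `s`, `mb` parameters -/
def Tr : {p q r : ℕ} → ThreeForm p q r → (i s mb : P) →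
    (Fin p → P) → (Fin q → P) → (Fin r → P) → Prop
  | _, _, _, .eqE a b, _, _, _, x, _, _ => x a = x b
  | _, _, _, .app k a b, i, s, mb, x, f, _ => AppI i s mb (f k) (x a) (x b)
  | _, _, _, .mem k l, _, _, _, _, f, F => f k ≤ F l
  | _, _, _, .neg φ, i, s, mb, x, f, F => ¬ Tr φ i s mb x f F
  | _, _, _, .and φ ψ, i, s, mb, x, f, F => Tr φ i s mb x f F ∧ Tr ψ i s mb x f F
  | _, _, _, .allE φ, i, s, mb, x, f, F => ∀ c, PtI i c → c ≤ s → Tr φ i s mb (Fin.cons c x) f F
  | _, _, _, .allF φ, i, s, mb, x, f, F => ∀ m, FnI i s m → Tr φ i s mb x (Fin.cons m f) F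
  | _, _, _, .allS φ, i, s, mb, x, f, F => ∀ D, Tr φ i s mb x f (Fin.cons D F)

end poset

variable {A : Type u}

/-- the retraction coding the function `g` -/
def rF (e : A ⊕ A ≃ A) (g : A → A) : A → A := fun x =>
  Sum.elim (fun a => e (Sum.inr (g a))) (fun _ => x) (e.symm x)

theorem rF_inl (e : A ⊕ A ≃ A) (g : A → A) (a : A) : rF e g (e (Sum.inl a)) = e (Sum.inr (g a)) := by
  simp [rF]

theorem rF_inr (e : A ⊕ A ≃ A) (g : A → A) (a : A) : rF e g (e (Sum.inr a)) = e (Sum.inr a) := by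
  simp [rF]

theorem rF_comp (e : A ⊕ A ≃ A) (g h : A → A) (x : A) : rF e g (rF e h x) = rF e h x := by
  obtain ⟨y, rfl⟩ := e.surjective x
  rcases y with a | a
  · rw [rF_inl, rF_inr]
  · rw [rF_inr, rF_inr]

/-- the clone coding the function `g` -/
def Mf (e : A ⊕ A ≃ A) (g : A → A) : CloneOn A := Gm (rF e g)

/-- `S` describes the first half -/
def Par (e : A ⊕ A ≃ A) (S : CloneOn A) : Prop := ∀ a, Ca a ≤ S ↔ ∃ b, a = e (Sum.inl b)

theorem Par.inl {e : A ⊕ A ≃ A} {S : CloneOn A} (h : Par e S) (a : A) : Ca (e (Sum.inl a)) ≤ S :=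
  (h _).2 ⟨a, rfl⟩

theorem Par.inr {e : A ⊕ A ≃ A} {S : CloneOn A} (h : Par e S) (a : A) : ¬ Ca (e (Sum.inr a)) ≤ S := by
  intro h'
  obtain ⟨b, hb⟩ := (h _).1 h'
  have := e.injective hb
  simp at this

theorem fn_iff [Nontrivial A] {e : A ⊕ A ≃ A} {S M : CloneOn A} (h : Par e S) :
    FnI (idem A) S M ↔ ∃ g, M = Mf e g := by
  obtain ⟨a0⟩ : Nonempty A := inferInstance
  rw [fnI_iff ⟨_, h.inl a0⟩]
  constructor
  · rintro ⟨r, rfl, h1, h2⟩
    refine ⟨fun a => Sum.elim (fun b => b) (fun b => b) (e.symm (r (e (Sum.inl a)))), ?_⟩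
    rw [Mf]
    congr 1
    funext x
    obtain ⟨y, rfl⟩ := e.surjective x
    rcases y with a | a
    · rw [rF_inl]
      have h3 := h1 _ (h.inl a)
      obtain ⟨z, hz⟩ := e.surjective (r (e (Sum.inl a)))
      rcases z with z | z
      · rw [← hz] at h3
        exact absurd (h.inl z) h3
      · rw [← hz]; simp
    · rw [rF_inr]
      exact h2 _ (h.inr a)
  · rintro ⟨g, rfl⟩
    refine ⟨rF e g, rfl, ?_, ?_⟩
    · intro a ha
      obtain ⟨b, rfl⟩ := (h _).1 ha
      rw [rF_inl]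
      exact h.inr _
    · intro a ha
      obtain ⟨y, rfl⟩ := e.surjective a
      rcases y with a | a
      · exact absurd (h.inl a) ha
      · exact rF_inr e g a

theorem LJ_Mf [Nontrivial A] {e : A ⊕ A ≃ A} {S : CloneOn A} (h : Par e S) {g : A → A} {a d : A}
    (hd : ¬ Ca d ≤ S) : LJ (Ca d) (Mf e g) (Ca (e (Sum.inl a))) ↔ d = e (Sum.inr (g a)) := by
  constructor
  · intro hJ
    have : d ∈ ({e (Sum.inl a), e (Sum.inr (g a))} : Set A) := by
      apply LJ_Ca_mem (M := Mf e g) (a := e (Sum.inl a)) _ (by simp) hJ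
      rw [Mf, Gm_le, PolS_M1]
      rintro x (rfl | rfl)
      · right; exact rF_inl e g a
      · right; exact rF_inr e g _
    rcases this with rfl | h'
    · exact absurd (h.inl a) hd
    · exact h'
  · rintro rfl
    apply LJ_Ca_of
    right
    exact (rF_inl e g a).symm

theorem app_iff [Nontrivial A] {e : A ⊕ A ≃ A} {S : CloneOn A} (h : Par e S) {g : A → A} {a b : A} :
    AppI (idem A) S (Mf e id) (Mf e g) (Ca (e (Sum.inl a))) (Ca (e (Sum.inl b))) ↔ g a = b := by
  constructor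
  · rintro ⟨d, hd, hdS, h1, h2⟩
    obtain ⟨c, rfl⟩ := ptI_iff.1 hd
    rw [LJ_Mf h hdS] at h1 h2
    rw [h1] at h2
    exact Sum.inr_injective (e.injective h2)
  · rintro rfl
    refine ⟨Ca (e (Sum.inr (g a))), ptI_Ca _, h.inr _, ?_, ?_⟩
    · rw [LJ_Mf h (h.inr _)]
    · rw [LJ_Mf h (h.inr _)]; rfl

theorem set_surj [Nontrivial A] (e : A ⊕ A ≃ A) (F : Set (A → A)) :
    ∃ D : CloneOn A, ∀ g, Mf e g ≤ D ↔ g ∈ F := by
  have h1 : (id : A → A) ∈ ({id} ∪ (rF e) '' F : Set (A → A)) := by simp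
  have h2 : ∀ f ∈ ({id} ∪ (rF e) '' F : Set (A → A)), ∀ g ∈ ({id} ∪ (rF e) '' F : Set (A → A)),
      f ∘ g ∈ ({id} ∪ (rF e) '' F : Set (A → A)) := by
    rintro f (rfl | ⟨f, hf, rfl⟩) g (rfl | ⟨g, hg, rfl⟩)
    · simp
    · right; exact ⟨g, hg, rfl⟩
    · right; exact ⟨f, hf, rfl⟩
    · right
      refine ⟨g, hg, ?_⟩
      funext x
      exact (rF_comp e f g x).symm
  refine ⟨EU _ h1 h2, fun g => ?_⟩
  rw [Mf, Gm_le, EU_M1]
  obtain ⟨a0⟩ : Nonempty A := inferInstance
  constructor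
  · rintro (h | ⟨f, hf, h⟩)
    · exfalso
      have := congrFun h (e (Sum.inl a0))
      rw [rF_inl] at this
      have := e.injective this
      simp at this
    · have : f = g := by
        funext a
        have := congrFun h (e (Sum.inl a))
        rw [rF_inl, rF_inl] at this
        exact Sum.inr_injective (e.injective this)
      rw [← this]; exact hf
  · intro h
    right; exact ⟨g, h, rfl⟩

theorem cons_comp {X : Type u} {Y : Type u} {n : ℕ} (h : X → Y) (a : X) (x : Fin n → X) :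
    (Fin.cons (h a) (fun i => h (x i)) : Fin (n + 1) → Y) =
      fun i => h ((Fin.cons a x : Fin (n + 1) → X) i) := by
  funext i
  refine Fin.cases ?_ ?_ i
  · rfl
  · intro i; rfl

theorem Tr_correct [Nontrivial A] {e : A ⊕ A ≃ A} {S : CloneOn A} (h : Par e S) {p q r : ℕ}
    (φ : ThreeForm p q r) : ∀ (x : Fin p → A) (g : Fin q → A → A) (F : Fin r → CloneOn A),
    Tr φ (idem A) S (Mf e id) (fun n => Ca (e (Sum.inl (x n)))) (fun n => Mf e (g n)) F ↔
      Sat A φ x g (fun n => {h | Mf e h ≤ F n}) := by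
  induction φ with
  | eqE a b =>
    intro x g F
    simp only [Tr, Sat_eqE, Sat_app, Sat_mem, Sat_neg, Sat_and, Sat_allE, Sat_allF, Sat_allS]
    constructor
    · intro h
      exact Sum.inl_injective (e.injective (Ca_inj h))
    · intro h; rw [h]
  | app k a b =>
    intro x g F
    simp only [Tr, Sat_eqE, Sat_app, Sat_mem, Sat_neg, Sat_and, Sat_allE, Sat_allF, Sat_allS]
    exact app_iff h
  | mem k l =>
    intro x g F
    simp only [Tr, Sat_eqE, Sat_app, Sat_mem, Sat_neg, Sat_and, Sat_allE, Sat_allF, Sat_allS]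
    exact Iff.rfl
  | neg φ ih =>
    intro x g F
    simp only [Tr, Sat_eqE, Sat_app, Sat_mem, Sat_neg, Sat_and, Sat_allE, Sat_allF, Sat_allS]
    rw [ih]
  | and φ ψ ih1 ih2 =>
    intro x g F
    simp only [Tr, Sat_eqE, Sat_app, Sat_mem, Sat_neg, Sat_and, Sat_allE, Sat_allF, Sat_allS]
    rw [ih1, ih2]
  | allE φ ih =>
    intro x g F
    simp only [Tr, Sat_eqE, Sat_app, Sat_mem, Sat_neg, Sat_and, Sat_allE, Sat_allF, Sat_allS]
    constructor
    · intro h' a
      rw [← ih]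
      have := h' (Ca (e (Sum.inl a))) (ptI_Ca _) (h.inl a)
      rw [cons_comp (fun a => Ca (e (Sum.inl a))) a x] at this
      exact this
    · intro h' c hc hcS
      obtain ⟨a', rfl⟩ := ptI_iff.1 hc
      obtain ⟨a, rfl⟩ := (h _).1 hcS
      have := (ih _ _ _).2 (h' a)
      rw [cons_comp (fun a => Ca (e (Sum.inl a))) a x]
      exact this
  | allF φ ih =>
    intro x g F
    simp only [Tr, Sat_eqE, Sat_app, Sat_mem, Sat_neg, Sat_and, Sat_allE, Sat_allF, Sat_allS]
    constructor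
    · intro h' a
      rw [← ih]
      have := h' (Mf e a) ((fn_iff h).2 ⟨a, rfl⟩)
      rw [cons_comp (fun a => Mf e a) a g] at this
      exact this
    · intro h' c hc
      obtain ⟨a, rfl⟩ := (fn_iff h).1 hc
      have := (ih _ _ _).2 (h' a)
      rw [cons_comp (fun a => Mf e a) a g]
      exact this
  | allS φ ih =>
    intro x g F
    simp only [Tr, Sat_eqE, Sat_app, Sat_mem, Sat_neg, Sat_and, Sat_allE, Sat_allF, Sat_allS]
    constructor
    · intro h' T
      obtain ⟨D, hD⟩ := set_surj e T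
      have := (ih _ _ _).1 (h' D)
      rw [← cons_comp (fun D => {h | Mf e h ≤ D}) D F] at this
      have e2 : {h | Mf e h ≤ D} = T := by
        ext g; exact hD g
      rw [e2] at this
      exact this
    · intro h' D
      rw [ih, ← cons_comp (fun D => {h | Mf e h ≤ D}) D F]
      exact h' _

theorem good_of_par [Nontrivial A] {e : A ⊕ A ≃ A} {S : CloneOn A} (h : Par e S) :
    Good (idem A) S (Mf e id) := by
  refine ⟨(fn_iff h).2 ⟨_, rfl⟩, ?_⟩
  intro d hd hdS
  obtain ⟨y, rfl⟩ := ptI_iff.1 hd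
  obtain ⟨z, rfl⟩ := e.surjective y
  rcases z with z | z
  · exact absurd (h.inl z) hdS
  · refine ⟨Ca (e (Sum.inl z)), ptI_Ca _, h.inl z, (LJ_Mf h hdS).2 rfl, ?_⟩
    intro c' hc' hcS hJ
    obtain ⟨c, rfl⟩ := ptI_iff.1 hc'
    obtain ⟨w, rfl⟩ := (h _).1 hcS
    have := (LJ_Mf h hdS).1 hJ
    have := Sum.inr_injective (e.injective this)
    rw [this]; rfl

theorem exists_par (e : A ⊕ A ≃ A) : ∃ S : CloneOn A, Par e S := by
  have h1 : (id : A → A) ∈ ({id} ∪ {f | ∃ b, f = fun _ => e (Sum.inl b)} : Set (A → A)) := by simp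
  have h2 : ∀ f ∈ ({id} ∪ {f | ∃ b, f = fun _ => e (Sum.inl b)} : Set (A → A)),
      ∀ g ∈ ({id} ∪ {f | ∃ b, f = fun _ => e (Sum.inl b)} : Set (A → A)),
      f ∘ g ∈ ({id} ∪ {f | ∃ b, f = fun _ => e (Sum.inl b)} : Set (A → A)) := by
    rintro f (rfl | ⟨b, rfl⟩) g hg
    · exact hg
    · right; exact ⟨b, rfl⟩
  refine ⟨EU _ h1 h2, fun a => ?_⟩
  rw [Ca_le, EU_M1]
  constructor
  · rintro (h | ⟨b, h⟩)
    · -- the set has one element
      have h := congrFun h (e (Sum.inl a))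
      exact ⟨a, h⟩
    · exact ⟨b, congrFun h a⟩
  · rintro ⟨b, rfl⟩
    right; exact ⟨b, rfl⟩

open Cardinal in
theorem par_of_good [Infinite A] {S M : CloneOn A} (h : Good (idem A) S M) (hS : ∃ a, Ca a ≤ S) :
    ∃ e : A ⊕ A ≃ A, Par e S ∧ M = Mf e id := by
  classical
  obtain ⟨r, rfl, h1, h2⟩ := (fnI_iff hS).1 h.1
  have hidem : ∀ x, r (r x) = r x := by
    intro x
    by_cases hx : Ca x ≤ S
    · exact h2 _ (h1 x hx)
    · rw [h2 x hx, h2 x hx]
  have hJ : ∀ a, Ca a ≤ S → ∀ d, ¬ Ca d ≤ S → (LJ (Ca d) (Gm r) (Ca a) ↔ d = r a) := by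
    intro a ha d hd
    constructor
    · intro hJ
      have : d ∈ ({a, r a} : Set A) := by
        apply LJ_Ca_mem (M := Gm r) (a := a) _ (by simp) hJ
        rw [Gm_le, PolS_M1]
        rintro x (rfl | rfl)
        · right; rfl
        · right; exact hidem a
      rcases this with rfl | h'
      · exact absurd ha hd
      · exact h'
    · rintro rfl
      exact LJ_Ca_of (Or.inr rfl)
  -- r is a bijection between the two parts
  set S0 : Set A := {a | Ca a ≤ S} with hS0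
  have hinj : ∀ a ∈ S0, ∀ b ∈ S0, r a = r b → a = b := by
    intro a ha b hb hab
    have hra := h1 a ha
    obtain ⟨c, hc, hcS, hcJ, hu⟩ := h.2 (Ca (r a)) (ptI_Ca _) hra
    have e1 := hu (Ca a) (ptI_Ca _) ha ((hJ a ha _ hra).2 rfl)
    have e2 := hu (Ca b) (ptI_Ca _) hb ((hJ b hb _ hra).2 hab)
    exact Ca_inj (e1.trans e2.symm)
  have hsurj : ∀ d, d ∉ S0 → ∃ a ∈ S0, r a = d := by
    intro d hd
    obtain ⟨c, hc, hcS, hcJ, hu⟩ := h.2 (Ca d) (ptI_Ca _) hd
    obtain ⟨a, rfl⟩ := ptI_iff.1 hc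
    exact ⟨a, hcS, ((hJ a hcS d hd).1 hcJ).symm⟩
  -- cardinality
  have hbij : Function.Bijective (fun y : S0 ⊕ S0 => Sum.elim (fun a : S0 => (a : A))
      (fun a : S0 => r (a : A)) y) := by
    constructor
    · rintro (⟨a, ha⟩ | ⟨a, ha⟩) (⟨b, hb⟩ | ⟨b, hb⟩) hab
      · simp only [Sum.elim_inl] at hab
        subst hab; rfl
      · simp only [Sum.elim_inl, Sum.elim_inr] at hab
        exact absurd (hab ▸ ha) (h1 b hb)
      · simp only [Sum.elim_inl, Sum.elim_inr] at hab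
        exact absurd (hab.symm ▸ hb) (h1 a ha)
      · simp only [Sum.elim_inr] at hab
        have := hinj a ha b hb hab
        subst this; rfl
    · intro x
      by_cases hx : x ∈ S0
      · exact ⟨Sum.inl ⟨x, hx⟩, rfl⟩
      · obtain ⟨a, ha, hax⟩ := hsurj x hx
        exact ⟨Sum.inr ⟨a, ha⟩, hax⟩
  have hcard : #A = #S0 := by
    have h3 : #A = #S0 + #S0 := by
      rw [← mk_congr (Equiv.ofBijective _ hbij), mk_sum]
      simp
    have h4 : ℵ₀ ≤ #S0 := by
      by_contra hlt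
      push Not at hlt
      have : #A < ℵ₀ := by rw [h3]; exact add_lt_aleph0 hlt hlt
      exact absurd this (not_lt.2 (aleph0_le_mk A))
    rw [h3, add_eq_self h4]
  obtain ⟨k⟩ := Cardinal.eq.1 hcard
  let e : A ⊕ A ≃ A := (Equiv.sumCongr k k).trans (Equiv.ofBijective _ hbij)
  have e1 : ∀ a, e (Sum.inl a) = k a := fun a => rfl
  have e2 : ∀ a, e (Sum.inr a) = r (k a) := fun a => rfl
  refine ⟨e, ?_, ?_⟩
  · intro a
    constructor
    · intro ha
      refine ⟨k.symm ⟨a, ha⟩, ?_⟩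
      rw [e1, Equiv.apply_symm_apply]
    · rintro ⟨b, rfl⟩
      rw [e1]
      exact (k b).2
  · rw [Mf]
    congr 1
    funext x
    obtain ⟨y, rfl⟩ := e.surjective x
    rcases y with a | a
    · rw [rF_inl, e1]; exact (e2 a).symm
    · rw [rF_inr, e2]; exact hidem _

end Pool.Agent.Helper583
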