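import Mathlib
import Pool.Agent.Helper583.ClCode

set_option autoImplicit false
set_option linter.unusedVariables false

namespace Pool.Agent.Helper583

universe u

open FirstOrder Language

instance ordS' (M : Type u) [LE M] : Language.order.OrderedStructure M := ⟨fun x => Iff.rfl⟩

/-- uniformly definable predicates on posets -/
def DefO {n : ℕ} (P : ∀ (M : Type u) [PartialOrder M], (Fin n → M) → Prop) : Prop :=
  ∃ φ : Language.order.BoundedFormula Empty n, ∀ (M : Type u) [PartialOrder M] (v : Fin n → M),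
    φ.Realize default v ↔ P M v

namespace DefO

theorem le {n : ℕ} (i j : Fin n) : DefO.{u} (fun M _ v => v i ≤ v j) :=
  ⟨(Term.var (Sum.inr i) : Language.order.Term (Empty ⊕ Fin n)).le (Term.var (Sum.inr j)), by
    intro M _ v
    simp only [Term.realize_le, Term.realize_var, Sum.elim_inr]⟩

theorem eq {n : ℕ} (i j : Fin n) : DefO.{u} (fun M _ v => v i = v j) :=
  ⟨Term.bdEqual (Term.var (Sum.inr i) : Language.order.Term (Empty ⊕ Fin n))
    (Term.var (Sum.inr j)), by
    intro M _ v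
    simp⟩

variable {n : ℕ} {P Q : ∀ (M : Type u) [PartialOrder M], (Fin n → M) → Prop}

theorem not (h : DefO P) : DefO.{u} (fun M _ v => ¬ P M v) := by
  obtain ⟨φ, hφ⟩ := h
  exact ⟨φ.not, by intro M _ v; rw [BoundedFormula.realize_not, hφ]⟩

theorem imp (h : DefO P) (h' : DefO Q) : DefO.{u} (fun M _ v => P M v → Q M v) := by
  obtain ⟨φ, hφ⟩ := h
  obtain ⟨ψ, hψ⟩ := h'
  exact ⟨φ.imp ψ, by intro M _ v; rw [BoundedFormula.realize_imp, hφ, hψ]⟩

theorem congr (h : DefO P) (hPQ : ∀ (M : Type u) [PartialOrder M] (v : Fin n → M),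
    P M v ↔ Q M v) : DefO.{u} Q := by
  obtain ⟨φ, hφ⟩ := h
  exact ⟨φ, by intro M _ v; rw [hφ, hPQ]⟩

theorem and (h : DefO P) (h' : DefO Q) : DefO.{u} (fun M _ v => P M v ∧ Q M v) :=
  (h.imp h'.not).not.congr (by intro M _ v; tauto)

theorem or (h : DefO P) (h' : DefO Q) : DefO.{u} (fun M _ v => P M v ∨ Q M v) :=
  (h.not.imp h').congr (by intro M _ v; tauto)

theorem iff (h : DefO P) (h' : DefO Q) : DefO.{u} (fun M _ v => (P M v ↔ Q M v)) :=
  ((h.imp h').and (h'.imp h)).congr (by intro M _ v; tauto)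

theorem true : DefO.{u} (fun M _ (v : Fin n → M) => True) :=
  ⟨⊤, by intro M _ v; simp⟩

theorem all {P : ∀ (M : Type u) [PartialOrder M], (Fin n → M) → M → Prop}
    (h : DefO.{u} (n := n + 1) (fun M _ v => P M (fun i => v i.castSucc) (v (Fin.last n)))) :
    DefO.{u} (fun M _ v => ∀ a, P M v a) := by
  obtain ⟨φ, hφ⟩ := h
  refine ⟨φ.all, ?_⟩
  intro M _ v
  rw [BoundedFormula.realize_all]
  simp only [hφ, Fin.snoc_castSucc, Fin.snoc_last]

theorem ex {P : ∀ (M : Type u) [PartialOrder M], (Fin n → M) → M → Prop}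
    (h : DefO.{u} (n := n + 1) (fun M _ v => P M (fun i => v i.castSucc) (v (Fin.last n)))) :
    DefO.{u} (fun M _ v => ∃ a, P M v a) := by
  obtain ⟨φ, hφ⟩ := h
  refine ⟨φ.ex, ?_⟩
  intro M _ v
  rw [BoundedFormula.realize_ex]
  simp only [hφ, Fin.snoc_castSucc, Fin.snoc_last]

theorem bt (i : Fin n) : DefO.{u} (fun M _ v => Bt (v i)) := all (le _ _)

theorem tp (i : Fin n) : DefO.{u} (fun M _ v => Tp (v i)) := all (le _ _)

theorem djo (i j : Fin n) : DefO.{u} (fun M _ v => Djo (v i) (v j)) :=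
  all (imp (le _ _) (imp (le _ _) (bt _)))

theorem pco (i j : Fin n) : DefO.{u} (fun M _ v => Pco (v i) (v j)) :=
  all (iff (djo _ _) (le _ _))

theorem inP (i : Fin n) : DefO.{u} (fun M _ v => InP (v i)) :=
  ex (and (not (bt _)) (pco _ _))

theorem atm (i : Fin n) : DefO.{u} (fun M _ v => Atm (v i)) :=
  and (not (bt _)) (all (imp (le _ _) (or (bt _) (le _ _))))

theorem coa (i : Fin n) : DefO.{u} (fun M _ v => Coa (v i)) :=
  and (not (tp _)) (all (imp (le _ _) (or (tp _) (le _ _))))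

theorem isI (i : Fin n) : DefO.{u} (fun M _ v => IsI (v i)) :=
  and (inP _) (all (imp (inP _) (le _ _)))

theorem lJ (i j k : Fin n) : DefO.{u} (fun M _ v => LJ (v i) (v j) (v k)) :=
  all (imp (le _ _) (imp (le _ _) (le _ _)))

theorem isJ (i j k : Fin n) : DefO.{u} (fun M _ v => IsJ (v i) (v j) (v k)) :=
  and (le _ _) (and (le _ _) (all (imp (le _ _) (imp (le _ _) (le _ _)))))

theorem ptI (i j : Fin n) : DefO.{u} (fun M _ v => PtI (v i) (v j)) :=
  and (atm _) (ex (and (isJ _ _ _) (and (coa _) (all (imp (atm _) (all (imp (isJ _ _ _)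
    (imp (coa _) (imp (not (eq _ _)) (ex (and (atm _) (and (isJ _ _ _)
      (all (imp (atm _) (imp (lJ _ _ _) (or (eq _ _) (eq _ _)))))))))))))))))

theorem fnI (i j k : Fin n) : DefO.{u} (fun M _ v => FnI (v i) (v j) (v k)) :=
  and (atm _) (and (not (le _ _)) (all (imp (ptI _ _) (and
    (imp (le _ _) (ex (and (ptI _ _) (and (not (le _ _)) (and (lJ _ _ _)
      (all (imp (ptI _ _) (imp (lJ _ _ _) (or (eq _ _) (eq _ _))))))))))
    (imp (not (le _ _)) (all (imp (ptI _ _) (imp (lJ _ _ _) (eq _ _)))))))))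

theorem good (i j k : Fin n) : DefO.{u} (fun M _ v => Good (v i) (v j) (v k)) :=
  and (fnI _ _ _) (all (imp (ptI _ _) (imp (not (le _ _)) (ex (and (ptI _ _) (and (le _ _)
    (and (lJ _ _ _) (all (imp (ptI _ _) (imp (le _ _) (imp (lJ _ _ _) (eq _ _))))))))))))

theorem appI (i s mb m x y : Fin n) :
    DefO.{u} (fun M _ v => AppI (v i) (v s) (v mb) (v m) (v x) (v y)) :=
  ex (and (ptI _ _) (and (not (le _ _)) (and (lJ _ _ _) (lJ _ _ _))))

end DefO

end Pool.Agent.Helper583
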