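import Mathlib
import Pool.Agent.Helper583.ClFO

set_option autoImplicit false
set_option linter.unusedVariables false

namespace Pool.Agent.Helper583

universe u

open FirstOrder Language CloneOn

section counting

/-- there are at least `m` elements with the property `C` outside the list -/
def AL {X : Type u} (C : X → Prop) : ℕ → List X → Prop
  | 0, _ => True
  | m + 1, L => ∃ t, C t ∧ t ∉ L ∧ AL C m (t :: L)

theorem AL_iff {X : Type u} (C : X → Prop) (m : ℕ) : ∀ L : List X,
    AL C m L ↔ (m : ℕ∞) ≤ ({t | C t} \ {t | t ∈ L}).encard := by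
  induction m with
  | zero => intro L; simp [AL]
  | succ m ih =>
    intro L
    simp only [AL, ih]
    have key : ∀ t, C t → t ∉ L → ({t | C t} \ {s | s ∈ t :: L}).encard + 1 =
        ({t | C t} \ {s | s ∈ L}).encard := by
      intro t h1 h2
      rw [← Set.encard_sdiff_singleton_add_one (a := t) (s := {t | C t} \ {s | s ∈ L}) ⟨h1, h2⟩]
      congr 2
      ext s
      simp only [Set.mem_sdiff, Set.mem_ofPred_eq, List.mem_cons, not_or, Set.mem_singleton_iff]
      tauto
    constructor
    · rintro ⟨t, h1, h2, h3⟩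
      rw [← key t h1 h2]
      push_cast
      exact add_le_add_left h3 1
    · intro h
      have hne : ({t | C t} \ {s | s ∈ L}).Nonempty := by
        rw [← Set.one_le_encard_iff_nonempty]
        refine le_trans ?_ h
        push_cast
        exact le_add_self
      obtain ⟨t, h1, h2⟩ := hne
      refine ⟨t, h1, h2, ?_⟩
      rw [← key t h1 h2] at h
      push_cast at h
      exact (ENat.add_le_add_iff_right (by simp)).1 h

end counting

namespace DefO

theorem notMem {n : ℕ} (i : Fin n) (js : List (Fin n)) :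
    DefO.{u} (fun M _ v => v i ∉ js.map v) := by
  induction js with
  | nil => exact true.congr (by intro M _ v; simp)
  | cons j js ih =>
    refine (and (not (eq i j)) ih).congr ?_
    intro M _ v
    simp only [List.map_cons, List.mem_cons, not_or]

theorem al (m : ℕ) : ∀ {n : ℕ} (j : Fin n) (js : List (Fin n)),
    DefO.{u} (fun M _ v => AL (fun t => Coa t ∧ v j ≤ t) m (js.map v)) := by
  induction m with
  | zero => intro n j js; exact true.congr (by intro M _ v; simp [AL])
  | succ m ih =>
    intro n j js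
    refine (ex (P := fun M _ v t => (Coa t ∧ v j ≤ t) ∧ t ∉ js.map v ∧
      AL (fun t => Coa t ∧ v j ≤ t) m (t :: js.map v)) ?_).congr ?_
    · refine and (and (coa _) (le _ _)) (and ?_ ?_)
      · refine (notMem (Fin.last n) (js.map Fin.castSucc)).congr ?_
        intro M _ v
        simp only [List.map_map, Function.comp_def]
      · refine (ih j.castSucc (Fin.last n :: js.map Fin.castSucc)).congr ?_
        intro M _ v
        simp only [List.map_cons, List.map_map, Function.comp_def]
    · intro M _ v
      simp only [AL]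

theorem tr {p q r : ℕ} (φ : ThreeForm p q r) : ∀ {n : ℕ} (i s mb : Fin n) (x : Fin p → Fin n)
    (f : Fin q → Fin n) (F : Fin r → Fin n),
    DefO.{u} (fun M _ v => Tr φ (v i) (v s) (v mb) (fun a => v (x a)) (fun a => v (f a))
      (fun a => v (F a))) := by
  induction φ with
  | eqE a b => intro n i s mb x f F; exact eq _ _
  | app k a b => intro n i s mb x f F; exact appI _ _ _ _ _ _
  | mem k l => intro n i s mb x f F; exact le _ _
  | neg φ ih => intro n i s mb x f F; exact not (ih _ _ _ _ _ _)
  | and φ ψ ih1 ih2 => intro n i s mb x f F; exact and (ih1 _ _ _ _ _ _) (ih2 _ _ _ _ _ _)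
  | allE φ ih =>
    intro n i s mb x f F
    refine all (P := fun M _ v c => PtI (v i) c → c ≤ v s → Tr φ (v i) (v s) (v mb)
      (Fin.cons c (fun a => v (x a))) (fun a => v (f a)) (fun a => v (F a))) ?_
    refine imp (ptI _ _) (imp (le _ _) ?_)
    refine (ih i.castSucc s.castSucc mb.castSucc (Fin.cons (Fin.last n) (fun a => (x a).castSucc))
      (fun a => (f a).castSucc) (fun a => (F a).castSucc)).congr ?_
    intro M _ v
    have : (fun a => v ((Fin.cons (Fin.last n) (fun a => (x a).castSucc) :
        Fin _ → Fin (n + 1)) a)) = Fin.cons (v (Fin.last n)) (fun a => v (x a).castSucc) := by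
      funext a; refine Fin.cases ?_ ?_ a <;> simp
    rw [this]
  | allF φ ih =>
    intro n i s mb x f F
    refine all (P := fun M _ v c => FnI (v i) (v s) c → Tr φ (v i) (v s) (v mb)
      (fun a => v (x a)) (Fin.cons c (fun a => v (f a))) (fun a => v (F a))) ?_
    refine imp (fnI _ _ _) ?_
    refine (ih i.castSucc s.castSucc mb.castSucc (fun a => (x a).castSucc)
      (Fin.cons (Fin.last n) (fun a => (f a).castSucc)) (fun a => (F a).castSucc)).congr ?_
    intro M _ v
    have : (fun a => v ((Fin.cons (Fin.last n) (fun a => (f a).castSucc) :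
        Fin _ → Fin (n + 1)) a)) = Fin.cons (v (Fin.last n)) (fun a => v (f a).castSucc) := by
      funext a; refine Fin.cases ?_ ?_ a <;> simp
    rw [this]
  | allS φ ih =>
    intro n i s mb x f F
    refine all (P := fun M _ v c => Tr φ (v i) (v s) (v mb)
      (fun a => v (x a)) (fun a => v (f a)) (Fin.cons c (fun a => v (F a)))) ?_
    refine (ih i.castSucc s.castSucc mb.castSucc (fun a => (x a).castSucc)
      (fun a => (f a).castSucc) (Fin.cons (Fin.last n) (fun a => (F a).castSucc))).congr ?_
    intro M _ v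
    have : (fun a => v ((Fin.cons (Fin.last n) (fun a => (F a).castSucc) :
        Fin _ → Fin (n + 1)) a)) = Fin.cons (v (Fin.last n)) (fun a => v (F a).castSucc) := by
      funext a; refine Fin.cases ?_ ?_ a <;> simp
    rw [this]

/-- transfer of definable sentences -/
theorem transfer {P : ∀ (M : Type u) [PartialOrder M], Prop}
    (h : DefO.{u} (n := 0) (fun M _ _ => P M)) {M N : Type u} [PartialOrder M] [PartialOrder N]
    (hMN : M ≅[Language.order] N) : P M ↔ P N := by
  obtain ⟨φ, hφ⟩ := h
  have h1 : φ.Realize default Fin.elim0 ↔ P M := hφ M Fin.elim0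
  have h2 : φ.Realize default Fin.elim0 ↔ P N := hφ N Fin.elim0
  rw [← h1, ← h2]
  have := (elementarilyEquivalent_iff.1 hMN) φ
  simp only [Sentence.Realize, Formula.Realize] at this
  have e1 : (default : Fin 0 → M) = Fin.elim0 := Subsingleton.elim _ _
  have e2 : (default : Fin 0 → N) = Fin.elim0 := Subsingleton.elim _ _
  rw [e1, e2] at this
  exact this

end DefO

section infinite
variable {A B : Type u}

/-- the sentence translating a third order sentence -/
def TrS (φ : ThreeForm 0 0 0) (M : Type u) [PartialOrder M] : Prop :=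
  ∃ i : M, IsI i ∧ ∃ s mb : M, (∃ c, PtI i c ∧ c ≤ s) ∧ Good i s mb ∧
    Tr φ i s mb Fin.elim0 Fin.elim0 Fin.elim0

theorem defO_TrS (φ : ThreeForm 0 0 0) : DefO.{u} (n := 0) (fun M _ _ => TrS φ M) := by
  refine DefO.ex (DefO.and (DefO.isI _) (DefO.ex (DefO.ex (DefO.and
    (DefO.ex (DefO.and (DefO.ptI _ _) (DefO.le _ _))) (DefO.and (DefO.good _ _ _) ?_)))))
  refine (DefO.tr φ 0 1 2 Fin.elim0 Fin.elim0 Fin.elim0).congr ?_
  intro M _ v
  have e : ∀ w w' : Fin 0 → M, w = w' := fun _ _ => Subsingleton.elim _ _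
  rw [e (fun a => v (Fin.elim0 a)) Fin.elim0]
  exact Iff.rfl

theorem TrS_iff [Infinite A] (φ : ThreeForm 0 0 0) :
    TrS φ (CloneOn A) ↔ Sat A φ Fin.elim0 Fin.elim0 Fin.elim0 := by
  have e0 : ∀ {X : Type u} (w w' : Fin 0 → X), w = w' := fun _ _ => Subsingleton.elim _ _
  constructor
  · rintro ⟨i, hi, s, mb, hs, hgood, htr⟩
    rw [isI_iff] at hi
    subst hi
    obtain ⟨c, hc, hcs⟩ := hs
    obtain ⟨a, rfl⟩ := ptI_iff.1 hc
    obtain ⟨e, hpar, rfl⟩ := par_of_good hgood ⟨a, hcs⟩
    have := Tr_correct hpar φ Fin.elim0 Fin.elim0 Fin.elim0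
    rw [e0 (fun n => Ca _) Fin.elim0, e0 (fun n => Mf e _) Fin.elim0,
      e0 (fun n => {h | Mf e h ≤ _}) Fin.elim0] at this
    exact this.1 htr
  · intro h
    obtain ⟨e⟩ := exists_equiv_sum (A := A)
    obtain ⟨S, hS⟩ := exists_par e
    obtain ⟨a⟩ : Nonempty A := inferInstance
    refine ⟨idem A, isI_iff.2 rfl, S, Mf e id, ⟨Ca (e (Sum.inl a)), ptI_Ca _, hS.inl a⟩,
      good_of_par hS, ?_⟩
    have := Tr_correct hS φ Fin.elim0 Fin.elim0 Fin.elim0
    rw [e0 (fun n => Ca _) Fin.elim0, e0 (fun n => Mf e _) Fin.elim0,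
      e0 (fun n => {h | Mf e h ≤ _}) Fin.elim0] at this
    exact this.2 h

theorem third_of_elem [Infinite A] [Infinite B]
    (h : CloneOn A ≅[Language.order] CloneOn B) : ThirdOrderEquiv A B := by
  intro φ
  rw [← TrS_iff, ← TrS_iff]
  exact (defO_TrS φ).transfer h

end infinite

section finite
variable {A B : Type u}

/-- the sentences describing finite cardinalities -/
def Phi (m : ℕ) (M : Type u) [PartialOrder M] : Prop :=
  ∃ y : M, InP y ∧ AL (fun t => Coa t ∧ y ≤ t) 2 [] ∧ ¬ AL (fun t => Coa t ∧ y ≤ t) (m + 1) []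

theorem defO_Phi (m : ℕ) : DefO.{u} (n := 0) (fun M _ _ => Phi m M) :=
  DefO.ex (DefO.and (DefO.inP _) (DefO.and ((DefO.al 2 _ []).congr (fun _ _ _ => Iff.rfl))
    (DefO.not ((DefO.al (m + 1) _ []).congr (fun _ _ _ => Iff.rfl)))))

theorem range_Ta_encard [Nontrivial A] : (Set.range (Ta (A := A))).encard = ENat.card A := by
  have : Function.Injective (Ta (A := A)) := fun a b h => Ta_inj h
  rw [← Set.image_univ, this.encard_image, Set.encard_univ]

theorem AL_nil {X : Type u} (C : X → Prop) (m : ℕ) : AL C m [] ↔ (m : ℕ∞) ≤ {t | C t}.encard := by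
  rw [AL_iff]; simp

theorem range_sub [Nontrivial A] {Y : CloneOn A} (h : Y ≤ idem A) :
    Set.range (Ta (A := A)) ⊆ {t | Coa t ∧ Y ≤ t} := by
  rintro _ ⟨a, rfl⟩
  exact ⟨Ta_coa a, h.trans (idem_le_Ta a)⟩

theorem not_Phi_infinite [Infinite A] (m : ℕ) : ¬ Phi m (CloneOn A) := by
  rintro ⟨y, hy, h1, h2⟩
  rw [AL_nil] at h2
  apply h2
  refine le_trans ?_ (Set.encard_le_encard (range_sub (inP_le hy)))
  rw [range_Ta_encard]
  simp

theorem Phi_iff [Finite A] [Nontrivial A] (m : ℕ) : Phi m (CloneOn A) ↔ Nat.card A ≤ m := by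
  classical
  have hcard : ENat.card A = (Nat.card A : ℕ∞) := ENat.card_eq_coe_natCard A
  have h2 : 2 ≤ Nat.card A := Finite.one_lt_card
  constructor
  · rintro ⟨y, hy, h3, h4⟩
    rw [AL_nil] at h3 h4
    push Not at h4
    by_cases hc : Nat.card A = 2
    · rw [hc]
      have := lt_of_le_of_lt h3 h4
      norm_cast at this
      omega
    · have hthree : ∀ a b : A, ∃ c, c ≠ a ∧ c ≠ b := by
        intro a b
        by_contra hh
        push Not at hh
        have := Fintype.ofFinite A
        have h5 : (Finset.univ : Finset A) ⊆ {a, b} := by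
          intro c _
          by_cases hca : c = a
          · simp [hca]
          · simp [hh c hca]
        have h6 := Finset.card_le_card h5
        rw [Finset.card_univ, ← Nat.card_eq_fintype_card] at h6
        have h7 : ({a, b} : Finset A).card ≤ 2 := Finset.card_le_two
        omega
      rcases inP_fin hthree hy with h | h
      · have h5 := Set.encard_le_encard (range_sub h)
        rw [range_Ta_encard, hcard] at h5
        have := lt_of_le_of_lt h5 h4
        norm_cast at this
        omega
      · exfalso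
        have : {t | Coa t ∧ y ≤ t} ⊆ {y} := by
          rintro t ⟨ht1, ht2⟩
          exact h t ht1 ht2
        have h5 := h3.trans (Set.encard_le_encard this)
        rw [Set.encard_singleton] at h5
        norm_cast at h5
  · intro hm
    have he : {t | Coa t ∧ idem A ≤ t} = Set.range (Ta (A := A)) := by
      apply Set.Subset.antisymm _ (range_sub le_rfl)
      rintro t ⟨ht1, ht2⟩
      obtain ⟨a, rfl⟩ := coa_above_idem_fin ht1 ht2
      exact ⟨a, rfl⟩
    refine ⟨idem A, inP_idem, ?_, ?_⟩
    · rw [AL_nil, he, range_Ta_encard, hcard]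
      norm_cast
    · rw [AL_nil, he, range_Ta_encard, hcard]
      norm_cast
      omega

theorem nontrivial_of_elem [Nontrivial A] (h : CloneOn A ≅[Language.order] CloneOn B) :
    Nontrivial B := by
  have hd : DefO.{u} (n := 0) (fun M _ _ => ∃ x : M, ¬ Bt x) := DefO.ex (DefO.not (DefO.bt _))
  obtain ⟨a⟩ : Nonempty A := inferInstance
  have h1 : ∃ x : CloneOn A, ¬ Bt x := ⟨Ca a, (Ca_atm a).1⟩
  obtain ⟨x, hx⟩ := (hd.transfer h).1 h1
  by_contra hB
  rw [not_nontrivial_iff_subsingleton] at hB
  apply hx
  rw [bt_iff]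
  intro n f _
  exact ⟨0, funext fun x => Subsingleton.elim _ _⟩

theorem card_of_elem [Finite A] [Nontrivial A] (h : CloneOn A ≅[Language.order] CloneOn B) :
    Nonempty (A ≃ B) := by
  have hB := nontrivial_of_elem h
  have h1 : ∀ m, Phi m (CloneOn A) ↔ Phi m (CloneOn B) := fun m => (defO_Phi m).transfer h
  have hf : Finite B := by
    by_contra hinf
    rw [not_finite_iff_infinite] at hinf
    have := (h1 (Nat.card A)).1 ((Phi_iff _).2 le_rfl)
    exact not_Phi_infinite _ this
  have h2 : Nat.card B ≤ Nat.card A := (Phi_iff _).1 ((h1 _).1 ((Phi_iff _).2 le_rfl))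
  have h3 : Nat.card A ≤ Nat.card B := (Phi_iff _).1 ((h1 _).2 ((Phi_iff _).2 le_rfl))
  exact Finite.card_eq.1 (le_antisymm h3 h2)

end finite

end Pool.Agent.Helper583
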