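import Mathlib
import Pool.Agent.Helper583.ClTrA

set_option autoImplicit false
set_option linter.unusedVariables false
set_option linter.unusedSimpArgs false

namespace Pool.Agent.Helper583

universe u

/-- uniformly definable third order predicates -/
def Def3 {p q r : ℕ}
    (P : ∀ (A : Type u), (Fin p → A) → (Fin q → A → A) → (Fin r → Set (A → A)) → Prop) : Prop :=
  ∃ φ : ThreeForm p q r, ∀ (A : Type u) (x : Fin p → A) (f : Fin q → A → A)
    (S : Fin r → Set (A → A)), Sat A φ x f S ↔ P A x f S

namespace Def3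

variable {p q r : ℕ}

theorem eqE (i j : Fin p) :
    Def3.{u} (p := p) (q := q) (r := r) (fun A x f S => x i = x j) := ⟨.eqE i j, fun _ _ _ _ => Iff.rfl⟩

theorem app (k : Fin q) (i j : Fin p) :
    Def3.{u} (p := p) (q := q) (r := r) (fun A x f S => f k (x i) = x j) :=
  ⟨.app k i j, fun _ _ _ _ => Iff.rfl⟩

theorem mem (k : Fin q) (l : Fin r) :
    Def3.{u} (p := p) (q := q) (r := r) (fun A x f S => f k ∈ S l) :=
  ⟨.mem k l, fun _ _ _ _ => Iff.rfl⟩

variable {P Q : ∀ (A : Type u), (Fin p → A) → (Fin q → A → A) → (Fin r → Set (A → A)) → Prop}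

theorem congr (h : Def3 P) (hPQ : ∀ A x f S, P A x f S ↔ Q A x f S) : Def3.{u} Q := by
  obtain ⟨φ, hφ⟩ := h
  exact ⟨φ, fun A x f S => (hφ A x f S).trans (hPQ A x f S)⟩

theorem not (h : Def3 P) : Def3.{u} (fun A x f S => ¬ P A x f S) := by
  obtain ⟨φ, hφ⟩ := h
  exact ⟨.neg φ, fun A x f S => not_congr (hφ A x f S)⟩

theorem and (h : Def3 P) (h' : Def3 Q) : Def3.{u} (fun A x f S => P A x f S ∧ Q A x f S) := by
  obtain ⟨φ, hφ⟩ := h
  obtain ⟨ψ, hψ⟩ := h'
  exact ⟨.and φ ψ, fun A x f S => and_congr (hφ A x f S) (hψ A x f S)⟩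

theorem or (h : Def3 P) (h' : Def3 Q) : Def3.{u} (fun A x f S => P A x f S ∨ Q A x f S) :=
  (h.not.and h'.not).not.congr (by intro A x f S; tauto)

theorem imp (h : Def3 P) (h' : Def3 Q) : Def3.{u} (fun A x f S => P A x f S → Q A x f S) :=
  (h.and h'.not).not.congr (by intro A x f S; tauto)

theorem iff (h : Def3 P) (h' : Def3 Q) : Def3.{u} (fun A x f S => (P A x f S ↔ Q A x f S)) :=
  ((h.imp h').and (h'.imp h)).congr (by intro A x f S; tauto)

theorem allE {P : ∀ (A : Type u), (Fin p → A) → (Fin q → A → A) → (Fin r → Set (A → A)) → A → Prop}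
    (h : Def3.{u} (p := p + 1) (q := q) (r := r)
      (fun A x f S => P A (fun i => x i.succ) f S (x 0))) :
    Def3.{u} (p := p) (q := q) (r := r) (fun A x f S => ∀ a : A, P A x f S a) := by
  obtain ⟨φ, hφ⟩ := h
  refine ⟨.allE φ, fun A x f S => ?_⟩
  simp only [Sat_eqE, Sat_app, Sat_mem, Sat_neg, Sat_and, Sat_allE, Sat_allF, Sat_allS, hφ, Fin.cons_succ, Fin.cons_zero]

theorem allF {P : ∀ (A : Type u), (Fin p → A) → (Fin q → A → A) → (Fin r → Set (A → A)) →
    (A → A) → Prop}
    (h : Def3.{u} (p := p) (q := q + 1) (r := r)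
      (fun A x f S => P A x (fun i => f i.succ) S (f 0))) :
    Def3.{u} (p := p) (q := q) (r := r) (fun A x f S => ∀ g : A → A, P A x f S g) := by
  obtain ⟨φ, hφ⟩ := h
  refine ⟨.allF φ, fun A x f S => ?_⟩
  simp only [Sat_eqE, Sat_app, Sat_mem, Sat_neg, Sat_and, Sat_allE, Sat_allF, Sat_allS, hφ, Fin.cons_succ, Fin.cons_zero]

theorem allS {P : ∀ (A : Type u), (Fin p → A) → (Fin q → A → A) → (Fin r → Set (A → A)) →
    Set (A → A) → Prop}
    (h : Def3.{u} (p := p) (q := q) (r := r + 1)
      (fun A x f S => P A x f (fun i => S i.succ) (S 0))) :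
    Def3.{u} (p := p) (q := q) (r := r) (fun A x f S => ∀ T : Set (A → A), P A x f S T) := by
  obtain ⟨φ, hφ⟩ := h
  refine ⟨.allS φ, fun A x f S => ?_⟩
  simp only [Sat_eqE, Sat_app, Sat_mem, Sat_neg, Sat_and, Sat_allE, Sat_allF, Sat_allS, hφ, Fin.cons_succ, Fin.cons_zero]

theorem exE {P : ∀ (A : Type u), (Fin p → A) → (Fin q → A → A) → (Fin r → Set (A → A)) → A → Prop}
    (h : Def3.{u} (p := p + 1) (q := q) (r := r)
      (fun A x f S => P A (fun i => x i.succ) f S (x 0))) :
    Def3.{u} (p := p) (q := q) (r := r) (fun A x f S => ∃ a : A, P A x f S a) :=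
  (allE (P := fun A x f S a => ¬ P A x f S a) h.not).not.congr
    (by intro A x f S; simp only [not_forall, not_not])

theorem exF {P : ∀ (A : Type u), (Fin p → A) → (Fin q → A → A) → (Fin r → Set (A → A)) →
    (A → A) → Prop}
    (h : Def3.{u} (p := p) (q := q + 1) (r := r)
      (fun A x f S => P A x (fun i => f i.succ) S (f 0))) :
    Def3.{u} (p := p) (q := q) (r := r) (fun A x f S => ∃ g : A → A, P A x f S g) :=
  (allF (P := fun A x f S a => ¬ P A x f S a) h.not).not.congr
    (by intro A x f S; simp only [not_forall, not_not])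

/-- equality of `f k (f l (x i))` and `x j` -/
theorem app2 (k l : Fin q) (i j : Fin p) :
    Def3.{u} (p := p) (q := q) (r := r) (fun A x f S => f k (f l (x i)) = x j) :=
  (exE (P := fun A x f S z => f l (x i) = z ∧ f k z = x j) (and (app _ _ _) (app _ _ _))).congr
    (by intro A x f S; simp)

/-- composite equations -/
theorem comp1 (g k l : Fin q) (i : Fin p) :
    Def3.{u} (p := p) (q := q) (r := r) (fun A x f S => f g (x i) = f k (f l (x i))) :=
  (exE (P := fun A x f S z => f k (f l (x i)) = z ∧ f g (x i) = z) (and (app2 _ _ _ _)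
    (app _ _ _))).congr (by intro A x f S; simp)

theorem comp2 (a b k l : Fin q) (i : Fin p) :
    Def3.{u} (p := p) (q := q) (r := r) (fun A x f S => f a (f b (x i)) = f k (f l (x i))) :=
  (exE (P := fun A x f S z => f k (f l (x i)) = z ∧ f a (f b (x i)) = z) (and (app2 _ _ _ _)
    (app2 _ _ _ _))).congr (by intro A x f S; simp)

theorem same (a b : Fin q) (i : Fin p) :
    Def3.{u} (p := p) (q := q) (r := r) (fun A x f S => f a (x i) = f b (x i)) :=
  (exE (P := fun A x f S z => f b (x i) = z ∧ f a (x i) = z) (and (app _ _ _)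
    (app _ _ _))).congr (by intro A x f S; simp)

theorem notMemE (i : Fin p) (js : List (Fin p)) :
    Def3.{u} (p := p) (q := q) (r := r) (fun A x f S => x i ∉ js.map x) := by
  induction js with
  | nil => exact (eqE i i).congr (by intro A x f S; simp)
  | cons j js ih =>
    refine (and (not (eqE i j)) ih).congr ?_
    intro A x f S
    simp only [List.map_cons, List.mem_cons, not_or]

theorem alE (m : ℕ) : ∀ {p : ℕ} (js : List (Fin p)),
    Def3.{u} (p := p) (q := q) (r := r)
      (fun A x f S => x = x ∧ AL (fun _ : A => True) m (js.map x)) := by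
  induction m with
  | zero =>
    intro p js
    exact (allE (P := fun A x f S a => a = a) (eqE 0 0)).congr (by intro A x f S; simp [AL])
  | succ m ih =>
    intro p js
    refine (exE (P := fun A x f S t => t ∉ js.map x ∧
      AL (fun _ : A => True) m (t :: js.map x)) ?_).congr ?_
    · refine and ?_ ?_
      · refine (notMemE 0 (js.map Fin.succ)).congr ?_
        intro A x f S
        simp only [List.map_map, Function.comp_def]
      · refine (ih ((0 : Fin (p + 1)) :: js.map Fin.succ)).congr ?_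
        intro A x f S
        simp only [List.map_cons, List.map_map, Function.comp_def, true_and]
    · intro A x f S
      simp only [AL, true_and]

/-- transfer of definable sentences -/
theorem transfer {P : ∀ (A : Type u), Prop}
    (h : Def3.{u} (p := 0) (q := 0) (r := 0) (fun A _ _ _ => P A)) {A B : Type u}
    (hAB : ThirdOrderEquiv A B) : P A ↔ P B := by
  obtain ⟨φ, hφ⟩ := h
  have h1 : _ ↔ P A := hφ A Fin.elim0 Fin.elim0 Fin.elim0
  have h2 : _ ↔ P B := hφ B Fin.elim0 Fin.elim0 Fin.elim0
  rw [← h1, ← h2]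
  exact hAB φ

end Def3

theorem card_of_third {A B : Type u} (h : ThirdOrderEquiv A B) [Finite A] :
    Nonempty (A ≃ B) := by
  have h1 : ∀ m : ℕ, ((m : ℕ∞) ≤ ENat.card A ↔ (m : ℕ∞) ≤ ENat.card B) := by
    intro m
    have h2 : Def3.{u} (p := 0) (q := 0) (r := 0)
        (fun A _ _ _ => AL (fun _ : A => True) m []) :=
      (Def3.alE m []).congr (by intro A x f S; simp)
    have h3 := h2.transfer h
    rw [AL_nil, AL_nil] at h3
    simpa [Set.encard_univ] using h3
  have hA : ENat.card A = (Nat.card A : ℕ∞) := ENat.card_eq_coe_natCard A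
  have hf : Finite B := by
    by_contra hinf
    rw [not_finite_iff_infinite] at hinf
    have := (h1 (Nat.card A + 1)).2 (by simp)
    rw [hA] at this
    norm_cast at this
    omega
  have hB : ENat.card B = (Nat.card B : ℕ∞) := ENat.card_eq_coe_natCard B
  rw [hA, hB] at h1
  have h2 := (h1 (Nat.card A)).1 le_rfl
  have h3 := (h1 (Nat.card B)).2 le_rfl
  norm_cast at h2 h3
  exact Finite.card_eq.1 (le_antisymm h2 h3)

end Pool.Agent.Helper583
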