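import Mathlib
import Pool.Agent.Helper583.ClThree

set_option autoImplicit false
set_option linter.unusedVariables false

namespace Pool.Agent.Helper583

universe u

open CloneOn

variable {A : Type u}

/-- `(a, b)` is a pairing -/
def Pairing (a b : A → A) : Prop :=
  (∀ y z, ∃ x, a x = y ∧ b x = z) ∧ ∀ x x', a x = a x' → b x = b x' → x = x'

/-- iterates of `b` -/
def InT (b t : A → A) : Prop :=
  ∀ S : Set (A → A), (∀ f : A → A, (∀ x, f x = x) → f ∈ S) →
    (∀ f : A → A, f ∈ S → ∀ g : A → A, (∀ x, g x = b (f x)) → g ∈ S) → t ∈ S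

/-- truncations -/
def InG (a b : A → A) (o : A) (t : A → A) : Prop :=
  ∀ S : Set (A → A), (∀ f : A → A, (∀ x, f x = o) → f ∈ S) →
    (∀ f : A → A, f ∈ S → ∀ g : A → A, (∀ x, a (g x) = a x ∧ b (g x) = f (b x)) → g ∈ S) → t ∈ S

/-- codes of clones -/
def CC (a b : A → A) (o : A) (S : Set (A → A)) : Prop :=
  (∀ h : A → A, h ∈ S → ∃ t, InG a b o t ∧ ∀ x, h (t x) = h x) ∧
  (∀ t, InT b t → ∀ g : A → A, (∀ x, g x = a (t x)) → g ∈ S) ∧
  (∀ h : A → A, h ∈ S → ∀ g : A → A,
    (∀ t, InT b t → ∀ k : A → A, (∀ x, ∃ y, t (g x) = y ∧ k x = a y) → k ∈ S) →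
    ∀ k : A → A, (∀ x, k x = h (g x)) → k ∈ S)

theorem inT_iff {b t : A → A} : InT b t ↔ ∃ n, t = b^[n] := by
  constructor
  · intro h
    apply h {t | ∃ n, t = b^[n]}
    · intro f hf
      exact ⟨0, funext hf⟩
    · rintro f ⟨n, rfl⟩ g hg
      refine ⟨n + 1, ?_⟩
      funext x
      rw [hg, Function.iterate_succ_apply']
  · rintro ⟨n, rfl⟩ S h1 h2
    induction n with
    | zero => exact h1 _ (fun x => rfl)
    | succ n ih => exact h2 _ ih _ (fun x => Function.iterate_succ_apply' _ _ _)

/-- coordinates -/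
def co (a b : A → A) (i : ℕ) (x : A) : A := a (b^[i] x)

theorem co_zero (a b : A → A) (x : A) : co a b 0 x = a x := rfl
theorem co_succ (a b : A → A) (i : ℕ) (x : A) : co a b (i + 1) x = co a b i (b x) := rfl

section pairing
variable {a b : A → A} (hp : Pairing a b)

/-- the pairing function -/
noncomputable def pr (hp : Pairing a b) (y z : A) : A := (hp.1 y z).choose

theorem a_pr (y z : A) : a (pr hp y z) = y := (hp.1 y z).choose_spec.1
theorem b_pr (y z : A) : b (pr hp y z) = z := (hp.1 y z).choose_spec.2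

/-- the element with the first `n` coordinates given by `s` and with tail `y` -/
noncomputable def en (hp : Pairing a b) : ℕ → (ℕ → A) → A → A
  | 0, _, y => y
  | n + 1, s, y => pr hp (s 0) (en hp n (fun i => s (i + 1)) y)

theorem co_en_lt (n : ℕ) : ∀ (s : ℕ → A) (y : A) (i : ℕ), i < n → co a b i (en hp n s y) = s i := by
  induction n with
  | zero => intro s y i hi; omega
  | succ n ih =>
    intro s y i hi
    rcases i with _ | i
    · rw [co_zero, en, a_pr hp]
    · rw [co_succ, en, b_pr hp, ih _ _ _ (by omega)]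

theorem co_en_add (n : ℕ) : ∀ (s : ℕ → A) (y : A) (i : ℕ),
    co a b (n + i) (en hp n s y) = co a b i y := by
  induction n with
  | zero => intro s y i; rw [en, Nat.zero_add]
  | succ n ih =>
    intro s y i
    have : n + 1 + i = (n + i) + 1 := by omega
    rw [this, co_succ, en, b_pr hp, ih]

theorem en_congr (n : ℕ) : ∀ (s s' : ℕ → A) (y : A), (∀ i, i < n → s i = s' i) →
    en hp n s y = en hp n s' y := by
  induction n with
  | zero => intro s s' y h; rfl
  | succ n ih =>
    intro s s' y h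
    rw [en, en, h 0 (by omega), ih _ (fun i => s' (i + 1)) y (fun i hi => h (i + 1) (by omega))]

theorem inG_iff {o : A} {t : A → A} :
    InG a b o t ↔ ∃ n, t = fun x => en hp n (fun i => co a b i x) o := by
  have hstep : ∀ n (g : A → A), (∀ x, a (g x) = a x ∧ b (g x) = en hp n (fun i => co a b i (b x)) o) ↔
      g = fun x => en hp (n + 1) (fun i => co a b i x) o := by
    intro n g
    constructor
    · intro h
      funext x
      apply hp.2
      · rw [(h x).1, en, a_pr hp, co_zero]
      · rw [(h x).2, en, b_pr hp]; rfl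
    · rintro rfl x
      exact ⟨a_pr hp _ _, b_pr hp _ _⟩
  constructor
  · intro h
    apply h {t | ∃ n, t = fun x => en hp n (fun i => co a b i x) o}
    · intro f hf
      exact ⟨0, funext hf⟩
    · rintro f ⟨n, rfl⟩ g hg
      exact ⟨n + 1, (hstep n g).1 hg⟩
  · rintro ⟨n, rfl⟩ S h1 h2
    induction n with
    | zero => exact h1 _ (fun x => rfl)
    | succ n ih => exact h2 _ ih _ ((hstep n _).2 rfl)

/-- unary function coding an operation -/
def tl (a b : A → A) {n : ℕ} (F : (Fin (n + 1) → A) → A) : A → A :=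
  fun x => F (fun i => co a b i x)

/-- the code of a clone -/
def code (a b : A → A) (C : CloneOn A) : Set (A → A) :=
  {h | ∃ (n : ℕ) (F : (Fin (n + 1) → A) → A), F ∈ C.carrier n ∧ h = tl a b F}

/-- padding of a finite sequence -/
def pad {n : ℕ} (s : Fin (n + 1) → A) : ℕ → A := fun i => if h : i < n + 1 then s ⟨i, h⟩ else s 0

theorem pad_val {n : ℕ} (s : Fin (n + 1) → A) (i : Fin (n + 1)) : pad s i = s i := by
  rw [pad, dif_pos i.2]

include hp in
theorem tl_en {n : ℕ} (F : (Fin (n + 1) → A) → A) (s : Fin (n + 1) → A) (m : ℕ) (hm : n < m) (y : A) :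
    tl a b F (en hp m (pad s) y) = F s := by
  unfold tl
  congr 1
  funext i
  rw [co_en_lt hp m _ _ _ (by omega), pad_val]

include hp in
theorem tl_mem {C : CloneOn A} {m n : ℕ} {G : (Fin (m + 1) → A) → A} (hG : G ∈ C.carrier m)
    {F : (Fin (n + 1) → A) → A} (h : tl a b F = tl a b G) : F ∈ C.carrier n := by
  have e : F = fun s => G (fun k => s (if h : (k : ℕ) < n + 1 then ⟨k, h⟩ else 0)) := by
    funext s
    have h1 := tl_en hp F s (max n m + 1) (by omega) (s 0)
    rw [h] at h1
    rw [← h1]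
    unfold tl
    congr 1
    funext k
    rw [co_en_lt hp _ _ _ _ (by omega)]
    simp only [pad]
    split_ifs <;> rfl
  rw [e]
  exact minor hG _

include hp in
theorem cc_code (o : A) (C : CloneOn A) : CC a b o (code a b C) := by
  refine ⟨?_, ?_, ?_⟩
  · rintro _ ⟨n, F, hF, rfl⟩
    refine ⟨_, (inG_iff hp).2 ⟨n + 1, rfl⟩, ?_⟩
    intro x
    unfold tl
    congr 1
    funext i
    rw [co_en_lt hp _ _ _ _ i.2]
  · intro t ht g hg
    obtain ⟨n, rfl⟩ := inT_iff.1 ht
    refine ⟨n, fun x => x (Fin.last n), C.proj_mem n _, ?_⟩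
    funext x
    rw [hg]
    rfl
  · rintro _ ⟨m, F, hF, rfl⟩ g hg k hk
    have h1 : ∀ i : ℕ, ∃ (n : ℕ) (G : (Fin (n + 1) → A) → A), G ∈ C.carrier n ∧
        ∀ x, co a b i (g x) = tl a b G x := by
      intro i
      obtain ⟨n, G, hG, h⟩ := hg (b^[i]) (inT_iff.2 ⟨i, rfl⟩) (fun x => co a b i (g x))
        (fun x => ⟨_, rfl, rfl⟩)
      exact ⟨n, G, hG, congrFun h⟩
    choose n G hG hGx using h1
    obtain ⟨N, hN⟩ : ∃ N, ∀ i : Fin (m + 1), n i ≤ N :=
      ⟨Finset.univ.sup (fun i : Fin (m + 1) => n i), fun i =>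
        Finset.le_sup (f := fun i : Fin (m + 1) => n i) (Finset.mem_univ i)⟩
    refine ⟨N, fun x => F (fun i => G i (fun k => x (Fin.castLE (by have := hN i; omega) k))), ?_, ?_⟩
    · exact C.comp_mem m N F
        (fun i x => G i (fun k => x (Fin.castLE (by have := hN i; omega) k))) hF
        (fun i => minor (hG i) _)
    · funext x
      rw [hk]
      unfold tl
      congr 1
      funext i
      rw [hGx]
      rfl

/-- decoding -/
noncomputable def dec (hp : Pairing a b) (o : A) (S : Set (A → A)) (hS : CC a b o S) :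
    CloneOn A where
  carrier n := {F | tl a b F ∈ S}
  proj_mem n i := hS.2.1 (b^[(i : ℕ)]) (inT_iff.2 ⟨i, rfl⟩) _ (fun x => rfl)
  comp_mem m n F G hF hG := by
    set g : A → A := fun x => en hp (m + 1) (fun k => pad (fun j => tl a b (G j) x) k) x with hg
    refine hS.2.2 _ hF g ?_ _ ?_
    · intro t ht k hk
      obtain ⟨j, rfl⟩ := inT_iff.1 ht
      have hk' : k = fun x => co a b j (g x) := by
        funext x
        obtain ⟨y, h1, h2⟩ := hk x
        rw [h2, ← h1]; rfl
      rw [hk']
      by_cases hj : j < m + 1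
      · have : (fun x => co a b j (g x)) = tl a b (G ⟨j, hj⟩) := by
          funext x
          rw [hg]
          simp only
          rw [co_en_lt hp _ _ _ _ hj]
          simp [pad, hj]
        rw [this]
        exact hG _
      · obtain ⟨i, rfl⟩ : ∃ i, j = (m + 1) + i := ⟨j - (m + 1), by omega⟩
        have : (fun x => co a b (m + 1 + i) (g x)) = fun x => co a b i x := by
          funext x
          rw [hg]
          simp only
          rw [co_en_add]
        rw [this]
        exact hS.2.1 (b^[i]) (inT_iff.2 ⟨i, rfl⟩) _ (fun x => rfl)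
    · intro x
      show F (fun i => G i _) = F (fun i => co a b i (g x))
      congr 1
      funext i
      rw [hg]
      simp only
      rw [co_en_lt hp _ _ _ _ i.2, pad_val]
      rfl

theorem mem_dec {o : A} {S : Set (A → A)} {hS : CC a b o S} {n : ℕ}
    {F : (Fin (n + 1) → A) → A} : F ∈ (dec hp o S hS).carrier n ↔ tl a b F ∈ S := Iff.rfl

theorem dec_code (o : A) (C : CloneOn A) : dec hp o (code a b C) (cc_code hp o C) = C := by
  ext n F
  rw [mem_dec]
  constructor
  · rintro ⟨m, G, hG, h⟩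
    exact tl_mem hp hG h
  · intro h
    exact ⟨n, F, h, rfl⟩

include hp in
theorem exists_tl {o : A} {S : Set (A → A)} (hS : CC a b o S) {h : A → A} (hh : h ∈ S) :
    ∃ (n : ℕ) (F : (Fin (n + 1) → A) → A), h = tl a b F := by
  obtain ⟨t, ht, hth⟩ := hS.1 h hh
  obtain ⟨n, rfl⟩ := (inG_iff hp).1 ht
  refine ⟨n, fun s => h (en hp n (pad s) o), ?_⟩
  funext x
  rw [← hth x]
  unfold tl
  congr 1
  apply en_congr
  intro i hi
  simp only [pad]
  rw [dif_pos (by omega)]

theorem dec_le {o : A} {S S' : Set (A → A)} (hS : CC a b o S) (hS' : CC a b o S') :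
    dec hp o S hS ≤ dec hp o S' hS' ↔ S ⊆ S' := by
  constructor
  · intro h g hg
    obtain ⟨n, F, rfl⟩ := exists_tl hp hS hg
    exact h n hg
  · intro h n F hF
    exact h hF

theorem dec_inj {o : A} {S S' : Set (A → A)} (hS : CC a b o S) (hS' : CC a b o S') :
    dec hp o S hS = dec hp o S' hS' ↔ S = S' := by
  constructor
  · intro h
    apply Set.Subset.antisymm
    · exact (dec_le hp hS hS').1 h.le
    · exact (dec_le hp hS' hS).1 h.ge
  · intro h; subst h; rfl

end pairing

open Cardinal in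
theorem exists_pairing [Infinite A] : ∃ a b : A → A, Pairing a b := by
  have : #A = #(A × A) := by
    rw [mk_prod]
    simp only [lift_id]
    exact (mul_eq_self (aleph0_le_mk A)).symm
  obtain ⟨e⟩ := Cardinal.eq.1 this
  refine ⟨fun x => (e x).1, fun x => (e x).2, ?_, ?_⟩
  · intro y z
    exact ⟨e.symm (y, z), by simp, by simp⟩
  · intro x x' h1 h2
    exact e.injective (Prod.ext h1 h2)

end Pool.Agent.Helper583
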