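import Mathlib
import Pool.Agent.Helper583.ClSeq

set_option autoImplicit false
set_option linter.unusedVariables false
set_option linter.unusedSimpArgs false

namespace Pool.Agent.Helper583

universe u

open FirstOrder Language CloneOn

namespace Def3

variable {p q r : ℕ}

theorem sameE (a b : Fin q) (i j : Fin p) :
    Def3.{u} (p := p) (q := q) (r := r) (fun A x f S => f a (x i) = f b (x j)) :=
  (exE (P := fun A x f S z => f b (x j) = z ∧ f a (x i) = z) (and (app _ _ _)
    (app _ _ _))).congr (by intro A x f S; simp)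

theorem comp3 (h t k : Fin q) (i : Fin p) :
    Def3.{u} (p := p) (q := q) (r := r) (fun A x f S => f h (f t (x i)) = f k (x i)) :=
  (exE (P := fun A x f S z => f k (x i) = z ∧ f h (f t (x i)) = z) (and (app _ _ _)
    (app2 _ _ _ _))).congr (by intro A x f S; simp)

theorem pairing (k l : Fin q) :
    Def3.{u} (p := p) (q := q) (r := r) (fun A x f S => Pairing (f k) (f l)) :=
  and (allE (allE (exE (and (app _ _ _) (app _ _ _)))))
    (allE (allE (imp (sameE _ _ _ _) (imp (sameE _ _ _ _) (eqE _ _)))))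

theorem inT (l t : Fin q) :
    Def3.{u} (p := p) (q := q) (r := r) (fun A x f S => InT (f l) (f t)) :=
  allS (imp (allF (imp (allE (app _ _ _)) (mem _ _)))
    (imp (allF (imp (mem _ _) (allF (imp (allE (comp1 _ _ _ _)) (mem _ _))))) (mem _ _)))

theorem inG (k l : Fin q) (o : Fin p) (t : Fin q) :
    Def3.{u} (p := p) (q := q) (r := r) (fun A x f S => InG (f k) (f l) (x o) (f t)) :=
  allS (imp (allF (imp (allE (app _ _ _)) (mem _ _)))
    (imp (allF (imp (mem _ _) (allF (imp (allE (and (comp3 k.succ.succ 0 k.succ.succ 0)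
      (comp2 l.succ.succ 0 (Fin.succ 0) l.succ.succ 0)))
      (mem _ _))))) (mem _ _)))

theorem cc (k l : Fin q) (o : Fin p) (s : Fin r) :
    Def3.{u} (p := p) (q := q) (r := r) (fun A x f S => CC (f k) (f l) (x o) (S s)) :=
  and (allF (imp (mem _ _) (exF (and (inG _ _ _ _) (allE (comp3 _ _ _ _))))))
    (and (allF (imp (inT _ _) (allF (imp (allE (comp1 _ _ _ _)) (mem _ _)))))
      (allF (imp (mem _ _) (allF (imp
        (allF (imp (inT _ _) (allF (imp (allE (exE (and (app2 _ _ _ _) (sameE _ _ _ _))))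
          (mem _ _)))))
        (allF (imp (allE (comp1 _ _ _ _)) (mem _ _))))))))

end Def3

/-- translation of first order formulas about the clone lattice -/
theorem trB {n : ℕ} (φ : Language.order.BoundedFormula Empty n) :
    ∀ {r : ℕ} (idx : Fin n → Fin r), ∃ ψ : ThreeForm 1 2 r,
      ∀ (A : Type u) (x : Fin 1 → A) (f : Fin 2 → A → A) (S : Fin r → Set (A → A))
        (hp : Pairing (f 0) (f 1)) (hS : ∀ i, CC (f 0) (f 1) (x 0) (S (idx i))),
        Sat A ψ x f S ↔ φ.Realize (M := CloneOn A) default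
          (fun i => dec hp (x 0) (S (idx i)) (hS i)) := by
  induction φ with
  | falsum =>
    intro r idx
    obtain ⟨ψ, hψ⟩ := (Def3.not (Def3.eqE.{u} (q := 2) (r := r) (0 : Fin 1) 0))
    refine ⟨ψ, fun A x f S hp hS => ?_⟩
    rw [hψ]
    simp [BoundedFormula.Realize]
  | @equal n t₁ t₂ =>
    intro r idx
    rcases t₁ with t₁ | ⟨g, _⟩
    swap; · exact isEmptyElim g
    rcases t₂ with t₂ | ⟨g, _⟩
    swap; · exact isEmptyElim g
    rcases t₁ with t₁ | i
    · exact isEmptyElim t₁
    rcases t₂ with t₂ | j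
    · exact isEmptyElim t₂
    obtain ⟨ψ, hψ⟩ := (Def3.allF.{u} (P := fun A x f S g => g ∈ S (idx i) ↔ g ∈ S (idx j))
      (Def3.iff (Def3.mem (p := 1) (q := 3) (r := r) 0 (idx i)) (Def3.mem 0 (idx j))))
    refine ⟨ψ, fun A x f S hp hS => ?_⟩
    rw [hψ]
    simp only [BoundedFormula.Realize, Term.realize_var, Sum.elim_inr]
    rw [dec_inj]
    exact Set.ext_iff.symm
  | @rel n l R ts =>
    intro r idx
    cases R
    have hts : ∀ k : Fin 2, ∃ i : Fin n, ts k = Term.var (Sum.inr i) := by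
      intro k
      rcases hk : ts k with t₁ | ⟨g, _⟩
      · rcases t₁ with t₁ | i
        · exact isEmptyElim t₁
        · exact ⟨i, rfl⟩
      · exact isEmptyElim g
    obtain ⟨i, hi⟩ := hts 0
    obtain ⟨j, hj⟩ := hts 1
    obtain ⟨ψ, hψ⟩ := (Def3.allF.{u} (P := fun A x f S g => g ∈ S (idx i) → g ∈ S (idx j))
      (Def3.imp (Def3.mem (p := 1) (q := 3) (r := r) 0 (idx i)) (Def3.mem 0 (idx j))))
    refine ⟨ψ, fun A x f S hp hS => ?_⟩
    rw [hψ]
    simp only [BoundedFormula.Realize]
    have e : ∀ w : Fin 2 → CloneOn A,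
        (Structure.RelMap (L := Language.order) orderRel.le w ↔ w 0 ≤ w 1) := fun w => Iff.rfl
    rw [e, hi, hj]
    simp only [Term.realize_var, Sum.elim_inr]
    rw [dec_le]
    exact Iff.rfl
  | imp φ ψ ih1 ih2 =>
    intro r idx
    obtain ⟨φ', h1⟩ := ih1 idx
    obtain ⟨ψ', h2⟩ := ih2 idx
    refine ⟨.neg (.and φ' (.neg ψ')), fun A x f S hp hS => ?_⟩
    simp only [Sat_eqE, Sat_app, Sat_mem, Sat_neg, Sat_and, Sat_allE, Sat_allF, Sat_allS, BoundedFormula.realize_imp]
    rw [h1 A x f S hp hS, h2 A x f S hp hS]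
    tauto
  | @all n φ ih =>
    intro r idx
    obtain ⟨φ', h1⟩ := ih (Fin.snoc (α := fun _ => Fin (r + 1)) (fun i => (idx i).succ) 0)
    obtain ⟨χ, hχ⟩ := Def3.cc.{u} (p := 1) (q := 2) (r := r + 1) 0 1 0 0
    refine ⟨.allS (.neg (.and χ (.neg φ'))), fun A x f S hp hS => ?_⟩
    simp only [Sat_eqE, Sat_app, Sat_mem, Sat_neg, Sat_and, Sat_allE, Sat_allF, Sat_allS, BoundedFormula.realize_all]
    have key : ∀ (T : Set (A → A)) (hT : CC (f 0) (f 1) (x 0) T),
        (Sat A φ' x f (Fin.cons T S) ↔ φ.Realize (M := CloneOn A) default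
          (Fin.snoc (fun i => dec hp (x 0) (S (idx i)) (hS i)) (dec hp (x 0) T hT))) := by
      intro T hT
      have hS' : ∀ i, CC (f 0) (f 1) (x 0) ((Fin.cons T S : Fin (r + 1) → Set (A → A))
          ((Fin.snoc (α := fun _ => Fin (r + 1)) (fun i => (idx i).succ) 0 :
            Fin (n + 1) → Fin (r + 1)) i)) := by
        intro i
        refine Fin.lastCases ?_ ?_ i
        · rw [Fin.snoc_last]; exact hT
        · intro i
          rw [Fin.snoc_castSucc]
          exact hS i
      rw [h1 A x f (Fin.cons T S) hp hS']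
      have e : (fun i => dec hp (x 0) _ (hS' i)) =
          (Fin.snoc (α := fun _ => CloneOn A) (fun i => dec hp (x 0) (S (idx i)) (hS i))
            (dec hp (x 0) T hT) : Fin (n + 1) → CloneOn A) := by
        funext i
        refine Fin.lastCases ?_ ?_ i
        · refine Eq.trans ?_ (Fin.snoc_last (α := fun _ => CloneOn A) _ _).symm
          exact (dec_inj hp _ _).2 (by rw [Fin.snoc_last, Fin.cons_zero])
        · intro i
          refine Eq.trans ?_ (Fin.snoc_castSucc (α := fun _ => CloneOn A) _ _ _).symm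
          exact (dec_inj hp _ _).2 (by rw [Fin.snoc_castSucc, Fin.cons_succ])
      rw [e]
    constructor
    · intro h C
      have h2 := h (code (f 0) (f 1) C)
      rw [hχ] at h2
      simp only [Fin.cons_zero] at h2
      have h3 := cc_code hp (x 0) C
      have h4 : Sat A φ' x f (Fin.cons (code (f 0) (f 1) C) S) := by
        by_contra h5
        exact h2 ⟨h3, h5⟩
      rw [key _ h3, dec_code] at h4
      exact h4
    · rintro h T ⟨h2, h3⟩
      rw [hχ] at h2
      simp only [Fin.cons_zero] at h2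
      apply h3
      rw [key _ h2]
      exact h _

theorem trB_sentence (φ : Language.order.Sentence) : ∃ ψ : ThreeForm 0 0 0,
    ∀ (A : Type u) [Infinite A], Sat A ψ Fin.elim0 Fin.elim0 Fin.elim0 ↔ CloneOn A ⊨ φ := by
  obtain ⟨ψ, hψ⟩ := trB.{u} φ (r := 0) Fin.elim0
  obtain ⟨χ, hχ⟩ := Def3.pairing.{u} (p := 1) (q := 2) (r := 0) 0 1
  refine ⟨.allE (.allF (.allF (.neg (.and χ (.neg ψ))))), fun A _ => ?_⟩
  simp only [Sat_eqE, Sat_app, Sat_mem, Sat_neg, Sat_and, Sat_allE, Sat_allF, Sat_allS]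
  have key : ∀ (o : A) (a b : A → A), Pairing a b →
      (Sat A ψ (Fin.cons o Fin.elim0) (Fin.cons a (Fin.cons b Fin.elim0)) Fin.elim0 ↔
        CloneOn A ⊨ φ) := by
    intro o a b hp
    rw [hψ A (Fin.cons o Fin.elim0) (Fin.cons a (Fin.cons b Fin.elim0)) Fin.elim0 hp
      (fun i => i.elim0)]
    simp only [Sentence.Realize, Formula.Realize]
    have e : ∀ w w' : Fin 0 → CloneOn A, w = w' := fun _ _ => Subsingleton.elim _ _
    rw [e (fun i => _) default]
  constructor
  · intro h
    obtain ⟨o⟩ : Nonempty A := inferInstance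
    obtain ⟨a, b, hp⟩ := exists_pairing (A := A)
    have h2 := h o b a
    rw [← key o a b hp]
    by_contra h3
    apply h2
    refine ⟨?_, h3⟩
    rw [hχ]
    exact hp
  · rintro h o b a ⟨h2, h3⟩
    rw [hχ] at h2
    apply h3
    rw [key o a b h2]
    exact h

theorem elem_of_third {A B : Type u} [Infinite A] [Infinite B] (h : ThirdOrderEquiv A B) :
    CloneOn A ≅[Language.order] CloneOn B := by
  rw [elementarilyEquivalent_iff]
  intro φ
  obtain ⟨ψ, hψ⟩ := trB_sentence.{u} φ
  rw [← hψ A, ← hψ B]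
  exact h ψ

end Pool.Agent.Helper583
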