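import Mathlib
import Pool.Agent.Helper583.ClTrB

set_option autoImplicit false
set_option linter.unusedVariables false
set_option linter.unusedSimpArgs false

namespace Pool.Agent.Helper583

universe u

open FirstOrder Language CloneOn Cardinal

variable {A B : Type u}

theorem Sat_equiv (e : A ≃ B) {p q r : ℕ} (φ : ThreeForm p q r) :
    ∀ (x : Fin p → A) (f : Fin q → A → A) (S : Fin r → Set (A → A)),
    Sat A φ x f S ↔ Sat B φ (fun i => e (x i)) (fun k y => e (f k (e.symm y)))
      (fun l => {g | (fun y => e.symm (g (e y))) ∈ S l}) := by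
  have hc : ∀ {X Y : Type u} {n : ℕ} (h : X → Y) (a : X) (x : Fin n → X),
      (Fin.cons (h a) (fun i => h (x i)) : Fin (n + 1) → Y) =
      fun i => h ((Fin.cons a x : Fin (n + 1) → X) i) := fun h a x => cons_comp h a x
  induction φ with
  | eqE i j => intro x f S; simp [Sat_eqE, Sat_app, Sat_mem, Sat_neg, Sat_and, Sat_allE, Sat_allF, Sat_allS]
  | app k i j => intro x f S; simp [Sat_eqE, Sat_app, Sat_mem, Sat_neg, Sat_and, Sat_allE, Sat_allF, Sat_allS]
  | mem k l => intro x f S; simp [Sat_eqE, Sat_app, Sat_mem, Sat_neg, Sat_and, Sat_allE, Sat_allF, Sat_allS]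
  | neg φ ih => intro x f S; simp only [Sat_eqE, Sat_app, Sat_mem, Sat_neg, Sat_and, Sat_allE, Sat_allF, Sat_allS]; rw [ih]
  | and φ ψ ih1 ih2 => intro x f S; simp only [Sat_eqE, Sat_app, Sat_mem, Sat_neg, Sat_and, Sat_allE, Sat_allF, Sat_allS]; rw [ih1, ih2]
  | allE φ ih =>
    intro x f S
    simp only [Sat_eqE, Sat_app, Sat_mem, Sat_neg, Sat_and, Sat_allE, Sat_allF, Sat_allS]
    rw [← e.forall_congr_right]
    refine forall_congr' fun a => ?_
    rw [ih, hc (fun a => e a) a x]
  | allF φ ih =>
    intro x f S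
    simp only [Sat_eqE, Sat_app, Sat_mem, Sat_neg, Sat_and, Sat_allE, Sat_allF, Sat_allS]
    rw [← (e.arrowCongr e).forall_congr_right]
    refine forall_congr' fun a => ?_
    rw [ih]
    have := hc (fun (g : A → A) (y : B) => e (g (e.symm y))) a f
    rw [← this]
    rfl
  | allS φ ih =>
    intro x f S
    simp only [Sat_eqE, Sat_app, Sat_mem, Sat_neg, Sat_and, Sat_allE, Sat_allF, Sat_allS]
    have := fun a => hc (fun (T : Set (A → A)) => {g : B → B | (fun y => e.symm (g (e y))) ∈ T}) a S
    constructor
    · intro h T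
      have h2 := (ih _ _ _).1 (h {g : A → A | (fun y => e (g (e.symm y))) ∈ T})
      rw [← this] at h2
      have e2 : {g : B → B | (fun y => e.symm (g (e y))) ∈
          {g : A → A | (fun y => e (g (e.symm y))) ∈ T}} = T := by
        ext g
        show (fun y => e (e.symm (g (e (e.symm y))))) ∈ T ↔ g ∈ T
        simp only [Equiv.apply_symm_apply]
      rw [e2] at h2
      exact h2
    · intro h T
      rw [ih, ← this]
      exact h _

theorem third_of_equiv (e : A ≃ B) : ThirdOrderEquiv A B := by
  intro φ
  rw [Sat_equiv e φ]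
  have h0 : ∀ {X : Type u} (w w' : Fin 0 → X), w = w' := fun _ _ => Subsingleton.elim _ _
  rw [h0 (fun i => e _) Fin.elim0, h0 (fun k y => e _) Fin.elim0, h0 (fun l => {g | _}) Fin.elim0]

theorem elem_of_iso {P Q : Type u} [PartialOrder P] [PartialOrder Q] (e : P ≃o Q) :
    P ≅[Language.order] Q :=
  StrongHomClass.elementarilyEquivalent e

theorem elem_of_equiv (e : A ≃ B) : CloneOn A ≅[Language.order] CloneOn B :=
  elem_of_iso (mapIso e)

theorem subsingleton_clone [Subsingleton A] (C D : CloneOn A) : C = D := by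
  ext n f
  have : f = fun x => x 0 := Subsingleton.elim _ _
  rw [this]
  exact ⟨fun _ => D.proj_mem n 0, fun _ => C.proj_mem n 0⟩

theorem elem_of_subsingleton [Subsingleton A] [Subsingleton B] :
    CloneOn A ≅[Language.order] CloneOn B := by
  refine elem_of_iso
    { toFun := fun _ => bot B, invFun := fun _ => bot A, left_inv := fun C => subsingleton_clone _ _,
      right_inv := fun C => subsingleton_clone _ _, map_rel_iff' := ?_ }
  intro C D
  exact ⟨fun _ => (subsingleton_clone C D).le, fun _ => le_rfl⟩

/-- the criterion in terms of sets -/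
theorem criterion_sets : CloneOn A ≅[Language.order] CloneOn B ↔
    (Subsingleton A ∧ Subsingleton B) ∨ Nonempty (A ≃ B) ∨
      (Infinite A ∧ Infinite B ∧ ThirdOrderEquiv A B) := by
  constructor
  · intro h
    rcases subsingleton_or_nontrivial A with hA | hA
    · rcases subsingleton_or_nontrivial B with hB | hB
      · exact Or.inl ⟨hA, hB⟩
      · have := nontrivial_of_elem h.symm
        exact absurd hA (not_subsingleton A)
    · have hB := nontrivial_of_elem h
      rcases finite_or_infinite A with hfA | hfA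
      · exact Or.inr (Or.inl (card_of_elem h))
      · rcases finite_or_infinite B with hfB | hfB
        · obtain ⟨e⟩ := card_of_elem h.symm
          exact Or.inr (Or.inl ⟨e.symm⟩)
        · exact Or.inr (Or.inr ⟨hfA, hfB, third_of_elem h⟩)
  · rintro (⟨hA, hB⟩ | ⟨⟨e⟩⟩ | ⟨hA, hB, h⟩)
    · exact elem_of_subsingleton
    · exact elem_of_equiv e
    · exact elem_of_third h

end Pool.Agent.Helper583
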