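import Mathlib

set_option autoImplicit false

namespace Pool.Agent.Helper583

universe u

/-- commutator used for the first family -/
def cm {G : Type u} [Group G] (a b : G) : G := a⁻¹ * b⁻¹ * a * b

/-- commutator used for the second family -/
def yc {G : Type u} [Group G] (a b : G) : G := a⁻¹ * b * a * b⁻¹

/-- the letter operator on the first family -/
def Zl {G : Type u} [Group G] (x0 x1 x2 : G) : Bool → G → G
  | false, z => cm (cm (z ^ 28980) (x0 ^ 22155)) (x1 ^ 14770)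
  | true, z => cm (cm (z ^ 26670) (x0 ^ 22155)) (x2 ^ 26586)

/-- the letter operator on the second family -/
def Yl {G : Type u} [Group G] (x0 x1 x2 : G) : Bool → G → G
  | false, h => yc (yc (h ^ 28980) (x1 ^ 14770)) (x0 ^ 22155)
  | true, h => yc (yc (h ^ 26670) (x2 ^ 26586)) (x0 ^ 22155)

/-- the vertex word -/
def Pv {G : Type u} [Group G] (d z h : G) : G := cm (cm (z ^ 44100) (d ^ 25320)) (h ^ 44100)

/-- iterated letter operator, letters read from left to right -/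
def Zw {G : Type u} [Group G] (x0 x1 x2 : G) (g : List Bool) (z : G) : G :=
  g.foldl (fun z k => Zl x0 x1 x2 k z) z

def Yw {G : Type u} [Group G] (x0 x1 x2 : G) (g : List Bool) (z : G) : G :=
  g.foldl (fun z k => Yl x0 x1 x2 k z) z

section basics
variable {G : Type u} [Group G]

@[simp] theorem cm_one_left (b : G) : cm 1 b = 1 := by simp [cm]
@[simp] theorem cm_one_right (b : G) : cm b 1 = 1 := by simp [cm]
@[simp] theorem yc_one_left (b : G) : yc 1 b = 1 := by simp [yc]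
@[simp] theorem yc_one_right (b : G) : yc b 1 = 1 := by simp [yc]

@[simp] theorem Zl_one (x0 x1 x2 : G) (k : Bool) : Zl x0 x1 x2 k 1 = 1 := by
  cases k <;> simp [Zl]

@[simp] theorem Yl_one (x0 x1 x2 : G) (k : Bool) : Yl x0 x1 x2 k 1 = 1 := by
  cases k <;> simp [Yl]

@[simp] theorem Pv_one (d h : G) : Pv d 1 h = 1 := by simp [Pv]

@[simp] theorem Zw_nil (x0 x1 x2 z : G) : Zw x0 x1 x2 [] z = z := rfl
@[simp] theorem Zw_cons (x0 x1 x2 z : G) (k : Bool) (g : List Bool) :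
    Zw x0 x1 x2 (k :: g) z = Zw x0 x1 x2 g (Zl x0 x1 x2 k z) := rfl
@[simp] theorem Yw_nil (x0 x1 x2 z : G) : Yw x0 x1 x2 [] z = z := rfl
@[simp] theorem Yw_cons (x0 x1 x2 z : G) (k : Bool) (g : List Bool) :
    Yw x0 x1 x2 (k :: g) z = Yw x0 x1 x2 g (Yl x0 x1 x2 k z) := rfl

theorem Zw_append (x0 x1 x2 z : G) (g h : List Bool) :
    Zw x0 x1 x2 (g ++ h) z = Zw x0 x1 x2 h (Zw x0 x1 x2 g z) := by
  simp [Zw, List.foldl_append]

theorem Yw_append (x0 x1 x2 z : G) (g h : List Bool) :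
    Yw x0 x1 x2 (g ++ h) z = Yw x0 x1 x2 h (Yw x0 x1 x2 g z) := by
  simp [Yw, List.foldl_append]

@[simp] theorem Zw_one (x0 x1 x2 : G) (g : List Bool) : Zw x0 x1 x2 g 1 = 1 := by
  induction g with
  | nil => rfl
  | cons k g ih => simp [ih]

end basics

/-! ### The model -/

abbrev K := ZMod 211

section model
variable (s : Type u)

abbrev W2 := (s → K) × (s → K)
abbrev VV := K × W2 s × K

variable {s}

def Zp (a : W2 s →ₗ[K] K) : Equiv.Perm (VV s) where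
  toFun v := (v.1 + a v.2.1, v.2.1, v.2.2)
  invFun v := (v.1 - a v.2.1, v.2.1, v.2.2)
  left_inv v := by simp
  right_inv v := by simp

def Hp (b : W2 s) : Equiv.Perm (VV s) where
  toFun v := (v.1, v.2.1 + v.2.2 • b, v.2.2)
  invFun v := (v.1, v.2.1 - v.2.2 • b, v.2.2)
  left_inv v := by simp
  right_inv v := by simp

def Xp (X : W2 s ≃ₗ[K] W2 s) : Equiv.Perm (VV s) where
  toFun v := (v.1, X v.2.1, v.2.2)
  invFun v := (v.1, X.symm v.2.1, v.2.2)
  left_inv v := by simp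
  right_inv v := by simp

def Cp (m : K) : Equiv.Perm (VV s) where
  toFun v := (v.1 + v.2.2 * m, v.2.1, v.2.2)
  invFun v := (v.1 - v.2.2 * m, v.2.1, v.2.2)
  left_inv v := by simp
  right_inv v := by simp

theorem k58 : (58 : K) * 58 ^ 6 = 1 := by decide

def Dp : Equiv.Perm (VV s) where
  toFun v := (58 * v.1, v.2.1, v.2.2)
  invFun v := (58 ^ 6 * v.1, v.2.1, v.2.2)
  left_inv v := by
    have : (58 : K) ^ 6 * (58 * v.1) = v.1 := by
      rw [← mul_assoc, mul_comm ((58 : K) ^ 6) 58, k58, one_mul]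
    simp [this]
  right_inv v := by
    have : (58 : K) * (58 ^ 6 * v.1) = v.1 := by
      rw [← mul_assoc, k58, one_mul]
    simp [this]

@[simp] theorem Zp_apply (a : W2 s →ₗ[K] K) (v : VV s) : Zp a v = (v.1 + a v.2.1, v.2.1, v.2.2) := rfl
@[simp] theorem Zp_symm_apply (a : W2 s →ₗ[K] K) (v : VV s) :
    (Zp a).symm v = (v.1 - a v.2.1, v.2.1, v.2.2) := rfl
@[simp] theorem Hp_apply (b : W2 s) (v : VV s) : Hp b v = (v.1, v.2.1 + v.2.2 • b, v.2.2) := rfl
@[simp] theorem Hp_symm_apply (b : W2 s) (v : VV s) :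
    (Hp b).symm v = (v.1, v.2.1 - v.2.2 • b, v.2.2) := rfl
@[simp] theorem Xp_apply (X : W2 s ≃ₗ[K] W2 s) (v : VV s) : Xp X v = (v.1, X v.2.1, v.2.2) := rfl
@[simp] theorem Xp_symm_apply (X : W2 s ≃ₗ[K] W2 s) (v : VV s) :
    (Xp X).symm v = (v.1, X.symm v.2.1, v.2.2) := rfl
@[simp] theorem Cp_apply (m : K) (v : VV s) : Cp m v = (v.1 + v.2.2 * m, v.2.1, v.2.2) := rfl
@[simp] theorem Cp_symm_apply (m : K) (v : VV s) :
    (Cp m).symm v = (v.1 - v.2.2 * m, v.2.1, v.2.2) := rfl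
@[simp] theorem Dp_apply (v : VV s) : Dp v = (58 * v.1, v.2.1, v.2.2) := rfl
@[simp] theorem Dp_symm_apply (v : VV s) : Dp.symm v = (58 ^ 6 * v.1, v.2.1, v.2.2) := rfl

theorem Zp_zero : Zp (0 : W2 s →ₗ[K] K) = 1 := by
  ext v <;> simp

theorem Hp_zero : Hp (0 : W2 s) = 1 := by
  ext v <;> simp

theorem Zp_add (a b : W2 s →ₗ[K] K) : Zp a * Zp b = Zp (a + b) := by
  ext v <;> simp [add_comm, add_left_comm]

theorem Hp_add (a b : W2 s) : Hp a * Hp b = Hp (a + b) := by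
  ext v <;> simp [add_comm, add_left_comm]

theorem Zp_pow (a : W2 s →ₗ[K] K) (n : ℕ) : Zp a ^ n = Zp ((n : K) • a) := by
  induction n with
  | zero => simp [Zp_zero]
  | succ n ih => rw [pow_succ, ih, Zp_add, Nat.cast_succ, add_smul, one_smul]

theorem Hp_pow (a : W2 s) (n : ℕ) : Hp a ^ n = Hp ((n : K) • a) := by
  induction n with
  | zero => simp [Hp_zero]
  | succ n ih => rw [pow_succ, ih, Hp_add, Nat.cast_succ, add_smul, one_smul]

theorem cm_Zp_Xp (a : W2 s →ₗ[K] K) (X : W2 s ≃ₗ[K] W2 s) :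
    cm (Zp a) (Xp X) = Zp (a ∘ₗ (X : W2 s →ₗ[K] W2 s) - a) := by
  ext v <;> simp [cm, Equiv.Perm.mul_apply, Equiv.Perm.inv_def, add_sub_assoc]

theorem cm_Hp_Xp (b : W2 s) (X : W2 s ≃ₗ[K] W2 s) :
    cm (Hp b) (Xp X) = Hp (X.symm b - b) := by
  ext v <;> simp [cm, Equiv.Perm.mul_apply, Equiv.Perm.inv_def, mul_sub, add_sub_assoc]

theorem yc_Zp_Xp (a : W2 s →ₗ[K] K) (X : W2 s ≃ₗ[K] W2 s) :
    yc (Zp a) (Xp X) = Zp (a ∘ₗ (X.symm : W2 s →ₗ[K] W2 s) - a) := by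
  ext v <;> simp [yc, Equiv.Perm.mul_apply, Equiv.Perm.inv_def, add_sub_assoc]

theorem yc_Hp_Xp (b : W2 s) (X : W2 s ≃ₗ[K] W2 s) :
    yc (Hp b) (Xp X) = Hp (X b - b) := by
  ext v <;> simp [yc, Equiv.Perm.mul_apply, Equiv.Perm.inv_def, mul_sub, add_sub_assoc]

theorem cm_Zp_Dp (a : W2 s →ₗ[K] K) :
    cm (Zp a) Dp = Zp (((58 : K) ^ 6 - 1) • a) := by
  ext v <;> simp [cm, Equiv.Perm.mul_apply, Equiv.Perm.inv_def]
  have h : (58 : K) ^ 6 * 58 = 1 := by decide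
  linear_combination (v.1) * h

theorem cm_Hp_Dp (b : W2 s) :
    cm (Hp b) Dp = 1 := by
  ext v <;> simp [cm, Equiv.Perm.mul_apply, Equiv.Perm.inv_def]
  have h : (58 : K) ^ 6 * 58 = 1 := by decide
  linear_combination (v.1) * h

theorem cm_Zp_Hp (a : W2 s →ₗ[K] K) (b : W2 s) :
    cm (Zp a) (Hp b) = Cp (a b) := by
  ext v <;> simp [cm, Equiv.Perm.mul_apply, Equiv.Perm.inv_def]
  ring

theorem cm_Zp_Zp (a b : W2 s →ₗ[K] K) : cm (Zp a) (Zp b) = 1 := by
  ext v <;> simp [cm, Equiv.Perm.mul_apply, Equiv.Perm.inv_def]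
  ring


theorem cm_Hp_Hp (a b : W2 s) : cm (Hp a) (Hp b) = 1 := by
  ext v <;> simp [cm, Equiv.Perm.mul_apply, Equiv.Perm.inv_def] <;> ring

theorem Xp_mul (X Y : W2 s ≃ₗ[K] W2 s) : Xp X * Xp Y = Xp (X * Y) := by
  ext v <;> simp [Equiv.Perm.mul_apply]

theorem Xp_one : Xp (1 : W2 s ≃ₗ[K] W2 s) = 1 := by
  ext v <;> simp

theorem Xp_pow (X : W2 s ≃ₗ[K] W2 s) (n : ℕ) : Xp X ^ n = Xp (X ^ n) := by
  induction n with
  | zero => simp [Xp_one]
  | succ n ih => rw [pow_succ, ih, Xp_mul, pow_succ]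

/-- `1 + c e` for an idempotent `e` -/
def Xi (e : W2 s →ₗ[K] W2 s) (he : ∀ v, e (e v) = e v) (c c' : K) (h : c + c' + c * c' = 0) :
    W2 s ≃ₗ[K] W2 s where
  toFun v := v + c • e v
  invFun v := v + c' • e v
  map_add' v w := by simp only [map_add, smul_add]; abel
  map_smul' a v := by simp only [map_smul, RingHom.id_apply, smul_add, smul_comm c a]
  left_inv v := by
    simp only [map_add, map_smul, he, smul_add, smul_smul]
    have : c • e v + (c' • e v + (c' * c) • e v) = (c + c' + c * c') • e v := by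
      rw [add_smul, add_smul, mul_comm c' c]; abel
    rw [add_assoc, this, h, zero_smul, add_zero]
  right_inv v := by
    simp only [map_add, map_smul, he, smul_add, smul_smul]
    have : c' • e v + (c • e v + (c * c') • e v) = (c + c' + c * c') • e v := by
      rw [add_smul, add_smul]; abel
    rw [add_assoc, this, h, zero_smul, add_zero]

@[simp] theorem Xi_apply (e : W2 s →ₗ[K] W2 s) (he : ∀ v, e (e v) = e v) (c c' : K)
    (h : c + c' + c * c' = 0) (v : W2 s) : Xi e he c c' h v = v + c • e v := rfl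

theorem Xi_sub (e : W2 s →ₗ[K] W2 s) (he : ∀ v, e (e v) = e v) (c c' : K)
    (h : c + c' + c * c' = 0) (v : W2 s) : Xi e he c c' h v - v = c • e v := by
  rw [Xi_apply, add_sub_cancel_left]

theorem Xi_pow_apply (e : W2 s →ₗ[K] W2 s) (he : ∀ v, e (e v) = e v) (c c' : K)
    (h : c + c' + c * c' = 0) (n : ℕ) (v : W2 s) :
    (Xi e he c c' h ^ n) v = v + ((1 + c) ^ n - 1) • e v := by
  induction n with
  | zero => simp
  | succ n ih =>
    rw [pow_succ', LinearEquiv.mul_apply, ih, Xi_apply]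
    simp only [map_add, map_smul, he, smul_add, smul_smul]
    rw [add_assoc, ← add_smul, ← add_smul]
    congr 2
    ring

theorem Xi_pow_eq_one (e : W2 s →ₗ[K] W2 s) (he : ∀ v, e (e v) = e v) (c c' : K)
    (h : c + c' + c * c' = 0) (n : ℕ) (hn : (1 + c) ^ n = 1) : Xi e he c c' h ^ n = 1 := by
  ext v : 1
  rw [Xi_pow_apply, hn]
  simp

/-- projection to the first component -/
def e0 : W2 s →ₗ[K] W2 s := (LinearMap.inl K (s → K) (s → K)).comp (LinearMap.fst K (s → K) (s → K))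

theorem e0_apply (v : W2 s) : e0 v = (v.1, 0) := rfl

theorem e0_idem (v : W2 s) : e0 (e0 v) = e0 v := rfl

/-- sum of the two components -/
def sm : W2 s →ₗ[K] (s → K) := LinearMap.fst K (s → K) (s → K) + LinearMap.snd K (s → K) (s → K)

theorem sm_apply (v : W2 s) : sm v = v.1 + v.2 := rfl

/-- the idempotent attached to an operator -/
def eA (A : (s → K) →ₗ[K] (s → K)) : W2 s →ₗ[K] W2 s :=
  (A.comp sm).prod (sm - A.comp sm)

theorem eA_apply (A : (s → K) →ₗ[K] (s → K)) (v : W2 s) :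
    eA A v = (A (v.1 + v.2), v.1 + v.2 - A (v.1 + v.2)) := rfl

theorem eA_idem (A : (s → K) →ₗ[K] (s → K)) (v : W2 s) : eA A (eA A v) = eA A v := by
  simp [eA_apply]

variable (A1 A2 : (s → K) →ₗ[K] (s → K))

def x0m : Equiv.Perm (VV s) := Xp (Xi e0 e0_idem (-2) (-2) (by decide))
def x1m : Equiv.Perm (VV s) := Xp (Xi (eA A1) (eA_idem A1) 13 195 (by decide))
def x2m : Equiv.Perm (VV s) := Xp (Xi (eA A2) (eA_idem A2) 54 (55 ^ 4 - 1) (by decide))

theorem pow_one_of {G : Type u} [Group G] {g : G} {p : ℕ} (h : g ^ p = 1) (k : ℕ) :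
    g ^ (p * k) = 1 := by rw [pow_mul, h, one_pow]

theorem pow_self_of {G : Type u} [Group G] {g : G} {p : ℕ} (h : g ^ p = 1) (k : ℕ) :
    g ^ (p * k + 1) = g := by rw [pow_succ, pow_mul, h, one_pow, one_mul]

theorem x0m_ord : (x0m : Equiv.Perm (VV s)) ^ 2 = 1 := by
  rw [x0m, Xp_pow, Xi_pow_eq_one _ _ _ _ _ _ (by decide), Xp_one]
theorem x1m_ord : (x1m A1 : Equiv.Perm (VV s)) ^ 3 = 1 := by
  rw [x1m, Xp_pow, Xi_pow_eq_one _ _ _ _ _ _ (by decide), Xp_one]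
theorem x2m_ord : (x2m A2 : Equiv.Perm (VV s)) ^ 5 = 1 := by
  rw [x2m, Xp_pow, Xi_pow_eq_one _ _ _ _ _ _ (by decide), Xp_one]

theorem Dp_pow_apply (n : ℕ) (v : VV s) : (Dp ^ n) v = ((58 : K) ^ n * v.1, v.2.1, v.2.2) := by
  induction n with
  | zero => simp
  | succ n ih =>
    rw [pow_succ', Equiv.Perm.mul_apply, ih, Dp_apply]
    ext <;> simp
    ring

theorem Dp_ord : (Dp : Equiv.Perm (VV s)) ^ 7 = 1 := by
  ext v <;> rw [Dp_pow_apply] <;> simp
  have h : (58 : K) ^ 7 = 1 := by decide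
  linear_combination (v.1) * h

theorem Zp_ord (a : W2 s →ₗ[K] K) (n : ℕ) (hn : (n : K) = 0) : Zp a ^ n = 1 := by
  rw [Zp_pow, hn, zero_smul, Zp_zero]
theorem Hp_ord (a : W2 s) (n : ℕ) (hn : (n : K) = 0) : Hp a ^ n = 1 := by
  rw [Hp_pow, hn, zero_smul, Hp_zero]

/-- the closed subset -/
inductive InS : Equiv.Perm (VV s) → Prop
  | x0 : InS x0m
  | x1 : InS (x1m A1)
  | x2 : InS (x2m A2)
  | d : InS Dp
  | Z (a : W2 s →ₗ[K] K) : InS (Zp a)
  | H (b : W2 s) : InS (Hp b)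

variable {A1 A2}

theorem InS.one : InS A1 A2 (1 : Equiv.Perm (VV s)) := by
  rw [← Zp_zero]; exact InS.Z 0

theorem pow_x0 {g : Equiv.Perm (VV s)} (h : InS A1 A2 g) : g ^ 22155 = 1 ∨ g ^ 22155 = x0m := by
  cases h with
  | x0 => exact Or.inr (pow_self_of x0m_ord 11077)
  | x1 => exact Or.inl (pow_one_of (x1m_ord A1) 7385)
  | x2 => exact Or.inl (pow_one_of (x2m_ord A2) 4431)
  | d => exact Or.inl (pow_one_of Dp_ord 3165)
  | Z a => exact Or.inl (Zp_ord a _ (by decide))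
  | H a => exact Or.inl (Hp_ord a _ (by decide))

theorem pow_x1 {g : Equiv.Perm (VV s)} (h : InS A1 A2 g) : g ^ 14770 = 1 ∨ g ^ 14770 = x1m A1 := by
  cases h with
  | x0 => exact Or.inl (pow_one_of x0m_ord 7385)
  | x1 => exact Or.inr (pow_self_of (x1m_ord A1) 4923)
  | x2 => exact Or.inl (pow_one_of (x2m_ord A2) 2954)
  | d => exact Or.inl (pow_one_of Dp_ord 2110)
  | Z a => exact Or.inl (Zp_ord a _ (by decide))
  | H a => exact Or.inl (Hp_ord a _ (by decide))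

theorem pow_x2 {g : Equiv.Perm (VV s)} (h : InS A1 A2 g) : g ^ 26586 = 1 ∨ g ^ 26586 = x2m A2 := by
  cases h with
  | x0 => exact Or.inl (pow_one_of x0m_ord 13293)
  | x1 => exact Or.inl (pow_one_of (x1m_ord A1) 8862)
  | x2 => exact Or.inr (pow_self_of (x2m_ord A2) 5317)
  | d => exact Or.inl (pow_one_of Dp_ord 3798)
  | Z a => exact Or.inl (Zp_ord a _ (by decide))
  | H a => exact Or.inl (Hp_ord a _ (by decide))

theorem pow_d {g : Equiv.Perm (VV s)} (h : InS A1 A2 g) : g ^ 25320 = 1 ∨ g ^ 25320 = Dp := by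
  cases h with
  | x0 => exact Or.inl (pow_one_of x0m_ord 12660)
  | x1 => exact Or.inl (pow_one_of (x1m_ord A1) 8440)
  | x2 => exact Or.inl (pow_one_of (x2m_ord A2) 5064)
  | d => exact Or.inr (pow_self_of Dp_ord 3617)
  | Z a => exact Or.inl (Zp_ord a _ (by decide))
  | H a => exact Or.inl (Hp_ord a _ (by decide))

/-- q-type elements -/
inductive InQ : Equiv.Perm (VV s) → Prop
  | Z (a : W2 s →ₗ[K] K) : InQ (Zp a)
  | H (b : W2 s) : InQ (Hp b)

theorem InQ.one : InQ (1 : Equiv.Perm (VV s)) := by rw [← Zp_zero]; exact InQ.Z 0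

theorem InQ.inS {g : Equiv.Perm (VV s)} (h : InQ g) : InS A1 A2 g := by
  cases h with
  | Z a => exact InS.Z a
  | H b => exact InS.H b

theorem pow_q {g : Equiv.Perm (VV s)} (h : InS A1 A2 g) (n : ℕ) :
    InQ (g ^ (210 * n)) := by
  cases h with
  | x0 => rw [show 210 * n = 2 * (105 * n) by ring, pow_one_of x0m_ord]; exact InQ.one
  | x1 => rw [show 210 * n = 3 * (70 * n) by ring, pow_one_of (x1m_ord A1)]; exact InQ.one
  | x2 => rw [show 210 * n = 5 * (42 * n) by ring, pow_one_of (x2m_ord A2)]; exact InQ.one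
  | d => rw [show 210 * n = 7 * (30 * n) by ring, pow_one_of Dp_ord]; exact InQ.one
  | Z a => rw [Zp_pow]; exact InQ.Z _
  | H a => rw [Hp_pow]; exact InQ.H _

theorem InQ.cm_X {g : Equiv.Perm (VV s)} (h : InQ g) (X : W2 s ≃ₗ[K] W2 s) :
    InQ (cm g (Xp X)) := by
  cases h with
  | Z a => rw [cm_Zp_Xp]; exact InQ.Z _
  | H b => rw [cm_Hp_Xp]; exact InQ.H _

theorem InQ.yc_X {g : Equiv.Perm (VV s)} (h : InQ g) (X : W2 s ≃ₗ[K] W2 s) :
    InQ (yc g (Xp X)) := by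
  cases h with
  | Z a => rw [yc_Zp_Xp]; exact InQ.Z _
  | H b => rw [yc_Hp_Xp]; exact InQ.H _

theorem InQ.cm_or {g x : Equiv.Perm (VV s)} (h : InQ g) (X : W2 s ≃ₗ[K] W2 s)
    (hx : x = 1 ∨ x = Xp X) : InQ (cm g x) := by
  rcases hx with rfl | rfl
  · rw [cm_one_right]; exact InQ.one
  · exact h.cm_X X

theorem InQ.yc_or {g x : Equiv.Perm (VV s)} (h : InQ g) (X : W2 s ≃ₗ[K] W2 s)
    (hx : x = 1 ∨ x = Xp X) : InQ (yc g x) := by
  rcases hx with rfl | rfl
  · rw [yc_one_right]; exact InQ.one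
  · exact h.yc_X X

theorem Zl_inQ {y0 y1 y2 z : Equiv.Perm (VV s)} (h0 : InS A1 A2 y0) (h1 : InS A1 A2 y1)
    (h2 : InS A1 A2 y2) (hz : InS A1 A2 z) (k : Bool) : InQ (Zl y0 y1 y2 k z) := by
  cases k with
  | false => exact ((pow_q hz 138).cm_or _ (pow_x0 h0)).cm_or _ (pow_x1 h1)
  | true => exact ((pow_q hz 127).cm_or _ (pow_x0 h0)).cm_or _ (pow_x2 h2)

theorem Yl_inQ {y0 y1 y2 z : Equiv.Perm (VV s)} (h0 : InS A1 A2 y0) (h1 : InS A1 A2 y1)
    (h2 : InS A1 A2 y2) (hz : InS A1 A2 z) (k : Bool) : InQ (Yl y0 y1 y2 k z) := by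
  cases k with
  | false => exact ((pow_q hz 138).yc_or _ (pow_x1 h1)).yc_or _ (pow_x0 h0)
  | true => exact ((pow_q hz 127).yc_or _ (pow_x2 h2)).yc_or _ (pow_x0 h0)


/-! ### operators of letters -/

/-- the action of a word on a state, letters read from left to right -/
def actW (α : Bool → s → s) (g : List Bool) (m : s) : s := g.foldl (fun m k => α k m) m

@[simp] theorem actW_nil (α : Bool → s → s) (m : s) : actW α [] m = m := rfl
@[simp] theorem actW_cons (α : Bool → s → s) (k : Bool) (g : List Bool) (m : s) :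
    actW α (k :: g) m = actW α g (α k m) := rfl

/-- composition operator -/
def Op (β : s → s) : (s → K) →ₗ[K] (s → K) := LinearMap.funLeft K K β

theorem Op_apply (β : s → s) (f : s → K) (m : s) : Op β f m = f (β m) := rfl

/-- the functional obtained from `a` by an operator on states -/
def pull (a : W2 s →ₗ[K] K) (β : s → s) : W2 s →ₗ[K] K :=
  ((a.comp (LinearMap.inl K (s → K) (s → K))).comp (Op β)).comp sm

theorem pull_apply (a : W2 s →ₗ[K] K) (β : s → s) (v : W2 s) :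
    pull a β v = a (Op β (sm v), 0) := rfl

theorem pull_pull (a : W2 s →ₗ[K] K) (β γ : s → s) :
    pull (pull a β) γ = pull a (γ ∘ β) := by
  apply LinearMap.ext; intro v
  rw [pull_apply, pull_apply, pull_apply]
  congr 2
  ext m
  simp [Op_apply, sm_apply]

theorem x0m_pow : (x0m : Equiv.Perm (VV s)) ^ 22155 = x0m := pow_self_of x0m_ord 11077
theorem x1m_pow : (x1m A1 : Equiv.Perm (VV s)) ^ 14770 = x1m A1 := pow_self_of (x1m_ord A1) 4923
theorem x2m_pow : (x2m A2 : Equiv.Perm (VV s)) ^ 26586 = x2m A2 := pow_self_of (x2m_ord A2) 5317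
theorem Dp_pow : (Dp : Equiv.Perm (VV s)) ^ 25320 = Dp := pow_self_of Dp_ord 3617

variable (α : Bool → s → s)

theorem Zl_proper_false (a : W2 s →ₗ[K] K) :
    Zl x0m (x1m (Op (α false))) (x2m (Op (α true))) false (Zp a) = Zp (pull a (α false)) := by
  rw [Zl, x0m_pow, x1m_pow, Zp_pow, x0m, x1m, cm_Zp_Xp, cm_Zp_Xp]
  congr 1
  apply LinearMap.ext; intro v
  simp only [LinearMap.sub_apply, LinearMap.comp_apply, LinearEquiv.coe_coe, Xi_apply,
    LinearMap.smul_apply, map_add, map_smul, smul_eq_mul, pull_apply, e0_apply, eA_apply, sm_apply]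
  have h : ((28980 : ℕ) : K) * ((-2) * 13) = 1 := by decide
  generalize a (Op (α false) v.1 + Op (α false) v.2, 0) = t at *
  linear_combination t * h

theorem Zl_proper_true (a : W2 s →ₗ[K] K) :
    Zl x0m (x1m (Op (α false))) (x2m (Op (α true))) true (Zp a) = Zp (pull a (α true)) := by
  rw [Zl, x0m_pow, x2m_pow, Zp_pow, x0m, x2m, cm_Zp_Xp, cm_Zp_Xp]
  congr 1
  apply LinearMap.ext; intro v
  simp only [LinearMap.sub_apply, LinearMap.comp_apply, LinearEquiv.coe_coe, Xi_apply,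
    LinearMap.smul_apply, map_add, map_smul, smul_eq_mul, pull_apply, e0_apply, eA_apply, sm_apply]
  have h : ((26670 : ℕ) : K) * ((-2) * 54) = 1 := by decide
  generalize a (Op (α true) v.1 + Op (α true) v.2, 0) = t at *
  linear_combination t * h

theorem Zl_proper (a : W2 s →ₗ[K] K) (k : Bool) :
    Zl x0m (x1m (Op (α false))) (x2m (Op (α true))) k (Zp a) = Zp (pull a (α k)) := by
  cases k
  · exact Zl_proper_false α a
  · exact Zl_proper_true α a

theorem Zw_proper (g : List Bool) (hg : g ≠ []) (a : W2 s →ₗ[K] K) :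
    Zw x0m (x1m (Op (α false))) (x2m (Op (α true))) g (Zp a) = Zp (pull a (actW α g)) := by
  induction g generalizing a with
  | nil => exact absurd rfl hg
  | cons k g ih =>
    rw [Zw_cons, Zl_proper]
    by_cases h : g = []
    · subst h; rfl
    · rw [ih h, pull_pull]; rfl

theorem Yl_proper_false (b : W2 s) :
    Yl x0m (x1m (Op (α false))) (x2m (Op (α true))) false (Hp b)
      = Hp ((Op (α false) (sm b), 0) : W2 s) := by
  rw [Yl, x0m_pow, x1m_pow, Hp_pow, x0m, x1m, yc_Hp_Xp, yc_Hp_Xp, Xi_sub, Xi_sub]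
  congr 1
  have h : (-2 : K) * (13 * ((28980 : ℕ) : K)) = 1 := by decide
  simp only [map_smul, smul_smul]
  rw [h, one_smul, eA_apply, e0_apply, sm_apply]

theorem Yl_proper_true (b : W2 s) :
    Yl x0m (x1m (Op (α false))) (x2m (Op (α true))) true (Hp b)
      = Hp ((Op (α true) (sm b), 0) : W2 s) := by
  rw [Yl, x0m_pow, x2m_pow, Hp_pow, x0m, x2m, yc_Hp_Xp, yc_Hp_Xp, Xi_sub, Xi_sub]
  congr 1
  have h : (-2 : K) * (54 * ((26670 : ℕ) : K)) = 1 := by decide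
  simp only [map_smul, smul_smul]
  rw [h, one_smul, eA_apply, e0_apply, sm_apply]

theorem Yl_proper (b : W2 s) (k : Bool) :
    Yl x0m (x1m (Op (α false))) (x2m (Op (α true))) k (Hp b)
      = Hp ((Op (α k) (sm b), 0) : W2 s) := by
  cases k
  · exact Yl_proper_false α b
  · exact Yl_proper_true α b

/-! ### degenerate cases -/

section deg
variable {G : Type u} [Group G]

theorem Zl_congr {y0 y1 y2 w0 w1 w2 : G} (h0 : y0 ^ 22155 = w0 ^ 22155)
    (h1 : y1 ^ 14770 = w1 ^ 14770) (h2 : y2 ^ 26586 = w2 ^ 26586) (k : Bool) (z : G) :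
    Zl y0 y1 y2 k z = Zl w0 w1 w2 k z := by
  cases k <;> simp only [Zl, h0, h1, h2]

theorem Yl_congr {y0 y1 y2 w0 w1 w2 : G} (h0 : y0 ^ 22155 = w0 ^ 22155)
    (h1 : y1 ^ 14770 = w1 ^ 14770) (h2 : y2 ^ 26586 = w2 ^ 26586) (k : Bool) (z : G) :
    Yl y0 y1 y2 k z = Yl w0 w1 w2 k z := by
  cases k <;> simp only [Yl, h0, h1, h2]

theorem Zw_congr {y0 y1 y2 w0 w1 w2 : G} (h0 : y0 ^ 22155 = w0 ^ 22155)
    (h1 : y1 ^ 14770 = w1 ^ 14770) (h2 : y2 ^ 26586 = w2 ^ 26586) (g : List Bool) (z : G) :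
    Zw y0 y1 y2 g z = Zw w0 w1 w2 g z := by
  induction g generalizing z with
  | nil => rfl
  | cons k g ih => rw [Zw_cons, Zw_cons, ih, Zl_congr h0 h1 h2]

theorem Zw_kill {y0 y1 y2 : G} (k : Bool) (hk : ∀ z, Zl y0 y1 y2 k z = 1) (g : List Bool)
    (hg : k ∈ g) (z : G) : Zw y0 y1 y2 g z = 1 := by
  induction g generalizing z with
  | nil => simp at hg
  | cons j g ih =>
    rw [Zw_cons]
    rcases List.mem_cons.1 hg with rfl | h
    · rw [hk, Zw_one]
    · exact ih h _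

theorem Zl_y0 {y0 y1 y2 : G} (h : y0 ^ 22155 = 1) (k : Bool) (z : G) : Zl y0 y1 y2 k z = 1 := by
  cases k <;> simp [Zl, h]
theorem Zl_y1 {y0 y1 y2 : G} (h : y1 ^ 14770 = 1) (z : G) : Zl y0 y1 y2 false z = 1 := by
  simp [Zl, h]
theorem Zl_y2 {y0 y1 y2 : G} (h : y2 ^ 26586 = 1) (z : G) : Zl y0 y1 y2 true z = 1 := by
  simp [Zl, h]
theorem Yl_y0 {y0 y1 y2 : G} (h : y0 ^ 22155 = 1) (k : Bool) (z : G) : Yl y0 y1 y2 k z = 1 := by
  cases k <;> simp [Yl, h]
theorem Yl_y1 {y0 y1 y2 : G} (h : y1 ^ 14770 = 1) (z : G) : Yl y0 y1 y2 false z = 1 := by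
  simp [Yl, h]
theorem Yl_y2 {y0 y1 y2 : G} (h : y2 ^ 26586 = 1) (z : G) : Yl y0 y1 y2 true z = 1 := by
  simp [Yl, h]

theorem Zl_z {y0 y1 y2 z : G} (h : z ^ 210 = 1) (k : Bool) : Zl y0 y1 y2 k z = 1 := by
  cases k
  · rw [Zl, show 28980 = 210 * 138 by norm_num, pow_one_of h]; simp
  · rw [Zl, show 26670 = 210 * 127 by norm_num, pow_one_of h]; simp
theorem Yl_z {y0 y1 y2 z : G} (h : z ^ 210 = 1) (k : Bool) : Yl y0 y1 y2 k z = 1 := by
  cases k
  · rw [Yl, show 28980 = 210 * 138 by norm_num, pow_one_of h]; simp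
  · rw [Yl, show 26670 = 210 * 127 by norm_num, pow_one_of h]; simp
theorem Pv_d {d z h : G} (hd : d ^ 25320 = 1) : Pv d z h = 1 := by simp [Pv, hd]
theorem Pv_z {d z h : G} (hz : z ^ 210 = 1) : Pv d z h = 1 := by
  rw [Pv, show 44100 = 210 * 210 by norm_num, pow_one_of hz]; simp
theorem Pv_h {d z h : G} (hz : h ^ 210 = 1) : Pv d z h = 1 := by
  rw [Pv, show 44100 = 210 * 210 by norm_num, pow_one_of hz]; simp
theorem Pv_h1 (d z : G) : Pv d z 1 = 1 := by simp [Pv]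

end deg

/-- classification of the closed subset -/
theorem InS.cases' {A1 A2 : (s → K) →ₗ[K] (s → K)} {g : Equiv.Perm (VV s)} (h : InS A1 A2 g) :
    g ^ 210 = 1 ∨ (∃ a, g = Zp a) ∨ (∃ b, g = Hp b) := by
  cases h with
  | x0 => exact Or.inl (pow_one_of x0m_ord 105)
  | x1 => exact Or.inl (pow_one_of (x1m_ord A1) 70)
  | x2 => exact Or.inl (pow_one_of (x2m_ord A2) 42)
  | d => exact Or.inl (pow_one_of Dp_ord 30)
  | Z a => exact Or.inr (Or.inl ⟨a, rfl⟩)
  | H a => exact Or.inr (Or.inr ⟨a, rfl⟩)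

theorem cm_H_or (b : W2 s) (X : W2 s ≃ₗ[K] W2 s) {x : Equiv.Perm (VV s)}
    (hx : x = 1 ∨ x = Xp X) : ∃ b', cm (Hp b) x = Hp b' := by
  rcases hx with rfl | rfl
  · exact ⟨0, by rw [cm_one_right, Hp_zero]⟩
  · exact ⟨_, cm_Hp_Xp b X⟩

theorem yc_Z_or (b : W2 s →ₗ[K] K) (X : W2 s ≃ₗ[K] W2 s) {x : Equiv.Perm (VV s)}
    (hx : x = 1 ∨ x = Xp X) : ∃ b', yc (Zp b) x = Zp b' := by
  rcases hx with rfl | rfl
  · exact ⟨0, by rw [yc_one_right, Zp_zero]⟩
  · exact ⟨_, yc_Zp_Xp b X⟩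

theorem Zl_H {y0 y1 y2 : Equiv.Perm (VV s)} (h0 : InS A1 A2 y0) (h1 : InS A1 A2 y1)
    (h2 : InS A1 A2 y2) (b : W2 s) (k : Bool) : ∃ b', Zl y0 y1 y2 k (Hp b) = Hp b' := by
  cases k with
  | false =>
    obtain ⟨b1, e1⟩ := cm_H_or (((28980 : ℕ) : K) • b) _ (pow_x0 h0)
    obtain ⟨b2, e2⟩ := cm_H_or b1 _ (pow_x1 h1)
    exact ⟨b2, by rw [Zl, Hp_pow, e1, e2]⟩
  | true =>
    obtain ⟨b1, e1⟩ := cm_H_or (((26670 : ℕ) : K) • b) _ (pow_x0 h0)
    obtain ⟨b2, e2⟩ := cm_H_or b1 _ (pow_x2 h2)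
    exact ⟨b2, by rw [Zl, Hp_pow, e1, e2]⟩

theorem Yl_Z {y0 y1 y2 : Equiv.Perm (VV s)} (h0 : InS A1 A2 y0) (h1 : InS A1 A2 y1)
    (h2 : InS A1 A2 y2) (b : W2 s →ₗ[K] K) (k : Bool) : ∃ b', Yl y0 y1 y2 k (Zp b) = Zp b' := by
  cases k with
  | false =>
    obtain ⟨b1, e1⟩ := yc_Z_or (((28980 : ℕ) : K) • b) _ (pow_x1 h1)
    obtain ⟨b2, e2⟩ := yc_Z_or b1 _ (pow_x0 h0)
    exact ⟨b2, by rw [Yl, Zp_pow, e1, e2]⟩
  | true =>
    obtain ⟨b1, e1⟩ := yc_Z_or (((26670 : ℕ) : K) • b) _ (pow_x2 h2)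
    obtain ⟨b2, e2⟩ := yc_Z_or b1 _ (pow_x0 h0)
    exact ⟨b2, by rw [Yl, Zp_pow, e1, e2]⟩

theorem Zw_H {y0 y1 y2 : Equiv.Perm (VV s)} (h0 : InS A1 A2 y0) (h1 : InS A1 A2 y1)
    (h2 : InS A1 A2 y2) (g : List Bool) (b : W2 s) : ∃ b', Zw y0 y1 y2 g (Hp b) = Hp b' := by
  induction g generalizing b with
  | nil => exact ⟨b, rfl⟩
  | cons k g ih =>
    obtain ⟨b1, e1⟩ := Zl_H h0 h1 h2 b k
    rw [Zw_cons, e1]
    exact ih b1

theorem Pv_H {d : Equiv.Perm (VV s)} (hd : InS A1 A2 d) (b : W2 s) (w : Equiv.Perm (VV s)) :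
    Pv d (Hp b) w = 1 := by
  rcases pow_d hd with h | h
  · exact Pv_d h
  · rw [Pv, h, Hp_pow, cm_Hp_Dp, cm_one_left]

theorem Pv_ZZ {d : Equiv.Perm (VV s)} (hd : InS A1 A2 d) (a b : W2 s →ₗ[K] K) :
    Pv d (Zp a) (Zp b) = 1 := by
  rcases pow_d hd with h | h
  · exact Pv_d h
  · rw [Pv, h, Zp_pow, Zp_pow, cm_Zp_Dp, cm_Zp_Zp]

theorem Pv_ZH {d : Equiv.Perm (VV s)} (hd : d ^ 25320 = Dp) (a : W2 s →ₗ[K] K) (b : W2 s) :
    Pv d (Zp a) (Hp b) = Cp (((58 : K) ^ 6 - 1) * a b) := by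
  have h : ((44100 : ℕ) : K) = 1 := by decide
  rw [Pv, hd, Zp_pow, Hp_pow, cm_Zp_Dp, cm_Zp_Hp, h]
  simp

/-- the relation words are trivial on the closed subset -/
theorem Pv_rel (g h : List Bool) (hg0 : false ∈ g) (hg1 : true ∈ g) (hh0 : false ∈ h)
    (hh1 : true ∈ h) (hrel : ∀ m, actW α g m = actW α h m)
    {y0 y1 y2 yd z w : Equiv.Perm (VV s)}
    (h0 : InS (Op (α false)) (Op (α true)) y0) (h1 : InS (Op (α false)) (Op (α true)) y1)
    (h2 : InS (Op (α false)) (Op (α true)) y2) (hd : InS (Op (α false)) (Op (α true)) yd)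
    (hz : InS (Op (α false)) (Op (α true)) z) :
    Pv yd (Zw y0 y1 y2 g z) w = Pv yd (Zw y0 y1 y2 h z) w := by
  rcases pow_x0 h0 with p0 | p0
  · rw [Zw_kill false (Zl_y0 p0 false) g hg0, Zw_kill false (Zl_y0 p0 false) h hh0]
  rcases pow_x1 h1 with p1 | p1
  · rw [Zw_kill false (Zl_y1 p1) g hg0, Zw_kill false (Zl_y1 p1) h hh0]
  rcases pow_x2 h2 with p2 | p2
  · rw [Zw_kill true (Zl_y2 p2) g hg1, Zw_kill true (Zl_y2 p2) h hh1]
  rcases hz.cases' with q | ⟨a, rfl⟩ | ⟨b, rfl⟩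
  · cases g with
    | nil => simp at hg0
    | cons k g =>
      cases h with
      | nil => simp at hh0
      | cons j h => rw [Zw_cons, Zw_cons, Zl_z q, Zl_z q, Zw_one, Zw_one]
  · have hgn : g ≠ [] := by rintro rfl; simp at hg0
    have hhn : h ≠ [] := by rintro rfl; simp at hh0
    rw [Zw_congr (w0 := x0m) (w1 := x1m (Op (α false))) (w2 := x2m (Op (α true)))
        (by rw [p0, x0m_pow]) (by rw [p1, x1m_pow]) (by rw [p2, x2m_pow]) g,
      Zw_congr (w0 := x0m) (w1 := x1m (Op (α false))) (w2 := x2m (Op (α true)))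
        (by rw [p0, x0m_pow]) (by rw [p1, x1m_pow]) (by rw [p2, x2m_pow]) h,
      Zw_proper α g hgn, Zw_proper α h hhn, show actW α g = actW α h from funext hrel]
  · obtain ⟨b1, e1⟩ := Zw_H h0 h1 h2 g b
    obtain ⟨b2, e2⟩ := Zw_H h0 h1 h2 h b
    rw [e1, e2, Pv_H hd, Pv_H hd]

/-- the adjunction words are trivial on the closed subset -/
theorem Pv_adj (k : Bool) {y0 y1 y2 yd z w : Equiv.Perm (VV s)}
    (h0 : InS (Op (α false)) (Op (α true)) y0) (h1 : InS (Op (α false)) (Op (α true)) y1)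
    (h2 : InS (Op (α false)) (Op (α true)) y2) (hd : InS (Op (α false)) (Op (α true)) yd)
    (hz : InS (Op (α false)) (Op (α true)) z) (hw : InS (Op (α false)) (Op (α true)) w) :
    Pv yd (Zl y0 y1 y2 k z) w = Pv yd z (Yl y0 y1 y2 k w) := by
  rcases hz.cases' with q | ⟨a, rfl⟩ | ⟨b, rfl⟩
  · rw [Zl_z q, Pv_one, Pv_z q]
  · rcases hw.cases' with q | ⟨a', rfl⟩ | ⟨b, rfl⟩
    · rw [Yl_z q, Pv_h1, Pv_h q]
    · obtain ⟨a2, e2⟩ := Yl_Z h0 h1 h2 a' k
      rw [e2, Pv_ZZ hd]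
      have : InQ (Zl y0 y1 y2 k (Zp a)) := Zl_inQ h0 h1 h2 (InS.Z a) k
      generalize Zl y0 y1 y2 k (Zp a) = t at this
      cases this with
      | Z a => exact Pv_ZZ hd _ _
      | H b => exact Pv_H hd _ _
    · rcases pow_d hd with pd | pd
      · rw [Pv_d pd, Pv_d pd]
      rcases pow_x0 h0 with p0 | p0
      · rw [Zl_y0 p0, Yl_y0 p0, Pv_one, Pv_h1]
      by_cases hk : (∀ z, Zl y0 y1 y2 k z = 1) ∧ (∀ z, Yl y0 y1 y2 k z = 1)
      · rw [hk.1, hk.2, Pv_one, Pv_h1]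
      · have key : Zl y0 y1 y2 k (Zp a) = Zp (pull a (α k)) ∧
            Yl y0 y1 y2 k (Hp b) = Hp ((Op (α k) (sm b), 0) : W2 s) := by
          cases k with
          | false =>
            rcases pow_x1 h1 with p1 | p1
            · exact absurd ⟨Zl_y1 p1, Yl_y1 p1⟩ hk
            · constructor
              · rw [← Zl_proper α a false]
                simp only [Zl, p0, p1, x0m_pow, x1m_pow]
              · rw [← Yl_proper α b false]
                simp only [Yl, p0, p1, x0m_pow, x1m_pow]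
          | true =>
            rcases pow_x2 h2 with p2 | p2
            · exact absurd ⟨Zl_y2 p2, Yl_y2 p2⟩ hk
            · constructor
              · rw [← Zl_proper α a true]
                simp only [Zl, p0, p2, x0m_pow, x2m_pow]
              · rw [← Yl_proper α b true]
                simp only [Yl, p0, p2, x0m_pow, x2m_pow]
        rw [key.1, key.2, Pv_ZH pd, Pv_ZH pd, pull_apply]
  · rw [Pv_H hd]
    obtain ⟨b1, e1⟩ := Zl_H h0 h1 h2 b k
    rw [e1, Pv_H hd]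

/-- the separating property -/
theorem InS.sep {A1 A2 : (s → K) →ₗ[K] (s → K)} {g : Equiv.Perm (VV s)} (h : InS A1 A2 g) :
    (g (0, 0, 1)).1 = 0 := by
  cases h with
  | x0 => simp [x0m]
  | x1 => simp [x1m]
  | x2 => simp [x2m]
  | d => simp
  | Z a => simp
  | H a => simp

/-- the target word is outside the closed subset -/
theorem target_not_inS (g h : List Bool) (hg : g ≠ []) (hh : h ≠ []) (m : s)
    (hne : actW α g m ≠ actW α h m) :
    ∃ (a : W2 s →ₗ[K] K) (b : W2 s),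
      ¬ InS (Op (α false)) (Op (α true))
        (x0m * Pv Dp (Zw x0m (x1m (Op (α false))) (x2m (Op (α true))) g (Zp a)) (Hp b)
          * (Pv Dp (Zw x0m (x1m (Op (α false))) (x2m (Op (α true))) h (Zp a)) (Hp b))⁻¹) := by
  classical
  refine ⟨(LinearMap.proj m).comp (LinearMap.fst K (s → K) (s → K)),
    (Pi.single (actW α g m) 1, 0), ?_⟩
  intro hS
  have := hS.sep
  rw [Zw_proper α g hg, Zw_proper α h hh, Pv_ZH Dp_pow, Pv_ZH Dp_pow] at this
  simp only [pull_apply, LinearMap.comp_apply, LinearMap.fst_apply, LinearMap.proj_apply,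
    Op_apply, sm_apply, add_zero, Pi.single_eq_same, Pi.single_eq_of_ne hne.symm,
    Equiv.Perm.mul_apply, Equiv.Perm.inv_def, Cp_symm_apply, Cp_apply] at this
  simp [x0m] at this
  revert this
  decide

end model

end Pool.Agent.Helper583
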