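import Mathlib

set_option autoImplicit false

namespace Pool.Agent.Helper583

universe u

/-- A word: a finite string over the alphabet `x_0, x_0⁻¹, x_1, x_1⁻¹, ...`.
The letter `(i, true)` is `x_i` and the letter `(i, false)` is its formal inverse. -/
abbrev Word := List (ℕ × Bool)

/-- The formal inverse of a word: reverse the string and invert every letter. -/
def wInv (w : Word) : Word := (w.map fun p => (p.1, !p.2)).reverse

/-- Substitution of the words `σ i` for the variables `x_i` in the word `w`. -/
def wSubst (σ : ℕ → Word) (w : Word) : Word :=
  w.flatMap fun p => if p.2 then σ p.1 else wInv (σ p.1)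

/-- The value of the word `w` in the group `G` when `x_i` takes the value `f i`. -/
def wEval {G : Type u} [Group G] (f : ℕ → G) (w : Word) : G :=
  (w.map fun p => if p.2 then f p.1 else (f p.1)⁻¹).prod

/-- Two words are identically equal on `G` if they define the same function on `G`. -/
def IdenticallyEqual (G : Type u) [Group G] (v w : Word) : Prop :=
  ∀ f : ℕ → G, wEval f v = wEval f w

end Pool.Agent.Helper583
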