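import Mathlib
import Pool.Agent.Helper583.Words
import Pool.Agent.Helper583.Model

set_option autoImplicit false

namespace Pool.Agent.Helper583

universe u

section eval
variable {G : Type u} [Group G] (f : ℕ → G)

@[simp] theorem wEval_nil : wEval f [] = 1 := rfl

theorem wEval_append (v w : Word) : wEval f (v ++ w) = wEval f v * wEval f w := by
  simp [wEval]

theorem wEval_cons (p : ℕ × Bool) (w : Word) :
    wEval f (p :: w) = (if p.2 then f p.1 else (f p.1)⁻¹) * wEval f w := by
  simp [wEval]

theorem wInv_cons (p : ℕ × Bool) (w : Word) : wInv (p :: w) = wInv w ++ [(p.1, !p.2)] := by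
  simp [wInv]

theorem wEval_wInv (w : Word) : wEval f (wInv w) = (wEval f w)⁻¹ := by
  induction w with
  | nil => simp [wInv]
  | cons p w ih =>
    rw [wInv_cons, wEval_append, ih, wEval_cons, wEval_cons, mul_inv_rev]
    rcases p with ⟨i, b⟩
    cases b <;> simp

theorem wEval_wSubst (σ : ℕ → Word) (w : Word) :
    wEval f (wSubst σ w) = wEval (fun i => wEval f (σ i)) w := by
  induction w with
  | nil => simp [wSubst]
  | cons p w ih =>
    have : wSubst σ (p :: w) = (if p.2 then σ p.1 else wInv (σ p.1)) ++ wSubst σ w := by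
      simp [wSubst]
    rw [this, wEval_append, ih, wEval_cons]
    rcases p with ⟨i, b⟩
    cases b <;> simp [wEval_wInv]

theorem wEval_congr {f g : ℕ → G} (w : Word) (h : ∀ p ∈ w, f p.1 = g p.1) :
    wEval f w = wEval g w := by
  induction w with
  | nil => rfl
  | cons p w ih =>
    rw [wEval_cons, wEval_cons, ih (fun q hq => h q (List.mem_cons_of_mem _ hq)),
      h p (List.mem_cons_self)]

/-- variables -/
def wv (i : ℕ) : Word := [(i, true)]

@[simp] theorem wEval_wv (i : ℕ) : wEval f (wv i) = f i := by simp [wEval, wv]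

/-- powers -/
def wPow (w : Word) (n : ℕ) : Word := (List.range n).flatMap fun _ => w

theorem wPow_succ (w : Word) (n : ℕ) : wPow w (n + 1) = wPow w n ++ w := by
  simp [wPow, List.range_succ]

theorem wEval_wPow (w : Word) (n : ℕ) : wEval f (wPow w n) = wEval f w ^ n := by
  induction n with
  | zero => simp [wPow]
  | succ n ih => rw [wPow_succ, wEval_append, ih, pow_succ]

def wCm (a b : Word) : Word := wInv a ++ (wInv b ++ (a ++ b))
def wYc (a b : Word) : Word := wInv a ++ (b ++ (a ++ wInv b))

theorem wEval_wCm (a b : Word) : wEval f (wCm a b) = cm (wEval f a) (wEval f b) := by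
  simp [wCm, cm, wEval_append, wEval_wInv, mul_assoc]

theorem wEval_wYc (a b : Word) : wEval f (wYc a b) = yc (wEval f a) (wEval f b) := by
  simp [wYc, yc, wEval_append, wEval_wInv, mul_assoc]

/-- string versions of the letter operators, with the variables `0, 1, 2` as constants -/
def wZl : Bool → Word → Word
  | false, z => wCm (wCm (wPow z 28980) (wPow (wv 0) 22155)) (wPow (wv 1) 14770)
  | true, z => wCm (wCm (wPow z 26670) (wPow (wv 0) 22155)) (wPow (wv 2) 26586)

def wYl : Bool → Word → Word
  | false, z => wYc (wYc (wPow z 28980) (wPow (wv 1) 14770)) (wPow (wv 0) 22155)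
  | true, z => wYc (wYc (wPow z 26670) (wPow (wv 2) 26586)) (wPow (wv 0) 22155)

def wPv (z h : Word) : Word := wCm (wCm (wPow z 44100) (wPow (wv 3) 25320)) (wPow h 44100)

def wZw (g : List Bool) (z : Word) : Word := g.foldl (fun z k => wZl k z) z
def wYw (g : List Bool) (z : Word) : Word := g.foldl (fun z k => wYl k z) z

theorem wEval_wZl (k : Bool) (z : Word) :
    wEval f (wZl k z) = Zl (f 0) (f 1) (f 2) k (wEval f z) := by
  cases k <;> simp only [wZl, Zl, wEval_wCm, wEval_wPow, wEval_wv]

theorem wEval_wYl (k : Bool) (z : Word) :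
    wEval f (wYl k z) = Yl (f 0) (f 1) (f 2) k (wEval f z) := by
  cases k <;> simp only [wYl, Yl, wEval_wYc, wEval_wPow, wEval_wv]

theorem wEval_wPv (z h : Word) :
    wEval f (wPv z h) = Pv (f 3) (wEval f z) (wEval f h) := by
  simp only [wPv, Pv, wEval_wCm, wEval_wPow, wEval_wv]

theorem wZw_cons (k : Bool) (g : List Bool) (z : Word) : wZw (k :: g) z = wZw g (wZl k z) := rfl
theorem wYw_cons (k : Bool) (g : List Bool) (z : Word) : wYw (k :: g) z = wYw g (wYl k z) := rfl
theorem wZw_append (g h : List Bool) (z : Word) : wZw (g ++ h) z = wZw h (wZw g z) := by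
  simp [wZw, List.foldl_append]
theorem wYw_append (g h : List Bool) (z : Word) : wYw (g ++ h) z = wYw h (wYw g z) := by
  simp [wYw, List.foldl_append]

theorem wEval_wZw (g : List Bool) (z : Word) :
    wEval f (wZw g z) = Zw (f 0) (f 1) (f 2) g (wEval f z) := by
  induction g generalizing z with
  | nil => rfl
  | cons k g ih => rw [wZw_cons, ih, wEval_wZl, Zw_cons]

end eval

/-! ### the list of words -/

/-- quotient of two vertex words, multiplied on the right of the variable `6` -/
def wQ (z h z' h' : Word) : Word := wv 6 ++ (wPv z h ++ wInv (wPv z' h'))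

/-- the words of the list that do not depend on the relations -/
def baseWords : List Word :=
  [wZl false (wv 4), wZl true (wv 4), wYl false (wv 5), wYl true (wv 5),
    wQ (wZl false (wv 4)) (wv 5) (wv 4) (wYl false (wv 5)),
    wQ (wZl true (wv 4)) (wv 5) (wv 4) (wYl true (wv 5)),
    wQ (wv 4) (wYl false (wv 5)) (wZl false (wv 4)) (wv 5),
    wQ (wv 4) (wYl true (wv 5)) (wZl true (wv 4)) (wv 5)]

/-- the words attached to the relations -/
def relWords (R : List (List Bool × List Bool)) : List Word :=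
  R.flatMap fun p => [wQ (wZw p.1 (wv 4)) (wv 5) (wZw p.2 (wv 4)) (wv 5),
    wQ (wZw p.2 (wv 4)) (wv 5) (wZw p.1 (wv 4)) (wv 5)]

def allWords (R : List (List Bool × List Bool)) : List Word := baseWords ++ relWords R

/-- the target word -/
def target (g h : List Bool) : Word :=
  wv 0 ++ (wPv (wZw g (wv 4)) (wv 5) ++ wInv (wPv (wZw h (wv 4)) (wv 5)))

/-- A set of words closed under the formation rules. -/
structure ClosedFor (G : Type u) [Group G] (Bs : List Word) (E : Word → Prop) : Prop where
  var : ∀ i, E (wv i)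
  app : ∀ B ∈ Bs, ∀ σ : ℕ → Word, (∀ i, E (σ i)) → E (wSubst σ B)
  congr : ∀ W W', E W → IdenticallyEqual G W W' → E W'

/-- one rewriting step, in both directions -/
inductive RStep (R : List (List Bool × List Bool)) : List Bool → List Bool → Prop
  | mk (u v g h : List Bool) (H : (g, h) ∈ R) : RStep R (u ++ g ++ v) (u ++ h ++ v)

section upper
variable {G : Type u} [Group G] {R : List (List Bool × List Bool)} {E : Word → Prop}

theorem ClosedFor.app' {Bs : List Word} (hE : ClosedFor G Bs E) {B : Word} (hB : B ∈ Bs)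
    (σ : ℕ → Word) (h : ∀ i, E (σ i)) (W : Word)
    (hW : ∀ f : ℕ → G, wEval (fun i => wEval f (σ i)) B = wEval f W) : E W :=
  hE.congr _ _ (hE.app B hB σ h) (fun f => by rw [wEval_wSubst]; exact hW f)

/-- substitution of one, two or three variables -/
def sub3 (z h w : Word) : ℕ → Word := fun i =>
  if i = 4 then z else if i = 5 then h else if i = 6 then w else wv i

theorem sub3_mem (hE : ClosedFor G (allWords R) E) {z h w : Word} (hz : E z) (hh : E h)
    (hw : E w) (i : ℕ) : E (sub3 z h w i) := by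
  unfold sub3
  split_ifs
  · exact hz
  · exact hh
  · exact hw
  · exact hE.var i

theorem base_mem {B : Word} (h : B ∈ baseWords) : B ∈ allWords R := List.mem_append_left _ h

theorem E_Zl (hE : ClosedFor G (allWords R) E) (k : Bool) {z : Word} (hz : E z) :
    E (wZl k z) := by
  have hB : wZl k (wv 4) ∈ allWords R := base_mem (by cases k <;> simp [baseWords])
  refine hE.app' hB (sub3 z (wv 5) (wv 6)) (sub3_mem hE hz (hE.var 5) (hE.var 6)) _ fun f => ?_
  simp only [wEval_wZl, wEval_wv]
  simp [sub3]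

theorem E_Yl (hE : ClosedFor G (allWords R) E) (k : Bool) {h : Word} (hh : E h) :
    E (wYl k h) := by
  have hB : wYl k (wv 5) ∈ allWords R := base_mem (by cases k <;> simp [baseWords])
  refine hE.app' hB (sub3 (wv 4) h (wv 6)) (sub3_mem hE (hE.var 4) hh (hE.var 6)) _ fun f => ?_
  simp only [wEval_wYl, wEval_wv]
  simp [sub3]

theorem E_Zw (hE : ClosedFor G (allWords R) E) (g : List Bool) {z : Word} (hz : E z) :
    E (wZw g z) := by
  induction g generalizing z with
  | nil => exact hz
  | cons k g ih => exact ih (E_Zl hE k hz)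

theorem E_Yw (hE : ClosedFor G (allWords R) E) (g : List Bool) {z : Word} (hz : E z) :
    E (wYw g z) := by
  induction g generalizing z with
  | nil => exact hz
  | cons k g ih => exact ih (E_Yl hE k hz)

/-- equivalence of vertices -/
def VQ (E : Word → Prop) (z h z' h' : Word) : Prop :=
  ∀ w, E w → E (w ++ (wPv z h ++ wInv (wPv z' h')))

theorem VQ.refl (hE : ClosedFor G (allWords R) E) (z h : Word) : VQ E z h z h := fun w hw =>
  hE.congr _ _ hw (fun f => by simp [wEval_append, wEval_wInv])

theorem VQ.trans (hE : ClosedFor G (allWords R) E) {z h z' h' z'' h'' : Word}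
    (h1 : VQ E z h z' h') (h2 : VQ E z' h' z'' h'') : VQ E z h z'' h'' := fun w hw =>
  hE.congr _ _ (h2 _ (h1 w hw)) (fun f => by simp [wEval_append, wEval_wInv, mul_assoc])

theorem VQ_adj (hE : ClosedFor G (allWords R) E) (k : Bool) {z h : Word} (hz : E z) (hh : E h) :
    VQ E (wZl k z) h z (wYl k h) := fun w hw => by
  have hB : wQ (wZl k (wv 4)) (wv 5) (wv 4) (wYl k (wv 5)) ∈ allWords R :=
    base_mem (by cases k <;> simp [baseWords])
  refine hE.app' hB (sub3 z h w) (sub3_mem hE hz hh hw) _ fun f => ?_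
  simp only [wQ, wEval_append, wEval_wInv, wEval_wPv, wEval_wZl, wEval_wYl, wEval_wv]
  simp [sub3]

theorem VQ_adj' (hE : ClosedFor G (allWords R) E) (k : Bool) {z h : Word} (hz : E z) (hh : E h) :
    VQ E z (wYl k h) (wZl k z) h := fun w hw => by
  have hB : wQ (wv 4) (wYl k (wv 5)) (wZl k (wv 4)) (wv 5) ∈ allWords R :=
    base_mem (by cases k <;> simp [baseWords])
  refine hE.app' hB (sub3 z h w) (sub3_mem hE hz hh hw) _ fun f => ?_
  simp only [wQ, wEval_append, wEval_wInv, wEval_wPv, wEval_wZl, wEval_wYl, wEval_wv]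
  simp [sub3]

theorem VQ_rel (hE : ClosedFor G (allWords R) E) {g g' : List Bool}
    (hR : (g, g') ∈ R ∨ (g', g) ∈ R) {z h : Word} (hz : E z) (hh : E h) :
    VQ E (wZw g z) h (wZw g' z) h := fun w hw => by
  have hB : wQ (wZw g (wv 4)) (wv 5) (wZw g' (wv 4)) (wv 5) ∈ allWords R := by
    refine List.mem_append_right _ ?_
    rw [relWords, List.mem_flatMap]
    rcases hR with h | h
    · exact ⟨_, h, by simp⟩
    · exact ⟨_, h, by simp⟩
  refine hE.app' hB (sub3 z h w) (sub3_mem hE hz hh hw) _ fun f => ?_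
  simp only [wQ, wEval_append, wEval_wInv, wEval_wPv, wEval_wZw, wEval_wv]
  simp [sub3]

theorem VQ_move (hE : ClosedFor G (allWords R) E) (v : List Bool) {z h : Word} (hz : E z)
    (hh : E h) : VQ E (wZw v z) h z (wYw v.reverse h) ∧ VQ E z (wYw v.reverse h) (wZw v z) h := by
  induction v generalizing z with
  | nil => exact ⟨VQ.refl hE _ _, VQ.refl hE _ _⟩
  | cons k v ih =>
    have h1 := ih (E_Zl hE k hz)
    have e : wYw (k :: v).reverse h = wYl k (wYw v.reverse h) := by
      rw [List.reverse_cons, wYw_append]; rfl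
    rw [e, wZw_cons]
    have hh' := E_Yw hE v.reverse hh
    exact ⟨VQ.trans hE h1.1 (VQ_adj hE k hz hh'), VQ.trans hE (VQ_adj' hE k hz hh') h1.2⟩

theorem VQ_step (hE : ClosedFor G (allWords R) E) {a b : List Bool}
    (h : RStep R a b ∨ RStep R b a) : VQ E (wZw a (wv 4)) (wv 5) (wZw b (wv 4)) (wv 5) := by
  have key : ∀ u v g g' : List Bool, ((g, g') ∈ R ∨ (g', g) ∈ R) →
      VQ E (wZw (u ++ g ++ v) (wv 4)) (wv 5) (wZw (u ++ g' ++ v) (wv 4)) (wv 5) := by
    intro u v g g' hR
    have hu := E_Zw hE u (hE.var 4)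
    rw [wZw_append (u ++ g) v, wZw_append (u ++ g') v, wZw_append u g, wZw_append u g']
    exact VQ.trans hE (VQ_move hE v (E_Zw hE g hu) (hE.var 5)).1
      (VQ.trans hE (VQ_rel hE hR hu (E_Yw hE _ (hE.var 5)))
        (VQ_move hE v (E_Zw hE g' hu) (hE.var 5)).2)
  rcases h with ⟨u, v, g, g', hR⟩ | ⟨u, v, g, g', hR⟩
  · exact key u v g g' (Or.inl hR)
  · exact key u v g' g (Or.inr hR)

theorem VQ_gen (hE : ClosedFor G (allWords R) E) {a b : List Bool}
    (h : Relation.EqvGen (RStep R) a b) :
    VQ E (wZw a (wv 4)) (wv 5) (wZw b (wv 4)) (wv 5) ∧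
      VQ E (wZw b (wv 4)) (wv 5) (wZw a (wv 4)) (wv 5) := by
  induction h with
  | rel a b h => exact ⟨VQ_step hE (Or.inl h), VQ_step hE (Or.inr h)⟩
  | refl a => exact ⟨VQ.refl hE _ _, VQ.refl hE _ _⟩
  | symm a b _ ih => exact ⟨ih.2, ih.1⟩
  | trans a b c _ _ ih1 ih2 => exact ⟨VQ.trans hE ih1.1 ih2.1, VQ.trans hE ih2.2 ih1.2⟩

/-- Upper bound: equivalent words give an expressible target, on every group. -/
theorem target_mem (hE : ClosedFor G (allWords R) E) {a b : List Bool}
    (h : Relation.EqvGen (RStep R) a b) : E (target a b) :=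
  (VQ_gen hE h).1 _ (hE.var 0)

end upper

section lower
variable {s : Type u} (α : Bool → s → s)

/-- words that preserve the closed subset -/
def Good (W : Word) : Prop :=
  ∀ f : ℕ → Equiv.Perm (VV s), (∀ i, InS (Op (α false)) (Op (α true)) (f i)) →
    InS (Op (α false)) (Op (α true)) (wEval f W)

theorem Good.var (i : ℕ) : Good α (wv i) := fun f hf => by rw [wEval_wv]; exact hf i

theorem Good.subst {B : Word} (hB : Good α B) (σ : ℕ → Word) (h : ∀ p ∈ B, Good α (σ p.1)) :
    Good α (wSubst σ B) := fun f hf => by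
  classical
  rw [wEval_wSubst]
  have := hB (fun i => if ∃ p ∈ B, p.1 = i then wEval f (σ i) else 1) (fun i => by
    split_ifs with hi
    · obtain ⟨p, hp, rfl⟩ := hi
      exact h p hp f hf
    · exact InS.one)
  rwa [wEval_congr (g := fun i => wEval f (σ i))] at this
  intro p hp
  rw [if_pos ⟨p, hp, rfl⟩]

theorem Good.congr {W W' : Word} (hW : Good α W)
    (h : IdenticallyEqual (Equiv.Perm (VV s)) W W') : Good α W' := fun f hf => by
  rw [← h f]; exact hW f hf

theorem good_Q {z h z' h' : Word}
    (H : ∀ f : ℕ → Equiv.Perm (VV s), (∀ i, InS (Op (α false)) (Op (α true)) (f i)) →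
      wEval f (wPv z h) = wEval f (wPv z' h')) : Good α (wQ z h z' h') := fun f hf => by
  rw [wQ, wEval_append, wEval_append, wEval_wInv, H f hf, mul_inv_cancel, mul_one, wEval_wv]
  exact hf 6

theorem good_all (R : List (List Bool × List Bool))
    (hR : ∀ p ∈ R, (false ∈ p.1 ∧ true ∈ p.1 ∧ false ∈ p.2 ∧ true ∈ p.2) ∧
      ∀ m, actW α p.1 m = actW α p.2 m) (B : Word) (hB : B ∈ allWords R) : Good α B := by
  have hadj : ∀ k, ∀ f : ℕ → Equiv.Perm (VV s), (∀ i, InS (Op (α false)) (Op (α true)) (f i)) →
      wEval f (wPv (wZl k (wv 4)) (wv 5)) = wEval f (wPv (wv 4) (wYl k (wv 5))) := by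
    intro k f hf
    simp only [wEval_wPv, wEval_wZl, wEval_wYl, wEval_wv]
    exact Pv_adj α k (hf 0) (hf 1) (hf 2) (hf 3) (hf 4) (hf 5)
  have hZ : ∀ k, Good α (wZl k (wv 4)) := fun k f hf => by
    rw [wEval_wZl, wEval_wv]
    exact (Zl_inQ (hf 0) (hf 1) (hf 2) (hf 4) k).inS
  have hY : ∀ k, Good α (wYl k (wv 5)) := fun k f hf => by
    rw [wEval_wYl, wEval_wv]
    exact (Yl_inQ (hf 0) (hf 1) (hf 2) (hf 5) k).inS
  rcases List.mem_append.1 hB with h | h
  · simp only [baseWords, List.mem_cons, List.not_mem_nil, or_false] at h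
    rcases h with h | h | h | h | h | h | h | h
    · rw [h]; exact hZ false
    · rw [h]; exact hZ true
    · rw [h]; exact hY false
    · rw [h]; exact hY true
    · rw [h]; exact good_Q α (hadj false)
    · rw [h]; exact good_Q α (hadj true)
    · rw [h]; exact good_Q α (fun f hf => (hadj false f hf).symm)
    · rw [h]; exact good_Q α (fun f hf => (hadj true f hf).symm)
  · rw [relWords, List.mem_flatMap] at h
    obtain ⟨⟨g, g'⟩, hp, h⟩ := h
    obtain ⟨⟨c0, c1, c2, c3⟩, hact⟩ := hR _ hp
    have hrel : ∀ f : ℕ → Equiv.Perm (VV s), (∀ i, InS (Op (α false)) (Op (α true)) (f i)) →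
        wEval f (wPv (wZw g (wv 4)) (wv 5)) = wEval f (wPv (wZw g' (wv 4)) (wv 5)) := by
      intro f hf
      simp only [wEval_wPv, wEval_wZw, wEval_wv]
      exact Pv_rel α g g' c0 c1 c2 c3 hact (hf 0) (hf 1) (hf 2) (hf 3) (hf 4)
    simp only [List.mem_cons, List.not_mem_nil, or_false] at h
    rcases h with h | h
    · rw [h]; exact good_Q α hrel
    · rw [h]; exact good_Q α (fun f hf => (hrel f hf).symm)

/-- Lower bound: if a finite action separates the two words, the target is not good. -/
theorem target_not_good {a b : List Bool} (ha : a ≠ []) (hb : b ≠ []) (m : s)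
    (hne : actW α a m ≠ actW α b m) : ¬ Good α (target a b) := fun hG => by
  obtain ⟨c, e, h⟩ := target_not_inS α a b ha hb m hne
  apply h
  have := hG (fun i => if i = 0 then x0m else if i = 1 then x1m (Op (α false))
      else if i = 2 then x2m (Op (α true)) else if i = 3 then Dp else if i = 4 then Zp c
      else Hp e) (fun i => by
    split_ifs
    · exact InS.x0
    · exact InS.x1
    · exact InS.x2
    · exact InS.d
    · exact InS.Z c
    · exact InS.H e)
  simp only [target, wEval_append, wEval_wInv, wEval_wPv, wEval_wZw, wEval_wv] at this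
  simpa [mul_assoc] using this

end lower

end Pool.Agent.Helper583
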