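import Mathlib
import Pool.Agent.Helper583.Reduction

set_option autoImplicit false

namespace Pool.Agent.Helper583

namespace Cod

/-- the code of a natural number -/
def code (k : ℕ) : List Bool := false :: (List.replicate (k + 1) true ++ [false])

variable {A : Type} (enc : A → ℕ)

/-- the code of a word -/
def codeW (w : List A) : List Bool := w.flatMap fun x => code (enc x)

@[simp] theorem codeW_nil : codeW enc [] = [] := rfl
theorem codeW_cons (x : A) (w : List A) : codeW enc (x :: w) = code (enc x) ++ codeW enc w := rfl
theorem codeW_append (v w : List A) : codeW enc (v ++ w) = codeW enc v ++ codeW enc w := by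
  simp [codeW]

theorem mem_code (k : ℕ) : false ∈ code k ∧ true ∈ code k := by
  simp [code]

theorem mem_codeW {w : List A} (hw : w ≠ []) : false ∈ codeW enc w ∧ true ∈ codeW enc w := by
  cases w with
  | nil => exact absurd rfl hw
  | cons x w =>
    rw [codeW_cons]
    exact ⟨List.mem_append_left _ (mem_code _).1, List.mem_append_left _ (mem_code _).2⟩

/-- blocks of letters `true` -/
theorem rep_inj {k l : ℕ} {v w : List Bool}
    (h : List.replicate k true ++ false :: v = List.replicate l true ++ false :: w) :
    k = l ∧ v = w := by
  induction k generalizing l with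
  | zero =>
    cases l with
    | zero => simpa using h
    | succ l => simp [List.replicate_succ] at h
  | succ k ih =>
    cases l with
    | zero => simp [List.replicate_succ] at h
    | succ l =>
      simp only [List.replicate_succ, List.cons_append, List.cons.injEq, true_and] at h
      obtain ⟨a, b⟩ := ih h
      exact ⟨by rw [a], b⟩

theorem code_inj {k l : ℕ} {v w : List Bool} (h : code k ++ v = code l ++ w) :
    k = l ∧ v = w := by
  unfold code at h
  simp only [List.cons_append, List.append_assoc, List.cons.injEq, true_and,
    List.nil_append] at h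
  obtain ⟨a, b⟩ := rep_inj h
  exact ⟨by omega, b⟩

/-- removing a coded word on the left -/
theorem strip_left (henc : Function.Injective enc) (g c : List A) (v : List Bool)
    (h : codeW enc g ++ v = codeW enc c) : ∃ c', c = g ++ c' ∧ v = codeW enc c' := by
  induction g generalizing c with
  | nil => exact ⟨c, rfl, by simpa using h⟩
  | cons x g ih =>
    cases c with
    | nil => simp [codeW_cons, code] at h
    | cons y c =>
      rw [codeW_cons, codeW_cons, List.append_assoc] at h
      obtain ⟨a, b⟩ := code_inj h
      obtain ⟨c', rfl, hv⟩ := ih c b
      exact ⟨c', by rw [henc a, List.cons_append], hv⟩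

theorem codeW_head (c : List A) (r : List Bool) (h : true :: r = codeW enc c) : False := by
  cases c with
  | nil => simp at h
  | cons x c => simp [codeW_cons, code] at h

/-- passing over a block of letters `true` -/
theorem pass_block (k : ℕ) (u r d : List Bool)
    (h : u ++ false :: true :: r = List.replicate k true ++ false :: d) :
    (u = List.replicate k true ∧ true :: r = d) ∨
      ∃ u', u = List.replicate k true ++ false :: u' ∧ u' ++ false :: true :: r = d := by
  induction k generalizing u with
  | zero =>
    cases u with
    | nil => left; simpa using h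
    | cons b u =>
      right
      simp only [List.replicate_zero, List.nil_append, List.cons_append, List.cons.injEq] at h
      exact ⟨u, by simp [h.1], h.2⟩
  | succ k ih =>
    cases u with
    | nil => simp [List.replicate_succ] at h
    | cons b u =>
      simp only [List.replicate_succ, List.cons_append, List.cons.injEq] at h
      obtain ⟨rfl, h⟩ := h
      rcases ih u h with ⟨h1, h2⟩ | ⟨u', h1, h2⟩
      · left; exact ⟨by rw [h1, List.replicate_succ], h2⟩
      · right; exact ⟨u', by rw [h1, List.replicate_succ, List.cons_append], h2⟩

/-- alignment on the left -/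
theorem align (c : List A) (u r : List Bool) (h : u ++ false :: true :: r = codeW enc c) :
    ∃ u' c', c = u' ++ c' ∧ u = codeW enc u' ∧ false :: true :: r = codeW enc c' := by
  induction c generalizing u with
  | nil => simp at h
  | cons x c ih =>
    cases u with
    | nil => exact ⟨[], x :: c, rfl, rfl, h⟩
    | cons b u =>
      rw [codeW_cons] at h
      unfold code at h
      simp only [List.cons_append, List.append_assoc, List.cons.injEq, List.nil_append] at h
      obtain ⟨rfl, h⟩ := h
      rcases pass_block _ _ _ _ h with ⟨-, h2⟩ | ⟨u2, h1, h2⟩
      · exact (codeW_head enc c r h2).elim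
      · obtain ⟨u', c', e1, e2, e3⟩ := ih u2 h2
        refine ⟨x :: u', c', by rw [e1, List.cons_append], ?_, e3⟩
        rw [codeW_cons, ← e2, h1]
        simp [code]

theorem code_form (w : List A) (hw : w ≠ []) : ∃ r, codeW enc w = false :: true :: r := by
  cases w with
  | nil => exact absurd rfl hw
  | cons x w => exact ⟨_, by rw [codeW_cons]; unfold code; rw [List.replicate_succ]; rfl⟩

/-- a coded word inside a coded word is aligned -/
theorem inside (henc : Function.Injective enc) {g c : List A} (hg : g ≠ []) {u v : List Bool}
    (h : u ++ codeW enc g ++ v = codeW enc c) :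
    ∃ u' v', c = u' ++ g ++ v' ∧ u = codeW enc u' ∧ v = codeW enc v' := by
  obtain ⟨r, hr⟩ := code_form enc g hg
  have h' : u ++ false :: true :: (r ++ v) = codeW enc c := by
    rw [← h, hr]; simp
  obtain ⟨u', c', e1, e2, e3⟩ := align enc c u (r ++ v) h'
  have e3' : codeW enc g ++ v = codeW enc c' := by
    rw [← e3, hr]; simp
  obtain ⟨v', e4, e5⟩ := strip_left enc henc g c' v e3'
  exact ⟨u', v', by rw [e1, e4, List.append_assoc], e2, e5⟩

theorem codeW_injective (henc : Function.Injective enc) : Function.Injective (codeW enc) := by
  intro g c h
  obtain ⟨c', e1, e2⟩ := strip_left enc henc g c [] (by simpa using h)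
  cases c' with
  | nil => simpa using e1.symm
  | cons x c' => simp [codeW_cons, code] at e2

end Cod

/-! ### the finite action attached to a finite closed set of words -/

section act
variable (E : Set (List Bool))

/-- states: left quotients of `E` -/
abbrev QS : Type := {A : Set (List Bool) // ∃ u, A = {v | u ++ v ∈ E}}

def qact (k : Bool) (A : QS E) : QS E :=
  ⟨{v | k :: v ∈ A.1}, by
    obtain ⟨A, u, rfl⟩ := A
    exact ⟨u ++ [k], by simp⟩⟩

theorem actW_qact (g : List Bool) (A : QS E) : (actW (qact E) g A).1 = {v | g ++ v ∈ A.1} := by
  induction g generalizing A with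
  | nil => simp
  | cons k g ih =>
    rw [actW_cons, ih]
    rfl

theorem finite_QS (hE : E.Finite) : Finite (QS E) := by
  have h1 : (⋃ w ∈ E, {u : List Bool | u ∈ w.inits}).Finite :=
    hE.biUnion fun w _ => List.finite_toSet _
  refine Set.Finite.subset ((h1.image (fun u => {v | u ++ v ∈ E})).insert ∅) ?_
  rintro A ⟨u, rfl⟩
  by_cases h : ∃ v, u ++ v ∈ E
  · right
    obtain ⟨v, hv⟩ := h
    refine ⟨u, ?_, rfl⟩
    simp only [Set.mem_iUnion]
    exact ⟨_, hv, by simp⟩
  · left
    push Not at h
    ext v
    simp [h v]

/-- a finite set of words, closed under the rules, gives a finite action satisfying the relations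
and separating its elements from the other words -/
theorem exists_action {R : List (List Bool × List Bool)} (hE : E.Finite)
    (hcl : ∀ u v g h, (g, h) ∈ R → (u ++ g ++ v ∈ E ↔ u ++ h ++ v ∈ E)) {a b : List Bool}
    (ha : a ∈ E) (hb : b ∉ E) :
    ∃ (s : Type) (_ : Finite s) (α : Bool → s → s) (m : s),
      (∀ p ∈ R, ∀ m, actW α p.1 m = actW α p.2 m) ∧ actW α a m ≠ actW α b m := by
  refine ⟨QS E, finite_QS E hE, qact E, ⟨E, [], by simp⟩, ?_, ?_⟩
  · rintro ⟨g, h⟩ hp ⟨A, u, rfl⟩
    apply Subtype.ext
    rw [actW_qact, actW_qact]
    ext v
    simp only [Set.mem_setOf_eq]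
    rw [← List.append_assoc, ← List.append_assoc]
    exact hcl u v g h hp
  · intro h
    have h' := congrArg Subtype.val h
    rw [actW_qact, actW_qact] at h'
    have : ([] : List Bool) ∈ {v | a ++ v ∈ E} := by simpa using ha
    simp only [h', Set.mem_setOf_eq, List.append_nil] at this
    exact hb this

end act

end Pool.Agent.Helper583
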