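import Mathlib

set_option autoImplicit false

namespace Pool.Agent.Helper583

open Turing StateTransition

/-- the bits of a natural number, least significant first -/
def bitsL (n : ℕ) : List Bool := n.bits

theorem trNat_eq (n : ℕ) : PartrecToTM2.trNat n =
    (bitsL n).map (fun b => bif b then PartrecToTM2.Γ'.bit1 else PartrecToTM2.Γ'.bit0) := by
  unfold bitsL
  induction n using Nat.binaryRecFromOne with
  | zero => simp
  | one => simp [PartrecToTM2.trNat, PartrecToTM2.trNum]; rfl
  | bit b n hn ih =>
    rw [Nat.bits_append_bit n b (fun h => absurd h hn), List.map_cons, ← ih]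
    unfold PartrecToTM2.trNat
    rw [← Num.ofNat'_eq, ← Num.ofNat'_eq, Num.ofNat'_bit]
    have hpos : ∃ p, Num.ofNat' n = Num.pos p := by
      rw [Num.ofNat'_eq]
      cases h : (n : Num) with
      | zero =>
        exfalso; apply hn
        have := congrArg (fun x : Num => (x : ℕ)) h
        simpa using this
      | pos p => exact ⟨p, rfl⟩
    obtain ⟨p, hp⟩ := hpos
    rw [hp]
    cases b <;> rfl


section tm
open PartrecToTM2 ToPartrec

theorem finite_K' : Finite K' := by
  refine Finite.of_surjective (fun i : Fin 4 => if i = 0 then K'.main else if i = 1 then K'.rev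
    else if i = 2 then K'.aux else K'.stack) ?_
  intro k
  cases k
  · exact ⟨0, rfl⟩
  · exact ⟨1, rfl⟩
  · exact ⟨2, rfl⟩
  · exact ⟨3, rfl⟩

/-- tape alphabet -/
abbrev GA := TM2to1.Γ' K' (fun _ => Γ')

theorem finite_GA : Finite GA := by
  have := finite_K'
  unfold GA TM2to1.Γ'
  infer_instance

/-- column with a single entry on the main stack -/
def col (a : Γ') : ∀ _ : K', Option Γ' := Function.update (fun _ => none) K'.main (some a)

/-- the initial right part of the tape -/
def tapeOf (l : List Γ') : List GA :=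
  match l with
  | [] => [(true, fun _ => none)]
  | a :: l => (true, col a) :: l.map fun b => (false, col b)

theorem addBottom_col (a : Γ') (l : List Γ') :
    TM2to1.addBottom (ListBlank.mk ((a :: l).map col)) =
      ListBlank.mk ((true, col a) :: l.map fun b => (false, col b)) := by
  unfold TM2to1.addBottom
  rw [List.map_cons, ListBlank.head_mk, List.headI_cons, ListBlank.tail_mk, List.tail_cons,
    ListBlank.map_mk]
  refine (ListBlank.cons_mk _ _).trans ?_
  congr 2
  exact List.map_map

theorem proj_col (S : List Γ') (k : K') :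
    (ListBlank.mk (S.reverse.map col)).map (proj k) =
      ListBlank.mk (((K'.elim S [] [] []) k).map some).reverse := by
  refine ListBlank.ext fun i => ?_
  rw [ListBlank.map_mk, ListBlank.nth_mk, ListBlank.nth_mk, List.getI_eq_getElem?_getD,
    List.getI_eq_getElem?_getD, List.map_map]
  cases k
  · simp only [K'.elim, ← List.map_reverse]
    congr 2
  all_goals
    simp only [K'.elim, List.map_nil, List.reverse_nil, List.getElem?_map]
    cases S.reverse[i]? <;> rfl

/-- existence of a finite Turing machine with two distinguishable outcomes -/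
theorem exists_tm0 (c : Code) :
    ∃ (Γ Λ : Type) (_ : Inhabited Γ) (_ : Inhabited Λ) (M : TM0.Machine Γ Λ) (S : Set Λ)
      (acc : Γ → Bool) (a0 i0 i1 : Γ), Finite Γ ∧ S.Finite ∧ TM0.Supports M S ∧ ∀ n : ℕ,
      (([] : List ℕ) ∈ c.eval [n] → ∃ b ∈ eval (TM0.step M) (⟨default, Tape.mk' ∅ (ListBlank.mk
          (a0 :: (bitsL n).reverse.map fun b => bif b then i1 else i0))⟩ : TM0.Cfg Γ Λ),
          acc b.Tape.head = true) ∧
      (([0] : List ℕ) ∈ c.eval [n] → ∃ b ∈ eval (TM0.step M) (⟨default, Tape.mk' ∅ (ListBlank.mk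
          (a0 :: (bitsL n).reverse.map fun b => bif b then i1 else i0))⟩ : TM0.Cfg Γ Λ),
          acc b.Tape.head = false) := by
  letI : Inhabited PartrecToTM2.Λ' := ⟨trNormal c Cont'.halt⟩
  let M1 := TM2to1.tr (σ := Option Γ') (Γ := fun _ : K' => Γ') PartrecToTM2.tr
  let M0 := TM1to0.tr M1
  have s2 : TM2.Supports (K := K') (Γ := fun _ : K' => Γ') (σ := Option Γ') PartrecToTM2.tr
      (codeSupp c Cont'.halt) := PartrecToTM2.tr_supports c Cont'.halt
  have s1 := TM2to1.tr_supports (M := PartrecToTM2.tr) s2
  have s0 := TM1to0.tr_supports M1 s1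
  refine ⟨GA, TM1to0.Λ' M1, inferInstance, inferInstance, M0, _,
    fun a => (a.2 K'.main).isNone, (true, col Γ'.cons), (false, col Γ'.bit0),
    (false, col Γ'.bit1), finite_GA, Finset.finite_toSet _, s0, fun n => ?_⟩
  have hini : (⟨default, Tape.mk' ∅ (ListBlank.mk
          (((true, col Γ'.cons) : GA) :: (bitsL n).reverse.map fun b =>
            bif b then ((false, col Γ'.bit1) : GA) else (false, col Γ'.bit0)))⟩ :
              TM0.Cfg GA (TM1to0.Λ' M1)) =
      TM1to0.trCfg M1 ⟨some (TM2to1.Λ'.normal (trNormal c Cont'.halt)), none,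
        Tape.mk' ∅ (TM2to1.addBottom (ListBlank.mk ((trList [n]).reverse.map col)))⟩ := by
    have e : (trList [n]).reverse = Γ'.cons :: (bitsL n).reverse.map
        (fun b => bif b then Γ'.bit1 else Γ'.bit0) := by
      simp [trList, trNat_eq]
    rw [e, addBottom_col, List.map_map]
    unfold TM1to0.trCfg
    have : (default : TM1to0.Λ' M1) =
        (Option.map M1 (some (TM2to1.Λ'.normal (trNormal c Cont'.halt))), none) := rfl
    rw [this]
    congr 4
    apply List.map_congr_left
    intro b _
    cases b <;> rfl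
  rw [hini]
  have htr : TM2to1.TrCfg (PartrecToTM2.init c [n])
      ⟨some (TM2to1.Λ'.normal (trNormal c Cont'.halt)), none,
        Tape.mk' ∅ (TM2to1.addBottom (ListBlank.mk ((trList [n]).reverse.map col)))⟩ :=
    TM2to1.TrCfg.mk (q := some (trNormal c Cont'.halt)) (v := none)
      (S := K'.elim (trList [n]) [] [] []) _ (proj_col (trList [n]))
  have main : ∀ v : List ℕ, v ∈ c.eval [n] → ∃ b ∈ eval (TM0.step M0)
      (TM1to0.trCfg M1 ⟨some (TM2to1.Λ'.normal (trNormal c Cont'.halt)), none,
        Tape.mk' ∅ (TM2to1.addBottom (ListBlank.mk ((trList [n]).reverse.map col)))⟩),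
      b.Tape.head.2 K'.main = (trList v).reverse.head? := by
    intro v hv
    have h2 : PartrecToTM2.halt v ∈ eval (TM2.step PartrecToTM2.tr) (PartrecToTM2.init c [n]) := by
      rw [PartrecToTM2.tr_eval]
      exact Part.mem_map _ hv
    obtain ⟨b1, hb1, he1⟩ := StateTransition.tr_eval (TM2to1.tr_respects PartrecToTM2.tr) htr h2
    obtain ⟨b0, hb0, he0⟩ := StateTransition.tr_eval (TM1to0.tr_respects M1) rfl he1
    refine ⟨b0, he0, ?_⟩
    cases hb0
    obtain ⟨L, hL⟩ := hb1
    have h := hL K'.main
    have h' := congrArg ListBlank.head h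
    rw [ListBlank.head_map] at h'
    have hd : ((TM2to1.addBottom L).head).2 K'.main = L.head K'.main := by
      have := congrFun (TM2to1.addBottom_nth_snd L 0) K'.main
      rwa [ListBlank.nth_zero, ListBlank.nth_zero] at this
    simp only [TM1to0.trCfg, Tape.mk'_head]
    refine hd.trans ?_
    refine h'.trans ?_
    rw [ListBlank.head_mk, PartrecToTM2.K'.elim_main, ← List.map_reverse]
    cases (trList v).reverse <;> rfl
  constructor
  · intro h
    obtain ⟨b, hb, e⟩ := main _ h
    exact ⟨b, hb, by simp [e]⟩
  · intro h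
    obtain ⟨b, hb, e⟩ := main _ h
    refine ⟨b, hb, ?_⟩
    change (b.Tape.head.2 K'.main).isNone = false
    rw [e]
    simp

end tm

end Pool.Agent.Helper583
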