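import Mathlib

set_option autoImplicit false

namespace Pool.Agent.Helper583

open Turing

/-- rewriting symbols -/
inductive Sym (Γ Q : Type) where
  | sep : Sym Γ Q
  | fin : Sym Γ Q
  | cell : Γ → Sym Γ Q
  | st : Q → Sym Γ Q

namespace RW
variable {Γ Q : Type}

def isSt : Sym Γ Q → Bool
  | Sym.st _ => true
  | _ => false

def isFin : Sym Γ Q → Bool
  | Sym.fin => true
  | _ => false

@[simp] theorem isSt_sep : isSt (Sym.sep : Sym Γ Q) = false := rfl
@[simp] theorem isSt_fin : isSt (Sym.fin : Sym Γ Q) = false := rfl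
@[simp] theorem isSt_cell (a : Γ) : isSt (Sym.cell a : Sym Γ Q) = false := rfl
@[simp] theorem isSt_st (q : Q) : isSt (Sym.st q : Sym Γ Q) = true := rfl
@[simp] theorem isFin_sep : isFin (Sym.sep : Sym Γ Q) = false := rfl
@[simp] theorem isFin_fin : isFin (Sym.fin : Sym Γ Q) = true := rfl
@[simp] theorem isFin_cell (a : Γ) : isFin (Sym.cell a : Sym Γ Q) = false := rfl
@[simp] theorem isFin_st (q : Q) : isFin (Sym.st q : Sym Γ Q) = false := rfl

instance [Finite Γ] [Finite Q] : Finite (Sym Γ Q) := by
  refine Finite.of_injective (β := Option (Option (Γ ⊕ Q)))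
    (fun x => match x with
      | Sym.sep => none
      | Sym.fin => some none
      | Sym.cell a => some (some (Sum.inl a))
      | Sym.st q => some (some (Sum.inr q))) ?_
  intro x y h
  cases x <;> cases y <;> simp_all

variable (dflt : Γ) (T : Q → Γ → Option (Q × TM0.Stmt Γ)) (acc : Γ → Bool)

/-- the right-hand side of the rule with left-hand side `[x, st q, y]` -/
def rhs (x : Sym Γ Q) (q : Q) (y : Sym Γ Q) : Option (List (Sym Γ Q)) :=
  match x, y with
  | Sym.sep, Sym.sep => some [Sym.sep, Sym.st q, Sym.cell dflt, Sym.sep]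
  | Sym.cell a, Sym.sep => some [Sym.cell a, Sym.st q, Sym.cell dflt, Sym.sep]
  | Sym.sep, Sym.cell b =>
    match T q b with
    | some (q', TM0.Stmt.write c) => some [Sym.sep, Sym.st q', Sym.cell c]
    | some (q', TM0.Stmt.move Dir.right) => some [Sym.sep, Sym.cell b, Sym.st q']
    | some (q', TM0.Stmt.move Dir.left) => some [Sym.sep, Sym.st q', Sym.cell dflt, Sym.cell b]
    | none => if acc b then some [Sym.sep, Sym.fin, Sym.cell b] else none
  | Sym.cell a, Sym.cell b =>
    match T q b with
    | some (q', TM0.Stmt.write c) => some [Sym.cell a, Sym.st q', Sym.cell c]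
    | some (q', TM0.Stmt.move Dir.right) => some [Sym.cell a, Sym.cell b, Sym.st q']
    | some (q', TM0.Stmt.move Dir.left) => some [Sym.st q', Sym.cell a, Sym.cell b]
    | none => if acc b then some [Sym.cell a, Sym.fin, Sym.cell b] else none
  | _, _ => none

/-- the rules -/
inductive Rule : List (Sym Γ Q) → List (Sym Γ Q) → Prop
  | tm (x : Sym Γ Q) (q : Q) (y : Sym Γ Q) (h : List (Sym Γ Q)) (H : rhs dflt T acc x q y = some h) :
      Rule [x, Sym.st q, y] h
  | finl_sep : Rule [Sym.sep, Sym.fin] [Sym.fin]
  | finl_cell (a : Γ) : Rule [Sym.cell a, Sym.fin] [Sym.fin]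
  | finr_sep : Rule [Sym.fin, Sym.sep] [Sym.fin]
  | finr_cell (a : Γ) : Rule [Sym.fin, Sym.cell a] [Sym.fin]

/-- one rewriting step -/
inductive Step : List (Sym Γ Q) → List (Sym Γ Q) → Prop
  | mk (u v g h : List (Sym Γ Q)) (H : Rule dflt T acc g h) : Step (u ++ g ++ v) (u ++ h ++ v)

variable {dflt T acc}

/-- the right-hand side: either contains `fin`, or has exactly one state, no `fin`, and length at
least three. -/
theorem rhs_cases {x y : Sym Γ Q} {q : Q} {h : List (Sym Γ Q)} (H : rhs dflt T acc x q y = some h) :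
    (isSt x = false ∧ isSt y = false ∧ isFin x = false ∧ isFin y = false) ∧ h.length ≤ 4 ∧
    (h.countP isFin ≠ 0 ∨ (h.countP isFin = 0 ∧ h.countP isSt = 1 ∧ 3 ≤ h.length)) := by
  unfold rhs at H
  split at H
  · cases H; simp [List.countP_cons]
  · cases H; simp [List.countP_cons]
  · split at H
    · cases H; simp [List.countP_cons]
    · cases H; simp [List.countP_cons]
    · cases H; simp [List.countP_cons]
    · split_ifs at H
      cases H; simp [List.countP_cons]
  · split at H
    · cases H; simp [List.countP_cons]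
    · cases H; simp [List.countP_cons]
    · cases H; simp [List.countP_cons]
    · split_ifs at H
      cases H; simp [List.countP_cons]
  · cases H

/-- pure words: one state symbol, no final symbol -/
def Pure (w : List (Sym Γ Q)) : Prop := w.countP isSt = 1 ∧ w.countP isFin = 0

theorem Rule.length_le {g h : List (Sym Γ Q)} (H : Rule dflt T acc g h) :
    g.length ≤ 4 ∧ h.length ≤ 4 := by
  cases H with
  | tm x q y h H => exact ⟨by simp, (rhs_cases H).2.1⟩
  | finl_sep => simp
  | finl_cell a => simp
  | finr_sep => simp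
  | finr_cell a => simp

theorem finite_rules [Finite Γ] [Finite Q] :
    {p : List (Sym Γ Q) × List (Sym Γ Q) | Rule dflt T acc p.1 p.2}.Finite := by
  refine Set.Finite.subset
    (Set.Finite.prod (List.finite_length_le (Sym Γ Q) 4) (List.finite_length_le (Sym Γ Q) 4)) ?_
  rintro ⟨g, h⟩ H
  exact ⟨(Rule.length_le H).1, (Rule.length_le H).2⟩

theorem Step.pure_back {u v : List (Sym Γ Q)} (H : Step dflt T acc u v) (hv : Pure v) :
    Pure u ∧ u.length ≤ v.length := by
  obtain ⟨x, y, g, h, hr⟩ := H
  obtain ⟨h1, h2⟩ := hv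
  simp only [List.countP_append] at h1 h2
  cases hr with
  | tm a q b h hrhs =>
    obtain ⟨⟨e1, e2, e3, e4⟩, -, h5⟩ := rhs_cases hrhs
    rcases h5 with h5 | ⟨h5, h6, h7⟩
    · omega
    · refine ⟨⟨?_, ?_⟩, ?_⟩
      · simp only [List.countP_append, List.countP_cons, List.countP_nil, e1, e2, isSt_st]
        simp only [Bool.false_eq_true, if_false, if_true]
        omega
      · simp only [List.countP_append, List.countP_cons, List.countP_nil, e3, e4, isFin_st]
        simp only [Bool.false_eq_true, if_false]
        omega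
      · simp only [List.length_append, List.length_cons, List.length_nil]; omega
  | finl_sep => simp [isFin] at h2
  | finl_cell a => simp [isFin] at h2
  | finr_sep => simp [isFin] at h2
  | finr_cell a => simp [isFin] at h2

theorem split_unique {A : Type} (P : A → Bool) {l1 l2 r1 r2 : List A} {c c' : A}
    (h : l1 ++ c :: r1 = l2 ++ c' :: r2) (h1 : l1.countP P = 0) (h2 : l2.countP P = 0)
    (hc : P c = true) (hc' : P c' = true) : l1 = l2 ∧ c = c' ∧ r1 = r2 := by
  induction l1 generalizing l2 with
  | nil =>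
    cases l2 with
    | nil => simpa using h
    | cons d l2 =>
      simp only [List.nil_append, List.cons_append, List.cons.injEq] at h
      obtain ⟨rfl, -⟩ := h
      simp [hc] at h2
  | cons d l1 ih =>
    cases l2 with
    | nil =>
      simp only [List.nil_append, List.cons_append, List.cons.injEq] at h
      obtain ⟨rfl, -⟩ := h
      simp [hc'] at h1
    | cons d' l2 =>
      simp only [List.cons_append, List.cons.injEq] at h
      obtain ⟨rfl, h⟩ := h
      have h1' : l1.countP P = 0 := by
        rw [List.countP_cons] at h1; omega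
      have h2' : l2.countP P = 0 := by
        rw [List.countP_cons] at h2; omega
      obtain ⟨a, b, c⟩ := ih h h1' h2'
      exact ⟨by rw [a], b, c⟩

/-- the form of a step from a pure word -/
theorem Step.form {u v : List (Sym Γ Q)} (H : Step dflt T acc u v) (hu : Pure u) :
    ∃ (l r : List (Sym Γ Q)) (x y : Sym Γ Q) (q : Q) (h : List (Sym Γ Q)),
      u = (l ++ [x]) ++ Sym.st q :: (y :: r) ∧ (l ++ [x]).countP isSt = 0 ∧
      rhs dflt T acc x q y = some h ∧ v = l ++ h ++ r := by
  obtain ⟨l, r, g, h, hr⟩ := H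
  obtain ⟨h1, h2⟩ := hu
  simp only [List.countP_append] at h1 h2
  cases hr with
  | tm a q b h hrhs =>
    refine ⟨l, r, a, b, q, h, by simp, ?_, hrhs, rfl⟩
    obtain ⟨⟨e1, e2, e3, e4⟩, -, h5⟩ := rhs_cases hrhs
    simp only [List.countP_cons, List.countP_nil, e1, e2, isSt_st] at h1
    simp only [List.countP_append, List.countP_cons, List.countP_nil, e1]
    simp only [Bool.false_eq_true, if_false, if_true] at h1 ⊢
    omega
  | finl_sep => simp [isFin] at h2
  | finl_cell a => simp [isFin] at h2
  | finr_sep => simp [isFin] at h2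
  | finr_cell a => simp [isFin] at h2

theorem Step.det {u v v' : List (Sym Γ Q)} (H : Step dflt T acc u v) (H' : Step dflt T acc u v')
    (hu : Pure u) : v = v' := by
  obtain ⟨l, r, x, y, q, h, e, e0, e1, e2⟩ := H.form hu
  obtain ⟨l', r', x', y', q', h', e', e0', e1', e2'⟩ := H'.form hu
  obtain ⟨a, b, c⟩ := split_unique isSt (e.symm.trans e') e0 e0' rfl rfl
  obtain ⟨a1, a2⟩ := List.append_inj' a rfl
  simp only [List.cons.injEq, and_true] at a2
  simp only [List.cons.injEq] at c
  obtain ⟨c1, c2⟩ := c
  cases b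
  subst a1 a2 c1 c2
  rw [e1] at e1'
  cases e1'
  rw [e2, e2']

/-- the set of words that rewrite to `w` -/
def Before (dflt : Γ) (T : Q → Γ → Option (Q × TM0.Stmt Γ)) (acc : Γ → Bool)
    (w : List (Sym Γ Q)) : Set (List (Sym Γ Q)) :=
  {u | Relation.ReflTransGen (Step dflt T acc) u w}

theorem Before.pure {w : List (Sym Γ Q)} (hw : Pure w) {u : List (Sym Γ Q)}
    (hu : u ∈ Before dflt T acc w) : Pure u ∧ u.length ≤ w.length := by
  induction hu using Relation.ReflTransGen.head_induction_on with
  | refl => exact ⟨hw, le_rfl⟩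
  | head h _ ih =>
    obtain ⟨a, b⟩ := h.pure_back ih.1
    exact ⟨a, b.trans ih.2⟩

theorem Before.finite [Finite Γ] [Finite Q] {w : List (Sym Γ Q)} (hw : Pure w) :
    (Before dflt T acc w).Finite :=
  Set.Finite.subset (List.finite_length_le (Sym Γ Q) w.length) fun _ hu => (Before.pure hw hu).2

theorem Before.iff {w : List (Sym Γ Q)} (hw : Pure w) (hirr : ∀ v, ¬ Step dflt T acc w v)
    {u v : List (Sym Γ Q)} (h : Step dflt T acc u v) :
    u ∈ Before dflt T acc w ↔ v ∈ Before dflt T acc w := by
  constructor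
  · intro hu
    rcases Relation.ReflTransGen.cases_head hu with rfl | ⟨v', h', hv'⟩
    · exact absurd h (hirr v)
    · rw [h.det h' (Before.pure hw hu).1]; exact hv'
  · intro hv
    exact Relation.ReflTransGen.head h hv

theorem Step.context {u v : List (Sym Γ Q)} (x y : List (Sym Γ Q)) (H : Step dflt T acc u v) :
    Step dflt T acc (x ++ u ++ y) (x ++ v ++ y) := by
  obtain ⟨l, r, g, h, hr⟩ := H
  have := Step.mk (x ++ l) (r ++ y) g h hr
  simpa using this

theorem reach_context {u v : List (Sym Γ Q)} (x y : List (Sym Γ Q))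
    (H : Relation.ReflTransGen (Step dflt T acc) u v) :
    Relation.ReflTransGen (Step dflt T acc) (x ++ u ++ y) (x ++ v ++ y) := by
  induction H with
  | refl => exact Relation.ReflTransGen.refl
  | tail _ h ih => exact ih.tail (h.context x y)

theorem fin_right (l : List Γ) :
    Relation.ReflTransGen (Step dflt T acc) (Sym.fin :: l.map Sym.cell ++ [Sym.sep])
      ([Sym.fin] : List (Sym Γ Q)) := by
  induction l with
  | nil => exact Relation.ReflTransGen.single (by simpa using Step.mk [] [] _ _ Rule.finr_sep)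
  | cons a l ih =>
    refine Relation.ReflTransGen.head ?_ ih
    simpa using Step.mk [] (l.map Sym.cell ++ [Sym.sep]) _ _ (Rule.finr_cell a)

theorem fin_left (l : List Γ) :
    Relation.ReflTransGen (Step dflt T acc) ([Sym.sep] ++ l.reverse.map Sym.cell ++ [Sym.fin])
      ([Sym.fin] : List (Sym Γ Q)) := by
  induction l with
  | nil => exact Relation.ReflTransGen.single (by simpa using Step.mk [] [] _ _ Rule.finl_sep)
  | cons a l ih =>
    refine Relation.ReflTransGen.head ?_ ih
    have := Step.mk (dflt := dflt) (T := T) (acc := acc)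
      ([Sym.sep] ++ l.reverse.map Sym.cell) [] _ _ (Rule.finl_cell a)
    simpa using this

/-- configuration words -/
def cfgW (l : List Γ) (q : Q) (r : List Γ) : List (Sym Γ Q) :=
  ([Sym.sep] ++ l.reverse.map Sym.cell) ++ Sym.st q :: (r.map Sym.cell ++ [Sym.sep])

theorem countP_cells_st (l : List Γ) : (l.map (Sym.cell (Q := Q))).countP isSt = 0 := by
  rw [List.countP_eq_zero]; simp [isSt]

theorem countP_cells_fin (l : List Γ) : (l.map (Sym.cell (Q := Q))).countP isFin = 0 := by
  rw [List.countP_eq_zero]; simp [isFin]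

theorem cfgW_pure (l : List Γ) (q : Q) (r : List Γ) : Pure (cfgW l q r) := by
  unfold Pure cfgW
  simp only [List.countP_append, List.countP_cons, List.countP_nil, countP_cells_st,
    countP_cells_fin]
  simp [isSt, isFin]

/-- the last symbol of the left part -/
theorem left_form (l : List Γ) : ∃ (l' : List (Sym Γ Q)) (x : Sym Γ Q),
    [Sym.sep] ++ l.reverse.map Sym.cell = l' ++ [x] ∧
      ((l = [] ∧ l' = [] ∧ x = Sym.sep) ∨
        ∃ a t, l = a :: t ∧ l' = [Sym.sep] ++ t.reverse.map Sym.cell ∧ x = Sym.cell a) := by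
  cases l with
  | nil => exact ⟨[], Sym.sep, by simp, Or.inl ⟨rfl, rfl, rfl⟩⟩
  | cons a t => exact ⟨[Sym.sep] ++ t.reverse.map Sym.cell, Sym.cell a, by simp,
      Or.inr ⟨a, t, rfl, rfl, rfl⟩⟩

theorem step_rhs {x y : Sym Γ Q} {q : Q} {h l r : List (Sym Γ Q)}
    (H : rhs dflt T acc x q y = some h) :
    Step dflt T acc ((l ++ [x]) ++ Sym.st q :: (y :: r)) (l ++ h ++ r) := by
  have := Step.mk l r _ _ (Rule.tm x q y h H)
  simpa using this

theorem step_blank (l : List Γ) (q : Q) :
    Step dflt T acc (cfgW l q []) (cfgW l q [dflt]) := by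
  cases l with
  | nil =>
    have := step_rhs (dflt := dflt) (T := T) (acc := acc) (x := Sym.sep) (y := Sym.sep) (q := q)
      (l := []) (r := []) (h := [Sym.sep, Sym.st q, Sym.cell dflt, Sym.sep]) rfl
    simpa [cfgW] using this
  | cons a t =>
    have := step_rhs (dflt := dflt) (T := T) (acc := acc) (x := Sym.cell a) (y := Sym.sep) (q := q)
      (l := [Sym.sep] ++ t.reverse.map Sym.cell) (r := [])
      (h := [Sym.cell a, Sym.st q, Sym.cell dflt, Sym.sep]) rfl
    simpa [cfgW] using this

theorem step_write (l : List Γ) (q q' : Q) (b c : Γ) (r : List Γ)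
    (H : T q b = some (q', TM0.Stmt.write c)) :
    Step dflt T acc (cfgW l q (b :: r)) (cfgW l q' (c :: r)) := by
  cases l with
  | nil =>
    have := step_rhs (dflt := dflt) (T := T) (acc := acc) (x := Sym.sep) (y := Sym.cell b) (q := q)
      (l := []) (r := r.map Sym.cell ++ [Sym.sep]) (h := [Sym.sep, Sym.st q', Sym.cell c])
      (by simp [rhs, H])
    simpa [cfgW] using this
  | cons a t =>
    have := step_rhs (dflt := dflt) (T := T) (acc := acc) (x := Sym.cell a) (y := Sym.cell b)
      (q := q) (l := [Sym.sep] ++ t.reverse.map Sym.cell) (r := r.map Sym.cell ++ [Sym.sep])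
      (h := [Sym.cell a, Sym.st q', Sym.cell c]) (by simp [rhs, H])
    simpa [cfgW] using this

theorem step_right (l : List Γ) (q q' : Q) (b : Γ) (r : List Γ)
    (H : T q b = some (q', TM0.Stmt.move Dir.right)) :
    Step dflt T acc (cfgW l q (b :: r)) (cfgW (b :: l) q' r) := by
  cases l with
  | nil =>
    have := step_rhs (dflt := dflt) (T := T) (acc := acc) (x := Sym.sep) (y := Sym.cell b) (q := q)
      (l := []) (r := r.map Sym.cell ++ [Sym.sep]) (h := [Sym.sep, Sym.cell b, Sym.st q'])
      (by simp [rhs, H])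
    simpa [cfgW] using this
  | cons a t =>
    have := step_rhs (dflt := dflt) (T := T) (acc := acc) (x := Sym.cell a) (y := Sym.cell b)
      (q := q) (l := [Sym.sep] ++ t.reverse.map Sym.cell) (r := r.map Sym.cell ++ [Sym.sep])
      (h := [Sym.cell a, Sym.cell b, Sym.st q']) (by simp [rhs, H])
    simpa [cfgW] using this

theorem step_left (l : List Γ) (q q' : Q) (b : Γ) (r : List Γ)
    (H : T q b = some (q', TM0.Stmt.move Dir.left)) :
    Step dflt T acc (cfgW l q (b :: r)) (cfgW l.tail q' (l.headD dflt :: b :: r)) := by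
  cases l with
  | nil =>
    have := step_rhs (dflt := dflt) (T := T) (acc := acc) (x := Sym.sep) (y := Sym.cell b) (q := q)
      (l := []) (r := r.map Sym.cell ++ [Sym.sep])
      (h := [Sym.sep, Sym.st q', Sym.cell dflt, Sym.cell b])
      (by simp [rhs, H])
    simpa [cfgW] using this
  | cons a t =>
    have := step_rhs (dflt := dflt) (T := T) (acc := acc) (x := Sym.cell a) (y := Sym.cell b)
      (q := q) (l := [Sym.sep] ++ t.reverse.map Sym.cell) (r := r.map Sym.cell ++ [Sym.sep])
      (h := [Sym.st q', Sym.cell a, Sym.cell b]) (by simp [rhs, H])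
    simpa [cfgW] using this

/-- accepting configurations rewrite to the final symbol -/
theorem reach_accept (l : List Γ) (q : Q) (b : Γ) (r : List Γ) (H : T q b = none)
    (ha : acc b = true) :
    Relation.ReflTransGen (Step dflt T acc) (cfgW l q (b :: r)) [Sym.fin] := by
  have h1 : Step dflt T acc (cfgW l q (b :: r))
      (([Sym.sep] ++ l.reverse.map Sym.cell) ++ Sym.fin :: ((b :: r).map Sym.cell ++ [Sym.sep])) := by
    cases l with
    | nil =>
      have := step_rhs (dflt := dflt) (T := T) (acc := acc) (x := Sym.sep) (y := Sym.cell b)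
        (q := q) (l := []) (r := r.map Sym.cell ++ [Sym.sep])
        (h := [Sym.sep, Sym.fin, Sym.cell b]) (by simp [rhs, H, ha])
      simpa [cfgW] using this
    | cons a t =>
      have := step_rhs (dflt := dflt) (T := T) (acc := acc) (x := Sym.cell a) (y := Sym.cell b)
        (q := q) (l := [Sym.sep] ++ t.reverse.map Sym.cell) (r := r.map Sym.cell ++ [Sym.sep])
        (h := [Sym.cell a, Sym.fin, Sym.cell b]) (by simp [rhs, H, ha])
      simpa [cfgW] using this
  refine Relation.ReflTransGen.head h1 ?_
  have h2 := reach_context (dflt := dflt) (T := T) (acc := acc)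
    ([Sym.sep] ++ l.reverse.map Sym.cell) [] (fin_right (b :: r))
  refine Relation.ReflTransGen.trans ?_ (fin_left l)
  simpa using h2

/-- rejecting configurations are irreducible -/
theorem irreducible (l : List Γ) (q : Q) (b : Γ) (r : List Γ) (H : T q b = none)
    (ha : acc b = false) (v : List (Sym Γ Q)) : ¬ Step dflt T acc (cfgW l q (b :: r)) v := by
  intro hs
  obtain ⟨l', r', x, y, q', h, e, e0, e1, -⟩ := hs.form (cfgW_pure _ _ _)
  have e' : ([Sym.sep] ++ l.reverse.map Sym.cell) ++ Sym.st q ::
      ((b :: r).map Sym.cell ++ [Sym.sep]) = (l' ++ [x]) ++ Sym.st q' :: (y :: r') := e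
  obtain ⟨a, b', c⟩ := split_unique isSt e' (by
    simp only [List.countP_append, List.countP_cons, List.countP_nil, countP_cells_st]
    simp [isSt]) e0 rfl rfl
  cases b'
  simp only [List.map_cons, List.cons_append, List.cons.injEq] at c
  obtain ⟨rfl, -⟩ := c
  unfold rhs at e1
  split at e1
  · cases ‹Sym.cell b = Sym.sep›
  · cases ‹Sym.cell b = Sym.sep›
  · rename_i b1 h1
    cases h1
    rw [H] at e1
    simp [ha] at e1
  · rename_i b1 h1
    cases h1
    rw [H] at e1
    simp [ha] at e1
  · cases e1

end RW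

end Pool.Agent.Helper583
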