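import Mathlib
import Pool.Agent.Helper583.Machine2

set_option autoImplicit false

namespace Pool.Agent.Helper583

open Turing StateTransition

namespace RW

section sim
variable {Γ Λ : Type} [Inhabited Γ] [Inhabited Λ] (M : TM0.Machine Γ Λ) {S : Set Λ}
  (ss : TM0.Supports M S) (acc : Γ → Bool)

theorem supp_next (ss : TM0.Supports M S) {q : ↥S} {b : Γ} {p : Λ × TM0.Stmt Γ}
    (h : M q.1 b = some p) : p.1 ∈ S := by
  obtain ⟨q', s⟩ := p
  exact ss.2 h q.2

/-- the transition function restricted to the supporting set of states -/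
def TT (q : ↥S) (b : Γ) : Option (↥S × TM0.Stmt Γ) :=
  (M q.1 b).pmap (fun p hp => (⟨p.1, supp_next M ss (q := q) (b := b) hp⟩, p.2))
    (fun _ hp => hp)

theorem TT_none {q : ↥S} {b : Γ} (h : M q.1 b = none) : TT M ss q b = none := by
  unfold TT
  rw [Option.pmap_eq_none_iff]
  exact h

theorem TT_some {q : ↥S} {b : Γ} {p : Λ × TM0.Stmt Γ} (h : M q.1 b = some p) :
    ∃ hp : p.1 ∈ S, TT M ss q b = some (⟨p.1, hp⟩, p.2) := by
  refine ⟨supp_next M ss h, ?_⟩
  unfold TT
  rw [Option.pmap_eq_some_iff]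
  exact ⟨p, h, h, rfl⟩

/-- a word that represents a configuration -/
def Rep (c : TM0.Cfg Γ Λ) (w : List (Sym Γ ↥S)) : Prop :=
  ∃ (l r : List Γ) (q : ↥S), c = ⟨q.1, Tape.mk' (ListBlank.mk l) (ListBlank.mk r)⟩ ∧
    w = cfgW l q r

theorem headI_eq (l : List Γ) : l.headI = l.headD default := by
  cases l <;> rfl

/-- make the head symbol explicit -/
theorem Rep.explicit {c : TM0.Cfg Γ Λ} {w : List (Sym Γ ↥S)} (h : Rep c w) :
    ∃ (l r : List Γ) (b : Γ) (q : ↥S),
      c = ⟨q.1, Tape.mk' (ListBlank.mk l) (ListBlank.mk (b :: r))⟩ ∧ c.Tape.head = b ∧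
      Relation.ReflTransGen (Step default (TT M ss) acc) w (cfgW l q (b :: r)) := by
  obtain ⟨l, r, q, rfl, rfl⟩ := h
  cases r with
  | nil =>
    refine ⟨l, [], default, q, ?_, ?_, Relation.ReflTransGen.single (step_blank l q)⟩
    · congr 2
      refine ListBlank.ext fun i => ?_
      rw [ListBlank.nth_mk, ListBlank.nth_mk]
      cases i <;> simp [List.getI]
    · simp
  | cons b r => exact ⟨l, r, b, q, rfl, by simp, Relation.ReflTransGen.refl⟩

theorem sim_step {c c' : TM0.Cfg Γ Λ} {w : List (Sym Γ ↥S)} (h : Rep c w)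
    (hs : c' ∈ TM0.step M c) : ∃ w', Rep c' w' ∧
      Relation.ReflTransGen (Step default (TT M ss) acc) w w' := by
  obtain ⟨l, r, b, q, rfl, -, hw⟩ := h.explicit M ss acc
  simp only [TM0.step, Option.mem_def, Option.map_eq_some_iff] at hs
  obtain ⟨⟨q', a⟩, h1, rfl⟩ := hs
  have h1' : M q.1 b = some (q', a) := by
    simpa [Tape.mk'] using h1
  obtain ⟨hp, hT⟩ := TT_some M ss h1'
  cases a with
  | write c =>
    refine ⟨cfgW l ⟨q', hp⟩ (c :: r), ⟨l, c :: r, ⟨q', hp⟩, ?_, rfl⟩,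
      hw.tail (step_write l q _ b c r hT)⟩
    simp [Tape.write_mk']
  | move d =>
    cases d with
    | right =>
      refine ⟨cfgW (b :: l) ⟨q', hp⟩ r, ⟨b :: l, r, ⟨q', hp⟩, ?_, rfl⟩,
        hw.tail (step_right l q _ b r hT)⟩
      simp [Tape.move_right_mk']
    | left =>
      refine ⟨cfgW l.tail ⟨q', hp⟩ (l.headD default :: b :: r),
        ⟨l.tail, l.headD default :: b :: r, ⟨q', hp⟩, ?_, rfl⟩,
        hw.tail (step_left l q _ b r hT)⟩
      simp [Tape.move_left_mk', headI_eq]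

theorem sim {c c' : TM0.Cfg Γ Λ} {w : List (Sym Γ ↥S)} (h : Rep c w)
    (hs : Reaches (TM0.step M) c c') : ∃ w', Rep c' w' ∧
      Relation.ReflTransGen (Step default (TT M ss) acc) w w' := by
  induction hs with
  | refl => exact ⟨w, h, Relation.ReflTransGen.refl⟩
  | tail _ hs ih =>
    obtain ⟨w', h1, h2⟩ := ih
    obtain ⟨w'', h3, h4⟩ := sim_step M ss acc h1 hs
    exact ⟨w'', h3, h2.trans h4⟩

/-- the two outcomes, for rewriting -/
theorem outcome {c c' : TM0.Cfg Γ Λ} {w : List (Sym Γ ↥S)} (h : Rep c w)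
    (hs : c' ∈ eval (TM0.step M) c) :
    (acc c'.Tape.head = true →
      Relation.ReflTransGen (Step default (TT M ss) acc) w [Sym.fin]) ∧
    (acc c'.Tape.head = false → ∃ v, Pure v ∧ (∀ v', ¬ Step default (TT M ss) acc v v') ∧
      Relation.ReflTransGen (Step default (TT M ss) acc) w v) := by
  rw [mem_eval] at hs
  obtain ⟨w', h1, h2⟩ := sim M ss acc h hs.1
  obtain ⟨l, r, b, q, h3, h4, h5⟩ := h1.explicit M ss acc
  have h6 : M q.1 b = none := by
    have := hs.2
    rw [h3] at this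
    simpa [TM0.step, Tape.mk'] using this
  have h7 := TT_none M ss h6
  rw [h4]
  constructor
  · intro ha
    exact (h2.trans h5).trans (reach_accept l q b r h7 ha)
  · intro ha
    exact ⟨_, cfgW_pure _ _ _, irreducible l q b r h7 ha, h2.trans h5⟩

end sim

end RW

end Pool.Agent.Helper583
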