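import Mathlib
import Pool.Agent.Helper583.Machine1
import Pool.Agent.Helper583.Machine3
import Pool.Agent.Helper583.Coding

set_option autoImplicit false

namespace Pool.Agent.Helper583

open Turing StateTransition

theorem exists_code' (F : ℕ →. ℕ) (hF : Nat.Partrec F) :
    ∃ c : ToPartrec.Code, ∀ n : ℕ, (0 ∈ F n → ([] : List ℕ) ∈ c.eval [n]) ∧
      (1 ∈ F n → [0] ∈ c.eval [n]) := by
  obtain ⟨c, hc⟩ := ToPartrec.Code.exists_code (Nat.Partrec'.part_iff₁.2 (Partrec.nat_iff.2 hF))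
  refine ⟨(ToPartrec.Code.case ToPartrec.Code.nil ToPartrec.Code.zero).comp c, fun n => ?_⟩
  have h : c.eval [n] = pure <$> F n := by
    exact hc (n ::ᵥ List.Vector.nil)
  have h2 : ((ToPartrec.Code.case ToPartrec.Code.nil ToPartrec.Code.zero).comp c).eval [n] =
      c.eval [n] >>= (ToPartrec.Code.case ToPartrec.Code.nil ToPartrec.Code.zero).eval := rfl
  rw [h2, h]
  constructor
  · intro h0
    refine Part.mem_bind (Part.mem_map _ h0) ?_
    simp [ToPartrec.Code.eval]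
  · intro h0
    refine Part.mem_bind (Part.mem_map _ h0) ?_
    simp [ToPartrec.Code.eval]

/-- the input word -/
def inpW (c1 c2 d0 d1 : List Bool) (n : ℕ) : List Bool :=
  c1 ++ ((bitsL n).reverse.flatMap (fun b => bif b then d1 else d0) ++ c2)

theorem Rule_ne_nil {Γ Q : Type} {dflt : Γ} {T : Q → Γ → Option (Q × TM0.Stmt Γ)} {acc : Γ → Bool}
    {g h : List (Sym Γ Q)} (H : RW.Rule dflt T acc g h) : g ≠ [] ∧ h ≠ [] := by
  cases H with
  | tm x q y h H =>
    refine ⟨by simp, ?_⟩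
    rintro rfl
    have := (RW.rhs_cases H).2.2
    simp at this
  | finl_sep => simp
  | finl_cell a => simp
  | finr_sep => simp
  | finr_cell a => simp

theorem exists_system (F : ℕ →. ℕ) (hF : Nat.Partrec F) :
    ∃ (R : List (List Bool × List Bool)) (c1 c2 d0 d1 h : List Bool),
      (∀ p ∈ R, false ∈ p.1 ∧ true ∈ p.1 ∧ false ∈ p.2 ∧ true ∈ p.2) ∧ c1 ≠ [] ∧ h ≠ [] ∧
      ∀ n, (0 ∈ F n → Relation.EqvGen (RStep R) (inpW c1 c2 d0 d1 n) h) ∧
        (1 ∈ F n → ∃ (s : Type) (_ : Finite s) (α : Bool → s → s) (m : s),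
          (∀ p ∈ R, ∀ m, actW α p.1 m = actW α p.2 m) ∧
            actW α (inpW c1 c2 d0 d1 n) m ≠ actW α h m) := by
  classical
  obtain ⟨c, hc⟩ := exists_code' F hF
  obtain ⟨Γ, Λ, i1, i2, M, S, acc, a0, b0, b1, hΓ, hS, ss, hM⟩ := exists_tm0 c
  have hS' : Finite ↥S := hS
  obtain ⟨enc, henc⟩ := exists_injective_nat (Sym Γ ↥S)
  let q0 : ↥S := ⟨default, ss.1⟩
  let T := RW.TT M ss
  have hfin := RW.finite_rules (dflt := (default : Γ)) (T := T) (acc := acc)
  let R : List (List Bool × List Bool) :=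
    hfin.toFinset.toList.map fun p => (Cod.codeW enc p.1, Cod.codeW enc p.2)
  have hR : ∀ g h : List Bool, (g, h) ∈ R ↔ ∃ g' h', RW.Rule default T acc g' h' ∧
      g = Cod.codeW enc g' ∧ h = Cod.codeW enc h' := by
    intro g h
    simp only [R, List.mem_map, Finset.mem_toList, Set.Finite.mem_toFinset, Prod.exists,
      Prod.mk.injEq]
    constructor
    · rintro ⟨a, b, h1, h2, h3⟩; exact ⟨a, b, h1, h2.symm, h3.symm⟩
    · rintro ⟨a, b, h1, h2, h3⟩; exact ⟨a, b, h1, h2.symm, h3.symm⟩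
  have hstep : ∀ v w : List (Sym Γ ↥S), RW.Step default T acc v w →
      RStep R (Cod.codeW enc v) (Cod.codeW enc w) := by
    rintro _ _ ⟨u, v, g, h, hr⟩
    simp only [Cod.codeW_append]
    exact RStep.mk _ _ _ _ ((hR _ _).2 ⟨g, h, hr, rfl, rfl⟩)
  have hreach : ∀ v w : List (Sym Γ ↥S), Relation.ReflTransGen (RW.Step default T acc) v w →
      Relation.EqvGen (RStep R) (Cod.codeW enc v) (Cod.codeW enc w) := by
    intro v w h
    induction h with
    | refl => exact Relation.EqvGen.refl _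
    | tail _ h ih => exact ih.trans _ _ _ (Relation.EqvGen.rel _ _ (hstep _ _ h))
  have hinp : ∀ n, Cod.codeW enc (RW.cfgW [] q0
      (a0 :: (bitsL n).reverse.map fun b => bif b then b1 else b0)) =
      inpW (Cod.codeW enc [Sym.sep, Sym.st q0, Sym.cell a0]) (Cod.codeW enc [Sym.sep])
        (Cod.codeW enc [Sym.cell b0]) (Cod.codeW enc [Sym.cell b1]) n := by
    intro n
    have h1 : RW.cfgW [] q0 (a0 :: (bitsL n).reverse.map fun b => bif b then b1 else b0) =
        [Sym.sep, Sym.st q0, Sym.cell a0] ++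
          (((bitsL n).reverse.map fun b => (Sym.cell (bif b then b1 else b0) : Sym Γ ↥S))
            ++ [Sym.sep]) := by
      simp [RW.cfgW]
    rw [h1, Cod.codeW_append, Cod.codeW_append, inpW]
    congr 2
    unfold Cod.codeW
    rw [List.flatMap_map]
    congr 1
    funext b
    cases b <;> simp
  have hrep : ∀ n, RW.Rep (S := S) (⟨default, Tape.mk' ∅ (ListBlank.mk
          (a0 :: (bitsL n).reverse.map fun b => bif b then b1 else b0))⟩ : TM0.Cfg Γ Λ)
      (RW.cfgW [] q0 (a0 :: (bitsL n).reverse.map fun b => bif b then b1 else b0)) := fun n =>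
    ⟨[], _, q0, rfl, rfl⟩
  refine ⟨R, Cod.codeW enc [Sym.sep, Sym.st q0, Sym.cell a0], Cod.codeW enc [Sym.sep],
    Cod.codeW enc [Sym.cell b0], Cod.codeW enc [Sym.cell b1], Cod.codeW enc [Sym.fin],
    ?_, ?_, ?_, fun n => ⟨fun h0 => ?_, fun h1 => ?_⟩⟩
  · rintro ⟨g, h⟩ hp
    obtain ⟨g', h', h1, rfl, rfl⟩ := (hR _ _).1 hp
    have := Rule_ne_nil h1
    exact ⟨(Cod.mem_codeW enc this.1).1, (Cod.mem_codeW enc this.1).2,
      (Cod.mem_codeW enc this.2).1, (Cod.mem_codeW enc this.2).2⟩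
  · rw [Cod.codeW_cons]; simp [Cod.code]
  · rw [Cod.codeW_cons]; simp [Cod.code]
  · obtain ⟨b, hb, hacc⟩ := (hM n).1 ((hc n).1 h0)
    rw [← hinp]
    exact hreach _ _ ((RW.outcome M ss acc (hrep n) hb).1 hacc)
  · obtain ⟨b, hb, hacc⟩ := (hM n).2 ((hc n).2 h1)
    obtain ⟨w, hw1, hw2, hw3⟩ := (RW.outcome M ss acc (hrep n) hb).2 hacc
    rw [← hinp]
    refine exists_action (Cod.codeW enc '' RW.Before default T acc w)
      ((RW.Before.finite hw1).image _) ?_ ⟨_, hw3, rfl⟩ ?_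
    · rintro u v g h hp
      obtain ⟨g', h', h1, rfl, rfl⟩ := (hR _ _).1 hp
      have hne := Rule_ne_nil h1
      constructor
      · rintro ⟨x, hx, hx'⟩
        obtain ⟨u', v', rfl, rfl, rfl⟩ := Cod.inside enc henc hne.1 hx'.symm
        exact ⟨u' ++ h' ++ v', (RW.Before.iff hw1 hw2 (RW.Step.mk u' v' g' h' h1)).1 hx, by
          simp only [Cod.codeW_append]⟩
      · rintro ⟨x, hx, hx'⟩
        obtain ⟨u', v', rfl, rfl, rfl⟩ := Cod.inside enc henc hne.2 hx'.symm
        exact ⟨u' ++ g' ++ v', (RW.Before.iff hw1 hw2 (RW.Step.mk u' v' g' h' h1)).2 hx, by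
          simp only [Cod.codeW_append]⟩
    · rintro ⟨x, hx, hx'⟩
      have := Cod.codeW_injective enc henc hx'
      subst this
      have := (RW.Before.pure hw1 hx).1.2
      simp at this

end Pool.Agent.Helper583
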