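import Mathlib
import Pool.Agent.Helper583.System

set_option autoImplicit false

namespace Pool.Agent.Helper583

section bits

theorem bitsL_eq (n : ℕ) : bitsL n = if n = 0 then [] else n.bodd :: bitsL n.div2 := by
  by_cases h : n = 0
  · subst h; simp [bitsL]
  · rw [if_neg h]
    unfold bitsL
    conv_lhs => rw [← Nat.bit_bodd_div2 n]
    rw [Nat.bits_append_bit]
    intro h0
    rcases Nat.eq_zero_or_pos n with h1 | h1
    · exact absurd h1 h
    · by_contra hb
      have hb' : n.bodd = false := by simpa using hb
      have := Nat.bodd_add_div2 n
      rw [h0, hb'] at this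
      simp at this
      omega

theorem prim_bits : Primrec bitsL := by
  have h : Primrec₂ (fun (_ : Unit) (n : ℕ) => bitsL n) := by
    refine Primrec.nat_strong_rec (fun (_ : Unit) (n : ℕ) => bitsL n)
      (g := fun _ l => some (bif decide (l.length = 0) then [] else
        l.length.bodd :: (l[l.length.div2]?).getD [])) ?_ ?_
    · refine Primrec.option_some.comp ?_
      have hl : Primrec (fun p : Unit × List (List Bool) => p.2.length) :=
        Primrec.list_length.comp Primrec.snd
      refine Primrec.cond ?_ (Primrec.const _) ?_
      · exact (PrimrecRel.comp Primrec.eq hl (Primrec.const 0)).decide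
      · refine Primrec.list_cons.comp (Primrec.nat_bodd.comp hl) ?_
        exact Primrec.option_getD.comp
          (Primrec.list_getElem?.comp Primrec.snd (Primrec.nat_div2.comp hl)) (Primrec.const _)
    · intro _ n
      simp only [List.length_map, List.length_range, Option.some.injEq]
      rw [bitsL_eq n]
      by_cases h : n = 0
      · simp [h]
      · rw [if_neg h]
        have : n.div2 < n := by
          rw [Nat.div2_val]; omega
        simp [h, this]
  exact h.comp (Primrec.const ()) Primrec.id

end bits

section words
variable {α : Type*} [Primcodable α]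

theorem prim_append {f g : α → Word} (hf : Primrec f) (hg : Primrec g) :
    Primrec fun a => f a ++ g a := Primrec.list_append.comp hf hg

theorem prim_wInv {f : α → Word} (hf : Primrec f) : Primrec fun a => wInv (f a) := by
  unfold wInv
  refine Primrec.list_reverse.comp (Primrec.list_map hf ?_)
  exact (Primrec.pair (Primrec.fst.comp Primrec.snd)
    (Primrec.not.comp (Primrec.snd.comp Primrec.snd)))

theorem prim_wPow {f : α → Word} (hf : Primrec f) (n : ℕ) : Primrec fun a => wPow (f a) n := by
  unfold wPow
  exact Primrec.list_flatMap (Primrec.const (List.range n)) (hf.comp Primrec.fst)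

theorem prim_wCm {f g : α → Word} (hf : Primrec f) (hg : Primrec g) :
    Primrec fun a => wCm (f a) (g a) := by
  unfold wCm
  exact prim_append (prim_wInv hf) (prim_append (prim_wInv hg) (prim_append hf hg))

theorem prim_wZl_const {f : α → Word} (hf : Primrec f) (k : Bool) :
    Primrec fun a => wZl k (f a) := by
  cases k
  · unfold wZl
    exact prim_wCm (prim_wCm (prim_wPow hf _) (Primrec.const _)) (Primrec.const _)
  · unfold wZl
    exact prim_wCm (prim_wCm (prim_wPow hf _) (Primrec.const _)) (Primrec.const _)

theorem prim_wZl {f : α → Word} {k : α → Bool} (hf : Primrec f) (hk : Primrec k) :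
    Primrec fun a => wZl (k a) (f a) :=
  (Primrec.cond hk (prim_wZl_const hf true) (prim_wZl_const hf false)).of_eq fun a => by
    cases k a <;> rfl

theorem prim_wZw {g : α → List Bool} (hg : Primrec g) (z : Word) :
    Primrec fun a => wZw (g a) z := by
  unfold wZw
  have h : Primrec₂ (fun (_ : α) (p : Word × Bool) => wZl p.2 p.1) :=
    prim_wZl (α := α × (Word × Bool)) (Primrec.fst.comp Primrec.snd)
      (Primrec.snd.comp Primrec.snd)
  exact Primrec.list_foldl hg (Primrec.const z) h

theorem prim_wPv {f g : α → Word} (hf : Primrec f) (hg : Primrec g) :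
    Primrec fun a => wPv (f a) (g a) := by
  unfold wPv
  exact prim_wCm (prim_wCm (prim_wPow hf _) (Primrec.const _)) (prim_wPow hg _)

theorem prim_target {g : α → List Bool} (hg : Primrec g) (h : List Bool) :
    Primrec fun a => target (g a) h := by
  unfold target
  exact prim_append (Primrec.const _) (prim_append (prim_wPv (prim_wZw hg _) (Primrec.const _))
    (Primrec.const _))

theorem prim_inpW (c1 c2 d0 d1 : List Bool) : Primrec (inpW c1 c2 d0 d1) := by
  unfold inpW
  refine Primrec.list_append.comp (Primrec.const _) (Primrec.list_append.comp ?_ (Primrec.const _))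
  refine Primrec.list_flatMap (Primrec.list_reverse.comp prim_bits) ?_
  exact Primrec.cond Primrec.snd (Primrec.const _) (Primrec.const _)

theorem prim_main (c1 c2 d0 d1 h : List Bool) :
    Primrec fun n => target (inpW c1 c2 d0 d1 n) h := prim_target (prim_inpW _ _ _ _) h

end words

end Pool.Agent.Helper583
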