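import Mathlib
import Pool.Agent.Helper583.Comp

set_option autoImplicit false

namespace Pool.Agent.Helper583

universe u

/-- The halting values `0` and `1` of the diagonal function are recursively inseparable. -/
theorem insep : ∃ F : ℕ →. ℕ, Nat.Partrec F ∧
    ∀ p : ℕ → Prop, ComputablePred p → (∀ n, 0 ∈ F n → p n) → (∀ n, 1 ∈ F n → ¬ p n) → False := by
  classical
  let F : ℕ →. ℕ := fun n => Nat.Partrec.Code.eval (Denumerable.ofNat Nat.Partrec.Code n) n
  have hF : Partrec F := Nat.Partrec.Code.eval_part.comp (Computable.ofNat _) Computable.id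
  refine ⟨F, Partrec.nat_iff.1 hF, ?_⟩
  intro p hp h0 h1
  obtain ⟨hd, hc⟩ := hp
  let g : ℕ → ℕ := fun n => bif decide (p n) then 1 else 0
  have hg : Computable g := Computable.cond hc (Computable.const 1) (Computable.const 0)
  obtain ⟨c, hcode⟩ := Nat.Partrec.Code.exists_code.1 (Partrec.nat_iff.1 hg.partrec)
  have hn : F (Encodable.encode c) = Part.some (g (Encodable.encode c)) := by
    simp only [F, Denumerable.ofNat_encode, hcode]
    rfl
  by_cases hpn : p (Encodable.encode c)
  · refine h1 _ ?_ hpn
    rw [hn]
    simp [g, hpn]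
  · refine hpn (h0 _ ?_)
    rw [hn]
    simp [g, hpn]

/-- lifting of an action to another universe -/
def liftA {s : Type} (α : Bool → s → s) (k : Bool) (m : ULift.{u} s) : ULift.{u} s :=
  ⟨α k m.down⟩

theorem actW_liftA {s : Type} (α : Bool → s → s) (g : List Bool) (m : ULift.{u} s) :
    actW (liftA α) g m = ⟨actW α g m.down⟩ := by
  induction g generalizing m with
  | nil => rfl
  | cons k g ih => rw [actW_cons, ih]; rfl

/-- The heart of the matter: there are a list of words and a computable sequence of words
such that no decidable property separates the expressible ones from the non-expressible ones.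
Expressibility is given by an arbitrary family of predicates between the two bounds. -/
theorem main_insep (P : Word → Word → List Word → Prop)
    (hP : ComputablePred fun p : Word × Word × List Word => P p.1 p.2.1 p.2.2)
    (hup : ∀ (B : Word) (Bs : List Word) (A : Word),
      (∀ (G : Type u) [Group G] (E : Word → Prop), ClosedFor G (B :: Bs) E → E A) → P A B Bs)
    (hlow : ∀ (s : Type u) [Finite s] (α : Bool → s → s) (B : Word) (Bs : List Word) (A : Word),
      (∀ B' ∈ B :: Bs, Good α B') → P A B Bs → Good α A) : False := by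
  obtain ⟨F, hF, hsep⟩ := insep
  obtain ⟨R, c1, c2, d0, d1, h, hR, hc1, hh, hn⟩ := exists_system F hF
  obtain ⟨B, Bs, hB⟩ : ∃ B Bs, allWords R = B :: Bs := ⟨_, _, rfl⟩
  refine hsep (fun n => P (target (inpW c1 c2 d0 d1 n) h) B Bs) ?_ ?_ ?_
  · obtain ⟨hd, hc⟩ := hP
    refine ⟨fun n => hd (target (inpW c1 c2 d0 d1 n) h, B, Bs), ?_⟩
    exact hc.comp (Computable.pair (prim_main c1 c2 d0 d1 h).to_comp (Computable.const (B, Bs)))
  · intro n h0
    refine hup B Bs _ fun G _ E hE => ?_
    rw [← hB] at hE
    exact target_mem hE ((hn n).1 h0)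
  · intro n h1 hPn
    obtain ⟨s, hs, α, m, hrel, hne⟩ := (hn n).2 h1
    have hfin : Finite (ULift.{u} s) := inferInstance
    refine target_not_good (liftA.{u} α) (a := inpW c1 c2 d0 d1 n) (b := h) ?_ hh ⟨m⟩ ?_
      (hlow (ULift.{u} s) (liftA α) B Bs _ ?_ hPn)
    · unfold inpW
      simp [hc1]
    · rw [actW_liftA, actW_liftA]
      intro e
      exact hne (congrArg ULift.down e)
    · rw [← hB]
      refine good_all (liftA α) R fun p hp => ⟨hR p hp, fun m => ?_⟩
      rw [actW_liftA, actW_liftA, hrel p hp]

end Pool.Agent.Helper583
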