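import Mathlib

/-!
Agreement distance between words and sequences.
-/

namespace Pool.Agent.Helper583.TC

open scoped Classical in
/-- `u` and `v` are defined and agree below `n`. -/
def Ag (u v : ℕ → Option ℕ) (n : ℕ) : Prop := ∀ i < n, u i = v i ∧ u i ≠ none

theorem Ag.mono {u v : ℕ → Option ℕ} {m n : ℕ} (h : Ag u v n) (hmn : m ≤ n) : Ag u v m :=
  fun i hi => h i (lt_of_lt_of_le hi hmn)

theorem Ag.symm {u v : ℕ → Option ℕ} {n : ℕ} (h : Ag u v n) : Ag v u n :=
  fun i hi => ⟨(h i hi).1.symm, (h i hi).1 ▸ (h i hi).2⟩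

theorem Ag.trans {u v w : ℕ → Option ℕ} {n : ℕ} (h : Ag u v n) (h' : Ag v w n) : Ag u w n :=
  fun i hi => ⟨(h i hi).1.trans (h' i hi).1, (h i hi).2⟩

theorem Ag.zero (u v : ℕ → Option ℕ) : Ag u v 0 := fun i hi => absurd hi (by omega)

open scoped Classical in
/-- The distance `2 ^ (- length of agreement)`. -/
noncomputable def dl (u v : ℕ → Option ℕ) : ℝ :=
  if h : ∃ n, ¬ Ag u v (n + 1) then (1 / 2) ^ Nat.find h else 0

theorem dl_le_iff {u v : ℕ → Option ℕ} {n : ℕ} : dl u v ≤ (1 / 2) ^ n ↔ Ag u v n := by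
  classical
  unfold dl
  split_ifs with h
  · constructor
    · intro h1
      have h2 : n ≤ Nat.find h := by
        by_contra hc
        push Not at hc
        have : ((1 : ℝ) / 2) ^ n < (1 / 2) ^ Nat.find h :=
          pow_lt_pow_right_of_lt_one₀ (by norm_num) (by norm_num) hc
        linarith
      rcases Nat.eq_zero_or_pos n with h0 | h0
      · subst h0; exact Ag.zero _ _
      · obtain ⟨m, rfl⟩ : ∃ m, n = m + 1 := ⟨n - 1, by omega⟩
        have := Nat.find_min h (m := m) (by omega)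
        exact not_not.1 this
    · intro h1
      apply pow_le_pow_of_le_one (by norm_num) (by norm_num)
      by_contra hc
      push Not at hc
      exact Nat.find_spec h (h1.mono hc)
  · push Not at h
    constructor
    · intro _
      rcases Nat.eq_zero_or_pos n with h0 | h0
      · subst h0; exact Ag.zero _ _
      · obtain ⟨m, rfl⟩ : ∃ m, n = m + 1 := ⟨n - 1, by omega⟩
        exact h m
    · intro _; positivity

theorem dl_nonneg (u v : ℕ → Option ℕ) : 0 ≤ dl u v := by
  unfold dl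
  split_ifs
  · positivity
  · exact le_rfl

theorem dl_le_one (u v : ℕ → Option ℕ) : dl u v ≤ 1 := by
  simpa using (dl_le_iff (n := 0)).2 (Ag.zero u v)

/-- a value of `dl` is `0` or a power of `1/2` -/
theorem dl_cases (u v : ℕ → Option ℕ) : (dl u v = 0 ∧ ∀ n, Ag u v n) ∨
    ∃ n, dl u v = (1 / 2) ^ n ∧ Ag u v n ∧ ¬ Ag u v (n + 1) := by
  classical
  by_cases h : ∃ n, ¬ Ag u v (n + 1)
  · right
    refine ⟨Nat.find h, ?_, ?_, Nat.find_spec h⟩
    · unfold dl; rw [dif_pos h]
    · apply dl_le_iff.1; unfold dl; rw [dif_pos h]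
  · left
    constructor
    · unfold dl; rw [dif_neg h]
    · intro n
      apply dl_le_iff.1; unfold dl; rw [dif_neg h]; positivity

theorem dl_symm (u v : ℕ → Option ℕ) : dl u v = dl v u := by
  have key : ∀ u v : ℕ → Option ℕ, dl u v ≤ dl v u := by
    intro u v
    rcases dl_cases v u with ⟨h0, h⟩ | ⟨n, h1, h2, _⟩
    · rcases dl_cases u v with ⟨h0', _⟩ | ⟨m, h1', h2', h3'⟩
      · rw [h0, h0']
      · exact absurd ((h (m + 1)).symm) h3'
    · rw [h1]; exact dl_le_iff.2 h2.symm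
  exact le_antisymm (key u v) (key v u)

theorem dl_ultra (u v w : ℕ → Option ℕ) : dl u w ≤ max (dl u v) (dl v w) := by
  rcases dl_cases u v with ⟨h0, h⟩ | ⟨n, h1, h2, _⟩
  · rcases dl_cases v w with ⟨h0', h'⟩ | ⟨m, h1', h2', _⟩
    · rcases dl_cases u w with ⟨h0'', _⟩ | ⟨k, _, _, h3⟩
      · rw [h0, h0'']; simp [dl_nonneg]
      · exact absurd ((h (k+1)).trans (h' (k+1))) h3
    · exact le_max_of_le_right (h1' ▸ dl_le_iff.2 ((h m).trans h2'))
  · rcases dl_cases v w with ⟨h0', h'⟩ | ⟨m, h1', h2', _⟩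
    · exact le_max_of_le_left (h1 ▸ dl_le_iff.2 (h2.trans (h' n)))
    · rcases le_total n m with hnm | hnm
      · exact le_max_of_le_left (h1 ▸ dl_le_iff.2 (h2.trans (h2'.mono hnm)))
      · exact le_max_of_le_right (h1' ▸ dl_le_iff.2 ((h2.mono hnm).trans h2'))

/-- a word as a partial sequence -/
def tl (l : List ℕ) : ℕ → Option ℕ := fun i => l[i]?

/-- a sequence as a partial sequence -/
def tz (z : ℕ → ℕ) : ℕ → Option ℕ := fun i => some (z i)

theorem Ag_tl_length {l : List ℕ} {v : ℕ → Option ℕ} {n : ℕ} (h : Ag (tl l) v n) :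
    n ≤ l.length := by
  by_contra hc
  push Not at hc
  have := (h l.length hc).2
  simp [tl] at this

theorem dl_tl_ge (l : List ℕ) (v : ℕ → Option ℕ) : (1 / 2) ^ l.length ≤ dl (tl l) v := by
  rcases dl_cases (tl l) v with ⟨_, h⟩ | ⟨n, h1, h2, _⟩
  · have := Ag_tl_length (h (l.length + 1)); omega
  · rw [h1]
    exact pow_le_pow_of_le_one (by norm_num) (by norm_num) (Ag_tl_length h2)

theorem dl_nil (v : ℕ → Option ℕ) : dl (tl []) v = 1 := by
  apply le_antisymm (dl_le_one _ _)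
  simpa using dl_tl_ge [] v

theorem dl_tz_eq_zero {z z' : ℕ → ℕ} (h : dl (tz z) (tz z') = 0) : z = z' := by
  funext i
  have : Ag (tz z) (tz z') (i + 1) := dl_le_iff.1 (by rw [h]; positivity)
  have := (this i (by omega)).1
  simpa [tz] using this

theorem dl_self (z : ℕ → ℕ) : dl (tz z) (tz z) = 0 := by
  rcases dl_cases (tz z) (tz z) with ⟨h, _⟩ | ⟨n, _, _, h⟩
  · exact h
  · exact absurd (fun i _ => ⟨rfl, by simp [tz]⟩) h

/-- pad a word with zeros -/
def pad (l : List ℕ) : ℕ → ℕ := fun i => l.getD i 0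

theorem Ag_pad (l : List ℕ) : Ag (tl l) (tz (pad l)) l.length := by
  intro i hi
  simp [tl, tz, pad, hi]

theorem dl_pad_le (l : List ℕ) (v : ℕ → Option ℕ) : dl (tl l) (tz (pad l)) ≤ dl (tl l) v :=
  le_trans (dl_le_iff.2 (Ag_pad l)) (dl_tl_ge l v)

theorem dl_head {l l' : List ℕ} (h : l.head? ≠ l'.head?) : dl (tl l) (tl l') = 1 := by
  apply le_antisymm (dl_le_one _ _)
  rcases dl_cases (tl l) (tl l') with ⟨_, h'⟩ | ⟨n, h1, h2, _⟩
  · exfalso
    have := (h' 1 0 (by omega)).1
    apply h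
    simpa [tl, List.head?_eq_getElem?] using this
  · rcases Nat.eq_zero_or_pos n with h0 | h0
    · subst h0; rw [h1]; simp
    · exfalso
      have := (h2 0 h0).1
      apply h
      simpa [tl, List.head?_eq_getElem?] using this

end Pool.Agent.Helper583.TC
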