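import Pool.Agent.Helper583.TCMetric

/-!
Ideal points, basic estimates.
-/

namespace Pool.Agent.Helper583.TC

open Filter Topology

variable {G : Gd}

/-- prepend a finite sequence of edges -/
def consL (t : List ℕ) (P : Pt G) : Pt G := t.foldr cons P

@[simp] theorem consL_nil (P : Pt G) : consL [] P = P := rfl
@[simp] theorem consL_cons (e : ℕ) (t : List ℕ) (P : Pt G) :
    consL (e :: t) P = cons e (consL t P) := rfl

theorem consL_append (t t' : List ℕ) (P : Pt G) : consL (t ++ t') P = consL t (consL t' P) := by
  induction t with
  | nil => rfl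
  | cons e t ih => simp [ih]

/-- the ideal points -/
def cpt (G : Gd) (j : ℕ) : Pt G :=
  consL (Denumerable.ofNat (List ℕ × List ℕ) j).1
    (wp (pad (Denumerable.ofNat (List ℕ × List ℕ) j).2))

theorem cpt_encode (t l : List ℕ) : cpt G (Encodable.encode (t, l)) = consL t (wp (pad l)) := by
  simp [cpt]

theorem tau_lip (P Q : Pt G) : |tau P - tau Q| ≤ dist P Q := by
  rcases pair_cases P Q with ⟨e, P', Q', rfl, rfl⟩ | hd
  · rw [dist_same]
    refine le_trans ?_ (le_max_left _ _)
    rw [tau_cons, tau_cons]
    have h0 := abs_nonneg (tau P' - tau Q')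
    have h1 := le_abs_self (tau P' - tau Q')
    have h2 := neg_abs_le (tau P' - tau Q')
    rw [abs_le]
    split_ifs <;> constructor <;> linarith
  · rw [dist_df hd]
    obtain ⟨i, j, h⟩ := D0_cases P Q
    rw [h]
    have key : ∀ (P : Pt G) (i : Bool) (v : ℕ → Option ℕ), |tau P - 1 / 2| ≤
        max (es P i) (dl (el P i) v) / 2 := by
      intro P i v
      rcases pt_cases P with ⟨e, P', rfl⟩ | ⟨z, rfl⟩
      · have t0 := tau_nonneg P'
        have t1 := tau_le_one P'
        rw [tau_cons, es_cons, el_cons]
        by_cases ha : G.a e = true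
        · simp only [ha, if_true]
          cases i
          · simp only [Bool.false_eq_true, if_false]
            rw [G.ha e ha, dl_nil]
            have : (1:ℝ) ≤ max (tau P') 1 := le_max_right _ _
            rw [abs_le]; constructor <;> linarith
          · simp only [if_true]
            have := le_max_left (1 - tau P') (dl (tl (G.R e)) v)
            rw [abs_le]; constructor <;> linarith
        · by_cases hb : G.b e = true
          · simp only [ha, hb, if_true, Bool.false_eq_true, if_false]
            cases i
            · simp only [Bool.false_eq_true, if_false]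
              have := le_max_left (tau P') (dl (tl (G.L e)) v)
              rw [abs_le]; constructor <;> linarith
            · simp only [if_true]
              rw [G.hb e hb, dl_nil]
              have : (1:ℝ) ≤ max (1 - tau P') 1 := le_max_right _ _
              rw [abs_le]; constructor <;> linarith
          · simp only [ha, hb, if_false, Bool.false_eq_true]
            simp only [sub_self, abs_zero]
            have := dl_nonneg (if i = true then tl (G.R e) else tl (G.L e)) v
            have := le_max_right (if i = true then 1 - tau P' else tau P')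
              (dl (if i = true then tl (G.R e) else tl (G.L e)) v)
            linarith
      · rw [tau_wp, es_wp]
        simp only [sub_self, abs_zero]
        have := le_max_left 0 (dl (el (wp z : Pt G) i) v)
        linarith
    have k1 := key P i (el Q j)
    have k2 := key Q j (el P i)
    unfold D1
    rw [dl_symm (el Q j)] at k2
    have m1 : max (es P i) (dl (el P i) (el Q j)) ≤
        max (es P i) (max (dl (el P i) (el Q j)) (es Q j)) :=
      max_le (le_max_left _ _) (le_max_of_le_right (le_max_left _ _))
    have m2 : max (es Q j) (dl (el P i) (el Q j)) ≤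
        max (es P i) (max (dl (el P i) (el Q j)) (es Q j)) :=
      max_le (le_max_of_le_right (le_max_right _ _)) (le_max_of_le_right (le_max_left _ _))
    have : tau P - tau Q = (tau P - 1 / 2) - (tau Q - 1 / 2) := by ring
    rw [this]
    refine le_trans (abs_sub _ _) ?_
    linarith

theorem dist_cons_le (e : ℕ) (P Q : Pt G) : dist (cons e P) (cons e Q) ≤ dist P Q := by
  rw [dist_same]
  refine max_le (tau_lip P Q) ?_
  have := ce_le_half (G := G) e
  have := ce_pos (G := G) e
  have := dist_nonneg (x := P) (y := Q)
  nlinarith

theorem ce_dist_le (e : ℕ) (P Q : Pt G) : ce G e * dist P Q ≤ dist (cons e P) (cons e Q) := by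
  rw [dist_same]; exact le_max_right _ _

theorem dist_consL_le (t : List ℕ) (P Q : Pt G) : dist (consL t P) (consL t Q) ≤ dist P Q := by
  induction t with
  | nil => exact le_rfl
  | cons e t ih => exact le_trans (dist_cons_le e _ _) ih

/-- points of different edges are far -/
theorem dist_cons_df {e : ℕ} {P Q : Pt G} (h : Df (cons e P) Q) :
    2 * ce G e ≤ dist (cons e P) Q := by
  rw [dist_df h]
  obtain ⟨i, j, h⟩ := D0_cases (cons e P) Q
  rw [h]
  exact le_trans (ce_le_dl e P i (el Q j)) (le_max_of_le_right (le_max_left _ _))

theorem eq_cons_of_dist {e : ℕ} {P Q : Pt G} (h : dist (cons e P) Q < 2 * ce G e) :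
    ∃ Q', Q = cons e Q' := by
  rcases pair_cases (cons e P) Q with ⟨e', P', Q', h1, rfl⟩ | hd
  · obtain ⟨rfl, _⟩ := cons_inj.1 h1
    exact ⟨Q', rfl⟩
  · exact absurd (dist_cons_df hd) (not_le.2 h)

/-- common prefixes make points close -/
theorem tau_prefix (t : List ℕ) (P Q : Pt G) :
    |tau (consL t P) - tau (consL t Q)| ≤ (1 / 2) ^ t.length := by
  induction t with
  | nil => simpa using tau_sub_le_one P Q
  | cons e t ih =>
    simp only [consL_cons, List.length_cons, pow_succ]
    rw [tau_cons, tau_cons]
    have h0 := abs_nonneg (tau (consL t P) - tau (consL t Q))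
    have h1 := le_abs_self (tau (consL t P) - tau (consL t Q))
    have h2 := neg_abs_le (tau (consL t P) - tau (consL t Q))
    rw [abs_le]
    split_ifs <;> constructor <;> linarith

theorem dist_prefix (t : List ℕ) (P Q : Pt G) :
    dist (consL t P) (consL t Q) ≤ 2 * (1 / 2) ^ t.length := by
  induction t with
  | nil =>
    have := dist_le_one P Q
    simp only [consL_nil, List.length_nil, pow_zero]; linarith
  | cons e t ih =>
    simp only [consL_cons, List.length_cons, pow_succ]
    rw [dist_same]
    have h1 := tau_prefix t P Q
    have h2 := ce_le_half (G := G) e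
    have h3 := ce_pos (G := G) e
    have h4 := dist_nonneg (x := consL t P) (y := consL t Q)
    refine max_le (by linarith) ?_
    nlinarith

theorem dist_wp_wp (z z' : ℕ → ℕ) : dist (wp z : Pt G) (wp z') = dl (tz z) (tz z') := by
  rw [dist_df (df_wp_left z _), D0_wp]

/-- the distance to a limit point -/
theorem dist_wp_cons_le {z : ℕ → ℕ} {e : ℕ} {P : Pt G} (i : Bool) :
    dist (cons e P) (wp z) ≤ max (es (cons e P) i) (dl (el (cons e P) i) (tz z)) := by
  rw [dist_df (df_wp_right z _)]
  refine le_trans (D0_le _ _ i true) ?_
  unfold D1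
  rw [es_wp, el_wp]
  refine max_le (le_max_left _ _) (max_le (le_max_right _ _) ?_)
  exact le_max_of_le_left (es_nonneg _ _)

theorem dist_wp_cons {z : ℕ → ℕ} {e : ℕ} {P : Pt G} :
    ∃ i, dist (cons e P) (wp z) = max (es (cons e P) i) (dl (el (cons e P) i) (tz z)) := by
  rw [dist_df (df_wp_right z _)]
  obtain ⟨i, j, h⟩ := D0_cases (cons e P) (wp z)
  refine ⟨i, ?_⟩
  rw [h]
  unfold D1
  rw [es_wp, el_wp]
  rw [max_eq_left (dl_nonneg _ _)]

end Pool.Agent.Helper583.TC
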