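import Pool.Agent.Helper583.TCStmt

/-!
Topological categoricity of Baire space: definitions used in the proof.
-/

namespace Pool.Agent.Helper583.TC

/-- A co-analytic class of bit sequences given by a decidable relation `W` between words. -/
def Cls (W : List Bool × List ℕ → Bool) (y : ℕ → Bool) : Prop :=
  ∀ x : ℕ → ℕ, ∃ n, W (pre y n, pre x n) = true

/-- bit sequence as a number sequence -/
def nb (y : ℕ → Bool) : ℕ → ℕ := fun n => (y n).toNat

/-- even and odd part of a bit sequence -/
def evn (y : ℕ → Bool) : ℕ → Bool := fun n => y (2 * n)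
def odn (y : ℕ → Bool) : ℕ → Bool := fun n => y (2 * n + 1)

/-- a word of bits from its number -/
def dw (n : ℕ) : List Bool := (Encodable.decode (α := List Bool) n).getD []

/-- iterate a bit function, newest bit first -/
def st (S : List Bool → Bool) (s₀ : List Bool) : ℕ → List Bool
  | 0 => s₀
  | k + 1 => S (st S s₀ k) :: st S s₀ k

/-- the bit sequence generated by `S` from the (reversed) word `s₀` -/
def yof (S : List Bool → Bool) (s₀ : List Bool) (n : ℕ) : Bool :=
  (st S s₀ (n + 1)).reverse.getD n false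

/-! ### comparison of trees -/

/-- tree of unsecured words -/
def Tm (W : List Bool × List ℕ → Bool) (y : ℕ → Bool) (σ : List ℕ) : Prop :=
  ∀ m ≤ σ.length, W (pre y m, σ.take m) = false

/-- length preserving monotone map of words given by `c` -/
def gm (c : List ℕ → ℕ) (ζ : List ℕ) : List ℕ :=
  (List.range ζ.length).map fun i => c (ζ.take (i + 1))

/-- `c` maps the part of the tree of `z` above `σ` into the part of the tree of `y` above `τ` -/
def Le (W : List Bool × List ℕ → Bool) (z y : ℕ → Bool) (σ τ : List ℕ) (c : List ℕ → ℕ) : Prop :=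
  ∀ ζ : List ℕ, ζ ≠ [] → Tm W z (σ ++ ζ) → Tm W y (τ ++ gm c ζ)

/-- the `i`-th word; the `0`-th word is empty -/
def nd (i : ℕ) : List ℕ := Denumerable.ofNat (List ℕ) i

/-- `z` comes before `y`: comparison of ranks and bits, witnessed by maps -/
def Lt (W : List Bool × List ℕ → Bool) (z y : ℕ → Bool) : Prop :=
  ∃ (n : ℕ) (c : ℕ → List ℕ → ℕ),
    (∀ i < n, z i = y i ∧ Le W z y (nd i) (nd i) (c i)) ∧
    ((z n = false ∧ y n = true ∧ Le W z y (nd n) (nd n) (c n)) ∨
      ∃ j, Tm W y (nd n ++ [j]) ∧ Le W z y (nd n) (nd n ++ [j]) (c n))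

/-! ### codes of homeomorphisms -/

def cd (i k j l : ℕ) : ℕ := Nat.pair (Nat.pair i k) (Nat.pair j l)

/-- `F` tells (code `i k j l`) that the ball of centre `i`, radius `2^-k` goes into the closed ball
of centre `j`, radius `2^-l`; every point is covered at every precision -/
def Cov (M : Pres) (F : ℕ → Bool) : Prop :=
  ∀ (x : M.Y) (l : ℕ), ∃ i k j, F (cd i k j l) = true ∧ dist (M.c i) x < 1 / 2 ^ k

def Con (M N : Pres) (F : ℕ → Bool) : Prop :=
  ∀ i k j l i' k' j' l' m, F (cd i k j l) = true → F (cd i' k' j' l') = true →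
    dist (M.c m) (M.c i) < 1 / 2 ^ k → dist (M.c m) (M.c i') < 1 / 2 ^ k' →
      dist (N.c j) (N.c j') ≤ 1 / 2 ^ l + 1 / 2 ^ l'

def Inv (M N : Pres) (F G : ℕ → Bool) : Prop :=
  ∀ i k j l j' l' i' k' m, F (cd i k j l) = true → G (cd j' l' i' k') = true →
    dist (N.c j) (N.c j') + 1 / 2 ^ l < 1 / 2 ^ l' → dist (M.c m) (M.c i) < 1 / 2 ^ k →
      dist (M.c m) (M.c i') ≤ 1 / 2 ^ k'

/-- `F`, `G` code a homeomorphism and its inverse -/
def Good (M N : Pres) (F G : ℕ → Bool) : Prop :=
  Cov M F ∧ Con M N F ∧ Cov N G ∧ Con N M G ∧ Inv M N F G ∧ Inv N M G F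

end Pool.Agent.Helper583.TC
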