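import Pool.Agent.Helper583.TCBasic
import Pool.Agent.Helper583.TCDefs

/-!
The gadget of a co-analytic class and the sides of its points.
-/

namespace Pool.Agent.Helper583.TC

open Filter Topology

/-- reversed initial segment -/
def rp {A : Type} (x : ℕ → A) : ℕ → List A
  | 0 => []
  | n + 1 => x n :: rp x n

theorem rp_length {A : Type} (x : ℕ → A) (n : ℕ) : (rp x n).length = n := by
  induction n with
  | zero => rfl
  | succ n ih => simp [rp, ih]

theorem pre_succ {A : Type} (x : ℕ → A) (n : ℕ) : pre x (n + 1) = pre x n ++ [x n] := by
  simp [pre, List.range_succ]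

theorem rp_reverse {A : Type} (x : ℕ → A) (n : ℕ) : (rp x n).reverse = pre x n := by
  induction n with
  | zero => rfl
  | succ n ih => simp [rp, pre_succ, ih]

theorem rp_map {A B : Type} (g : A → B) (x : ℕ → A) (n : ℕ) :
    (rp x n).map g = rp (fun i => g (x i)) n := by
  induction n with
  | zero => rfl
  | succ n ih => simp [rp, ih]

theorem pre_take {A : Type} (x : ℕ → A) {m n : ℕ} (h : m ≤ n) : (pre x n).take m = pre x m := by
  simp [pre, ← List.map_take, List.take_range, Nat.min_eq_left h]

theorem pre_map {A B : Type} (g : A → B) (x : ℕ → A) (n : ℕ) :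
    (pre x n).map g = pre (fun i => g (x i)) n := by
  simp [pre]

/-- tree of unsecured words; the word is reversed and codes pairs (bit, number) -/
def Tr (W : List Bool × List ℕ → Bool) (ζ : List ℕ) : Bool :=
  (List.range (ζ.length + 1)).all fun m =>
    !W ((ζ.reverse.take m).map Nat.bodd, (ζ.reverse.take m).map Nat.div2)

theorem Tr_iff (W : List Bool × List ℕ → Bool) (ζ : List ℕ) : Tr W ζ = true ↔
    ∀ m ≤ ζ.length, W ((ζ.reverse.take m).map Nat.bodd, (ζ.reverse.take m).map Nat.div2) = false := by
  unfold Tr
  rw [List.all_eq_true]
  constructor
  · intro h m hm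
    have := h m (by simp; omega)
    simpa using this
  · intro h m hm
    have : m ≤ ζ.length := by simp at hm; omega
    rw [h m this]; rfl

theorem Tr_append {W : List Bool × List ℕ → Bool} {ζ₁ ζ : List ℕ} (h : Tr W (ζ₁ ++ ζ) = true) :
    Tr W ζ = true := by
  rw [Tr_iff] at h ⊢
  intro m hm
  have := h m (by simp; omega)
  rw [List.reverse_append, List.take_append_of_le_length (by simpa using hm)] at this
  exact this

theorem Tr_rp {W : List Bool × List ℕ → Bool} (z : ℕ → ℕ) (n : ℕ) : Tr W (rp z n) = true ↔
    ∀ m ≤ n, W (pre (fun i => (z i).bodd) m, pre (fun i => (z i).div2) m) = false := by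
  rw [Tr_iff, rp_length]
  constructor
  · intro h m hm
    have := h m hm
    rwa [rp_reverse, pre_take z hm, pre_map, pre_map] at this
  · intro h m hm
    rw [rp_reverse, pre_take z hm, pre_map, pre_map]
    exact h m hm

/-- the part of a reversed word of bits below the last occurrence of `c` -/
def base (c : Bool) : List Bool → Option (List Bool)
  | [] => none
  | b :: s => if b = c then some s else base c s

/-- label of an end at a base point or at an end of the gadget -/
def blab (c : Bool) (s : List Bool) (i : ℕ) : List ℕ :=
  match base c s with
  | none => []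
  | some s' => 0 :: Encodable.encode s' :: List.replicate i 0

/-- the number of the edge `(ζ, i, c)` -/
def ed (ζ : List ℕ) (i : ℕ) (c : Bool) : ℕ := Encodable.encode (ζ, i, c.toNat)

/-- the data of an edge -/
def de (e : ℕ) : List ℕ × ℕ × Bool :=
  ((Denumerable.ofNat (List ℕ × ℕ × ℕ) e).1, (Denumerable.ofNat (List ℕ × ℕ × ℕ) e).2.1,
    (Denumerable.ofNat (List ℕ × ℕ × ℕ) e).2.2.bodd)

@[simp] theorem de_ed (ζ : List ℕ) (i : ℕ) (c : Bool) : de (ed ζ i c) = (ζ, i, c) := by
  cases c <;> simp [de, ed]

@[simp] theorem dw_encode (s : List Bool) : dw (Encodable.encode s) = s := by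
  simp [dw]

def gL (W : List Bool × List ℕ → Bool) (e : ℕ) : List ℕ :=
  if Tr W (de e).1 then
    if (de e).2.2 then 1 :: (de e).1.reverse
    else blab true ((de e).1.map Nat.bodd) (de e).2.1
  else []

def gR (W : List Bool × List ℕ → Bool) (e : ℕ) : List ℕ :=
  if Tr W (de e).1 then
    if (de e).2.2 then blab false ((de e).1.map Nat.bodd) (de e).2.1
    else 1 :: (de e).1.reverse
  else []

def ga (W : List Bool × List ℕ → Bool) (e : ℕ) : Bool :=
  Tr W (de e).1 && (!(de e).2.2 && (base true ((de e).1.map Nat.bodd)).isNone)

def gb (W : List Bool × List ℕ → Bool) (e : ℕ) : Bool :=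
  Tr W (de e).1 && ((de e).2.2 && (base false ((de e).1.map Nat.bodd)).isNone)

/-- The gadget of the class of `W`. -/
def GW (W : List Bool × List ℕ → Bool) : Gd where
  L := gL W
  R := gR W
  a := ga W
  b := gb W
  ha e h := by
    simp only [ga, Bool.and_eq_true, Option.isNone_iff_eq_none, Bool.not_eq_true'] at h
    simp [gL, h.1, h.2.1, blab, h.2.2]
  hb e h := by
    simp only [gb, Bool.and_eq_true, Option.isNone_iff_eq_none] at h
    simp [gR, h.1, h.2.1, blab, h.2.2]
  hab e h := by
    simp only [ga, Bool.and_eq_true, Option.isNone_iff_eq_none, Bool.not_eq_true'] at h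
    simp [gb, h.2.1]
  hd e := by
    unfold gL gR
    by_cases h : Tr W (de e).1 = true
    · rw [if_pos h, if_pos h]
      by_cases hc : (de e).2.2 = true
      · rw [if_pos hc, if_pos hc]
        right
        unfold blab
        split <;> simp
      · rw [if_neg hc, if_neg hc]
        unfold blab
        split
        · left; rfl
        · right; simp
    · rw [if_neg h]; simp

variable {W : List Bool × List ℕ → Bool}

/-! ### comparison of a reversed word with a sequence of bits -/

def cp (y : ℕ → Bool) : List Bool → Ordering
  | [] => Ordering.eq
  | b :: s => match cp y s with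
    | Ordering.eq => compare b (y s.length)
    | o => o

theorem cp_append {y : ℕ → Bool} (s₁ : List Bool) {s : List Bool} (h : cp y s ≠ Ordering.eq) :
    cp y (s₁ ++ s) = cp y s := by
  induction s₁ with
  | nil => rfl
  | cons b s₁ ih =>
    simp only [List.cons_append, cp, ih]

theorem cp_rp_eq {y z : ℕ → Bool} {n : ℕ} (h : cp y (rp z n) = Ordering.eq) : ∀ i < n, z i = y i := by
  induction n with
  | zero => intro i hi; omega
  | succ n ih =>
    simp only [rp, cp] at h
    have h0 : cp y (rp z n) = Ordering.eq := by
      revert h; split
      · intro _; assumption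
      · intro h; exact absurd h (by assumption)
    rw [h0, rp_length] at h
    intro i hi
    rcases Nat.lt_succ_iff_lt_or_eq.1 hi with h1 | h1
    · exact ih h0 i h1
    · subst h1
      simp only at h
      revert h
      cases z i <;> cases y i <;> simp [compare]

theorem base_true_cp {y : ℕ → Bool} {s s' : List Bool} (h : base true s = some s') :
    (cp y s ≠ Ordering.gt ↔ cp y (false :: s') = Ordering.lt) := by
  induction s with
  | nil => simp [base] at h
  | cons b s ih =>
    simp only [base] at h
    cases b
    · simp only [Bool.false_eq_true, if_false] at h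
      rw [← ih h]
      simp only [cp]
      rcases hs : cp y s with _ | _ | _
      · simp
      · cases y s.length <;> simp [compare]
      · simp
    · simp only [if_true, Option.some.injEq] at h
      subst h
      simp only [cp]
      rcases hs : cp y s with _ | _ | _
      · simp
      · cases y s.length <;> simp [compare]
      · simp

theorem base_false_cp {y : ℕ → Bool} {s s' : List Bool} (h : base false s = some s') :
    (cp y s = Ordering.lt ↔ cp y (false :: s') = Ordering.lt) := by
  induction s with
  | nil => simp [base] at h
  | cons b s ih =>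
    simp only [base] at h
    cases b
    · simp only [if_true, Option.some.injEq] at h
      subst h
      exact Iff.rfl
    · simp only [Bool.true_eq_false, if_false] at h
      rw [← ih h]
      simp only [cp]
      rcases hs : cp y s with _ | _ | _
      · simp
      · cases y s.length <;> simp [compare]
      · simp

theorem base_true_none {y : ℕ → Bool} {s : List Bool} (h : base true s = none) :
    cp y s ≠ Ordering.gt := by
  induction s with
  | nil => simp [cp]
  | cons b s ih =>
    simp only [base] at h
    cases b
    · simp only [Bool.false_eq_true, if_false] at h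
      have := ih h
      simp only [cp]
      rcases hs : cp y s with _ | _ | _
      · simp
      · cases y s.length <;> simp [compare]
      · exact absurd hs this
    · simp at h

theorem base_false_none {y : ℕ → Bool} {s : List Bool} (h : base false s = none) :
    cp y s ≠ Ordering.lt := by
  induction s with
  | nil => simp [cp]
  | cons b s ih =>
    simp only [base] at h
    cases b
    · simp at h
    · simp only [Bool.true_eq_false, if_false] at h
      have := ih h
      simp only [cp]
      rcases hs : cp y s with _ | _ | _
      · exact absurd hs this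
      · cases y s.length <;> simp [compare]
      · simp

/-! ### sides -/

/-- the left side of the canonical cut, for edges -/
def sE (W : List Bool × List ℕ → Bool) (y : ℕ → Bool) (e : ℕ) : Prop :=
  Tr W (de e).1 = true → if (de e).2.2 then cp y ((de e).1.map Nat.bodd) = Ordering.lt
    else cp y ((de e).1.map Nat.bodd) ≠ Ordering.gt

/-- the left side of the canonical cut, for limit points -/
def sZ (W : List Bool × List ℕ → Bool) (y : ℕ → Bool) (z : ℕ → ℕ) : Prop :=
  (z 0 = 0 ∧ cp y (false :: dw (z 1)) = Ordering.lt) ∨
  (z 0 = 1 ∧ ∃ n, Tr W (rp (fun i => z (i + 1)) n) = true ∧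
    cp y ((rp (fun i => z (i + 1)) n).map Nat.bodd) = Ordering.lt)

/-- label of an end of an edge -/
def lab (G : Gd) (e : ℕ) (i : Bool) : List ℕ := if i then G.R e else G.L e

theorem el_cons' {G : Gd} (e : ℕ) (P : Pt G) (i : Bool) : el (cons e P) i = tl (lab G e i) := by
  rw [el_cons]; unfold lab; split_ifs <;> rfl

/-- shape of the labels -/
theorem lab_cases (e : ℕ) (i : Bool) : lab (GW W) e i = [] ∨
    (Tr W (de e).1 = true ∧ lab (GW W) e i = 1 :: (de e).1.reverse) ∨
    (Tr W (de e).1 = true ∧ ∃ s' k, base (!(de e).2.2) ((de e).1.map Nat.bodd) = some s' ∧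
      lab (GW W) e i = 0 :: Encodable.encode s' :: List.replicate k 0) := by
  by_cases h : Tr W (de e).1 = true
  · cases i
    · by_cases hc : (de e).2.2 = true
      · right; left
        exact ⟨h, by simp [lab, GW, gL, h, hc]⟩
      · simp only [Bool.not_eq_true] at hc
        rcases hb : base true ((de e).1.map Nat.bodd) with _ | s'
        · left; simp [lab, GW, gL, h, hc, blab, hb]
        · right; right
          refine ⟨h, s', (de e).2.1, ?_, ?_⟩
          · rw [hc]; exact hb
          · simp [lab, GW, gL, h, hc, blab, hb]
    · by_cases hc : (de e).2.2 = true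
      · rcases hb : base false ((de e).1.map Nat.bodd) with _ | s'
        · left; simp [lab, GW, gR, h, hc, blab, hb]
        · right; right
          refine ⟨h, s', (de e).2.1, ?_, ?_⟩
          · rw [hc]; exact hb
          · simp [lab, GW, gR, h, hc, blab, hb]
      · simp only [Bool.not_eq_true] at hc
        right; left
        exact ⟨h, by simp [lab, GW, gR, h, hc]⟩
  · left
    cases i <;> simp [lab, GW, gL, gR, h]

/-- if the label `1 :: ζ.reverse` agrees with `z` below `N + 1` then `ζ` ends with the reversed
initial segment -/
theorem label_agree {ζ : List ℕ} {z : ℕ → ℕ} {N : ℕ}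
    (h : Ag (tl (1 :: ζ.reverse)) (tz z) (N + 1)) :
    z 0 = 1 ∧ ∃ ζ₁, ζ = ζ₁ ++ rp (fun i => z (i + 1)) N := by
  have h0 := (h 0 (by omega)).1
  have hz : z 0 = 1 := by
    simp [tl, tz] at h0; exact h0.symm
  refine ⟨hz, ?_⟩
  have hl : N ≤ ζ.length := by
    have := Ag_tl_length h
    simp at this; omega
  have h1 : ζ.reverse.take N = pre (fun i => z (i + 1)) N := by
    apply List.ext_getElem?
    intro i
    rw [List.getElem?_take]
    split_ifs with hi
    · have h2 := (h (i + 1) (by omega)).1
      simp only [tl, tz, List.getElem?_cons_succ] at h2
      rw [h2]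
      simp [pre, hi]
    · simp [pre, List.getElem?_eq_none, Nat.not_lt.1 hi]
  refine ⟨(ζ.reverse.drop N).reverse, ?_⟩
  rw [← List.reverse_inj, List.reverse_append, List.reverse_reverse, rp_reverse, ← h1,
    List.take_append_drop]

/-- the sides are locally constant at limit points -/
theorem side_local {y : ℕ → Bool} (hy : Cls W y) (z : ℕ → ℕ) : ∃ n,
    (∀ e i, Ag (tl (lab (GW W) e i)) (tz z) n → (sE W y e ↔ sZ W y z)) ∧
    ∀ z', Ag (tz z) (tz z') n → (sZ W y z' ↔ sZ W y z) := by
  rcases Nat.lt_trichotomy (z 0) 1 with h0 | h0 | h0
  · -- base points
    have h0 : z 0 = 0 := by omega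
    have hS : sZ W y z ↔
        cp y (false :: dw (z 1)) = Ordering.lt := by
      unfold sZ
      simp [h0]
    refine ⟨2, ?_, ?_⟩
    · intro e i hA
      rcases lab_cases (W := W) e i with h | ⟨_, h⟩ | ⟨hT, s', k, hb, h⟩
      · rw [h] at hA
        have := Ag_tl_length hA; simp at this
      · rw [h] at hA
        have := (hA 0 (by omega)).1
        simp [tl, tz, h0] at this
      · rw [h] at hA
        have h1 := (hA 1 (by omega)).1
        simp [tl, tz] at h1
        rw [hS]
        have h2 : dw (z 1) = s' := by
          rw [← h1]; simp
        rw [h2]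
        unfold sE
        by_cases hc : (de e).2.2 = true
        · rw [hc] at hb ⊢
          simp only [hT, if_true, forall_true_left]
          exact base_false_cp hb
        · simp only [Bool.not_eq_true] at hc
          rw [hc] at hb ⊢
          simp only [hT, forall_true_left, Bool.false_eq_true, if_false]
          exact base_true_cp hb
    · intro z' hA
      have e0 : z' 0 = z 0 := by
        have := (hA 0 (by omega)).1; simpa [tz] using this.symm
      have e1 : z' 1 = z 1 := by
        have := (hA 1 (by omega)).1; simpa [tz] using this.symm
      rw [hS]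
      unfold sZ
      rw [e0, e1]
      simp [h0]
  · -- limits of the main labels
    have hS : sZ W y z ↔ ∃ n, Tr W (rp (fun i => z (i + 1)) n) = true ∧
        cp y ((rp (fun i => z (i + 1)) n).map Nat.bodd) = Ordering.lt := by
      unfold sZ
      simp [h0]
    have hrp : ∀ (z' : ℕ → ℕ) (N : ℕ), Ag (tz z) (tz z') (N + 1) → ∀ n ≤ N,
        rp (fun i => z' (i + 1)) n = rp (fun i => z (i + 1)) n := by
      intro z' N hA n hn
      induction n with
      | zero => rfl
      | succ n ih =>
        simp only [rp]
        rw [ih (by omega)]
        have := (hA (n + 1) (by omega)).1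
        simp only [tz, Option.some.injEq] at this
        rw [this]
    have hhead : ∀ (z' : ℕ → ℕ) (N : ℕ), Ag (tz z) (tz z') (N + 1) → z' 0 = 1 := by
      intro z' N hA
      have := (hA 0 (by omega)).1
      simp only [tz, Option.some.injEq] at this
      omega
    by_cases hT : ∀ n, Tr W (rp (fun i => z (i + 1)) n) = true
    · -- the bits differ from `y`
      have hne : ∃ N, cp y ((rp (fun i => z (i + 1)) N).map Nat.bodd) ≠ Ordering.eq := by
        by_contra hc
        push Not at hc
        have hyz : ∀ i, (z (i + 1)).bodd = y i := by
          intro i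
          have h1 := hc (i + 1)
          rw [rp_map] at h1
          exact cp_rp_eq h1 i (by omega)
        obtain ⟨n, hn⟩ := hy (fun i => (z (i + 1)).div2)
        have h2 := (Tr_rp (W := W) (fun i => z (i + 1)) n).1 (hT n) n le_rfl
        have h3 : (fun i => (z (i + 1)).bodd) = y := funext hyz
        rw [h3, hn] at h2
        simp at h2
      obtain ⟨N, hN⟩ := hne
      have hSZ : ∀ z' : ℕ → ℕ, z' 0 = 1 →
          rp (fun i => z' (i + 1)) N = rp (fun i => z (i + 1)) N →
          (sZ W y z' ↔ cp y ((rp (fun i => z (i + 1)) N).map Nat.bodd) = Ordering.lt) := by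
        intro z' h1 h2
        unfold sZ
        simp only [h1, one_ne_zero, false_and, false_or, true_and]
        constructor
        · rintro ⟨n, hn1, hn2⟩
          rcases le_total n N with hle | hle
          · have : ∃ l, rp (fun i => z' (i + 1)) N = l ++ rp (fun i => z' (i + 1)) n := by
              clear h2 hN
              induction N with
              | zero =>
                have : n = 0 := by omega
                subst this; exact ⟨[], rfl⟩
              | succ N ih =>
                rcases Nat.lt_or_ge n (N + 1) with h | h
                · obtain ⟨l, hl⟩ := ih (by omega)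
                  exact ⟨z' (N + 1) :: l, by simp [rp, hl]⟩
                · have : n = N + 1 := by omega
                  subst this; exact ⟨[], rfl⟩
            obtain ⟨l, hl⟩ := this
            rw [← h2, hl, List.map_append, cp_append _ (by rw [hn2]; simp), hn2]
          · have : ∃ l, rp (fun i => z' (i + 1)) n = l ++ rp (fun i => z' (i + 1)) N := by
              clear h2 hN hn1 hn2
              induction n with
              | zero =>
                have : N = 0 := by omega
                subst this; exact ⟨[], rfl⟩
              | succ n ih =>
                rcases Nat.lt_or_ge N (n + 1) with h | h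
                · obtain ⟨l, hl⟩ := ih (by omega)
                  exact ⟨z' (n + 1) :: l, by simp [rp, hl]⟩
                · have : N = n + 1 := by omega
                  subst this; exact ⟨[], rfl⟩
            obtain ⟨l, hl⟩ := this
            rw [hl, List.map_append, h2, cp_append _ hN] at hn2
            exact hn2
        · intro h3
          refine ⟨N, ?_, ?_⟩
          · rw [h2]; exact hT N
          · rw [h2]; exact h3
      refine ⟨N + 1, ?_, ?_⟩
      · intro e i hA
        rcases lab_cases (W := W) e i with h | ⟨hTe, h⟩ | ⟨_, s', k, _, h⟩
        · rw [h] at hA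
          have := Ag_tl_length hA; simp at this
        · rw [h] at hA
          obtain ⟨_, ζ₁, hζ⟩ := label_agree hA
          rw [hSZ z h0 rfl]
          have hcp : cp y ((de e).1.map Nat.bodd) =
              cp y ((rp (fun i => z (i + 1)) N).map Nat.bodd) := by
            rw [hζ, List.map_append, cp_append _ hN]
          unfold sE
          rw [hcp]
          simp only [hTe, forall_true_left]
          split_ifs
          · exact Iff.rfl
          · rcases hcc : cp y ((rp (fun i => z (i + 1)) N).map Nat.bodd) with _ | _ | _
            · simp
            · exact absurd hcc hN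
            · simp
        · rw [h] at hA
          have := (hA 0 (by omega)).1
          simp [tl, tz, h0] at this
      · intro z' hA
        rw [hSZ z h0 rfl, hSZ z' (hhead z' N hA) (hrp z' N hA N le_rfl)]
    · push Not at hT
      obtain ⟨N, hN⟩ := hT
      refine ⟨N + 1, ?_, ?_⟩
      · intro e i hA
        exfalso
        rcases lab_cases (W := W) e i with h | ⟨hTe, h⟩ | ⟨_, s', k, _, h⟩
        · rw [h] at hA
          have := Ag_tl_length hA; simp at this
        · rw [h] at hA
          obtain ⟨_, ζ₁, hζ⟩ := label_agree hA
          rw [hζ] at hTe
          exact hN (Tr_append hTe)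
        · rw [h] at hA
          have := (hA 0 (by omega)).1
          simp [tl, tz, h0] at this
      · intro z' hA
        have hz' := hhead z' N hA
        have hr := hrp z' N hA
        unfold sZ
        simp only [h0, hz', one_ne_zero, false_and, false_or, true_and]
        have hlt : ∀ n, Tr W (rp (fun i => z (i + 1)) n) = true → n < N := by
          intro n hn
          by_contra hc
          apply hN
          rw [Tr_rp] at hn ⊢
          intro m hm
          exact hn m (by omega)
        have hlt' : ∀ n, Tr W (rp (fun i => z' (i + 1)) n) = true → n < N := by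
          intro n hn
          by_contra hc
          apply hN
          rw [← hr N le_rfl]
          rw [Tr_rp] at hn ⊢
          intro m hm
          exact hn m (by omega)
        constructor
        · rintro ⟨n, h1, h2⟩
          refine ⟨n, ?_, ?_⟩
          · rw [← hr n (hlt' n h1).le]; exact h1
          · rw [← hr n (hlt' n h1).le]; exact h2
        · rintro ⟨n, h1, h2⟩
          refine ⟨n, ?_, ?_⟩
          · rw [hr n (hlt n h1).le]; exact h1
          · rw [hr n (hlt n h1).le]; exact h2
  · -- other points
    refine ⟨1, ?_, ?_⟩
    · intro e i hA
      exfalso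
      rcases lab_cases (W := W) e i with h | ⟨_, h⟩ | ⟨_, s', k, _, h⟩
      · rw [h] at hA
        have := Ag_tl_length hA; simp at this
      · rw [h] at hA
        have := (hA 0 (by omega)).1
        simp [tl, tz] at this; omega
      · rw [h] at hA
        have := (hA 0 (by omega)).1
        simp [tl, tz] at this; omega
    · intro z' hA
      have := (hA 0 (by omega)).1
      simp only [tz, Option.some.injEq] at this
      unfold sZ
      constructor
      · rintro (⟨h, _⟩ | ⟨h, _⟩) <;> omega
      · rintro (⟨h, _⟩ | ⟨h, _⟩) <;> omega

end Pool.Agent.Helper583.TC
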