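import Pool.Agent.Helper583.TCZero

/-!
Every clopen set separating two base points computes a member of the class.
-/

namespace Pool.Agent.Helper583.TC

open Filter Topology

theorem st_length (S : List Bool → Bool) (s₀ : List Bool) (k : ℕ) :
    (st S s₀ k).length = s₀.length + k := by
  induction k with
  | zero => rfl
  | succ k ih => simp [st, ih]; omega

theorem st_add (S : List Bool → Bool) (s₀ : List Bool) (k j : ℕ) :
    ∃ l, st S s₀ (k + j) = l ++ st S s₀ k := by
  induction j with
  | zero => exact ⟨[], rfl⟩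
  | succ j ih =>
    obtain ⟨l, hl⟩ := ih
    exact ⟨S (st S s₀ (k + j)) :: l, by rw [← add_assoc]; simp [st, hl]⟩

theorem st_get (S : List Bool → Bool) (s₀ : List Bool) {k n : ℕ} (h : n < s₀.length + k) :
    (st S s₀ k).reverse[n]? = some (yof S s₀ n) := by
  have h1 : n < (st S s₀ (n + 1)).reverse.length := by
    rw [List.length_reverse, st_length]; omega
  have h2 : (st S s₀ (n + 1)).reverse[n]? = some (yof S s₀ n) := by
    unfold yof
    rw [List.getD_eq_getElem?_getD, List.getElem?_eq_getElem h1]; rfl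
  rw [← h2]
  rcases le_total k (n + 1) with h3 | h3
  · obtain ⟨j, hj⟩ : ∃ j, n + 1 = k + j := ⟨n + 1 - k, by omega⟩
    obtain ⟨l, hl⟩ := st_add S s₀ k j
    rw [hj, hl, List.reverse_append, List.getElem?_append_left]
    rw [List.length_reverse, st_length]; exact h
  · obtain ⟨j, hj⟩ : ∃ j, k = n + 1 + j := ⟨k - (n + 1), by omega⟩
    obtain ⟨l, hl⟩ := st_add S s₀ (n + 1) j
    rw [hj, hl, List.reverse_append, List.getElem?_append_left h1]

theorem rp_yof (S : List Bool → Bool) (s₀ : List Bool) (k : ℕ) :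
    rp (yof S s₀) (s₀.length + k) = st S s₀ k := by
  rw [← List.reverse_inj, rp_reverse]
  apply List.ext_getElem?
  intro n
  by_cases h : n < s₀.length + k
  · rw [st_get S s₀ h]
    simp [pre, h]
  · rw [List.getElem?_eq_none, List.getElem?_eq_none]
    · rw [List.length_reverse, st_length]; omega
    · simp [pre]; omega

variable {W : List Bool × List ℕ → Bool}

/-- base points -/
def bzp {G : Gd} (s : List Bool) : Pt G := wp (pad [0, Encodable.encode s])

def LS (C : Set (Pt (GW W))) (t : List ℕ) (s : List Bool) : Prop :=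
  match base true s with
  | none => ∃ r > 0, ∀ P, tau P < r → consL t P ∈ C
  | some s' => consL t (bzp s') ∈ C

def RS (C : Set (Pt (GW W))) (t : List ℕ) (s : List Bool) : Prop :=
  match base false s with
  | none => ∃ r > 0, ∀ P, 1 - tau P < r → consL t P ∉ C
  | some s' => consL t (bzp s') ∉ C

open scoped Classical in
/-- side of the base points -/
noncomputable def SS (C : Set (Pt (GW W))) (t : List ℕ) (s : List Bool) : Bool :=
  decide (consL t (bzp s) ∈ C)

theorem SS_true {C : Set (Pt (GW W))} {t : List ℕ} {s : List Bool}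
    (h : consL t (bzp s) ∈ C) : SS C t s = true := by
  unfold SS; simpa using h

theorem SS_false {C : Set (Pt (GW W))} {t : List ℕ} {s : List Bool}
    (h : consL t (bzp s) ∉ C) : SS C t s = false := by
  unfold SS; simpa using h

theorem sides_st {C : Set (Pt (GW W))} {t : List ℕ} {s₀ : List Bool} (hL : LS C t s₀)
    (hR : RS C t s₀) (k : ℕ) : LS C t (st (SS C t) s₀ k) ∧ RS C t (st (SS C t) s₀ k) := by
  classical
  induction k with
  | zero => exact ⟨hL, hR⟩
  | succ k ih =>
    obtain ⟨h1, h2⟩ := ih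
    simp only [st]
    by_cases hc : consL t (bzp (st (SS C t) s₀ k)) ∈ C
    · have hs : SS C t (st (SS C t) s₀ k) = true := SS_true hc
      rw [hs]
      constructor
      · simpa [LS, base] using hc
      · simpa [RS, base] using h2
    · have hs : SS C t (st (SS C t) s₀ k) = false := SS_false hc
      rw [hs]
      constructor
      · simpa [LS, base] using h1
      · simpa [RS, base] using hc

theorem consL_snoc {G : Gd} (t : List ℕ) (e : ℕ) (P : Pt G) :
    consL (t ++ [e]) P = consL t (cons e P) := by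
  rw [consL_append]; rfl

/-- points of `C` near a limit point inside the gadget `t` -/
theorem near_in {C : Set (Pt (GW W))} (hC : IsClopen C) (t : List ℕ) (z : ℕ → ℕ) :
    ∃ N : ℕ, ∀ Q, dist Q (wp z) < (1 / 2) ^ N → (consL t Q ∈ C ↔ consL t (wp z) ∈ C) := by
  obtain ⟨r, hr, h⟩ := local_of_isClopen hC (consL t (wp z))
  obtain ⟨N, hN⟩ := exists_pow_lt_of_lt_one hr (by norm_num : (1:ℝ) / 2 < 1)
  refine ⟨N, fun Q hQ => h _ ?_⟩
  exact lt_of_le_of_lt (dist_consL_le t Q (wp z)) (lt_trans hQ hN)

theorem tau_one_sub_nonneg {G : Gd} (P : Pt G) : 0 ≤ 1 - tau P := by linarith [tau_le_one P]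

/-- transfer of the left side to an edge -/
theorem left_transfer {C : Set (Pt (GW W))} (hC : IsClopen C) {t : List ℕ} {ζ : List ℕ}
    (hT : Tr W ζ = true) (hL : LS C t (ζ.map Nat.bodd)) :
    ∃ i₀, ∀ i ≥ i₀, LS C (t ++ [ed ζ i false]) [] := by
  unfold LS at hL
  rcases hb : base true (ζ.map Nat.bodd) with _ | s'
  · rw [hb] at hL
    obtain ⟨r, hr, h⟩ := hL
    refine ⟨0, fun i _ => ?_⟩
    unfold LS
    simp only [base]
    refine ⟨r, hr, fun P hP => ?_⟩
    rw [consL_snoc]
    apply h
    have ha : (GW W).a (ed ζ i false) = true := by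
      simp [GW, ga, hT, hb]
    rw [tau_cons, if_pos ha]
    linarith [tau_nonneg P]
  · rw [hb] at hL
    obtain ⟨N, hN⟩ := near_in hC t (pad [0, Encodable.encode s'])
    refine ⟨N, fun i hi => ?_⟩
    unfold LS
    simp only [base]
    refine ⟨(1 / 2) ^ N, by positivity, fun P hP => ?_⟩
    rw [consL_snoc]
    have hlab : lab (GW W) (ed ζ i false) false =
        0 :: Encodable.encode s' :: List.replicate i 0 := by
      simp [lab, GW, gL, hT, blab, hb]
    refine (hN _ ?_).2 hL
    refine lt_of_le_of_lt (dist_wp_cons_le false) (max_lt ?_ ?_)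
    · rw [es_cons]; simpa using hP
    · rw [el_cons', hlab]
      have h1 : Ag (tl (0 :: Encodable.encode s' :: List.replicate i 0))
          (tz (pad [0, Encodable.encode s'])) (i + 2) := by
        intro j hj
        rcases j with _ | _ | j
        · simp [tl, tz, pad]
        · simp [tl, tz, pad]
        · have : j < i := by omega
          simp [tl, tz, pad, this]
      refine lt_of_le_of_lt (dl_le_iff.2 h1) ?_
      exact pow_lt_pow_right_of_lt_one₀ (by norm_num) (by norm_num) (by omega)

/-- transfer of the right side to an edge -/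
theorem right_transfer {C : Set (Pt (GW W))} (hC : IsClopen C) {t : List ℕ} {ζ : List ℕ}
    (hT : Tr W ζ = true) (hR : RS C t (ζ.map Nat.bodd)) :
    ∃ i₀, ∀ i ≥ i₀, RS C (t ++ [ed ζ i true]) [] := by
  unfold RS at hR
  rcases hb : base false (ζ.map Nat.bodd) with _ | s'
  · rw [hb] at hR
    obtain ⟨r, hr, h⟩ := hR
    refine ⟨0, fun i _ => ?_⟩
    unfold RS
    simp only [base]
    refine ⟨r, hr, fun P hP => ?_⟩
    rw [consL_snoc]
    apply h
    have hb' : (GW W).b (ed ζ i true) = true := by
      simp [GW, gb, hT, hb]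
    have ha' : (GW W).a (ed ζ i true) ≠ true := by
      simp [GW, ga]
    rw [tau_cons, if_neg ha', if_pos hb']
    linarith [tau_one_sub_nonneg P]
  · rw [hb] at hR
    obtain ⟨N, hN⟩ := near_in hC t (pad [0, Encodable.encode s'])
    refine ⟨N, fun i hi => ?_⟩
    unfold RS
    simp only [base]
    refine ⟨(1 / 2) ^ N, by positivity, fun P hP => ?_⟩
    rw [consL_snoc]
    have hlab : lab (GW W) (ed ζ i true) true =
        0 :: Encodable.encode s' :: List.replicate i 0 := by
      simp [lab, GW, gR, hT, blab, hb]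
    intro hin
    refine hR ((hN _ ?_).1 hin)
    refine lt_of_le_of_lt (dist_wp_cons_le true) (max_lt ?_ ?_)
    · rw [es_cons]; simpa using hP
    · rw [el_cons', hlab]
      have h1 : Ag (tl (0 :: Encodable.encode s' :: List.replicate i 0))
          (tz (pad [0, Encodable.encode s'])) (i + 2) := by
        intro j hj
        rcases j with _ | _ | j
        · simp [tl, tz, pad]
        · simp [tl, tz, pad]
        · have : j < i := by omega
          simp [tl, tz, pad, this]
      refine lt_of_le_of_lt (dl_le_iff.2 h1) ?_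
      exact pow_lt_pow_right_of_lt_one₀ (by norm_num) (by norm_num) (by omega)

theorem Ag_main (z : ℕ → ℕ) (n : ℕ) :
    Ag (tl (1 :: (rp z n).reverse)) (tz fun i => if i = 0 then 1 else z (i - 1)) (n + 1) := by
  intro j hj
  rcases j with _ | j
  · simp [tl, tz]
  · have : j < n := by omega
    simp [tl, tz, rp_reverse, pre, this]

/-- if the generated sequence is not in the class, some edge has ends on different sides -/
theorem step {C : Set (Pt (GW W))} (hC : IsClopen C) {t : List ℕ} {s₀ : List Bool}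
    (hL : LS C t s₀) (hR : RS C t s₀) (hn : ¬ Cls W (yof (SS C t) s₀)) :
    ∃ e, LS C (t ++ [e]) [] ∧ RS C (t ++ [e]) [] := by
  set y := yof (SS C t) s₀ with hy
  unfold Cls at hn
  push Not at hn
  obtain ⟨x, hx⟩ := hn
  set zp : ℕ → ℕ := fun i => Nat.bit (y i) (x i) with hzp
  have hb : (fun i => (zp i).bodd) = y := by funext i; simp [hzp, Nat.bodd_bit]
  have hd : (fun i => (zp i).div2) = x := by funext i; simp [hzp, Nat.div2_bit]
  have hT : ∀ n, Tr W (rp zp n) = true := by
    intro n
    rw [Tr_rp, hb, hd]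
    intro m _
    simpa using hx m
  set z : ℕ → ℕ := fun i => if i = 0 then 1 else zp (i - 1) with hz
  obtain ⟨N, hN⟩ := near_in hC t z
  set n := s₀.length + N with hn'
  have hmap : (rp zp n).map Nat.bodd = st (SS C t) s₀ N := by
    rw [rp_map, hb, hn', hy, rp_yof]
  obtain ⟨hL', hR'⟩ := sides_st hL hR N
  rw [← hmap] at hL' hR'
  have hlt : ((1:ℝ) / 2) ^ (n + 1) < (1 / 2) ^ N :=
    pow_lt_pow_right_of_lt_one₀ (by norm_num) (by norm_num) (by omega)
  by_cases hZ : consL t (wp z) ∈ C
  · obtain ⟨i₀, hi₀⟩ := right_transfer hC (hT n) hR'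
    refine ⟨ed (rp zp n) i₀ true, ?_, hi₀ i₀ le_rfl⟩
    unfold LS
    simp only [base]
    refine ⟨(1 / 2) ^ N, by positivity, fun P hP => ?_⟩
    rw [consL_snoc]
    refine (hN _ ?_).2 hZ
    refine lt_of_le_of_lt (dist_wp_cons_le false) (max_lt ?_ ?_)
    · rw [es_cons]; simpa using hP
    · have hlab : lab (GW W) (ed (rp zp n) i₀ true) false = 1 :: (rp zp n).reverse := by
        simp [lab, GW, gL, hT n]
      rw [el_cons', hlab]
      exact lt_of_le_of_lt (dl_le_iff.2 (Ag_main zp n)) hlt
  · obtain ⟨i₀, hi₀⟩ := left_transfer hC (hT n) hL'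
    refine ⟨ed (rp zp n) i₀ false, hi₀ i₀ le_rfl, ?_⟩
    unfold RS
    simp only [base]
    refine ⟨(1 / 2) ^ N, by positivity, fun P hP => ?_⟩
    rw [consL_snoc]
    intro hin
    refine hZ ((hN _ ?_).1 hin)
    refine lt_of_le_of_lt (dist_wp_cons_le true) (max_lt ?_ ?_)
    · rw [es_cons]; simpa using hP
    · have hlab : lab (GW W) (ed (rp zp n) i₀ false) true = 1 :: (rp zp n).reverse := by
        simp [lab, GW, gR, hT n]
      rw [el_cons', hlab]
      exact lt_of_le_of_lt (dl_le_iff.2 (Ag_main zp n)) hlt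

theorem exists_tau_small (hW : Tr W [] = true) {r : ℝ} (hr : 0 < r) :
    ∃ P : Pt (GW W), tau P < r := by
  obtain ⟨n, hn⟩ := exists_pow_lt_of_lt_one hr (by norm_num : (1:ℝ) / 2 < 1)
  have ha : (GW W).a (ed [] 0 false) = true := by simp [GW, ga, hW, base]
  have key : ∀ n, tau (consL (List.replicate n (ed [] 0 false)) (wp fun _ => 0) : Pt (GW W)) ≤
      (1 / 2) ^ n := by
    intro n
    induction n with
    | zero => simp [tau_wp]; norm_num
    | succ n ih =>
      rw [List.replicate_succ, consL_cons, tau_cons, if_pos ha, pow_succ]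
      linarith
  exact ⟨_, lt_of_le_of_lt (key n) hn⟩

theorem exists_tau_large (hW : Tr W [] = true) {r : ℝ} (hr : 0 < r) :
    ∃ P : Pt (GW W), 1 - tau P < r := by
  obtain ⟨n, hn⟩ := exists_pow_lt_of_lt_one hr (by norm_num : (1:ℝ) / 2 < 1)
  have hb : (GW W).b (ed [] 0 true) = true := by simp [GW, gb, hW, base]
  have ha : (GW W).a (ed [] 0 true) ≠ true := by simp [GW, ga]
  have key : ∀ n, 1 - tau (consL (List.replicate n (ed [] 0 true)) (wp fun _ => 0) : Pt (GW W)) ≤
      (1 / 2) ^ n := by
    intro n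
    induction n with
    | zero => simp [tau_wp]
    | succ n ih =>
      rw [List.replicate_succ, consL_cons, tau_cons, if_neg ha, if_pos hb, pow_succ]
      linarith
  exact ⟨_, lt_of_le_of_lt (key n) hn⟩

/-- some generated sequence is in the class -/
theorem exists_member {C : Set (Pt (GW W))} (hC : IsClopen C) {t₀ : List ℕ} {s₀ : List Bool}
    (hL₀ : LS C t₀ s₀) (hR₀ : RS C t₀ s₀) : ∃ t s, Cls W (yof (SS C t) s) := by
  by_contra hno
  push Not at hno
  have hW : Tr W [] = true := by
    rw [Tr_iff]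
    intro m hm
    have hm0 : m = 0 := by simpa using hm
    subst hm0
    by_contra hc
    apply hno t₀ s₀
    intro x
    refine ⟨0, ?_⟩
    simpa [pre] using hc
  -- a sequence of edges
  have hnext : ∀ T : {t : List ℕ // LS C t [] ∧ RS C t []}, ∃ e,
      LS C (T.1 ++ [e]) [] ∧ RS C (T.1 ++ [e]) [] :=
    fun T => step hC T.2.1 T.2.2 (hno _ _)
  choose nx hnx using hnext
  obtain ⟨e₀, he₀⟩ := step hC hL₀ hR₀ (hno _ _)
  let T : ℕ → {t : List ℕ // LS C t [] ∧ RS C t []} :=
    fun n => Nat.rec ⟨t₀ ++ [e₀], he₀⟩ (fun _ T => ⟨T.1 ++ [nx T], hnx T⟩) n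
  have hT : ∀ n, (T (n + 1)).1 = (T n).1 ++ [nx (T n)] := fun n => rfl
  let Q : ℕ → Pt (GW W) := fun n => ⟨fun i => Sum.inl (nx (T (n + i))), by simp⟩
  have hQ : ∀ n, Q n = cons (nx (T n)) (Q (n + 1)) := by
    intro n
    apply Pt.ext'
    intro i
    cases i with
    | zero => rfl
    | succ i =>
      show Sum.inl (nx (T (n + (i + 1)))) = Sum.inl (nx (T (n + 1 + i)))
      rw [show n + (i + 1) = n + 1 + i by ring]
  have hX : ∀ n, consL (T n).1 (Q n) = consL (T 0).1 (Q 0) := by
    intro n
    induction n with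
    | zero => rfl
    | succ n ih => rw [← ih, hT, consL_snoc, ← hQ]
  have hlen : ∀ n, n ≤ (T n).1.length := by
    intro n
    induction n with
    | zero => omega
    | succ n ih => rw [hT]; simp; omega
  obtain ⟨r, hr, hloc⟩ := local_of_isClopen hC (consL (T 0).1 (Q 0))
  obtain ⟨n, hn⟩ := exists_pow_lt_of_lt_one (show (0:ℝ) < r / 2 by linarith)
    (by norm_num : (1:ℝ) / 2 < 1)
  have hall : ∀ P, (consL (T n).1 P ∈ C ↔ consL (T 0).1 (Q 0) ∈ C) := by
    intro P
    apply hloc
    rw [← hX n]
    have h1 := dist_prefix (T n).1 P (Q n)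
    have h2 : ((1:ℝ) / 2) ^ (T n).1.length ≤ (1 / 2) ^ n :=
      pow_le_pow_of_le_one (by norm_num) (by norm_num) (hlen n)
    linarith
  have hLn := (T n).2.1
  have hRn := (T n).2.2
  unfold LS at hLn
  unfold RS at hRn
  simp only [base] at hLn hRn
  obtain ⟨r1, hr1, h1⟩ := hLn
  obtain ⟨r2, hr2, h2⟩ := hRn
  obtain ⟨P1, hP1⟩ := exists_tau_small hW hr1
  obtain ⟨P2, hP2⟩ := exists_tau_large hW hr2
  exact h2 P2 hP2 ((hall P2).2 ((hall P1).1 (h1 P1 hP1)))

/-- the start: a clopen set separating two base points -/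
theorem exists_member' {C : Set (Pt (GW W))} (hC : IsClopen C) (h1 : bzp [] ∈ C)
    (h2 : bzp [true] ∉ C) : ∃ t s, Cls W (yof (SS C t) s) := by
  apply exists_member hC (t₀ := []) (s₀ := [false, true])
  · simpa [LS, base] using h1
  · simpa [RS, base] using h2

theorem bzp_ne : (bzp [] : Pt (GW W)) ≠ bzp [true] := by
  intro h
  have h1 := wp_inj.1 h
  have h2 := congrFun h1 1
  simp only [pad] at h2
  have h3 : Encodable.encode ([] : List Bool) = Encodable.encode [true] := by simpa only [List.getD_cons_succ, List.getD_cons_zero] using h2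
  have := Encodable.encode_injective h3
  simp at this

end Pool.Agent.Helper583.TC
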