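import Mathlib

namespace Pool.Agent.Helper583.TC.J1

open Set Filter Topology PiNat in
theorem aux663_split {X : Type} [MetricSpace X]
    [TopologicalSpace.SeparableSpace X] [Nonempty X]
    (hZ : ∀ x : X, ∀ ε > 0, ∃ C : Set X, IsClopen C ∧ x ∈ C ∧ C ⊆ Metric.ball x ε)
    (hN : ∀ U : Set X, IsOpen U → U.Nonempty → ∃ (u : ℕ → X) (r : ℝ), 0 < r ∧
      (∀ n, u n ∈ U) ∧ ∀ m n, m ≠ n → r ≤ dist (u m) (u n)) (U : {U : Set X // IsClopen U ∧ U.Nonempty})
    (ε : ℝ) (hε : 0 < ε) :
    ∃ V : ℕ → {U : Set X // IsClopen U ∧ U.Nonempty},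
      (Pairwise fun a b => Disjoint (V a).1 (V b).1) ∧ (⋃ n, (V n).1) = U.1 ∧
      ∀ n, ∀ x ∈ (V n).1, ∀ y ∈ (V n).1, dist x y ≤ ε := by
  classical
  have : SecondCountableTopology X := UniformSpace.secondCountable_of_separable X
  obtain ⟨U, hU, hUne⟩ := U
  obtain ⟨u, r, hr, huU, hur⟩ := hN U hU.isOpen hUne
  set e := min ε (r / 2) with he
  have he0 : 0 < e := lt_min hε (half_pos hr)
  choose f hf using fun x : X => hZ x (e / 2) (half_pos he0)
  obtain ⟨s, hs, hsU⟩ := TopologicalSpace.countable_cover_nhds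
    (f := f) (fun x => (hf x).1.isOpen.mem_nhds (hf x).2.1)
  have hsne : s.Nonempty := by
    rw [Set.nonempty_iff_ne_empty]
    rintro rfl
    simp only [mem_empty_iff_false, iUnion_of_empty, iUnion_empty] at hsU
    exact (Set.empty_ne_univ hsU)
  obtain ⟨g, hg⟩ := hs.exists_eq_range hsne
  set D : ℕ → Set X := fun n => f (g n) ∩ U with hD
  have hDc : ∀ n, IsClopen (D n) := fun n => (hf _).1.inter hU
  have hDd : ∀ n, ∀ x ∈ D n, ∀ y ∈ D n, dist x y < e := by
    intro n x hx y hy
    have h1 := (hf (g n)).2.2 hx.1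
    have h2 := (hf (g n)).2.2 hy.1
    rw [Metric.mem_ball] at h1 h2
    calc dist x y ≤ dist x (g n) + dist y (g n) := dist_triangle_right _ _ _
      _ < e := by linarith
  have hDU : ∀ x ∈ U, ∃ n, x ∈ D n := by
    intro x hx
    have h1 : x ∈ ⋃ x ∈ s, f x := hsU ▸ mem_univ x
    simp only [mem_iUnion] at h1
    obtain ⟨z, hz, hxz⟩ := h1
    rw [hg] at hz
    obtain ⟨n, rfl⟩ := hz
    exact ⟨n, hxz, hx⟩
  set E : ℕ → Set X := fun n => D n \ ⋃ m ∈ Finset.range n, D m with hE
  have hEc : ∀ n, IsClopen (E n) := fun n =>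
    (hDc n).diff (isClopen_biUnion_finset fun m _ => hDc m)
  have hED : ∀ n, E n ⊆ D n := fun n => sdiff_subset
  have hEU : ∀ x ∈ U, ∃ n, x ∈ E n := by
    intro x hx
    have hex := hDU x hx
    refine ⟨Nat.find hex, Nat.find_spec hex, ?_⟩
    simp only [mem_iUnion, Finset.mem_range, not_exists]
    intro m hm hmem
    exact Nat.find_min hex hm hmem
  have hEdis : ∀ m n, m < n → Disjoint (E m) (E n) := by
    intro m n hmn
    rw [Set.disjoint_left]
    intro x hx hx'
    apply hx'.2
    simp only [mem_iUnion, Finset.mem_range]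
    exact ⟨m, hmn, hED m hx⟩
  have hEdis' : ∀ m n, m ≠ n → Disjoint (E m) (E n) := by
    intro m n hmn
    rcases lt_or_gt_of_ne hmn with h | h
    · exact hEdis m n h
    · exact (hEdis n m h).symm
  set S : Set ℕ := {n | (E n).Nonempty} with hS
  have hSinf : S.Infinite := by
    choose k hk using fun j : ℕ => hEU (u j) (huU j)
    have hkinj : Function.Injective k := by
      intro i j hij
      by_contra hne
      have h1 := hur i j hne
      have h2 := hDd (k i) (u i) (hED _ (hk i)) (u j) (hED _ (hij ▸ hk j))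
      have h3 : e ≤ r / 2 := min_le_right _ _
      linarith
    refine Set.infinite_of_injective_forall_mem hkinj fun j => ?_
    exact ⟨u j, hk j⟩
  have : Infinite S := hSinf.to_subtype
  set ι : ℕ ≃o S := Nat.Subtype.orderIsoOfNat S with hι
  refine ⟨fun n => ⟨E (ι n), hEc _, (ι n).2⟩, ?_, ?_, ?_⟩
  · intro a b hab
    apply hEdis'
    intro h
    exact hab (ι.injective (Subtype.ext h))
  · apply Subset.antisymm
    · refine iUnion_subset fun n x hx => (hED _ hx).2
    · intro x hx
      obtain ⟨n, hn⟩ := hEU x hx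
      rw [mem_iUnion]
      refine ⟨ι.symm ⟨n, ⟨x, hn⟩⟩, ?_⟩
      simp only [OrderIso.apply_symm_apply]
      exact hn
  · intro n x hx y hy
    exact (hDd _ x (hED _ hx) y (hED _ hy)).le.trans (min_le_left _ _)

open Set Filter Topology PiNat CantorScheme in
/-- Alexandrov-Urysohn: a zero-dimensional, nowhere locally compact Polish space is Baire space. -/
theorem baire_of_zeroDim {X : Type} [MetricSpace X] [CompleteSpace X]
    [TopologicalSpace.SeparableSpace X] [Nonempty X]
    (hZ : ∀ x : X, ∀ ε > 0, ∃ C : Set X, IsClopen C ∧ x ∈ C ∧ C ⊆ Metric.ball x ε)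
    (hN : ∀ U : Set X, IsOpen U → U.Nonempty → ∃ (u : ℕ → X) (r : ℝ), 0 < r ∧
      (∀ n, u n ∈ U) ∧ ∀ m n, m ≠ n → r ≤ dist (u m) (u n)) :
    Nonempty (X ≃ₜ (ℕ → ℕ)) := by
  classical
  choose V hV1 hV2 hV3 using fun (U : {U : Set X // IsClopen U ∧ U.Nonempty}) (n : ℕ) =>
    aux663_split hZ hN U ((1 / 2 : ℝ) ^ n) (by positivity)
  let C : List ℕ → {U : Set X // IsClopen U ∧ U.Nonempty} := fun l =>
    List.rec ⟨univ, isClopen_univ, univ_nonempty⟩ (fun k l Cl => V Cl l.length k) l
  let A : List ℕ → Set X := fun l => (C l).1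
  have hA0 : A [] = univ := rfl
  have hAs : ∀ k l, A (k :: l) = (V (C l) l.length k).1 := fun k l => rfl
  have hAc : ∀ l, IsClopen (A l) := fun l => (C l).2.1
  have hAne : ∀ l, (A l).Nonempty := fun l => (C l).2.2
  have hAU : ∀ l, (⋃ k, A (k :: l)) = A l := fun l => hV2 (C l) l.length
  have hanti : CantorScheme.Antitone A := by
    intro l k
    rw [← hAU l]
    exact subset_iUnion (fun k => A (k :: l)) k
  have hcl : ClosureAntitone A := CantorScheme.Antitone.closureAntitone hanti fun l => (hAc l).isClosed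
  have hdisj : CantorScheme.Disjoint A := fun l => hV1 (C l) l.length
  have hdist : ∀ k l, ∀ x ∈ A (k :: l), ∀ y ∈ A (k :: l), dist x y ≤ (1 / 2 : ℝ) ^ l.length :=
    fun k l => hV3 (C l) l.length k
  have hvd : VanishingDiam A := by
    intro x
    rw [← tendsto_add_atTop_iff_nat 1]
    have h0 : Tendsto (fun n : ℕ => ENNReal.ofReal ((1 / 2 : ℝ) ^ n)) atTop (𝓝 0) := by
      have := ENNReal.tendsto_ofReal
        (tendsto_pow_atTop_nhds_zero_of_lt_one (r := (1 / 2 : ℝ)) (by norm_num) (by norm_num))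
      simpa using this
    refine tendsto_of_tendsto_of_tendsto_of_le_of_le tendsto_const_nhds h0 (fun _ => zero_le) ?_
    intro n
    refine Metric.ediam_le fun y hy z hz => ?_
    rw [edist_dist]
    apply ENNReal.ofReal_le_ofReal
    have := hdist (x n) (res x n) y hy z hz
    rwa [res_length] at this
  have hdom : (inducedMap A).1 = univ := ClosureAntitone.map_of_vanishingDiam hvd hcl hAne
  have hdom' : ∀ x, x ∈ (inducedMap A).1 := fun x => hdom ▸ mem_univ x
  let f : (ℕ → ℕ) → X := fun x => (inducedMap A).2 ⟨x, hdom' x⟩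
  have hfm : ∀ x n, f x ∈ A (res x n) := fun x n => map_mem ⟨x, hdom' x⟩ n
  have hfc : Continuous f := (VanishingDiam.map_continuous hvd).comp
    (Continuous.subtype_mk continuous_id _)
  have hfi : Function.Injective f := by
    intro x y hxy
    have := CantorScheme.Disjoint.map_injective hdisj hxy
    exact congrArg Subtype.val this
  have hfs : Function.Surjective f := by
    intro y
    have hex : ∀ l, ∃ k, y ∈ A l → y ∈ A (k :: l) := by
      intro l
      by_cases hy : y ∈ A l
      · rw [← hAU l, mem_iUnion] at hy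
        obtain ⟨k, hk⟩ := hy
        exact ⟨k, fun _ => hk⟩
      · exact ⟨0, fun h => absurd h hy⟩
    choose κ hκ using hex
    let L : ℕ → List ℕ := fun n => Nat.rec [] (fun _ l => κ l :: l) n
    have hL : ∀ n, L (n + 1) = κ (L n) :: L n := fun n => rfl
    have hres : ∀ n, res (fun n => κ (L n)) n = L n := by
      intro n
      induction n with
      | zero => rfl
      | succ n ih => rw [res_succ, ih, hL]
    have hyL : ∀ n, y ∈ A (L n) := by
      intro n
      induction n with
      | zero => exact mem_univ y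
      | succ n ih => rw [hL]; exact hκ _ ih
    refine ⟨fun n => κ (L n), ?_⟩
    by_contra hne
    have hpos : 0 < dist (f fun n => κ (L n)) y := dist_pos.2 hne
    obtain ⟨n, hn⟩ := hvd.dist_lt _ hpos (fun n => κ (L n))
    exact lt_irrefl _ (hn _ (hfm _ n) y (by rw [hres]; exact hyL n))
  let Φ : (ℕ → ℕ) ≃ X := Equiv.ofBijective f ⟨hfi, hfs⟩
  have hmem : ∀ z, ∀ n, z ∈ A (res (Φ.symm z) n) := by
    intro z n
    have := hfm (Φ.symm z) n
    have e : f (Φ.symm z) = z := Φ.apply_symm_apply z
    rwa [e] at this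
  have hkey : ∀ (x : ℕ → ℕ) (z : X) (n : ℕ), z ∈ A (res x n) → res (Φ.symm z) n = res x n := by
    intro x z n
    induction n with
    | zero => intro _; rfl
    | succ n ih =>
      intro hz
      rw [res_succ] at hz
      have h1 := ih (hanti _ _ hz)
      rw [res_succ, res_succ, h1]
      congr 1
      by_contra hne
      have h2 := hmem z (n + 1)
      rw [res_succ, h1] at h2
      exact Set.disjoint_left.1 (hdisj (res x n) hne) h2 hz
  have hinv : Continuous Φ.symm := by
    rw [continuous_pi_iff]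
    intro n
    rw [continuous_iff_continuousAt]
    intro y
    have hev : ∀ᶠ z in 𝓝 y, Φ.symm z n = Φ.symm y n := by
      filter_upwards [(hAc (res (Φ.symm y) (n + 1))).isOpen.mem_nhds (hmem y (n + 1))] with z hz
      exact res_eq_res.1 (hkey (Φ.symm y) z (n + 1) hz) (Nat.lt_succ_self n)
    exact (continuousAt_const (y := Φ.symm y n)).congr (hev.mono fun z hz => hz.symm)
  exact ⟨(Homeomorph.mk Φ hfc hinv).symm⟩

end Pool.Agent.Helper583.TC.J1
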