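import Pool.Agent.Helper583.TCBasic

namespace Pool.Agent.Helper583.TC.J10

variable {G : Gd}

open Filter Topology

theorem close_wp {P Q : Pt G} (h : Df P Q) : ∃ z, dist P (wp z : Pt G) ≤ dist P Q := by
  rcases pt_cases P with ⟨e, P', rfl⟩ | ⟨z, rfl⟩
  · rw [dist_df h]
    obtain ⟨i, j, hD⟩ := D0_cases (cons e P') Q
    rw [hD]
    obtain ⟨l, hl⟩ : ∃ l, el (cons e P') i = tl l := by
      rw [el_cons]
      cases i
      · exact ⟨G.L e, by simp⟩
      · exact ⟨G.R e, by simp⟩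
    refine ⟨pad l, (dist_wp_cons_le i).trans ?_⟩
    unfold D1
    rw [hl]
    exact max_le (le_max_left _ _)
      (le_max_of_le_right (le_max_of_le_left (dl_pad_le l _)))
  · exact ⟨z, by rw [dist_self]; exact dist_nonneg⟩

theorem half_pow_lt (ε : ℝ) (hε : 0 < ε) : ∃ n : ℕ, (1 / 2 : ℝ) ^ n < ε :=
  exists_pow_lt_of_lt_one hε (by norm_num)

/-- limit of a Cauchy sequence of limit points -/
theorem wp_complete (z : ℕ → ℕ → ℕ) (h : CauchySeq (fun n => (wp (z n) : Pt G))) :
    ∃ w, Tendsto (fun n => (wp (z n) : Pt G)) atTop (𝓝 (wp w)) := by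
  have h1 : ∀ k : ℕ, ∃ N, ∀ m ≥ N, ∀ n ≥ N, Ag (tz (z m)) (tz (z n)) k := by
    intro k
    obtain ⟨N, hN⟩ := Metric.cauchySeq_iff.mp h ((1 / 2) ^ k) (by positivity)
    refine ⟨N, fun m hm n hn => ?_⟩
    have := hN m hm n hn
    rw [dist_wp_wp] at this
    exact dl_le_iff.mp this.le
  choose N hN using h1
  refine ⟨fun i => z (N (i + 1)) i, ?_⟩
  rw [Metric.tendsto_atTop]
  intro ε hε
  obtain ⟨k, hk⟩ := half_pow_lt ε hε
  refine ⟨N k, fun n hn => lt_of_le_of_lt ?_ hk⟩
  rw [dist_wp_wp, dl_le_iff]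
  intro i hi
  have e1 := (hN k n hn (max n (N (i + 1))) (hn.trans (le_max_left _ _)) i hi).1
  have e2 := (hN (i + 1) (max n (N (i + 1))) (le_max_right _ _) (N (i + 1)) le_rfl i
    (Nat.lt_succ_self i)).1
  exact ⟨e1.trans e2, by simp [tz]⟩

/-- a Cauchy sequence starts with a constant edge or converges -/
theorem cauchy_cases (P : ℕ → Pt G) (hP : CauchySeq P) :
    (∃ e K, ∀ k ≥ K, ∃ Q, P k = cons e Q) ∨ ∃ a, Tendsto P atTop (𝓝 a) := by
  by_cases hf : ∃ e, ∃ᶠ k in atTop, ∃ Q, P k = cons e Q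
  · left
    obtain ⟨e, he⟩ := hf
    obtain ⟨K, hK⟩ := Metric.cauchySeq_iff.mp hP (2 * ce G e) (by have := ce_pos (G := G) e; linarith)
    rw [frequently_atTop] at he
    obtain ⟨k, hk, Q, hQ⟩ := he K
    refine ⟨e, K, fun m hm => ?_⟩
    have := hK k hk m hm
    rw [hQ] at this
    exact eq_cons_of_dist this
  · right
    push Not at hf
    have hdf : ∀ k K, ∃ l ≥ K, Df (P k) (P l) := by
      intro k K
      rcases pt_cases (P k) with ⟨e, Q, hQ⟩ | ⟨z, hz⟩
      · have h1 := hf e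
        rw [eventually_atTop] at h1
        obtain ⟨K', hK'⟩ := h1
        refine ⟨max K K', le_max_left _ _, ?_⟩
        rcases pair_cases (P k) (P (max K K')) with ⟨e', P', Q', h2, h3⟩ | h2
        · rw [hQ] at h2
          obtain ⟨rfl, _⟩ := cons_inj.mp h2
          exact absurd h3 (hK' _ (le_max_right _ _) Q')
        · exact h2
      · refine ⟨K, le_rfl, ?_⟩
        rw [hz]
        exact df_wp_left z _
    have h1 : ∀ n : ℕ, ∃ K, n ≤ K ∧ (∀ k ≥ K, ∀ l ≥ K, dist (P k) (P l) < (1 / 2) ^ n) := by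
      intro n
      obtain ⟨K, hK⟩ := Metric.cauchySeq_iff.mp hP ((1 / 2) ^ n) (by positivity)
      exact ⟨max n K, le_max_left _ _, fun k hk l hl =>
        hK k ((le_max_right _ _).trans hk) l ((le_max_right _ _).trans hl)⟩
    choose K hKn hK using h1
    have h2 : ∀ n, ∃ z, dist (P (K n)) (wp z : Pt G) < (1 / 2) ^ n := by
      intro n
      obtain ⟨l, hl, hd⟩ := hdf (K n) (K n)
      obtain ⟨z, hz⟩ := close_wp hd
      exact ⟨z, lt_of_le_of_lt hz (hK n _ le_rfl l hl)⟩
    choose z hz using h2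
    have hsub : Tendsto K atTop atTop := tendsto_atTop_mono hKn tendsto_id
    have h0 : Tendsto (fun n : ℕ => (1 / 2 : ℝ) ^ n) atTop (𝓝 0) :=
      tendsto_pow_atTop_nhds_zero_of_lt_one (by norm_num) (by norm_num)
    have hdist : Tendsto (fun n => dist (P (K n)) (wp (z n) : Pt G)) atTop (𝓝 0) :=
      squeeze_zero (fun _ => dist_nonneg) (fun n => (hz n).le) h0
    have hcP : CauchySeq (fun n => P (K n)) := hP.comp_tendsto hsub
    have hcw : CauchySeq (fun n => (wp (z n) : Pt G)) := by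
      rw [Metric.cauchySeq_iff]
      intro ε hε
      obtain ⟨N1, hN1⟩ := Metric.cauchySeq_iff.mp hcP (ε / 3) (by positivity)
      obtain ⟨N2, hN2⟩ := (Metric.tendsto_atTop.mp hdist) (ε / 3) (by positivity)
      refine ⟨max N1 N2, fun m hm n hn => ?_⟩
      have a1 := hN1 m ((le_max_left _ _).trans hm) n ((le_max_left _ _).trans hn)
      have a2 := hN2 m ((le_max_right _ _).trans hm)
      have a3 := hN2 n ((le_max_right _ _).trans hn)
      rw [Real.dist_eq, sub_zero, abs_of_nonneg dist_nonneg] at a2 a3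
      calc dist (wp (z m) : Pt G) (wp (z n)) ≤ dist (wp (z m) : Pt G) (P (K m)) +
            dist (P (K m)) (P (K n)) + dist (P (K n)) (wp (z n)) := dist_triangle4 _ _ _ _
        _ < ε := by
            rw [dist_comm (wp (z m) : Pt G)]
            linarith
    obtain ⟨w, hw⟩ := wp_complete z hcw
    have hPw : Tendsto (fun n => P (K n)) atTop (𝓝 (wp w)) := by
      rw [tendsto_iff_dist_tendsto_zero]
      have h3 := (tendsto_iff_dist_tendsto_zero.mp hw)
      have h4 := hdist.add h3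
      rw [add_zero] at h4
      exact squeeze_zero (fun _ => dist_nonneg) (fun n => dist_triangle _ _ _) h4
    exact ⟨wp w, tendsto_nhds_of_cauchySeq_of_subseq hP hsub hPw⟩

/-- infinite sequence of edges -/
def Einf (G : Gd) (e : ℕ → ℕ) : Pt G where
  f n := Sum.inl (e n)
  hf _ _ h := by simp at h

theorem Einf_cons (e : ℕ → ℕ) : Einf G e = cons (e 0) (Einf G (fun n => e (n + 1))) := by
  apply Pt.ext'
  intro n
  cases n with
  | zero => rfl
  | succ n => rfl

theorem Einf_consL (e : ℕ → ℕ) (n : ℕ) :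
    Einf G e = consL ((List.range n).map e) (Einf G (fun m => e (n + m))) := by
  induction n with
  | zero => simp
  | succ n ih =>
    rw [List.range_succ, List.map_append, consL_append]
    simp only [List.map_cons, List.map_nil, consL_cons, consL_nil]
    rw [ih]
    congr 1
    · rw [Einf_cons]
      congr 2
      funext m
      congr 1
      omega

/-- nonconvergent Cauchy sequences can be peeled -/
theorem peel (P : ℕ → Pt G) (hP : CauchySeq P) (hn : ¬ ∃ a, Tendsto P atTop (𝓝 a)) :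
    ∃ (e K : ℕ) (P' : ℕ → Pt G), (∀ k, P (k + K) = cons e (P' k)) ∧ CauchySeq P' ∧
      ¬ ∃ a, Tendsto P' atTop (𝓝 a) := by
  rcases cauchy_cases P hP with ⟨e, K, h⟩ | h
  · have h1 : ∀ k, P (k + K) = cons e (tail (P (k + K))) := by
      intro k
      obtain ⟨Q, hQ⟩ := h (k + K) (by omega)
      rw [hQ, tail_cons]
    refine ⟨e, K, fun k => tail (P (k + K)), h1, ?_, ?_⟩
    · rw [Metric.cauchySeq_iff]
      intro ε hε
      have hc := ce_pos (G := G) e
      obtain ⟨N, hN⟩ := Metric.cauchySeq_iff.mp hP (ce G e * ε) (by positivity)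
      refine ⟨N, fun m hm n hn => ?_⟩
      have h2 := hN (m + K) (by omega) (n + K) (by omega)
      rw [h1 m, h1 n] at h2
      have h3 := lt_of_le_of_lt (ce_dist_le e _ _) h2
      exact lt_of_mul_lt_mul_left h3 hc.le
    · rintro ⟨a, ha⟩
      apply hn
      refine ⟨cons e a, ?_⟩
      rw [← tendsto_add_atTop_iff_nat K]
      rw [tendsto_iff_dist_tendsto_zero] at ha ⊢
      refine squeeze_zero (fun _ => dist_nonneg) (fun k => ?_) ha
      rw [h1 k]
      exact dist_cons_le e _ _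
  · exact absurd h hn

/-- TARGET 1 -/
theorem complete_pt : CompleteSpace (Pt G) := by
  apply Metric.complete_of_cauchySeq_tendsto
  intro P hP
  by_contra hn
  have step : ∀ s : {P : ℕ → Pt G // CauchySeq P ∧ ¬ ∃ a, Tendsto P atTop (𝓝 a)},
      ∃ (e K : ℕ) (s' : {P : ℕ → Pt G // CauchySeq P ∧ ¬ ∃ a, Tendsto P atTop (𝓝 a)}),
        ∀ k, s.1 (k + K) = cons e (s'.1 k) := by
    rintro ⟨P, h1, h2⟩
    obtain ⟨e, K, P', h3, h4, h5⟩ := peel P h1 h2
    exact ⟨e, K, ⟨P', h4, h5⟩, h3⟩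
  choose ed Kd nx hnx using step
  obtain ⟨st, hst0, hsts⟩ : ∃ st : ℕ → {P : ℕ → Pt G // CauchySeq P ∧
      ¬ ∃ a, Tendsto P atTop (𝓝 a)}, st 0 = ⟨P, hP, hn⟩ ∧ ∀ n, st (n + 1) = nx (st n) :=
    ⟨fun n => Nat.rec ⟨P, hP, hn⟩ (fun _ s => nx s) n, rfl, fun n => rfl⟩
  have key : ∀ n, ∃ K, ∀ k, P (k + K) =
      consL ((List.range n).map (fun i => ed (st i))) ((st n).1 k) := by
    intro n
    induction n with
    | zero =>
      refine ⟨0, fun k => ?_⟩
      rw [hst0]
      simp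
    | succ n ih =>
      obtain ⟨K, hK⟩ := ih
      refine ⟨Kd (st n) + K, fun k => ?_⟩
      have h1 := hK (k + Kd (st n))
      rw [hnx (st n) k] at h1
      rw [List.range_succ, List.map_append, consL_append, hsts n]
      simp only [List.map_cons, List.map_nil, consL_cons, consL_nil]
      rw [← h1]
      congr 1
      omega
  apply hn
  refine ⟨Einf G (fun i => ed (st i)), ?_⟩
  rw [Metric.tendsto_atTop]
  intro ε hε
  obtain ⟨n, hn'⟩ := half_pow_lt (ε / 2) (by positivity)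
  obtain ⟨K, hK⟩ := key n
  refine ⟨K, fun k hk => ?_⟩
  obtain ⟨k', rfl⟩ : ∃ k', k = k' + K := ⟨k - K, by omega⟩
  rw [hK k', Einf_consL (fun i => ed (st i)) n]
  refine lt_of_le_of_lt (dist_prefix _ _ _) ?_
  rw [List.length_map, List.length_range]
  linarith

theorem consL_cases (n : ℕ) (P : Pt G) : (∃ t z, P = consL t (wp z)) ∨
    ∃ t P', P = consL t P' ∧ t.length = n := by
  induction n generalizing P with
  | zero => exact Or.inr ⟨[], P, rfl, rfl⟩
  | succ n ih =>
    rcases pt_cases P with ⟨e, Q, rfl⟩ | ⟨z, rfl⟩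
    · rcases ih Q with ⟨t, z, rfl⟩ | ⟨t, P', rfl, ht⟩
      · exact Or.inl ⟨e :: t, z, rfl⟩
      · exact Or.inr ⟨e :: t, P', rfl, by simp [ht]⟩
    · exact Or.inl ⟨[], z, rfl⟩

/-- TARGET 2 -/
theorem dense_cpt (G : Gd) : DenseRange (cpt G) := by
  rw [Metric.denseRange_iff]
  intro P ε hε
  obtain ⟨n, hn⟩ := half_pow_lt (ε / 2) (by positivity)
  rcases consL_cases n P with ⟨t, z, rfl⟩ | ⟨t, P', rfl, ht⟩
  · refine ⟨Encodable.encode (t, (List.range n).map z), ?_⟩
    rw [cpt_encode]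
    refine lt_of_le_of_lt (dist_consL_le t _ _) ?_
    rw [dist_wp_wp]
    have h1 : dl (tz z) (tz (pad ((List.range n).map z))) ≤ (1 / 2) ^ n := by
      rw [dl_le_iff]
      intro i hi
      refine ⟨?_, by simp [tz]⟩
      simp [tz, pad, hi, List.getD]
    linarith
  · refine ⟨Encodable.encode (t, ([] : List ℕ)), ?_⟩
    rw [cpt_encode]
    refine lt_of_le_of_lt (dist_prefix t _ _) ?_
    rw [ht]
    linarith

end Pool.Agent.Helper583.TC.J10
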