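import Pool.Agent.Helper583.TCBasic

namespace Pool.Agent.Helper583.TC.J11

open Encodable Denumerable

variable {G : Gd}

/-! ### dyadic numbers -/

/-- value of a dyadic number -/
noncomputable def dv (p : ℕ × ℕ) : ℝ := (p.1 : ℝ) / 2 ^ p.2

def dmx (p q : ℕ × ℕ) : ℕ × ℕ := (max (p.1 * 2 ^ q.2) (q.1 * 2 ^ p.2), p.2 + q.2)
def dmn (p q : ℕ × ℕ) : ℕ × ℕ := (min (p.1 * 2 ^ q.2) (q.1 * 2 ^ p.2), p.2 + q.2)
def dab (p q : ℕ × ℕ) : ℕ × ℕ :=
  (max (p.1 * 2 ^ q.2) (q.1 * 2 ^ p.2) - min (p.1 * 2 ^ q.2) (q.1 * 2 ^ p.2), p.2 + q.2)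
def dsh (r : ℕ) (p : ℕ × ℕ) : ℕ × ℕ := (p.1, p.2 + r)
def dom (p : ℕ × ℕ) : ℕ × ℕ := (2 ^ p.2 - p.1, p.2)
def dhs (p : ℕ × ℕ) : ℕ × ℕ := (2 ^ p.2 + p.1, p.2 + 1)

theorem dv_left (p q : ℕ × ℕ) : ((p.1 * 2 ^ q.2 : ℕ) : ℝ) / 2 ^ (p.2 + q.2) = dv p := by
  unfold dv
  push_cast
  rw [pow_add]
  field_simp

theorem dv_right (p q : ℕ × ℕ) : ((q.1 * 2 ^ p.2 : ℕ) : ℝ) / 2 ^ (p.2 + q.2) = dv q := by
  rw [add_comm]; exact dv_left q p

theorem dv_dmx (p q : ℕ × ℕ) : dv (dmx p q) = max (dv p) (dv q) := by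
  rw [← dv_left p q, ← dv_right p q, max_div_div_right (by positivity), ← Nat.cast_max]
  rfl

theorem dv_dmn (p q : ℕ × ℕ) : dv (dmn p q) = min (dv p) (dv q) := by
  rw [← dv_left p q, ← dv_right p q, min_div_div_right (by positivity), ← Nat.cast_min]
  rfl

theorem dv_dab (p q : ℕ × ℕ) : dv (dab p q) = |dv p - dv q| := by
  have h : dv (dab p q) = dv (dmx p q) - dv (dmn p q) := by
    unfold dab dmx dmn dv
    dsimp only
    rw [Nat.cast_sub min_le_max, sub_div]
  rw [h, dv_dmx, dv_dmn, max_sub_min_eq_abs']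

theorem dv_dsh (r : ℕ) (p : ℕ × ℕ) : dv (dsh r p) = (1 / 2) ^ r * dv p := by
  unfold dv dsh
  dsimp only
  rw [pow_add, one_div, inv_pow]
  field_simp

theorem dv_dom (p : ℕ × ℕ) (h : dv p ≤ 1) : dv (dom p) = 1 - dv p := by
  unfold dv at h
  rw [div_le_one (by positivity)] at h
  have h' : p.1 ≤ 2 ^ p.2 := by exact_mod_cast h
  unfold dv dom
  dsimp only
  rw [Nat.cast_sub h', sub_div]
  push_cast
  rw [div_self (by positivity)]

theorem dv_dhs (p : ℕ × ℕ) : dv (dhs p) = (1 + dv p) / 2 := by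
  unfold dv dhs
  dsimp only
  push_cast
  rw [pow_succ]
  field_simp

theorem pr_pow : Primrec₂ ((· ^ ·) : ℕ → ℕ → ℕ) := Primrec₂.unpaired'.1 Nat.Primrec.pow

theorem pr_pow2 {α : Type} [Primcodable α] {f : α → ℕ} (hf : Primrec f) :
    Primrec fun a => 2 ^ f a := pr_pow.comp (Primrec.const 2) hf

section
variable {α : Type} [Primcodable α] {f g : α → ℕ × ℕ} {r : α → ℕ}

theorem pr_dmx (hf : Primrec f) (hg : Primrec g) : Primrec fun a => dmx (f a) (g a) := by
  unfold dmx
  exact Primrec.pair (Primrec.nat_max.comp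
    (Primrec.nat_mul.comp (Primrec.fst.comp hf) (pr_pow2 (Primrec.snd.comp hg)))
    (Primrec.nat_mul.comp (Primrec.fst.comp hg) (pr_pow2 (Primrec.snd.comp hf))))
    (Primrec.nat_add.comp (Primrec.snd.comp hf) (Primrec.snd.comp hg))

theorem pr_dmn (hf : Primrec f) (hg : Primrec g) : Primrec fun a => dmn (f a) (g a) := by
  unfold dmn
  exact Primrec.pair (Primrec.nat_min.comp
    (Primrec.nat_mul.comp (Primrec.fst.comp hf) (pr_pow2 (Primrec.snd.comp hg)))
    (Primrec.nat_mul.comp (Primrec.fst.comp hg) (pr_pow2 (Primrec.snd.comp hf))))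
    (Primrec.nat_add.comp (Primrec.snd.comp hf) (Primrec.snd.comp hg))

theorem pr_dab (hf : Primrec f) (hg : Primrec g) : Primrec fun a => dab (f a) (g a) := by
  have h1 := Primrec.fst.comp (pr_dmx hf hg)
  have h2 := Primrec.fst.comp (pr_dmn hf hg)
  exact Primrec.pair (Primrec.nat_sub.comp h1 h2)
    (Primrec.nat_add.comp (Primrec.snd.comp hf) (Primrec.snd.comp hg))

theorem pr_dsh (hr : Primrec r) (hf : Primrec f) : Primrec fun a => dsh (r a) (f a) := by
  unfold dsh
  exact Primrec.pair (Primrec.fst.comp hf) (Primrec.nat_add.comp (Primrec.snd.comp hf) hr)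

theorem pr_dom (hf : Primrec f) : Primrec fun a => dom (f a) := by
  unfold dom
  exact Primrec.pair (Primrec.nat_sub.comp (pr_pow2 (Primrec.snd.comp hf)) (Primrec.fst.comp hf))
    (Primrec.snd.comp hf)

theorem pr_dhs (hf : Primrec f) : Primrec fun a => dhs (f a) := by
  unfold dhs
  exact Primrec.pair (Primrec.nat_add.comp (pr_pow2 (Primrec.snd.comp hf)) (Primrec.fst.comp hf))
    (Primrec.succ.comp (Primrec.snd.comp hf))

end

/-! ### tau -/

def tauC (G : Gd) (t : List ℕ) : ℕ × ℕ :=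
  t.foldr (fun e s => if G.a e = true then dsh 1 s else if G.b e = true then dhs s else (1, 1)) (1, 1)

theorem tauC_cons (e : ℕ) (t : List ℕ) : tauC G (e :: t) =
    if G.a e = true then dsh 1 (tauC G t) else if G.b e = true then dhs (tauC G t) else (1, 1) := rfl

theorem dv_one_one : dv (1, 1) = 1 / 2 := by simp [dv]

theorem dv_zero : dv (0, 0) = 0 := by simp [dv]

theorem dv_tauC (t : List ℕ) (z : ℕ → ℕ) : dv (tauC G t) = tau (consL t (wp z : Pt G)) := by
  induction t with
  | nil =>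
    rw [consL_nil, tau_wp]
    exact dv_one_one
  | cons e t ih =>
    rw [consL_cons, tau_cons, tauC_cons, ← ih]
    split_ifs
    · rw [dv_dsh]; ring
    · rw [dv_dhs]
    · exact dv_one_one

theorem dv_tauC_le (t : List ℕ) : dv (tauC G t) ≤ 1 := by
  rw [dv_tauC t (fun _ => 0)]; exact tau_le_one _

theorem pr_tauC (ha : Primrec G.a) (hb : Primrec G.b) : Primrec (tauC G) := by
  unfold tauC
  refine Primrec.list_foldr (f := fun t : List ℕ => t) (g := fun _ => ((1 : ℕ), (1 : ℕ)))
    (h := fun _ p => if G.a p.1 = true then dsh 1 p.2 else if G.b p.1 = true then dhs p.2 else (1, 1))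
    Primrec.id (Primrec.const _) ?_
  refine Primrec.to₂ (f := fun q : List ℕ × (ℕ × (ℕ × ℕ)) => if G.a q.2.1 = true then dsh 1 q.2.2
    else if G.b q.2.1 = true then dhs q.2.2 else (1, 1)) ?_
  have h1 : Primrec fun q : List ℕ × (ℕ × (ℕ × ℕ)) => q.2.1 := Primrec.fst.comp Primrec.snd
  have h2 : Primrec fun q : List ℕ × (ℕ × (ℕ × ℕ)) => q.2.2 := Primrec.snd.comp Primrec.snd
  refine Primrec.ite ?_ (pr_dsh (Primrec.const 1) h2) (Primrec.ite ?_ (pr_dhs h2) (Primrec.const _))
  · exact Primrec.eq.comp (ha.comp h1) (Primrec.const true)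
  · exact Primrec.eq.comp (hb.comp h1) (Primrec.const true)

/-! ### es -/

def esC (G : Gd) (t : List ℕ) (i : Bool) : ℕ × ℕ :=
  List.casesOn t (0, 0) (fun _ t' => if i = true then dom (tauC G t') else tauC G t')

theorem dv_esC (t : List ℕ) (z : ℕ → ℕ) (i : Bool) :
    dv (esC G t i) = es (consL t (wp z : Pt G)) i := by
  cases t with
  | nil =>
    rw [consL_nil, es_wp]
    exact dv_zero
  | cons e t =>
    rw [consL_cons, es_cons, ← dv_tauC t z]
    unfold esC
    dsimp only
    split_ifs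
    · exact dv_dom _ (dv_tauC_le t)
    · rfl

theorem pr_esC {α : Type} [Primcodable α] {f : α → List ℕ} (ha : Primrec G.a) (hb : Primrec G.b)
    (hf : Primrec f) (i : Bool) : Primrec fun a => esC G (f a) i := by
  unfold esC
  refine Primrec.list_casesOn (h := fun _ p => if i = true then dom (tauC G p.2) else tauC G p.2)
    hf (Primrec.const _) ?_
  have h2 : Primrec fun q : α × (ℕ × List ℕ) => tauC G q.2.2 :=
    (pr_tauC ha hb).comp (Primrec.snd.comp Primrec.snd)
  cases i
  · exact h2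
  · exact pr_dom h2

/-! ### labels -/

/-- partial sequence of a code -/
def lab (x : Bool × List ℕ) : ℕ → Option ℕ := if x.1 = true then tz (pad x.2) else tl x.2

def labC (G : Gd) (t l : List ℕ) (i : Bool) : Bool × List ℕ :=
  List.casesOn t (true, l) (fun e _ => (false, if i = true then G.R e else G.L e))

theorem lab_labC (t l : List ℕ) (i : Bool) :
    lab (labC G t l i) = el (consL t (wp (pad l)) : Pt G) i := by
  cases t with
  | nil => rfl
  | cons e t =>
    rw [consL_cons, el_cons]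
    unfold labC lab
    dsimp only
    cases i <;> rfl

theorem pr_labC {α : Type} [Primcodable α] {f g : α → List ℕ} (hL : Primrec G.L) (hR : Primrec G.R)
    (hf : Primrec f) (hg : Primrec g) (i : Bool) : Primrec fun a => labC G (f a) (g a) i := by
  unfold labC
  refine Primrec.list_casesOn (g := fun a => (true, g a))
    (h := fun _ p => (false, if i = true then G.R p.1 else G.L p.1))
    hf (Primrec.pair (Primrec.const _) hg) ?_
  have h1 : Primrec fun q : α × (ℕ × List ℕ) => q.2.1 := Primrec.fst.comp Primrec.snd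
  refine Primrec.pair (Primrec.const _) ?_
  cases i
  · exact hL.comp h1
  · exact hR.comp h1

def labB (x : Bool × List ℕ) (n : ℕ) : Option ℕ := if x.1 = true then some (x.2.getD n 0) else x.2[n]?

theorem lab_eq (x : Bool × List ℕ) (n : ℕ) : lab x n = labB x n := by
  unfold lab labB
  split_ifs <;> rfl

theorem pr_labB : Primrec₂ labB := by
  unfold labB
  refine Primrec.to₂ (f := fun q : (Bool × List ℕ) × ℕ => if q.1.1 = true then
    some (q.1.2.getD q.2 0) else q.1.2[q.2]?) ?_
  refine Primrec.ite (Primrec.eq.comp (Primrec.fst.comp Primrec.fst) (Primrec.const true)) ?_ ?_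
  · exact Primrec.option_some.comp ((Primrec.list_getD 0).comp (Primrec.snd.comp Primrec.fst) Primrec.snd)
  · exact Primrec.list_getElem?.comp (Primrec.snd.comp Primrec.fst) Primrec.snd

def dif (p : (Bool × List ℕ) × (Bool × List ℕ)) (n : ℕ) : Bool :=
  !(decide (labB p.1 n = labB p.2 n) && (labB p.1 n).isSome)

theorem pr_dif : Primrec₂ dif := by
  unfold dif
  have h1 : Primrec fun q : ((Bool × List ℕ) × (Bool × List ℕ)) × ℕ => labB q.1.1 q.2 :=
    pr_labB.comp (Primrec.fst.comp Primrec.fst) Primrec.snd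
  have h2 : Primrec fun q : ((Bool × List ℕ) × (Bool × List ℕ)) × ℕ => labB q.1.2 q.2 :=
    pr_labB.comp (Primrec.snd.comp Primrec.fst) Primrec.snd
  exact Primrec.not.comp (Primrec.and.comp
    ((Primrec.eq (α := Option ℕ)).decide.comp h1 h2)
    (Primrec.option_isSome.comp h1))

theorem dif_false {p : (Bool × List ℕ) × (Bool × List ℕ)} {n : ℕ} :
    dif p n = false ↔ lab p.1 n = lab p.2 n ∧ lab p.1 n ≠ none := by
  unfold dif
  rw [lab_eq, lab_eq]
  simp [Option.ne_none_iff_isSome]

def fdi (p : (Bool × List ℕ) × (Bool × List ℕ)) : ℕ :=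
  (List.range (p.1.2.length + p.2.2.length + 1)).findIdx (dif p)

theorem pr_fdi : Primrec fdi := by
  unfold fdi
  refine Primrec.list_findIdx ?_ pr_dif
  refine Primrec.list_range.comp (Primrec.succ.comp (Primrec.nat_add.comp ?_ ?_))
  · exact Primrec.list_length.comp (Primrec.snd.comp Primrec.fst)
  · exact Primrec.list_length.comp (Primrec.snd.comp Primrec.snd)

def dlC (p : (Bool × List ℕ) × (Bool × List ℕ)) : ℕ × ℕ :=
  if fdi p < p.1.2.length + p.2.2.length + 1 then (1, fdi p) else (0, 0)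

theorem pr_dlC : Primrec dlC := by
  unfold dlC
  refine Primrec.ite ?_ (Primrec.pair (Primrec.const _) pr_fdi) (Primrec.const _)
  refine Primrec.nat_lt.comp pr_fdi (Primrec.succ.comp (Primrec.nat_add.comp ?_ ?_))
  · exact Primrec.list_length.comp (Primrec.snd.comp Primrec.fst)
  · exact Primrec.list_length.comp (Primrec.snd.comp Primrec.snd)

theorem dl_eq_pow {u v : ℕ → Option ℕ} {n : ℕ} (h1 : Ag u v n) (h2 : ¬ Ag u v (n + 1)) :
    dl u v = (1 / 2) ^ n := by
  rcases dl_cases u v with ⟨_, h⟩ | ⟨m, e, h3, h4⟩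
  · exact absurd (h _) h2
  · have hmn : m = n := by
      apply le_antisymm
      · by_contra hc
        exact h2 (h3.mono (by omega))
      · by_contra hc
        exact h4 (h1.mono (by omega))
    rw [e, hmn]

theorem dl_eq_zero {u v : ℕ → Option ℕ} (h1 : ∀ n, Ag u v n) : dl u v = 0 := by
  rcases dl_cases u v with ⟨h, _⟩ | ⟨m, e, h3, h4⟩
  · exact h
  · exact absurd (h1 _) h4

theorem dv_dlC (p : (Bool × List ℕ) × (Bool × List ℕ)) : dv (dlC p) = dl (lab p.1) (lab p.2) := by
  unfold dlC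
  have hlt : ∀ j, j < fdi p → dif p j = false := by
    intro j hj
    have hjN : j < p.1.2.length + p.2.2.length + 1 := by
      have : fdi p ≤ (List.range (p.1.2.length + p.2.2.length + 1)).length := List.findIdx_le_length
      rw [List.length_range] at this
      omega
    have := List.not_of_lt_findIdx (p := dif p) (xs := List.range (p.1.2.length + p.2.2.length + 1)) hj
    simpa using this
  split_ifs with h
  · have hag : Ag (lab p.1) (lab p.2) (fdi p) := fun i hi => dif_false.1 (hlt i hi)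
    have hnot : ¬ Ag (lab p.1) (lab p.2) (fdi p + 1) := by
      intro hc
      have h1 := dif_false.2 (hc (fdi p) (by omega))
      have h2 := List.findIdx_getElem (p := dif p)
        (xs := List.range (p.1.2.length + p.2.2.length + 1)) (w := by rw [List.length_range]; exact h)
      rw [List.getElem_range] at h2
      have h3 : dif p (fdi p) = true := h2
      rw [h1] at h3
      exact absurd h3 (by simp)
    rw [dl_eq_pow hag hnot]
    simp [dv]
  · rw [dv_zero]
    symm
    have hag : Ag (lab p.1) (lab p.2) (p.1.2.length + p.2.2.length + 1) :=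
      fun i hi => dif_false.1 (hlt i (by omega))
    have hp1 : p.1.1 = true := by
      by_contra hc
      have : lab p.1 = tl p.1.2 := by unfold lab; rw [if_neg hc]
      rw [this] at hag
      have := Ag_tl_length hag
      omega
    have hp2 : p.2.1 = true := by
      by_contra hc
      have : lab p.2 = tl p.2.2 := by unfold lab; rw [if_neg hc]
      rw [this] at hag
      have := Ag_tl_length hag.symm
      omega
    have e1 : lab p.1 = tz (pad p.1.2) := by unfold lab; rw [if_pos hp1]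
    have e2 : lab p.2 = tz (pad p.2.2) := by unfold lab; rw [if_pos hp2]
    rw [e1, e2] at hag ⊢
    apply dl_eq_zero
    intro n i _
    refine ⟨?_, by simp [tz]⟩
    by_cases hi : i < p.1.2.length + p.2.2.length + 1
    · exact (hag i hi).1
    · unfold tz pad
      rw [List.getD_eq_default _ _ (by omega), List.getD_eq_default _ _ (by omega)]

/-! ### D0 -/

/-- code of a point -/
def D1C (G : Gd) (t l t' l' : List ℕ) (i j : Bool) : ℕ × ℕ :=
  dmx (esC G t i) (dmx (dlC (labC G t l i, labC G t' l' j)) (esC G t' j))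

theorem dv_D1C (t l t' l' : List ℕ) (i j : Bool) : dv (D1C G t l t' l' i j) =
    D1 (consL t (wp (pad l)) : Pt G) (consL t' (wp (pad l'))) i j := by
  unfold D1C D1
  rw [dv_dmx, dv_dmx, dv_esC t (pad l), dv_esC t' (pad l'), dv_dlC, lab_labC, lab_labC]

def D0C (G : Gd) (t l t' l' : List ℕ) : ℕ × ℕ :=
  dmn (dmn (D1C G t l t' l' false false) (D1C G t l t' l' false true))
    (dmn (D1C G t l t' l' true false) (D1C G t l t' l' true true))

theorem dv_D0C (t l t' l' : List ℕ) : dv (D0C G t l t' l') =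
    D0 (consL t (wp (pad l)) : Pt G) (consL t' (wp (pad l'))) := by
  unfold D0C D0
  simp only [dv_dmn, dv_D1C]

section
variable {α : Type} [Primcodable α] {f g f' g' : α → List ℕ}

theorem pr_D1C (hL : Primrec G.L) (hR : Primrec G.R) (ha : Primrec G.a) (hb : Primrec G.b)
    (hf : Primrec f) (hg : Primrec g) (hf' : Primrec f') (hg' : Primrec g') (i j : Bool) :
    Primrec fun a => D1C G (f a) (g a) (f' a) (g' a) i j := by
  unfold D1C
  refine pr_dmx (pr_esC ha hb hf i) (pr_dmx (pr_dlC.comp ?_) (pr_esC ha hb hf' j))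
  exact Primrec.pair (pr_labC hL hR hf hg i) (pr_labC hL hR hf' hg' j)

theorem pr_D0C (hL : Primrec G.L) (hR : Primrec G.R) (ha : Primrec G.a) (hb : Primrec G.b)
    (hf : Primrec f) (hg : Primrec g) (hf' : Primrec f') (hg' : Primrec g') :
    Primrec fun a => D0C G (f a) (g a) (f' a) (g' a) := by
  unfold D0C
  have h := fun i j => pr_D1C hL hR ha hb hf hg hf' hg' i j
  exact pr_dmn (pr_dmn (h _ _) (h _ _)) (pr_dmn (h _ _) (h _ _))

end

/-! ### the distance -/

def ceN (G : Gd) (e : ℕ) : ℕ := max (G.L e).length (G.R e).length + 1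

theorem ce_ceN (e : ℕ) : ce G e = (1 / 2) ^ ceN G e := rfl

theorem pr_ceN (hL : Primrec G.L) (hR : Primrec G.R) : Primrec (ceN G) := by
  unfold ceN
  exact Primrec.succ.comp (Primrec.nat_max.comp (Primrec.list_length.comp hL)
    (Primrec.list_length.comp hR))

/-- one step: the distance of the points with words `t`, `t'`, from the distance for the tails -/
def stC (G : Gd) (l l' t t' : List ℕ) (s : ℕ × ℕ) : ℕ × ℕ :=
  if t.head? = t'.head? ∧ t.head?.isSome = true then
    dmx (dab (tauC G t.tail) (tauC G t'.tail)) (dsh (ceN G t.headI) s)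
  else D0C G t l t' l'

theorem dv_stC (l l' t t' : List ℕ) (s : ℕ × ℕ)
    (hs : dv s = dist (consL t.tail (wp (pad l)) : Pt G) (consL t'.tail (wp (pad l')))) :
    dv (stC G l l' t t' s) = dist (consL t (wp (pad l)) : Pt G) (consL t' (wp (pad l'))) := by
  unfold stC
  split_ifs with h
  · obtain ⟨h1, h2⟩ := h
    cases t with
    | nil => simp at h2
    | cons e t =>
      cases t' with
      | nil => simp at h1
      | cons e' t' =>
        simp only [List.head?_cons, Option.some.injEq] at h1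
        subst h1
        simp only [List.tail_cons, List.headI_cons, consL_cons] at hs ⊢
        rw [dv_dmx, dv_dab, dv_dsh, dist_same, hs, dv_tauC t (pad l), dv_tauC t' (pad l'), ce_ceN]
  · rw [dv_D0C, dist_df]
    cases t with
    | nil => exact df_wp_left _ _
    | cons e t =>
      cases t' with
      | nil => exact df_wp_right _ _
      | cons e' t' =>
        apply df_cons
        rintro rfl
        exact h ⟨rfl, rfl⟩

/-- the distance by recursion on dropped lists -/
def diN (G : Gd) (l l' t t' : List ℕ) (N : ℕ) (n : ℕ) : ℕ × ℕ :=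
  Nat.rec (D0C G [] l [] l')
    (fun n s => stC G l l' (t.drop (N - (n + 1))) (t'.drop (N - (n + 1))) s) n

theorem dv_diN (l l' t t' : List ℕ) (N n : ℕ) (hN : t.length ≤ N) (hN' : t'.length ≤ N) (hn : n ≤ N) :
    dv (diN G l l' t t' N n) =
      dist (consL (t.drop (N - n)) (wp (pad l)) : Pt G) (consL (t'.drop (N - n)) (wp (pad l'))) := by
  induction n with
  | zero =>
    have e1 : t.drop (N - 0) = [] := List.drop_eq_nil_of_le (by omega)
    have e2 : t'.drop (N - 0) = [] := List.drop_eq_nil_of_le (by omega)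
    rw [e1, e2]
    change dv (D0C G [] l [] l') = _
    rw [dv_D0C]
    exact (dist_df (df_wp_left _ _)).symm
  | succ n ih =>
    have ih := ih (by omega)
    change dv (stC G l l' (t.drop (N - (n + 1))) (t'.drop (N - (n + 1))) (diN G l l' t t' N n)) = _
    apply dv_stC
    rw [ih, List.tail_drop, List.tail_drop]
    have : N - (n + 1) + 1 = N - n := by omega
    rw [this]

def diC (G : Gd) (p : (List ℕ × List ℕ) × (List ℕ × List ℕ)) : ℕ × ℕ :=
  diN G p.1.2 p.2.2 p.1.1 p.2.1 (p.1.1.length + p.2.1.length) (p.1.1.length + p.2.1.length)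

theorem dv_diC (p : (List ℕ × List ℕ) × (List ℕ × List ℕ)) : dv (diC G p) =
    dist (consL p.1.1 (wp (pad p.1.2)) : Pt G) (consL p.2.1 (wp (pad p.2.2))) := by
  unfold diC
  rw [dv_diN _ _ _ _ _ _ (by omega) (by omega) le_rfl]
  simp

theorem pr_diC (hL : Primrec G.L) (hR : Primrec G.R) (ha : Primrec G.a) (hb : Primrec G.b) :
    Primrec (diC G) := by
  have k11 : Primrec fun p : (List ℕ × List ℕ) × (List ℕ × List ℕ) => p.1.1 :=
    Primrec.fst.comp Primrec.fst
  have k12 : Primrec fun p : (List ℕ × List ℕ) × (List ℕ × List ℕ) => p.1.2 :=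
    Primrec.snd.comp Primrec.fst
  have k21 : Primrec fun p : (List ℕ × List ℕ) × (List ℕ × List ℕ) => p.2.1 :=
    Primrec.fst.comp Primrec.snd
  have k22 : Primrec fun p : (List ℕ × List ℕ) × (List ℕ × List ℕ) => p.2.2 :=
    Primrec.snd.comp Primrec.snd
  have kN : Primrec fun p : (List ℕ × List ℕ) × (List ℕ × List ℕ) =>
      p.1.1.length + p.2.1.length :=
    Primrec.nat_add.comp (Primrec.list_length.comp k11) (Primrec.list_length.comp k21)
  refine Primrec.nat_rec' (f := fun p : (List ℕ × List ℕ) × (List ℕ × List ℕ) =>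
      p.1.1.length + p.2.1.length)
    (g := fun p => D0C G [] p.1.2 [] p.2.2)
    (h := fun p q => stC G p.1.2 p.2.2
      (p.1.1.drop (p.1.1.length + p.2.1.length - (q.1 + 1)))
      (p.2.1.drop (p.1.1.length + p.2.1.length - (q.1 + 1))) q.2) kN ?_ ?_
  · exact pr_D0C hL hR ha hb (Primrec.const _) k12 (Primrec.const _) k22
  · have m : Primrec fun r : ((List ℕ × List ℕ) × (List ℕ × List ℕ)) × (ℕ × (ℕ × ℕ)) =>
        r.1.1.1.length + r.1.2.1.length - (r.2.1 + 1) :=
      Primrec.nat_sub.comp (kN.comp Primrec.fst)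
        (Primrec.succ.comp (Primrec.fst.comp Primrec.snd))
    have u : Primrec fun r : ((List ℕ × List ℕ) × (List ℕ × List ℕ)) × (ℕ × (ℕ × ℕ)) =>
        r.1.1.1.drop (r.1.1.1.length + r.1.2.1.length - (r.2.1 + 1)) :=
      Primrec.list_drop.comp m (k11.comp Primrec.fst)
    have u' : Primrec fun r : ((List ℕ × List ℕ) × (List ℕ × List ℕ)) × (ℕ × (ℕ × ℕ)) =>
        r.1.2.1.drop (r.1.1.1.length + r.1.2.1.length - (r.2.1 + 1)) :=
      Primrec.list_drop.comp m (k21.comp Primrec.fst)
    unfold stC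
    refine Primrec.ite (PrimrecPred.and ?_ ?_) ?_ ?_
    · exact Primrec.eq.comp (Primrec.list_head?.comp u) (Primrec.list_head?.comp u')
    · exact Primrec.eq.comp (Primrec.option_isSome.comp (Primrec.list_head?.comp u))
        (Primrec.const true)
    · refine pr_dmx (pr_dab ?_ ?_) (pr_dsh ?_ ?_)
      · exact (pr_tauC ha hb).comp (Primrec.list_tail.comp u)
      · exact (pr_tauC ha hb).comp (Primrec.list_tail.comp u')
      · exact (pr_ceN hL hR).comp (Primrec.list_headI.comp u)
      · exact Primrec.snd.comp Primrec.snd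
    · exact pr_D0C hL hR ha hb u (k12.comp Primrec.fst) u' (k22.comp Primrec.fst)

/-- TARGET: the distances of the ideal points are uniformly computable -/
theorem dist_comp (G : Gd) (hL : Primrec G.L) (hR : Primrec G.R) (ha : Primrec G.a)
    (hb : Primrec G.b) : ∃ q : ℕ × ℕ × ℕ → ℕ, Computable q ∧
    ∀ i j k, |dist (cpt G i) (cpt G j) - (q (i, j, k) : ℝ) / 2 ^ k| ≤ 1 / 2 ^ k := by
  let D : ℕ × ℕ × ℕ → ℕ × ℕ := fun x =>
    diC G (Denumerable.ofNat (List ℕ × List ℕ) x.1, Denumerable.ofNat (List ℕ × List ℕ) x.2.1)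
  have hD : Primrec D := by
    refine (pr_diC hL hR ha hb).comp (Primrec.pair ?_ ?_)
    · exact (Primrec.ofNat _).comp Primrec.fst
    · exact (Primrec.ofNat _).comp (Primrec.fst.comp Primrec.snd)
  refine ⟨fun x => (D x).1 * 2 ^ x.2.2 / 2 ^ (D x).2, ?_, ?_⟩
  · apply Primrec.to_comp
    refine Primrec.nat_div.comp (Primrec.nat_mul.comp (Primrec.fst.comp hD) (pr_pow2 ?_))
      (pr_pow2 (Primrec.snd.comp hD))
    exact Primrec.snd.comp Primrec.snd
  · intro i j k
    have hd : dist (cpt G i) (cpt G j) = dv (D (i, j, k)) := by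
      rw [dv_diC]; rfl
    rw [hd]
    set m := (D (i, j, k)).1
    set K := (D (i, j, k)).2
    have hdv : dv (D (i, j, k)) = (m : ℝ) / 2 ^ K := rfl
    rw [hdv]
    change |(m : ℝ) / 2 ^ K - ((m * 2 ^ k / 2 ^ K : ℕ) : ℝ) / 2 ^ k| ≤ 1 / 2 ^ k
    have h1 : ((m * 2 ^ k / 2 ^ K : ℕ) : ℝ) * 2 ^ K ≤ m * 2 ^ k := by
      have := Nat.div_mul_le_self (m * 2 ^ k) (2 ^ K)
      exact_mod_cast this
    have h2 : (m : ℝ) * 2 ^ k < (((m * 2 ^ k / 2 ^ K : ℕ) : ℝ) + 1) * 2 ^ K := by
      have := Nat.lt_div_mul_add (a := m * 2 ^ k) (b := 2 ^ K) (by positivity)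
      have h3 : m * 2 ^ k < (m * 2 ^ k / 2 ^ K + 1) * 2 ^ K := by
        rw [add_mul, one_mul]; exact this
      exact_mod_cast h3
    set Q : ℝ := ((m * 2 ^ k / 2 ^ K : ℕ) : ℝ)
    have hk : (0 : ℝ) < 2 ^ k := by positivity
    have hK : (0 : ℝ) < 2 ^ K := by positivity
    rw [abs_le]
    constructor
    · have : Q / 2 ^ k ≤ (m : ℝ) / 2 ^ K := by
        rw [div_le_div_iff₀ hk hK]; exact h1
      have : (0 : ℝ) ≤ 1 / 2 ^ k := by positivity
      linarith
    · have : (m : ℝ) / 2 ^ K ≤ (Q + 1) / 2 ^ k := by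
        rw [div_le_div_iff₀ hK hk]; exact h2.le
      rw [add_div] at this
      linarith

end Pool.Agent.Helper583.TC.J11
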