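import Pool.Agent.Helper583.TCDefs

namespace Pool.Agent.Helper583.TC.J12

/-- the `i`-th entry of the `j`-th list -/
def stA (j i : ℕ) : ℕ := ((Encodable.decode (α := List ℕ) j).getD []).getD i 0

theorem stA_comp : Computable₂ stA := by
  have h1 : Computable fun x : ℕ × ℕ => (Encodable.decode (α := List ℕ) x.1).getD [] :=
    Computable.option_getD (Computable.decode.comp Computable.fst) (Computable.const [])
  exact (Primrec.list_getD 0).to_comp.comp h1 Computable.snd

theorem stA_encode (l : List ℕ) (i : ℕ) : stA (Encodable.encode l) i = l.getD i 0 := by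
  simp [stA]

/-- approximations of the distances -/
def stQ (i j : ℕ) : ℕ → ℕ
  | 0 => 0
  | k + 1 => if stQ i j k = 0 then (if stA i k = stA j k then 0 else 2) else 2 * stQ i j k

theorem stQ_spec (i j k : ℕ) : ((∀ m < k, stA i m = stA j m) ∧ stQ i j k = 0) ∨
    ∃ n < k, (∀ m < n, stA i m = stA j m) ∧ stA i n ≠ stA j n ∧ stQ i j k = 2 ^ (k - n) := by
  induction k with
  | zero => left; exact ⟨fun m hm => absurd hm (Nat.not_lt_zero m), rfl⟩
  | succ k ih =>
    rcases ih with ⟨h1, h2⟩ | ⟨n, hn, h1, h2, h3⟩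
    · by_cases h : stA i k = stA j k
      · left
        refine ⟨fun m hm => ?_, ?_⟩
        · rcases Nat.lt_succ_iff_lt_or_eq.1 hm with h4 | h4
          · exact h1 m h4
          · rw [h4]; exact h
        · simp [stQ, h2, h]
      · right
        refine ⟨k, Nat.lt_succ_self k, h1, h, ?_⟩
        simp [stQ, h2, h]
    · right
      refine ⟨n, by omega, h1, h2, ?_⟩
      have h4 : (2 : ℕ) ^ (k - n) ≠ 0 := by positivity
      have h5 : k + 1 - n = (k - n) + 1 := by omega
      simp only [stQ, h3, h4, if_false, h5, pow_succ]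
      ring

theorem stQ_comp : Computable fun p : ℕ × ℕ × ℕ => stQ p.1 p.2.1 p.2.2 := by
  have hh : Computable₂ fun (a : ℕ × ℕ × ℕ) (y : ℕ × ℕ) =>
      bif decide (y.2 = 0) then (bif decide (stA a.1 y.1 = stA a.2.1 y.1) then 0 else 2) else 2 * y.2 := by
    have e1 : Computable fun x : (ℕ × ℕ × ℕ) × (ℕ × ℕ) => decide (x.2.2 = 0) :=
      (Primrec.eq (α := ℕ)).decide.to_comp.comp (Computable.snd.comp Computable.snd) (Computable.const 0)
    have a1 : Computable fun x : (ℕ × ℕ × ℕ) × (ℕ × ℕ) => stA x.1.1 x.2.1 :=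
      stA_comp.comp (Computable.fst.comp Computable.fst) (Computable.fst.comp Computable.snd)
    have a2 : Computable fun x : (ℕ × ℕ × ℕ) × (ℕ × ℕ) => stA x.1.2.1 x.2.1 :=
      stA_comp.comp (Computable.fst.comp (Computable.snd.comp Computable.fst))
        (Computable.fst.comp Computable.snd)
    have e2 : Computable fun x : (ℕ × ℕ × ℕ) × (ℕ × ℕ) => decide (stA x.1.1 x.2.1 = stA x.1.2.1 x.2.1) :=
      (Primrec.eq (α := ℕ)).decide.to_comp.comp a1 a2
    have e3 : Computable fun x : (ℕ × ℕ × ℕ) × (ℕ × ℕ) => 2 * x.2.2 :=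
      Primrec.nat_mul.to_comp.comp (Computable.const 2) (Computable.snd.comp Computable.snd)
    exact Computable.cond e1 (Computable.cond e2 (Computable.const 0) (Computable.const 2)) e3
  have h := Computable.nat_rec (f := fun p : ℕ × ℕ × ℕ => p.2.2) (g := fun _ => 0)
    (Computable.snd.comp Computable.snd) (Computable.const 0) hh
  refine h.of_eq (fun p => ?_)
  obtain ⟨i, j, k⟩ := p
  show Nat.rec 0 _ k = stQ i j k
  induction k with
  | zero => rfl
  | succ k ih =>
    show (bif decide (Nat.rec 0 _ k = 0) then _ else _) = _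
    rw [ih]
    simp only [stQ]
    by_cases h1 : stQ i j k = 0
    · by_cases h2 : stA i k = stA j k <;> simp [h1, h2]
    · simp [h1]

section

attribute [local instance] PiNat.metricSpace

theorem st_dist_le {x y : ℕ → ℕ} {n : ℕ} (h : ∀ i < n, x i = y i) : dist x y ≤ (1 / 2 : ℝ) ^ n :=
  PiNat.mem_cylinder_iff_dist_le.1 (fun i hi => h i hi)

theorem st_dist_eq {x y : ℕ → ℕ} {n : ℕ} (h : ∀ i < n, x i = y i) (hn : x n ≠ y n) :
    dist x y = (1 / 2 : ℝ) ^ n := by
  have hne : x ≠ y := fun h0 => hn (by rw [h0])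
  have h1 : PiNat.firstDiff x y = n := by
    rcases lt_trichotomy (PiNat.firstDiff x y) n with h2 | h2 | h2
    · exact absurd (h _ h2) (PiNat.apply_firstDiff_ne hne)
    · exact h2
    · exact absurd (PiNat.apply_eq_of_lt_firstDiff h2) hn
  rw [← h1]
  exact PiNat.dist_eq_of_ne hne

theorem st_apply {x y : ℕ → ℕ} {n : ℕ} (h : dist x y < 1 / 2 ^ n) : ∀ i ≤ n, x i = y i := by
  intro i hi
  have h2 : dist x y < (1 / 2 : ℝ) ^ n := by rw [one_div_pow]; exact h
  exact PiNat.apply_eq_of_dist_lt h2 hi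

theorem st_dense : DenseRange stA := by
  rw [Metric.denseRange_iff]
  intro x r hr
  obtain ⟨n, hn⟩ := exists_pow_lt_of_lt_one hr (by norm_num : (1 / 2 : ℝ) < 1)
  refine ⟨Encodable.encode ((List.range n).map x), lt_of_le_of_lt (st_dist_le (n := n) ?_) hn⟩
  intro i hi
  rw [stA_encode]
  simp [List.getD, hi]

/-- the standard presentation -/
noncomputable def stN : Pres where
  Y := ℕ → ℕ
  ms := PiNat.metricSpace
  cs := PiNat.completeSpace
  c := stA
  dense := st_dense
  comp := by
    refine ⟨fun p => stQ p.1 p.2.1 p.2.2, stQ_comp, ?_⟩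
    intro i j k
    simp only
    rcases stQ_spec i j k with ⟨h1, h2⟩ | ⟨n, hn, h1, h2, h3⟩
    · rw [h2]
      have h4 := st_dist_le (n := k) h1
      have h5 : (0 : ℝ) ≤ dist (stA i) (stA j) := dist_nonneg
      rw [one_div_pow] at h4
      simp only [Nat.cast_zero, zero_div, sub_zero]
      rw [abs_of_nonneg h5]
      exact h4
    · rw [h3, st_dist_eq h1 h2]
      have h4 : ((2 ^ (k - n) : ℕ) : ℝ) / 2 ^ k = (1 / 2 : ℝ) ^ n := by
        have h5 : (2 : ℝ) ^ k = 2 ^ (k - n) * 2 ^ n := by
          rw [← pow_add]; congr 1; omega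
        rw [h5, one_div_pow]
        push_cast
        field_simp
      rw [h4, sub_self, abs_zero]
      positivity
  homeo := ⟨Homeomorph.refl _⟩

/-- the test for a cylinder -/
def stB (x : ℕ → ℕ) : ℕ → ℕ → Bool
  | 0, _ => true
  | n + 1, j => stB x n j && decide (stA j n = x n)

theorem stB_comp (x : ℕ → ℕ) (n : ℕ) : Computable (stB x n) := by
  induction n with
  | zero => exact Computable.const true
  | succ n ih =>
    have e1 : Computable fun j : ℕ => stA j n := stA_comp.comp Computable.id (Computable.const n)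
    have e2 : Computable fun j : ℕ => decide (stA j n = x n) :=
      (Primrec.eq (α := ℕ)).decide.to_comp.comp e1 (Computable.const (x n))
    exact Primrec.and.to_comp.comp ih e2

theorem stB_iff (x : ℕ → ℕ) (n j : ℕ) : stB x n j = true ↔ ∀ i < n, stA j i = x i := by
  induction n with
  | zero => simp [stB]
  | succ n ih =>
    simp only [stB, Bool.and_eq_true, ih, decide_eq_true_eq]
    constructor
    · rintro ⟨h1, h2⟩ i hi
      rcases Nat.lt_succ_iff_lt_or_eq.1 hi with h4 | h4
      · exact h1 i h4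
      · rw [h4]; exact h2
    · intro h
      exact ⟨fun i hi => h i (by omega), h n (by omega)⟩

theorem st_clopen (x : ℕ → ℕ) (n : ℕ) : IsClopen {y : ℕ → ℕ | ∀ i < n, y i = x i} := by
  constructor
  · rw [← isOpen_compl_iff, Metric.isOpen_iff]
    intro y hy
    refine ⟨1 / 2 ^ n, by positivity, ?_⟩
    intro z hz hzm
    apply hy
    intro i hi
    have h1 := st_apply (Metric.mem_ball.1 hz) i hi.le
    rw [← h1]
    exact hzm i hi
  · rw [Metric.isOpen_iff]
    intro y hy
    refine ⟨1 / 2 ^ n, by positivity, ?_⟩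
    intro z hz i hi
    have h1 := st_apply (Metric.mem_ball.1 hz) i hi.le
    rw [h1]
    exact hy i hi

/-- TARGET: a standard presentation in which clopen sets can be decided from names -/
theorem exists_std : ∃ N : Pres, ∀ x₁ x₂ : N.Y, x₁ ≠ x₂ →
    ∃ (C : Set N.Y) (n₀ : ℕ) (β : ℕ → Bool), IsClopen C ∧ x₁ ∈ C ∧ x₂ ∉ C ∧ Computable β ∧
      ∀ (x : N.Y) (j : ℕ), dist (N.c j) x < 1 / 2 ^ n₀ → (β j = true ↔ x ∈ C) := by
  refine ⟨stN, ?_⟩
  intro x₁ x₂ hne
  obtain ⟨m, hm⟩ := Function.ne_iff.1 (show (x₁ : ℕ → ℕ) ≠ x₂ from hne)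
  refine ⟨{y : ℕ → ℕ | ∀ i < m + 1, y i = (x₁ : ℕ → ℕ) i}, m + 1, stB x₁ (m + 1), st_clopen _ _,
    fun i _ => rfl, ?_, stB_comp _ _, ?_⟩
  · intro h
    exact hm (h m (Nat.lt_succ_self m)).symm
  · intro x j hd
    refine (stB_iff x₁ (m + 1) j).trans ?_
    have h1 := st_apply (x := stA j) (y := x) hd
    constructor
    · intro h i hi
      rw [← h1 i hi.le]
      exact h i hi
    · intro h i hi
      rw [h1 i hi.le]
      exact h i hi

end

end Pool.Agent.Helper583.TC.J12
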