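import Pool.Agent.Helper583.TCDefs

namespace Pool.Agent.Helper583.TC.J13

theorem tr_comp {O : Set (ℕ →. ℕ)} {f g : ℕ → ℕ} (hf : Nat.RecursiveIn O (orc f)) (hg : Nat.RecursiveIn O (orc g)) :
    Nat.RecursiveIn O (orc (fun n => f (g n))) := by
  refine (Nat.RecursiveIn.comp hf hg).of_eq fun n => ?_
  unfold orc
  exact Part.bind_some _ _

theorem tr_pair {O : Set (ℕ →. ℕ)} {f g : ℕ → ℕ} (hf : Nat.RecursiveIn O (orc f)) (hg : Nat.RecursiveIn O (orc g)) :
    Nat.RecursiveIn O (orc (fun n => Nat.pair (f n) (g n))) := by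
  refine (Nat.RecursiveIn.pair hf hg).of_eq fun n => ?_
  simp [orc, Seq.seq]

theorem tr_prim {O : Set (ℕ →. ℕ)} {f : ℕ → ℕ} (hf : Nat.Primrec f) : Nat.RecursiveIn O (orc f) :=
  (Nat.Primrec.recursiveIn hf).of_eq fun _ => rfl

theorem tr_prec {O : Set (ℕ →. ℕ)} {f h : ℕ → ℕ} (hf : Nat.RecursiveIn O (orc f)) (hh : Nat.RecursiveIn O (orc h)) :
    Nat.RecursiveIn O (orc (fun p => Nat.rec (f (Nat.unpair p).1)
      (fun y IH => h (Nat.pair (Nat.unpair p).1 (Nat.pair y IH))) (Nat.unpair p).2)) := by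
  refine (Nat.RecursiveIn.prec hf hh).of_eq fun p => ?_
  simp only [orc]
  generalize (Nat.unpair p).2 = n
  generalize (Nat.unpair p).1 = a
  induction n with
  | zero => rfl
  | succ n ih =>
    simp only [ih]
    simp

def KK (p : ℕ) : ℕ := Encodable.encode (Nat.bodd (Nat.unpair p).1 :: dw (Nat.unpair p).2)

def LL (p : ℕ) : ℕ := bif (((dw (Nat.unpair p).1).reverse).getD (Nat.unpair p).2 false) then 1 else 0

theorem dw_prim : Primrec dw := Primrec.option_getD.comp Primrec.decode (Primrec.const [])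

theorem dw_encode (l : List Bool) : dw (Encodable.encode l) = l := by
  simp [dw]

theorem KK_prim : Nat.Primrec KK := by
  rw [← Primrec.nat_iff]
  exact Primrec.encode.comp (Primrec.list_cons.comp (Primrec.nat_bodd.comp (Primrec.fst.comp Primrec.unpair))
    (dw_prim.comp (Primrec.snd.comp Primrec.unpair)))

theorem LL_prim : Nat.Primrec LL := by
  rw [← Primrec.nat_iff]
  exact Primrec.cond ((Primrec.list_getD false).comp (Primrec.list_reverse.comp
    (dw_prim.comp (Primrec.fst.comp Primrec.unpair))) (Primrec.snd.comp Primrec.unpair)) (Primrec.const 1) (Primrec.const 0)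

/-- TARGET -/
theorem red_yof (S : List Bool → Bool) (s₀ : List Bool) (a : ℕ → ℕ)
    (h : Red (fun k => (S (dw k)).toNat) a) : Red (nb (yof S s₀)) a := by
  unfold Red at *
  set F : ℕ → ℕ := fun k => (S (dw k)).toNat with hF
  -- one step on codes
  have hG : Nat.RecursiveIn {orc a} (orc (fun c => KK (Nat.pair (F c) c))) :=
    tr_comp (tr_prim KK_prim) (tr_pair h (tr_prim Nat.Primrec.id))
  have hright2 : Nat.Primrec (fun p => (Nat.unpair (Nat.unpair p).2).2) :=
    Nat.Primrec.right.comp Nat.Primrec.right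
  have hH : Nat.RecursiveIn {orc a} (orc (fun p => KK (Nat.pair (F (Nat.unpair (Nat.unpair p).2).2)
      (Nat.unpair (Nat.unpair p).2).2))) :=
    tr_comp (f := fun c => KK (Nat.pair (F c) c)) (g := fun p => (Nat.unpair (Nat.unpair p).2).2) hG (tr_prim hright2)
  have hP := tr_prec (tr_prim (O := {orc a}) (Nat.Primrec.const (Encodable.encode s₀))) hH
  have hE : Nat.RecursiveIn {orc a} (orc (fun n => Encodable.encode (st S s₀ n))) := by
    have h1 := tr_comp hP (tr_pair (tr_prim (O := {orc a}) (Nat.Primrec.const 0)) (tr_prim (O := {orc a}) Nat.Primrec.id))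
    refine h1.of_eq fun n => ?_
    unfold orc
    congr 1
    simp only [Nat.unpair_pair, id]
    induction n with
    | zero => rfl
    | succ n ih =>
      simp only [ih]
      unfold KK
      simp only [Nat.unpair_pair, hF, dw_encode]
      congr 1
      show _ :: st S s₀ n = st S s₀ (n + 1)
      conv_rhs => rw [st]
      congr 1
      cases S (st S s₀ n) <;> rfl
  have hfin := tr_comp (tr_prim (O := {orc a}) LL_prim)
    (tr_pair (tr_comp hE (tr_prim (O := {orc a}) Nat.Primrec.succ)) (tr_prim (O := {orc a}) Nat.Primrec.id))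
  refine hfin.of_eq fun n => ?_
  unfold orc
  congr 1
  simp only [LL, Nat.unpair_pair, dw_encode, id, nb, yof]
  cases ((st S s₀ (n + 1)).reverse.getD n false) <;> rfl

end Pool.Agent.Helper583.TC.J13
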