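import Pool.Agent.Helper583.TCJ2

namespace Pool.Agent.Helper583.TC.J14

open J2 (select)

theorem recIn_comp {α β σ : Type*} [Primcodable α] [Primcodable β] [Primcodable σ]
    {O : Set (ℕ →. ℕ)} {φ : β →. σ} {u : α → β} (hφ : RecursiveIn O φ) (hu : Computable u) :
    RecursiveIn O (fun a => φ (u a)) := by
  have h1 : Nat.RecursiveIn O (fun n => Part.bind (Encodable.decode (α := α) n) fun a =>
      (Part.some (u a)).map Encodable.encode) := hu.partrec.recursiveIn (O := O)
  have h2 := Nat.RecursiveIn.comp hφ h1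
  refine h2.of_eq fun n => ?_
  cases h : (Encodable.decode (α := α) n) with
  | none =>
    ext m
    simp
  | some b =>
    ext m
    simp

theorem pre_const (c r : ℕ) : pre (fun _ => c) r = List.replicate r c := by
  unfold pre
  rw [List.map_const', List.length_range]

theorem comp_u (g : ℕ → ℕ) (hg : Computable g) (n₀ : ℕ) :
    Computable (fun p : ℕ × ℕ => ((List.range p.2).map (fun _ => g p.1), n₀)) := by
  have h1 : Primrec (fun p : ℕ × ℕ => (List.range p.2).map (fun _ => p.1)) :=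
    Primrec.list_map (Primrec.list_range.comp Primrec.snd)
      ((Primrec.fst.comp Primrec.fst : Primrec (fun q : (ℕ × ℕ) × ℕ => q.1.1)))
  have h2 : Computable (fun p : ℕ × ℕ => (g p.1, p.2)) :=
    (hg.comp Computable.fst).pair Computable.snd
  exact (h1.to_comp.comp h2).pair (Computable.const n₀)

/-- TARGET -/
theorem side_red {M N : Pres} {h : M.Y → N.Y} {a : ℕ → ℕ} (hc : CompMap a M N h)
    (C : Set N.Y) (n₀ : ℕ) (β : ℕ → Bool) (hβ : Computable β)
    (hC : ∀ (x : N.Y) (j : ℕ), dist (N.c j) x < 1 / 2 ^ n₀ → (β j = true ↔ x ∈ C))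
    (g : ℕ → ℕ) (hg : Computable g) (S : ℕ → Bool)
    (hS : ∀ k, S k = true ↔ h (M.c (g k)) ∈ C) : Red (fun k => (S k).toNat) a := by
  obtain ⟨φ, hφ, hφ2⟩ := hc
  have hf := recIn_comp hφ (comp_u g hg n₀)
  obtain ⟨G, hG, hG1, hG2⟩ := select hf
  have key : ∀ k, ∃ q : ℕ, G k = Part.some q ∧ β q = S k := by
    intro k
    obtain ⟨q, hq, hq2⟩ := hφ2 (M.c (g k)) (fun _ => g k) (fun j => by
      rw [dist_self]; positivity)
    obtain ⟨⟨r, hr⟩, huniq⟩ := hq2 n₀
    have hdom : (G k).Dom := hG2 k r (Part.dom_iff_mem.2 ⟨q n₀, hr⟩)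
    obtain ⟨m, hm⟩ := Part.dom_iff_mem.1 hdom
    obtain ⟨r', hr'⟩ := hG1 k m hm
    have hmq : m = q n₀ := huniq r' m hr'
    refine ⟨m, Part.eq_some_iff.2 hm, ?_⟩
    have h1 : β m = true ↔ S k = true := by
      rw [hS k]
      exact hC _ m (by rw [hmq]; exact hq n₀)
    exact Bool.eq_iff_iff.2 h1
  have hT : Nat.RecursiveIn {orc a} (fun j => Part.some ((β j).toNat)) := by
    have : Computable (fun j => (β j).toNat) :=
      (Primrec.dom_finite (fun b : Bool => b.toNat)).to_comp.comp hβ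
    exact RecursiveIn.iff_nat.1 (this.partrec.recursiveIn)
  have h3 := Nat.RecursiveIn.comp hT hG
  refine h3.of_eq fun k => ?_
  obtain ⟨q, hq1, hq2⟩ := key k
  rw [hq1]
  show (Part.some q).bind _ = _
  rw [Part.bind_some, hq2]
  rfl

end Pool.Agent.Helper583.TC.J14
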