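import Pool.Agent.Helper583.TCJ2

namespace Pool.Agent.Helper583.TC.J3

open J2 (use_principle)

/-! ### closure properties of relative recursiveness of total functions -/

theorem ri_comp {O : Set (ℕ →. ℕ)} {f g : ℕ → ℕ} (hf : Nat.RecursiveIn O (orc f))
    (hg : Nat.RecursiveIn O (orc g)) : Nat.RecursiveIn O (orc (fun n => f (g n))) := by
  refine (Nat.RecursiveIn.comp hf hg).of_eq ?_
  intro n
  simp [orc]

theorem ri_pair {O : Set (ℕ →. ℕ)} {f g : ℕ → ℕ} (hf : Nat.RecursiveIn O (orc f))
    (hg : Nat.RecursiveIn O (orc g)) :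
    Nat.RecursiveIn O (orc (fun n => Nat.pair (f n) (g n))) := by
  refine (Nat.RecursiveIn.pair hf hg).of_eq ?_
  intro n
  simp [orc, Seq.seq]

theorem ri_comput {O : Set (ℕ →. ℕ)} {f : ℕ → ℕ} (hf : Computable f) :
    Nat.RecursiveIn O (orc f) :=
  Nat.Partrec.recursiveIn (Partrec.nat_iff.1 hf)

theorem ri_prim {O : Set (ℕ →. ℕ)} {f : ℕ → ℕ} (hf : Primrec f) :
    Nat.RecursiveIn O (orc f) :=
  ri_comput hf.to_comp

theorem ri_pre {O : Set (ℕ →. ℕ)} {y : ℕ → ℕ} (hy : Nat.RecursiveIn O (orc y)) :
    Nat.RecursiveIn O (orc (fun L => Encodable.encode (pre y L))) := by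
  have h0 : Nat.RecursiveIn O (orc (fun _ => Encodable.encode ([] : List ℕ))) :=
    ri_prim (Primrec.const _)
  have hc : Primrec (fun q : ℕ => Encodable.encode
      (Denumerable.ofNat (List ℕ) (Nat.unpair q).1 ++ [(Nat.unpair q).2])) := by
    apply Primrec.encode.comp
    apply Primrec.list_concat.comp
    · exact (Primrec.ofNat (List ℕ)).comp (Primrec.fst.comp Primrec.unpair)
    · exact Primrec.snd.comp Primrec.unpair
  have h1 : Nat.RecursiveIn O (orc (fun q => Encodable.encode
      (Denumerable.ofNat (List ℕ) (Nat.unpair (Nat.unpair q).2).2 ++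
        [y (Nat.unpair (Nat.unpair q).2).1]))) := by
    have h2 := ri_comp (ri_prim (O := O) hc) (ri_pair
      (ri_prim (O := O) (f := fun q => (Nat.unpair (Nat.unpair q).2).2)
        (Primrec.snd.comp (Primrec.unpair.comp (Primrec.snd.comp Primrec.unpair))))
      (ri_comp hy (ri_prim (O := O) (f := fun q => (Nat.unpair (Nat.unpair q).2).1)
        (Primrec.fst.comp (Primrec.unpair.comp (Primrec.snd.comp Primrec.unpair))))))
    simpa using h2
  have h3 := Nat.RecursiveIn.prec h0 h1
  have h4 := Nat.RecursiveIn.comp h3 (ri_prim (O := O) (f := fun L => Nat.pair 0 L)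
    (Primrec₂.natPair.comp (Primrec.const 0) Primrec.id))
  refine h4.of_eq ?_
  intro L
  simp only [orc, Part.bind_eq_bind, Part.bind_some, Nat.unpair_pair]
  induction L with
  | zero => simp [pre]
  | succ L ih =>
    simp only at ih ⊢
    rw [ih]
    simp [pre, List.range_succ]

theorem ri_search {O : Set (ℕ →. ℕ)} {Q : ℕ → ℕ} (hQ : Nat.RecursiveIn O (orc Q)) {a : ℕ → ℕ}
    (h1 : ∀ n, ∃ s, Q (Nat.pair n s) ≠ 0) (h2 : ∀ n s, Q (Nat.pair n s) ≠ 0 →
      Q (Nat.pair n s) = a n + 1) : Nat.RecursiveIn O (orc a) := by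
  classical
  have hP : Nat.RecursiveIn O (orc (fun p => if Q p = 0 then 1 else 0)) := by
    have h3 : Primrec (fun q : ℕ => if q = 0 then 1 else 0) :=
      Primrec.ite (Primrec.eq.comp Primrec.id (Primrec.const 0)) (Primrec.const 1) (Primrec.const 0)
    exact ri_comp (ri_prim h3) hQ
  have hR := Nat.RecursiveIn.rfind hP
  have hS := Nat.RecursiveIn.comp (ri_comp (ri_prim (O := O) (f := fun q => q - 1)
      (Primrec.nat_sub.comp Primrec.id (Primrec.const 1))) hQ)
    (Nat.RecursiveIn.pair (ri_prim (O := O) (f := fun n => n) Primrec.id) hR)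
  refine hS.of_eq_tot ?_
  intro n
  obtain ⟨s, hs, hmin⟩ : ∃ s, Q (Nat.pair n s) ≠ 0 ∧ ∀ m < s, Q (Nat.pair n m) = 0 := by
    refine ⟨Nat.find (h1 n), Nat.find_spec (h1 n), ?_⟩
    intro m hm
    have := Nat.find_min (h1 n) hm
    push Not at this
    exact this
  have hmem : s ∈ Nat.rfind (fun m => (fun m => decide (m = 0)) <$>
      orc (fun p => if Q p = 0 then 1 else 0) (Nat.pair n m)) := by
    rw [Nat.mem_rfind]
    constructor
    · simp [orc, hs]
    · intro m hm
      simp [orc, hmin m hm]
  simp only [Part.bind_eq_bind, Part.mem_bind_iff, Seq.seq, orc]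
  refine ⟨Nat.pair n s, ?_, ?_⟩
  · simp only [Part.map_eq_map, Part.map_some, Part.mem_map_iff]
    exact ⟨Nat.pair n, Part.mem_some _, s, hmem, rfl⟩
  · rw [h2 n s hs]
    simp


/-! ### the construction -/

/-- the joined sequence -/
def jn (x : ℕ → ℕ → ℕ) (p : ℕ) : ℕ := x (Nat.unpair p).1 (Nat.unpair p).2

/-- the joined sequence restricted to the first `e` columns -/
def jne (x : ℕ → ℕ → ℕ) (e p : ℕ) : ℕ := if (Nat.unpair p).1 < e then jn x p else 0

theorem ri_jne (x : ℕ → ℕ → ℕ) {O : Set (ℕ →. ℕ)} (e : ℕ)
    (h : ∀ i < e, Nat.RecursiveIn O (orc (x i))) : Nat.RecursiveIn O (orc (jne x e)) := by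
  induction e with
  | zero =>
    have h1 : jne x 0 = fun _ => 0 := by
      funext p
      simp [jne]
    rw [h1]
    exact ri_prim (Primrec.const 0)
  | succ e ih =>
    have h1 := ih (fun i hi => h i (by omega))
    have h2 := h e (by omega)
    have hp : Primrec (fun q : ℕ => if (Nat.unpair (Nat.unpair q).1).1 = e then
        (Nat.unpair (Nat.unpair q).2).1 else (Nat.unpair (Nat.unpair q).2).2) := by
      apply Primrec.ite
      · exact Primrec.eq.comp (Primrec.fst.comp (Primrec.unpair.comp (Primrec.fst.comp Primrec.unpair)))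
          (Primrec.const e)
      · exact Primrec.fst.comp (Primrec.unpair.comp (Primrec.snd.comp Primrec.unpair))
      · exact Primrec.snd.comp (Primrec.unpair.comp (Primrec.snd.comp Primrec.unpair))
    have h3 := ri_comp (ri_prim (O := O) hp) (ri_pair (ri_prim (O := O) (f := fun n => n) Primrec.id)
      (ri_pair (ri_comp h2 (ri_prim (O := O) (f := fun p => (Nat.unpair p).2)
        (Primrec.snd.comp Primrec.unpair))) h1))
    have h4 : jne x (e + 1) = fun n => if (Nat.unpair (Nat.unpair (Nat.pair n
        (Nat.pair (x e (Nat.unpair n).2) (jne x e n)))).1).1 = e then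
        (Nat.unpair (Nat.unpair (Nat.pair n (Nat.pair (x e (Nat.unpair n).2) (jne x e n)))).2).1 else
        (Nat.unpair (Nat.unpair (Nat.pair n
          (Nat.pair (x e (Nat.unpair n).2) (jne x e n)))).2).2 := by
      funext p
      simp only [Nat.unpair_pair, jne, jn]
      by_cases h5 : (Nat.unpair p).1 = e
      · simp [h5]
      · by_cases h6 : (Nat.unpair p).1 < e
        · rw [if_pos (by omega), if_neg h5, if_pos h6]
        · rw [if_neg (by omega), if_neg h5, if_neg h6]
    rw [h4]
    exact h3

/-- extension of `s` by `r`, corrected in the first `e` columns -/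
def fill (x : ℕ → ℕ → ℕ) (e : ℕ) (s r : List ℕ) : List ℕ :=
  s ++ (List.range r.length).map (fun j =>
    if (Nat.unpair (s.length + j)).1 < e then jn x (s.length + j) else r.getD j 0)

/-- the same with the correct values read from `Y` -/
def fillY (e : ℕ) (s Y r : List ℕ) : List ℕ :=
  s ++ (List.range r.length).map (fun j =>
    if (Nat.unpair (s.length + j)).1 < e then Y.getD (s.length + j) 0 else r.getD j 0)

theorem pre_getD {y : ℕ → ℕ} {L i : ℕ} (h : i < L) : (pre y L).getD i 0 = y i := by
  unfold pre
  rw [List.getD_eq_getElem _ _ (by simpa using h)]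
  simp

theorem fillY_eq (x : ℕ → ℕ → ℕ) (e : ℕ) (s r : List ℕ) :
    fillY e s (pre (jne x e) (s.length + r.length)) r = fill x e s r := by
  unfold fillY fill
  congr 1
  apply List.map_congr_left
  intro j hj
  rw [List.mem_range] at hj
  by_cases h : (Nat.unpair (s.length + j)).1 < e
  · rw [if_pos h, if_pos h, pre_getD (by omega), jne, if_pos h]
  · rw [if_neg h, if_neg h]

/-- search test -/
def Qc (e : ℕ) (s : List ℕ) (c : Nat.Partrec.Code) (q : ℕ) : ℕ :=
  Encodable.encode (Nat.Partrec.Code.evaln
    (Denumerable.ofNat (List ℕ × ℕ) (Nat.unpair (Nat.unpair q).2).2).2 c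
    (Encodable.encode (fillY e s (Denumerable.ofNat (List ℕ) (Nat.unpair q).1)
      (Denumerable.ofNat (List ℕ × ℕ) (Nat.unpair (Nat.unpair q).2).2).1,
        (Nat.unpair (Nat.unpair q).2).1)))

theorem prim_fillY (e : ℕ) (s : List ℕ) :
    Primrec (fun p : List ℕ × List ℕ => fillY e s p.1 p.2) := by
  unfold fillY
  apply Primrec.list_append.comp (Primrec.const s)
  apply Primrec.list_map
  · exact Primrec.list_range.comp (Primrec.list_length.comp Primrec.snd)
  · apply Primrec.ite
    · exact Primrec.nat_lt.comp (Primrec.fst.comp (Primrec.unpair.comp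
        (Primrec.nat_add.comp (Primrec.const s.length) Primrec.snd))) (Primrec.const e)
    · exact (Primrec.list_getD 0).comp (Primrec.fst.comp Primrec.fst)
        (Primrec.nat_add.comp (Primrec.const s.length) Primrec.snd)
    · exact (Primrec.list_getD 0).comp (Primrec.snd.comp Primrec.fst) Primrec.snd

theorem prim_Qc (e : ℕ) (s : List ℕ) (c : Nat.Partrec.Code) : Primrec (Qc e s c) := by
  have h1 : Primrec (fun q : ℕ => (Nat.unpair (Nat.unpair q).2).1) :=
    Primrec.fst.comp (Primrec.unpair.comp (Primrec.snd.comp Primrec.unpair))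
  have h2 : Primrec (fun q : ℕ => Denumerable.ofNat (List ℕ × ℕ) (Nat.unpair (Nat.unpair q).2).2) :=
    (Primrec.ofNat _).comp (Primrec.snd.comp (Primrec.unpair.comp (Primrec.snd.comp Primrec.unpair)))
  have h3 : Primrec (fun q : ℕ => Denumerable.ofNat (List ℕ) (Nat.unpair q).1) :=
    (Primrec.ofNat _).comp (Primrec.fst.comp Primrec.unpair)
  have h4 : Primrec (fun q : ℕ => fillY e s (Denumerable.ofNat (List ℕ) (Nat.unpair q).1)
      (Denumerable.ofNat (List ℕ × ℕ) (Nat.unpair (Nat.unpair q).2).2).1) :=
    (prim_fillY e s).comp (Primrec.pair h3 (Primrec.fst.comp h2))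
  exact Primrec.encode.comp (Nat.Partrec.Code.primrec_evaln.comp
    (Primrec.pair (Primrec.pair (Primrec.snd.comp h2) (Primrec.const c))
      (Primrec.encode.comp (Primrec.pair h4 h1))))

/-- if the corrected extensions force the values of `a` then `a` is recursive in finitely many
columns -/
theorem ri_forced (x : ℕ → ℕ → ℕ) (a : ℕ → ℕ) (e : ℕ) (s : List ℕ) (c : Nat.Partrec.Code)
    (h1 : ∀ n, ∃ r, a n ∈ c.eval (Encodable.encode (fill x e s r, n)))
    (h2 : ∀ r n m, m ∈ c.eval (Encodable.encode (fill x e s r, n)) → m = a n) :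
    Nat.RecursiveIn {g | ∃ i < e, g = orc (x i)} (orc a) := by
  have hX : Nat.RecursiveIn {g | ∃ i < e, g = orc (x i)} (orc (jne x e)) :=
    ri_jne x e (fun i hi => Nat.RecursiveIn.oracle _ ⟨i, hi, rfl⟩)
  have hL : Primrec (fun p : ℕ => s.length +
      (Denumerable.ofNat (List ℕ × ℕ) (Nat.unpair p).2).1.length) :=
    Primrec.nat_add.comp (Primrec.const s.length) (Primrec.list_length.comp (Primrec.fst.comp
      ((Primrec.ofNat _).comp (Primrec.snd.comp Primrec.unpair))))
  have hQ := ri_comp (ri_prim (O := {g | ∃ i < e, g = orc (x i)}) (prim_Qc e s c))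
    (ri_pair (ri_comp (ri_pre hX) (ri_prim hL))
      (ri_prim (O := {g | ∃ i < e, g = orc (x i)}) (f := fun n => n) Primrec.id))
  have hval : ∀ n t, Qc e s c (Nat.pair (Encodable.encode (pre (jne x e) (s.length +
      (Denumerable.ofNat (List ℕ × ℕ) (Nat.unpair (Nat.pair n t)).2).1.length))) (Nat.pair n t)) =
      Encodable.encode (Nat.Partrec.Code.evaln (Denumerable.ofNat (List ℕ × ℕ) t).2 c
        (Encodable.encode (fill x e s (Denumerable.ofNat (List ℕ × ℕ) t).1, n))) := by
    intro n t
    unfold Qc
    simp only [Nat.unpair_pair, Denumerable.ofNat_encode, fillY_eq]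
  refine ri_search hQ ?_ ?_
  · intro n
    obtain ⟨r, hr⟩ := h1 n
    obtain ⟨k, hk⟩ := Nat.Partrec.Code.evaln_complete.1 hr
    refine ⟨Encodable.encode (r, k), ?_⟩
    rw [hval, Denumerable.ofNat_encode]
    simp only
    rw [Option.mem_def.1 hk]
    simp
  · intro n t ht
    rw [hval] at ht ⊢
    cases hc : Nat.Partrec.Code.evaln (Denumerable.ofNat (List ℕ × ℕ) t).2 c
        (Encodable.encode (fill x e s (Denumerable.ofNat (List ℕ × ℕ) t).1, n)) with
    | none => rw [hc] at ht; exact absurd rfl ht
    | some m =>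
      have h3 := h2 _ n m (Nat.Partrec.Code.evaln_sound (Option.mem_def.2 hc))
      rw [h3]
      simp

/-- TARGET. Cone avoiding upper bounds of countable families. -/
theorem cone_avoid (x : ℕ → ℕ → ℕ) (a : ℕ → ℕ)
    (h : ∀ k, ¬ Nat.RecursiveIn {g | ∃ i < k, g = orc (x i)} (orc a)) :
    ∃ b : ℕ → ℕ, (∀ k, Red (x k) b) ∧ ¬ Red a b := by
  classical
  -- the construction
  let good : ℕ → List ℕ → Prop := fun e s => ∃ r n m,
    m ∈ (Denumerable.ofNat Nat.Partrec.Code e).eval (Encodable.encode (fill x e s r, n)) ∧ m ≠ a n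
  let w : ℕ → List ℕ → List ℕ := fun e s => if h : good e s then fill x e s h.choose else s
  let S : ℕ → List ℕ := fun e => Nat.rec [] (fun e s => w e s ++ [jn x (w e s).length]) e
  have hS0 : S 0 = [] := rfl
  have hS1 : ∀ e, S (e + 1) = w e (S e) ++ [jn x (w e (S e)).length] := fun e => rfl
  have hw : ∀ e s, s <+: w e s := by
    intro e s
    by_cases h : good e s
    · have : w e s = fill x e s h.choose := dif_pos h
      rw [this]
      exact List.prefix_append _ _
    · have : w e s = s := dif_neg h
      rw [this]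
  have hwS : ∀ e, w e (S e) <+: S (e + 1) := by
    intro e
    rw [hS1]
    exact List.prefix_append _ _
  have hSS : ∀ e, S e <+: S (e + 1) := fun e => (hw e (S e)).trans (hwS e)
  have hmono : ∀ e e', e ≤ e' → S e <+: S e' := by
    intro e e' hee
    induction e', hee using Nat.le_induction with
    | base => exact List.prefix_rfl
    | succ e' _ ih => exact ih.trans (hSS e')
  have hlen : ∀ e, e ≤ (S e).length := by
    intro e
    induction e with
    | zero => simp
    | succ e ih =>
      have h1 := (hw e (S e)).length_le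
      rw [hS1, List.length_append, List.length_singleton]
      omega
  have hpg : ∀ (l l' : List ℕ) (p : ℕ), l <+: l' → p < l.length → l'.getD p 0 = l.getD p 0 := by
    intro l l' p hl hp
    obtain ⟨l'', rfl⟩ := hl
    rw [List.getD_append _ _ _ _ hp]
  let b : ℕ → ℕ := fun p => (S (p + 1)).getD p 0
  have hb : ∀ e p, p < (S e).length → b p = (S e).getD p 0 := by
    intro e p hp
    have hp1 : p < (S (p + 1)).length := lt_of_lt_of_le (Nat.lt_succ_self p) (hlen (p + 1))
    show (S (p + 1)).getD p 0 = (S e).getD p 0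
    rcases le_total e (p + 1) with h1 | h1
    · exact hpg _ _ p (hmono _ _ h1) hp
    · exact (hpg _ _ p (hmono _ _ h1) hp1).symm
  -- new values
  have hnew : ∀ e p, (S e).length ≤ p → p < (S (e + 1)).length → (Nat.unpair p).1 < e →
      (S (e + 1)).getD p 0 = jn x p := by
    intro e p hp1 hp2 hp3
    rw [hS1] at hp2 ⊢
    by_cases h1 : p < (w e (S e)).length
    · rw [List.getD_append _ _ _ _ h1]
      by_cases hg : good e (S e)
      · have hwe : w e (S e) = fill x e (S e) hg.choose := dif_pos hg
        rw [hwe] at h1 ⊢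
        unfold fill at h1 ⊢
        rw [List.getD_append_right _ _ _ _ hp1]
        rw [List.length_append] at h1
        rw [List.getD_eq_getElem _ _ (by omega)]
        simp only [List.getElem_map, List.getElem_range]
        rw [show (S e).length + (p - (S e).length) = p by omega, if_pos hp3]
      · have hwe : w e (S e) = S e := dif_neg hg
        rw [hwe] at h1
        omega
    · rw [List.length_append, List.length_singleton] at hp2
      have h2 : p = (w e (S e)).length := by omega
      rw [List.getD_append_right _ _ _ _ (by omega), h2]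
      simp
  have hbX : ∀ e p, (S e).length ≤ p → (Nat.unpair p).1 < e → b p = jn x p := by
    intro e p hp1 hp2
    have h1 : ∀ e', e ≤ e' → p < (S e').length → (S e').getD p 0 = jn x p := by
      intro e' hee
      induction e', hee using Nat.le_induction with
      | base => intro h; omega
      | succ e' he' ih =>
        intro h
        by_cases h2 : p < (S e').length
        · rw [hpg _ _ p (hSS e') h2]
          exact ih h2
        · exact hnew e' p (by omega) h (by omega)
    have h2 : p < (S (max e (p + 1))).length :=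
      lt_of_lt_of_le (Nat.lt_of_succ_le (le_max_right e (p + 1))) (hlen _)
    rw [hb _ p h2]
    exact h1 _ (le_max_left _ _) h2
  have hpre : ∀ e, pre b (S e).length = S e := by
    intro e
    apply List.ext_getElem
    · simp [pre]
    · intro i h1 h2
      have h3 := hb e i h2
      rw [List.getD_eq_getElem _ _ h2] at h3
      rw [← h3]
      simp [pre]
  refine ⟨b, ?_, ?_⟩
  · intro k
    show Nat.RecursiveIn {orc b} (orc (x k))
    obtain ⟨ℓ, hℓ⟩ : ∃ ℓ, ℓ = (S (k + 1)).length := ⟨_, rfl⟩
    have hp : Primrec (fun q : ℕ => if (Nat.unpair q).1 < ℓ then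
        (pre (x k) ℓ).getD (Nat.unpair q).1 0 else (Nat.unpair q).2) := by
      apply Primrec.ite
      · exact Primrec.nat_lt.comp (Primrec.fst.comp Primrec.unpair) (Primrec.const ℓ)
      · exact (Primrec.list_getD 0).comp (Primrec.const (pre (x k) ℓ))
          (Primrec.fst.comp Primrec.unpair)
      · exact Primrec.snd.comp Primrec.unpair
    have h1 := ri_comp (ri_prim (O := {orc b}) hp) (ri_pair
      (ri_prim (O := {orc b}) (f := fun n => n) Primrec.id)
      (ri_comp (Nat.RecursiveIn.oracle (O := {orc b}) (orc b) rfl)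
        (ri_prim (O := {orc b}) (f := fun n => Nat.pair k n)
          (Primrec₂.natPair.comp (Primrec.const k) Primrec.id))))
    have h2 : x k = fun n => if (Nat.unpair (Nat.pair n (b (Nat.pair k n)))).1 < ℓ then
        (pre (x k) ℓ).getD (Nat.unpair (Nat.pair n (b (Nat.pair k n)))).1 0 else
        (Nat.unpair (Nat.pair n (b (Nat.pair k n)))).2 := by
      funext n
      simp only [Nat.unpair_pair]
      by_cases hn : n < ℓ
      · rw [if_pos hn, pre_getD hn]
      · rw [if_neg hn, hbX (k + 1) (Nat.pair k n)]
        · simp [jn]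
        · rw [← hℓ]
          exact (not_lt.1 hn).trans (Nat.right_le_pair k n)
        · simp
    rw [h2]
    exact h1
  · intro hRed
    obtain ⟨φ, hφ1, hφ2, hφ3⟩ := use_principle hRed
    obtain ⟨c, hc⟩ := Nat.Partrec.Code.exists_code.1 hφ1
    have hcφ : ∀ l n m, m ∈ c.eval (Encodable.encode ((l, n) : List ℕ × ℕ)) ↔ m ∈ φ (l, n) := by
      intro l n m
      rw [hc]
      simp
    have hamem : ∀ n m, m ∈ orc a n ↔ m = a n := by
      intro n m
      simp [orc]
    obtain ⟨e, he⟩ : ∃ e, Denumerable.ofNat Nat.Partrec.Code e = c :=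
      ⟨Encodable.encode c, Denumerable.ofNat_encode c⟩
    by_cases hg : good e (S e)
    · have hwe : w e (S e) = fill x e (S e) hg.choose := dif_pos hg
      obtain ⟨n, m, h1, h2⟩ := hg.choose_spec
      rw [← hwe, he, hcφ] at h1
      apply h2
      rw [← hamem, hφ3]
      refine ⟨(w e (S e)).length, ?_⟩
      have h3 : pre b (w e (S e)).length = w e (S e) := by
        have h4 := hpre (e + 1)
        apply List.ext_getElem
        · simp [pre]
        · intro i h5 h6
          have h7 : i < (S (e + 1)).length := lt_of_lt_of_le h6 (hwS e).length_le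
          have h8 := hb (e + 1) i h7
          rw [hpg _ _ i (hwS e) h6, List.getD_eq_getElem _ _ h6] at h8
          rw [← h8]
          simp [pre]
      rw [h3]
      exact h1
    · apply h e
      have hg' : ∀ r n m, m ∈ c.eval (Encodable.encode (fill x e (S e) r, n)) → m = a n := by
        intro r n m hm
        by_contra hne
        apply hg
        refine ⟨r, n, m, ?_, hne⟩
        rw [he]
        exact hm
      refine ri_forced x a e (S e) c ?_ hg'
      intro n
      have h1 := (hφ3 n (a n)).1 ((hamem n (a n)).2 rfl)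
      obtain ⟨k, hk⟩ := h1
      -- enlarge k
      obtain ⟨d, hd⟩ : ∃ d, d = k + (S e).length := ⟨_, rfl⟩
      refine ⟨(List.range k).map (fun j => b ((S e).length + j)), ?_⟩
      rw [hcφ]
      have h2 : fill x e (S e) ((List.range k).map (fun j => b ((S e).length + j))) =
          pre b ((S e).length + k) := by
        unfold fill pre
        rw [List.range_add, List.map_append, List.length_map, List.length_range]
        congr 1
        · exact (hpre e).symm
        · rw [List.map_map]
          apply List.map_congr_left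
          intro j hj
          rw [List.mem_range] at hj
          by_cases h3 : (Nat.unpair ((S e).length + j)).1 < e
          · rw [if_pos h3]
            exact (hbX e _ (by omega) h3).symm
          · rw [if_neg h3, List.getD_eq_getElem _ _ (by simpa using hj)]
            simp
      rw [h2]
      refine hφ2 (pre b k) _ n (a n) ?_ hk
      unfold pre
      rw [Nat.add_comm, List.range_add, List.map_append]
      exact List.prefix_append _ _

end Pool.Agent.Helper583.TC.J3
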