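import Pool.Agent.Helper583.TCDefs

namespace Pool.Agent.Helper583.TC.J4

/-! helper lemmas -/

theorem pre_length {A : Type} (x : ℕ → A) (n : ℕ) : (pre x n).length = n := by
  simp [pre]

theorem pre_take {A : Type} (x : ℕ → A) {n N : ℕ} (h : n ≤ N) : (pre x N).take n = pre x n := by
  apply List.ext_getElem
  · simp [pre, h]
  · intro i h1 h2
    simp [pre]

theorem pre_tail_take {A : Type} (x : ℕ → A) {n N : ℕ} (h : n < N) :
    (pre x N).tail.take n = pre (fun i => x (i + 1)) n := by
  apply List.ext_getElem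
  · simp [pre]; omega
  · intro i h1 h2
    simp [pre]

theorem pre_headI (x : ℕ → ℕ) {N : ℕ} (h : 0 < N) : (pre x N).headI = x 0 := by
  obtain ⟨N, rfl⟩ : ∃ M, N = M + 1 := ⟨N - 1, by omega⟩
  simp [pre, List.range_succ_eq_map]

theorem pre_getD (y : ℕ → Bool) {i N : ℕ} (h : i < N) : (pre y N).getD i false = y i := by
  simp [pre, h]

theorem primrec_any {α : Type} [Primcodable α] {m : α → ℕ} {f : α → ℕ → Bool}
    (hm : Primrec m) (hf : Primrec₂ f) :
    Primrec fun a => (List.range (m a)).any (f a) := by
  have h : Primrec₂ (fun (a : α) (p : ℕ × Bool) => (f a p.1 || p.2)) :=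
    (Primrec.or.comp (hf.comp Primrec.fst (Primrec.fst.comp Primrec.snd))
      (Primrec.snd.comp Primrec.snd)).to₂
  refine (Primrec.list_foldr (Primrec.list_range.comp hm) (Primrec.const false) h).of_eq ?_
  intro a
  induction List.range (m a) with
  | nil => simp
  | cons b l ih => simp [ih]

open Nat.Partrec (Code)
open Nat.Partrec.Code (eval evaln)
open Encodable (encode)

theorem code_of_computable {α β : Type} [Primcodable α] [Primcodable β] {f : α → β}
    (hf : Computable f) : ∃ c : Code, ∀ a, eval c (encode a) = Part.some (encode (f a)) := by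
  obtain ⟨c, hc⟩ := Nat.Partrec.Code.exists_code.1 hf
  refine ⟨c, fun a => ?_⟩
  rw [hc]
  simp [Encodable.encodek]

/-- TARGET 1: classes given by a computable event are of the form `Cls W`, `W` primitive recursive. -/
theorem cls_of_event (ev : List Bool × List ℕ × ℕ → Bool) (hev : Computable ev) :
    ∃ W : List Bool × List ℕ → Bool, Primrec W ∧
      ∀ y, Cls W y ↔ ∀ x : ℕ → ℕ, ∃ n w, ev (pre y n, pre x n, w) = true := by
  obtain ⟨c, hc⟩ := code_of_computable hev
  refine ⟨fun p => (List.range (p.1.length + 1)).any fun n =>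
    (List.range (p.1.length + 1)).any fun w =>
      decide (evaln p.1.length c (encode (p.1.take n, p.2.take n, w)) = some 1), ?_, ?_⟩
  · apply primrec_any
    · exact Primrec.succ.comp (Primrec.list_length.comp Primrec.fst)
    · apply primrec_any
      · exact Primrec.succ.comp (Primrec.list_length.comp (Primrec.fst.comp Primrec.fst))
      · have hs : Primrec (fun q : ((List Bool × List ℕ) × ℕ) × ℕ => q.1.1.1) :=
          Primrec.fst.comp (Primrec.fst.comp Primrec.fst)
        have hu : Primrec (fun q : ((List Bool × List ℕ) × ℕ) × ℕ => q.1.1.2) :=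
          Primrec.snd.comp (Primrec.fst.comp Primrec.fst)
        have hn : Primrec (fun q : ((List Bool × List ℕ) × ℕ) × ℕ => q.1.2) :=
          Primrec.snd.comp Primrec.fst
        have hw : Primrec (fun q : ((List Bool × List ℕ) × ℕ) × ℕ => q.2) := Primrec.snd
        have h1 : Primrec (fun q : ((List Bool × List ℕ) × ℕ) × ℕ =>
            (q.1.1.1.take q.1.2, q.1.1.2.take q.1.2, q.2)) :=
          (Primrec.list_take.comp hn hs).pair ((Primrec.list_take.comp hn hu).pair hw)
        have h2 := Nat.Partrec.Code.primrec_evaln.comp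
          (((Primrec.list_length.comp hs).pair (Primrec.const c)).pair (Primrec.encode.comp h1))
        exact (Primrec.eq.comp h2 (Primrec.const (some 1))).decide.to₂
  · intro y
    have key : ∀ n w (x : ℕ → ℕ) k, evaln k c (encode (pre y n, pre x n, w)) = some 1 →
        ev (pre y n, pre x n, w) = true := by
      intro n w x k h
      have := Nat.Partrec.Code.evaln_sound (show (1 : ℕ) ∈ evaln k c _ from h)
      rw [hc, Part.mem_some_iff] at this
      cases h' : ev (pre y n, pre x n, w) with
      | true => rfl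
      | false => rw [h'] at this; simp at this
    constructor
    · intro h x
      obtain ⟨N, hN⟩ := h x
      simp only [List.any_eq_true, List.mem_range, pre_length, decide_eq_true_eq] at hN
      obtain ⟨n, hn, w, hw, hE⟩ := hN
      rw [pre_take y (Nat.lt_succ_iff.1 hn), pre_take x (Nat.lt_succ_iff.1 hn)] at hE
      exact ⟨n, w, key n w x _ hE⟩
    · intro h x
      obtain ⟨n, w, hE⟩ := h x
      have h1 : (1 : ℕ) ∈ eval c (encode (pre y n, pre x n, w)) := by
        rw [hc, hE]; simp
      obtain ⟨k, hk⟩ := Nat.Partrec.Code.evaln_complete.1 h1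
      refine ⟨max k (max n w), ?_⟩
      simp only [List.any_eq_true, List.mem_range, pre_length, decide_eq_true_eq]
      refine ⟨n, by omega, w, by omega, ?_⟩
      rw [pre_take y (by omega), pre_take x (by omega)]
      exact Nat.Partrec.Code.evaln_mono (le_max_left _ _) hk

/-- TARGET 2 -/
theorem cls_and (W₁ W₂ : List Bool × List ℕ → Bool) (h₁ : Primrec W₁) (h₂ : Primrec W₂) :
    ∃ W : List Bool × List ℕ → Bool, Primrec W ∧ ∀ y, Cls W y ↔ Cls W₁ y ∧ Cls W₂ y := by
  have hs : Primrec (fun q : List Bool × List ℕ × ℕ => q.1) := Primrec.fst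
  have hu : Primrec (fun q : List Bool × List ℕ × ℕ => q.2.1) := Primrec.fst.comp Primrec.snd
  have hw : Primrec (fun q : List Bool × List ℕ × ℕ => q.2.2) := Primrec.snd.comp Primrec.snd
  have ht : Primrec (fun q : List Bool × List ℕ × ℕ => (q.1.take q.2.2, q.2.1.tail.take q.2.2)) :=
    (Primrec.list_take.comp hw hs).pair
      (Primrec.list_take.comp hw (Primrec.list_tail.comp hu))
  let ev : List Bool × List ℕ × ℕ → Bool := fun q =>
    decide (q.2.2 < q.2.1.length) && cond (q.2.1.headI == 0)
      (W₁ (q.1.take q.2.2, q.2.1.tail.take q.2.2)) (W₂ (q.1.take q.2.2, q.2.1.tail.take q.2.2))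
  have hev : Primrec ev := by
    refine Primrec.and.comp ?_ (Primrec.cond ?_ (h₁.comp ht) (h₂.comp ht))
    · exact (Primrec.nat_lt.comp hw (Primrec.list_length.comp hu)).decide
    · exact Primrec.beq.comp (Primrec.list_headI.comp hu) (Primrec.const 0)
  obtain ⟨W, hW, h⟩ := cls_of_event ev hev.to_comp
  refine ⟨W, hW, fun y => ?_⟩
  rw [h y]
  have key : ∀ (x : ℕ → ℕ) n w, ev (pre y n, pre x n, w) = true ↔ w < n ∧
      (if x 0 = 0 then W₁ (pre y w, pre (fun i => x (i + 1)) w) = true
        else W₂ (pre y w, pre (fun i => x (i + 1)) w) = true) := by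
    intro x n w
    simp only [ev, pre_length, Bool.and_eq_true, decide_eq_true_eq]
    refine and_congr_right fun hwn => ?_
    rw [pre_headI x (by omega), pre_take y hwn.le, pre_tail_take x hwn]
    by_cases h0 : x 0 = 0
    · simp [h0]
    · simp [h0]
  simp only [key]
  constructor
  · intro H
    constructor
    · intro x
      obtain ⟨n, w, hwn, hx⟩ := H (fun i => Nat.casesOn i 0 x)
      exact ⟨w, by simpa using hx⟩
    · intro x
      obtain ⟨n, w, hwn, hx⟩ := H (fun i => Nat.casesOn i 1 x)
      exact ⟨w, by simpa using hx⟩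
  · rintro ⟨H1, H2⟩ x
    by_cases h0 : x 0 = 0
    · obtain ⟨w, hw⟩ := H1 (fun i => x (i + 1))
      exact ⟨w + 1, w, by omega, by simpa [h0] using hw⟩
    · obtain ⟨w, hw⟩ := H2 (fun i => x (i + 1))
      exact ⟨w + 1, w, by omega, by simpa [h0] using hw⟩

theorem cls_sub (W : List Bool × List ℕ → Bool) (h : Primrec W) (a : ℕ → ℕ) (ha : Primrec a)
    (hab : ∀ i w, i < w → a i < 2 * w) :
    ∃ W' : List Bool × List ℕ → Bool, Primrec W' ∧ ∀ y, Cls W' y ↔ Cls W (fun i => y (a i)) := by
  have hs : Primrec (fun q : List Bool × List ℕ × ℕ => q.1) := Primrec.fst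
  have hu : Primrec (fun q : List Bool × List ℕ × ℕ => q.2.1) := Primrec.fst.comp Primrec.snd
  have hw : Primrec (fun q : List Bool × List ℕ × ℕ => q.2.2) := Primrec.snd.comp Primrec.snd
  let ev : List Bool × List ℕ × ℕ → Bool := fun q =>
    decide (2 * q.2.2 ≤ q.2.1.length) &&
      W ((List.range q.2.2).map (fun i => q.1.getD (a i) false), q.2.1.take q.2.2)
  have hev : Primrec ev := by
    refine Primrec.and.comp ?_ (h.comp (Primrec.pair ?_ ?_))
    · exact (Primrec.nat_le.comp (Primrec.nat_mul.comp (Primrec.const 2) hw)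
        (Primrec.list_length.comp hu)).decide
    · exact Primrec.list_map (Primrec.list_range.comp hw)
        ((Primrec.list_getD false).comp (hs.comp Primrec.fst) (ha.comp Primrec.snd)).to₂
    · exact Primrec.list_take.comp hw hu
  obtain ⟨W', hW', h'⟩ := cls_of_event ev hev.to_comp
  refine ⟨W', hW', fun y => ?_⟩
  rw [h' y]
  have key : ∀ (x : ℕ → ℕ) n w, ev (pre y n, pre x n, w) = true ↔ 2 * w ≤ n ∧
      W (pre (fun i => y (a i)) w, pre x w) = true := by
    intro x n w
    simp only [ev, pre_length, Bool.and_eq_true, decide_eq_true_eq]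
    refine and_congr_right fun hwn => ?_
    have e : (List.range w).map (fun i => (pre y n).getD (a i) false) =
        pre (fun i => y (a i)) w := by
      rw [pre]
      apply List.map_congr_left
      intro i hi
      rw [List.mem_range] at hi
      exact pre_getD y (lt_of_lt_of_le (hab i w hi) hwn)
    rw [e, pre_take x (by omega)]
  simp only [key]
  constructor
  · intro H x
    obtain ⟨n, w, -, hx⟩ := H x
    exact ⟨w, hx⟩
  · intro H x
    obtain ⟨w, hw⟩ := H x
    exact ⟨2 * w, w, le_rfl, hw⟩

/-- TARGET 3 -/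
theorem cls_evn (W : List Bool × List ℕ → Bool) (h : Primrec W) :
    ∃ W' : List Bool × List ℕ → Bool, Primrec W' ∧ ∀ y, Cls W' y ↔ Cls W (evn y) :=
  cls_sub W h (fun i => 2 * i) (Primrec.nat_mul.comp (Primrec.const 2) Primrec.id)
    (fun i w h => by omega)

/-- TARGET 4 -/
theorem cls_odn (W : List Bool × List ℕ → Bool) (h : Primrec W) :
    ∃ W' : List Bool × List ℕ → Bool, Primrec W' ∧ ∀ y, Cls W' y ↔ Cls W (odn y) :=
  cls_sub W h (fun i => 2 * i + 1)
    (Primrec.succ.comp (Primrec.nat_mul.comp (Primrec.const 2) Primrec.id))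
    (fun i w h => by omega)

/-- TARGET 5: there are only countably many classes -/
theorem cls_countable : {y : ℕ → Bool | ∃ W : List Bool × List ℕ → Bool, Primrec W ∧
    ∀ z, Cls W z ↔ z = y}.Countable := by
  have hsub : {y : ℕ → Bool | ∃ W : List Bool × List ℕ → Bool, Primrec W ∧
      ∀ z, Cls W z ↔ z = y} ⊆ ⋃ c : Code, {y : ℕ → Bool | ∃ W : List Bool × List ℕ → Bool,
        (∀ a, eval c (encode a) = Part.some (encode (W a))) ∧ ∀ z, Cls W z ↔ z = y} := by
    rintro y ⟨W, hW, hy⟩
    obtain ⟨c, hc⟩ := code_of_computable hW.to_comp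
    exact Set.mem_iUnion.2 ⟨c, W, hc, hy⟩
  refine Set.Countable.mono hsub (Set.countable_iUnion fun c => Set.Subsingleton.countable ?_)
  rintro y ⟨W, hW, hy⟩ y' ⟨W', hW', hy'⟩
  have : W = W' := by
    funext a
    have := (hW a).symm.trans (hW' a)
    exact Encodable.encode_injective (Part.some_inj.1 this)
  subst this
  exact (hy' y).1 ((hy y).2 rfl)

end Pool.Agent.Helper583.TC.J4
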