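import Pool.Agent.Helper583.TCDefs

namespace Pool.Agent.Helper583.TC.J5

section Aux

variable {W : List Bool × List ℕ → Bool}

/-- child relation inside the tree of unsecured words -/
def Ch (W : List Bool × List ℕ → Bool) (y : ℕ → Bool) (t s : List ℕ) : Prop :=
  (∃ k, t = s ++ [k]) ∧ Tm W y t

theorem Tm_prefix {y : ℕ → Bool} {s t : List ℕ} (h : Tm W y (s ++ t)) : Tm W y s := by
  intro m hm
  have h1 := h m (by rw [List.length_append]; omega)
  rwa [List.take_append_of_le_length hm] at h1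

theorem gm_cons (c : List ℕ → ℕ) (k : ℕ) (ζ : List ℕ) :
    gm c (k :: ζ) = c [k] :: gm (fun ζ => c (k :: ζ)) ζ := by
  unfold gm
  rw [List.length_cons, List.range_succ_eq_map]
  simp only [List.map_cons, List.map_map]
  congr 1

theorem gm_congr {c c' : List ℕ → ℕ} (h : ∀ ζ, ζ ≠ [] → c ζ = c' ζ) (ζ : List ℕ) :
    gm c ζ = gm c' ζ := by
  induction ζ generalizing c c' with
  | nil => rfl
  | cons k ζ ih =>
    rw [gm_cons, gm_cons, h [k] (by simp)]
    congr 1
    exact ih (fun ζ _ => h _ (by simp))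

theorem pre_length {A : Type} (x : ℕ → A) (n : ℕ) : (pre x n).length = n := by
  simp [pre]

theorem pre_succ {A : Type} (x : ℕ → A) (n : ℕ) : pre x (n + 1) = pre x n ++ [x n] := by
  simp [pre, List.range_succ]

theorem pre_congr {A : Type} {x y : ℕ → A} {n : ℕ} (h : ∀ i < n, x i = y i) :
    pre x n = pre y n := by
  unfold pre
  apply List.map_congr_left
  intro i hi
  exact h i (List.mem_range.1 hi)

theorem pre_take {A : Type} (x : ℕ → A) {n m : ℕ} (h : m ≤ n) :
    (pre x n).take m = pre x m := by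
  unfold pre
  rw [← List.map_take, List.take_range, min_eq_left h]

theorem Le_child {z y : ℕ → Bool} {s t : List ℕ} {c : List ℕ → ℕ} (h : Le W z y s t c) {k : ℕ}
    (hk : Tm W z (s ++ [k])) : Tm W y (t ++ [c [k]]) ∧
      Le W z y (s ++ [k]) (t ++ [c [k]]) (fun ζ => c (k :: ζ)) := by
  constructor
  · have := h [k] (by simp) hk
    rw [gm_cons] at this
    exact this
  · intro ζ hζ hT
    have h1 := h (k :: ζ) (by simp) (by
      rw [List.append_assoc] at hT
      exact hT)
    rw [gm_cons] at h1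
    rw [List.append_assoc]
    exact h1

theorem acc_of_Le {z y : ℕ → Bool} {t : List ℕ} (ht : Acc (Ch W y) t) :
    ∀ (s : List ℕ) (c : List ℕ → ℕ), Le W z y s t c → Acc (Ch W z) s := by
  induction ht with
  | intro t _ ih =>
    intro s c h
    refine Acc.intro _ ?_
    rintro _ ⟨⟨k, rfl⟩, hk⟩
    obtain ⟨h1, h2⟩ := Le_child h hk
    exact ih _ ⟨⟨_, rfl⟩, h1⟩ _ _ h2

theorem wf_of_acc_nil {z : ℕ → Bool} (h : Acc (Ch W z) []) : WellFounded (Ch W z) := by
  constructor
  intro s
  by_cases hs : Tm W z s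
  · induction s using List.reverseRecOn with
    | nil => exact h
    | append_singleton s k ih =>
      exact (ih (Tm_prefix hs)).inv ⟨⟨k, rfl⟩, hs⟩
  · refine Acc.intro _ ?_
    rintro _ ⟨⟨k, rfl⟩, hk⟩
    exact absurd (Tm_prefix hk) hs

theorem cls_of_wf {y : ℕ → Bool} (h : WellFounded (Ch W y)) : Cls W y := by
  intro x
  by_contra hx
  push Not at hx
  have hf : ∀ n, W (pre y n, pre x n) = false := fun n => by
    simpa using hx n
  have hT : ∀ n, Tm W y (pre x n) := by
    intro n m hm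
    rw [pre_length] at hm
    rw [pre_take x hm]
    exact hf m
  have key : ∀ s, Acc (Ch W y) s → ∀ n, s = pre x n → False := by
    intro s hs
    induction hs with
    | intro s _ ih =>
      intro n hn
      refine ih (pre x (n + 1)) ⟨⟨x n, ?_⟩, hT _⟩ (n + 1) rfl
      rw [hn, pre_succ]
  exact key _ (h.apply _) 0 rfl

theorem wf_of_cls {y : ℕ → Bool} (h : Cls W y) : WellFounded (Ch W y) := by
  apply wf_of_acc_nil
  by_contra hn
  -- build a path
  have step : ∀ s : {s : List ℕ // ¬ Acc (Ch W y) s}, ∃ k : ℕ, Tm W y (s.1 ++ [k]) ∧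
      ¬ Acc (Ch W y) (s.1 ++ [k]) := by
    rintro ⟨s, hs⟩
    by_contra hcon
    push Not at hcon
    apply hs
    refine Acc.intro _ ?_
    rintro _ ⟨⟨k, rfl⟩, hk⟩
    exact hcon k hk
  choose f hf1 hf2 using step
  let g : ℕ → {s : List ℕ // ¬ Acc (Ch W y) s} := fun n =>
    Nat.rec ⟨[], hn⟩ (fun _ s => ⟨s.1 ++ [f s], hf2 s⟩) n
  have hg : ∀ n, (g (n + 1)).1 = (g n).1 ++ [f (g n)] := fun n => rfl
  have hpre : ∀ n, (g n).1 = pre (fun n => f (g n)) n := by
    intro n
    induction n with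
    | zero => rfl
    | succ n ih => rw [hg, pre_succ, ← ih]
  obtain ⟨n, hn'⟩ := h (fun n => f (g n))
  have hT : Tm W y (g (n + 1)).1 := by
    rw [hg]
    exact hf1 (g n)
  have hlen : (g (n + 1)).1.length = n + 1 := by
    have e := congrArg List.length (hpre (n + 1))
    rw [pre_length] at e
    exact e
  have h1 := hT n (by rw [hlen]; omega)
  rw [hpre (n + 1), pre_take _ (Nat.le_succ n)] at h1
  rw [h1] at hn'
  exact absurd hn' (by simp)

theorem cls_iff {y : ℕ → Bool} : Cls W y ↔ WellFounded (Ch W y) := ⟨wf_of_cls, cls_of_wf⟩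

open Classical in
/-- rank of a word -/
noncomputable def rk (W : List Bool × List ℕ → Bool) (y : ℕ → Bool) (s : List ℕ) : Ordinal.{0} :=
  if h : Acc (Ch W y) s then h.rank else 0

theorem rk_lt {y : ℕ → Bool} (hy : Cls W y) {s t : List ℕ} (h : Ch W y t s) :
    rk W y t < rk W y s := by
  have hw := wf_of_cls hy
  unfold rk
  rw [dif_pos (hw.apply t), dif_pos (hw.apply s)]
  exact Acc.rank_lt_of_rel _ h

theorem lt_rk_iff {y : ℕ → Bool} (hy : Cls W y) {s : List ℕ} {o : Ordinal.{0}} :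
    o < rk W y s ↔ ∃ t, Ch W y t s ∧ o ≤ rk W y t := by
  constructor
  · intro h
    have hw := wf_of_cls hy
    unfold rk at h
    rw [dif_pos (hw.apply s), Acc.rank_eq, Ordinal.lt_iSup_iff] at h
    obtain ⟨⟨b, hb⟩, ho⟩ := h
    rw [Order.lt_succ_iff] at ho
    refine ⟨b, hb, ?_⟩
    unfold rk
    rw [dif_pos (hw.apply b)]
    exact ho
  · rintro ⟨t, ht, ho⟩
    exact lt_of_le_of_lt ho (rk_lt hy ht)

theorem rk_le_iff {y : ℕ → Bool} (hy : Cls W y) {s : List ℕ} {o : Ordinal.{0}} :
    rk W y s ≤ o ↔ ∀ t, Ch W y t s → rk W y t < o := by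
  constructor
  · intro h t ht
    exact lt_of_lt_of_le (rk_lt hy ht) h
  · intro h
    by_contra hcon
    push Not at hcon
    rw [lt_rk_iff hy] at hcon
    obtain ⟨t, ht, ho⟩ := hcon
    exact absurd (h t ht) (not_lt.2 ho)

theorem rk_le_of_Le {z y : ℕ → Bool} (hz : Cls W z) (hy : Cls W y) :
    ∀ (s t : List ℕ) (c : List ℕ → ℕ), Le W z y s t c → rk W z s ≤ rk W y t := by
  intro s
  induction s using (wf_of_cls hz).induction with
  | _ s ih =>
    intro t c h
    rw [rk_le_iff hz]
    rintro _ ⟨⟨k, rfl⟩, hk⟩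
    obtain ⟨h1, h2⟩ := Le_child h hk
    exact lt_of_le_of_lt (ih _ ⟨⟨k, rfl⟩, hk⟩ _ _ h2) (rk_lt hy ⟨⟨_, rfl⟩, h1⟩)

theorem exists_Le {z y : ℕ → Bool} (hz : Cls W z) (hy : Cls W y) :
    ∀ (s t : List ℕ), rk W z s ≤ rk W y t → ∃ c, Le W z y s t c := by
  intro s
  induction s using (wf_of_cls hz).induction with
  | _ s ih =>
    intro t h
    have step : ∀ k : ℕ, ∃ (j : ℕ) (c : List ℕ → ℕ), Tm W z (s ++ [k]) →
        Tm W y (t ++ [j]) ∧ Le W z y (s ++ [k]) (t ++ [j]) c := by
      intro k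
      by_cases hk : Tm W z (s ++ [k])
      · have hlt : rk W z (s ++ [k]) < rk W y t :=
          lt_of_lt_of_le (rk_lt hz ⟨⟨k, rfl⟩, hk⟩) h
        rw [lt_rk_iff hy] at hlt
        obtain ⟨_, ⟨⟨j, rfl⟩, hj⟩, hle⟩ := hlt
        obtain ⟨c, hc⟩ := ih _ ⟨⟨k, rfl⟩, hk⟩ _ hle
        exact ⟨j, c, fun _ => ⟨hj, hc⟩⟩
      · exact ⟨0, fun _ => 0, fun h => absurd h hk⟩
    choose j c hjc using step
    refine ⟨fun l => match l with
      | [] => 0
      | k :: [] => j k
      | k :: (a :: l) => c k (a :: l), ?_⟩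
    intro ζ hζ hT
    cases ζ with
    | nil => exact absurd rfl hζ
    | cons k ζ =>
      have hTk : Tm W z (s ++ [k]) := by
        have : s ++ k :: ζ = (s ++ [k]) ++ ζ := by simp
        rw [this] at hT
        exact Tm_prefix hT
      obtain ⟨h1, h2⟩ := hjc k hTk
      rw [gm_cons]
      cases ζ with
      | nil => exact h1
      | cons a ζ =>
        have h3 := h2 (a :: ζ) (by simp) (by
          rw [List.append_assoc]
          exact hT)
        rw [List.append_assoc] at h3
        have e : gm (c k) (a :: ζ) = gm (fun ζ => (match k :: ζ with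
            | [] => 0
            | k :: [] => j k
            | k :: (a :: l) => c k (a :: l) : ℕ)) (a :: ζ) := by
          apply gm_congr
          intro ξ hξ
          cases ξ with
          | nil => exact absurd rfl hξ
          | cons b ξ => rfl
        rw [e] at h3
        exact h3

/-- the pair used for the comparison -/
noncomputable def pp (W : List Bool × List ℕ → Bool) (y : ℕ → Bool) (n : ℕ) :
    Ordinal.{0} ×ₗ Bool := toLex (rk W y (nd n), y n)

theorem pp_eq_iff {z y : ℕ → Bool} {n : ℕ} :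
    pp W z n = pp W y n ↔ rk W z (nd n) = rk W y (nd n) ∧ z n = y n := by
  unfold pp
  rw [toLex_inj, Prod.mk.injEq]

theorem pp_lt_iff {z y : ℕ → Bool} {n : ℕ} :
    pp W z n < pp W y n ↔ rk W z (nd n) < rk W y (nd n) ∨
      (rk W z (nd n) = rk W y (nd n) ∧ z n < y n) := by
  unfold pp
  rw [Prod.Lex.toLex_lt_toLex]

theorem pp_le_iff {z y : ℕ → Bool} {n : ℕ} :
    pp W z n ≤ pp W y n ↔ rk W z (nd n) < rk W y (nd n) ∨
      (rk W z (nd n) = rk W y (nd n) ∧ z n ≤ y n) := by
  unfold pp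
  rw [Prod.Lex.toLex_le_toLex]

theorem nd_zero : nd 0 = [] := Denumerable.list_ofNat_zero

theorem nd_encode (s : List ℕ) : nd (Encodable.encode s) = s := Denumerable.ofNat_encode s

theorem cls_of_Lt {z y : ℕ → Bool} (hy : Cls W y) (h : Lt W z y) : Cls W z := by
  obtain ⟨n, c, h1, h2⟩ := h
  apply cls_of_wf
  apply wf_of_acc_nil
  have hL : ∃ τ c, Le W z y [] τ c := by
    rcases Nat.eq_zero_or_pos n with hn | hn
    · subst hn
      rw [nd_zero] at h2
      rcases h2 with ⟨_, _, h2⟩ | ⟨j, _, h2⟩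
      · exact ⟨_, _, h2⟩
      · exact ⟨_, _, h2⟩
    · have := (h1 0 hn).2
      rw [nd_zero] at this
      exact ⟨_, _, this⟩
  obtain ⟨τ, c', hL⟩ := hL
  exact acc_of_Le ((wf_of_cls hy).apply τ) _ _ hL

theorem Lt_iff {z y : ℕ → Bool} (hy : Cls W y) :
    Lt W z y ↔ Cls W z ∧ ∃ n, (∀ i < n, pp W z i = pp W y i) ∧ pp W z n < pp W y n := by
  constructor
  · intro h
    have hz := cls_of_Lt hy h
    refine ⟨hz, ?_⟩
    obtain ⟨n, c, h1, h2⟩ := h
    by_cases hex : ∃ i, i < n ∧ rk W z (nd i) < rk W y (nd i)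
    · classical
      obtain ⟨hi1, hi2⟩ := Nat.find_spec hex
      refine ⟨Nat.find hex, ?_, ?_⟩
      · intro i hi
        have hnot := Nat.find_min hex hi
        have hin : i < n := hi.trans hi1
        rw [pp_eq_iff]
        refine ⟨le_antisymm (rk_le_of_Le hz hy _ _ _ (h1 i hin).2) ?_, (h1 i hin).1⟩
        by_contra hcon
        push Not at hcon
        exact hnot ⟨hin, hcon⟩
      · rw [pp_lt_iff]
        exact Or.inl hi2
    · push Not at hex
      refine ⟨n, ?_, ?_⟩
      · intro i hi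
        rw [pp_eq_iff]
        exact ⟨le_antisymm (rk_le_of_Le hz hy _ _ _ (h1 i hi).2) (hex i hi), (h1 i hi).1⟩
      · rw [pp_lt_iff]
        rcases h2 with ⟨hzn, hyn, h2⟩ | ⟨j, hj, h2⟩
        · rcases lt_or_eq_of_le (rk_le_of_Le hz hy _ _ _ h2) with h | h
          · exact Or.inl h
          · refine Or.inr ⟨h, ?_⟩
            rw [hzn, hyn]
            decide
        · exact Or.inl (lt_of_le_of_lt (rk_le_of_Le hz hy _ _ _ h2) (rk_lt hy ⟨⟨j, rfl⟩, hj⟩))
  · rintro ⟨hz, n, h1, h2⟩
    have h3 : ∀ i, ∃ c, i < n → Le W z y (nd i) (nd i) c := by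
      intro i
      by_cases hi : i < n
      · obtain ⟨c, hc⟩ := exists_Le hz hy (nd i) (nd i) (pp_eq_iff.1 (h1 i hi)).1.le
        exact ⟨c, fun _ => hc⟩
      · exact ⟨fun _ => 0, fun h => absurd h hi⟩
    choose c hc using h3
    rw [pp_lt_iff] at h2
    rcases h2 with h2 | ⟨h2, h2'⟩
    · rw [lt_rk_iff hy] at h2
      obtain ⟨_, ⟨⟨j, rfl⟩, hj⟩, hle⟩ := h2
      obtain ⟨c', hc'⟩ := exists_Le hz hy _ _ hle
      refine ⟨n, fun i => if i < n then c i else c', ?_, Or.inr ⟨j, hj, ?_⟩⟩
      · intro i hi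
        simp only [hi, if_true]
        exact ⟨(pp_eq_iff.1 (h1 i hi)).2, hc i hi⟩
      · simp only [lt_irrefl, if_false]
        exact hc'
    · obtain ⟨c', hc'⟩ := exists_Le hz hy _ _ h2.le
      have hb : z n = false ∧ y n = true := by
        revert h2'
        generalize z n = a
        generalize y n = b
        revert a b
        decide
      refine ⟨n, fun i => if i < n then c i else c', ?_, Or.inl ⟨hb.1, hb.2, ?_⟩⟩
      · intro i hi
        simp only [hi, if_true]
        exact ⟨(pp_eq_iff.1 (h1 i hi)).2, hc i hi⟩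
      · simp only [lt_irrefl, if_false]
        exact hc'

/-- successive minimisation -/
noncomputable def SS (W : List Bool × List ℕ → Bool) : ℕ → Set (ℕ → Bool)
  | 0 => {y | Cls W y}
  | n + 1 => {y | y ∈ SS W n ∧ ∀ z ∈ SS W n, pp W y n ≤ pp W z n}

theorem SS_succ_subset (n : ℕ) : SS W (n + 1) ⊆ SS W n := fun _ h => h.1

theorem SS_anti {m n : ℕ} (h : m ≤ n) : SS W n ⊆ SS W m := by
  induction h with
  | refl => exact subset_rfl
  | step _ ih => exact (SS_succ_subset _).trans ih

theorem SS_cls {n : ℕ} {y : ℕ → Bool} (h : y ∈ SS W n) : Cls W y := SS_anti (Nat.zero_le n) h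

theorem SS_eq {n : ℕ} {y z : ℕ → Bool} (hy : y ∈ SS W n) (hz : z ∈ SS W n) {i : ℕ} (hi : i < n) :
    pp W y i = pp W z i := by
  have hy' : y ∈ SS W (i + 1) := SS_anti hi hy
  have hz' : z ∈ SS W (i + 1) := SS_anti hi hz
  exact le_antisymm (hy'.2 z hz'.1) (hz'.2 y hy'.1)

theorem SS_of_eq {n : ℕ} {y z : ℕ → Bool} (hy : y ∈ SS W n) (hz : Cls W z)
    (h : ∀ i < n, pp W z i = pp W y i) : z ∈ SS W n := by
  induction n with
  | zero => exact hz
  | succ n ih =>
    refine ⟨ih hy.1 (fun i hi => h i (by omega)), ?_⟩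
    intro x hx
    rw [h n (by omega)]
    exact hy.2 x hx

theorem SS_nonempty (hne : ∃ y, Cls W y) (n : ℕ) : (SS W n).Nonempty := by
  induction n with
  | zero => exact hne
  | succ n ih =>
    have hw : WellFounded ((· < ·) : (Ordinal.{0} ×ₗ Bool) → (Ordinal.{0} ×ₗ Bool) → Prop) :=
      wellFounded_lt
    obtain ⟨_, ⟨y, hy, rfl⟩, hmin⟩ := hw.has_min ((fun y => pp W y n) '' SS W n) (ih.image _)
    refine ⟨y, hy, ?_⟩
    intro z hz
    exact not_lt.1 (hmin _ ⟨z, hz, rfl⟩)

end Aux

/-- TARGET (Kondo-Addison uniformisation, semantic part) -/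
theorem kondo_sem (W : List Bool × List ℕ → Bool) (hne : ∃ y, Cls W y) :
    ∃ y, Cls W y ∧ (∀ z, ¬ Lt W z y) ∧ ∀ y', Cls W y' → (∀ z, ¬ Lt W z y') → y' = y := by
  choose a ha using SS_nonempty (W := W) hne
  set b : ℕ → Bool := fun n => a (n + 1) n with hb
  let l : ℕ → Ordinal.{0} := fun n => rk W (a (n + 1)) (nd n)
  have key : ∀ n, ∀ y ∈ SS W n, ∀ i < n, rk W y (nd i) = l i ∧ y i = b i := by
    intro n y hy i hi
    have h1 : pp W y i = pp W (a (i + 1)) i := by
      have hy' : y ∈ SS W (i + 1) := SS_anti hi hy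
      exact SS_eq hy' (ha (i + 1)) (Nat.lt_succ_self i)
    exact pp_eq_iff.1 h1
  have hlt : ∀ t s, Ch W b t s → l (Encodable.encode t) < l (Encodable.encode s) := by
    intro t s hts
    set N := Encodable.encode t + Encodable.encode s + t.length + 1 with hN
    have hy := ha N
    have hyc := SS_cls hy
    have hT : Tm W (a N) t := by
      intro m hm
      have e : pre (a N) m = pre b m :=
        pre_congr (fun i hi => (key N _ hy i (by omega)).2)
      rw [e]
      exact hts.2 m hm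
    have h1 := rk_lt hyc (⟨hts.1, hT⟩ : Ch W (a N) t s)
    have h2 := (key N _ hy (Encodable.encode t) (by omega)).1
    have h3 := (key N _ hy (Encodable.encode s) (by omega)).1
    rw [nd_encode] at h2 h3
    rwa [h2, h3] at h1
  have hwf : WellFounded (Ch W b) :=
    Subrelation.wf (r := InvImage (· < ·) (fun s : List ℕ => l (Encodable.encode s)))
      (fun {t s} h => hlt t s h) (InvImage.wf _ wellFounded_lt)
  have hbc : Cls W b := cls_of_wf hwf
  have hrk : ∀ s, rk W b s ≤ l (Encodable.encode s) := by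
    intro s
    induction s using hwf.induction with
    | _ s ih =>
      rw [rk_le_iff hbc]
      intro t ht
      exact lt_of_le_of_lt (ih t ht) (hlt t s ht)
  have hrk' : ∀ n, rk W b (nd n) ≤ l n := by
    intro n
    have := hrk (nd n)
    have e : Encodable.encode (nd n) = n := Denumerable.encode_ofNat n
    rwa [e] at this
  have hbS : ∀ n, b ∈ SS W n := by
    intro n
    induction n with
    | zero => exact hbc
    | succ n ih =>
      refine ⟨ih, ?_⟩
      intro z hz
      refine le_trans ?_ ((ha (n + 1)).2 z hz)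
      rw [pp_le_iff]
      rcases lt_or_eq_of_le (hrk' n) with h | h
      · exact Or.inl h
      · exact Or.inr ⟨h, le_rfl⟩
  refine ⟨b, hbc, ?_, ?_⟩
  · intro z hz
    rw [Lt_iff hbc] at hz
    obtain ⟨hzc, n, h1, h2⟩ := hz
    have hzS : z ∈ SS W n := SS_of_eq (hbS n) hzc h1
    exact absurd h2 (not_lt.2 ((hbS (n + 1)).2 z hzS))
  · intro y' hy' hmin
    have hS : ∀ n, y' ∈ SS W n := by
      intro n
      induction n with
      | zero => exact hy'
      | succ n ih =>
        refine ⟨ih, ?_⟩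
        intro z hz
        by_contra hcon
        push Not at hcon
        exact hmin z ((Lt_iff hy').2 ⟨SS_cls hz, n, fun i hi => SS_eq hz ih hi, hcon⟩)
    funext n
    exact (key (n + 1) y' (hS (n + 1)) n (Nat.lt_succ_self n)).2

end Pool.Agent.Helper583.TC.J5
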