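import Pool.Agent.Helper583.TCJ4

namespace Pool.Agent.Helper583.TC.J6

open J4 (cls_of_event)

/-- bits of `z` read off the code -/
def zof (x : ℕ → ℕ) : ℕ → Bool := fun k => !(x (2 + 2 * k) == 0)

/-- maps read off the code -/
def cof (x : ℕ → ℕ) : ℕ → List ℕ → ℕ := fun i ζ => x (3 + 2 * Nat.pair i (Encodable.encode ζ))

/-- target node -/
def tau (n a i : ℕ) : List ℕ := if i = n ∧ a ≠ 0 then nd n ++ [a - 1] else nd i

/-- the real condition -/
def GoodX (W : List Bool × List ℕ → Bool) (x : ℕ → ℕ) (y : ℕ → Bool) : Prop :=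
  (∀ i < x 0, zof x i = y i) ∧
  (∀ i ≤ x 0, Le W (zof x) y (nd i) (tau (x 0) (x 1) i) (cof x i)) ∧
  (x 1 = 0 → zof x (x 0) = false ∧ y (x 0) = true) ∧
  (x 1 ≠ 0 → Tm W y (nd (x 0) ++ [x 1 - 1]))

/-- coding -/
def cod (n a : ℕ) (z : ℕ → Bool) (c : ℕ → List ℕ → ℕ) (m : ℕ) : ℕ :=
  if m = 0 then n else if m = 1 then a else
    if m % 2 = 0 then (z ((m - 2) / 2)).toNat else
      c (Nat.unpair ((m - 3) / 2)).1 (nd (Nat.unpair ((m - 3) / 2)).2)

theorem zof_cod (n a : ℕ) (z : ℕ → Bool) (c : ℕ → List ℕ → ℕ) : zof (cod n a z c) = z := by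
  funext k
  have h : cod n a z c (2 + 2 * k) = (z k).toNat := by
    unfold cod
    rw [if_neg (by omega), if_neg (by omega), if_pos (by omega)]
    have : (2 + 2 * k - 2) / 2 = k := by omega
    rw [this]
  unfold zof
  rw [h]
  cases z k <;> rfl

theorem cof_cod (n a : ℕ) (z : ℕ → Bool) (c : ℕ → List ℕ → ℕ) : cof (cod n a z c) = c := by
  funext i ζ
  unfold cof cod
  rw [if_neg (by omega), if_neg (by omega), if_neg (by omega)]
  have : (3 + 2 * Nat.pair i (Encodable.encode ζ) - 3) / 2 = Nat.pair i (Encodable.encode ζ) := by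
    omega
  rw [this, Nat.unpair_pair]
  unfold nd
  rw [Denumerable.ofNat_encode]

theorem lt_iff (W : List Bool × List ℕ → Bool) (y : ℕ → Bool) :
    (∃ z, Lt W z y) ↔ ∃ x, GoodX W x y := by
  constructor
  · rintro ⟨z, n, c, h1, h2⟩
    rcases h2 with ⟨h2, h3, h4⟩ | ⟨j, h2, h3⟩
    · refine ⟨cod n 0 z c, ?_⟩
      unfold GoodX
      rw [zof_cod, cof_cod]
      have e0 : cod n 0 z c 0 = n := by simp [cod]
      have e1 : cod n 0 z c 1 = 0 := by simp [cod]
      rw [e0, e1]
      refine ⟨fun i hi => (h1 i hi).1, fun i hi => ?_, fun _ => ⟨h2, h3⟩, fun h => absurd rfl h⟩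
      have ht : tau n 0 i = nd i := by
        unfold tau
        rw [if_neg]
        exact fun h => h.2 rfl
      rw [ht]
      rcases Nat.lt_or_eq_of_le hi with h | h
      · exact (h1 i h).2
      · rw [h]; exact h4
    · refine ⟨cod n (j + 1) z c, ?_⟩
      unfold GoodX
      rw [zof_cod, cof_cod]
      have e0 : cod n (j + 1) z c 0 = n := by simp [cod]
      have e1 : cod n (j + 1) z c 1 = j + 1 := by simp [cod]
      rw [e0, e1]
      refine ⟨fun i hi => (h1 i hi).1, fun i hi => ?_, fun h => absurd h (Nat.succ_ne_zero j),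
        fun _ => h2⟩
      rcases Nat.lt_or_eq_of_le hi with h | h
      · have ht : tau n (j + 1) i = nd i := by
          unfold tau
          rw [if_neg]
          intro h'
          omega
        rw [ht]
        exact (h1 i h).2
      · have ht : tau n (j + 1) i = nd n ++ [j] := by
          unfold tau
          rw [if_pos ⟨h, Nat.succ_ne_zero j⟩]
          rfl
        rw [ht, h]
        exact h3
  · rintro ⟨x, h1, h2, h3, h4⟩
    refine ⟨zof x, x 0, cof x, fun i hi => ⟨h1 i hi, ?_⟩, ?_⟩
    · have h5 := h2 i hi.le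
      have ht : tau (x 0) (x 1) i = nd i := by
        unfold tau
        rw [if_neg]
        intro h'
        omega
      rwa [ht] at h5
    · have h5 := h2 (x 0) le_rfl
      by_cases ha : x 1 = 0
      · left
        have ht : tau (x 0) (x 1) (x 0) = nd (x 0) := by
          unfold tau
          rw [if_neg]
          exact fun h' => h'.2 ha
        rw [ht] at h5
        exact ⟨(h3 ha).1, (h3 ha).2, h5⟩
      · right
        have ht : tau (x 0) (x 1) (x 0) = nd (x 0) ++ [x 1 - 1] := by
          unfold tau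
          rw [if_pos ⟨rfl, ha⟩]
        rw [ht] at h5
        exact ⟨x 1 - 1, h4 ha, h5⟩

/-- word of `z` -/
def zw (u : List ℕ) (L : ℕ) : List Bool := (List.range L).map (fun k => !(u.getD (2 + 2 * k) 0 == 0))

/-- word of values of `c` -/
def gw (u : List ℕ) (i : ℕ) (ζ : List ℕ) : List ℕ :=
  (List.range ζ.length).map (fun k => u.getD (3 + 2 * Nat.pair i (Encodable.encode (ζ.take (k + 1)))) 0)

/-- tree condition for words -/
def TT (W : List Bool × List ℕ → Bool) (q : List Bool × List ℕ) : Prop :=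
  ∀ m < q.2.length + 1, W (q.1.take m, q.2.take m) = false

theorem pre_length {A : Type} (x : ℕ → A) (n : ℕ) : (pre x n).length = n := by
  simp [pre]

theorem pre_getD {A : Type} (x : ℕ → A) (n m : ℕ) (d : A) (h : m < n) : (pre x n).getD m d = x m := by
  unfold pre
  rw [List.getD_eq_getElem _ _ (by simpa using h)]
  simp

theorem pre_take {A : Type} (x : ℕ → A) (n m : ℕ) (h : m ≤ n) : (pre x n).take m = pre x m := by
  unfold pre
  rw [← List.map_take, List.take_range, min_eq_left h]

theorem TT_pre (W : List Bool × List ℕ → Bool) (y : ℕ → Bool) (N : ℕ) (σ : List ℕ)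
    (h : σ.length ≤ N) : TT W (pre y N, σ) ↔ Tm W y σ := by
  unfold TT Tm
  constructor
  · intro h1 m hm
    have := h1 m (by simpa using Nat.lt_succ_of_le hm)
    simp only at this
    rwa [pre_take y N m (hm.trans h)] at this
  · intro h1 m hm
    have hm' : m ≤ σ.length := Nat.lt_succ_iff.1 hm
    simp only
    rw [pre_take y N m (hm'.trans h)]
    exact h1 m hm'

theorem zw_pre (x : ℕ → ℕ) (N L : ℕ) (h : 2 + 2 * L ≤ N) : zw (pre x N) L = pre (zof x) L := by
  unfold zw
  conv_rhs => unfold pre
  apply List.map_congr_left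
  intro k hk
  rw [List.mem_range] at hk
  rw [pre_getD x N _ 0 (by omega)]
  rfl

theorem gw_pre (x : ℕ → ℕ) (N i : ℕ) (ζ : List ℕ)
    (h : ∀ k < ζ.length, 3 + 2 * Nat.pair i (Encodable.encode (ζ.take (k + 1))) < N) :
    gw (pre x N) i ζ = gm (cof x i) ζ := by
  unfold gw gm
  apply List.map_congr_left
  intro k hk
  rw [List.mem_range] at hk
  rw [pre_getD x N _ 0 (h k hk)]
  rfl

/-- the event -/
def EV (W : List Bool × List ℕ → Bool) (p : List Bool × List ℕ × ℕ) : Prop :=
  2 ≤ p.2.1.length ∧
  ((p.2.2.unpair.1 < p.2.1.getD 0 0 ∧ p.2.2.unpair.1 < p.1.length ∧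
      2 + 2 * p.2.2.unpair.1 < p.2.1.length ∧
      (!(p.2.1.getD (2 + 2 * p.2.2.unpair.1) 0 == 0)) ≠ p.1.getD p.2.2.unpair.1 false) ∨
   (p.2.2.unpair.1 ≤ p.2.1.getD 0 0 ∧ nd p.2.2.unpair.2 ≠ [] ∧
      (tau (p.2.1.getD 0 0) (p.2.1.getD 1 0) p.2.2.unpair.1).length + (nd p.2.2.unpair.2).length ≤
        p.1.length ∧
      2 + 2 * ((nd p.2.2.unpair.1).length + (nd p.2.2.unpair.2).length) ≤ p.2.1.length ∧
      (∀ k < (nd p.2.2.unpair.2).length, 3 + 2 * Nat.pair p.2.2.unpair.1
        (Encodable.encode ((nd p.2.2.unpair.2).take (k + 1))) < p.2.1.length) ∧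
      TT W (zw p.2.1 ((nd p.2.2.unpair.1).length + (nd p.2.2.unpair.2).length),
        nd p.2.2.unpair.1 ++ nd p.2.2.unpair.2) ∧
      ¬ TT W (p.1, tau (p.2.1.getD 0 0) (p.2.1.getD 1 0) p.2.2.unpair.1 ++
        gw p.2.1 p.2.2.unpair.1 (nd p.2.2.unpair.2))) ∨
   (p.2.1.getD 1 0 = 0 ∧ p.2.1.getD 0 0 < p.1.length ∧ 2 + 2 * p.2.1.getD 0 0 < p.2.1.length ∧
      ((!(p.2.1.getD (2 + 2 * p.2.1.getD 0 0) 0 == 0)) = true ∨
        p.1.getD (p.2.1.getD 0 0) false = false)) ∨
   (p.2.1.getD 1 0 ≠ 0 ∧ (nd (p.2.1.getD 0 0)).length + 1 ≤ p.1.length ∧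
      ¬ TT W (p.1, nd (p.2.1.getD 0 0) ++ [p.2.1.getD 1 0 - 1])))

theorem gm_length (c : List ℕ → ℕ) (ζ : List ℕ) : (gm c ζ).length = ζ.length := by
  simp [gm]

theorem EV_sound (W : List Bool × List ℕ → Bool) (x : ℕ → ℕ) (y : ℕ → Bool) (N w : ℕ)
    (h : EV W (pre y N, pre x N, w)) : ¬ GoodX W x y := by
  unfold EV at h
  simp only [pre_length] at h
  obtain ⟨hN, h⟩ := h
  have e0 : (pre x N).getD 0 0 = x 0 := pre_getD x N 0 0 (by omega)
  have e1 : (pre x N).getD 1 0 = x 1 := pre_getD x N 1 0 (by omega)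
  rw [e0, e1] at h
  rintro ⟨h1, h2, h3, h4⟩
  rcases h with h | h | h | h
  · obtain ⟨ha, hb, hc, hd⟩ := h
    rw [pre_getD x N _ 0 hc, pre_getD y N _ false hb] at hd
    exact hd (h1 _ ha)
  · obtain ⟨ha, hb, hc, hd, he, hf, hg⟩ := h
    rw [zw_pre x N _ hd, TT_pre W (zof x) _ _ (by rw [List.length_append])] at hf
    rw [gw_pre x N _ _ he, TT_pre W y _ _ (by rw [List.length_append, gm_length]; exact hc)] at hg
    exact hg (h2 _ ha _ hb hf)
  · obtain ⟨ha, hb, hc, hd⟩ := h
    rw [pre_getD x N _ 0 hc, pre_getD y N _ false hb] at hd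
    have h5 := h3 ha
    rcases hd with hd | hd
    · have h6 := h5.1
      unfold zof at h6
      rw [hd] at h6
      exact absurd h6 (by decide)
    · rw [h5.2] at hd
      exact absurd hd (by decide)
  · obtain ⟨ha, hb, hc⟩ := h
    rw [TT_pre W y _ _ (by rw [List.length_append]; exact hb)] at hc
    exact hc (h4 ha)

theorem EV_complete (W : List Bool × List ℕ → Bool) (x : ℕ → ℕ) (y : ℕ → Bool)
    (h : ¬ GoodX W x y) : ∃ N w, EV W (pre y N, pre x N, w) := by
  by_cases h1 : ∀ i < x 0, zof x i = y i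
  · by_cases h2 : ∀ i ≤ x 0, Le W (zof x) y (nd i) (tau (x 0) (x 1) i) (cof x i)
    · by_cases h3 : x 1 = 0 → zof x (x 0) = false ∧ y (x 0) = true
      · by_cases h4 : x 1 ≠ 0 → Tm W y (nd (x 0) ++ [x 1 - 1])
        · exact absurd ⟨h1, h2, h3, h4⟩ h
        · rw [Classical.not_imp] at h4
          obtain ⟨ha, hb⟩ := h4
          refine ⟨(nd (x 0)).length + 3, 0, ?_⟩
          unfold EV
          simp only [pre_length]
          have e0 : (pre x ((nd (x 0)).length + 3)).getD 0 0 = x 0 := pre_getD x _ 0 0 (by omega)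
          have e1 : (pre x ((nd (x 0)).length + 3)).getD 1 0 = x 1 := pre_getD x _ 1 0 (by omega)
          rw [e0, e1]
          refine ⟨by omega, Or.inr (Or.inr (Or.inr ⟨ha, by omega, ?_⟩))⟩
          rw [TT_pre W y _ _ (by rw [List.length_append, List.length_singleton]; omega)]
          exact hb
      · rw [Classical.not_imp] at h3
        obtain ⟨ha, hb⟩ := h3
        refine ⟨2 * x 0 + 3, 0, ?_⟩
        unfold EV
        simp only [pre_length]
        have e0 : (pre x (2 * x 0 + 3)).getD 0 0 = x 0 := pre_getD x _ 0 0 (by omega)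
        have e1 : (pre x (2 * x 0 + 3)).getD 1 0 = x 1 := pre_getD x _ 1 0 (by omega)
        rw [e0, e1]
        refine ⟨by omega, Or.inr (Or.inr (Or.inl ⟨ha, by omega, by omega, ?_⟩))⟩
        rw [pre_getD x _ _ 0 (by omega), pre_getD y _ _ false (by omega)]
        by_contra hcon
        rw [not_or] at hcon
        apply hb
        constructor
        · have h5 := hcon.1
          rw [Bool.not_eq_true] at h5
          exact h5
        · have h5 := hcon.2
          rwa [Bool.not_eq_false] at h5
    · push Not at h2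
      obtain ⟨i, hi, hLe⟩ := h2
      unfold Le at hLe
      push Not at hLe
      obtain ⟨ζ, hζ, hT, hnT⟩ := hLe
      have hndζ : nd (Encodable.encode ζ) = ζ := by
        unfold nd
        rw [Denumerable.ofNat_encode]
      obtain ⟨B, hB⟩ : ∃ B, ∀ k < ζ.length,
          3 + 2 * Nat.pair i (Encodable.encode (ζ.take (k + 1))) ≤ B := by
        refine ⟨(Finset.range ζ.length).sup
          (fun k => 3 + 2 * Nat.pair i (Encodable.encode (ζ.take (k + 1)))), fun k hk => ?_⟩
        exact Finset.le_sup (f := fun k => 3 + 2 * Nat.pair i (Encodable.encode (ζ.take (k + 1))))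
          (Finset.mem_range.2 hk)
      obtain ⟨N, hN⟩ : ∃ N, N = B + (tau (x 0) (x 1) i).length + 2 * (nd i).length + 2 * ζ.length + 3 :=
        ⟨_, rfl⟩
      refine ⟨N, Nat.pair i (Encodable.encode ζ), ?_⟩
      unfold EV
      simp only [pre_length, Nat.unpair_pair, hndζ]
      have e0 : (pre x N).getD 0 0 = x 0 := pre_getD x _ 0 0 (by omega)
      have e1 : (pre x N).getD 1 0 = x 1 := pre_getD x _ 1 0 (by omega)
      rw [e0, e1]
      have hg : ∀ k < ζ.length, 3 + 2 * Nat.pair i (Encodable.encode (ζ.take (k + 1))) < N := by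
        intro k hk
        have := hB k hk
        omega
      refine ⟨by omega, Or.inr (Or.inl ⟨hi, hζ, by omega, by omega, hg, ?_, ?_⟩)⟩
      · rw [zw_pre x N _ (by omega), TT_pre W (zof x) _ _ (by rw [List.length_append])]
        exact hT
      · rw [gw_pre x N _ _ hg, TT_pre W y _ _ (by rw [List.length_append, gm_length]; omega)]
        exact hnT
  · push Not at h1
    obtain ⟨i, hi, hne⟩ := h1
    refine ⟨2 * i + 3, Nat.pair i 0, ?_⟩
    unfold EV
    simp only [pre_length, Nat.unpair_pair]
    have e0 : (pre x (2 * i + 3)).getD 0 0 = x 0 := pre_getD x _ 0 0 (by omega)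
    rw [e0]
    refine ⟨by omega, Or.inl ⟨hi, by omega, by omega, ?_⟩⟩
    rw [pre_getD x _ _ 0 (by omega), pre_getD y _ _ false (by omega)]
    exact hne

theorem prim_nd : Primrec nd := Primrec.ofNat (List ℕ)

theorem prim_forall_lt {β : Type} [Primcodable β] {R : ℕ → β → Prop} (hR : PrimrecRel R) :
    PrimrecRel (fun (n : ℕ) (b : β) => ∀ k < n, R k b) := by
  have h1 := PrimrecRel.forall_mem_list hR
  have h2 : PrimrecRel (fun (n : ℕ) (b : β) => ∀ a ∈ List.range n, R a b) :=
    h1.comp (Primrec.list_range.comp Primrec.fst) Primrec.snd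
  exact h2.of_eq (fun n b => by simp only [List.mem_range])

theorem prim_TT (W : List Bool × List ℕ → Bool) (hW : Primrec W) : PrimrecPred (TT W) := by
  have hR : PrimrecRel (fun (m : ℕ) (q : List Bool × List ℕ) => W (q.1.take m, q.2.take m) = false) := by
    have h1 : Primrec₂ (fun (m : ℕ) (q : List Bool × List ℕ) => W (q.1.take m, q.2.take m)) := by
      apply hW.comp
      apply Primrec.pair
      · exact Primrec.list_take.comp Primrec.fst (Primrec.fst.comp Primrec.snd)
      · exact Primrec.list_take.comp Primrec.fst (Primrec.snd.comp Primrec.snd)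
    exact Primrec.eq.comp₂ h1 (Primrec₂.const false)
  have h2 := prim_forall_lt hR
  exact h2.comp (Primrec.succ.comp (Primrec.list_length.comp Primrec.snd)) Primrec.id

theorem prim_tau : Primrec (fun q : ℕ × ℕ × ℕ => tau q.1 q.2.1 q.2.2) := by
  unfold tau
  apply Primrec.ite
  · apply PrimrecPred.and
    · exact Primrec.eq.comp (Primrec.snd.comp Primrec.snd) Primrec.fst
    · exact (Primrec.eq.comp (Primrec.fst.comp Primrec.snd) (Primrec.const 0)).not
  · apply Primrec.list_append.comp
    · exact prim_nd.comp Primrec.fst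
    · apply Primrec.list_cons.comp
      · exact Primrec.nat_sub.comp (Primrec.fst.comp Primrec.snd) (Primrec.const 1)
      · exact Primrec.const []
  · exact prim_nd.comp (Primrec.snd.comp Primrec.snd)

theorem prim_zbit {α : Type} [Primcodable α] {f : α → List ℕ} {g : α → ℕ} (hf : Primrec f)
    (hg : Primrec g) : Primrec (fun a => !((f a).getD (2 + 2 * g a) 0 == 0)) := by
  apply Primrec.not.comp
  apply Primrec.beq.comp
  · apply (Primrec.list_getD 0).comp hf
    exact Primrec.nat_add.comp (Primrec.const 2) (Primrec.nat_mul.comp (Primrec.const 2) hg)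
  · exact Primrec.const 0

theorem prim_zw : Primrec₂ zw := by
  unfold zw
  apply Primrec.list_map
  · exact Primrec.list_range.comp Primrec.snd
  · exact prim_zbit (α := (List ℕ × ℕ) × ℕ) (Primrec.fst.comp Primrec.fst) Primrec.snd

theorem prim_gpos {α : Type} [Primcodable α] {f : α → ℕ} {g : α → List ℕ} {k : α → ℕ}
    (hf : Primrec f) (hg : Primrec g) (hk : Primrec k) :
    Primrec (fun a => 3 + 2 * Nat.pair (f a) (Encodable.encode ((g a).take (k a + 1)))) := by
  apply Primrec.nat_add.comp (Primrec.const 3)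
  apply Primrec.nat_mul.comp (Primrec.const 2)
  apply Primrec₂.natPair.comp hf
  apply Primrec.encode.comp
  exact Primrec.list_take.comp (Primrec.succ.comp hk) hg

theorem prim_gw : Primrec (fun q : List ℕ × ℕ × List ℕ => gw q.1 q.2.1 q.2.2) := by
  unfold gw
  apply Primrec.list_map
  · exact Primrec.list_range.comp (Primrec.list_length.comp (Primrec.snd.comp Primrec.snd))
  · apply (Primrec.list_getD 0).comp (Primrec.fst.comp Primrec.fst)
    exact prim_gpos (α := (List ℕ × ℕ × List ℕ) × ℕ) (Primrec.fst.comp (Primrec.snd.comp Primrec.fst))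
      (Primrec.snd.comp (Primrec.snd.comp Primrec.fst)) Primrec.snd

theorem prim_EV (W : List Bool × List ℕ → Bool) (hW : Primrec W) : PrimrecPred (EV W) := by
  have fs : Primrec (fun p : List Bool × List ℕ × ℕ => p.1) := Primrec.fst
  have fu : Primrec (fun p : List Bool × List ℕ × ℕ => p.2.1) := Primrec.fst.comp Primrec.snd
  have fw : Primrec (fun p : List Bool × List ℕ × ℕ => p.2.2) := Primrec.snd.comp Primrec.snd
  have fi : Primrec (fun p : List Bool × List ℕ × ℕ => p.2.2.unpair.1) :=
    Primrec.fst.comp (Primrec.unpair.comp fw)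
  have fz : Primrec (fun p : List Bool × List ℕ × ℕ => nd p.2.2.unpair.2) :=
    prim_nd.comp (Primrec.snd.comp (Primrec.unpair.comp fw))
  have fn : Primrec (fun p : List Bool × List ℕ × ℕ => p.2.1.getD 0 0) :=
    (Primrec.list_getD 0).comp fu (Primrec.const 0)
  have fa : Primrec (fun p : List Bool × List ℕ × ℕ => p.2.1.getD 1 0) :=
    (Primrec.list_getD 0).comp fu (Primrec.const 1)
  have flu : Primrec (fun p : List Bool × List ℕ × ℕ => p.2.1.length) := Primrec.list_length.comp fu
  have fls : Primrec (fun p : List Bool × List ℕ × ℕ => p.1.length) := Primrec.list_length.comp fs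
  have fni : Primrec (fun p : List Bool × List ℕ × ℕ => nd p.2.2.unpair.1) := prim_nd.comp fi
  have fnn : Primrec (fun p : List Bool × List ℕ × ℕ => nd (p.2.1.getD 0 0)) := prim_nd.comp fn
  have ft : Primrec (fun p : List Bool × List ℕ × ℕ =>
      tau (p.2.1.getD 0 0) (p.2.1.getD 1 0) p.2.2.unpair.1) :=
    prim_tau.comp (fn.pair (fa.pair fi))
  have fll : Primrec (fun p : List Bool × List ℕ × ℕ =>
      (nd p.2.2.unpair.1).length + (nd p.2.2.unpair.2).length) :=
    Primrec.nat_add.comp (Primrec.list_length.comp fni) (Primrec.list_length.comp fz)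
  have fq : PrimrecPred (fun p : List Bool × List ℕ × ℕ =>
      ∀ k < (nd p.2.2.unpair.2).length, 3 + 2 * Nat.pair p.2.2.unpair.1
        (Encodable.encode ((nd p.2.2.unpair.2).take (k + 1))) < p.2.1.length) := by
    have hR : PrimrecRel (fun (k : ℕ) (p : List Bool × List ℕ × ℕ) =>
        3 + 2 * Nat.pair p.2.2.unpair.1
          (Encodable.encode ((nd p.2.2.unpair.2).take (k + 1))) < p.2.1.length) := by
      apply Primrec.nat_lt.comp
      · exact prim_gpos (α := ℕ × List Bool × List ℕ × ℕ) (fi.comp Primrec.snd)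
          (fz.comp Primrec.snd) Primrec.fst
      · exact flu.comp Primrec.snd
    exact (prim_forall_lt hR).comp (Primrec.list_length.comp fz) Primrec.id
  unfold EV
  apply PrimrecPred.and
  · exact Primrec.nat_le.comp (Primrec.const 2) flu
  apply PrimrecPred.or
  · apply PrimrecPred.and
    · exact Primrec.nat_lt.comp fi fn
    apply PrimrecPred.and
    · exact Primrec.nat_lt.comp fi fls
    apply PrimrecPred.and
    · exact Primrec.nat_lt.comp (Primrec.nat_add.comp (Primrec.const 2)
        (Primrec.nat_mul.comp (Primrec.const 2) fi)) flu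
    · exact (Primrec.eq.comp (prim_zbit fu fi) ((Primrec.list_getD false).comp fs fi)).not
  apply PrimrecPred.or
  · apply PrimrecPred.and
    · exact Primrec.nat_le.comp fi fn
    apply PrimrecPred.and
    · exact (Primrec.eq.comp fz (Primrec.const [])).not
    apply PrimrecPred.and
    · exact Primrec.nat_le.comp (Primrec.nat_add.comp (Primrec.list_length.comp ft)
        (Primrec.list_length.comp fz)) fls
    apply PrimrecPred.and
    · exact Primrec.nat_le.comp (Primrec.nat_add.comp (Primrec.const 2)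
        (Primrec.nat_mul.comp (Primrec.const 2) fll)) flu
    apply PrimrecPred.and
    · exact fq
    apply PrimrecPred.and
    · exact (prim_TT W hW).comp ((prim_zw.comp fu fll).pair (Primrec.list_append.comp fni fz))
    · exact ((prim_TT W hW).comp (fs.pair (Primrec.list_append.comp ft
        (prim_gw.comp (fu.pair (fi.pair fz)))))).not
  apply PrimrecPred.or
  · apply PrimrecPred.and
    · exact Primrec.eq.comp fa (Primrec.const 0)
    apply PrimrecPred.and
    · exact Primrec.nat_lt.comp fn fls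
    apply PrimrecPred.and
    · exact Primrec.nat_lt.comp (Primrec.nat_add.comp (Primrec.const 2)
        (Primrec.nat_mul.comp (Primrec.const 2) fn)) flu
    apply PrimrecPred.or
    · exact Primrec.eq.comp (prim_zbit fu fn) (Primrec.const true)
    · exact Primrec.eq.comp ((Primrec.list_getD false).comp fs fn) (Primrec.const false)
  · apply PrimrecPred.and
    · exact (Primrec.eq.comp fa (Primrec.const 0)).not
    apply PrimrecPred.and
    · exact Primrec.nat_le.comp (Primrec.succ.comp (Primrec.list_length.comp fnn)) fls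
    · apply PrimrecPred.not
      apply (prim_TT W hW).comp
      apply fs.pair
      apply Primrec.list_append.comp fnn
      apply Primrec.list_cons.comp
      · exact Primrec.nat_sub.comp fa (Primrec.const 1)
      · exact Primrec.const []

/-- TARGET (Kondo-Addison uniformisation, complexity part) -/
theorem kondo_comp (W : List Bool × List ℕ → Bool) (hW : Primrec W) :
    ∃ W' : List Bool × List ℕ → Bool, Primrec W' ∧ ∀ y, Cls W' y ↔ ∀ z, ¬ Lt W z y := by
  obtain ⟨_, hE⟩ := prim_EV W hW
  obtain ⟨W', hW', h⟩ := cls_of_event (fun p => decide (EV W p)) hE.to_comp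
  refine ⟨W', hW', fun y => ?_⟩
  rw [h y, ← not_exists, lt_iff, not_exists]
  apply forall_congr'
  intro x
  constructor
  · rintro ⟨n, w, hnw⟩
    exact EV_sound W x y n w (of_decide_eq_true hnw)
  · intro hx
    obtain ⟨N, w, hE'⟩ := EV_complete W x y hx
    exact ⟨N, w, decide_eq_true hE'⟩

end Pool.Agent.Helper583.TC.J6
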