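import Pool.Agent.Helper583.TCJ4
import Pool.Agent.Helper583.TCJ2

namespace Pool.Agent.Helper583.TC.J7

open J4 (cls_of_event)
open J2 (red_iff)

open Nat.Partrec (Code)

/-- evaluation of a coded program -/
def evl (t c : ℕ) (l : List ℕ) (n : ℕ) : Option ℕ :=
  Code.evaln t (Denumerable.ofNat Code c) (Encodable.encode (l, n))

theorem red_code (x y : ℕ → ℕ) : Red x y ↔ ∃ c : ℕ, ∀ n,
    (∃ k t, evl t c (pre y k) n = some (x n)) ∧
    ∀ k t m, evl t c (pre y k) n = some m → m = x n := by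
  rw [red_iff]
  constructor
  · rintro ⟨φ, hφ, h⟩
    obtain ⟨c, hc⟩ := Code.exists_code.1 hφ
    have key : ∀ (l : List ℕ) (n m : ℕ), (m ∈ φ (l, n) ↔ ∃ t, evl t (Encodable.encode c) l n = some m) := by
      intro l n m
      have h1 : m ∈ c.eval (Encodable.encode (l, n)) ↔ m ∈ φ (l, n) := by
        rw [hc]
        simp
      rw [← h1, Code.evaln_complete]
      unfold evl
      rw [Denumerable.ofNat_encode]
      rfl
    refine ⟨Encodable.encode c, fun n => ⟨?_, ?_⟩⟩
    · obtain ⟨k, hk⟩ := (h n).1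
      obtain ⟨t, ht⟩ := (key _ _ _).1 hk
      exact ⟨k, t, ht⟩
    · intro k t m hm
      exact (h n).2 k m ((key _ _ _).2 ⟨t, hm⟩)
  · rintro ⟨c, hc⟩
    refine ⟨fun a => (Denumerable.ofNat Code c).eval (Encodable.encode a), ?_, ?_⟩
    · exact Code.eval_part.comp (Computable.const _) Computable.encode
    · have key : ∀ (l : List ℕ) (n m : ℕ),
          (m ∈ (Denumerable.ofNat Code c).eval (Encodable.encode (l, n)) ↔
            ∃ t, evl t c l n = some m) := by
        intro l n m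
        rw [Code.evaln_complete]
        rfl
      intro n
      refine ⟨?_, ?_⟩
      · obtain ⟨k, t, ht⟩ := (hc n).1
        exact ⟨k, (key _ _ _).2 ⟨t, ht⟩⟩
      · intro k m hm
        obtain ⟨t, ht⟩ := (key _ _ _).1 hm
        exact (hc n).2 k t m ht

/-- even part of a word -/
def evb (s : List Bool) (k : ℕ) : List ℕ := (List.range k).map fun i => (s.getD (2 * i) false).toNat

/-- odd part of a word -/
def zs (s : List Bool) (n : ℕ) : ℕ := (s.getD (2 * n + 1) false).toNat

/-- evaluation along words -/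
def core (q : (List Bool × List ℕ) × ℕ × ℕ × ℕ) : Option ℕ :=
  evl q.2.2.2 (q.1.2.getD 0 0) (evb q.1.1 q.2.2.1) q.2.1

theorem primrec_toNat : Primrec Bool.toNat := Primrec.dom_bool _

theorem primrec_evb : Primrec₂ evb := by
  have h1 : Primrec₂ fun (a : List Bool × ℕ) (i : ℕ) => (a.1.getD (2 * i) false).toNat :=
    primrec_toNat.comp ((Primrec.list_getD false).comp (Primrec.fst.comp Primrec.fst)
      (Primrec.nat_mul.comp (Primrec.const 2) Primrec.snd))
  exact Primrec.list_map (Primrec.list_range.comp Primrec.snd) h1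

theorem primrec_zs : Primrec₂ zs :=
  primrec_toNat.comp ((Primrec.list_getD false).comp Primrec.fst
    (Primrec.succ.comp (Primrec.nat_mul.comp (Primrec.const 2) Primrec.snd)))

theorem primrec_core : Primrec core := by
  have h1 : Primrec fun q : (List Bool × List ℕ) × ℕ × ℕ × ℕ =>
      ((q.2.2.2, Denumerable.ofNat Code (q.1.2.getD 0 0)),
        Encodable.encode (evb q.1.1 q.2.2.1, q.2.1)) := by
    refine Primrec.pair (Primrec.pair ?_ ?_) ?_
    · exact Primrec.snd.comp (Primrec.snd.comp Primrec.snd)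
    · exact (Primrec.ofNat Code).comp ((Primrec.list_getD 0).comp (Primrec.snd.comp Primrec.fst)
        (Primrec.const 0))
    · refine Primrec.encode.comp (Primrec.pair ?_ ?_)
      · exact primrec_evb.comp (Primrec.fst.comp Primrec.fst)
          (Primrec.fst.comp (Primrec.snd.comp Primrec.snd))
      · exact Primrec.fst.comp Primrec.snd
  exact Code.primrec_evaln.comp h1

/-- the event -/
def evt (a : List Bool × List ℕ × ℕ) : Bool :=
  (decide (a.2.2.unpair.1 + 1 < a.2.1.length) && decide (2 * a.2.2.unpair.1 + 1 < a.1.length) &&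
    decide (2 * (a.2.1.getD (a.2.2.unpair.1 + 1) 0).unpair.1 ≤ a.1.length) &&
    !decide (core ((a.1, a.2.1), a.2.2.unpair.1, (a.2.1.getD (a.2.2.unpair.1 + 1) 0).unpair.1,
      (a.2.1.getD (a.2.2.unpair.1 + 1) 0).unpair.2) = some (zs a.1 a.2.2.unpair.1))) ||
  (decide (0 < a.2.1.length) && decide (2 * a.2.2.unpair.1 + 1 < a.1.length) &&
    decide (2 * a.2.2.unpair.2.unpair.1 ≤ a.1.length) &&
    !decide (core ((a.1, a.2.1), a.2.2.unpair.1, a.2.2.unpair.2.unpair.1,
      a.2.2.unpair.2.unpair.2) = none) &&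
    !decide (core ((a.1, a.2.1), a.2.2.unpair.1, a.2.2.unpair.2.unpair.1,
      a.2.2.unpair.2.unpair.2) = some (zs a.1 a.2.2.unpair.1)))

theorem primrec_evt : Primrec evt := by
  have pS : Primrec fun a : List Bool × List ℕ × ℕ => a.1 := Primrec.fst
  have pU : Primrec fun a : List Bool × List ℕ × ℕ => a.2.1 := Primrec.fst.comp Primrec.snd
  have pW : Primrec fun a : List Bool × List ℕ × ℕ => a.2.2 := Primrec.snd.comp Primrec.snd
  have pN : Primrec fun a : List Bool × List ℕ × ℕ => a.2.2.unpair.1 :=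
    Primrec.fst.comp (Primrec.unpair.comp pW)
  have pR : Primrec fun a : List Bool × List ℕ × ℕ => a.2.2.unpair.2 :=
    Primrec.snd.comp (Primrec.unpair.comp pW)
  have pK : Primrec fun a : List Bool × List ℕ × ℕ => a.2.2.unpair.2.unpair.1 :=
    Primrec.fst.comp (Primrec.unpair.comp pR)
  have pT : Primrec fun a : List Bool × List ℕ × ℕ => a.2.2.unpair.2.unpair.2 :=
    Primrec.snd.comp (Primrec.unpair.comp pR)
  have pN1 : Primrec fun a : List Bool × List ℕ × ℕ => a.2.2.unpair.1 + 1 := Primrec.succ.comp pN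
  have pG : Primrec fun a : List Bool × List ℕ × ℕ => a.2.1.getD (a.2.2.unpair.1 + 1) 0 :=
    (Primrec.list_getD 0).comp pU pN1
  have pG1 : Primrec fun a : List Bool × List ℕ × ℕ =>
      (a.2.1.getD (a.2.2.unpair.1 + 1) 0).unpair.1 := Primrec.fst.comp (Primrec.unpair.comp pG)
  have pG2 : Primrec fun a : List Bool × List ℕ × ℕ =>
      (a.2.1.getD (a.2.2.unpair.1 + 1) 0).unpair.2 := Primrec.snd.comp (Primrec.unpair.comp pG)
  have pLU : Primrec fun a : List Bool × List ℕ × ℕ => a.2.1.length := Primrec.list_length.comp pU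
  have pLS : Primrec fun a : List Bool × List ℕ × ℕ => a.1.length := Primrec.list_length.comp pS
  have pD : ∀ {f : List Bool × List ℕ × ℕ → ℕ}, Primrec f → Primrec fun a => 2 * f a :=
    fun hf => Primrec.nat_mul.comp (Primrec.const 2) hf
  have pZ : Primrec fun a : List Bool × List ℕ × ℕ => some (zs a.1 a.2.2.unpair.1) :=
    Primrec.option_some.comp (primrec_zs.comp pS pN)
  have pC1 : Primrec fun a : List Bool × List ℕ × ℕ =>
      core ((a.1, a.2.1), a.2.2.unpair.1, (a.2.1.getD (a.2.2.unpair.1 + 1) 0).unpair.1,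
      (a.2.1.getD (a.2.2.unpair.1 + 1) 0).unpair.2) :=
    primrec_core.comp (Primrec.pair (Primrec.pair pS pU) (Primrec.pair pN (Primrec.pair pG1 pG2)))
  have pC2 : Primrec fun a : List Bool × List ℕ × ℕ =>
      core ((a.1, a.2.1), a.2.2.unpair.1, a.2.2.unpair.2.unpair.1,
      a.2.2.unpair.2.unpair.2) :=
    primrec_core.comp (Primrec.pair (Primrec.pair pS pU) (Primrec.pair pN (Primrec.pair pK pT)))
  have q1 : Primrec fun a : List Bool × List ℕ × ℕ =>
      decide (a.2.2.unpair.1 + 1 < a.2.1.length) := (Primrec.nat_lt.comp pN1 pLU).decide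
  have q2 : Primrec fun a : List Bool × List ℕ × ℕ =>
      decide (2 * a.2.2.unpair.1 + 1 < a.1.length) :=
    (Primrec.nat_lt.comp (Primrec.succ.comp (pD pN)) pLS).decide
  have q3 : Primrec fun a : List Bool × List ℕ × ℕ =>
      decide (2 * (a.2.1.getD (a.2.2.unpair.1 + 1) 0).unpair.1 ≤ a.1.length) :=
    (Primrec.nat_le.comp (pD pG1) pLS).decide
  have q4 : Primrec fun a : List Bool × List ℕ × ℕ =>
      decide (core ((a.1, a.2.1), a.2.2.unpair.1, (a.2.1.getD (a.2.2.unpair.1 + 1) 0).unpair.1,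
      (a.2.1.getD (a.2.2.unpair.1 + 1) 0).unpair.2) = some (zs a.1 a.2.2.unpair.1)) :=
    (Primrec.eq.comp pC1 pZ).decide
  have q5 : Primrec fun a : List Bool × List ℕ × ℕ => decide (0 < a.2.1.length) :=
    (Primrec.nat_lt.comp (Primrec.const 0) pLU).decide
  have q6 : Primrec fun a : List Bool × List ℕ × ℕ =>
      decide (2 * a.2.2.unpair.2.unpair.1 ≤ a.1.length) :=
    (Primrec.nat_le.comp (pD pK) pLS).decide
  have q7 : Primrec fun a : List Bool × List ℕ × ℕ =>
      decide (core ((a.1, a.2.1), a.2.2.unpair.1, a.2.2.unpair.2.unpair.1,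
      a.2.2.unpair.2.unpair.2) = none) :=
    (Primrec.eq.comp pC2 (Primrec.const none)).decide
  have q8 : Primrec fun a : List Bool × List ℕ × ℕ =>
      decide (core ((a.1, a.2.1), a.2.2.unpair.1, a.2.2.unpair.2.unpair.1,
      a.2.2.unpair.2.unpair.2) = some (zs a.1 a.2.2.unpair.1)) :=
    (Primrec.eq.comp pC2 pZ).decide
  exact Primrec.or.comp
    (Primrec.and.comp (Primrec.and.comp (Primrec.and.comp q1 q2) q3) (Primrec.not.comp q4))
    (Primrec.and.comp (Primrec.and.comp (Primrec.and.comp (Primrec.and.comp q5 q2) q6)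
      (Primrec.not.comp q7)) (Primrec.not.comp q8))

theorem length_pre {A : Type} (x : ℕ → A) (n : ℕ) : (pre x n).length = n := by
  unfold pre; simp

theorem getD_pre {A : Type} (x : ℕ → A) (n i : ℕ) (d : A) (h : i < n) : (pre x n).getD i d = x i := by
  unfold pre
  simp [List.getD_eq_getElem?_getD, h]

theorem zs_pre (y : ℕ → Bool) (N n : ℕ) (h : 2 * n + 1 < N) : zs (pre y N) n = nb (odn y) n := by
  unfold zs
  rw [getD_pre y N _ _ h]
  rfl

theorem evb_pre (y : ℕ → Bool) (N k : ℕ) (h : 2 * k ≤ N) : evb (pre y N) k = pre (nb (evn y)) k := by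
  unfold evb
  rw [show pre (nb (evn y)) k = (List.range k).map (nb (evn y)) from rfl]
  apply List.map_congr_left
  intro i hi
  have hi' : i < k := List.mem_range.1 hi
  rw [getD_pre y N _ _ (by omega)]
  rfl

/-- TARGET -/
theorem cls_notRed : ∃ W : List Bool × List ℕ → Bool, Primrec W ∧
    ∀ y, Cls W y ↔ ¬ Red (nb (odn y)) (nb (evn y)) := by
  obtain ⟨W, hW, hWc⟩ := cls_of_event evt primrec_evt.to_comp
  refine ⟨W, hW, fun y => ?_⟩
  rw [hWc, red_code]
  have hev : ∀ (x : ℕ → ℕ) (N w : ℕ), evt (pre y N, pre x N, w) = true ↔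
      (w.unpair.1 + 1 < N ∧ 2 * w.unpair.1 + 1 < N ∧ 2 * (x (w.unpair.1 + 1)).unpair.1 ≤ N ∧
        evl (x (w.unpair.1 + 1)).unpair.2 (x 0)
          (pre (nb (evn y)) (x (w.unpair.1 + 1)).unpair.1) w.unpair.1 ≠
          some (nb (odn y) w.unpair.1)) ∨
      (0 < N ∧ 2 * w.unpair.1 + 1 < N ∧ 2 * w.unpair.2.unpair.1 ≤ N ∧
        evl w.unpair.2.unpair.2 (x 0) (pre (nb (evn y)) w.unpair.2.unpair.1) w.unpair.1 ≠ none ∧
        evl w.unpair.2.unpair.2 (x 0) (pre (nb (evn y)) w.unpair.2.unpair.1) w.unpair.1 ≠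
          some (nb (odn y) w.unpair.1)) := by
    intro x N w
    simp only [evt, core, Bool.or_eq_true, Bool.and_eq_true, decide_eq_true_eq, Bool.not_eq_true',
      decide_eq_false_iff_not, length_pre, ne_eq]
    constructor
    · rintro (⟨⟨⟨h1, h2⟩, h3⟩, h4⟩ | ⟨⟨⟨⟨h1, h2⟩, h3⟩, h4⟩, h5⟩)
      · left
        rw [getD_pre x N _ _ h1] at h3 h4
        rw [getD_pre x N 0 _ (by omega), evb_pre y N _ h3, zs_pre y N _ h2] at h4
        exact ⟨h1, h2, h3, h4⟩
      · right
        rw [getD_pre x N 0 _ (by omega), evb_pre y N _ h3] at h4 h5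
        rw [zs_pre y N _ h2] at h5
        exact ⟨h1, h2, h3, h4, h5⟩
    · rintro (⟨h1, h2, h3, h4⟩ | ⟨h1, h2, h3, h4, h5⟩)
      · left
        rw [getD_pre x N _ _ h1, getD_pre x N 0 _ (by omega), evb_pre y N _ h3, zs_pre y N _ h2]
        exact ⟨⟨⟨h1, h2⟩, h3⟩, h4⟩
      · right
        rw [getD_pre x N 0 _ (by omega), evb_pre y N _ h3, zs_pre y N _ h2]
        exact ⟨⟨⟨⟨h1, h2⟩, h3⟩, h4⟩, h5⟩
  constructor
  · rintro h ⟨c, hc⟩
    choose k t hkt using fun n => (hc n).1
    obtain ⟨N, w, hw⟩ := h (fun i => Nat.casesOn i c (fun n => Nat.pair (k n) (t n)))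
    rcases (hev _ _ _).1 hw with ⟨-, -, -, h4⟩ | ⟨-, -, -, h4, h5⟩
    · apply h4
      show evl (Nat.pair (k w.unpair.1) (t w.unpair.1)).unpair.2 c
          (pre (nb (evn y)) (Nat.pair (k w.unpair.1) (t w.unpair.1)).unpair.1) w.unpair.1 = _
      rw [Nat.unpair_pair]
      exact hkt _
    · obtain ⟨m, hm⟩ := Option.ne_none_iff_exists'.1 h4
      rw [hm] at h5
      exact h5 (by rw [(hc _).2 _ _ _ hm])
  · intro h x
    have h1 : ¬ ∀ n, (∃ k t, evl t (x 0) (pre (nb (evn y)) k) n = some (nb (odn y) n)) ∧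
        ∀ k t m, evl t (x 0) (pre (nb (evn y)) k) n = some m → m = nb (odn y) n :=
      fun h' => h ⟨_, h'⟩
    rw [not_forall] at h1
    obtain ⟨n, hn⟩ := h1
    rw [not_and_or] at hn
    rcases hn with hn | hn
    · refine ⟨2 * n + 2 + 2 * (x (n + 1)).unpair.1, Nat.pair n 0, (hev _ _ _).2 (Or.inl ?_)⟩
      rw [Nat.unpair_pair]
      refine ⟨by simp only; omega, by simp only; omega, by simp only; omega, fun h2 => hn ⟨_, _, h2⟩⟩
    · push Not at hn
      obtain ⟨k, t, m, hm, hm'⟩ := hn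
      refine ⟨2 * n + 2 + 2 * k, Nat.pair n (Nat.pair k t), (hev _ _ _).2 (Or.inr ?_)⟩
      rw [Nat.unpair_pair]
      simp only [Nat.unpair_pair]
      refine ⟨by omega, by omega, by omega, ?_, ?_⟩
      · rw [hm]; exact Option.some_ne_none m
      · rw [hm]
        intro h3
        exact hm' (Option.some.inj h3)

end Pool.Agent.Helper583.TC.J7
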