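import Pool.Agent.Helper583.TCJ4

namespace Pool.Agent.Helper583.TC.J8

open J4 (cls_of_event)

theorem pre_get {A : Type} (x : ℕ → A) (n k : ℕ) :
    (pre x n)[k]? = if k < n then some (x k) else none := by
  unfold pre
  split_ifs with h
  · rw [List.getElem?_map, List.getElem?_range h]; rfl
  · rw [List.getElem?_eq_none]; simpa using h

theorem comp_pow2 : Computable (fun n : ℕ => 2 ^ n) :=
  ((Primrec₂.unpaired'.1 Nat.Primrec.pow : Primrec₂ ((· ^ ·) : ℕ → ℕ → ℕ)).comp
    (Primrec.const 2) Primrec.id).to_comp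

theorem comp_add {α : Type} [Primcodable α] {f g : α → ℕ} (hf : Computable f) (hg : Computable g) :
    Computable (fun a => f a + g a) := Primrec.nat_add.to_comp.comp hf hg

theorem comp_mul {α : Type} [Primcodable α] {f g : α → ℕ} (hf : Computable f) (hg : Computable g) :
    Computable (fun a => f a * g a) := Primrec.nat_mul.to_comp.comp hf hg

theorem comp_p2 {α : Type} [Primcodable α] {f : α → ℕ} (hf : Computable f) :
    Computable (fun a => 2 ^ f a) := comp_pow2.comp hf

theorem comp_lt {α : Type} [Primcodable α] {f g : α → ℕ} (hf : Computable f) (hg : Computable g) :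
    Computable (fun a => decide (f a < g a)) :=
  (Primrec.nat_lt.decide).to_comp.comp hf hg

theorem comp_and {α : Type} [Primcodable α] {f g : α → Bool} (hf : Computable f)
    (hg : Computable g) : Computable (fun a => f a && g a) := Primrec.and.to_comp.comp hf hg

theorem comp_or {α : Type} [Primcodable α] {f g : α → Bool} (hf : Computable f)
    (hg : Computable g) : Computable (fun a => f a || g a) := Primrec.or.to_comp.comp hf hg

theorem comp_not {α : Type} [Primcodable α] {f : α → Bool} (hf : Computable f) :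
    Computable (fun a => !(f a)) := Primrec.not.to_comp.comp hf

theorem comp_cd {α : Type} [Primcodable α] {i k j l : α → ℕ} (hi : Computable i)
    (hk : Computable k) (hj : Computable j) (hl : Computable l) :
    Computable (fun a => cd (i a) (k a) (j a) (l a)) :=
  Primrec₂.natPair.to_comp.comp (Primrec₂.natPair.to_comp.comp hi hk)
    (Primrec₂.natPair.to_comp.comp hj hl)

def tL (q : ℕ × ℕ × ℕ → ℕ) (i j m s : ℕ) : Bool := decide ((q (i, j, s) + 1) * 2 ^ m < 2 ^ s)
def tS (q : ℕ × ℕ × ℕ → ℕ) (i j l m s : ℕ) : Bool :=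
  decide ((q (i, j, s) + 1) * 2 ^ (l + m) + 2 ^ (s + m) < 2 ^ (s + l))
def tG (q : ℕ × ℕ × ℕ → ℕ) (i j l m s : ℕ) : Bool :=
  decide (2 ^ (l + m) + 2 ^ s * (2 ^ l + 2 ^ m) < 2 ^ (l + m) * q (i, j, s))

section
variable {α : Type} [Primcodable α] {q : ℕ × ℕ × ℕ → ℕ} (hq : Computable q)
  {i j l m s : α → ℕ} (hi : Computable i) (hj : Computable j) (hl : Computable l)
  (hm : Computable m) (hs : Computable s)
include hq hi hj hm hs

theorem comp_tL : Computable (fun a => tL q (i a) (j a) (m a) (s a)) := by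
  unfold tL
  exact comp_lt (comp_mul (comp_add (hq.comp (hi.pair (hj.pair hs))) (Computable.const 1))
    (comp_p2 hm)) (comp_p2 hs)

include hl
theorem comp_tS : Computable (fun a => tS q (i a) (j a) (l a) (m a) (s a)) := by
  unfold tS
  exact comp_lt (comp_add (comp_mul (comp_add (hq.comp (hi.pair (hj.pair hs))) (Computable.const 1))
    (comp_p2 (comp_add hl hm))) (comp_p2 (comp_add hs hm))) (comp_p2 (comp_add hs hl))

theorem comp_tG : Computable (fun a => tG q (i a) (j a) (l a) (m a) (s a)) := by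
  unfold tG
  exact comp_lt (comp_add (comp_p2 (comp_add hl hm)) (comp_mul (comp_p2 hs)
    (comp_add (comp_p2 hl) (comp_p2 hm))))
    (comp_mul (comp_p2 (comp_add hl hm)) (hq.comp (hi.pair (hj.pair hs))))
end

/-- the approximation property -/
def Apx (M : Pres) (q : ℕ × ℕ × ℕ → ℕ) : Prop :=
  ∀ i j k, |dist (M.c i) (M.c j) - (q (i, j, k) : ℝ) / 2 ^ k| ≤ 1 / 2 ^ k

theorem small (e : ℝ) (he : 0 < e) : ∃ s : ℕ, 1 / (2:ℝ) ^ s < e := by
  obtain ⟨n, hn⟩ := exists_pow_lt_of_lt_one he (show (1/2 : ℝ) < 1 by norm_num)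
  exact ⟨n, by rwa [one_div_pow] at hn⟩

theorem tL_iff {M : Pres} {q : ℕ × ℕ × ℕ → ℕ} (h : Apx M q) (i j m : ℕ) :
    dist (M.c i) (M.c j) < 1 / 2 ^ m ↔ ∃ s, tL q i j m s = true := by
  have key : ∀ s, tL q i j m s = true ↔ ((q (i, j, s) : ℝ) + 1) / 2 ^ s < 1 / 2 ^ m := by
    intro s
    unfold tL
    rw [decide_eq_true_iff, div_lt_div_iff₀ (by positivity) (by positivity), one_mul]
    exact_mod_cast Iff.rfl
  constructor
  · intro hd
    obtain ⟨s, hs⟩ := small ((1 / 2 ^ m - dist (M.c i) (M.c j)) / 2) (by linarith)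
    refine ⟨s, (key s).2 ?_⟩
    have h1 := (abs_le.mp (h i j s)).1
    rw [add_div]
    linarith
  · rintro ⟨s, hs⟩
    have h1 := (abs_le.mp (h i j s)).2
    have h2 := (key s).1 hs
    rw [add_div] at h2
    linarith

theorem tS_iff {M : Pres} {q : ℕ × ℕ × ℕ → ℕ} (h : Apx M q) (i j l m : ℕ) :
    dist (M.c i) (M.c j) + 1 / 2 ^ l < 1 / 2 ^ m ↔ ∃ s, tS q i j l m s = true := by
  have key : ∀ s, tS q i j l m s = true ↔
      ((q (i, j, s) : ℝ) + 1) / 2 ^ s + 1 / 2 ^ l < 1 / 2 ^ m := by
    intro s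
    unfold tS
    have e1 : ((q (i, j, s) : ℝ) + 1) / 2 ^ s + 1 / 2 ^ l =
        (((q (i, j, s) : ℝ) + 1) * 2 ^ (l + m) + 2 ^ (s + m)) / (2 ^ (s + l + m)) := by
      rw [pow_add, pow_add, pow_add, pow_add]; field_simp
    have e2 : (1:ℝ) / 2 ^ m = 2 ^ (s + l) / 2 ^ (s + l + m) := by
      rw [pow_add _ (s + l) m]; field_simp
    rw [decide_eq_true_iff, e1, e2, div_lt_div_iff_of_pos_right (by positivity)]
    exact_mod_cast Iff.rfl
  constructor
  · intro hd
    obtain ⟨s, hs⟩ := small ((1 / 2 ^ m - 1 / 2 ^ l - dist (M.c i) (M.c j)) / 2) (by linarith)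
    refine ⟨s, (key s).2 ?_⟩
    have h1 := (abs_le.mp (h i j s)).1
    rw [add_div]
    linarith
  · rintro ⟨s, hs⟩
    have h1 := (abs_le.mp (h i j s)).2
    have h2 := (key s).1 hs
    rw [add_div] at h2
    linarith

theorem tG_iff {M : Pres} {q : ℕ × ℕ × ℕ → ℕ} (h : Apx M q) (i j l m : ℕ) :
    1 / 2 ^ l + 1 / 2 ^ m < dist (M.c i) (M.c j) ↔ ∃ s, tG q i j l m s = true := by
  have key : ∀ s, tG q i j l m s = true ↔
      1 / 2 ^ s + (1 / 2 ^ l + 1 / 2 ^ m) < (q (i, j, s) : ℝ) / 2 ^ s := by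
    intro s
    unfold tG
    have e1 : (1:ℝ) / 2 ^ s + (1 / 2 ^ l + 1 / 2 ^ m) =
        (2 ^ (l + m) + 2 ^ s * (2 ^ l + 2 ^ m)) / (2 ^ (s + l + m)) := by
      rw [pow_add, pow_add, pow_add]; field_simp; ring
    have e2 : (q (i, j, s) : ℝ) / 2 ^ s = 2 ^ (l + m) * q (i, j, s) / 2 ^ (s + l + m) := by
      rw [pow_add, pow_add, pow_add]; field_simp
    rw [decide_eq_true_iff, e1, e2, div_lt_div_iff_of_pos_right (by positivity)]
    exact_mod_cast Iff.rfl
  constructor
  · intro hd
    obtain ⟨s, hs⟩ := small ((dist (M.c i) (M.c j) - (1 / 2 ^ l + 1 / 2 ^ m)) / 2) (by linarith)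
    refine ⟨s, (key s).2 ?_⟩
    have h1 := (abs_le.mp (h i j s)).2
    linarith
  · rintro ⟨s, hs⟩
    have h1 := (abs_le.mp (h i j s)).1
    have h2 := (key s).1 hs
    linarith

theorem cls_univ {α : Type} [Primcodable α] (P1 P2 : α → ℕ) (T : α → Bool) (h1 : Computable P1)
    (h2 : Computable P2) (hT : Computable T) :
    ∃ W : List Bool × List ℕ → Bool, Primrec W ∧
      ∀ y, Cls W y ↔ ∀ a, ¬ (y (P1 a) = true ∧ y (P2 a) = true ∧ T a = true) := by
  let ev : List Bool × List ℕ × ℕ → Bool := fun z =>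
    Option.casesOn (z.2.1[0]?) false (fun e => Option.casesOn (Encodable.decode (α := α) e) true
      (fun a => Option.casesOn (z.1[P1 a]?) false (fun b1 => Option.casesOn (z.1[P2 a]?) false
        (fun b2 => !(b1 && (b2 && T a))))))
  have hev : Computable ev := by
    refine Computable.option_casesOn
      (Computable.list_getElem?.comp (Computable.fst.comp Computable.snd) (Computable.const 0))
      (Computable.const false) ?_
    refine Computable.option_casesOn (Computable.decode.comp Computable.snd)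
      (Computable.const true) ?_
    refine Computable.option_casesOn
      (Computable.list_getElem?.comp (Computable.fst.comp (Computable.fst.comp Computable.fst))
        (h1.comp Computable.snd)) (Computable.const false) ?_
    refine Computable.option_casesOn
      (Computable.list_getElem?.comp
        (Computable.fst.comp (Computable.fst.comp (Computable.fst.comp Computable.fst)))
        (h2.comp (Computable.snd.comp Computable.fst))) (Computable.const false) ?_
    exact comp_not (comp_and (Computable.snd.comp Computable.fst) (comp_and Computable.snd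
      (hT.comp (Computable.snd.comp (Computable.fst.comp Computable.fst)))))
  obtain ⟨W, hW, hWy⟩ := cls_of_event ev hev
  refine ⟨W, hW, fun y => ?_⟩
  rw [hWy]
  constructor
  · intro H a ⟨ha, hb, hc⟩
    obtain ⟨n, w, hn⟩ := H (fun _ => Encodable.encode a)
    simp only [ev, pre_get] at hn
    by_cases h0 : 0 < n
    · simp only [h0, if_true, Encodable.encodek] at hn
      by_cases hp1 : P1 a < n
      · simp only [hp1, if_true] at hn
        by_cases hp2 : P2 a < n
        · simp [hp2, ha, hb, hc] at hn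
        · simp [hp2] at hn
      · simp [hp1] at hn
    · simp [h0] at hn
  · intro H x
    rcases hx : Encodable.decode (α := α) (x 0) with _ | a
    · refine ⟨1, 0, ?_⟩
      simp [ev, pre_get, hx]
    · refine ⟨P1 a + P2 a + 1, 0, ?_⟩
      have h0 : 0 < P1 a + P2 a + 1 := by omega
      have hp1 : P1 a < P1 a + P2 a + 1 := by omega
      have hp2 : P2 a < P1 a + P2 a + 1 := by omega
      simp only [ev, pre_get, h0, hp1, hp2, if_true, hx]
      have h3 := H a
      cases hA : y (P1 a) <;> cases hB : y (P2 a) <;> cases hC : T a <;> simp [hA, hB, hC] at h3 ⊢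

abbrev Q4 := ℕ × ℕ × ℕ × ℕ

def cd4 (a : Q4) : ℕ := cd a.1 a.2.1 a.2.2.1 a.2.2.2

theorem comp_cd4 : Computable cd4 :=
  comp_cd Computable.fst (Computable.fst.comp Computable.snd)
    (Computable.fst.comp (Computable.snd.comp Computable.snd))
    (Computable.snd.comp (Computable.snd.comp Computable.snd))

section
variable {α : Type} [Primcodable α] {f : α → Q4} (hf : Computable f)
include hf
theorem c1 : Computable (fun a => (f a).1) := Computable.fst.comp hf
theorem c2 : Computable (fun a => (f a).2.1) := Computable.fst.comp (Computable.snd.comp hf)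
theorem c3 : Computable (fun a => (f a).2.2.1) :=
  Computable.fst.comp (Computable.snd.comp (Computable.snd.comp hf))
theorem c4 : Computable (fun a => (f a).2.2.2) :=
  Computable.snd.comp (Computable.snd.comp (Computable.snd.comp hf))
end

/-- TARGET 2 -/
theorem cls_con (M N : Pres) : ∃ W : List Bool × List ℕ → Bool, Primrec W ∧
    ∀ y, Cls W y ↔ Con M N y := by
  obtain ⟨q, hq, hqa⟩ := M.comp
  obtain ⟨r, hr, hra⟩ := N.comp
  have hA : Apx M q := hqa
  have hB : Apx N r := hra
  have f1 : Computable (fun a : Q4 × Q4 × Q4 => a.1) := Computable.fst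
  have f2 : Computable (fun a : Q4 × Q4 × Q4 => a.2.1) := Computable.fst.comp Computable.snd
  have f3 : Computable (fun a : Q4 × Q4 × Q4 => a.2.2) := Computable.snd.comp Computable.snd
  obtain ⟨W, hW, hWy⟩ := cls_univ (α := Q4 × Q4 × Q4) (fun a => cd4 a.1) (fun a => cd4 a.2.1)
    (fun a => tL q a.2.2.1 a.1.1 a.1.2.1 a.2.2.2.1 &&
      (tL q a.2.2.1 a.2.1.1 a.2.1.2.1 a.2.2.2.2.1 &&
        tG r a.1.2.2.1 a.2.1.2.2.1 a.1.2.2.2 a.2.1.2.2.2 a.2.2.2.2.2))
    (comp_cd4.comp f1) (comp_cd4.comp f2)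
    (comp_and (comp_tL hq (c1 f3) (c1 f1) (c2 f1) (c2 f3))
      (comp_and (comp_tL hq (c1 f3) (c1 f2) (c2 f2) (c3 f3))
        (comp_tG hr (c3 f1) (c3 f2) (c4 f1) (c4 f2) (c4 f3))))
  refine ⟨W, hW, fun y => ?_⟩
  rw [hWy]
  constructor
  · intro H i k j l i' k' j' l' m h1 h2 h3 h4
    by_contra h5
    push Not at h5
    obtain ⟨s1, hs1⟩ := (tL_iff hA _ _ _).1 h3
    obtain ⟨s2, hs2⟩ := (tL_iff hA _ _ _).1 h4
    obtain ⟨s3, hs3⟩ := (tG_iff hB _ _ _ _).1 h5
    refine H ((i, k, j, l), (i', k', j', l'), (m, s1, s2, s3)) ⟨h1, h2, ?_⟩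
    simp [hs1, hs2, hs3]
  · rintro H ⟨⟨i, k, j, l⟩, ⟨i', k', j', l'⟩, ⟨m, s1, s2, s3⟩⟩ ⟨h1, h2, h3⟩
    simp only [Bool.and_eq_true] at h3
    have := H i k j l i' k' j' l' m h1 h2 ((tL_iff hA _ _ _).2 ⟨_, h3.1⟩)
      ((tL_iff hA _ _ _).2 ⟨_, h3.2.1⟩)
    have h4 := (tG_iff hB _ _ _ _).2 ⟨_, h3.2.2⟩
    linarith

theorem cls_inv_gen (M N : Pres) (e1 e2 : ℕ → ℕ) (he1 : Computable e1) (he2 : Computable e2) :
    ∃ W : List Bool × List ℕ → Bool, Primrec W ∧
    ∀ y, Cls W y ↔ Inv M N (fun n => y (e1 n)) (fun n => y (e2 n)) := by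
  obtain ⟨q, hq, hqa⟩ := M.comp
  obtain ⟨r, hr, hra⟩ := N.comp
  have hA : Apx M q := hqa
  have hB : Apx N r := hra
  have f1 : Computable (fun a : Q4 × Q4 × Q4 => a.1) := Computable.fst
  have f2 : Computable (fun a : Q4 × Q4 × Q4 => a.2.1) := Computable.fst.comp Computable.snd
  have f3 : Computable (fun a : Q4 × Q4 × Q4 => a.2.2) := Computable.snd.comp Computable.snd
  obtain ⟨W, hW, hWy⟩ := cls_univ (α := Q4 × Q4 × Q4) (fun a => e1 (cd4 a.1))
    (fun a => e2 (cd4 a.2.1))
    (fun a => tS r a.1.2.2.1 a.2.1.1 a.1.2.2.2 a.2.1.2.1 a.2.2.2.1 &&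
      (tL q a.2.2.1 a.1.1 a.1.2.1 a.2.2.2.2.1 &&
        tG q a.2.2.1 a.2.1.2.2.1 (a.2.1.2.2.2 + 1) (a.2.1.2.2.2 + 1) a.2.2.2.2.2))
    (he1.comp (comp_cd4.comp f1)) (he2.comp (comp_cd4.comp f2))
    (comp_and (comp_tS hr (c3 f1) (c1 f2) (c4 f1) (c2 f2) (c2 f3))
      (comp_and (comp_tL hq (c1 f3) (c1 f1) (c2 f1) (c3 f3))
        (comp_tG hq (c1 f3) (c3 f2) (comp_add (c4 f2) (Computable.const 1))
          (comp_add (c4 f2) (Computable.const 1)) (c4 f3))))
  refine ⟨W, hW, fun y => ?_⟩
  rw [hWy]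
  have hh : ∀ k : ℕ, (1:ℝ) / 2 ^ (k + 1) + 1 / 2 ^ (k + 1) = 1 / 2 ^ k := by
    intro k; rw [pow_succ]; field_simp; norm_num
  constructor
  · intro H i k j l j' l' i' k' m h1 h2 h3 h4
    by_contra h5
    push Not at h5
    rw [← hh] at h5
    obtain ⟨s1, hs1⟩ := (tS_iff hB _ _ _ _).1 h3
    obtain ⟨s2, hs2⟩ := (tL_iff hA _ _ _).1 h4
    obtain ⟨s3, hs3⟩ := (tG_iff hA _ _ _ _).1 h5
    refine H ((i, k, j, l), (j', l', i', k'), (m, s1, s2, s3)) ⟨h1, h2, ?_⟩
    simp [hs1, hs2, hs3]
  · rintro H ⟨⟨i, k, j, l⟩, ⟨j', l', i', k'⟩, ⟨m, s1, s2, s3⟩⟩ ⟨h1, h2, h3⟩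
    simp only [Bool.and_eq_true] at h3
    have := H i k j l j' l' i' k' m h1 h2 ((tS_iff hB _ _ _ _).2 ⟨_, h3.1⟩)
      ((tL_iff hA _ _ _).2 ⟨_, h3.2.1⟩)
    have h4 := (tG_iff hA _ _ _ _).2 ⟨_, h3.2.2⟩
    rw [hh] at h4
    linarith

theorem comp_ev : Computable (fun n : ℕ => 2 * n) :=
  comp_mul (Computable.const 2) Computable.id

theorem comp_od : Computable (fun n : ℕ => 2 * n + 1) :=
  comp_add comp_ev (Computable.const 1)

/-- TARGET 3 -/
theorem cls_inv (M N : Pres) : ∃ W : List Bool × List ℕ → Bool, Primrec W ∧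
    ∀ y, Cls W y ↔ Inv M N (evn y) (odn y) :=
  cls_inv_gen M N _ _ comp_ev comp_od

/-- TARGET 4 -/
theorem cls_inv' (M N : Pres) : ∃ W : List Bool × List ℕ → Bool, Primrec W ∧
    ∀ y, Cls W y ↔ Inv M N (odn y) (evn y) :=
  cls_inv_gen M N _ _ comp_od comp_ev

theorem comp_le {α : Type} [Primcodable α] {f g : α → ℕ} (hf : Computable f) (hg : Computable g) :
    Computable (fun a => decide (f a ≤ g a)) :=
  (Primrec.nat_le.decide).to_comp.comp hf hg

/-- TARGET 1 -/
theorem cls_cov (M : Pres) : ∃ W : List Bool × List ℕ → Bool, Primrec W ∧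
    ∀ y, Cls W y ↔ Cov M y := by
  obtain ⟨q, hq, hqa⟩ := M.comp
  have hA : Apx M q := hqa
  -- w = (i, k, j, m), m2, s
  obtain ⟨D, hD, hDe⟩ : ∃ D : ℕ → Option (Q4 × ℕ × ℕ), Computable D ∧
      ∀ a, D (Encodable.encode a) = some a :=
    ⟨Encodable.decode, Computable.decode, fun a => Encodable.encodek a⟩
  let ev : List Bool × List ℕ × ℕ → Bool := fun z =>
    Option.casesOn (D z.2.2) false
      (fun a => Option.casesOn (z.2.1[0]?) false
        (fun l => Option.casesOn (z.2.1[a.1.2.2.2 + 1]?) false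
          (fun pa => Option.casesOn (z.2.1[a.2.1 + 1]?) false
            (fun pb => Option.casesOn (z.1[cd a.1.1 a.1.2.1 a.1.2.2.1 l]?) false
              (fun f => (decide (a.1.2.2.2 ≤ a.2.1) &&
                  tG q pa pb (a.1.2.2.2 + 1) (a.1.2.2.2 + 1) a.2.2) ||
                (f && tS q pa a.1.1 a.1.2.2.2 a.1.2.1 a.2.2))))))
  have hev : Computable ev := by
    refine Computable.option_casesOn (hD.comp (Computable.snd.comp Computable.snd))
      (Computable.const false) ?_
    -- context 1: (z, a)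
    have z1 : Computable (fun x : (List Bool × List ℕ × ℕ) × (Q4 × ℕ × ℕ) => x.1) := Computable.fst
    have a1 : Computable (fun x : (List Bool × List ℕ × ℕ) × (Q4 × ℕ × ℕ) => x.2) := Computable.snd
    refine Computable.option_casesOn
      (Computable.list_getElem?.comp (Computable.fst.comp (Computable.snd.comp z1))
        (Computable.const 0)) (Computable.const false) ?_
    have z2 := z1.comp (Computable.fst :
      Computable (Prod.fst : ((List Bool × List ℕ × ℕ) × (Q4 × ℕ × ℕ)) × ℕ → _))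
    have a2 := a1.comp (Computable.fst :
      Computable (Prod.fst : ((List Bool × List ℕ × ℕ) × (Q4 × ℕ × ℕ)) × ℕ → _))
    refine Computable.option_casesOn
      (Computable.list_getElem?.comp (Computable.fst.comp (Computable.snd.comp z2))
        (comp_add (c4 (Computable.fst.comp a2)) (Computable.const 1))) (Computable.const false) ?_
    have z3 := z2.comp (Computable.fst :
      Computable (Prod.fst : (((List Bool × List ℕ × ℕ) × (Q4 × ℕ × ℕ)) × ℕ) × ℕ → _))
    have a3 := a2.comp (Computable.fst :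
      Computable (Prod.fst : (((List Bool × List ℕ × ℕ) × (Q4 × ℕ × ℕ)) × ℕ) × ℕ → _))
    refine Computable.option_casesOn
      (Computable.list_getElem?.comp (Computable.fst.comp (Computable.snd.comp z3))
        (comp_add (Computable.fst.comp (Computable.snd.comp a3)) (Computable.const 1)))
        (Computable.const false) ?_
    have z4 := z3.comp (Computable.fst :
      Computable (Prod.fst : ((((List Bool × List ℕ × ℕ) × (Q4 × ℕ × ℕ)) × ℕ) × ℕ) × ℕ → _))
    have a4 := a3.comp (Computable.fst :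
      Computable (Prod.fst : ((((List Bool × List ℕ × ℕ) × (Q4 × ℕ × ℕ)) × ℕ) × ℕ) × ℕ → _))
    refine Computable.option_casesOn
      (Computable.list_getElem?.comp (Computable.fst.comp z4)
        (comp_cd (c1 (Computable.fst.comp a4)) (c2 (Computable.fst.comp a4))
          (c3 (Computable.fst.comp a4))
          (Computable.snd.comp (Computable.fst.comp Computable.fst)))) (Computable.const false) ?_
    have a5 := a4.comp (Computable.fst : Computable (Prod.fst :
      (((((List Bool × List ℕ × ℕ) × (Q4 × ℕ × ℕ)) × ℕ) × ℕ) × ℕ) × Bool → _))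
    have m5 := c4 (Computable.fst.comp a5)
    have s5 := Computable.snd.comp (Computable.snd.comp a5)
    have pa5 : Computable (fun x :
      (((((List Bool × List ℕ × ℕ) × (Q4 × ℕ × ℕ)) × ℕ) × ℕ) × ℕ) × Bool => x.1.1.2) :=
      Computable.snd.comp (Computable.fst.comp Computable.fst)
    have pb5 : Computable (fun x :
      (((((List Bool × List ℕ × ℕ) × (Q4 × ℕ × ℕ)) × ℕ) × ℕ) × ℕ) × Bool => x.1.2) :=
      Computable.snd.comp Computable.fst
    exact comp_or (comp_and (comp_le m5 (Computable.fst.comp (Computable.snd.comp a5)))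
      (comp_tG hq pa5 pb5 (comp_add m5 (Computable.const 1)) (comp_add m5 (Computable.const 1)) s5))
      (comp_and Computable.snd (comp_tS hq pa5 (c1 (Computable.fst.comp a5)) m5
        (c2 (Computable.fst.comp a5)) s5))
  obtain ⟨W, hW, hWy⟩ := cls_of_event ev hev
  refine ⟨W, hW, fun y => ?_⟩
  rw [hWy]
  have hh : ∀ k : ℕ, (1:ℝ) / 2 ^ (k + 1) + 1 / 2 ^ (k + 1) = 1 / 2 ^ k := by
    intro k; rw [pow_succ]; field_simp; norm_num
  -- the event, unfolded
  have hE : ∀ x : ℕ → ℕ, (∃ n w, ev (pre y n, pre x n, w) = true) ↔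
      ((∃ m m2, m ≤ m2 ∧ 1 / 2 ^ m < dist (M.c (x (m + 1))) (M.c (x (m2 + 1)))) ∨
        ∃ i k j m, y (cd i k j (x 0)) = true ∧
          dist (M.c (x (m + 1))) (M.c i) + 1 / 2 ^ m < 1 / 2 ^ k) := by
    intro x
    constructor
    · rintro ⟨n, w, hn⟩
      rcases hw : D w with _ | ⟨⟨i, k, j, m⟩, m2, s⟩
      · simp [ev, hw] at hn
      · simp only [ev, hw, pre_get] at hn
        by_cases h0 : 0 < n
        · simp only [h0, if_true] at hn
          by_cases h1 : m + 1 < n
          · simp only [h1, if_true] at hn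
            by_cases h2 : m2 + 1 < n
            · simp only [h2, if_true] at hn
              by_cases h3 : cd i k j (x 0) < n
              · simp only [h3, if_true, Bool.or_eq_true, Bool.and_eq_true,
                  decide_eq_true_eq] at hn
                rcases hn with ⟨h4, h5⟩ | ⟨h4, h5⟩
                · left
                  refine ⟨m, m2, h4, ?_⟩
                  rw [← hh]
                  exact (tG_iff hA _ _ _ _).2 ⟨s, h5⟩
                · right
                  exact ⟨i, k, j, m, h4, (tS_iff hA _ _ _ _).2 ⟨s, h5⟩⟩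
              · simp [h3] at hn
            · simp [h2] at hn
          · simp [h1] at hn
        · simp [h0] at hn
    · have aux : ∀ i k j m m2 s,
          ((decide (m ≤ m2) && tG q (x (m + 1)) (x (m2 + 1)) (m + 1) (m + 1) s) ||
                (y (cd i k j (x 0)) && tS q (x (m + 1)) i m k s)) = true →
          ∃ n w, ev (pre y n, pre x n, w) = true := by
        intro i k j m m2 s hs
        refine ⟨m + m2 + cd i k j (x 0) + 2, Encodable.encode (((i, k, j, m), m2, s) : Q4 × ℕ × ℕ), ?_⟩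
        have h0 : 0 < m + m2 + cd i k j (x 0) + 2 := by omega
        have h1 : m + 1 < m + m2 + cd i k j (x 0) + 2 := by omega
        have h2 : m2 + 1 < m + m2 + cd i k j (x 0) + 2 := by omega
        have h3 : cd i k j (x 0) < m + m2 + cd i k j (x 0) + 2 := by omega
        simp only [ev, hDe, pre_get, h0, h1, h2, h3, if_true]
        exact hs
      rintro (⟨m, m2, h1, h2⟩ | ⟨i, k, j, m, h1, h2⟩)
      · rw [← hh] at h2
        obtain ⟨s, hs⟩ := (tG_iff hA _ _ _ _).1 h2
        exact aux 0 0 0 m m2 s (by simp [h1, hs])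
      · obtain ⟨s, hs⟩ := (tS_iff hA _ _ _ _).1 h2
        exact aux i k j m 0 s (by simp [h1, hs])
  simp_rw [hE]
  constructor
  · intro H x l
    have hch : ∀ m : ℕ, ∃ p, dist (M.c p) x < 1 / 2 ^ (m + 2) := by
      intro m
      obtain ⟨p, hp⟩ := M.dense.exists_dist_lt x (show (0:ℝ) < 1 / 2 ^ (m + 2) by positivity)
      exact ⟨p, by rwa [dist_comm]⟩
    choose p hp using hch
    rcases H (fun n => Nat.casesOn n l p) with ⟨m, m2, h1, h2⟩ | ⟨i, k, j, m, h1, h2⟩
    · exfalso
      have h3 : dist (M.c (p m)) (M.c (p m2)) ≤ dist (M.c (p m)) x + dist (M.c (p m2)) x :=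
        dist_triangle_right _ _ _
      have h4 := hp m
      have h5 := hp m2
      have h6 : (1:ℝ) / 2 ^ (m2 + 2) ≤ 1 / 2 ^ (m + 2) :=
        one_div_le_one_div_of_le (by positivity) (pow_le_pow_right₀ (by norm_num) (by omega))
      have h7 := hh m
      have h8 := hh (m + 1)
      have h9 : (0:ℝ) < 1 / 2 ^ (m + 1) := by positivity
      simp only at h2
      have e : m + 1 + 1 = m + 2 := rfl
      rw [e] at h8
      linarith
    · refine ⟨i, k, j, h1, ?_⟩
      simp only at h2
      have h3 : dist (M.c i) x ≤ dist (M.c (p m)) (M.c i) + dist (M.c (p m)) x :=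
        dist_triangle_left _ _ _
      have h4 := hp m
      have h8 := hh (m + 1)
      have h7 := hh m
      have e : m + 1 + 1 = m + 2 := rfl
      rw [e] at h8
      have h9 : (0:ℝ) < 1 / 2 ^ (m + 2) := by positivity
      linarith
  · intro H x
    by_contra hcon
    push Not at hcon
    obtain ⟨hc1, hc2⟩ := hcon
    -- the Cauchy sequence
    have hcau : CauchySeq (fun m => M.c (x (m + 1))) := by
      apply cauchySeq_of_le_tendsto_0 (fun n => 2 * ((1:ℝ) / 2) ^ n)
      · intro n m N h1 h2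
        have h3 := hc1 N n h1
        have h4 := hc1 N m h2
        have h5 : dist (M.c (x (n + 1))) (M.c (x (m + 1))) ≤
          dist (M.c (x (N + 1))) (M.c (x (n + 1))) + dist (M.c (x (N + 1))) (M.c (x (m + 1))) :=
          dist_triangle_left _ _ _
        rw [one_div_pow]
        linarith
      · have := (tendsto_pow_atTop_nhds_zero_of_lt_one (show (0:ℝ) ≤ 1/2 by norm_num)
          (by norm_num)).const_mul 2
        simpa using this
    obtain ⟨z, hz⟩ := cauchySeq_tendsto_of_complete hcau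
    have hd : ∀ m, dist (M.c (x (m + 1))) z ≤ 1 / 2 ^ m := by
      intro m
      have h1 : Filter.Tendsto (fun n => dist (M.c (x (m + 1))) (M.c (x (n + 1)))) Filter.atTop
          (nhds (dist (M.c (x (m + 1))) z)) := tendsto_const_nhds.dist hz
      apply le_of_tendsto h1
      filter_upwards [Filter.eventually_ge_atTop m] with n hn
      exact hc1 m n hn
    obtain ⟨i, k, j, h1, h2⟩ := H z (x 0)
    obtain ⟨m, hm⟩ := small ((1 / 2 ^ k - dist (M.c i) z) / 2) (by linarith)
    have h3 := hc2 i k j m h1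
    have h4 : dist (M.c (x (m + 1))) (M.c i) ≤ dist (M.c (x (m + 1))) z + dist (M.c i) z :=
      dist_triangle_right _ _ _
    have h5 := hd m
    linarith

end Pool.Agent.Helper583.TC.J8
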