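import Pool.Agent.Helper583.TCJ2

namespace Pool.Agent.Helper583.TC.J9

open J2 (rec_pre)

/-- the code of a map -/
noncomputable def cdF (M N : Pres) (h : M.Y → N.Y) : ℕ → Bool := fun n =>
  open Classical in decide (∀ y, dist (M.c n.unpair.1.unpair.1) y < 1 / 2 ^ n.unpair.1.unpair.2 →
    dist (N.c n.unpair.2.unpair.1) (h y) ≤ 1 / 2 ^ n.unpair.2.unpair.2)

theorem cdF_iff (M N : Pres) (h : M.Y → N.Y) (i k j l : ℕ) :
    cdF M N h (cd i k j l) = true ↔
      ∀ y, dist (M.c i) y < 1 / 2 ^ k → dist (N.c j) (h y) ≤ 1 / 2 ^ l := by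
  have h1 : cdF M N h (cd i k j l) = true ↔
      (∀ y, dist (M.c (cd i k j l).unpair.1.unpair.1) y < 1 / 2 ^ (cd i k j l).unpair.1.unpair.2 →
      dist (N.c (cd i k j l).unpair.2.unpair.1) (h y) ≤ 1 / 2 ^ (cd i k j l).unpair.2.unpair.2) := by
    unfold cdF
    exact @decide_eq_true_iff _ (Classical.propDecidable _)
  rw [h1]
  simp only [cd, Nat.unpair_pair]

theorem exists_pow_lt (ε : ℝ) (hε : 0 < ε) : ∃ n : ℕ, 1 / (2 : ℝ) ^ n < ε := by
  obtain ⟨n, hn⟩ := exists_pow_lt_of_lt_one hε (by norm_num : (1 / 2 : ℝ) < 1)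
  exact ⟨n, by rwa [one_div_pow] at hn⟩

theorem cov_cdF (M N : Pres) (h : M.Y → N.Y) (hc : Continuous h) : Cov M (cdF M N h) := by
  intro x l
  have h1 := Metric.continuous_iff.mp hc x (1 / 2 ^ (l + 1)) (by positivity)
  obtain ⟨δ, hδ, h2⟩ := h1
  obtain ⟨k, hk⟩ := exists_pow_lt (δ / 2) (by positivity)
  obtain ⟨i, hi⟩ := M.dense.exists_dist_lt x (by positivity : (0 : ℝ) < 1 / 2 ^ k)
  obtain ⟨j, hj⟩ := N.dense.exists_dist_lt (h x) (by positivity : (0 : ℝ) < 1 / 2 ^ (l + 1))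
  rw [dist_comm] at hi hj
  refine ⟨i, k, j, (cdF_iff M N h i k j l).mpr ?_, hi⟩
  intro y hy
  have h3 : dist y x < δ := by
    calc dist y x ≤ dist y (M.c i) + dist (M.c i) x := dist_triangle _ _ _
      _ < 1 / 2 ^ k + 1 / 2 ^ k := by rw [dist_comm y]; exact add_lt_add hy hi
      _ ≤ δ := by linarith
  have h4 := h2 y h3
  rw [dist_comm] at h4
  have h5 : (1 : ℝ) / 2 ^ (l + 1) + 1 / 2 ^ (l + 1) = 1 / 2 ^ l := by
    rw [pow_succ]; field_simp; norm_num
  calc dist (N.c j) (h y) ≤ dist (N.c j) (h x) + dist (h x) (h y) := dist_triangle _ _ _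
    _ ≤ 1 / 2 ^ (l + 1) + 1 / 2 ^ (l + 1) := (add_lt_add hj h4).le
    _ = _ := h5

theorem con_cdF (M N : Pres) (h : M.Y → N.Y) : Con M N (cdF M N h) := by
  intro i k j l i' k' j' l' m h1 h2 h3 h4
  rw [cdF_iff] at h1 h2
  have h5 := h1 (M.c m) (by rw [dist_comm]; exact h3)
  have h6 := h2 (M.c m) (by rw [dist_comm]; exact h4)
  rw [dist_comm] at h6
  calc dist (N.c j) (N.c j') ≤ dist (N.c j) (h (M.c m)) + dist (h (M.c m)) (N.c j') :=
        dist_triangle _ _ _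
    _ ≤ _ := add_le_add h5 h6

theorem inv_cdF (M N : Pres) (h : M.Y → N.Y) (g : N.Y → M.Y) (hg : ∀ x, g (h x) = x) :
    Inv M N (cdF M N h) (cdF N M g) := by
  intro i k j l j' l' i' k' m h1 h2 h3 h4
  rw [cdF_iff] at h1 h2
  have h5 := h1 (M.c m) (by rw [dist_comm]; exact h4)
  have h6 := h2 (h (M.c m)) (by
    calc dist (N.c j') (h (M.c m)) ≤ dist (N.c j') (N.c j) + dist (N.c j) (h (M.c m)) :=
          dist_triangle _ _ _
      _ ≤ dist (N.c j) (N.c j') + 1 / 2 ^ l := by rw [dist_comm (N.c j')]; linarith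
      _ < _ := h3)
  rw [hg, dist_comm] at h6
  exact h6

/-- TARGET 1 -/
theorem good_exists (M N : Pres) : ∃ F G : ℕ → Bool, Good M N F G := by
  obtain ⟨e1⟩ := M.homeo
  obtain ⟨e2⟩ := N.homeo
  obtain ⟨h, hh⟩ : ∃ h : M.Y ≃ₜ N.Y, h = e1.trans e2.symm := ⟨_, rfl⟩
  exact ⟨cdF M N h, cdF N M h.symm, cov_cdF M N h h.continuous, con_cdF M N h,
    cov_cdF N M h.symm h.symm.continuous, con_cdF N M h.symm,
    inv_cdF M N h h.symm h.symm_apply_apply, inv_cdF N M h.symm h h.apply_symm_apply⟩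

/-- `F` describes `h` -/
def Desc (M N : Pres) (F : ℕ → Bool) (h : M.Y → N.Y) : Prop :=
  ∀ x i k j l, F (cd i k j l) = true → dist (M.c i) x < 1 / 2 ^ k → dist (h x) (N.c j) ≤ 1 / 2 ^ l

theorem common_pt (M : Pres) (x : M.Y) (i k i' k' : ℕ) (h1 : dist (M.c i) x < 1 / 2 ^ k)
    (h2 : dist (M.c i') x < 1 / 2 ^ k') (ε : ℝ) (hε : 0 < ε) :
    ∃ m, dist (M.c m) (M.c i) < 1 / 2 ^ k ∧ dist (M.c m) (M.c i') < 1 / 2 ^ k' ∧
      dist x (M.c m) < ε := by
  obtain ⟨m, hm⟩ := M.dense.exists_dist_lt x (ε := min ε (min (1 / 2 ^ k - dist (M.c i) x)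
    (1 / 2 ^ k' - dist (M.c i') x)))
    (lt_min hε (lt_min (by linarith) (by linarith)))
  have h3 := lt_of_lt_of_le hm (min_le_left _ _)
  have h4 := lt_of_lt_of_le hm ((min_le_right _ _).trans (min_le_left _ _))
  have h5 := lt_of_lt_of_le hm ((min_le_right _ _).trans (min_le_right _ _))
  refine ⟨m, ?_, ?_, h3⟩
  · have := dist_triangle_left (M.c m) (M.c i) x
    rw [dist_comm x (M.c i)] at this
    linarith
  · have := dist_triangle_left (M.c m) (M.c i') x
    rw [dist_comm x (M.c i')] at this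
    linarith

theorem exists_desc (M N : Pres) (F : ℕ → Bool) (hcov : Cov M F) (hcon : Con M N F) :
    ∃ h : M.Y → N.Y, Desc M N F h := by
  have key : ∀ x : M.Y, ∃ y : N.Y, ∀ i k j l, F (cd i k j l) = true →
      dist (M.c i) x < 1 / 2 ^ k → dist y (N.c j) ≤ 1 / 2 ^ l := by
    intro x
    choose i k j hF hd using hcov x
    have hcon2 : ∀ i' k' j' l' l, F (cd i' k' j' l') = true → dist (M.c i') x < 1 / 2 ^ k' →
        dist (N.c j') (N.c (j l)) ≤ 1 / 2 ^ l' + 1 / 2 ^ l := by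
      intro i' k' j' l' l h1 h2
      obtain ⟨m, hm1, hm2, _⟩ := common_pt M x i' k' (i l) (k l) h2 (hd l) 1 one_pos
      exact hcon i' k' j' l' (i l) (k l) (j l) l m h1 (hF l) hm1 hm2
    have htend : Filter.Tendsto (fun l : ℕ => (1 : ℝ) / 2 ^ l) Filter.atTop (nhds 0) := by
      have := tendsto_pow_atTop_nhds_zero_of_lt_one (by norm_num : (0 : ℝ) ≤ 1 / 2)
        (by norm_num : (1 / 2 : ℝ) < 1)
      simpa [one_div_pow] using this
    have hcau : CauchySeq (fun l => N.c (j l)) := by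
      apply cauchySeq_of_le_tendsto_0 (fun l : ℕ => (1 : ℝ) / 2 ^ l + 1 / 2 ^ l)
      · intro n m N' hn hm
        refine (hcon2 (i n) (k n) (j n) n m (hF n) (hd n)).trans ?_
        have e1 : (1 : ℝ) / 2 ^ n ≤ 1 / 2 ^ N' :=
          one_div_le_one_div_of_le (by positivity) (pow_le_pow_right₀ (by norm_num) hn)
        have e2 : (1 : ℝ) / 2 ^ m ≤ 1 / 2 ^ N' :=
          one_div_le_one_div_of_le (by positivity) (pow_le_pow_right₀ (by norm_num) hm)
        linarith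
      · simpa using htend.add htend
    obtain ⟨y, hy⟩ := cauchySeq_tendsto_of_complete hcau
    refine ⟨y, fun i' k' j' l' h1 h2 => ?_⟩
    have h3 : Filter.Tendsto (fun l => dist (N.c j') (N.c (j l))) Filter.atTop
        (nhds (dist (N.c j') y)) := tendsto_const_nhds.dist hy
    have h4 : Filter.Tendsto (fun l : ℕ => (1 : ℝ) / 2 ^ l' + 1 / 2 ^ l) Filter.atTop
        (nhds (1 / 2 ^ l' + 0)) := tendsto_const_nhds.add htend
    rw [add_zero] at h4
    have h5 := le_of_tendsto_of_tendsto' h3 h4 (fun l => hcon2 i' k' j' l' l h1 h2)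
    rwa [dist_comm] at h5
  choose h hh using key
  exact ⟨h, hh⟩

theorem desc_cont (M N : Pres) (F : ℕ → Bool) (hcov : Cov M F) (h : M.Y → N.Y)
    (hD : Desc M N F h) : Continuous h := by
  rw [Metric.continuous_iff]
  intro x ε hε
  obtain ⟨l, hl⟩ := exists_pow_lt (ε / 2) (by positivity)
  obtain ⟨i, k, j, hF, hd⟩ := hcov x l
  refine ⟨1 / 2 ^ k - dist (M.c i) x, by linarith, fun x' hx' => ?_⟩
  have h1 := hD x i k j l hF hd
  have h2 := hD x' i k j l hF (by
    have := dist_triangle (M.c i) x x'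
    rw [dist_comm x' x] at hx'
    linarith)
  calc dist (h x') (h x) ≤ dist (h x') (N.c j) + dist (h x) (N.c j) := dist_triangle_right _ _ _
    _ < ε := by linarith

theorem desc_inv (M N : Pres) (F G : ℕ → Bool) (hF : Cov M F) (hG : Cov N G)
    (hI : Inv M N F G) (h : M.Y → N.Y) (g : N.Y → M.Y) (hD : Desc M N F h) (hE : Desc N M G g)
    (x : M.Y) : g (h x) = x := by
  have key : ∀ k2 : ℕ, dist (g (h x)) x ≤ 1 / 2 ^ k2 + 1 / 2 ^ k2 := by
    intro k2
    obtain ⟨j2, l2, i2, hG2, hd2⟩ := hG (h x) k2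
    have h1 := hE (h x) j2 l2 i2 k2 hG2 hd2
    obtain ⟨l, hl⟩ := exists_pow_lt ((1 / 2 ^ l2 - dist (N.c j2) (h x)) / 2) (by linarith)
    obtain ⟨i, k, j, hF1, hd1⟩ := hF x l
    have h2 := hD x i k j l hF1 hd1
    have h3 : dist (N.c j) (N.c j2) + 1 / 2 ^ l < 1 / 2 ^ l2 := by
      have := dist_triangle_right (N.c j) (N.c j2) (h x)
      rw [dist_comm (N.c j) (h x)] at this
      linarith
    have h4 : ∀ ε : ℝ, 0 < ε → dist x (M.c i2) ≤ ε + 1 / 2 ^ k2 := by
      intro ε hε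
      obtain ⟨m, hm1, _, hm3⟩ := common_pt M x i k i k hd1 hd1 ε hε
      have h5 := hI i k j l j2 l2 i2 k2 m hF1 hG2 h3 hm1
      calc dist x (M.c i2) ≤ dist x (M.c m) + dist (M.c m) (M.c i2) := dist_triangle _ _ _
        _ ≤ _ := by linarith
    have h6 : dist x (M.c i2) ≤ 1 / 2 ^ k2 := by
      apply le_of_forall_pos_le_add
      intro ε hε
      have := h4 ε hε
      linarith
    calc dist (g (h x)) x ≤ dist (g (h x)) (M.c i2) + dist x (M.c i2) := dist_triangle_right _ _ _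
      _ ≤ _ := by linarith
  rw [← dist_le_zero]
  apply le_of_forall_pos_le_add
  intro ε hε
  obtain ⟨k2, hk2⟩ := exists_pow_lt (ε / 2) (by positivity)
  have := key k2
  linarith

/-! computability -/

theorem c_lt {α : Type} [Primcodable α] {f g : α → ℕ} (hf : Computable f) (hg : Computable g) :
    Computable (fun a => decide (f a < g a)) :=
  (Primrec.nat_lt.decide.to_comp).comp hf hg

theorem c_eq {α : Type} [Primcodable α] {f g : α → ℕ} (hf : Computable f) (hg : Computable g) :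
    Computable (fun a => decide (f a = g a)) :=
  ((Primrec.eq (α := ℕ)).decide.to_comp).comp hf hg

theorem c_and {α : Type} [Primcodable α] {f g : α → Bool} (hf : Computable f) (hg : Computable g) :
    Computable (fun a => f a && g a) :=
  (Primrec.and.to_comp).comp hf hg

theorem c_add {α : Type} [Primcodable α] {f g : α → ℕ} (hf : Computable f) (hg : Computable g) :
    Computable (fun a => f a + g a) :=
  (Primrec.nat_add.to_comp).comp hf hg

theorem c_mul {α : Type} [Primcodable α] {f g : α → ℕ} (hf : Computable f) (hg : Computable g) :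
    Computable (fun a => f a * g a) :=
  (Primrec.nat_mul.to_comp).comp hf hg

theorem c_pow {α : Type} [Primcodable α] {f g : α → ℕ} (hf : Computable f) (hg : Computable g) :
    Computable (fun a => f a ^ g a) :=
  ((Primrec₂.unpaired'.1 Nat.Primrec.pow).to_comp).comp hf hg

theorem c_pr {α : Type} [Primcodable α] {f g : α → ℕ} (hf : Computable f) (hg : Computable g) :
    Computable (fun a => Nat.pair (f a) (g a)) :=
  (Primrec₂.natPair.to_comp).comp hf hg

theorem c_un1 {α : Type} [Primcodable α] {f : α → ℕ} (hf : Computable f) :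
    Computable (fun a => (f a).unpair.1) :=
  Computable.fst.comp (Computable.unpair.comp hf)

theorem c_un2 {α : Type} [Primcodable α] {f : α → ℕ} (hf : Computable f) :
    Computable (fun a => (f a).unpair.2) :=
  Computable.snd.comp (Computable.unpair.comp hf)

theorem c_get {α : Type} [Primcodable α] {f : α → List ℕ} {g : α → ℕ} (hf : Computable f)
    (hg : Computable g) : Computable (fun a => (f a).getD (g a) 0) :=
  ((Primrec.list_getD (0 : ℕ)).to_comp).comp hf hg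

/-- components of a code -/
def wi (w : ℕ) : ℕ := w.unpair.1.unpair.1.unpair.1
def wk (w : ℕ) : ℕ := w.unpair.1.unpair.1.unpair.2
def wj (w : ℕ) : ℕ := w.unpair.1.unpair.2.unpair.1
def wm (w : ℕ) : ℕ := w.unpair.1.unpair.2.unpair.2
def wt (w : ℕ) : ℕ := w.unpair.2

/-- the test -/
def tst (q : ℕ × ℕ × ℕ → ℕ) (x : List ℕ × List ℕ × ℕ) (w : ℕ) : Bool :=
  decide (w < x.2.1.length) && (decide (wm w < w) && (decide (cd (wi w) (wk w) (wj w) (x.2.2 + 1) < w)
    && (decide (x.1.getD (cd (wi w) (wk w) (wj w) (x.2.2 + 1)) 0 = 1) &&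
      decide ((q (x.2.1.getD (wm w) 0, wi w, wt w) + 1) * 2 ^ (wm w + wk w) + 2 ^ (wt w + wk w) <
        2 ^ (wt w + wm w)))))

theorem tst_comp (q : ℕ × ℕ × ℕ → ℕ) (hq : Computable q) : Computable₂ (tst q) := by
  have hw : Computable (fun x : (List ℕ × List ℕ × ℕ) × ℕ => x.2) := Computable.snd
  have h1 : Computable (fun x : (List ℕ × List ℕ × ℕ) × ℕ => x.1.1) :=
    Computable.fst.comp Computable.fst
  have h2 : Computable (fun x : (List ℕ × List ℕ × ℕ) × ℕ => x.1.2.1) :=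
    Computable.fst.comp (Computable.snd.comp Computable.fst)
  have h3 : Computable (fun x : (List ℕ × List ℕ × ℕ) × ℕ => x.1.2.2) :=
    Computable.snd.comp (Computable.snd.comp Computable.fst)
  have hi : Computable (fun x : (List ℕ × List ℕ × ℕ) × ℕ => wi x.2) := c_un1 (c_un1 (c_un1 hw))
  have hk : Computable (fun x : (List ℕ × List ℕ × ℕ) × ℕ => wk x.2) := c_un2 (c_un1 (c_un1 hw))
  have hj : Computable (fun x : (List ℕ × List ℕ × ℕ) × ℕ => wj x.2) := c_un1 (c_un2 (c_un1 hw))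
  have hm : Computable (fun x : (List ℕ × List ℕ × ℕ) × ℕ => wm x.2) := c_un2 (c_un2 (c_un1 hw))
  have ht : Computable (fun x : (List ℕ × List ℕ × ℕ) × ℕ => wt x.2) := c_un2 hw
  have hcd : Computable (fun x : (List ℕ × List ℕ × ℕ) × ℕ =>
      cd (wi x.2) (wk x.2) (wj x.2) (x.1.2.2 + 1)) :=
    c_pr (c_pr hi hk) (c_pr hj (Computable.succ.comp h3))
  have htwo : Computable (fun _ : (List ℕ × List ℕ × ℕ) × ℕ => 2) := Computable.const 2
  have hone : Computable (fun _ : (List ℕ × List ℕ × ℕ) × ℕ => 1) := Computable.const 1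
  have hqq : Computable (fun x : (List ℕ × List ℕ × ℕ) × ℕ =>
      q (x.1.2.1.getD (wm x.2) 0, wi x.2, wt x.2)) :=
    hq.comp (Computable.pair (c_get h2 hm) (Computable.pair hi ht))
  exact c_and (c_lt hw (Computable.list_length.comp h2)) (c_and (c_lt hm hw) (c_and (c_lt hcd hw)
    (c_and (c_eq (c_get h1 hcd) hone)
      (c_lt (c_add (c_mul (Computable.succ.comp hqq) (c_pow htwo (c_add hm hk)))
        (c_pow htwo (c_add ht hk))) (c_pow htwo (c_add ht hm))))))

/-- the functional -/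
def Ph (q : ℕ × ℕ × ℕ → ℕ) (x : List ℕ × List ℕ × ℕ) : Part ℕ :=
  (Nat.rfind (fun w => Part.some (tst q x w))).map wj

theorem Ph_partrec (q : ℕ × ℕ × ℕ → ℕ) (hq : Computable q) : Partrec (Ph q) := by
  have h1 : Partrec (fun x : List ℕ × List ℕ × ℕ => Nat.rfind (fun w => Part.some (tst q x w))) :=
    Partrec.rfind (tst_comp q hq).partrec₂
  exact h1.map (c_un1 (c_un2 (c_un1 Computable.snd)))

theorem pre_length {A : Type} (x : ℕ → A) (n : ℕ) : (pre x n).length = n := by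
  simp [pre]

theorem pre_getD (x : ℕ → ℕ) (n i : ℕ) (h : i < n) : (pre x n).getD i 0 = x i := by
  simp [pre, h, List.getD]

/-- the test without the length -/
def T0 (q : ℕ × ℕ × ℕ → ℕ) (F : ℕ → Bool) (p : ℕ → ℕ) (n w : ℕ) : Prop :=
  wm w < w ∧ cd (wi w) (wk w) (wj w) (n + 1) < w ∧ F (cd (wi w) (wk w) (wj w) (n + 1)) = true ∧
    (q (p (wm w), wi w, wt w) + 1) * 2 ^ (wm w + wk w) + 2 ^ (wt w + wk w) < 2 ^ (wt w + wm w)

theorem tst_iff (q : ℕ × ℕ × ℕ → ℕ) (F : ℕ → Bool) (p : ℕ → ℕ) (n w K : ℕ) :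
    tst q (pre (nb F) K, pre p K, n) w = true ↔ w < K ∧ T0 q F p n w := by
  unfold tst T0
  simp only [Bool.and_eq_true, decide_eq_true_eq, pre_length]
  constructor
  · rintro ⟨h1, h2, h3, h4, h5⟩
    rw [pre_getD _ _ _ (h3.trans h1)] at h4
    rw [pre_getD _ _ _ (h2.trans h1)] at h5
    refine ⟨h1, h2, h3, ?_, h5⟩
    unfold nb at h4
    cases hF : F (cd (wi w) (wk w) (wj w) (n + 1))
    · rw [hF] at h4
      exact absurd h4 (by decide)
    · rfl
  · rintro ⟨h1, h2, h3, h4, h5⟩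
    rw [pre_getD _ _ _ (h3.trans h1), pre_getD _ _ _ (h2.trans h1)]
    refine ⟨h1, h2, h3, ?_, h5⟩
    unfold nb
    rw [h4]
    rfl

theorem T0_sound (M N : Pres) (q : ℕ × ℕ × ℕ → ℕ)
    (hq : ∀ i j k, |dist (M.c i) (M.c j) - (q (i, j, k) : ℝ) / 2 ^ k| ≤ 1 / 2 ^ k) (F : ℕ → Bool)
    (h : M.Y → N.Y) (hD : Desc M N F h) (x : M.Y) (p : ℕ → ℕ) (hp : IsName M p x) (n w : ℕ)
    (hT : T0 q F p n w) : dist (N.c (wj w)) (h x) < 1 / 2 ^ n := by
  obtain ⟨_, _, h3, h4⟩ := hT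
  have h5 : dist (M.c (wi w)) x < 1 / 2 ^ (wk w) := by
    have e1 := (abs_le.mp (hq (p (wm w)) (wi w) (wt w))).2
    have e2 := hp (wm w)
    have e3 := dist_triangle_left (M.c (wi w)) x (M.c (p (wm w)))
    have e4 : (((q (p (wm w), wi w, wt w) : ℕ) : ℝ) + 1) * 2 ^ (wm w + wk w) +
        2 ^ (wt w + wk w) < 2 ^ (wt w + wm w) := by exact_mod_cast h4
    have e5 : ((q (p (wm w), wi w, wt w) : ℕ) : ℝ) / 2 ^ (wt w) + 1 / 2 ^ (wt w) +
        1 / 2 ^ (wm w) < 1 / 2 ^ (wk w) := by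
      have p1 : (0 : ℝ) < 2 ^ (wt w) := by positivity
      have p2 : (0 : ℝ) < 2 ^ (wm w) := by positivity
      have p3 : (0 : ℝ) < 2 ^ (wk w) := by positivity
      rw [pow_add, pow_add, pow_add] at e4
      have e6 : ((q (p (wm w), wi w, wt w) : ℕ) : ℝ) / 2 ^ (wt w) + 1 / 2 ^ (wt w) +
        1 / 2 ^ (wm w) = ((((q (p (wm w), wi w, wt w) : ℕ) : ℝ) + 1) * (2 ^ wm w * 2 ^ wk w) +
        2 ^ wt w * 2 ^ wk w) / (2 ^ wt w * 2 ^ wm w * 2 ^ wk w) := by
        field_simp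
      have e7 : (1 : ℝ) / 2 ^ (wk w) = (2 ^ wt w * 2 ^ wm w) / (2 ^ wt w * 2 ^ wm w * 2 ^ wk w) := by
        field_simp
      rw [e6, e7]
      gcongr
    linarith
  have h6 := hD x _ _ _ _ h3 h5
  rw [dist_comm]
  refine lt_of_le_of_lt h6 ?_
  apply one_div_lt_one_div_of_lt (by positivity)
  exact pow_lt_pow_right₀ (by norm_num) (by omega)

theorem T0_exists (M : Pres) (q : ℕ × ℕ × ℕ → ℕ)
    (hq : ∀ i j k, |dist (M.c i) (M.c j) - (q (i, j, k) : ℝ) / 2 ^ k| ≤ 1 / 2 ^ k) (F : ℕ → Bool)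
    (hcov : Cov M F) (x : M.Y) (p : ℕ → ℕ) (hp : IsName M p x) (n : ℕ) :
    ∃ w, T0 q F p n w := by
  obtain ⟨i, k, j, hF, hd⟩ := hcov x (n + 1)
  obtain ⟨m, hm⟩ := exists_pow_lt ((1 / 2 ^ k - dist (M.c i) x) / 4) (by linarith)
  obtain ⟨t, ht⟩ : ∃ t, t = m + cd i k j (n + 1) + 1 := ⟨_, rfl⟩
  obtain ⟨w, hw⟩ : ∃ w, w = Nat.pair (Nat.pair (Nat.pair i k) (Nat.pair j m)) t := ⟨_, rfl⟩
  have w1 : wi w = i := by rw [hw]; simp [wi]
  have w2 : wk w = k := by rw [hw]; simp [wk]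
  have w3 : wj w = j := by rw [hw]; simp [wj]
  have w4 : wm w = m := by rw [hw]; simp [wm]
  have w5 : wt w = t := by rw [hw]; simp [wt]
  have htw : t ≤ w := by rw [hw]; exact Nat.right_le_pair _ _
  refine ⟨w, ?_⟩
  unfold T0
  rw [w1, w2, w3, w4, w5]
  refine ⟨by omega, by omega, hF, ?_⟩
  have e1 := (abs_le.mp (hq (p m) i t)).1
  have e2 := hp m
  have e3 := dist_triangle_right (M.c (p m)) (M.c i) x
  have e0 : (1 : ℝ) / 2 ^ t ≤ 1 / 2 ^ m :=
    one_div_le_one_div_of_le (by positivity) (pow_le_pow_right₀ (by norm_num) (by omega))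
  have e5 : ((q (p m, i, t) : ℕ) : ℝ) / 2 ^ t + 1 / 2 ^ t + 1 / 2 ^ m < 1 / 2 ^ k := by
    linarith
  have p1 : (0 : ℝ) < 2 ^ t := by positivity
  have p2 : (0 : ℝ) < 2 ^ m := by positivity
  have p3 : (0 : ℝ) < 2 ^ k := by positivity
  have e6 : ((q (p m, i, t) : ℕ) : ℝ) / 2 ^ t + 1 / 2 ^ t +
    1 / 2 ^ m = ((((q (p m, i, t) : ℕ) : ℝ) + 1) * (2 ^ m * 2 ^ k) +
    2 ^ t * 2 ^ k) / (2 ^ t * 2 ^ m * 2 ^ k) := by
    field_simp
  have e7 : (1 : ℝ) / 2 ^ k = (2 ^ t * 2 ^ m) / (2 ^ t * 2 ^ m * 2 ^ k) := by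
    field_simp
  rw [e6, e7, div_lt_div_iff_of_pos_right (by positivity)] at e5
  have e8 : (((q (p m, i, t) : ℕ) : ℝ) + 1) * 2 ^ (m + k) +
        2 ^ (t + k) < 2 ^ (t + m) := by
    rw [pow_add, pow_add, pow_add]; exact e5
  exact_mod_cast e8

theorem comp_of_desc (M N : Pres) (F : ℕ → Bool) (hcov : Cov M F) (h : M.Y → N.Y)
    (hD : Desc M N F h) (b : ℕ → ℕ) (hb : Red (nb F) b) : CompMap b M N h := by
  obtain ⟨q, hqc, hq⟩ := M.comp
  refine ⟨_, rec_pre hb (Ph_partrec q hqc), ?_⟩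
  intro x p hp
  have hex := fun n => T0_exists M q hq F hcov x p hp n
  classical
  refine ⟨fun n => wj (Nat.find (hex n)), ?_, ?_⟩
  · intro n
    exact T0_sound M N q hq F h hD x p hp n _ (Nat.find_spec (hex n))
  · intro n
    have hmem : ∀ K m, m ∈ Ph q (pre (nb F) K, pre p K, n) ↔
        Nat.find (hex n) < K ∧ m = wj (Nat.find (hex n)) := by
      intro K m
      unfold Ph
      rw [Part.mem_map_iff]
      constructor
      · rintro ⟨w, hw, rfl⟩
        obtain ⟨h1, h2⟩ := Nat.mem_rfind.mp hw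
        have h1' := (tst_iff q F p n w K).mp (Part.mem_some_iff.mp h1).symm
        have h3 : Nat.find (hex n) = w := by
          rw [Nat.find_eq_iff]
          refine ⟨h1'.2, fun w' hw' hT => ?_⟩
          have h4 := h2 hw'
          have h5 := (tst_iff q F p n w' K).mpr ⟨hw'.trans h1'.1, hT⟩
          rw [h5] at h4
          exact absurd (Part.mem_some_iff.mp h4) (by decide)
        rw [h3]
        exact ⟨h1'.1, rfl⟩
      · rintro ⟨h1, rfl⟩
        refine ⟨Nat.find (hex n), Nat.mem_rfind.mpr ⟨?_, ?_⟩, rfl⟩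
        · rw [(tst_iff q F p n _ K).mpr ⟨h1, Nat.find_spec (hex n)⟩]
          exact Part.mem_some _
        · intro w' hw'
          have h5 : tst q (pre (nb F) K, pre p K, n) w' = false := by
            rw [Bool.eq_false_iff]
            intro h6
            exact Nat.find_min (hex n) hw' ((tst_iff q F p n w' K).mp h6).2
          rw [h5]
          exact Part.mem_some _
    constructor
    · refine ⟨Nat.find (hex n) + 1, ?_⟩
      show wj (Nat.find (hex n)) ∈ Ph q (pre (nb F) (pre p (Nat.find (hex n) + 1)).length,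
        pre p (Nat.find (hex n) + 1), n)
      rw [pre_length, hmem]
      exact ⟨Nat.lt_succ_self _, rfl⟩
    · intro K m hm
      have hm' : m ∈ Ph q (pre (nb F) (pre p K).length, pre p K, n) := hm
      rw [pre_length, hmem] at hm'
      exact hm'.2

/-- TARGET 2 -/
theorem good_homeo (M N : Pres) (F G : ℕ → Bool) (hg : Good M N F G) :
    ∃ h : M.Y ≃ₜ N.Y, ∀ b : ℕ → ℕ, Red (nb F) b → Red (nb G) b →
      CompMap b M N h ∧ CompMap b N M h.symm := by
  obtain ⟨h1, h2, h3, h4, h5, h6⟩ := hg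
  obtain ⟨h, hD⟩ := exists_desc M N F h1 h2
  obtain ⟨g, hE⟩ := exists_desc N M G h3 h4
  refine ⟨⟨⟨h, g, desc_inv M N F G h1 h3 h5 h g hD hE, desc_inv N M G F h3 h1 h6 g h hE hD⟩,
    desc_cont M N F h1 h hD, desc_cont N M G h3 g hE⟩, fun b hb1 hb2 => ⟨?_, ?_⟩⟩
  · exact comp_of_desc M N F h1 h hD b hb1
  · exact comp_of_desc N M G h3 g hE b hb2

end Pool.Agent.Helper583.TC.J9
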