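import Pool.Agent.Helper583.TCPres
import Pool.Agent.Helper583.TCJ12
import Pool.Agent.Helper583.TCJ13
import Pool.Agent.Helper583.TCJ14

/-!
An oracle for which Baire space is categorical computes a member of every nonempty class.
-/

namespace Pool.Agent.Helper583.TC

theorem primrec_dw : Primrec dw := Primrec.option_getD.comp Primrec.decode (Primrec.const [])

theorem lower {a : ℕ → ℕ} (ha : Cat a) {W : List Bool × List ℕ → Bool} (hW : Primrec W)
    (hne : ∃ y, Cls W y) : ∃ y, Cls W y ∧ Red (nb y) a := by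
  obtain ⟨N, hN⟩ := J12.exists_std
  obtain ⟨h, hc, _⟩ := ha (presW W hW hne) N
  let p₁ : (presW W hW hne).Y := (bzp [] : Pt (GW W))
  let p₂ : (presW W hW hne).Y := (bzp [true] : Pt (GW W))
  have hp : p₁ ≠ p₂ := bzp_ne
  obtain ⟨C, n₀, β, hC, h1, h2, hβ, hCC⟩ := hN (h p₁) (h p₂) (h.injective.ne hp)
  have hCl : IsClopen (h ⁻¹' C) := hC.preimage h.continuous
  obtain ⟨C', hC'⟩ : ∃ C' : Set (Pt (GW W)), C' = h ⁻¹' C := ⟨_, rfl⟩
  have hCl' : IsClopen C' := by rw [hC']; exact hCl
  have hm : ∀ P : Pt (GW W), P ∈ C' ↔ h P ∈ C := fun P => by rw [hC']; exact Iff.rfl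
  obtain ⟨t, s, hts⟩ := exists_member' hCl' ((hm _).2 h1) (fun h => h2 ((hm _).1 h))
  refine ⟨yof (SS C' t) s, hts, ?_⟩
  apply J13.red_yof
  have hg : Computable fun k => Encodable.encode (t, [0, Encodable.encode (dw k)]) :=
    (Primrec.encode.comp (Primrec.pair (Primrec.const t) (Primrec.list_cons.comp (Primrec.const 0)
      (Primrec.list_cons.comp (Primrec.encode.comp primrec_dw) (Primrec.const []))))).to_comp
  refine J14.side_red hc C n₀ β hβ hCC _ hg (fun k => SS C' t (dw k)) fun k => ?_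
  have h3 : (presW W hW hne).c (Encodable.encode (t, [0, Encodable.encode (dw k)])) =
      (consL t (bzp (dw k)) : Pt (GW W)) := cpt_encode t _
  rw [h3]
  constructor
  · intro hs
    by_contra hn
    rw [SS_false fun h' => hn ((hm _).1 h')] at hs
    exact Bool.false_ne_true hs
  · exact fun h' => SS_true ((hm _).2 h')

end Pool.Agent.Helper583.TC
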