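import Pool.Agent.Helper583.TCJ5
import Pool.Agent.Helper583.TCJ6
import Pool.Agent.Helper583.TCJ7
import Pool.Agent.Helper583.TCJ8
import Pool.Agent.Helper583.TCJ9

/-!
An oracle that computes every real which is a singleton class makes Baire space categorical.
-/

namespace Pool.Agent.Helper583.TC

/-- `y` is the only member of a class -/
def Sg (y : ℕ → Bool) : Prop :=
  ∃ W : List Bool × List ℕ → Bool, Primrec W ∧ ∀ z, Cls W z ↔ z = y

theorem sg_of_nonempty {W : List Bool × List ℕ → Bool} (hW : Primrec W) (hne : ∃ y, Cls W y) :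
    ∃ y, Cls W y ∧ Sg y := by
  obtain ⟨W', hW', h'⟩ := J6.kondo_comp W hW
  obtain ⟨W'', hW'', h''⟩ := J4.cls_and W W' hW hW'
  obtain ⟨y, hy, hy2, huniq⟩ := J5.kondo_sem W hne
  refine ⟨y, hy, W'', hW'', fun z => ?_⟩
  rw [h'' z, h' z]
  constructor
  · rintro ⟨h1, h2⟩
    exact huniq z h1 h2
  · rintro rfl
    exact ⟨hy, hy2⟩

/-- the bit sequence with even part `F` and odd part `G` -/
def jnb (F G : ℕ → Bool) : ℕ → Bool := fun n => if n % 2 = 0 then F (n / 2) else G (n / 2)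

@[simp] theorem evn_jnb (F G : ℕ → Bool) : evn (jnb F G) = F := by
  funext n
  unfold evn jnb
  rw [if_pos (by omega)]
  congr 1
  omega

@[simp] theorem odn_jnb (F G : ℕ → Bool) : odn (jnb F G) = G := by
  funext n
  unfold odn jnb
  rw [if_neg (by omega)]
  congr 1
  omega

theorem jnb_evn_odn (y : ℕ → Bool) : jnb (evn y) (odn y) = y := by
  funext n
  unfold jnb
  split
  · show y (2 * (n / 2)) = y n
    congr 1
    omega
  · show y (2 * (n / 2) + 1) = y n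
    congr 1
    omega

theorem red_trans {x y z : ℕ → ℕ} (h1 : Red x y) (h2 : Red y z) : Red x z := by
  unfold Red at *
  exact h1.subst fun g hg => by rw [Set.mem_singleton_iff.1 hg]; exact h2

theorem red_comp (y : ℕ → ℕ) {f : ℕ → ℕ} (hf : Primrec f) : Red (fun n => y (f n)) y := by
  unfold Red
  have h1 : Nat.RecursiveIn {orc y} (orc y) := Nat.RecursiveIn.oracle _ rfl
  have h2 : Nat.RecursiveIn {orc y} (orc f) :=
    (Nat.Primrec.recursiveIn (Primrec.nat_iff.1 hf)).of_eq fun _ => rfl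
  refine (Nat.RecursiveIn.comp h1 h2).of_eq fun n => ?_
  unfold orc
  exact Part.bind_some _ _

theorem red_evn (y : ℕ → Bool) : Red (nb (evn y)) (nb y) :=
  red_comp (nb y) (Primrec.nat_mul.comp (Primrec.const 2) Primrec.id)

theorem red_odn (y : ℕ → Bool) : Red (nb (odn y)) (nb y) :=
  red_comp (nb y) (Primrec.succ.comp (Primrec.nat_mul.comp (Primrec.const 2) Primrec.id))

theorem cls_good (M N : Pres) : ∃ W : List Bool × List ℕ → Bool, Primrec W ∧
    ∀ y, Cls W y ↔ Good M N (evn y) (odn y) := by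
  obtain ⟨W1, hW1, h1⟩ := J8.cls_cov M
  obtain ⟨W1', hW1', h1'⟩ := J4.cls_evn W1 hW1
  obtain ⟨W2, hW2, h2⟩ := J8.cls_con M N
  obtain ⟨W2', hW2', h2'⟩ := J4.cls_evn W2 hW2
  obtain ⟨W3, hW3, h3⟩ := J8.cls_cov N
  obtain ⟨W3', hW3', h3'⟩ := J4.cls_odn W3 hW3
  obtain ⟨W4, hW4, h4⟩ := J8.cls_con N M
  obtain ⟨W4', hW4', h4'⟩ := J4.cls_odn W4 hW4
  obtain ⟨W5, hW5, h5⟩ := J8.cls_inv M N
  obtain ⟨W6, hW6, h6⟩ := J8.cls_inv' N M
  obtain ⟨V5, hV5, e5⟩ := J4.cls_and W5 W6 hW5 hW6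
  obtain ⟨V4, hV4, e4⟩ := J4.cls_and W4' V5 hW4' hV5
  obtain ⟨V3, hV3, e3⟩ := J4.cls_and W3' V4 hW3' hV4
  obtain ⟨V2, hV2, e2⟩ := J4.cls_and W2' V3 hW2' hV3
  obtain ⟨V1, hV1, e1⟩ := J4.cls_and W1' V2 hW1' hV2
  refine ⟨V1, hV1, fun y => ?_⟩
  rw [e1, e2, e3, e4, e5, h1', h1, h2', h2, h3', h3, h4', h4, h5, h6]
  exact Iff.rfl

theorem upper {b : ℕ → ℕ} (hb : ∀ y, Sg y → Red (nb y) b) : Cat b := by
  intro M N
  obtain ⟨W, hW, h⟩ := cls_good M N
  obtain ⟨F, G, hFG⟩ := J9.good_exists M N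
  obtain ⟨y, hy, hs⟩ := sg_of_nonempty hW ⟨jnb F G, (h _).2 (by simpa using hFG)⟩
  obtain ⟨g, hg⟩ := J9.good_homeo M N (evn y) (odn y) ((h y).1 hy)
  exact ⟨g, hg b (red_trans (red_evn y) (hb y hs)) (red_trans (red_odn y) (hb y hs))⟩

end Pool.Agent.Helper583.TC
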