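import Pool.Agent.Helper583.TCLower
import Pool.Agent.Helper583.TCUpper
import Pool.Agent.Helper583.TCJ3

/-!
Baire space has no degree of topological categoricity.
-/

namespace Pool.Agent.Helper583.TC

theorem sg_nonempty : ∃ y, Sg y := by
  obtain ⟨y, _, hy⟩ := sg_of_nonempty (W := fun _ => true) (Primrec.const true)
    ⟨fun _ => true, fun _ => ⟨0, rfl⟩⟩
  exact ⟨y, hy⟩

theorem sg_jnb {F G : ℕ → Bool} (hF : Sg F) (hG : Sg G) : Sg (jnb F G) := by
  obtain ⟨W1, hW1, h1⟩ := hF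
  obtain ⟨W2, hW2, h2⟩ := hG
  obtain ⟨V1, hV1, e1⟩ := J4.cls_evn W1 hW1
  obtain ⟨V2, hV2, e2⟩ := J4.cls_odn W2 hW2
  obtain ⟨V, hV, e⟩ := J4.cls_and V1 V2 hV1 hV2
  refine ⟨V, hV, fun z => ?_⟩
  rw [e, e1, e2, h1, h2]
  constructor
  · rintro ⟨rfl, rfl⟩
    exact (jnb_evn_odn z).symm
  · rintro rfl
    simp

theorem countable_below (a : ℕ → ℕ) : {x : ℕ → Bool | Red (nb x) a}.Countable := by
  have hsub : {x : ℕ → Bool | Red (nb x) a} ⊆ ⋃ c : ℕ, {x : ℕ → Bool | ∀ n,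
      (∃ k t, J7.evl t c (pre a k) n = some (nb x n)) ∧
      ∀ k t m, J7.evl t c (pre a k) n = some m → m = nb x n} := by
    intro x hx
    obtain ⟨c, hc⟩ := (J7.red_code _ _).1 hx
    exact Set.mem_iUnion.2 ⟨c, hc⟩
  refine Set.Countable.mono hsub (Set.countable_iUnion fun c => Set.Subsingleton.countable ?_)
  intro x hx x' hx'
  funext n
  obtain ⟨⟨k, t, hk⟩, _⟩ := hx n
  have h2 := (hx' n).2 k t _ hk
  unfold nb at h2
  revert h2
  cases x n <;> cases x' n <;> simp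

theorem exists_not_red (a : ℕ → ℕ) : ∃ z : ℕ → Bool, ¬ Red (nb z) a := by
  by_contra h
  push Not at h
  have h1 := countable_below a
  rw [Set.eq_univ_of_forall (s := {x : ℕ → Bool | Red (nb x) a}) h] at h1
  obtain ⟨f, hf⟩ := h1.exists_eq_range ⟨fun _ => true, trivial⟩
  obtain ⟨i, hi⟩ : (fun n => !(f n n)) ∈ Set.range f := hf ▸ Set.mem_univ _
  have := congrFun hi i
  simp at this

theorem join_finite (e : ℕ → ℕ → Bool) (he : ∀ i, Sg (e i)) (k : ℕ) :
    ∃ x, Sg x ∧ ∀ i < k, Red (nb (e i)) (nb x) := by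
  induction k with
  | zero =>
    obtain ⟨x, hx⟩ := sg_nonempty
    exact ⟨x, hx, fun i hi => absurd hi (Nat.not_lt_zero i)⟩
  | succ k ih =>
    obtain ⟨x, hx, h⟩ := ih
    refine ⟨jnb x (e k), sg_jnb hx (he k), fun i hi => ?_⟩
    rcases Nat.lt_succ_iff_lt_or_eq.1 hi with h1 | h1
    · refine red_trans (h i h1) ?_
      have := red_evn (jnb x (e k))
      rwa [evn_jnb] at this
    · subst h1
      have := red_odn (jnb x (e i))
      rwa [odn_jnb] at this

/-- The oracles for which Baire space is categorical are exactly the upper bounds of the reals that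
are singleton co-analytic classes. -/
theorem cat_iff {a : ℕ → ℕ} : Cat a ↔ ∀ y, Sg y → Red (nb y) a := by
  refine ⟨fun ha y hy => ?_, upper⟩
  obtain ⟨W, hW, h⟩ := hy
  obtain ⟨z, hz, hza⟩ := lower ha hW ⟨y, (h y).2 rfl⟩
  rwa [(h z).1 hz] at hza

/-- Baire space is categorical for some oracle. -/
theorem exists_cat : ∃ a : ℕ → ℕ, Cat a := by
  obtain ⟨e, he⟩ := J4.cls_countable.exists_eq_range sg_nonempty
  refine ⟨fun p => nb (e p.unpair.1) p.unpair.2, upper fun y hy => ?_⟩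
  have hy' : y ∈ Set.range e := by rw [← he]; exact hy
  obtain ⟨i, rfl⟩ := hy'
  have h := red_comp (fun p => nb (e p.unpair.1) p.unpair.2) (f := fun n => Nat.pair i n)
    (Primrec₂.natPair.comp (Primrec.const i) Primrec.id)
  simpa using h

/-- Among the oracles for which Baire space is categorical there is no least one. -/
theorem no_degree : ¬ ∃ a : ℕ → ℕ, Cat a ∧ ∀ b : ℕ → ℕ, Cat b → Red a b := by
  rintro ⟨a, ha, hmin⟩
  obtain ⟨e, he⟩ := J4.cls_countable.exists_eq_range sg_nonempty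
  have heSg : ∀ i, Sg (e i) := by
    intro i
    have : e i ∈ Set.range e := ⟨i, rfl⟩
    rw [← he] at this
    exact this
  have h1 : ∃ k, Nat.RecursiveIn {g | ∃ i < k, g = orc (nb (e i))} (orc a) := by
    by_contra hno
    push Not at hno
    obtain ⟨b, hb, hab⟩ := J3.cone_avoid (fun i => nb (e i)) a hno
    refine hab (hmin b (upper fun y hy => ?_))
    have hy' : y ∈ Set.range e := by rw [← he]; exact hy
    obtain ⟨i, rfl⟩ := hy'
    exact hb i
  obtain ⟨k, hk⟩ := h1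
  obtain ⟨x, hx, hxk⟩ := join_finite e heSg k
  have hax : Red a (nb x) := by
    unfold Red
    refine hk.subst ?_
    rintro g ⟨i, hi, rfl⟩
    exact hxk i hi
  obtain ⟨Wx, hWx, hx'⟩ := hx
  obtain ⟨W1, hW1, e1⟩ := J4.cls_evn Wx hWx
  obtain ⟨W2, hW2, e2⟩ := J7.cls_notRed
  obtain ⟨W3, hW3, e3⟩ := J4.cls_and W1 W2 hW1 hW2
  obtain ⟨z, hz⟩ := exists_not_red (nb x)
  have hne : ∃ y, Cls W3 y := by
    refine ⟨jnb x z, ?_⟩
    rw [e3, e1, e2, hx']
    simpa using hz
  obtain ⟨y, hy, hya⟩ := lower ha hW3 hne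
  rw [e3, e1, e2, hx'] at hy
  obtain ⟨hy1, hy2⟩ := hy
  apply hy2
  rw [hy1]
  exact red_trans (red_odn y) (red_trans hya hax)

end Pool.Agent.Helper583.TC
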