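import Pool.Agent.Helper583.TCSpace

/-!
The metric of the gadget space.
-/

namespace Pool.Agent.Helper583.TC

open Filter Topology

variable {G : Gd}

/-- contraction factor of an edge -/
noncomputable def ce (G : Gd) (e : ℕ) : ℝ := (1 / 2) ^ (max (G.L e).length (G.R e).length + 1)

theorem ce_pos (e : ℕ) : 0 < ce G e := by unfold ce; positivity

theorem ce_le_half (e : ℕ) : ce G e ≤ 1 / 2 := by
  unfold ce
  calc ((1:ℝ) / 2) ^ (max (G.L e).length (G.R e).length + 1) ≤ (1 / 2) ^ 1 :=
        pow_le_pow_of_le_one (by norm_num) (by norm_num) (by omega)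
    _ = 1 / 2 := by norm_num

/-- same first edge or not -/
def Df (P Q : Pt G) : Prop := ∀ e, ¬ (P.f 0 = Sum.inl e ∧ Q.f 0 = Sum.inl e)

theorem Df.symm {P Q : Pt G} (h : Df P Q) : Df Q P := fun e he => h e ⟨he.2, he.1⟩

theorem pair_cases (P Q : Pt G) : (∃ e P' Q', P = cons e P' ∧ Q = cons e Q') ∨ Df P Q := by
  by_cases h : ∃ e, P.f 0 = Sum.inl e ∧ Q.f 0 = Sum.inl e
  · obtain ⟨e, h1, h2⟩ := h
    left
    refine ⟨e, tail P, tail Q, Pt.ext' ?_, Pt.ext' ?_⟩ <;>
    · intro n
      cases n with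
      | zero => assumption
      | succ n => rfl
  · right
    intro e he
    exact h ⟨e, he⟩

theorem df_wp_left (z : ℕ → ℕ) (P : Pt G) : Df (wp z) P := by
  intro e he; simp [wp] at he

theorem df_wp_right (z : ℕ → ℕ) (P : Pt G) : Df P (wp z) := (df_wp_left z P).symm

theorem df_cons {e e' : ℕ} (h : e ≠ e') (P Q : Pt G) : Df (cons e P) (cons e' Q) := by
  intro x hx
  exact h ((Sum.inl.inj hx.1).trans (Sum.inl.inj hx.2).symm)

open scoped Classical in
/-- one step of the metric -/
noncomputable def dstep (P Q : Pt G) (t : ℝ) : ℝ :=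
  if h : ∃ e, P.f 0 = Sum.inl e ∧ Q.f 0 = Sum.inl e then
    max |tau (tail P) - tau (tail Q)| (ce G h.choose * t)
  else D0 P Q

theorem dstep_same (e : ℕ) (P Q : Pt G) (t : ℝ) :
    dstep (cons e P) (cons e Q) t = max |tau P - tau Q| (ce G e * t) := by
  classical
  unfold dstep
  have h : ∃ e', (cons e P).f 0 = Sum.inl e' ∧ (cons e Q).f 0 = Sum.inl e' := ⟨e, rfl, rfl⟩
  rw [dif_pos h]
  have h2 : h.choose = e := by
    have := h.choose_spec.1
    exact (Sum.inl.inj this).symm
  rw [h2]
  rfl

theorem dstep_df {P Q : Pt G} (h : Df P Q) (t : ℝ) : dstep P Q t = D0 P Q := by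
  classical
  unfold dstep
  rw [dif_neg]
  rintro ⟨e, he⟩
  exact h e he

noncomputable def dn : ℕ → Pt G → Pt G → ℝ
  | 0, _, _ => 0
  | n + 1, P, Q => dstep P Q (dn n (tail P) (tail Q))

theorem dn_same (n : ℕ) (e : ℕ) (P Q : Pt G) :
    dn (n + 1) (cons e P) (cons e Q) = max |tau P - tau Q| (ce G e * dn n P Q) := by
  simp only [dn, tail_cons]
  exact dstep_same e P Q _

theorem dn_df (n : ℕ) {P Q : Pt G} (h : Df P Q) : dn (n + 1) P Q = D0 P Q := by
  simp only [dn]
  exact dstep_df h _

theorem tau_sub_le_one (P Q : Pt G) : |tau P - tau Q| ≤ 1 := by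
  rw [abs_le]
  constructor <;> linarith [tau_nonneg P, tau_nonneg Q, tau_le_one P, tau_le_one Q]

theorem dn_mem (n : ℕ) (P Q : Pt G) : 0 ≤ dn n P Q ∧ dn n P Q ≤ 1 := by
  induction n generalizing P Q with
  | zero => simp [dn]
  | succ n ih =>
    rcases pair_cases P Q with ⟨e, P', Q', rfl, rfl⟩ | h
    · rw [dn_same]
      have := ih P' Q'
      have h1 := ce_pos (G := G) e
      have h2 := ce_le_half (G := G) e
      refine ⟨le_max_of_le_left (abs_nonneg _), max_le (tau_sub_le_one _ _) ?_⟩
      nlinarith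
    · rw [dn_df n h]
      exact ⟨D0_nonneg _ _, D0_le_one _ _⟩

theorem dn_mono_succ (n : ℕ) (P Q : Pt G) : dn n P Q ≤ dn (n + 1) P Q := by
  induction n generalizing P Q with
  | zero => simpa [dn] using (dn_mem 1 P Q).1
  | succ n ih =>
    rcases pair_cases P Q with ⟨e, P', Q', rfl, rfl⟩ | h
    · rw [dn_same, dn_same]
      exact max_le_max le_rfl (mul_le_mul_of_nonneg_left (ih P' Q') (ce_pos e).le)
    · rw [dn_df n h, dn_df (n + 1) h]

theorem dn_symm (n : ℕ) (P Q : Pt G) : dn n P Q = dn n Q P := by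
  induction n generalizing P Q with
  | zero => rfl
  | succ n ih =>
    rcases pair_cases P Q with ⟨e, P', Q', rfl, rfl⟩ | h
    · rw [dn_same, dn_same, ih, abs_sub_comm]
    · rw [dn_df n h, dn_df n h.symm, D0_symm]

theorem dn_self_le (n : ℕ) (P : Pt G) : dn n P P = 0 := by
  induction n generalizing P with
  | zero => rfl
  | succ n ih =>
    rcases pt_cases P with ⟨e, Q, rfl⟩ | ⟨z, rfl⟩
    · rw [dn_same, ih]; simp
    · rw [dn_df n (df_wp_left z _)]
      apply le_antisymm _ (D0_nonneg _ _)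
      refine le_trans (D0_le _ _ true true) ?_
      unfold D1
      simp [es_wp, el_wp, dl_self]

theorem es_sub (e : ℕ) (P Q : Pt G) (i : Bool) :
    es (cons e P) i ≤ |tau P - tau Q| + es (cons e Q) i := by
  rw [es_cons, es_cons]
  have h1 := le_abs_self (tau P - tau Q)
  have h2 := neg_abs_le (tau P - tau Q)
  split_ifs <;> linarith

theorem D0_same_triangle (e : ℕ) (P Q : Pt G) (R : Pt G) :
    D0 (cons e P) R ≤ |tau P - tau Q| + D0 (cons e Q) R := by
  obtain ⟨i, k, h⟩ := D0_cases (cons e Q) R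
  rw [h]
  refine le_trans (D0_le _ _ i k) ?_
  have h0 := abs_nonneg (tau P - tau Q)
  have h1 := es_sub e P Q i
  unfold D1
  have e1 : es (cons e Q) i ≤ max (es (cons e Q) i) (max (dl (el (cons e Q) i) (el R k)) (es R k)) :=
    le_max_left _ _
  have e2 : dl (el (cons e Q) i) (el R k) ≤
      max (es (cons e Q) i) (max (dl (el (cons e Q) i) (el R k)) (es R k)) :=
    le_max_of_le_right (le_max_left _ _)
  have e3 : es R k ≤
      max (es (cons e Q) i) (max (dl (el (cons e Q) i) (el R k)) (es R k)) :=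
    le_max_of_le_right (le_max_right _ _)
  refine max_le (by linarith) (max_le ?_ (by linarith))
  have : el (cons e P) i = el (cons e Q) i := rfl
  rw [this]; linarith

theorem ce_le_dl (e : ℕ) (P : Pt G) (i : Bool) (v : ℕ → Option ℕ) :
    2 * ce G e ≤ dl (el (cons e P) i) v := by
  have h2 : 2 * ce G e = (1 / 2) ^ max (G.L e).length (G.R e).length := by
    unfold ce; rw [pow_succ]; ring
  rw [h2, el_cons]
  split_ifs
  · exact le_trans (pow_le_pow_of_le_one (by norm_num) (by norm_num) (le_max_right _ _))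
      (dl_tl_ge _ _)
  · exact le_trans (pow_le_pow_of_le_one (by norm_num) (by norm_num) (le_max_left _ _))
      (dl_tl_ge _ _)

theorem D0_through (e : ℕ) (P R Q : Pt G) (t : ℝ) (ht : t ≤ 1) :
    max |tau P - tau R| (ce G e * t) ≤ D0 (cons e P) Q + D0 Q (cons e R) := by
  obtain ⟨i, j, h1⟩ := D0_cases (cons e P) Q
  obtain ⟨j', k, h2⟩ := D0_cases Q (cons e R)
  rw [h1, h2]
  have n1 := D1_nonneg (cons e P) Q i j
  have n2 := D1_nonneg Q (cons e R) j' k
  have hc := ce_pos (G := G) e
  have hc2 := ce_le_half (G := G) e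
  have hone : max |tau P - tau R| (ce G e * t) ≤ 1 := by
    refine max_le (tau_sub_le_one _ _) ?_
    nlinarith
  rcases es_two Q j j' with h | h
  · have e1 : es (cons e P) i ≤ D1 (cons e P) Q i j := le_max_left _ _
    have e2 : dl (el (cons e P) i) (el Q j) ≤ D1 (cons e P) Q i j :=
      le_max_of_le_right (le_max_left _ _)
    have e3 : dl (el Q j') (el (cons e R) k) ≤ D1 Q (cons e R) j' k :=
      le_max_of_le_right (le_max_left _ _)
    have e4 : es (cons e R) k ≤ D1 Q (cons e R) j' k := le_max_of_le_right (le_max_right _ _)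
    by_cases hik : i = k
    · subst hik
      refine max_le ?_ ?_
      · have s1 := es_nonneg (cons e P) i
        have s2 := es_nonneg (cons e R) i
        have : |tau P - tau R| ≤ es (cons e P) i + es (cons e R) i := by
          rw [es_cons] at s1 s2 ⊢
          rw [es_cons]
          rw [abs_le]
          split_ifs at s1 s2 ⊢ <;> constructor <;> linarith [tau_nonneg P, tau_nonneg R,
            tau_le_one P, tau_le_one R]
        linarith
      · have := ce_le_dl e P i (el Q j)
        nlinarith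
    · have h3 : dl (el (cons e P) i) (el (cons e R) k) = 1 := by
        rw [el_cons, el_cons]
        cases i <;> cases k
        · exact absurd rfl hik
        · simpa using G.dl_one e
        · simpa [dl_symm] using G.dl_one e
        · exact absurd rfl hik
      have h4 := dl_ultra (el (cons e P) i) (el Q j) (el (cons e R) k)
      rw [h3] at h4
      rcases le_max_iff.1 h4 with h5 | h5
      · linarith
      · rw [h] at h5; linarith
  · have e1 : es Q j ≤ D1 (cons e P) Q i j := le_max_of_le_right (le_max_right _ _)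
    have e2 : es Q j' ≤ D1 Q (cons e R) j' k := le_max_left _ _
    linarith

theorem df_trans_cases (P Q R : Pt G) : (∃ e P' Q' R', P = cons e P' ∧ Q = cons e Q' ∧ R = cons e R') ∨
    (∃ e P' Q', P = cons e P' ∧ Q = cons e Q' ∧ Df P R ∧ Df Q R) ∨
    (∃ e Q' R', Q = cons e Q' ∧ R = cons e R' ∧ Df P R ∧ Df P Q) ∨
    (∃ e P' R', P = cons e P' ∧ R = cons e R' ∧ Df P Q ∧ Df Q R) ∨
    (Df P Q ∧ Df Q R ∧ Df P R) := by
  rcases pair_cases P Q with ⟨e, P', Q', hP, hQ⟩ | h1
  · rcases pair_cases Q R with ⟨e', Q'', R', hQ', hR⟩ | h2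
    · left
      have := cons_inj.1 (hQ.symm.trans hQ')
      obtain ⟨rfl, rfl⟩ := this
      exact ⟨e, P', Q', R', hP, hQ, hR⟩
    · right; left
      refine ⟨e, P', Q', hP, hQ, ?_, h2⟩
      intro x hx
      apply h2 x
      refine ⟨?_, hx.2⟩
      rw [hP] at hx; rw [hQ]; exact hx.1
  · rcases pair_cases Q R with ⟨e', Q'', R', hQ', hR⟩ | h2
    · right; right; left
      refine ⟨e', Q'', R', hQ', hR, ?_, h1⟩
      intro x hx
      apply h1 x
      refine ⟨hx.1, ?_⟩
      rw [hR] at hx; rw [hQ']; exact hx.2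
    · rcases pair_cases P R with ⟨e', P'', R', hP', hR⟩ | h3
      · right; right; right; left
        exact ⟨e', P'', R', hP', hR, h1, h2⟩
      · right; right; right; right
        exact ⟨h1, h2, h3⟩

theorem dn_triangle (n : ℕ) (P Q R : Pt G) : dn n P R ≤ dn n P Q + dn n Q R := by
  induction n generalizing P Q R with
  | zero => simp [dn]
  | succ n ih =>
    rcases df_trans_cases P Q R with ⟨e, P', Q', R', rfl, rfl, rfl⟩ |
      ⟨e, P', Q', rfl, rfl, h1, h2⟩ | ⟨e, Q', R', rfl, rfl, h1, h2⟩ | ⟨e, P', R', rfl, rfl, h1, h2⟩ |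
      ⟨h1, h2, h3⟩
    · rw [dn_same, dn_same, dn_same]
      have hc := ce_pos (G := G) e
      have h1 := ih P' Q' R'
      have h2 := abs_sub_le (tau P') (tau Q') (tau R')
      have a1 := le_max_left |tau P' - tau Q'| (ce G e * dn n P' Q')
      have a2 := le_max_right |tau P' - tau Q'| (ce G e * dn n P' Q')
      have a3 := le_max_left |tau Q' - tau R'| (ce G e * dn n Q' R')
      have a4 := le_max_right |tau Q' - tau R'| (ce G e * dn n Q' R')
      refine max_le (by linarith) ?_
      have := mul_le_mul_of_nonneg_left h1 hc.le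
      linarith
    · rw [dn_df n h1, dn_df n h2, dn_same]
      have a1 := le_max_left |tau P' - tau Q'| (ce G e * dn n P' Q')
      have := D0_same_triangle e P' Q' R
      linarith
    · rw [dn_df n h1, dn_df n h2, dn_same]
      have a1 := le_max_left |tau Q' - tau R'| (ce G e * dn n Q' R')
      have := D0_same_triangle e R' Q' P
      rw [D0_symm P (cons e R'), D0_symm P (cons e Q')]
      rw [abs_sub_comm] at this
      linarith
    · rw [dn_same, dn_df n h1, dn_df n h2]
      exact D0_through e P' R' Q _ (dn_mem n P' R').2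
    · rw [dn_df n h1, dn_df n h2, dn_df n h3]
      exact D0_triangle P Q R

/-- the metric -/
noncomputable def dd (P Q : Pt G) : ℝ := ⨆ n, dn n P Q

theorem dn_tendsto (P Q : Pt G) : Tendsto (fun n => dn n P Q) atTop (𝓝 (dd P Q)) := by
  apply tendsto_atTop_ciSup
  · exact monotone_nat_of_le_succ fun n => dn_mono_succ n P Q
  · refine ⟨1, ?_⟩
    rintro _ ⟨n, rfl⟩
    exact (dn_mem n P Q).2

theorem dd_same (e : ℕ) (P Q : Pt G) :
    dd (cons e P) (cons e Q) = max |tau P - tau Q| (ce G e * dd P Q) := by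
  have h1 : Tendsto (fun n => dn (n + 1) (cons e P) (cons e Q)) atTop
      (𝓝 (dd (cons e P) (cons e Q))) := (tendsto_add_atTop_iff_nat 1).2 (dn_tendsto _ _)
  have h2 : Tendsto (fun n => max |tau P - tau Q| (ce G e * dn n P Q)) atTop
      (𝓝 (max |tau P - tau Q| (ce G e * dd P Q))) :=
    tendsto_const_nhds.max ((dn_tendsto P Q).const_mul _)
  refine tendsto_nhds_unique (h1.congr fun n => ?_) h2
  rw [dn_same]

theorem dd_df {P Q : Pt G} (h : Df P Q) : dd P Q = D0 P Q := by
  have h1 : Tendsto (fun n => dn (n + 1) P Q) atTop (𝓝 (dd P Q)) :=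
    (tendsto_add_atTop_iff_nat 1).2 (dn_tendsto _ _)
  refine tendsto_nhds_unique (h1.congr fun n => ?_) tendsto_const_nhds
  rw [dn_df n h]

theorem dd_nonneg (P Q : Pt G) : 0 ≤ dd P Q :=
  ge_of_tendsto' (dn_tendsto P Q) fun n => (dn_mem n P Q).1

theorem dd_le_one (P Q : Pt G) : dd P Q ≤ 1 :=
  le_of_tendsto' (dn_tendsto P Q) fun n => (dn_mem n P Q).2

theorem dd_self (P : Pt G) : dd P P = 0 := by
  refine tendsto_nhds_unique (dn_tendsto P P) ?_
  simp only [dn_self_le]
  exact tendsto_const_nhds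

theorem dd_symm (P Q : Pt G) : dd P Q = dd Q P := by
  refine tendsto_nhds_unique (dn_tendsto P Q) ?_
  simp only [dn_symm _ P Q]
  exact dn_tendsto Q P

theorem dd_triangle (P Q R : Pt G) : dd P R ≤ dd P Q + dd Q R :=
  le_of_tendsto_of_tendsto' (dn_tendsto P R) ((dn_tendsto P Q).add (dn_tendsto Q R))
    fun n => dn_triangle n P Q R

theorem D0_pos_cons (e : ℕ) (P Q : Pt G) : 0 < D0 (cons e P) Q := by
  obtain ⟨i, j, h⟩ := D0_cases (cons e P) Q
  rw [h]
  have h1 := ce_le_dl e P i (el Q j)
  have h2 := ce_pos (G := G) e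
  refine lt_of_lt_of_le (by linarith) (le_max_of_le_right (le_max_left _ _))

theorem D0_wp (z z' : ℕ → ℕ) : D0 (wp z : Pt G) (wp z') = dl (tz z) (tz z') := by
  obtain ⟨i, j, h⟩ := D0_cases (wp z : Pt G) (wp z')
  rw [h]
  unfold D1
  simp [es_wp, el_wp, dl_nonneg]

theorem dd_eq_zero {P Q : Pt G} (h : dd P Q = 0) : P = Q := by
  have key : ∀ n, ∀ P Q : Pt G, dd P Q = 0 → P.f n = Q.f n := by
    intro n
    induction n with
    | zero =>
      intro P Q h
      rcases pair_cases P Q with ⟨e, P', Q', rfl, rfl⟩ | hd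
      · rfl
      · rw [dd_df hd] at h
        rcases pt_cases P with ⟨e, P', rfl⟩ | ⟨z, rfl⟩
        · exact absurd h (D0_pos_cons e P' Q).ne'
        · rcases pt_cases Q with ⟨e, Q', rfl⟩ | ⟨z', rfl⟩
          · rw [D0_symm] at h
            exact absurd h (D0_pos_cons e Q' _).ne'
          · rw [D0_wp] at h
            rw [dl_tz_eq_zero h]
    | succ n ih =>
      intro P Q h
      rcases pair_cases P Q with ⟨e, P', Q', rfl, rfl⟩ | hd
      · rw [dd_same] at h
        have h1 : ce G e * dd P' Q' ≤ 0 := by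
          rw [← h]; exact le_max_right _ _
        have h2 : dd P' Q' = 0 := by
          have := ce_pos (G := G) e
          have h3 := dd_nonneg P' Q'
          by_contra hne
          have : 0 < dd P' Q' := lt_of_le_of_ne h3 (Ne.symm hne)
          nlinarith
        exact ih P' Q' h2
      · rw [dd_df hd] at h
        rcases pt_cases P with ⟨e, P', rfl⟩ | ⟨z, rfl⟩
        · exact absurd h (D0_pos_cons e P' Q).ne'
        · rcases pt_cases Q with ⟨e, Q', rfl⟩ | ⟨z', rfl⟩
          · rw [D0_symm] at h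
            exact absurd h (D0_pos_cons e Q' _).ne'
          · rw [D0_wp] at h
            rw [dl_tz_eq_zero h]
  exact Pt.ext' fun n => key n P Q h

noncomputable instance : MetricSpace (Pt G) where
  dist := dd
  dist_self := dd_self
  dist_comm := dd_symm
  dist_triangle := dd_triangle
  eq_of_dist_eq_zero := dd_eq_zero

theorem dist_same (e : ℕ) (P Q : Pt G) :
    dist (cons e P) (cons e Q) = max |tau P - tau Q| (ce G e * dist P Q) := dd_same e P Q

theorem dist_df {P Q : Pt G} (h : Df P Q) : dist P Q = D0 P Q := dd_df h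

theorem dist_le_one (P Q : Pt G) : dist P Q ≤ 1 := dd_le_one P Q

end Pool.Agent.Helper583.TC
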