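import Pool.Agent.Helper583.TCJ1
import Pool.Agent.Helper583.TCJ4
import Pool.Agent.Helper583.TCJ10
import Pool.Agent.Helper583.TCJ11
import Pool.Agent.Helper583.TCHard

/-!
The gadget of a nonempty co-analytic class as a computable presentation of Baire space.
-/

namespace Pool.Agent.Helper583.TC

variable {W : List Bool × List ℕ → Bool}

theorem primrec_Tr (hW : Primrec W) : Primrec (Tr W) := by
  have h0 : Primrec₂ (fun (ζ : List ℕ) (m : ℕ) => ζ.reverse.take m) :=
    (Primrec.list_take.comp Primrec.snd (Primrec.list_reverse.comp Primrec.fst)).to₂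
  have h1 : Primrec₂ (fun (ζ : List ℕ) (m : ℕ) => (ζ.reverse.take m).map Nat.bodd) :=
    Primrec.list_map h0 (Primrec.nat_bodd.comp Primrec.snd).to₂
  have h2 : Primrec₂ (fun (ζ : List ℕ) (m : ℕ) => (ζ.reverse.take m).map Nat.div2) :=
    Primrec.list_map h0 (Primrec.nat_div2.comp Primrec.snd).to₂
  have hq : Primrec₂ (fun (ζ : List ℕ) (m : ℕ) =>
      W ((ζ.reverse.take m).map Nat.bodd, (ζ.reverse.take m).map Nat.div2)) :=
    (hW.comp (Primrec.pair h1 h2)).to₂
  have h3 := J4.primrec_any (m := fun ζ : List ℕ => ζ.length + 1)
    (Primrec.succ.comp Primrec.list_length) hq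
  refine (Primrec.not.comp h3).of_eq fun ζ => ?_
  unfold Tr
  rw [List.not_any_eq_all_not]

theorem primrec_base (c : Bool) : Primrec (base c) := by
  have h : Primrec₂ (fun (_ : List Bool) (p : Bool × List Bool × Option (List Bool)) =>
      if p.1 = c then some p.2.1 else p.2.2) :=
    (Primrec.ite (Primrec.eq.comp (Primrec.fst.comp Primrec.snd) (Primrec.const c))
      (Primrec.option_some.comp (Primrec.fst.comp (Primrec.snd.comp Primrec.snd)))
      (Primrec.snd.comp (Primrec.snd.comp Primrec.snd))).to₂
  refine (Primrec.list_rec Primrec.id (Primrec.const none) h).of_eq fun s => ?_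
  simp only [id]
  induction s with
  | nil => rfl
  | cons b s ih => simp only [base, ih]

theorem primrec_blab (c : Bool) {α : Type} [Primcodable α] {f : α → List Bool} {g : α → ℕ}
    (hf : Primrec f) (hg : Primrec g) : Primrec fun a => blab c (f a) (g a) := by
  have h1 : Primrec₂ (fun (a : α) (s' : List Bool) =>
      0 :: Encodable.encode s' :: (List.range (g a)).map fun _ => (0 : ℕ)) :=
    (Primrec.list_cons.comp (Primrec.const 0) (Primrec.list_cons.comp
      (Primrec.encode.comp Primrec.snd)
      (Primrec.list_map (Primrec.list_range.comp (hg.comp Primrec.fst))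
        (Primrec.const 0).to₂))).to₂
  refine (Primrec.option_casesOn ((primrec_base c).comp hf) (Primrec.const ([] : List ℕ))
    h1).of_eq fun a => ?_
  unfold blab
  cases base c (f a) with
  | none => rfl
  | some s' => simp

theorem primrec_de : Primrec de := by
  have h : Primrec (Denumerable.ofNat (List ℕ × ℕ × ℕ)) := Primrec.ofNat _
  exact (Primrec.fst.comp h).pair ((Primrec.fst.comp (Primrec.snd.comp h)).pair
    (Primrec.nat_bodd.comp (Primrec.snd.comp (Primrec.snd.comp h))))

theorem primrec_de1 : Primrec fun e => (de e).1 := Primrec.fst.comp primrec_de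
theorem primrec_de2 : Primrec fun e => (de e).2.1 := Primrec.fst.comp (Primrec.snd.comp primrec_de)
theorem primrec_de3 : Primrec fun e => (de e).2.2 := Primrec.snd.comp (Primrec.snd.comp primrec_de)

theorem primrec_debits : Primrec fun e => (de e).1.map Nat.bodd :=
  Primrec.list_map primrec_de1 (Primrec.nat_bodd.comp Primrec.snd).to₂

theorem primrec_gL (hW : Primrec W) : Primrec (gL W) := by
  unfold gL
  refine Primrec.ite (Primrec.eq.comp ((primrec_Tr hW).comp primrec_de1) (Primrec.const true)) ?_
    (Primrec.const [])
  refine Primrec.ite (Primrec.eq.comp primrec_de3 (Primrec.const true)) ?_ ?_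
  · exact Primrec.list_cons.comp (Primrec.const 1) (Primrec.list_reverse.comp primrec_de1)
  · exact primrec_blab true primrec_debits primrec_de2

theorem primrec_gR (hW : Primrec W) : Primrec (gR W) := by
  unfold gR
  refine Primrec.ite (Primrec.eq.comp ((primrec_Tr hW).comp primrec_de1) (Primrec.const true)) ?_
    (Primrec.const [])
  refine Primrec.ite (Primrec.eq.comp primrec_de3 (Primrec.const true)) ?_ ?_
  · exact primrec_blab false primrec_debits primrec_de2
  · exact Primrec.list_cons.comp (Primrec.const 1) (Primrec.list_reverse.comp primrec_de1)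

theorem primrec_isNone (c : Bool) :
    Primrec fun e => (base c ((de e).1.map Nat.bodd)).isNone := by
  refine (Primrec.not.comp (Primrec.option_isSome.comp
    ((primrec_base c).comp primrec_debits))).of_eq fun e => ?_
  cases base c ((de e).1.map Nat.bodd) <;> rfl

theorem primrec_ga (hW : Primrec W) : Primrec (ga W) := by
  unfold ga
  exact Primrec.and.comp ((primrec_Tr hW).comp primrec_de1)
    (Primrec.and.comp (Primrec.not.comp primrec_de3) (primrec_isNone true))

theorem primrec_gb (hW : Primrec W) : Primrec (gb W) := by
  unfold gb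
  exact Primrec.and.comp ((primrec_Tr hW).comp primrec_de1)
    (Primrec.and.comp primrec_de3 (primrec_isNone false))

/-- the presentation of Baire space given by a nonempty class -/
noncomputable def presW (W : List Bool × List ℕ → Bool) (hW : Primrec W) (hne : ∃ y, Cls W y) : Pres :=
  haveI : CompleteSpace (Pt (GW W)) := J10.complete_pt
  { Y := Pt (GW W)
    c := cpt (GW W)
    dense := J10.dense_cpt (GW W)
    comp := J11.dist_comp (GW W) (primrec_gL hW) (primrec_gR hW) (primrec_ga hW) (primrec_gb hW)
    homeo := by
      obtain ⟨y, hy⟩ := hne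
      have : TopologicalSpace.SeparableSpace (Pt (GW W)) :=
        ⟨⟨Set.range (cpt (GW W)), Set.countable_range _, J10.dense_cpt (GW W)⟩⟩
      exact J1.baire_of_zeroDim (zero_dim hy) separated }

end Pool.Agent.Helper583.TC
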