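import Pool.Agent.Helper583.TCAgree

/-!
The gadget space: points, coordinate, metric.
-/

namespace Pool.Agent.Helper583.TC

open Filter Topology

/-- Data of a gadget: edges are numbers; labels of the two ends; which ends are attached to the two
ends of the gadget itself. -/
structure Gd where
  L : ℕ → List ℕ
  R : ℕ → List ℕ
  a : ℕ → Bool
  b : ℕ → Bool
  ha : ∀ e, a e = true → L e = []
  hb : ∀ e, b e = true → R e = []
  hab : ∀ e, a e = true → b e = false
  hd : ∀ e, L e = [] ∨ (L e).head? ≠ (R e).head?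

variable {G : Gd}

theorem Gd.dl_one (G : Gd) (e : ℕ) : dl (tl (G.L e)) (tl (G.R e)) = 1 := by
  rcases G.hd e with h | h
  · rw [h]; exact dl_nil _
  · exact dl_head h

/-- Points: sequences of edges, or a finite sequence of edges followed by a sequence of numbers. -/
structure Pt (G : Gd) where
  f : ℕ → ℕ ⊕ (ℕ → ℕ)
  hf : ∀ n z, f n = Sum.inr z → f (n + 1) = Sum.inr z

theorem Pt.ext' {P Q : Pt G} (h : ∀ n, P.f n = Q.f n) : P = Q := by
  cases P; cases Q; congr; exact funext h

/-- prepend an edge -/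
def cons (e : ℕ) (P : Pt G) : Pt G where
  f n := match n with
    | 0 => Sum.inl e
    | n + 1 => P.f n
  hf n z h := by
    cases n with
    | zero => simp at h
    | succ n => exact P.hf n z h

/-- limit point -/
def wp (z : ℕ → ℕ) : Pt G where
  f _ := Sum.inr z
  hf _ _ h := h

/-- drop the first symbol -/
def tail (P : Pt G) : Pt G where
  f n := P.f (n + 1)
  hf n z h := P.hf (n + 1) z h

@[simp] theorem tail_cons (e : ℕ) (P : Pt G) : tail (cons e P) = P := rfl

@[simp] theorem tail_wp (z : ℕ → ℕ) : tail (wp z : Pt G) = wp z := rfl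

theorem pt_cases (P : Pt G) : (∃ e Q, P = cons e Q) ∨ ∃ z, P = wp z := by
  rcases h : P.f 0 with e | z
  · left
    refine ⟨e, tail P, Pt.ext' ?_⟩
    intro n
    cases n with
    | zero => exact h
    | succ n => rfl
  · right
    refine ⟨z, Pt.ext' ?_⟩
    intro n
    induction n with
    | zero => exact h
    | succ n ih => exact P.hf n z ih

theorem cons_inj {e e' : ℕ} {P Q : Pt G} : cons e P = cons e' Q ↔ e = e' ∧ P = Q := by
  constructor
  · intro h
    have h0 : (cons e P).f 0 = (cons e' Q).f 0 := by rw [h]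
    have h1 : tail (cons e P) = tail (cons e' Q) := by rw [h]
    exact ⟨Sum.inl.inj h0, h1⟩
  · rintro ⟨rfl, rfl⟩; rfl

theorem wp_inj {z z' : ℕ → ℕ} : (wp z : Pt G) = wp z' ↔ z = z' := by
  constructor
  · intro h
    have h0 : (wp z : Pt G).f 0 = (wp z' : Pt G).f 0 := by rw [h]
    exact Sum.inr.inj h0
  · rintro rfl; rfl

theorem cons_ne_wp {e : ℕ} {P : Pt G} {z : ℕ → ℕ} : cons e P ≠ wp z := by
  intro h
  have h0 : (cons e P).f 0 = (wp z : Pt G).f 0 := by rw [h]
  simp [cons, wp] at h0

instance : Inhabited (Pt G) := ⟨wp fun _ => 0⟩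

/-! ### the coordinate -/

/-- one step of the coordinate -/
noncomputable def tstep (G : Gd) (P : Pt G) (t : ℝ) : ℝ :=
  match P.f 0 with
  | Sum.inl e => if G.a e then t / 2 else if G.b e then (1 + t) / 2 else 1 / 2
  | Sum.inr _ => 1 / 2

noncomputable def tn : ℕ → Pt G → ℝ
  | 0, _ => 1 / 2
  | n + 1, P => tstep G P (tn n (tail P))

theorem tstep_cons (e : ℕ) (P : Pt G) (t : ℝ) : tstep G (cons e P) t =
    if G.a e then t / 2 else if G.b e then (1 + t) / 2 else 1 / 2 := rfl

theorem tstep_wp (z : ℕ → ℕ) (t : ℝ) : tstep G (wp z) t = 1 / 2 := rfl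

theorem tstep_lip (P : Pt G) (s t : ℝ) : |tstep G P s - tstep G P t| ≤ |s - t| / 2 := by
  rcases pt_cases P with ⟨e, Q, rfl⟩ | ⟨z, rfl⟩
  · simp only [tstep_cons]
    split_ifs
    · rw [← sub_div, abs_div, abs_of_pos (by norm_num : (0:ℝ) < 2)]
    · rw [← sub_div, abs_div, abs_of_pos (by norm_num : (0:ℝ) < 2)]; ring_nf; exact le_rfl
    · simp; positivity
  · simp [tstep_wp]; positivity

theorem tn_succ_sub (n : ℕ) (P : Pt G) : |tn (n + 1) P - tn n P| ≤ 1 / 2 / 2 ^ n := by
  induction n generalizing P with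
  | zero =>
    simp only [tn]
    rcases pt_cases P with ⟨e, Q, rfl⟩ | ⟨z, rfl⟩
    · simp only [tstep_cons]
      split_ifs <;> norm_num [abs_le]
    · simp [tstep_wp]
  | succ n ih =>
    have h := tstep_lip P (tn (n + 1) (tail P)) (tn n (tail P))
    have h2 := ih (tail P)
    have h3 : tn (n + 1 + 1) P - tn (n + 1) P =
      tstep G P (tn (n + 1) (tail P)) - tstep G P (tn n (tail P)) := rfl
    rw [h3]
    calc _ ≤ _ := h
      _ ≤ 1 / 2 / 2 ^ n / 2 := by linarith
      _ = _ := by rw [pow_succ]; field_simp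

theorem tn_cauchy (P : Pt G) : CauchySeq fun n => tn n P := by
  apply cauchySeq_of_le_geometric_two (C := 1)
  intro n
  rw [dist_comm, Real.dist_eq]
  exact tn_succ_sub n P

/-- the coordinate of a point between the two ends of the gadget -/
noncomputable def tau (P : Pt G) : ℝ := limUnder atTop fun n => tn n P

theorem tn_tendsto (P : Pt G) : Tendsto (fun n => tn n P) atTop (𝓝 (tau P)) :=
  (tn_cauchy P).tendsto_limUnder

theorem tau_eq (P : Pt G) : tau P = tstep G P (tau (tail P)) := by
  have h1 : Tendsto (fun n => tn (n + 1) P) atTop (𝓝 (tau P)) :=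
    (tendsto_add_atTop_iff_nat 1).2 (tn_tendsto P)
  have h2 : Tendsto (fun n => tn (n + 1) P) atTop (𝓝 (tstep G P (tau (tail P)))) := by
    rw [tendsto_iff_dist_tendsto_zero]
    have h3 := (tendsto_iff_dist_tendsto_zero.1 (tn_tendsto (tail P)))
    refine squeeze_zero (fun _ => dist_nonneg) (fun n => ?_) h3
    rw [Real.dist_eq, Real.dist_eq]
    have := tstep_lip P (tn n (tail P)) (tau (tail P))
    have h4 : (0:ℝ) ≤ |tn n (tail P) - tau (tail P)| := abs_nonneg _
    calc _ ≤ _ := this
      _ ≤ _ := by linarith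
  exact tendsto_nhds_unique h1 h2

theorem tau_cons (e : ℕ) (P : Pt G) : tau (cons e P) =
    if G.a e then tau P / 2 else if G.b e then (1 + tau P) / 2 else 1 / 2 := by
  rw [tau_eq, tstep_cons, tail_cons]

theorem tau_wp (z : ℕ → ℕ) : tau (wp z : Pt G) = 1 / 2 := by
  rw [tau_eq, tstep_wp]

theorem tn_mem (n : ℕ) (P : Pt G) : 0 ≤ tn n P ∧ tn n P ≤ 1 := by
  induction n generalizing P with
  | zero => simp only [tn]; norm_num
  | succ n ih =>
    simp only [tn]
    have := ih (tail P)
    rcases pt_cases P with ⟨e, Q, rfl⟩ | ⟨z, rfl⟩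
    · simp only [tstep_cons]
      split_ifs <;> constructor <;> linarith
    · simp only [tstep_wp]; norm_num

theorem tau_nonneg (P : Pt G) : 0 ≤ tau P :=
  ge_of_tendsto' (tn_tendsto P) fun n => (tn_mem n P).1

theorem tau_le_one (P : Pt G) : tau P ≤ 1 :=
  le_of_tendsto' (tn_tendsto P) fun n => (tn_mem n P).2

/-! ### ends -/

/-- distance of a point to an end of its edge -/
noncomputable def es (P : Pt G) (i : Bool) : ℝ :=
  match P.f 0 with
  | Sum.inl _ => if i then 1 - tau (tail P) else tau (tail P)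
  | Sum.inr _ => 0

/-- label of an end of the edge of a point -/
def el (P : Pt G) (i : Bool) : ℕ → Option ℕ :=
  match P.f 0 with
  | Sum.inl e => if i then tl (G.R e) else tl (G.L e)
  | Sum.inr z => tz z

theorem es_cons (e : ℕ) (P : Pt G) (i : Bool) :
    es (cons e P) i = if i then 1 - tau P else tau P := rfl

theorem es_wp (z : ℕ → ℕ) (i : Bool) : es (wp z : Pt G) i = 0 := rfl

theorem el_cons (e : ℕ) (P : Pt G) (i : Bool) :
    el (cons e P) i = if i then tl (G.R e) else tl (G.L e) := rfl

theorem el_wp (z : ℕ → ℕ) (i : Bool) : el (wp z : Pt G) i = tz z := rfl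

theorem es_nonneg (P : Pt G) (i : Bool) : 0 ≤ es P i := by
  rcases pt_cases P with ⟨e, Q, rfl⟩ | ⟨z, rfl⟩
  · rw [es_cons]; split_ifs
    · linarith [tau_le_one Q]
    · exact tau_nonneg Q
  · rw [es_wp]

theorem es_le_one (P : Pt G) (i : Bool) : es P i ≤ 1 := by
  rcases pt_cases P with ⟨e, Q, rfl⟩ | ⟨z, rfl⟩
  · rw [es_cons]; split_ifs
    · linarith [tau_nonneg Q]
    · exact tau_le_one Q
  · rw [es_wp]; norm_num

/-- distance of two points of different edges through the given ends -/
noncomputable def D1 (P Q : Pt G) (i j : Bool) : ℝ :=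
  max (es P i) (max (dl (el P i) (el Q j)) (es Q j))

/-- distance of two points of different edges -/
noncomputable def D0 (P Q : Pt G) : ℝ :=
  min (min (D1 P Q false false) (D1 P Q false true)) (min (D1 P Q true false) (D1 P Q true true))

theorem D0_le (P Q : Pt G) (i j : Bool) : D0 P Q ≤ D1 P Q i j := by
  unfold D0
  cases i <;> cases j
  · exact le_trans (min_le_left _ _) (min_le_left _ _)
  · exact le_trans (min_le_left _ _) (min_le_right _ _)
  · exact le_trans (min_le_right _ _) (min_le_left _ _)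
  · exact le_trans (min_le_right _ _) (min_le_right _ _)

theorem D0_cases (P Q : Pt G) : ∃ i j, D0 P Q = D1 P Q i j := by
  unfold D0
  rcases min_choice (min (D1 P Q false false) (D1 P Q false true))
    (min (D1 P Q true false) (D1 P Q true true)) with h | h
  · rw [h]
    rcases min_choice (D1 P Q false false) (D1 P Q false true) with h | h
    · exact ⟨_, _, h⟩
    · exact ⟨_, _, h⟩
  · rw [h]
    rcases min_choice (D1 P Q true false) (D1 P Q true true) with h | h
    · exact ⟨_, _, h⟩
    · exact ⟨_, _, h⟩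

theorem D1_le_one (P Q : Pt G) (i j : Bool) : D1 P Q i j ≤ 1 :=
  max_le (es_le_one _ _) (max_le (dl_le_one _ _) (es_le_one _ _))

theorem D1_nonneg (P Q : Pt G) (i j : Bool) : 0 ≤ D1 P Q i j :=
  le_max_of_le_left (es_nonneg _ _)

theorem D0_le_one (P Q : Pt G) : D0 P Q ≤ 1 := le_trans (D0_le P Q true true) (D1_le_one _ _ _ _)

theorem D0_nonneg (P Q : Pt G) : 0 ≤ D0 P Q := by
  obtain ⟨i, j, h⟩ := D0_cases P Q; rw [h]; exact D1_nonneg _ _ _ _

theorem D1_symm (P Q : Pt G) (i j : Bool) : D1 P Q i j = D1 Q P j i := by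
  unfold D1
  rw [dl_symm]
  rw [max_comm (dl _ _) (es Q j), ← max_assoc, max_comm (es P i), max_assoc,
    max_comm (es P i) (dl _ _)]

theorem D0_symm (P Q : Pt G) : D0 P Q = D0 Q P := by
  apply le_antisymm
  · obtain ⟨i, j, h⟩ := D0_cases Q P
    rw [h, D1_symm]; exact D0_le _ _ _ _
  · obtain ⟨i, j, h⟩ := D0_cases P Q
    rw [h, D1_symm]; exact D0_le _ _ _ _

/-- either the two chosen ends have the same label or the sum of the distances is one -/
theorem es_two (P : Pt G) (i j : Bool) : el P i = el P j ∨ es P i + es P j = 1 := by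
  rcases pt_cases P with ⟨e, Q, rfl⟩ | ⟨z, rfl⟩
  · cases i <;> cases j
    · left; rfl
    · right; simp [es_cons]
    · right; simp [es_cons]
    · left; rfl
  · left; rfl

theorem D0_triangle (P Q R : Pt G) : D0 P R ≤ D0 P Q + D0 Q R := by
  obtain ⟨i, j, h1⟩ := D0_cases P Q
  obtain ⟨j', k, h2⟩ := D0_cases Q R
  rw [h1, h2]
  have n1 := D1_nonneg P Q i j
  have n2 := D1_nonneg Q R j' k
  rcases es_two Q j j' with h | h
  · refine le_trans (D0_le P R i k) ?_
    have e1 : es P i ≤ D1 P Q i j := le_max_left _ _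
    have e2 : dl (el P i) (el Q j) ≤ D1 P Q i j := le_max_of_le_right (le_max_left _ _)
    have e3 : dl (el Q j') (el R k) ≤ D1 Q R j' k := le_max_of_le_right (le_max_left _ _)
    have e4 : es R k ≤ D1 Q R j' k := le_max_of_le_right (le_max_right _ _)
    refine max_le (by linarith) (max_le ?_ (by linarith))
    refine le_trans (dl_ultra _ (el Q j) _) (max_le (by linarith) ?_)
    rw [h]; linarith
  · have e1 : es Q j ≤ D1 P Q i j := le_max_of_le_right (le_max_right _ _)
    have e2 : es Q j' ≤ D1 Q R j' k := le_max_left _ _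
    linarith [D0_le_one P R]

end Pool.Agent.Helper583.TC
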