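import Mathlib

/-!
Topological categoricity of Baire space: the definitions used in the statement.
-/

namespace Pool.Agent.Helper583.TC

/-- The finite word of the first `n` values of `x`. -/
def pre {A : Type} (x : ℕ → A) (n : ℕ) : List A := (List.range n).map x

/-- A total function of natural numbers, made into an oracle. -/
def orc (x : ℕ → ℕ) : ℕ →. ℕ := fun n => Part.some (x n)

/-- Turing reducibility between total functions: `x` is recursive in `y`. -/
def Red (x y : ℕ → ℕ) : Prop := Nat.RecursiveIn {orc y} (orc x)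

/-- A computable presentation of Baire space: a complete metric space with a dense sequence whose
mutual distances are uniformly computable reals, homeomorphic to `ℕ → ℕ`. -/
structure Pres where
  Y : Type
  [ms : MetricSpace Y]
  [cs : CompleteSpace Y]
  c : ℕ → Y
  dense : DenseRange c
  comp : ∃ q : ℕ × ℕ × ℕ → ℕ, Computable q ∧
    ∀ i j k, |dist (c i) (c j) - (q (i, j, k) : ℝ) / 2 ^ k| ≤ 1 / 2 ^ k
  homeo : Nonempty (Y ≃ₜ (ℕ → ℕ))

attribute [instance] Pres.ms Pres.cs

/-- `p` is a fast Cauchy name of the point `x`. -/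
def IsName (M : Pres) (p : ℕ → ℕ) (x : M.Y) : Prop := ∀ k, dist (M.c (p k)) x < 1 / 2 ^ k

/-- The map `h` is computable relative to the oracle `a`: one functional, recursive in `a`, sends
every name of every point `x` to a name of `h x`. -/
def CompMap (a : ℕ → ℕ) (M N : Pres) (h : M.Y → N.Y) : Prop :=
  ∃ φ : List ℕ × ℕ →. ℕ, RecursiveIn {orc a} φ ∧
    ∀ x p, IsName M p x → ∃ q, IsName N q (h x) ∧
      ∀ n, (∃ k, q n ∈ φ (pre p k, n)) ∧ ∀ k m, m ∈ φ (pre p k, n) → m = q n

/-- Baire space is `a`-categorical. -/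
def Cat (a : ℕ → ℕ) : Prop :=
  ∀ M N : Pres, ∃ h : M.Y ≃ₜ N.Y, CompMap a M N h ∧ CompMap a N M h.symm

end Pool.Agent.Helper583.TC
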