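import Pool.Agent.Helper583.TCGad

/-!
The gadget space of a nonempty class is zero-dimensional and nowhere locally compact.
-/

namespace Pool.Agent.Helper583.TC

open Filter Topology

section general

variable {G : Gd}

/-- a set is clopen as soon as membership is locally constant -/
theorem isClopen_of_local {S : Set (Pt G)}
    (h : ∀ P : Pt G, ∃ r > 0, ∀ Q, dist Q P < r → (Q ∈ S ↔ P ∈ S)) : IsClopen S := by
  constructor
  · rw [← isOpen_compl_iff, Metric.isOpen_iff]
    intro P hP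
    obtain ⟨r, hr, h⟩ := h P
    exact ⟨r, hr, fun Q hQ hQS => hP ((h Q hQ).1 hQS)⟩
  · rw [Metric.isOpen_iff]
    intro P hP
    obtain ⟨r, hr, h⟩ := h P
    exact ⟨r, hr, fun Q hQ => (h Q hQ).2 hP⟩

theorem local_of_isClopen {S : Set (Pt G)} (hS : IsClopen S) (P : Pt G) :
    ∃ r > 0, ∀ Q, dist Q P < r → (Q ∈ S ↔ P ∈ S) := by
  by_cases hP : P ∈ S
  · obtain ⟨r, hr, h⟩ := Metric.isOpen_iff.1 hS.2 P hP
    exact ⟨r, hr, fun Q hQ => ⟨fun _ => hP, fun _ => h hQ⟩⟩
  · obtain ⟨r, hr, h⟩ := Metric.isOpen_iff.1 (isOpen_compl_iff.2 hS.1) P hP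
    exact ⟨r, hr, fun Q hQ => ⟨fun hQS => absurd hQS (h hQ), fun h' => absurd h' hP⟩⟩

/-- neighbourhoods of `cons e P` -/
theorem near_cons (e : ℕ) (P : Pt G) {r : ℝ} (hr : 0 < r) : ∃ r' > 0, ∀ Q, dist Q (cons e P) < r' →
    ∃ Q', Q = cons e Q' ∧ dist Q' P < r := by
  have hc := ce_pos (G := G) e
  refine ⟨min (2 * ce G e) (ce G e * r), lt_min (by linarith) (by positivity), ?_⟩
  intro Q hQ
  rw [dist_comm] at hQ
  obtain ⟨Q', rfl⟩ := eq_cons_of_dist (lt_of_lt_of_le hQ (min_le_left _ _))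
  refine ⟨Q', rfl, ?_⟩
  have h1 := ce_dist_le e P Q'
  have h2 := lt_of_lt_of_le hQ (min_le_right _ _)
  rw [dist_comm]
  exact lt_of_mul_lt_mul_left (lt_of_le_of_lt h1 h2) hc.le

/-- neighbourhoods of `wp z` -/
theorem near_wp {z : ℕ → ℕ} {Q : Pt G} {n : ℕ} (h : dist Q (wp z) < (1 / 2) ^ n) :
    (∃ z', Q = wp z' ∧ Ag (tz z) (tz z') n) ∨
    ∃ e Q' i, Q = cons e Q' ∧ es (cons e Q') i < (1 / 2) ^ n ∧ Ag (tl (lab G e i)) (tz z) n := by
  rcases pt_cases Q with ⟨e, Q', rfl⟩ | ⟨z', rfl⟩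
  · right
    obtain ⟨i, hi⟩ := dist_wp_cons (G := G) (z := z) (e := e) (P := Q')
    rw [hi] at h
    refine ⟨e, Q', i, rfl, lt_of_le_of_lt (le_max_left _ _) h, ?_⟩
    rw [← dl_le_iff, ← el_cons' e Q' i]
    exact (lt_of_le_of_lt (le_max_right _ _) h).le
  · left
    refine ⟨z', rfl, ?_⟩
    rw [dist_wp_wp, dl_symm] at h
    exact dl_le_iff.1 h.le

theorem es_half {e : ℕ} {Q : Pt G} {i : Bool} {n : ℕ} (h : es (cons e Q) i < (1 / 2) ^ n) :
    (i = false ∧ tau Q < (1 / 2) ^ n) ∨ (i = true ∧ 1 - tau Q < (1 / 2) ^ n) := by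
  rw [es_cons] at h
  cases i
  · left; simpa using h
  · right; simpa using h

/-- image of a clopen set in an edge -/
theorem isClopen_cons {S : Set (Pt G)} (hS : IsClopen S) (e : ℕ) : IsClopen (cons e '' S) := by
  apply isClopen_of_local
  intro P
  by_cases h : ∃ P', P = cons e P'
  · obtain ⟨P', rfl⟩ := h
    obtain ⟨r, hr, hl⟩ := local_of_isClopen hS P'
    obtain ⟨r', hr', hl'⟩ := near_cons e P' hr
    refine ⟨r', hr', fun Q hQ => ?_⟩
    obtain ⟨Q', rfl, hQ'⟩ := hl' Q hQ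
    have := hl Q' hQ'
    constructor
    · rintro ⟨x, hx, hxe⟩
      obtain rfl := (cons_inj.1 hxe).2
      exact ⟨P', this.1 hx, rfl⟩
    · rintro ⟨x, hx, hxe⟩
      obtain rfl := (cons_inj.1 hxe).2
      exact ⟨Q', this.2 hx, rfl⟩
  · refine ⟨2 * ce G e, by have := ce_pos (G := G) e; linarith, fun Q hQ => ?_⟩
    constructor
    · rintro ⟨x, _, rfl⟩
      exact absurd (eq_cons_of_dist hQ) h
    · rintro ⟨x, _, rfl⟩
      exact absurd ⟨x, rfl⟩ h

theorem isClopen_consL {S : Set (Pt G)} (hS : IsClopen S) (t : List ℕ) :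
    IsClopen (consL t '' S) := by
  induction t with
  | nil => simpa using hS
  | cons e t ih =>
    have := isClopen_cons ih e
    rwa [Set.image_image] at this

theorem prefix_cases (P : Pt G) (n : ℕ) : (∃ t z, P = consL t (wp z)) ∨
    ∃ t P', t.length = n ∧ P = consL t P' := by
  induction n generalizing P with
  | zero => right; exact ⟨[], P, rfl, rfl⟩
  | succ n ih =>
    rcases pt_cases P with ⟨e, Q, rfl⟩ | ⟨z, rfl⟩
    · rcases ih Q with ⟨t, z, rfl⟩ | ⟨t, P', ht, rfl⟩
      · left; exact ⟨e :: t, z, rfl⟩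
      · right; exact ⟨e :: t, P', by simp [ht], rfl⟩
    · left; exact ⟨[], z, rfl⟩

/-- zero-dimensionality follows from small clopen neighbourhoods of the points `wp z` -/
theorem zero_dim_of (h : ∀ (z : ℕ → ℕ) (n : ℕ), 1 ≤ n → ∃ C : Set (Pt G), IsClopen C ∧ wp z ∈ C ∧
    ∀ Q ∈ C, dist Q (wp z) ≤ (1 / 2) ^ n) (P : Pt G) (ε : ℝ) (hε : 0 < ε) :
    ∃ C : Set (Pt G), IsClopen C ∧ P ∈ C ∧ C ⊆ Metric.ball P ε := by
  obtain ⟨n, hn⟩ := exists_pow_lt_of_lt_one (show (0:ℝ) < ε / 2 by linarith)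
    (by norm_num : (1:ℝ) / 2 < 1)
  rcases prefix_cases P n with ⟨t, z, rfl⟩ | ⟨t, P', ht, rfl⟩
  · obtain ⟨C, hC, hz, hs⟩ := h z (n + 1) (by omega)
    refine ⟨consL t '' C, isClopen_consL hC t, ⟨_, hz, rfl⟩, ?_⟩
    rintro _ ⟨Q, hQ, rfl⟩
    rw [Metric.mem_ball]
    have h1 := dist_consL_le t Q (wp z)
    have h2 := hs Q hQ
    have h3 : ((1:ℝ) / 2) ^ (n + 1) ≤ (1 / 2) ^ n :=
      pow_le_pow_of_le_one (by norm_num) (by norm_num) (by omega)
    linarith
  · refine ⟨consL t '' Set.univ, isClopen_consL isClopen_univ t, ⟨P', trivial, rfl⟩, ?_⟩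
    rintro _ ⟨Q, _, rfl⟩
    rw [Metric.mem_ball]
    have h1 := dist_prefix t Q P'
    rw [ht] at h1
    linarith

theorem consL_lower (t : List ℕ) : ∃ c > 0, ∀ P Q : Pt G, c * dist P Q ≤
    dist (consL t P) (consL t Q) := by
  induction t with
  | nil => exact ⟨1, one_pos, fun P Q => by simp⟩
  | cons e t ih =>
    obtain ⟨c, hc, h⟩ := ih
    have he := ce_pos (G := G) e
    refine ⟨ce G e * c, by positivity, fun P Q => ?_⟩
    refine le_trans ?_ (ce_dist_le e _ _)
    rw [mul_assoc]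
    exact mul_le_mul_of_nonneg_left (h P Q) he.le

/-- no open set is relatively compact: infinite separated sequences -/
theorem separated (U : Set (Pt G)) (hU : IsOpen U) (hne : U.Nonempty) :
    ∃ (u : ℕ → Pt G) (r : ℝ), 0 < r ∧ (∀ n, u n ∈ U) ∧ ∀ m n, m ≠ n → r ≤ dist (u m) (u n) := by
  obtain ⟨P, hP⟩ := hne
  obtain ⟨ε, hε, hb⟩ := Metric.isOpen_iff.1 hU P hP
  obtain ⟨N, hN⟩ := exists_pow_lt_of_lt_one (show (0:ℝ) < ε / 4 by linarith)
    (by norm_num : (1:ℝ) / 2 < 1)
  have hclose : ∃ t z, dist (consL t (wp z)) P < ε / 2 := by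
    rcases prefix_cases P N with ⟨t, z, rfl⟩ | ⟨t, P', ht, rfl⟩
    · exact ⟨t, z, by simpa using by linarith⟩
    · refine ⟨t, fun _ => 0, ?_⟩
      have h1 := dist_prefix t (wp fun _ => 0) P'
      rw [ht] at h1
      linarith
  obtain ⟨t, z, hz⟩ := hclose
  obtain ⟨c, hc, hlow⟩ := consL_lower (G := G) t
  refine ⟨fun k => consL t (wp (Function.update z N k)), c * (1 / 2) ^ N, by positivity, ?_, ?_⟩
  · intro k
    apply hb
    rw [Metric.mem_ball]
    have h1 := dist_consL_le t (wp (Function.update z N k) : Pt G) (wp z)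
    have h2 : dist (wp (Function.update z N k) : Pt G) (wp z) ≤ (1 / 2) ^ N := by
      rw [dist_wp_wp, dl_le_iff]
      intro i hi
      simp [tz, Function.update_of_ne hi.ne]
    have h3 := dist_triangle (consL t (wp (Function.update z N k))) (consL t (wp z)) P
    linarith
  · intro k l hkl
    refine le_trans ?_ (hlow _ _)
    apply mul_le_mul_of_nonneg_left _ hc.le
    rw [dist_wp_wp]
    rcases dl_cases (tz (Function.update z N k)) (tz (Function.update z N l)) with
      ⟨_, h⟩ | ⟨n, h1, h2, _⟩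
    · have := (h (N + 1) N (by omega)).1
      simp [tz] at this
      exact absurd this hkl
    · rw [h1]
      apply pow_le_pow_of_le_one (by norm_num) (by norm_num)
      by_contra hc
      have := (h2 N (by omega)).1
      simp [tz] at this
      exact hkl this

end general

variable {W : List Bool × List ℕ → Bool}

/-- the canonical cut -/
def Cut (W : List Bool × List ℕ → Bool) (y : ℕ → Bool) : Set (Pt (GW W)) :=
  {P | (∃ e Q, P = cons e Q ∧ sE W y e) ∨ ∃ z, P = wp z ∧ sZ W y z}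

theorem mem_Cut_cons {y : ℕ → Bool} {e : ℕ} {Q : Pt (GW W)} :
    cons e Q ∈ Cut W y ↔ sE W y e := by
  constructor
  · rintro (⟨e', Q', h, hs⟩ | ⟨z, h, _⟩)
    · obtain ⟨rfl, _⟩ := cons_inj.1 h; exact hs
    · exact absurd h cons_ne_wp
  · intro h; exact Or.inl ⟨e, Q, rfl, h⟩

theorem mem_Cut_wp {y : ℕ → Bool} {z : ℕ → ℕ} :
    (wp z : Pt (GW W)) ∈ Cut W y ↔ sZ W y z := by
  constructor
  · rintro (⟨e', Q', h, _⟩ | ⟨z', h, hs⟩)
    · exact absurd h.symm cons_ne_wp
    · obtain rfl := wp_inj.1 h; exact hs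
  · intro h; exact Or.inr ⟨z, rfl, h⟩

theorem isClopen_Cut {y : ℕ → Bool} (hy : Cls W y) : IsClopen (Cut W y) := by
  apply isClopen_of_local
  intro P
  rcases pt_cases P with ⟨e, P', rfl⟩ | ⟨z, rfl⟩
  · obtain ⟨r, hr, h⟩ := near_cons e P' one_pos
    refine ⟨r, hr, fun Q hQ => ?_⟩
    obtain ⟨Q', rfl, _⟩ := h Q hQ
    rw [mem_Cut_cons, mem_Cut_cons]
  · obtain ⟨n, h1, h2⟩ := side_local hy z
    refine ⟨(1 / 2) ^ n, by positivity, fun Q hQ => ?_⟩
    rcases near_wp hQ with ⟨z', rfl, hA⟩ | ⟨e, Q', i, rfl, _, hA⟩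
    · rw [mem_Cut_wp, mem_Cut_wp]; exact h2 z' hA
    · rw [mem_Cut_cons, mem_Cut_wp]; exact h1 e i hA

theorem a_side {y : ℕ → Bool} {e : ℕ} (h : (GW W).a e = true) : sE W y e := by
  simp only [GW, ga, Bool.and_eq_true, Option.isNone_iff_eq_none, Bool.not_eq_true'] at h
  intro _
  rw [h.2.1]
  simpa using base_true_none h.2.2

theorem b_side {y : ℕ → Bool} {e : ℕ} (h : (GW W).b e = true) : ¬ sE W y e := by
  simp only [GW, gb, Bool.and_eq_true, Option.isNone_iff_eq_none] at h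
  intro hs
  have := hs h.1
  rw [h.2.1] at this
  exact base_false_none h.2.2 (by simpa using this)

theorem Cut_le {y : ℕ → Bool} {P : Pt (GW W)} (h : P ∈ Cut W y) : tau P ≤ 1 / 2 := by
  rcases pt_cases P with ⟨e, P', rfl⟩ | ⟨z, rfl⟩
  · rw [mem_Cut_cons] at h
    rw [tau_cons]
    split_ifs with h1 h2
    · linarith [tau_le_one P']
    · exact absurd h (b_side h2)
    · exact le_rfl
  · rw [tau_wp]

theorem Cut_ge {y : ℕ → Bool} {P : Pt (GW W)} (h : P ∉ Cut W y) : 1 / 2 ≤ tau P := by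
  rcases pt_cases P with ⟨e, P', rfl⟩ | ⟨z, rfl⟩
  · rw [mem_Cut_cons] at h
    rw [tau_cons]
    split_ifs with h1 h2
    · exact absurd (a_side h1) h
    · linarith [tau_nonneg P']
    · exact le_rfl
  · rw [tau_wp]

/-- deep parts near the left end (`c = false`) or the right end (`c = true`) -/
def CC (W : List Bool × List ℕ → Bool) (y : ℕ → Bool) (c : Bool) : ℕ → Set (Pt (GW W))
  | 0 => if c then (Cut W y)ᶜ else Cut W y
  | n + 1 => {P | ∃ e P', P = cons e P' ∧ (if c then (GW W).b e else (GW W).a e) = true ∧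
      P' ∈ CC W y c n}

/-- distance to the chosen end -/
noncomputable def ev {G : Gd} (c : Bool) (P : Pt G) : ℝ := if c then 1 - tau P else tau P

theorem ev_cons_of {c : Bool} {e : ℕ} {P : Pt (GW W)}
    (h : (if c then (GW W).b e else (GW W).a e) = true) : ev c (cons e P) = ev c P / 2 := by
  unfold ev
  cases c
  · simp only [Bool.false_eq_true, if_false] at h ⊢
    rw [tau_cons, if_pos h]
  · simp only [if_true] at h ⊢
    have ha : (GW W).a e ≠ true := by
      intro ha
      have := (GW W).hab e ha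
      rw [h] at this; simp at this
    rw [tau_cons, if_neg ha, if_pos h]; ring

theorem ev_cons_not {c : Bool} {e : ℕ} {P : Pt (GW W)}
    (h : ¬ (if c then (GW W).b e else (GW W).a e) = true) : 1 / 2 ≤ ev c (cons e P) := by
  unfold ev
  have h0 := tau_nonneg P
  have h1 := tau_le_one P
  cases c
  · simp only [Bool.false_eq_true, if_false] at h ⊢
    rw [tau_cons, if_neg h]
    split_ifs <;> linarith
  · simp only [if_true] at h ⊢
    rw [tau_cons]
    split_ifs <;> linarith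

theorem CC_le {y : ℕ → Bool} {c : Bool} {n : ℕ} {P : Pt (GW W)} (h : P ∈ CC W y c n) :
    ev c P ≤ (1 / 2) ^ (n + 1) := by
  induction n generalizing P with
  | zero =>
    unfold ev
    cases c
    · simp only [CC, Bool.false_eq_true, if_false] at h ⊢
      simpa using Cut_le h
    · simp only [CC, if_true] at h ⊢
      have := Cut_ge h
      norm_num; linarith
  | succ n ih =>
    obtain ⟨e, P', rfl, he, hP⟩ := h
    rw [ev_cons_of he, pow_succ]
    linarith [ih hP]

theorem CC_of_lt {y : ℕ → Bool} {c : Bool} {n : ℕ} {P : Pt (GW W)}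
    (h : ev c P < (1 / 2) ^ (n + 1)) : P ∈ CC W y c n := by
  induction n generalizing P with
  | zero =>
    unfold ev at h
    cases c
    · simp only [CC, Bool.false_eq_true, if_false] at h ⊢
      by_contra hc
      have := Cut_ge hc
      norm_num at h; linarith
    · simp only [CC, if_true] at h ⊢
      intro hc
      have := Cut_le hc
      norm_num at h; linarith
  | succ n ih =>
    have hhalf : ((1:ℝ) / 2) ^ (n + 1 + 1) ≤ 1 / 2 := by
      calc ((1:ℝ) / 2) ^ (n + 1 + 1) ≤ (1 / 2) ^ 1 :=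
            pow_le_pow_of_le_one (by norm_num) (by norm_num) (by omega)
        _ = 1 / 2 := by norm_num
    rcases pt_cases P with ⟨e, P', rfl⟩ | ⟨z, rfl⟩
    · by_cases he : (if c then (GW W).b e else (GW W).a e) = true
      · refine ⟨e, P', rfl, he, ih ?_⟩
        rw [ev_cons_of he, pow_succ] at h
        linarith
      · have := ev_cons_not (P := P') he
        linarith
    · have : ev c (wp z : Pt (GW W)) = 1 / 2 := by
        unfold ev; rw [tau_wp]; split_ifs <;> norm_num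
      linarith

theorem es_eq_ev {G : Gd} (e : ℕ) (P : Pt G) (i : Bool) : es (cons e P) i = ev i P := by
  rw [es_cons]; rfl

theorem ev_add {G : Gd} (c : Bool) (P : Pt G) : ev c P + ev (!c) P = 1 := by
  unfold ev; cases c <;> simp

theorem isClopen_CC {y : ℕ → Bool} (hy : Cls W y) (c : Bool) (n : ℕ) : IsClopen (CC W y c n) := by
  induction n with
  | zero =>
    cases c
    · simpa [CC] using isClopen_Cut hy
    · simpa [CC] using (isClopen_Cut hy).compl
  | succ n ih =>
    apply isClopen_of_local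
    intro P
    rcases pt_cases P with ⟨e, P', rfl⟩ | ⟨z, rfl⟩
    · obtain ⟨r, hr, hl⟩ := local_of_isClopen ih P'
      obtain ⟨r', hr', h⟩ := near_cons e P' hr
      refine ⟨r', hr', fun Q hQ => ?_⟩
      obtain ⟨Q', rfl, hd⟩ := h Q hQ
      have := hl Q' hd
      constructor
      · rintro ⟨e', x, hx, he, hm⟩
        obtain ⟨rfl, rfl⟩ := cons_inj.1 hx
        exact ⟨_, _, rfl, he, this.1 hm⟩
      · rintro ⟨e', x, hx, he, hm⟩
        obtain ⟨rfl, rfl⟩ := cons_inj.1 hx
        exact ⟨_, _, rfl, he, this.2 hm⟩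
    · refine ⟨(1 / 2) ^ 1, by positivity, fun Q hQ => ?_⟩
      have hz : (wp z : Pt (GW W)) ∉ CC W y c (n + 1) := by
        rintro ⟨e, x, hx, _⟩
        exact cons_ne_wp hx.symm
      have hQn : Q ∉ CC W y c (n + 1) := by
        rintro ⟨e, x, rfl, he, hm⟩
        rcases near_wp hQ with ⟨z', h, _⟩ | ⟨e', Q', i, h, hes, hA⟩
        · exact cons_ne_wp h
        · obtain ⟨rfl, rfl⟩ := cons_inj.1 h
          rw [es_eq_ev] at hes
          have hle := CC_le hm
          have hle2 : ((1:ℝ) / 2) ^ (n + 1) ≤ 1 / 2 := by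
            calc ((1:ℝ) / 2) ^ (n + 1) ≤ (1 / 2) ^ 1 :=
                  pow_le_pow_of_le_one (by norm_num) (by norm_num) (by omega)
              _ = 1 / 2 := by norm_num
          have hadd := ev_add c x
          by_cases hic : i = c
          · subst hic
            have hnil : lab (GW W) e i = [] := by
              cases i
              · exact (GW W).ha e (by simpa using he)
              · exact (GW W).hb e (by simpa using he)
            rw [hnil] at hA
            have := Ag_tl_length hA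
            simp at this
          · have : i = !c := by cases i <;> cases c <;> simp_all
            rw [this] at hes
            norm_num at hes
            linarith
      exact ⟨fun h => absurd h hQn, fun h => absurd h hz⟩

/-- small clopen neighbourhoods of the limit points -/
def Nz (W : List Bool × List ℕ → Bool) (y : ℕ → Bool) (z : ℕ → ℕ) (n : ℕ) : Set (Pt (GW W)) :=
  {P | (∃ z', P = wp z' ∧ Ag (tz z) (tz z') n) ∨
    ∃ e P' i, P = cons e P' ∧ Ag (tl (lab (GW W) e i)) (tz z) n ∧ P' ∈ CC W y i n}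

theorem isClopen_Nz {y : ℕ → Bool} (hy : Cls W y) (z : ℕ → ℕ) {n : ℕ} (hn : 1 ≤ n) :
    IsClopen (Nz W y z n) := by
  have hpow : ((1:ℝ) / 2) ^ (n + 1) ≤ 1 / 4 := by
    calc ((1:ℝ) / 2) ^ (n + 1) ≤ (1 / 2) ^ 2 :=
          pow_le_pow_of_le_one (by norm_num) (by norm_num) (by omega)
      _ = 1 / 4 := by norm_num
  apply isClopen_of_local
  intro P
  rcases pt_cases P with ⟨e, P', rfl⟩ | ⟨z₀, rfl⟩
  · obtain ⟨r0, hr0, hl0⟩ := local_of_isClopen (isClopen_CC hy false n) P'
    obtain ⟨r1, hr1, hl1⟩ := local_of_isClopen (isClopen_CC hy true n) P'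
    obtain ⟨r', hr', h⟩ := near_cons e P' (lt_min hr0 hr1)
    refine ⟨r', hr', fun Q hQ => ?_⟩
    obtain ⟨Q', rfl, hd⟩ := h Q hQ
    have key : ∀ i, (Q' ∈ CC W y i n ↔ P' ∈ CC W y i n) := by
      intro i
      cases i
      · exact hl0 Q' (lt_of_lt_of_le hd (min_le_left _ _))
      · exact hl1 Q' (lt_of_lt_of_le hd (min_le_right _ _))
    constructor
    · rintro (⟨z', hz', _⟩ | ⟨e', x, i, hx, hA, hm⟩)
      · exact absurd hz' cons_ne_wp
      · obtain ⟨rfl, rfl⟩ := cons_inj.1 hx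
        exact Or.inr ⟨_, _, i, rfl, hA, (key i).1 hm⟩
    · rintro (⟨z', hz', _⟩ | ⟨e', x, i, hx, hA, hm⟩)
      · exact absurd hz' cons_ne_wp
      · obtain ⟨rfl, rfl⟩ := cons_inj.1 hx
        exact Or.inr ⟨_, _, i, rfl, hA, (key i).2 hm⟩
  · refine ⟨(1 / 2) ^ (n + 1), by positivity, fun Q hQ => ?_⟩
    have hwz : (wp z₀ : Pt (GW W)) ∈ Nz W y z n ↔ Ag (tz z) (tz z₀) n := by
      constructor
      · rintro (⟨z', hz', h⟩ | ⟨e', x, i, hx, _⟩)
        · obtain rfl := wp_inj.1 hz'; exact h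
        · exact absurd hx.symm cons_ne_wp
      · intro h; exact Or.inl ⟨z₀, rfl, h⟩
    rw [hwz]
    rcases near_wp hQ with ⟨z', rfl, hA⟩ | ⟨e, Q', i, rfl, hes, hA⟩
    · have hA' := hA.mono (Nat.le_succ n)
      constructor
      · rintro (⟨z'', hz', h⟩ | ⟨e', x, i, hx, _⟩)
        · obtain rfl := wp_inj.1 hz'; exact h.trans hA'.symm
        · exact absurd hx.symm cons_ne_wp
      · intro h; exact Or.inl ⟨z', rfl, h.trans hA'⟩
    · rw [es_eq_ev] at hes
      have hA' := hA.mono (Nat.le_succ n)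
      constructor
      · rintro (⟨z'', hz', h⟩ | ⟨e', x, i', hx, hA2, hm⟩)
        · exact absurd hz' cons_ne_wp
        · obtain ⟨rfl, rfl⟩ := cons_inj.1 hx
          by_cases hii : i' = i
          · subst hii
            exact hA2.symm.trans hA'
          · have : i' = !i := by cases i <;> cases i' <;> simp_all
            subst this
            have h1 := CC_le hm
            have h2 := ev_add i Q'
            linarith
      · intro h
        exact Or.inr ⟨e, Q', i, rfl, hA'.trans h.symm, CC_of_lt hes⟩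

theorem Nz_dist {y : ℕ → Bool} {z : ℕ → ℕ} {n : ℕ} {Q : Pt (GW W)} (hQ : Q ∈ Nz W y z n) :
    dist Q (wp z) ≤ (1 / 2) ^ n := by
  rcases hQ with ⟨z', rfl, hA⟩ | ⟨e, Q', i, rfl, hA, hm⟩
  · rw [dist_wp_wp, dl_symm]; exact dl_le_iff.2 hA
  · refine le_trans (dist_wp_cons_le i) (max_le ?_ ?_)
    · rw [es_eq_ev]
      refine le_trans (CC_le hm) ?_
      exact pow_le_pow_of_le_one (by norm_num) (by norm_num) (by omega)
    · rw [el_cons']; exact dl_le_iff.2 hA

/-- the gadget space of a nonempty class is zero-dimensional -/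
theorem zero_dim {y : ℕ → Bool} (hy : Cls W y) (P : Pt (GW W)) (ε : ℝ) (hε : 0 < ε) :
    ∃ C : Set (Pt (GW W)), IsClopen C ∧ P ∈ C ∧ C ⊆ Metric.ball P ε := by
  apply zero_dim_of _ P ε hε
  intro z n hn
  refine ⟨Nz W y z n, isClopen_Nz hy z hn, Or.inl ⟨z, rfl, ?_⟩, fun Q hQ => Nz_dist hQ⟩
  intro i _
  exact ⟨rfl, by simp [tz]⟩

end Pool.Agent.Helper583.TC
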