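import Pool.Agent.Helper583.TTCR1

namespace Pool.Agent.Helper583.TT

variable {α β : Type} [Primcodable α] [Primcodable β]

/-- least value of `f 0, ..., f n` -/
noncomputable def mn (f : ℕ → ℝ) : ℕ → ℝ
  | 0 => f 0
  | n + 1 => min (mn f n) (f (n + 1))

/-- greatest value of `0, f 0, ..., f (n - 1)` -/
noncomputable def mx (f : ℕ → ℝ) : ℕ → ℝ
  | 0 => 0
  | n + 1 => max (mx f n) (f n)

theorem c_add {f g : α → ℕ} (hf : Computable f) (hg : Computable g) :
    Computable fun a => f a + g a := Primrec.nat_add.to_comp.comp hf hg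

theorem c_mul {f g : α → ℕ} (hf : Computable f) (hg : Computable g) :
    Computable fun a => f a * g a := Primrec.nat_mul.to_comp.comp hf hg

theorem c_sub {f g : α → ℕ} (hf : Computable f) (hg : Computable g) :
    Computable fun a => f a - g a := Primrec.nat_sub.to_comp.comp hf hg

theorem c_div {f g : α → ℕ} (hf : Computable f) (hg : Computable g) :
    Computable fun a => f a / g a := Primrec.nat_div.to_comp.comp hf hg

theorem c_pow2 {f : α → ℕ} (hf : Computable f) : Computable fun a => 2 ^ f a :=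
  (Primrec₂.unpaired'.1 Nat.Primrec.pow).to_comp.comp (Computable.const 2) hf

theorem c_sum {g : α × ℕ → ℕ} (hg : Computable g) {n : α → ℕ} (hn : Computable n) :
    Computable fun a => ∑ i ∈ Finset.range (n a), g (a, i) := by
  have hh : Computable₂ fun (a : α) (p : ℕ × ℕ) => p.2 + g (a, p.1) := by
    have h1 : Computable fun p : α × (ℕ × ℕ) => p.2.2 := Computable.snd.comp Computable.snd
    have h2 : Computable fun p : α × (ℕ × ℕ) => (p.1, p.2.1) :=
      Computable.fst.pair (Computable.fst.comp Computable.snd)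
    exact c_add h1 (hg.comp h2)
  have h := Computable.nat_rec (f := n) (g := fun _ => 0) hn (Computable.const 0) hh
  refine h.of_eq fun a => ?_
  induction n a with
  | zero => rfl
  | succ m ih =>
    rw [Finset.sum_range_succ, ← ih]

theorem CR.round {f : α → ℝ} (q m : α × ℕ → ℕ) (hq : Computable q) (hm : Computable m)
    (h : ∀ a k, |f a - (q (a, k) : ℝ) / 2 ^ (k + 1 + m (a, k))| ≤ 1 / 2 ^ (k + 1)) : CR f := by
  refine ⟨fun p => (q p + 2 ^ m p) / 2 ^ (m p + 1),
    c_div (c_add hq (c_pow2 hm)) (c_pow2 (c_add hm (Computable.const 1))), ?_⟩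
  intro a k
  have h0 := h a k
  show |f a - (((q (a, k) + 2 ^ m (a, k)) / 2 ^ (m (a, k) + 1) : ℕ) : ℝ) / 2 ^ k| ≤ 1 / 2 ^ k
  obtain ⟨N, hN⟩ : ∃ N, N = q (a, k) := ⟨_, rfl⟩
  obtain ⟨M, hM⟩ : ∃ M, M = m (a, k) := ⟨_, rfl⟩
  rw [← hN, ← hM] at h0 ⊢
  obtain ⟨r, hr⟩ : ∃ r, r = (N + 2 ^ M) / 2 ^ (M + 1) := ⟨_, rfl⟩
  rw [← hr]
  obtain ⟨t, ht⟩ : ∃ t, t = (N + 2 ^ M) % 2 ^ (M + 1) := ⟨_, rfl⟩
  have h1 : 2 ^ (M + 1) * r + t = N + 2 ^ M := by rw [hr, ht]; exact Nat.div_add_mod _ _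
  have h2 : t < 2 ^ (M + 1) := by rw [ht]; exact Nat.mod_lt _ (by positivity)
  have h1' : (2 : ℝ) ^ (M + 1) * r + t = N + 2 ^ M := by exact_mod_cast h1
  have h2' : (t : ℝ) < 2 ^ (M + 1) := by exact_mod_cast h2
  have h3' : (0 : ℝ) ≤ t := Nat.cast_nonneg t
  have hX : (0 : ℝ) < 2 ^ M := by positivity
  rw [pow_succ] at h1' h2'
  have hk0 : (0 : ℝ) < 2 ^ k := by positivity
  have e1 : (N : ℝ) / 2 ^ (k + 1 + M) - (r : ℝ) / 2 ^ k =
      ((t : ℝ) / 2 ^ M - 1) / 2 ^ (k + 1) := by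
    have h4 : (N : ℝ) = (2 : ℝ) ^ M * 2 * r + t - 2 ^ M := by linarith
    rw [h4, pow_add, pow_succ]
    field_simp
    ring
  have h5 : |(t : ℝ) / 2 ^ M - 1| ≤ 1 := by
    have h6 : (t : ℝ) / 2 ^ M ≤ 2 := by
      rw [div_le_iff₀ hX]
      linarith
    have h7 : 0 ≤ (t : ℝ) / 2 ^ M := by positivity
    rw [abs_le]
    constructor <;> linarith
  have h8 : |(N : ℝ) / 2 ^ (k + 1 + M) - (r : ℝ) / 2 ^ k| ≤ 1 / 2 ^ (k + 1) := by
    rw [e1, abs_div, abs_of_pos (by positivity : (0 : ℝ) < 2 ^ (k + 1))]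
    gcongr
  have h9 := abs_sub_le (f a) ((N : ℝ) / 2 ^ (k + 1 + M)) ((r : ℝ) / 2 ^ k)
  have h10 : (1 : ℝ) / 2 ^ (k + 1) + 1 / 2 ^ (k + 1) = 1 / 2 ^ k := by
    rw [pow_succ]
    field_simp
    norm_num
  linarith

theorem CR.sum {f : α × ℕ → ℝ} (hf : CR f) {n : α → ℕ} (hn : Computable n) :
    CR fun a => ∑ i ∈ Finset.range (n a), f (a, i) := by
  obtain ⟨q, hqc, hq⟩ := hf
  refine CR.round (fun p : α × ℕ => ∑ i ∈ Finset.range (n p.1), q ((p.1, i), p.2 + 1 + n p.1))
    (fun p => n p.1) ?_ (hn.comp Computable.fst) ?_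
  · refine c_sum (α := α × ℕ) (g := fun p => q ((p.1.1, p.2), p.1.2 + 1 + n p.1.1)) ?_
      (hn.comp Computable.fst)
    refine hqc.comp (((Computable.fst.comp Computable.fst).pair Computable.snd).pair ?_)
    exact c_add (c_add (Computable.snd.comp Computable.fst) (Computable.const 1))
      (hn.comp (Computable.fst.comp Computable.fst))
  · intro a k
    show |∑ i ∈ Finset.range (n a), f (a, i) -
      ((∑ i ∈ Finset.range (n a), q ((a, i), k + 1 + n a) : ℕ) : ℝ) / 2 ^ (k + 1 + n a)| ≤ _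
    have e1 : ∑ i ∈ Finset.range (n a), f (a, i) -
        ((∑ i ∈ Finset.range (n a), q ((a, i), k + 1 + n a) : ℕ) : ℝ) / 2 ^ (k + 1 + n a) =
        ∑ i ∈ Finset.range (n a), (f (a, i) -
          (q ((a, i), k + 1 + n a) : ℝ) / 2 ^ (k + 1 + n a)) := by
      rw [Finset.sum_sub_distrib, Nat.cast_sum, Finset.sum_div]
    rw [e1]
    refine (Finset.abs_sum_le_sum_abs _ _).trans ?_
    refine (Finset.sum_le_sum fun i _ => hq (a, i) (k + 1 + n a)).trans ?_
    rw [Finset.sum_const, Finset.card_range, nsmul_eq_mul, pow_add]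
    have h1 : (n a : ℝ) ≤ 2 ^ n a := by exact_mod_cast Nat.lt_two_pow_self.le
    have h2 : (0 : ℝ) < 2 ^ n a := by positivity
    have h3 : (0 : ℝ) < 2 ^ (k + 1) := by positivity
    rw [mul_one_div, div_le_div_iff₀ (by positivity) h3, one_mul, mul_comm]
    exact mul_le_mul_of_nonneg_left h1 h3.le

theorem CR.tsum {f : α × ℕ → ℝ} (hf : CR f) (h1 : ∀ p, f p ≤ 1) :
    CR fun a => ∑' e, f (a, e) / 2 ^ e := by
  have h0 := hf.nonneg
  obtain ⟨q, hqc, hq⟩ := hf
  refine CR.round (fun p : α × ℕ => ∑ e ∈ Finset.range (p.2 + 3),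
    q ((p.1, e), p.2 + 3) * 2 ^ (p.2 + 3 - e)) (fun p => p.2 + 5) ?_
    (c_add Computable.snd (Computable.const 5)) ?_
  · refine c_sum (α := α × ℕ) (g := fun p => q ((p.1.1, p.2), p.1.2 + 3) * 2 ^ (p.1.2 + 3 - p.2))
      ?_ (c_add Computable.snd (Computable.const 3))
    refine c_mul (hqc.comp (((Computable.fst.comp Computable.fst).pair Computable.snd).pair
      (c_add (Computable.snd.comp Computable.fst) (Computable.const 3)))) ?_
    exact c_pow2 (c_sub (c_add (Computable.snd.comp Computable.fst) (Computable.const 3))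
      Computable.snd)
  · intro a k
    obtain ⟨g, hg⟩ : ∃ g : ℕ → ℝ, g = fun e => f (a, e) / 2 ^ e := ⟨_, rfl⟩
    have hg0 : ∀ e, 0 ≤ g e := by
      intro e
      rw [hg]
      exact div_nonneg (h0 _) (by positivity)
    have hg1 : ∀ e, g e ≤ (1 / 2) ^ e := by
      intro e
      rw [hg, one_div_pow]
      exact div_le_div_of_nonneg_right (h1 _) (by positivity)
    have hgs : Summable g := Summable.of_nonneg_of_le hg0 hg1 summable_geometric_two
    obtain ⟨L, hL⟩ : ∃ L, L = k + 3 := ⟨_, rfl⟩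
    show |∑' e, f (a, e) / 2 ^ e - ((∑ e ∈ Finset.range (k + 3),
      q ((a, e), k + 3) * 2 ^ (k + 3 - e) : ℕ) : ℝ) / 2 ^ (k + 1 + (k + 5))| ≤ _
    have hgeq : ∑' e, f (a, e) / 2 ^ e = ∑' e, g e := by rw [hg]
    rw [hgeq, ← hL, ← hgs.sum_add_tsum_nat_add L]
    have htail : |∑' e, g (e + L)| ≤ 2 / 2 ^ L := by
      rw [abs_of_nonneg (tsum_nonneg fun e => hg0 _)]
      have hs1 : Summable fun e => g (e + L) := (summable_nat_add_iff L).2 hgs
      have hs2 : Summable fun e : ℕ => (1 / 2 : ℝ) ^ (e + L) :=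
        (summable_nat_add_iff L).2 summable_geometric_two
      refine (hs1.tsum_le_tsum (fun e => hg1 _) hs2).trans ?_
      have e1 : (fun e : ℕ => (1 / 2 : ℝ) ^ (e + L)) = fun e => (1 / 2 : ℝ) ^ e * (1 / 2) ^ L := by
        funext e
        rw [pow_add]
      rw [e1, tsum_mul_right, tsum_geometric_two, one_div_pow]
      rw [mul_one_div]
    have hfin : |∑ e ∈ Finset.range L, g e - ((∑ e ∈ Finset.range L,
        q ((a, e), L) * 2 ^ (L - e) : ℕ) : ℝ) / 2 ^ (k + 1 + (k + 5))| ≤ 2 / 2 ^ L := by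
      have e1 : ∑ e ∈ Finset.range L, g e - ((∑ e ∈ Finset.range L,
          q ((a, e), L) * 2 ^ (L - e) : ℕ) : ℝ) / 2 ^ (k + 1 + (k + 5)) =
          ∑ e ∈ Finset.range L, (f (a, e) - (q ((a, e), L) : ℝ) / 2 ^ L) / 2 ^ e := by
        rw [Nat.cast_sum, Finset.sum_div, ← Finset.sum_sub_distrib]
        refine Finset.sum_congr rfl fun e he => ?_
        have he' : e ≤ L := (Finset.mem_range.1 he).le
        have e2 : (2 : ℝ) ^ (k + 1 + (k + 5)) = 2 ^ L * (2 ^ (L - e) * 2 ^ e) := by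
          rw [← pow_add, ← pow_add]
          congr 1
          omega
        rw [e2, hg]
        push_cast
        field_simp
      rw [e1]
      refine (Finset.abs_sum_le_sum_abs _ _).trans ?_
      have h3 : ∀ e ∈ Finset.range L, |(f (a, e) - (q ((a, e), L) : ℝ) / 2 ^ L) / 2 ^ e| ≤
          1 / 2 ^ L * (1 / 2) ^ e := by
        intro e _
        rw [abs_div, abs_of_pos (by positivity : (0 : ℝ) < 2 ^ e), one_div_pow, mul_one_div]
        exact div_le_div_of_nonneg_right (hq _ _) (by positivity)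
      refine (Finset.sum_le_sum h3).trans ?_
      rw [← Finset.mul_sum]
      calc 1 / 2 ^ L * ∑ i ∈ Finset.range L, (1 / 2 : ℝ) ^ i ≤ 1 / 2 ^ L * 2 :=
            mul_le_mul_of_nonneg_left (sum_geometric_two_le L) (by positivity)
        _ = 2 / 2 ^ L := by ring
    have e3 : ∑ e ∈ Finset.range L, g e + ∑' e, g (e + L) - ((∑ e ∈ Finset.range L,
        q ((a, e), L) * 2 ^ (L - e) : ℕ) : ℝ) / 2 ^ (k + 1 + (k + 5)) =
        (∑ e ∈ Finset.range L, g e - ((∑ e ∈ Finset.range L,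
        q ((a, e), L) * 2 ^ (L - e) : ℕ) : ℝ) / 2 ^ (k + 1 + (k + 5))) + ∑' e, g (e + L) := by
      ring
    rw [e3]
    refine (abs_add_le _ _).trans ?_
    have e4 : (2 : ℝ) / 2 ^ L + 2 / 2 ^ L = 1 / 2 ^ (k + 1) := by
      rw [hL, pow_add, pow_add]
      field_simp
      norm_num
    linarith

theorem CR.mn {f : α × ℕ → ℝ} (hf : CR f) {n : α → ℕ} (hn : Computable n) :
    CR fun a => mn (fun i => f (a, i)) (n a) := by
  obtain ⟨q, hqc, hq⟩ := hf
  have hh : Computable₂ fun (p : α × ℕ) (r : ℕ × ℕ) => Min.min r.2 (q ((p.1, r.1 + 1), p.2)) := by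
    have h1 : Computable fun p : (α × ℕ) × (ℕ × ℕ) => p.2.2 := Computable.snd.comp Computable.snd
    have h2 : Computable fun p : (α × ℕ) × (ℕ × ℕ) => ((p.1.1, p.2.1 + 1), p.1.2) :=
      (((Computable.fst.comp Computable.fst).pair
        (c_add (Computable.fst.comp Computable.snd) (Computable.const 1))).pair
        (Computable.snd.comp Computable.fst))
    exact Primrec.nat_min.to_comp.comp h1 (hqc.comp h2)
  have hg : Computable fun p : α × ℕ => q ((p.1, 0), p.2) :=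
    hqc.comp ((Computable.fst.pair (Computable.const 0)).pair Computable.snd)
  refine ⟨_, Computable.nat_rec (f := fun p : α × ℕ => n p.1) (hn.comp Computable.fst) hg hh, ?_⟩
  intro a k
  show |Pool.Agent.Helper583.TT.mn (fun i => f (a, i)) (n a) -
    ((Nat.rec (motive := fun _ => ℕ) (q ((a, 0), k))
      (fun y IH => Min.min IH (q ((a, y + 1), k))) (n a) : ℕ) : ℝ) / 2 ^ k| ≤ 1 / 2 ^ k
  induction n a with
  | zero => exact hq (a, 0) k
  | succ m ih =>
    show |Min.min (Pool.Agent.Helper583.TT.mn (fun i => f (a, i)) m) (f (a, m + 1)) -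
      ((Min.min (Nat.rec (motive := fun _ => ℕ) (q ((a, 0), k))
      (fun y IH => Min.min IH (q ((a, y + 1), k))) m) (q ((a, m + 1), k)) : ℕ) : ℝ) / 2 ^ k| ≤ _
    rw [Nat.cast_min, ← min_div_div_right (by positivity)]
    refine (abs_min_sub_min_le_max _ _ _ _).trans ?_
    exact max_le ih (hq (a, m + 1) k)

theorem CR.mx {f : α × ℕ → ℝ} (hf : CR f) {n : α → ℕ} (hn : Computable n) :
    CR fun a => mx (fun i => f (a, i)) (n a) := by
  obtain ⟨q, hqc, hq⟩ := hf
  have hh : Computable₂ fun (p : α × ℕ) (r : ℕ × ℕ) => Max.max r.2 (q ((p.1, r.1), p.2)) := by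
    have h1 : Computable fun p : (α × ℕ) × (ℕ × ℕ) => p.2.2 := Computable.snd.comp Computable.snd
    have h2 : Computable fun p : (α × ℕ) × (ℕ × ℕ) => ((p.1.1, p.2.1), p.1.2) :=
      (((Computable.fst.comp Computable.fst).pair
        (Computable.fst.comp Computable.snd)).pair
        (Computable.snd.comp Computable.fst))
    exact Primrec.nat_max.to_comp.comp h1 (hqc.comp h2)
  have hg : Computable fun _ : α × ℕ => (0 : ℕ) := Computable.const 0
  refine ⟨_, Computable.nat_rec (f := fun p : α × ℕ => n p.1) (hn.comp Computable.fst) hg hh, ?_⟩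
  intro a k
  show |Pool.Agent.Helper583.TT.mx (fun i => f (a, i)) (n a) -
    ((Nat.rec (motive := fun _ => ℕ) 0
      (fun y IH => Max.max IH (q ((a, y), k))) (n a) : ℕ) : ℝ) / 2 ^ k| ≤ 1 / 2 ^ k
  induction n a with
  | zero =>
    show |(0 : ℝ) - ((0 : ℕ) : ℝ) / 2 ^ k| ≤ 1 / 2 ^ k
    simp
  | succ m ih =>
    show |Max.max (Pool.Agent.Helper583.TT.mx (fun i => f (a, i)) m) (f (a, m)) -
      ((Max.max (Nat.rec (motive := fun _ => ℕ) 0
      (fun y IH => Max.max IH (q ((a, y), k))) m) (q ((a, m), k)) : ℕ) : ℝ) / 2 ^ k| ≤ _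
    rw [Nat.cast_max, ← max_div_div_right (by positivity)]
    refine (abs_max_sub_max_le_max _ _ _ _).trans ?_
    exact max_le ih (hq (a, m) k)

end Pool.Agent.Helper583.TT
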