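import Pool.Agent.Helper583.TTADefs
import Pool.Agent.Helper583.TTCR2

namespace Pool.Agent.Helper583.TT

open Nat.Partrec (Code)
open Pool.Agent.Helper583.TC.J2 (srchO srchO_some srchO_ne primrec_srchO valsO valsO_succ
  primrec_valsO)

theorem primrec_fresh {α : Type} [Primcodable α] {e m : α → ℕ} (he : Primrec e) (hm : Primrec m) :
    Primrec fun a => fresh (e a) (m a) := by
  unfold fresh
  refine Primrec.ite ?_ ?_ ?_
  · exact Primrec.eq.comp (Primrec.nat_mod.comp hm (Primrec.const 2)) (Primrec.const 0)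
  · exact (Primrec.nat_lt.comp he (Primrec.nat_div.comp hm (Primrec.const 2))).decide
  · exact (Primrec.nat_lt.comp he (Primrec.fst.comp (Primrec.unpair.comp
      (Primrec.nat_div.comp hm (Primrec.const 2))))).decide

theorem primrec_replicate {α : Type} [Primcodable α] {n v : α → ℕ} (hn : Primrec n)
    (hv : Primrec v) : Primrec fun a => List.replicate (n a) (v a) := by
  have h : Primrec fun a => (List.range (n a)).map (fun _ => v a) :=
    Primrec.list_map (Primrec.list_range.comp hn) (hv.comp Primrec.fst)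
  refine h.of_eq fun a => ?_
  simp

/-- TARGET 1 -/
theorem primrec_evA : Primrec₂ evA := by
  have hu : ∀ {α : Type} [Primcodable α] {f : α → ℕ}, Primrec f → Primrec fun a => (f a).unpair.1 :=
    fun hf => Primrec.fst.comp (Primrec.unpair.comp hf)
  have hv : ∀ {α : Type} [Primcodable α] {f : α → ℕ}, Primrec f → Primrec fun a => (f a).unpair.2 :=
    fun hf => Primrec.snd.comp (Primrec.unpair.comp hf)
  have hval : ∀ {α : Type} [Primcodable α] {e s : α → ℕ}, Primrec e → Primrec s →
      Primrec fun a => 2 * Nat.pair (e a) (s a).unpair.1 + 1 := fun he hs =>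
    Primrec.nat_double_succ.comp (Primrec₂.natPair.comp he (hu hs))
  show Primrec fun p : ℕ × ℕ => evA p.1 p.2
  unfold evA
  refine Primrec.option_bind ?_ ?_
  · refine primrec_valsO (f := fun p : ℕ × ℕ => rn p.1.unpair.2 (List.replicate
      p.2.unpair.2.unpair.2 (2 * Nat.pair p.1 p.2.unpair.1 + 1))) ?_ ?_
    · refine primrec_rn (α := (ℕ × ℕ) × ℕ) ?_ ?_ Primrec.snd
      · exact hv (Primrec.fst.comp Primrec.fst)
      · exact primrec_replicate (hv (hv (Primrec.snd.comp Primrec.fst)))
          (hval (Primrec.fst.comp Primrec.fst) (Primrec.snd.comp Primrec.fst))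
    · exact Primrec.nat_add.comp (hu (hv Primrec.snd)) (Primrec.const 3)
  · have he : Primrec fun q : (ℕ × ℕ) × List ℕ => q.1.1 := Primrec.fst.comp Primrec.fst
    have hs : Primrec fun q : (ℕ × ℕ) × List ℕ => q.1.2 := Primrec.snd.comp Primrec.fst
    have hL : Primrec fun q : (ℕ × ℕ) × List ℕ => q.1.2.unpair.2.unpair.1 := hu (hv hs)
    have hget : Primrec fun q : (ℕ × ℕ) × List ℕ =>
        q.2.getD (q.1.2.unpair.2.unpair.1 + 2) 0 :=
      (Primrec.list_getD 0).comp Primrec.snd (Primrec.nat_add.comp hL (Primrec.const 2))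
    refine Primrec.ite (α := (ℕ × ℕ) × List ℕ) ?_ ?_ (Primrec.const none)
    · refine PrimrecPred.and ?_ (PrimrecPred.and ?_ ?_)
      · refine Primrec.eq.comp ?_ (Primrec.option_some.comp (hval he hs))
        refine primrec_rn (hu he) ?_ ?_
        · exact Primrec.list_take.comp hL (Primrec.list_tail.comp Primrec.snd)
        · exact Primrec.nat_add.comp (Primrec₂.natPair.comp he (hu hs)) (Primrec.const 2)
      · exact Primrec.eq.comp (primrec_fresh he hget) (Primrec.const true)
      · exact Primrec.nat_lt.comp hget hs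
    · exact Primrec.option_some.comp hget

/-- TARGET 2 -/
theorem primrec_act : Primrec₂ act := by
  show Primrec fun p : ℕ × ℕ => act p.1 p.2
  unfold act
  refine Primrec.ite (α := ℕ × ℕ) ?_ primrec_evA (Primrec.const none)
  have hR : PrimrecRel fun (s' : ℕ) (e : ℕ) => (evA e s').isNone = true := by
    have h1 : Primrec fun p : ℕ × ℕ => !(evA p.2 p.1).isSome :=
      Primrec.not.comp (Primrec.option_isSome.comp (primrec_evA.comp Primrec.snd Primrec.fst))
    have h2 : Primrec fun p : ℕ × ℕ => (evA p.2 p.1).isNone := h1.of_eq fun p => by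
      cases evA p.2 p.1 <;> rfl
    exact Primrec.eq.comp h2 (Primrec.const true)
  have h3 := (PrimrecRel.forall_lt hR).comp (f := fun p : ℕ × ℕ => p.2)
    (g := fun p : ℕ × ℕ => p.1) Primrec.snd Primrec.fst
  refine h3.of_eq fun p => ?_
  rw [List.all_eq_true]
  simp only [List.mem_range]

theorem primrec_par : Primrec par := by
  unfold par
  refine Primrec.ite ?_ ?_ (Primrec.const none)
  · exact Primrec.eq.comp (Primrec.nat_mod.comp Primrec.id (Primrec.const 2)) (Primrec.const 1)
  · have h := Primrec.unpair.comp (Primrec.nat_div.comp Primrec.id (Primrec.const 2))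
    exact primrec_act.comp (Primrec.fst.comp h) (Primrec.snd.comp h)

theorem primrec_rt : Primrec rt := by
  unfold rt
  refine Primrec.ite ?_ ?_ ?_
  · exact Primrec.eq.comp (Primrec.nat_mod.comp Primrec.id (Primrec.const 2)) (Primrec.const 0)
  · exact Primrec.nat_div.comp Primrec.id (Primrec.const 2)
  · exact Primrec.fst.comp (Primrec.unpair.comp (Primrec.nat_div.comp Primrec.id
      (Primrec.const 2)))

/-- TARGET 3 -/
theorem primrec_nd : Primrec nd := by
  have h : Primrec₂ fun (_ : Unit) (m : ℕ) => nd m := by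
    refine Primrec.nat_strong_rec (fun (_ : Unit) (m : ℕ) => nd m)
      (g := fun (_ : Unit) (IH : List (ℕ × List ℕ)) =>
        Option.casesOn (par IH.length) (some (rt IH.length, []))
          (fun m' => (IH[m']?).map fun p => (p.1, (IH.length / 2).unpair.2 :: p.2))) ?_ ?_
    · refine Primrec.option_casesOn (α := Unit × List (ℕ × List ℕ)) ?_ ?_ ?_
      · exact primrec_par.comp (Primrec.list_length.comp Primrec.snd)
      · exact Primrec.option_some.comp (Primrec.pair (primrec_rt.comp
          (Primrec.list_length.comp Primrec.snd)) (Primrec.const []))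
      · refine Primrec.option_map (α := (Unit × List (ℕ × List ℕ)) × ℕ) ?_ ?_
        · exact Primrec.list_getElem?.comp (Primrec.snd.comp Primrec.fst) Primrec.snd
        · refine Primrec.pair (Primrec.fst.comp Primrec.snd) ?_
          refine Primrec.list_cons.comp ?_ (Primrec.snd.comp Primrec.snd)
          exact Primrec.snd.comp (Primrec.unpair.comp (Primrec.nat_div.comp
            (Primrec.list_length.comp (Primrec.snd.comp (Primrec.fst.comp Primrec.fst)))
            (Primrec.const 2)))
    · intro _ m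
      have hl : ((List.range m).map fun m => nd m).length = m := by simp
      simp only [hl]
      cases hp : par m with
      | none => simp only [nd_none hp]
      | some m' =>
        have hlt := par_lt hp
        simp only [nd_some hp]
        rw [List.getElem?_map, List.getElem?_range hlt]
        rfl
  exact h.comp (Primrec.const ()) Primrec.id

theorem primrec_pow : Primrec₂ ((· ^ ·) : ℕ → ℕ → ℕ) := Primrec₂.unpaired'.1 Nat.Primrec.pow

/-- numerator and exponent of the height -/
def lhq (l : List ℕ) : ℕ × ℕ :=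
  l.foldr (fun s p => (p.1 * 2 ^ (s + 2) + 2 ^ p.2, p.2 + (s + 2))) (0, 0)

theorem lhq_spec (l : List ℕ) : lh l = ((lhq l).1 : ℝ) / 2 ^ (lhq l).2 := by
  induction l with
  | nil => simp [lhq, lh]
  | cons s l ih =>
    rw [lh_cons, ih]
    show _ = (((lhq l).1 * 2 ^ (s + 2) + 2 ^ (lhq l).2 : ℕ) : ℝ) / 2 ^ ((lhq l).2 + (s + 2))
    push_cast
    rw [pow_add 2 (lhq l).2 (s + 2)]
    field_simp
    ring

theorem primrec_lhq : Primrec lhq := by
  unfold lhq
  refine Primrec.list_foldr (f := fun l : List ℕ => l) (g := fun _ => ((0, 0) : ℕ × ℕ))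
    (h := fun _ (q : ℕ × (ℕ × ℕ)) => (q.2.1 * 2 ^ (q.1 + 2) + 2 ^ q.2.2, q.2.2 + (q.1 + 2)))
    Primrec.id (Primrec.const _) ?_
  have h1 : Primrec fun q : List ℕ × (ℕ × (ℕ × ℕ)) => q.2.1 + 2 :=
    Primrec.nat_add.comp (Primrec.fst.comp Primrec.snd) (Primrec.const 2)
  have h2 : Primrec fun q : List ℕ × (ℕ × (ℕ × ℕ)) => q.2.2.1 :=
    Primrec.fst.comp (Primrec.snd.comp Primrec.snd)
  have h3 : Primrec fun q : List ℕ × (ℕ × (ℕ × ℕ)) => q.2.2.2 :=
    Primrec.snd.comp (Primrec.snd.comp Primrec.snd)
  refine Primrec.pair ?_ (Primrec.nat_add.comp h3 h1)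
  exact Primrec.nat_add.comp (Primrec.nat_mul.comp h2 (primrec_pow.comp (Primrec.const 2) h1))
    (primrec_pow.comp (Primrec.const 2) h3)

/-- TARGET 4 -/
theorem cr_lh {α : Type} [Primcodable α] {f : α → List ℕ} (hf : Computable f) :
    CR fun a => lh (f a) := by
  refine CR.of_dyadic (fun p : α × ℕ => lhq (f p.1))
    (primrec_lhq.to_comp.comp (hf.comp Computable.fst)) ?_
  intro a k
  show |lh (f a) - ((lhq (f a)).1 : ℝ) / 2 ^ (lhq (f a)).2| ≤ 1 / 2 ^ k
  rw [lhq_spec, sub_self, abs_zero]
  positivity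

end Pool.Agent.Helper583.TT
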