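import Pool.Agent.Helper583.TTRun

/-!
Dense isolated points: the event, the nodes and the positions of the added points.
-/

namespace Pool.Agent.Helper583.TT

open Pool.Agent.Helper583.TC.J2 (srchO srchO_some srchO_ne primrec_srchO valsO valsO_succ
  primrec_valsO)

/-- the index `m` may be used by the requirement `e` -/
def fresh (e m : ℕ) : Bool :=
  if m % 2 = 0 then decide (e < m / 2) else decide (e < (m / 2).unpair.1)

/-- the requirement `e` finds at stage `s` an index near which a point can be added -/
def evA (e s : ℕ) : Option ℕ :=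
  (valsO (rn e.unpair.2 (List.replicate s.unpair.2.unpair.2 (2 * Nat.pair e s.unpair.1 + 1)))
    (s.unpair.2.unpair.1 + 3)).bind fun qs =>
      if rn e.unpair.1 (qs.tail.take s.unpair.2.unpair.1) (Nat.pair e s.unpair.1 + 2) =
          some (2 * Nat.pair e s.unpair.1 + 1) ∧
        fresh e (qs.getD (s.unpair.2.unpair.1 + 2) 0) = true ∧
        qs.getD (s.unpair.2.unpair.1 + 2) 0 < s
      then some (qs.getD (s.unpair.2.unpair.1 + 2) 0) else none

/-- the requirement `e` acts at stage `s`: first time -/
def act (e s : ℕ) : Option ℕ :=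
  if (List.range s).all (fun s' => (evA e s').isNone) then evA e s else none

theorem act_evA {e s m : ℕ} (h : act e s = some m) : evA e s = some m := by
  unfold act at h
  split at h
  · exact h
  · simp at h

theorem evA_spec {e s m : ℕ} (h : evA e s = some m) : ∃ qs,
    valsO (rn e.unpair.2 (List.replicate s.unpair.2.unpair.2 (2 * Nat.pair e s.unpair.1 + 1)))
      (s.unpair.2.unpair.1 + 3) = some qs ∧
    rn e.unpair.1 (qs.tail.take s.unpair.2.unpair.1) (Nat.pair e s.unpair.1 + 2) =
      some (2 * Nat.pair e s.unpair.1 + 1) ∧ fresh e m = true ∧ m < s ∧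
    m = qs.getD (s.unpair.2.unpair.1 + 2) 0 := by
  unfold evA at h
  rw [Option.bind_eq_some_iff] at h
  obtain ⟨qs, h1, h2⟩ := h
  split at h2
  · rename_i h3
    simp only [Option.some.injEq] at h2
    refine ⟨qs, h1, h3.1, ?_, ?_, h2.symm⟩
    · rw [← h2]; exact h3.2.1
    · rw [← h2]; exact h3.2.2
  · simp at h2

theorem act_lt {e s m : ℕ} (h : act e s = some m) : m < s := by
  obtain ⟨qs, _, _, _, h1, _⟩ := evA_spec (act_evA h)
  exact h1

theorem act_fresh {e s m : ℕ} (h : act e s = some m) : fresh e m = true := by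
  obtain ⟨qs, _, _, h1, _, _⟩ := evA_spec (act_evA h)
  exact h1

theorem act_unique {e s s' m m' : ℕ} (h : act e s = some m) (h' : act e s' = some m') :
    s = s' := by
  rcases lt_trichotomy s s' with hl | hl | hl
  · exfalso
    unfold act at h'
    split at h'
    · rename_i h1
      rw [List.all_eq_true] at h1
      have := h1 s (List.mem_range.2 hl)
      rw [act_evA h] at this
      simp at this
    · simp at h'
  · exact hl
  · exfalso
    unfold act at h
    split at h
    · rename_i h1
      rw [List.all_eq_true] at h1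
      have := h1 s' (List.mem_range.2 hl)
      rw [act_evA h'] at this
      simp at this
    · simp at h

/-- the index near which the point with index `m` has been added -/
def par (m : ℕ) : Option ℕ :=
  if m % 2 = 1 then act (m / 2).unpair.1 (m / 2).unpair.2 else none

theorem par_lt {m m' : ℕ} (h : par m = some m') : m' < m := by
  unfold par at h
  split at h
  · have h1 := act_lt h
    have h2 := Nat.unpair_right_le (m / 2)
    omega
  · simp at h

def rt (m : ℕ) : ℕ := if m % 2 = 0 then m / 2 else (m / 2).unpair.1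

/-- base point and list of stages of the point with index `m` -/
def nd (m : ℕ) : ℕ × List ℕ :=
  match h : par m with
  | none => (rt m, [])
  | some m' => ((nd m').1, (m / 2).unpair.2 :: (nd m').2)
termination_by m
decreasing_by all_goals exact par_lt h

theorem nd_none {m : ℕ} (h : par m = none) : nd m = (rt m, []) := by
  rw [nd]
  split
  · rfl
  · rename_i h'; rw [h] at h'; simp at h'

theorem nd_some {m m' : ℕ} (h : par m = some m') :
    nd m = ((nd m').1, (m / 2).unpair.2 :: (nd m').2) := by
  rw [nd]
  split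
  · rename_i h'; rw [h] at h'; simp at h'
  · rename_i h'
    rw [h] at h'
    simp only [Option.some.injEq] at h'
    subst h'
    rfl

/-- height of a list of stages -/
noncomputable def lh (l : List ℕ) : ℝ := (l.map fun s => (1 : ℝ) / 2 ^ (s + 2)).sum

open scoped Classical in
noncomputable def iN (e : ℕ) : ℕ :=
  if h : ∃ s m, act e s = some m then (nd (2 * Nat.pair e h.choose + 1)).1 else e

open scoped Classical in
noncomputable def hN (e : ℕ) : ℝ :=
  if h : ∃ s m, act e s = some m then lh (nd (2 * Nat.pair e h.choose + 1)).2 else 0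

theorem par_odd (e s : ℕ) : par (2 * Nat.pair e s + 1) = act e s := by
  unfold par
  have h1 : (2 * Nat.pair e s + 1) % 2 = 1 := by omega
  have h2 : (2 * Nat.pair e s + 1) / 2 = Nat.pair e s := by omega
  rw [if_pos h1, h2, Nat.unpair_pair]

theorem par_even (i : ℕ) : par (2 * i) = none := by
  unfold par
  rw [if_neg (by omega)]

theorem nd_even (i : ℕ) : nd (2 * i) = (i, []) := by
  rw [nd_none (par_even i)]
  unfold rt
  rw [if_pos (by omega)]
  congr 1
  omega

theorem nd_act {e s m : ℕ} (h : act e s = some m) :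
    nd (2 * Nat.pair e s + 1) = ((nd m).1, s :: (nd m).2) := by
  rw [nd_some ((par_odd e s).trans h)]
  have h2 : (2 * Nat.pair e s + 1) / 2 = Nat.pair e s := by omega
  rw [h2, Nat.unpair_pair]

theorem nd_not_act {e s : ℕ} (h : act e s = none) : nd (2 * Nat.pair e s + 1) = (e, []) := by
  rw [nd_none ((par_odd e s).trans h)]
  unfold rt
  rw [if_neg (by omega)]
  have h2 : (2 * Nat.pair e s + 1) / 2 = Nat.pair e s := by omega
  rw [h2, Nat.unpair_pair]

theorem iN_act {e s m : ℕ} (h : act e s = some m) : iN e = (nd (2 * Nat.pair e s + 1)).1 := by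
  have h1 : ∃ s m, act e s = some m := ⟨s, m, h⟩
  unfold iN
  rw [dif_pos h1]
  obtain ⟨m', hm'⟩ := h1.choose_spec
  rw [act_unique hm' h]

theorem hN_act {e s m : ℕ} (h : act e s = some m) : hN e = lh (nd (2 * Nat.pair e s + 1)).2 := by
  have h1 : ∃ s m, act e s = some m := ⟨s, m, h⟩
  unfold hN
  rw [dif_pos h1]
  obtain ⟨m', hm'⟩ := h1.choose_spec
  rw [act_unique hm' h]

theorem lh_nonneg (l : List ℕ) : 0 ≤ lh l := by
  unfold lh
  apply List.sum_nonneg
  intro x hx
  rw [List.mem_map] at hx
  obtain ⟨s, _, rfl⟩ := hx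
  positivity

theorem lh_cons (s : ℕ) (l : List ℕ) : lh (s :: l) = 1 / 2 ^ (s + 2) + lh l := by
  simp [lh]

theorem lh_nil : lh [] = 0 := by simp [lh]

theorem fresh_iff {e m : ℕ} : fresh e m = true ↔
    (m % 2 = 0 ∧ e < m / 2) ∨ (m % 2 = 1 ∧ e < (m / 2).unpair.1) := by
  unfold fresh
  rcases Nat.mod_two_eq_zero_or_one m with h | h
  · rw [if_pos h]; simp [h]
  · rw [if_neg (by omega)]; simp [h]

/-- the requirement is at most the stage -/
theorem act_le {e s m : ℕ} (h : act e s = some m) : e ≤ s := by
  have h1 := act_lt h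
  rcases fresh_iff.1 (act_fresh h) with h2 | h2
  · omega
  · have := Nat.unpair_left_le (m / 2)
    omega

theorem cases_index (m : ℕ) : (∃ i, m = 2 * i) ∨ ∃ e s, m = 2 * Nat.pair e s + 1 := by
  rcases Nat.mod_two_eq_zero_or_one m with h | h
  · left; exact ⟨m / 2, by omega⟩
  · right
    refine ⟨(m / 2).unpair.1, (m / 2).unpair.2, ?_⟩
    rw [Nat.pair_unpair]
    omega

/-- base index of an added point is large, its height is small -/
theorem nd_bound {e s m : ℕ} (h : act e s = some m) :
    e < (nd (2 * Nat.pair e s + 1)).1 ∧ lh (nd (2 * Nat.pair e s + 1)).2 ≤ 1 / 2 ^ e := by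
  induction s using Nat.strong_induction_on generalizing e m with
  | _ s ih =>
    rw [nd_act h]
    have hle := act_le h
    have hpow : (1:ℝ) / 2 ^ (s + 2) ≤ 1 / 2 ^ (e + 1) := by
      apply one_div_le_one_div_of_le (by positivity)
      exact pow_le_pow_right₀ (by norm_num) (by omega)
    have hsum : (1:ℝ) / 2 ^ (e + 1) + 1 / 2 ^ (e + 1) = 1 / 2 ^ e := by
      rw [pow_succ]; field_simp; norm_num
    have hlt := act_lt h
    rcases fresh_iff.1 (act_fresh h) with ⟨h1, h2⟩ | ⟨h1, h2⟩
    · obtain ⟨i, hi⟩ : ∃ i, m = 2 * i := ⟨m / 2, by omega⟩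
      subst hi
      rw [nd_even, lh_cons, lh_nil]
      refine ⟨by simpa using (by omega : e < i), ?_⟩
      have : (0:ℝ) ≤ 1 / 2 ^ (e + 1) := by positivity
      linarith
    · rcases cases_index m with ⟨i, rfl⟩ | ⟨e', s', rfl⟩
      · omega
      · have h3 : (2 * Nat.pair e' s' + 1) / 2 = Nat.pair e' s' := by omega
        rw [h3, Nat.unpair_pair] at h2
        simp only at h2
        cases ha : act e' s' with
        | none =>
          rw [nd_not_act ha, lh_cons, lh_nil]
          refine ⟨h2, ?_⟩
          have : (0:ℝ) ≤ 1 / 2 ^ (e + 1) := by positivity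
          linarith
        | some m' =>
          have hs' : s' < s := by
            have := Nat.right_le_pair e' s'
            omega
          obtain ⟨h4, h5⟩ := ih s' hs' ha
          rw [lh_cons]
          refine ⟨lt_trans h2 h4, ?_⟩
          have h6 : (1:ℝ) / 2 ^ e' ≤ 1 / 2 ^ (e + 1) := by
            apply one_div_le_one_div_of_le (by positivity)
            exact pow_le_pow_right₀ (by norm_num) (by omega)
          linarith

theorem iN_gt (e : ℕ) : e ≤ iN e := by
  by_cases h : ∃ s m, act e s = some m
  · obtain ⟨s, m, hm⟩ := h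
    rw [iN_act hm]
    exact (nd_bound hm).1.le
  · unfold iN
    rw [dif_neg h]

theorem iN_finite (n : ℕ) : {e | iN e = n}.Finite := by
  refine (Set.finite_Iic n).subset fun e he => ?_
  have h1 := iN_gt e
  rw [Set.mem_setOf_eq] at he
  rw [he] at h1
  exact h1

theorem hN_nonneg (e : ℕ) : 0 ≤ hN e := by
  unfold hN
  split
  · exact lh_nonneg _
  · exact le_rfl

theorem hN_le (e : ℕ) : hN e ≤ 1 / 2 ^ e := by
  by_cases h : ∃ s m, act e s = some m
  · obtain ⟨s, m, hm⟩ := h
    rw [hN_act hm]
    exact (nd_bound hm).2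
  · unfold hN
    rw [dif_neg h]
    positivity

theorem hN_lim : Filter.Tendsto hN Filter.atTop (nhds 0) := by
  refine squeeze_zero hN_nonneg hN_le ?_
  have := tendsto_pow_atTop_nhds_zero_of_lt_one (r := (1:ℝ) / 2) (by norm_num) (by norm_num)
  refine this.congr fun n => ?_
  rw [div_pow, one_pow]

end Pool.Agent.Helper583.TT
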