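import Pool.Agent.Helper583.TTASpace

/-!
Dense isolated points: the two presentations are not computably homeomorphic.
-/

namespace Pool.Agent.Helper583.TT

open Filter Topology
open Pool.Agent.Helper583.TC.J2 (valsO valsO_pre valsO_sound)

variable {Y : Type} [MetricSpace Y] {c : ℕ → Y}

theorem pow_split (i : ℕ) : (1 : ℝ) / 2 ^ i = 1 / 2 ^ (i + 1) + 1 / 2 ^ (i + 1) := by
  rw [pow_succ]; field_simp; norm_num

theorem pow_anti {i j : ℕ} (h : i ≤ j) : (1 : ℝ) / 2 ^ j ≤ 1 / 2 ^ i :=
  one_div_le_one_div_of_le (by positivity) (pow_le_pow_right₀ (by norm_num) h)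

/-- the added points of `M` are isolated -/
theorem aM_iso {p : ↥(TS c id fun e => (1 : ℝ) / 2 ^ e)} {i : ℕ}
    (h : dist p (aM c (2 * i + 1)) < 1 / 2 ^ (i + 1)) : p = aM c (2 * i + 1) := by
  have h1 : |p.1.2 - 1 / 2 ^ i| < 1 / 2 ^ (i + 1) := by
    have h2 : dist p.1.2 (aM c (2 * i + 1)).1.2 ≤ dist p (aM c (2 * i + 1)) := by
      rw [Subtype.dist_eq, Prod.dist_eq]
      exact le_max_right _ _
    rw [aM_odd, Real.dist_eq] at h2
    exact lt_of_le_of_lt h2 h
  have hpow := pow_split i
  have hpos : (0 : ℝ) < 1 / 2 ^ (i + 1) := by positivity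
  rw [abs_lt] at h1
  rcases p.2 with h2 | ⟨j, h2⟩
  · rw [h2] at h1
    linarith [h1.1]
  · have h3 : p.1.2 = 1 / 2 ^ j := by rw [h2]
    rw [h3] at h1
    rcases lt_trichotomy i j with hij | hij | hij
    · exfalso
      have h4 := pow_anti hij
      simp only [Nat.succ_eq_add_one] at h4
      linarith [h1.1]
    · apply Subtype.ext
      rw [h2, aM_odd, hij]
      rfl
    · exfalso
      obtain ⟨n, rfl⟩ : ∃ n, i = n + 1 := ⟨i - 1, by omega⟩
      have h4 := pow_anti (show j ≤ n by omega)
      have h5 := pow_split n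
      linarith [h1.2]

omit [MetricSpace Y] in
theorem aM_inj {i j : ℕ} (h : aM c (2 * i + 1) = aM c (2 * j + 1)) : i = j := by
  have h1 := congrArg (fun p => p.1.2) h
  simp only [aM_odd] at h1
  have h2 : (2 : ℝ) ^ i = 2 ^ j := by
    rw [div_eq_div_iff (by positivity) (by positivity)] at h1
    linarith
  exact Nat.pow_right_injective (le_refl 2) (by exact_mod_cast h2)

omit [MetricSpace Y] in
/-- the point added by the requirement `e` -/
theorem aN_act {e s m : ℕ} (h : act e s = some m) :
    (aN c (2 * Nat.pair e s + 1)).1 = ((aN c m).1.1, 1 / 2 ^ (s + 2) + (aN c m).1.2) := by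
  simp only [aN]
  rw [nd_act h, lh_cons]

theorem aN_act_dist {e s m : ℕ} (h : act e s = some m) :
    dist (aN c (2 * Nat.pair e s + 1)) (aN c m) = 1 / 2 ^ (s + 2) := by
  rw [Subtype.dist_eq, aN_act h, Prod.dist_eq]
  have h1 : (0:ℝ) ≤ 1 / 2 ^ (s + 2) := by positivity
  rw [dist_self, Real.dist_eq, add_sub_cancel_right, abs_of_nonneg h1, max_eq_right h1]

variable [CompleteSpace Y] {hd : DenseRange c} {hc : CR fun p : ℕ × ℕ => dist (c p.1) (c p.2)}

/-- the requirement `e` never acts if `e` codes a pair of inverse homeomorphisms -/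
theorem not_act {F : (NA hd hc).Y ≃ₜ (MA hd hc).Y} {e : ℕ}
    (h1 : Rn (NA hd hc) (MA hd hc) F e.unpair.1)
    (h2 : Rn (MA hd hc) (NA hd hc) F.symm e.unpair.2) (s m : ℕ) : act e s ≠ some m := by
  intro h
  obtain ⟨qs, hq1, hq2, -, hms, hm⟩ := evA_spec (act_evA h)
  set k := s.unpair.1 with hk
  set K := s.unpair.2.unpair.1 with hK
  set L := s.unpair.2.unpair.2 with hL
  set v : (MA hd hc).Y := aM c (2 * Nat.pair e k + 1) with hv
  have hname : IsName (MA hd hc) (fun _ => 2 * Nat.pair e k + 1) v := by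
    intro j
    have : dist ((MA hd hc).c (2 * Nat.pair e k + 1)) v = 0 := dist_self _
    rw [this]
    positivity
  obtain ⟨q, hqn, hqs, hqt⟩ := h2 v _ hname
  have hpre : pre (fun _ : ℕ => 2 * Nat.pair e k + 1) L = List.replicate L (2 * Nat.pair e k + 1) := by
    unfold pre
    rw [List.map_const', List.length_range]
  have hqs2 : qs = pre q (K + 3) := by
    refine valsO_sound q _ _ ?_ qs hq1
    intro i m' h'
    rw [← hpre] at h'
    exact hqs L i m' h'
  -- everything close to `x` is `x`
  have hclose : ∀ z : (NA hd hc).Y, dist z (F.symm v) ≤ 1 / 2 ^ K → z = F.symm v := by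
    intro z hz
    have h3 : dist ((MA hd hc).c (2 * Nat.pair e k + 1)) (F z) ≤ 1 / 2 ^ (Nat.pair e k + 2) := by
      refine commit h1 z (σ := qs.tail.take K) ?_ hq2
      intro j hj
      rw [hqs2] at hj ⊢
      have hlen : ((pre q (K + 3)).tail.take K).length = K := by
        rw [List.length_take, List.length_tail, pre_length]
        omega
      rw [hlen] at hj
      have hget : ((pre q (K + 3)).tail.take K).getD j 0 = q (j + 1) := by
        rw [List.getD_eq_getElem?_getD, List.getElem?_take, if_pos hj, List.getElem?_tail,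
          ← List.getD_eq_getElem?_getD, pre_getD q (by omega)]
      rw [hget]
      have h4 := hqn (j + 1)
      have h5 : (1 : ℝ) / 2 ^ K ≤ 1 / 2 ^ (j + 1) := by
        apply one_div_le_one_div_of_le (by positivity)
        exact pow_le_pow_right₀ (by norm_num) (by omega)
      have h6 : (1 : ℝ) / 2 ^ j = 1 / 2 ^ (j + 1) + 1 / 2 ^ (j + 1) := by
        rw [pow_succ]; field_simp; norm_num
      have h7 := dist_triangle ((NA hd hc).c (q (j + 1))) (F.symm v) z
      rw [dist_comm (F.symm v) z] at h7
      linarith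
    have h4 : F z = v := by
      refine aM_iso (lt_of_le_of_lt (b := 1 / 2 ^ (Nat.pair e k + 2)) ?_ ?_)
      · rw [dist_comm]
        exact h3
      · rw [show Nat.pair e k + 2 = (Nat.pair e k + 1) + 1 by ring]
        have h5 := pow_split (Nat.pair e k + 1)
        have h6 : (0:ℝ) < 1 / 2 ^ (Nat.pair e k + 1 + 1) := by positivity
        linarith
    rw [← h4, F.symm_apply_apply]
  -- the point `m` and the point added near `m`
  have hmq : m = q (K + 2) := by
    rw [hm, hqs2, pre_getD q (by omega)]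
  have hmx : dist (aN c m) (F.symm v) ≤ 1 / 2 ^ (K + 2) := by
    rw [hmq]
    exact hqn (K + 2)
  have hKs : K ≤ s := by
    rw [hK]
    exact le_trans (Nat.unpair_left_le _) (Nat.unpair_right_le _)
  have e1 : (aN c m : (NA hd hc).Y) = F.symm v :=
    hclose _ (le_trans hmx (pow_anti (by omega)))
  have hzm := aN_act_dist (c := c) h
  have e2 : (aN c (2 * Nat.pair e s + 1) : (NA hd hc).Y) = F.symm v := by
    apply hclose
    rw [← e1]
    show dist (aN c (2 * Nat.pair e s + 1)) (aN c m) ≤ 1 / 2 ^ K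
    rw [hzm]
    exact pow_anti (by omega)
  rw [show aN c (2 * Nat.pair e s + 1) = aN c m from e2.trans e1.symm, dist_self] at hzm
  have : (0:ℝ) < 1 / 2 ^ (s + 2) := by positivity
  linarith

theorem act_of_ev {e s m : ℕ} (h : evA e s = some m) : ∃ s' m', act e s' = some m' := by
  classical
  have hex : ∃ s, (evA e s).isSome := ⟨s, by rw [h]; rfl⟩
  have h1 := Nat.find_spec hex
  obtain ⟨m', hm'⟩ := Option.isSome_iff_exists.1 h1
  refine ⟨Nat.find hex, m', ?_⟩
  unfold act
  rw [if_pos, hm']
  rw [List.all_eq_true]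
  intro s' hs'
  rw [List.mem_range] at hs'
  have := Nat.find_min hex hs'
  simpa using this

/-- the requirement `e` finds a point if `e` codes a pair of inverse homeomorphisms -/
theorem exists_ev {F : (NA hd hc).Y ≃ₜ (MA hd hc).Y} {e : ℕ}
    (h1 : Rn (NA hd hc) (MA hd hc) F e.unpair.1)
    (h2 : Rn (MA hd hc) (NA hd hc) F.symm e.unpair.2) : ∃ s m, evA e s = some m := by
  classical
  -- the points which must be avoided
  let S : Set (NA hd hc).Y := (fun i => (aN c (2 * i) : (NA hd hc).Y)) '' Set.Iic e ∪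
    {z | ∃ e' ≤ e, z.1 = (c (iN e'), hN e')}
  have hS : S.Finite := by
    apply Set.Finite.union ((Set.finite_Iic e).image _)
    have h3 : {z : (NA hd hc).Y | ∃ e' ≤ e, z.1 = (c (iN e'), hN e')} ⊆
        Subtype.val ⁻¹' ((fun e' => (c (iN e'), hN e')) '' Set.Iic e) := by
      rintro z ⟨e', he', hz⟩
      exact ⟨e', he', hz.symm⟩
    exact (((Set.finite_Iic e).image _).preimage Subtype.val_injective.injOn).subset h3
  have hinj : Function.Injective fun k : ℕ =>
      F.symm (aM c (2 * Nat.pair e k + 1) : (MA hd hc).Y) := by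
    intro k k' hk
    have h3 := F.symm.injective hk
    have h4 := aM_inj h3
    exact (Nat.pair_eq_pair.1 h4).2
  obtain ⟨k, hk⟩ : ∃ k, F.symm (aM c (2 * Nat.pair e k + 1) : (MA hd hc).Y) ∉ S := by
    by_contra hcon
    push Not at hcon
    exact Set.infinite_range_of_injective hinj
      (hS.subset (Set.range_subset_iff.2 hcon))
  set v : (MA hd hc).Y := aM c (2 * Nat.pair e k + 1) with hv
  have hname : IsName (MA hd hc) (fun _ => 2 * Nat.pair e k + 1) v := by
    intro j
    have : dist ((MA hd hc).c (2 * Nat.pair e k + 1)) v = 0 := dist_self _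
    rw [this]
    positivity
  obtain ⟨q, hqn, hqs, hqt⟩ := h2 v _ hname
  have hpre : ∀ L, pre (fun _ : ℕ => 2 * Nat.pair e k + 1) L =
      List.replicate L (2 * Nat.pair e k + 1) := by
    intro L
    unfold pre
    rw [List.map_const', List.length_range]
  -- `x` is isolated
  obtain ⟨n₀, hn₀⟩ : ∃ n₀ : ℕ, ∀ z : (NA hd hc).Y, dist z (F.symm v) ≤ 1 / 2 ^ n₀ →
      z = F.symm v := by
    have hopen : IsOpen ({F.symm v} : Set (NA hd hc).Y) := by
      have h3 : IsOpen ({v} : Set (MA hd hc).Y) := by
        rw [Metric.isOpen_iff]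
        intro z hz
        rw [Set.mem_singleton_iff] at hz
        subst hz
        refine ⟨1 / 2 ^ (Nat.pair e k + 1), by positivity, ?_⟩
        intro z hz
        exact aM_iso hz
      have h4 : ({F.symm v} : Set (NA hd hc).Y) = F ⁻¹' {v} := by
        ext z
        simp only [Set.mem_singleton_iff, Set.mem_preimage]
        constructor
        · rintro rfl; exact F.apply_symm_apply v
        · intro hz
          rw [← hz, F.symm_apply_apply]
      rw [h4]
      exact h3.preimage F.continuous
    obtain ⟨ε, hε, hε2⟩ := Metric.isOpen_iff.1 hopen _ rfl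
    obtain ⟨n, hn⟩ := exists_pow_lt_of_lt_one hε (show (1 / 2 : ℝ) < 1 by norm_num)
    refine ⟨n, fun z hz => hε2 ?_⟩
    rw [Metric.mem_ball]
    rw [one_div_pow] at hn
    exact lt_of_le_of_lt hz hn
  -- the name of `x` without the first entry
  have hname' : IsName (NA hd hc) (fun n => q (n + 1)) (F.symm v) := fun n =>
    le_trans (hqn (n + 1)) (pow_anti (Nat.le_succ n))
  obtain ⟨r, hrn, hrs, hrt⟩ := h1 _ _ hname'
  rw [F.apply_symm_apply] at hrn
  obtain ⟨K₀, hK₀⟩ := hrt (Nat.pair e k + 2)
  have hr : r (Nat.pair e k + 2) = 2 * Nat.pair e k + 1 := by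
    have h3 := hrn (Nat.pair e k + 2)
    have h4 : (aM c (r (Nat.pair e k + 2)) : (MA hd hc).Y) = aM c (2 * Nat.pair e k + 1) := by
      refine aM_iso (lt_of_le_of_lt (b := 1 / 2 ^ (Nat.pair e k + 2)) h3 ?_)
      rw [show Nat.pair e k + 2 = (Nat.pair e k + 1) + 1 by ring]
      have h5 := pow_split (Nat.pair e k + 1)
      have h6 : (0:ℝ) < 1 / 2 ^ (Nat.pair e k + 1 + 1) := by positivity
      linarith
    rcases Nat.even_or_odd' (r (Nat.pair e k + 2)) with ⟨j, hj | hj⟩
    · exfalso
      have h5 : (aM c (r (Nat.pair e k + 2))).1.2 = (aM c (2 * Nat.pair e k + 1)).1.2 :=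
        congrArg (fun p => p.1.2) h4
      rw [hj, aM_even, aM_odd] at h5
      have : (0:ℝ) < 1 / 2 ^ Nat.pair e k := by positivity
      exact absurd h5 this.ne
    · rw [hj] at h4 ⊢
      rw [aM_inj h4]
  set K := max K₀ n₀ with hK
  have hm : (aN c (q (K + 2)) : (NA hd hc).Y) = F.symm v := by
    apply hn₀
    refine le_trans (hqn (K + 2)) (pow_anti ?_)
    have := le_max_right K₀ n₀
    omega
  have hfresh : fresh e (q (K + 2)) = true := by
    rw [fresh_iff]
    rcases cases_index (q (K + 2)) with ⟨i, hi⟩ | ⟨e', s', hi⟩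
    · left
      refine ⟨by omega, ?_⟩
      by_contra hcon
      apply hk
      left
      refine ⟨i, by rw [Set.mem_Iic]; omega, ?_⟩
      rw [← hm, hi]
    · right
      have h3 : (q (K + 2)) / 2 = Nat.pair e' s' := by omega
      refine ⟨by omega, ?_⟩
      rw [h3, Nat.unpair_pair]
      by_contra hcon
      push Not at hcon
      apply hk
      cases ha : act e' s' with
      | some m' =>
        right
        refine ⟨e', hcon, ?_⟩
        rw [iN_act ha, hN_act ha, ← hm, hi]
        rfl
      | none =>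
        left
        refine ⟨e', hcon, ?_⟩
        rw [← hm, hi]
        apply Subtype.ext
        show (c (nd (2 * e')).1, lh (nd (2 * e')).2) =
          (c (nd (2 * Nat.pair e' s' + 1)).1, lh (nd (2 * Nat.pair e' s' + 1)).2)
        rw [nd_even, nd_not_act ha]
  -- how much of the name is needed
  obtain ⟨L₁, hL₁⟩ : ∃ L₁, ∀ L ≥ L₁, ∀ n < K + 3,
      rn e.unpair.2 (List.replicate L (2 * Nat.pair e k + 1)) n = some (q n) := by
    choose T hT using hqt
    refine ⟨(Finset.range (K + 3)).sup T, fun L hL n hn => ?_⟩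
    rw [← hpre]
    exact hT n L (le_trans (Finset.le_sup (Finset.mem_range.2 hn)) hL)
  set L := max L₁ (q (K + 2) + 1) with hL
  have hvals : valsO (rn e.unpair.2 (List.replicate L (2 * Nat.pair e k + 1))) (K + 3) =
      some (pre q (K + 3)) :=
    valsO_pre q _ _ fun n hn => hL₁ L (le_max_left _ _) n hn
  refine ⟨Nat.pair k (Nat.pair K L), q (K + 2), ?_⟩
  unfold evA
  simp only [Nat.unpair_pair]
  rw [hvals, Option.bind_some, if_pos]
  · rw [pre_getD q (by omega)]
  · refine ⟨?_, ?_, ?_⟩
    · have htail : (pre q (K + 3)).tail.take K = pre (fun n => q (n + 1)) K := by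
        apply List.ext_getElem
        · rw [List.length_take, List.length_tail, pre_length, pre_length]
          omega
        · intro i h3 h4
          simp [pre]
      rw [htail, hK₀ K (le_max_left _ _), hr]
    · rw [pre_getD q (by omega)]
      exact hfresh
    · rw [pre_getD q (by omega)]
      have h3 := Nat.right_le_pair k (Nat.pair K L)
      have h4 := Nat.right_le_pair K L
      have h5 := le_max_right L₁ (q (K + 2) + 1)
      omega

/-- the two presentations are not computably homeomorphic -/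
theorem caseA {F : (NA hd hc).Y ≃ₜ (MA hd hc).Y} (h1 : CompMap (NA hd hc) (MA hd hc) F)
    (h2 : CompMap (MA hd hc) (NA hd hc) F.symm) : False := by
  obtain ⟨f, hf⟩ := rn_of_comp h1
  obtain ⟨g, hg⟩ := rn_of_comp h2
  have hf' : Rn (NA hd hc) (MA hd hc) F (Nat.pair f g).unpair.1 := by
    rw [Nat.unpair_pair]; exact hf
  have hg' : Rn (MA hd hc) (NA hd hc) F.symm (Nat.pair f g).unpair.2 := by
    rw [Nat.unpair_pair]; exact hg
  obtain ⟨s, m, hsm⟩ := exists_ev hf' hg'
  obtain ⟨s', m', h⟩ := act_of_ev hsm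
  exact not_act hf' hg' s' m' h

end Pool.Agent.Helper583.TT
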