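import Mathlib

namespace Pool.Agent.Helper583.TT

open Filter Topology

/-- the space `Y` together with points `(c (i e), h e)` above it -/
def TS {Y : Type} (c : ℕ → Y) (i : ℕ → ℕ) (h : ℕ → ℝ) : Set (Y × ℝ) :=
  {p | p.2 = 0 ∨ ∃ e, p = (c (i e), h e)}

variable {Y : Type} [MetricSpace Y] {c : ℕ → Y} {i : ℕ → ℕ} {h : ℕ → ℝ}

theorem tt_finite (hlim : Tendsto h atTop (𝓝 0)) {ε : ℝ} (hε : 0 < ε) :
    {p : Y × ℝ | p ∈ TS c i h ∧ ε ≤ |p.2|}.Finite := by
  have h1 : {e : ℕ | ε ≤ |h e|}.Finite := by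
    have h2 : ∀ᶠ e in atTop, |h e| < ε := by
      have := (Metric.tendsto_nhds.1 hlim) ε hε
      simpa [Real.dist_eq] using this
    rw [← Nat.cofinite_eq_atTop] at h2
    have h3 := h2
    rw [Filter.eventually_cofinite] at h3
    simpa only [not_lt] using h3
  apply (h1.image (fun e => (c (i e), h e))).subset
  rintro p ⟨hp | ⟨e, he⟩, hp2⟩
  · rw [hp, abs_zero] at hp2
    exact absurd hε (not_lt.2 hp2)
  · refine ⟨e, ?_, he.symm⟩
    rw [he] at hp2
    exact hp2

theorem ts_closed (hlim : Tendsto h atTop (𝓝 0)) : IsClosed (TS c i h) := by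
  rw [← isOpen_compl_iff, isOpen_iff_mem_nhds]
  intro p hp
  have hp2 : p.2 ≠ 0 := fun h0 => hp (Or.inl h0)
  have hpos : 0 < |p.2| / 2 := by
    have := abs_pos.2 hp2
    linarith
  have hF := tt_finite (c := c) (i := i) (h := h) hlim hpos
  have h1 : {q : Y × ℝ | q ∈ TS c i h ∧ |p.2| / 2 ≤ |q.2|}ᶜ ∈ 𝓝 p :=
    hF.isClosed.isOpen_compl.mem_nhds (fun hq => hp hq.1)
  have h2 : {q : Y × ℝ | |p.2| / 2 < |q.2|} ∈ 𝓝 p := by
    apply (isOpen_lt continuous_const (continuous_snd.abs)).mem_nhds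
    show |p.2| / 2 < |p.2|
    linarith
  filter_upwards [h1, h2] with q hq1 hq2 hq
  exact hq1 ⟨hq, le_of_lt hq2⟩

noncomputable def ttu (c : ℕ → Y) (j : ℕ) (y : Y) : ℝ := min 1 (dist y (c j))

def ttV (c : ℕ → Y) (k : ℕ) (y : Y) : Set Y :=
  {y2 | ∀ j < k, |ttu c j y - ttu c j y2| < 1 / 2 ^ k}

theorem ttu_cont (c : ℕ → Y) (j : ℕ) : Continuous (ttu c j) :=
  continuous_const.min (continuous_id.dist continuous_const)

theorem ttV_open (c : ℕ → Y) (k : ℕ) (y : Y) : IsOpen (ttV c k y) := by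
  have h1 : ttV c k y = ⋂ j ∈ Finset.range k, {y2 | |ttu c j y - ttu c j y2| < 1 / 2 ^ k} := by
    ext y2; simp [ttV]
  rw [h1]
  exact isOpen_biInter_finset (fun j _ => isOpen_lt ((continuous_const.sub (ttu_cont c j)).abs) continuous_const)

theorem ttV_mono (c : ℕ → Y) {k k' : ℕ} (hk : k ≤ k') (y : Y) : ttV c k' y ⊆ ttV c k y := by
  intro y2 hy j hj
  refine lt_of_lt_of_le (hy j (lt_of_lt_of_le hj hk)) ?_
  exact one_div_le_one_div_of_le (by positivity) (pow_le_pow_right₀ (by norm_num) hk)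

theorem ttV_self (c : ℕ → Y) (k : ℕ) (y : Y) : y ∈ ttV c k y := by
  intro j _
  rw [sub_self, abs_zero]; positivity

theorem ttV_symm {c : ℕ → Y} {k : ℕ} {y y2 : Y} (h : y2 ∈ ttV c k y) : y ∈ ttV c k y2 := by
  intro j hj
  rw [abs_sub_comm]; exact h j hj

theorem tt_bad (c : ℕ → Y) (k : ℕ) : {y | (ttV c k y).Finite}.Finite := by
  apply Set.Finite.of_finite_fibers (fun (y : Y) (j : Fin k) => ⌊2 ^ k * ttu c j y⌋₊)
  · apply (Set.finite_Icc (0 : Fin k → ℕ) (fun _ => 2 ^ k)).subset
    rintro g ⟨y, _, rfl⟩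
    refine ⟨fun j => Nat.zero_le _, fun j => ?_⟩
    show ⌊2 ^ k * ttu c j y⌋₊ ≤ 2 ^ k
    have h1 : 2 ^ k * ttu c j y ≤ ((2 ^ k : ℕ) : ℝ) := by
      push_cast
      exact mul_le_of_le_one_right (by positivity) (min_le_left _ _)
    exact Nat.floor_le_of_le h1
  · rintro g ⟨y, hy, rfl⟩
    apply Set.Finite.subset (s := ttV c k y) hy
    rintro y2 ⟨_, h2⟩ j hj
    have h3 := congrFun h2 ⟨j, hj⟩
    have h3' : ⌊(2:ℝ) ^ k * ttu c j y2⌋₊ = ⌊(2:ℝ) ^ k * ttu c j y⌋₊ := h3
    have hu : ∀ y, 0 ≤ (2:ℝ) ^ k * ttu c j y := fun y =>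
      mul_nonneg (by positivity) (le_min zero_le_one dist_nonneg)
    have a1 := Nat.floor_le (hu y)
    have a2 := Nat.lt_floor_add_one ((2:ℝ) ^ k * ttu c j y)
    have b1 := Nat.floor_le (hu y2)
    have b2 := Nat.lt_floor_add_one ((2:ℝ) ^ k * ttu c j y2)
    rw [h3'] at b1 b2
    have h4 : |(2:ℝ) ^ k * ttu c j y - 2 ^ k * ttu c j y2| < 1 := by
      rw [abs_lt]; constructor <;> linarith
    rw [← mul_sub, abs_mul, abs_of_pos (by positivity : (0:ℝ) < 2 ^ k)] at h4
    rw [lt_div_iff₀ (by positivity), mul_comm]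
    exact h4

theorem tt_conv (hd : DenseRange c) {β : Type} {l : Filter β} {z z' : β → Y} {y : Y}
    (hz : Tendsto z l (𝓝 y)) (hV : ∀ k, ∀ᶠ b in l, z' b ∈ ttV c k (z b)) : Tendsto z' l (𝓝 y) := by
  rw [Metric.tendsto_nhds]
  intro ε hε
  obtain ⟨η, hη0, hη1, hη2⟩ : ∃ η : ℝ, 0 < η ∧ 4 * η ≤ ε ∧ 3 * η ≤ 1 :=
    ⟨min ε 1 / 4, by positivity, by have := min_le_left ε 1; linarith,
      by have := min_le_right ε 1; linarith⟩
  obtain ⟨j, hj⟩ := hd.exists_dist_lt y hη0
  obtain ⟨k0, hk0⟩ := exists_pow_lt_of_lt_one hη0 (by norm_num : (1/2 : ℝ) < 1)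
  have hk : (1 : ℝ) / 2 ^ (max k0 (j + 1)) < η := by
    refine lt_of_le_of_lt ?_ hk0
    rw [one_div_pow]
    exact one_div_le_one_div_of_le (by positivity) (pow_le_pow_right₀ (by norm_num) (le_max_left _ _))
  filter_upwards [hV (max k0 (j + 1)), (Metric.tendsto_nhds.1 hz) η hη0] with b h1 h2
  have h3 := lt_trans (h1 j (lt_of_lt_of_le (Nat.lt_succ_self j) (le_max_right _ _))) hk
  have h4 : ttu c j (z b) < 2 * η := by
    refine lt_of_le_of_lt (min_le_right _ _) ?_
    have := dist_triangle (z b) y (c j)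
    linarith
  have h5 : ttu c j (z' b) < 3 * η := by
    have := (abs_lt.1 h3).1
    linarith
  have h6 : dist (z' b) (c j) < 3 * η := by
    unfold ttu at h5
    rcases min_lt_iff.1 h5 with h | h
    · linarith
    · exact h
  have h7 := dist_triangle (z' b) (c j) y
  rw [dist_comm (c j) y] at h7
  linarith

theorem tt_sdr {ι α : Type} [Countable ι] (S : ι → Set α) (hS : ∀ a, (S a).Infinite) :
    ∃ f : ι → α, Function.Injective f ∧ ∀ a, f a ∈ S a := by
  classical
  obtain ⟨e, he⟩ := exists_injective_nat ι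
  choose t ht hc using fun a => (hS a).exists_subset_card_eq (e a + 1)
  have := (Finset.all_card_le_biUnion_card_iff_exists_injective t).1 (by
    intro s
    rcases s.eq_empty_or_nonempty with rfl | hs
    · simp
    · obtain ⟨a0, ha0, hmax⟩ := s.exists_max_image e hs
      have h1 : s.card ≤ e a0 + 1 := by
        rw [← Finset.card_image_of_injective s he]
        have : s.image e ⊆ Finset.range (e a0 + 1) := by
          intro n hn
          obtain ⟨a, ha, rfl⟩ := Finset.mem_image.1 hn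
          exact Finset.mem_range.2 (Nat.lt_succ_of_le (hmax a ha))
        simpa using Finset.card_le_card this
      rw [← hc a0] at h1
      exact h1.trans (Finset.card_le_card (Finset.subset_biUnion_of_mem t ha0)))
  obtain ⟨f, hf, hft⟩ := this
  exact ⟨f, hf, fun a => ht a (hft a)⟩

theorem tt_root (hd : DenseRange c) {y : Y} (hy : IsOpen ({y} : Set Y)) : ∃ n, c n = y := by
  obtain ⟨n, hn⟩ := hd.exists_mem_open hy ⟨y, rfl⟩
  exact ⟨n, hn⟩

theorem tt_fib (hinj : Function.Injective c) (hi : ∀ n, {e | i e = n}.Finite) (n : ℕ) :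
    {p : ↥(TS c i h) | p.1.1 = c n}.Finite := by
  apply Set.Finite.of_finite_image (f := Subtype.val) _ Subtype.val_injective.injOn
  apply ((((hi n).image (fun e => (c (i e), h e))).insert (c n, (0:ℝ)))).subset
  rintro _ ⟨q, hq, rfl⟩
  have hq' : q.1.1 = c n := hq
  rcases q.2 with hq0 | ⟨e, he⟩
  · left; exact Prod.ext hq' hq0
  · right
    refine ⟨e, ?_, he.symm⟩
    show i e = n
    apply hinj
    rw [← hq', he]

theorem tt_iso (hd : DenseRange c) (hinj : Function.Injective c) (hi : ∀ n, {e | i e = n}.Finite)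
    (hlim : Tendsto h atTop (𝓝 0)) (p : ↥(TS c i h))
    (hp : ¬ (p.1.2 = 0 ∧ ¬ IsOpen ({p.1.1} : Set Y))) : IsOpen ({p} : Set ↥(TS c i h)) := by
  by_cases h2 : p.1.2 = 0
  · have hop : IsOpen ({p.1.1} : Set Y) := by
      by_contra hno; exact hp ⟨h2, hno⟩
    apply isOpen_singleton_of_finite_mem_nhds p (s := {q : ↥(TS c i h) | q.1.1 = p.1.1})
    · exact (hop.preimage (continuous_fst.comp continuous_subtype_val)).mem_nhds rfl
    · obtain ⟨n, hn⟩ := tt_root hd hop
      rw [← hn]
      exact tt_fib hinj hi n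
  · have hpos : 0 < |p.1.2| / 2 := by
      have := abs_pos.2 h2
      linarith
    apply isOpen_singleton_of_finite_mem_nhds p (s := {q : ↥(TS c i h) | |p.1.2| / 2 < |q.1.2|})
    · apply (isOpen_lt continuous_const ((continuous_snd.comp continuous_subtype_val).abs)).mem_nhds
      show |p.1.2| / 2 < |p.1.2|
      linarith
    · apply Set.Finite.of_finite_image (f := Subtype.val) _ Subtype.val_injective.injOn
      apply (tt_finite (c := c) (i := i) (h := h) hlim hpos).subset
      rintro _ ⟨q, hq, rfl⟩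
      exact ⟨q.2, le_of_lt hq⟩

/-- Adding isolated points close to `Y` does not change `Y` if the isolated points of `Y` are
dense: the new point number `e` has root `c (i e)` and height `h e`, every root is used finitely
often and the heights tend to `0`. -/
theorem twin [Infinite Y] (hd : DenseRange c) (hinj : Function.Injective c)
    (hiso : Dense {y : Y | IsOpen ({y} : Set Y)}) (hi : ∀ n, {e | i e = n}.Finite)
    (h0 : ∀ e, 0 ≤ h e) (hlim : Tendsto h atTop (𝓝 0)) :
    Nonempty (↥(TS c i h) ≃ₜ Y) := by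
  classical
  obtain ⟨D, hD⟩ : ∃ D : Set ↥(TS c i h), D = {p | ¬ (p.1.2 = 0 ∧ ¬ IsOpen ({p.1.1} : Set Y))} := ⟨_, rfl⟩
  have hDmem : ∀ p, p ∈ D ↔ ¬ (p.1.2 = 0 ∧ ¬ IsOpen ({p.1.1} : Set Y)) := fun p => by rw [hD]; rfl
  have hDopen : ∀ p ∈ D, IsOpen ({p} : Set ↥(TS c i h)) := fun p hp =>
    tt_iso hd hinj hi hlim p ((hDmem p).1 hp)
  have hDr : ∀ p ∈ D, ∃ n, p.1.1 = c n := by
    intro p hp
    rw [hDmem] at hp
    rcases p.2 with h2 | ⟨e, he⟩
    · have hop : IsOpen ({p.1.1} : Set Y) := by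
        by_contra hno; exact hp ⟨h2, hno⟩
      obtain ⟨n, hn⟩ := tt_root hd hop
      exact ⟨n, hn.symm⟩
    · exact ⟨i e, by rw [he]⟩
  have hDc : D.Countable := by
    apply (Set.countable_iUnion (fun n => (tt_fib (h := h) hinj hi n).countable)).mono
    intro p hp
    obtain ⟨n, hn⟩ := hDr p hp
    exact Set.mem_iUnion.2 ⟨n, hn⟩
  have : Countable ↥D := hDc.to_subtype
  obtain ⟨idx, hidx⟩ := exists_injective_nat ↥D
  have hDfib : ∀ y : Y, {p : ↥D | p.1.1.1 = y}.Finite := by
    intro y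
    by_cases hy : ∃ n, y = c n
    · obtain ⟨n, rfl⟩ := hy
      exact (tt_fib (h := h) hinj hi n).preimage Subtype.val_injective.injOn
    · have : {p : ↥D | p.1.1.1 = y} = ∅ := by
        apply Set.eq_empty_iff_forall_notMem.2
        intro p hp
        obtain ⟨n, hn⟩ := hDr p.1 p.2
        exact hy ⟨n, by rw [← hn]; exact hp.symm⟩
      rw [this]; exact Set.finite_empty
  -- the levels
  set κ : ↥D → ℕ := fun p => Nat.findGreatest (fun k => (ttV c k p.1.1.1).Infinite) (idx p) with hκ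
  have hκ1 : ∀ p : ↥D, (ttV c (κ p) p.1.1.1).Infinite := by
    intro p
    have hz : (ttV c 0 p.1.1.1).Infinite := by
      have : ttV c 0 p.1.1.1 = Set.univ := by ext y; simp [ttV]
      rw [this]; exact Set.infinite_univ
    exact Nat.findGreatest_spec (P := fun k => (ttV c k p.1.1.1).Infinite) (Nat.zero_le (idx p)) hz
  have hS : ∀ p : ↥D, (ttV c (κ p) p.1.1.1 ∩ {y : Y | IsOpen ({y} : Set Y)}).Infinite := by
    intro p hfin
    apply hκ1 p
    apply hfin.subset
    have h1 := hiso.open_subset_closure_inter (ttV_open c (κ p) p.1.1.1)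
    rwa [hfin.isClosed.closure_eq] at h1
  obtain ⟨fD, hfD, hfDS⟩ := tt_sdr (fun p : ↥D => ttV c (κ p) p.1.1.1 ∩ {y : Y | IsOpen ({y} : Set Y)}) hS
  set f : ↥(TS c i h) → Y := fun p => if hp : p ∈ D then fD ⟨p, hp⟩ else p.1.1 with hf
  set g : Y → ↥(TS c i h) := fun y => ⟨(y, 0), Or.inl rfl⟩ with hg
  have hfpos : ∀ p (hp : p ∈ D), f p = fD ⟨p, hp⟩ := fun p hp => by rw [hf]; exact dif_pos hp
  have hfneg : ∀ p, p ∉ D → f p = p.1.1 := fun p hp => by rw [hf]; exact dif_neg hp
  have hneg : ∀ p, p ∉ D → p.1.2 = 0 ∧ ¬ IsOpen ({p.1.1} : Set Y) := fun p hp => by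
    rw [hDmem, not_not] at hp; exact hp
  have hfinj : Function.Injective f := by
    intro p q hpq
    by_cases hp : p ∈ D <;> by_cases hq : q ∈ D
    · rw [hfpos p hp, hfpos q hq] at hpq
      exact congrArg Subtype.val (hfD hpq)
    · rw [hfpos p hp, hfneg q hq] at hpq
      have h1 : IsOpen ({fD ⟨p, hp⟩} : Set Y) := (hfDS ⟨p, hp⟩).2
      rw [hpq] at h1
      exact absurd h1 (hneg q hq).2
    · rw [hfneg p hp, hfpos q hq] at hpq
      have h1 : IsOpen ({fD ⟨q, hq⟩} : Set Y) := (hfDS ⟨q, hq⟩).2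
      rw [← hpq] at h1
      exact absurd h1 (hneg p hp).2
    · rw [hfneg p hp, hfneg q hq] at hpq
      exact Subtype.ext (Prod.ext hpq ((hneg p hp).1.trans (hneg q hq).1.symm))
  have hginj : Function.Injective g := by
    intro a b hab
    exact congrArg (fun p : ↥(TS c i h) => p.1.1) hab
  have hffin : ∀ k, {p : ↥(TS c i h) | f p ∉ ttV c k p.1.1}.Finite := by
    intro k
    have h1 : {p : ↥D | idx p < k}.Finite := (Set.finite_lt_nat k).preimage hidx.injOn
    have h2 : {p : ↥D | (ttV c k p.1.1.1).Finite}.Finite :=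
      Set.Finite.preimage' (f := fun p : ↥D => p.1.1.1) (tt_bad c k) (fun y _ => hDfib y)
    apply ((h1.union h2).image Subtype.val).subset
    intro p hp
    have hpD : p ∈ D := by
      by_contra hpD
      apply hp
      rw [hfneg p hpD]
      exact ttV_self c k _
    refine ⟨⟨p, hpD⟩, ?_, rfl⟩
    by_contra hno
    rw [Set.mem_union, not_or] at hno
    have hk1 : k ≤ idx ⟨p, hpD⟩ := not_lt.1 hno.1
    have hk2 : (ttV c k p.1.1).Infinite := hno.2
    apply hp
    rw [hfpos p hpD]
    have h3 : k ≤ κ ⟨p, hpD⟩ := Nat.le_findGreatest hk1 hk2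
    exact ttV_mono c h3 _ (hfDS ⟨p, hpD⟩).1
  obtain ⟨β, hβb, hβR⟩ := Function.Embedding.schroeder_bernstein_of_rel hfinj hginj
    (fun p y => y = f p ∨ p = g y) (fun p => Or.inl rfl) (fun y => Or.inr rfl)
  have hβfin : ∀ k, {p : ↥(TS c i h) | β p ∉ ttV c k p.1.1}.Finite := by
    intro k
    apply (hffin k).subset
    intro p hp hfp
    apply hp
    rcases hβR p with h1 | h1
    · rw [h1]; exact hfp
    · have : p.1.1 = β p := congrArg (fun p : ↥(TS c i h) => p.1.1) h1
      rw [← this]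
      exact ttV_self c k _
  have hβ0 : ∀ p, p ∉ D → β p = p.1.1 := by
    intro p hp
    rcases hβR p with h1 | h1
    · rw [h1]; exact hfneg p hp
    · have : p.1.1 = β p := congrArg (fun p : ↥(TS c i h) => p.1.1) h1
      exact this.symm
  refine ⟨⟨Equiv.ofBijective β hβb, ?_, ?_⟩⟩
  · show Continuous β
    rw [continuous_iff_continuousAt]
    intro p
    by_cases hp : p ∈ D
    · rw [ContinuousAt, (isOpen_singleton_iff_nhds_eq_pure p).1 (hDopen p hp)]
      exact tendsto_pure_nhds _ _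
    · rw [ContinuousAt, hβ0 p hp]
      apply tt_conv hd (z := fun q : ↥(TS c i h) => q.1.1)
      · exact (continuous_fst.comp continuous_subtype_val).continuousAt
      · intro k
        have : {q : ↥(TS c i h) | β q ∉ ttV c k q.1.1}ᶜ ∈ 𝓝 p := by
          apply (hβfin k).isClosed.isOpen_compl.mem_nhds
          intro hq
          apply hq
          rw [hβ0 p hp]
          exact ttV_self c k _
        filter_upwards [this] with q hq
        exact not_not.1 hq
  · show Continuous (Equiv.ofBijective β hβb).symm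
    set F := Equiv.ofBijective β hβb with hF
    have hFβ : ∀ p, F p = β p := fun p => rfl
    rw [continuous_iff_continuousAt]
    intro y
    by_cases hy : IsOpen ({y} : Set Y)
    · rw [ContinuousAt, (isOpen_singleton_iff_nhds_eq_pure y).1 hy]
      exact tendsto_pure_nhds _ _
    · have hgD : g y ∉ D := by
        rw [hDmem, not_not]
        exact ⟨rfl, hy⟩
      have hβg : β (g y) = y := hβ0 _ hgD
      have hFy : F.symm y = g y := by
        rw [Equiv.symm_apply_eq, hFβ, hβg]
      rw [ContinuousAt, hFy, tendsto_subtype_rng]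
      have h1 : Tendsto (fun y' => (F.symm y').1.1) (𝓝 y) (𝓝 y) := by
        apply tt_conv hd (z := fun y' => y') tendsto_id
        intro k
        have h2 : (β '' {p : ↥(TS c i h) | β p ∉ ttV c k p.1.1})ᶜ ∈ 𝓝 y := by
          apply ((hβfin k).image β).isClosed.isOpen_compl.mem_nhds
          rintro ⟨p, hp, hpy⟩
          have : p = g y := hβb.1 (hpy.trans hβg.symm)
          subst this
          apply hp
          rw [hβg]
          exact ttV_self c k _
        filter_upwards [h2] with y' hy'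
        by_contra hno
        apply hy'
        refine ⟨F.symm y', ?_, ?_⟩
        · intro hV
          apply hno
          have : β (F.symm y') = y' := F.apply_symm_apply y'
          rw [this] at hV
          exact ttV_symm hV
        · exact F.apply_symm_apply y'
      have h2 : Tendsto (fun y' => (F.symm y').1.2) (𝓝 y) (𝓝 0) := by
        rw [Metric.tendsto_nhds]
        intro ε hε
        have hfin : {p : ↥(TS c i h) | ε ≤ |p.1.2|}.Finite := by
          apply Set.Finite.of_finite_image (f := Subtype.val) _ Subtype.val_injective.injOn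
          apply (tt_finite (c := c) (i := i) (h := h) hlim hε).subset
          rintro _ ⟨q, hq, rfl⟩
          exact ⟨q.2, hq⟩
        have h2 : (β '' {p : ↥(TS c i h) | ε ≤ |p.1.2|})ᶜ ∈ 𝓝 y := by
          apply (hfin.image β).isClosed.isOpen_compl.mem_nhds
          rintro ⟨p, hp, hpy⟩
          have : p = g y := hβb.1 (hpy.trans hβg.symm)
          subst this
          have h3 : ε ≤ |(0:ℝ)| := hp
          rw [abs_zero] at h3
          exact absurd hε (not_lt.2 h3)
        filter_upwards [h2] with y' hy'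
        by_contra hno
        apply hy'
        refine ⟨F.symm y', ?_, F.apply_symm_apply y'⟩
        rw [Real.dist_eq, sub_zero, not_lt] at hno
        exact hno
      exact h1.prodMk_nhds h2

end Pool.Agent.Helper583.TT
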