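import Pool.Agent.Helper583.TTAComp
import Pool.Agent.Helper583.TTTwin

/-!
Dense isolated points: the two presentations.
-/

namespace Pool.Agent.Helper583.TT

open Filter Topology

theorem cr_of_comp (M : CMS) : CR fun p : ℕ × ℕ => dist (M.c p.1) (M.c p.2) := by
  obtain ⟨q, hq, h⟩ := M.comp
  refine ⟨fun p => q (p.1.1, p.1.2, p.2), ?_, fun a k => h a.1 a.2 k⟩
  exact hq.comp ((Computable.fst.comp Computable.fst).pair
    ((Computable.snd.comp Computable.fst).pair Computable.snd))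

theorem comp_of_cr {Y : Type} [MetricSpace Y] {c : ℕ → Y}
    (hc : CR fun p : ℕ × ℕ => dist (c p.1) (c p.2)) :
    ∃ q : ℕ × ℕ × ℕ → ℕ, Computable q ∧
    ∀ i j k, |dist (c i) (c j) - (q (i, j, k) : ℝ) / 2 ^ k| ≤ 1 / 2 ^ k := by
  obtain ⟨q, hq, h⟩ := hc
  refine ⟨fun p => q ((p.1, p.2.1), p.2.2), ?_, fun i j k => h (i, j) k⟩
  exact hq.comp ((Computable.fst.pair (Computable.fst.comp Computable.snd)).pair
    (Computable.snd.comp Computable.snd))

variable {Y : Type} [MetricSpace Y] (c : ℕ → Y)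

/-- the points of the space `N` -/
noncomputable def aN (m : ℕ) : ↥(TS c iN hN) :=
  ⟨(c (nd m).1, lh (nd m).2), by
    rcases cases_index m with ⟨i, rfl⟩ | ⟨e, s, rfl⟩
    · left; rw [nd_even, lh_nil]
    · cases h : act e s with
      | none => left; rw [nd_not_act h, lh_nil]
      | some m' => right; exact ⟨e, by rw [iN_act h, hN_act h]⟩⟩

/-- the heights of the points of the space `M` -/
noncomputable def hM (m : ℕ) : ℝ := if m % 2 = 0 then 0 else 1 / 2 ^ (m / 2)

/-- the points of the space `M` -/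
noncomputable def aM (m : ℕ) : ↥(TS c id fun e => (1 : ℝ) / 2 ^ e) :=
  ⟨(c (m / 2), hM m), by
    unfold hM
    split
    · left; rfl
    · right; exact ⟨m / 2, rfl⟩⟩

theorem pow_lim : Tendsto (fun e : ℕ => (1 : ℝ) / 2 ^ e) atTop (𝓝 0) := by
  have := tendsto_pow_atTop_nhds_zero_of_lt_one (r := (1:ℝ) / 2) (by norm_num) (by norm_num)
  refine this.congr fun n => ?_
  rw [div_pow, one_pow]

variable {c}

theorem dense_of {i : ℕ → ℕ} {h : ℕ → ℝ} (hd : DenseRange c) (a : ℕ → ↥(TS c i h))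
    (h1 : ∀ n, ∃ m, (a m).1 = (c n, 0)) (h2 : ∀ e, ∃ m, (a m).1 = (c (i e), h e)) :
    DenseRange a := by
  rw [Metric.denseRange_iff]
  rintro ⟨⟨y, t⟩, hy⟩ r hr
  rcases hy with hy | ⟨e, he⟩
  · simp only at hy
    subst hy
    obtain ⟨n, hn⟩ := Metric.denseRange_iff.1 hd y r hr
    obtain ⟨m, hm⟩ := h1 n
    refine ⟨m, ?_⟩
    rw [Subtype.dist_eq, hm, Prod.dist_eq]
    simpa using hn
  · obtain ⟨m, hm⟩ := h2 e
    refine ⟨m, ?_⟩
    show dist (y, t) (a m).1 < r
    rw [hm, he, dist_self]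
    exact hr

theorem aN_dense (hd : DenseRange c) : DenseRange (aN c) := by
  apply dense_of hd
  · intro n
    refine ⟨2 * n, ?_⟩
    simp only [aN, nd_even, lh_nil]
  · intro e
    by_cases h : ∃ s m, act e s = some m
    · obtain ⟨s, m, hm⟩ := h
      refine ⟨2 * Nat.pair e s + 1, ?_⟩
      rw [iN_act hm, hN_act hm]
      rfl
    · refine ⟨2 * e, ?_⟩
      have h1 : iN e = e := by unfold iN; rw [dif_neg h]
      have h2 : hN e = 0 := by unfold hN; rw [dif_neg h]
      rw [h1, h2]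
      simp only [aN, nd_even, lh_nil]

omit [MetricSpace Y] in
theorem aM_even (i : ℕ) : (aM c (2 * i)).1 = (c i, 0) := by
  have h1 : 2 * i / 2 = i := by omega
  have h2 : 2 * i % 2 = 0 := by omega
  simp only [aM, hM, h1, h2, if_true]

omit [MetricSpace Y] in
theorem aM_odd (i : ℕ) : (aM c (2 * i + 1)).1 = (c i, 1 / 2 ^ i) := by
  have h1 : (2 * i + 1) / 2 = i := by omega
  have h2 : (2 * i + 1) % 2 ≠ 0 := by omega
  simp only [aM, hM, h1, if_neg h2]

theorem aM_dense (hd : DenseRange c) : DenseRange (aM c) := by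
  apply dense_of hd
  · intro n
    exact ⟨2 * n, aM_even n⟩
  · intro e
    exact ⟨2 * e + 1, aM_odd e⟩

theorem cr_aN (hc : CR fun p : ℕ × ℕ => dist (c p.1) (c p.2)) :
    CR fun p : ℕ × ℕ => dist (aN c p.1) (aN c p.2) := by
  have h1 : Computable fun m => (nd m).1 := Computable.fst.comp primrec_nd.to_comp
  have h2 : Computable fun m => (nd m).2 := Computable.snd.comp primrec_nd.to_comp
  have h3 := hc.comp ((h1.comp Computable.fst).pair (h1.comp Computable.snd) :
    Computable fun p : ℕ × ℕ => ((nd p.1).1, (nd p.2).1))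
  have h4 := (cr_lh (h2.comp (Computable.fst (α := ℕ) (β := ℕ)))).absdiff
    (cr_lh (h2.comp (Computable.snd (α := ℕ) (β := ℕ))))
  exact (h3.max h4).congr fun p => rfl

theorem comp_half : Computable fun m : ℕ => m / 2 :=
  (Primrec.nat_div.comp Primrec.id (Primrec.const 2)).to_comp

theorem cr_hM : CR hM := by
  have hb : Computable fun m : ℕ => decide (m % 2 = 0) :=
    ((Primrec.eq.comp (Primrec.nat_mod.comp Primrec.id (Primrec.const 2))
      (Primrec.const 0)).decide).to_comp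
  have h1 : CR fun m : ℕ => ((0 : ℕ) : ℝ) := CR.nat (Computable.const 0)
  have h2 : CR fun m : ℕ => ((1 : ℕ) : ℝ) / 2 ^ (m / 2) :=
    (CR.nat (Computable.const 1)).div_pow comp_half
  refine (CR.ite hb h1 h2).congr fun m => ?_
  unfold hM
  simp

theorem cr_aM (hc : CR fun p : ℕ × ℕ => dist (c p.1) (c p.2)) :
    CR fun p : ℕ × ℕ => dist (aM c p.1) (aM c p.2) := by
  have h3 := hc.comp ((comp_half.comp Computable.fst).pair (comp_half.comp Computable.snd) :
    Computable fun p : ℕ × ℕ => (p.1 / 2, p.2 / 2))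
  have h4 := (cr_hM.comp (Computable.fst (α := ℕ) (β := ℕ))).absdiff
    (cr_hM.comp (Computable.snd (α := ℕ) (β := ℕ)))
  exact (h3.max h4).congr fun p => rfl

/-- the presentation `N` -/
noncomputable def NA [CompleteSpace Y] (hd : DenseRange c)
    (hc : CR fun p : ℕ × ℕ => dist (c p.1) (c p.2)) : CMS :=
  haveI : CompleteSpace ↥(TS c iN hN) := (ts_closed hN_lim).completeSpace_coe
  { Y := ↥(TS c iN hN)
    c := aN c
    dense := aN_dense hd
    comp := comp_of_cr (cr_aN hc) }

/-- the presentation `M` -/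
noncomputable def MA [CompleteSpace Y] (hd : DenseRange c)
    (hc : CR fun p : ℕ × ℕ => dist (c p.1) (c p.2)) : CMS :=
  haveI : CompleteSpace ↥(TS c id fun e => (1 : ℝ) / 2 ^ e) :=
    (ts_closed pow_lim).completeSpace_coe
  { Y := ↥(TS c id fun e => (1 : ℝ) / 2 ^ e)
    c := aM c
    dense := aM_dense hd
    comp := comp_of_cr (cr_aM hc) }

end Pool.Agent.Helper583.TT
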