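import Pool.Agent.Helper583.TTBDefs
import Pool.Agent.Helper583.TTCR2

namespace Pool.Agent.Helper583.TT

open Nat.Partrec (Code)
open Pool.Agent.Helper583.TC.J2 (srchO srchO_some srchO_ne srchO_succ primrec_srchO valsO
  valsO_succ primrec_valsO)


/- ===== auxiliary lemmas ===== -/

section aux

variable {α : Type} [Primcodable α]

theorem primrec_all {p : α → ℕ → Bool} (hp : Primrec₂ p) {n : α → ℕ} (hn : Primrec n) :
    Primrec fun a => (List.range (n a)).all (p a) := by
  have h := Primrec.nat_rec' (f := n) (g := fun _ : α => true)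
    (h := fun a (q : ℕ × Bool) => q.2 && p a q.1) hn (Primrec.const true)
    (Primrec.and.comp (Primrec.snd.comp Primrec.snd)
      (hp.comp Primrec.fst (Primrec.fst.comp Primrec.snd)))
  refine h.of_eq fun a => ?_
  induction n a with
  | zero => rfl
  | succ m ih =>
    simp only [] at ih ⊢
    rw [List.range_succ, List.all_append, ← ih]
    simp

theorem computable_any {p : α → ℕ → Bool} (hp : Computable₂ p) {n : α → ℕ} (hn : Computable n) :
    Computable fun a => (List.range (n a)).any (p a) := by
  have h := Computable.nat_rec (f := n) (g := fun _ : α => false)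
    (h := fun a (q : ℕ × Bool) => q.2 || p a q.1) hn (Computable.const false)
    (Primrec.or.to_comp.comp (Computable.snd.comp Computable.snd)
      (hp.comp Computable.fst (Computable.fst.comp Computable.snd)))
  refine h.of_eq fun a => ?_
  induction n a with
  | zero => rfl
  | succ m ih =>
    simp only [] at ih ⊢
    rw [List.range_succ, List.any_append, ← ih]
    simp

theorem computable_rmap {β : Type} [Primcodable β] {f : α → ℕ → β} (hf : Computable₂ f)
    {n : α → ℕ} (hn : Computable n) :
    Computable fun a => (List.range (n a)).map (f a) := by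
  have h := Computable.nat_rec (f := n) (g := fun _ : α => ([] : List β))
    (h := fun a (q : ℕ × List β) => q.2 ++ [f a q.1]) hn (Computable.const [])
    (Computable.list_concat.comp (Computable.snd.comp Computable.snd)
      (hf.comp Computable.fst (Computable.fst.comp Computable.snd)))
  refine h.of_eq fun a => ?_
  induction n a with
  | zero => rfl
  | succ m ih =>
    simp only [] at ih ⊢
    rw [List.range_succ, List.map_append, ← ih]
    simp

theorem primrec_pow : Primrec₂ fun a b : ℕ => a ^ b := Primrec₂.unpaired'.1 Nat.Primrec.pow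

theorem primrec_lst : Primrec lst := Primrec.ofNat (List ℕ)

theorem primrec_adf : Primrec₂ adf := by
  unfold adf
  exact Primrec.nat_add.comp (Primrec.nat_sub.comp Primrec.fst Primrec.snd)
    (Primrec.nat_sub.comp Primrec.snd Primrec.fst)

theorem primrec_cov : Primrec fun q : ℕ × ℕ × List ℕ × ℕ × List ℕ =>
    cov q.1 q.2.1 q.2.2.1 q.2.2.2.1 q.2.2.2.2 := by
  unfold cov
  refine primrec_all ?_ (Primrec.list_length.comp
    (Primrec.snd.comp (Primrec.snd.comp (Primrec.snd.comp Primrec.snd))))
  -- components
  have he : Primrec fun p : (ℕ × ℕ × List ℕ × ℕ × List ℕ) × ℕ => p.1.1 :=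
    Primrec.fst.comp Primrec.fst
  have hk : Primrec fun p : (ℕ × ℕ × List ℕ × ℕ × List ℕ) × ℕ => p.1.2.1 :=
    Primrec.fst.comp (Primrec.snd.comp Primrec.fst)
  have hH : Primrec fun p : (ℕ × ℕ × List ℕ × ℕ × List ℕ) × ℕ => p.1.2.2.1 :=
    Primrec.fst.comp (Primrec.snd.comp (Primrec.snd.comp Primrec.fst))
  have hi : Primrec fun p : (ℕ × ℕ × List ℕ × ℕ × List ℕ) × ℕ => p.1.2.2.2.1 :=
    Primrec.fst.comp (Primrec.snd.comp (Primrec.snd.comp (Primrec.snd.comp Primrec.fst)))
  have hσ : Primrec fun p : (ℕ × ℕ × List ℕ × ℕ × List ℕ) × ℕ => p.1.2.2.2.2 :=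
    Primrec.snd.comp (Primrec.snd.comp (Primrec.snd.comp (Primrec.snd.comp Primrec.fst)))
  have hj : Primrec fun p : (ℕ × ℕ × List ℕ × ℕ × List ℕ) × ℕ => p.2 := Primrec.snd
  have hv : Primrec fun p : (ℕ × ℕ × List ℕ × ℕ × List ℕ) × ℕ => p.1.2.2.2.2.getD p.2 0 :=
    (Primrec.list_getD 0).comp hσ hj
  have h1 := Primrec.nat_le.decide.comp hj hv
  have h2 := Primrec.nat_lt.decide.comp hv hk
  have h3 : Primrec fun p : (ℕ × ℕ × List ℕ × ℕ × List ℕ) × ℕ =>
      adf (p.1.2.2.1.getD (p.1.2.2.2.2.getD p.2 0) 0 * 2 ^ (p.1.2.1 - p.1.2.2.2.2.getD p.2 0))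
        p.1.2.2.2.1 * 2 ^ (p.2 + 1) :=
    Primrec.nat_mul.comp
      (primrec_adf.comp
        (Primrec.nat_mul.comp ((Primrec.list_getD 0).comp hH hv)
          (primrec_pow.comp (Primrec.const 2) (Primrec.nat_sub.comp hk hv))) hi)
      (primrec_pow.comp (Primrec.const 2) (Primrec.succ.comp hj))
  have h4 : Primrec fun p : (ℕ × ℕ × List ℕ × ℕ × List ℕ) × ℕ => 2 ^ (p.1.1 + p.1.2.1) :=
    primrec_pow.comp (Primrec.const 2) (Primrec.nat_add.comp he hk)
  have h5 := Primrec.nat_lt.decide.comp h3 h4
  exact (Primrec.and.comp (Primrec.and.comp h1 h2) h5)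

/-- the value of the `z`-th word if it covers the grid point -/
def valO (P : Prm) (e k : ℕ) (H : List ℕ) (n i z : ℕ) : Option ℕ :=
  if cov e k H i (lst z) = true then com P e (lst z) n else none

/-- the same with a table of values of `P.y` -/
def valT (T : List ℕ) (e k : ℕ) (H : List ℕ) (n i z : ℕ) : Option ℕ :=
  bif cov e k H i (lst z) then rn e.unpair.1 ((lst z).map fun v => T.getD v 0) n else none

theorem valO_eq (P : Prm) (e k : ℕ) (H : List ℕ) (n i z : ℕ) :
    valO P e k H n i z = valT ((List.range k).map (P.y e)) e k H n i z := by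
  unfold valO valT
  cases hc : cov e k H i (lst z) with
  | false => simp
  | true =>
    simp only [if_true, cond_true]
    unfold com
    congr 1
    refine List.map_congr_left fun v hv => ?_
    obtain ⟨j, hj, rfl⟩ := List.getElem_of_mem hv
    unfold cov at hc
    rw [List.all_eq_true] at hc
    have h1 := hc j (List.mem_range.2 hj)
    simp only [Bool.and_eq_true, decide_eq_true_eq] at h1
    have h2 := h1.1.2
    rw [List.getD_eq_getElem _ _ hj] at h2
    rw [List.getD_eq_getElem _ _ (by simpa using h2)]
    simp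

theorem primrec_valT : Primrec fun q : List ℕ × ℕ × ℕ × List ℕ × ℕ × ℕ × ℕ =>
    valT q.1 q.2.1 q.2.2.1 q.2.2.2.1 q.2.2.2.2.1 q.2.2.2.2.2.1 q.2.2.2.2.2.2 := by
  unfold valT
  have s1 : Primrec fun q : List ℕ × ℕ × ℕ × List ℕ × ℕ × ℕ × ℕ => q.2 := Primrec.snd
  have s2 : Primrec fun q : List ℕ × ℕ × ℕ × List ℕ × ℕ × ℕ × ℕ => q.2.2 := Primrec.snd.comp s1
  have s3 : Primrec fun q : List ℕ × ℕ × ℕ × List ℕ × ℕ × ℕ × ℕ => q.2.2.2 :=
    Primrec.snd.comp s2
  have s4 : Primrec fun q : List ℕ × ℕ × ℕ × List ℕ × ℕ × ℕ × ℕ => q.2.2.2.2 :=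
    Primrec.snd.comp s3
  have s5 : Primrec fun q : List ℕ × ℕ × ℕ × List ℕ × ℕ × ℕ × ℕ => q.2.2.2.2.2 :=
    Primrec.snd.comp s4
  have hT : Primrec fun q : List ℕ × ℕ × ℕ × List ℕ × ℕ × ℕ × ℕ => q.1 := Primrec.fst
  have he := Primrec.fst.comp s1
  have hk := Primrec.fst.comp s2
  have hH := Primrec.fst.comp s3
  have hn := Primrec.fst.comp s4
  have hi := Primrec.fst.comp s5
  have hz := Primrec.snd.comp s5
  have hσ := primrec_lst.comp hz
  refine Primrec.cond (primrec_cov.comp (he.pair (hk.pair (hH.pair (hi.pair hσ))))) ?_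
    (Primrec.const none)
  refine primrec_rn (Primrec.fst.comp (Primrec.unpair.comp he)) ?_ hn
  refine Primrec.list_map hσ ?_
  exact ((Primrec.list_getD 0).comp (hT.comp Primrec.fst) Primrec.snd).to₂

variable {P : Prm}

theorem computable_valO (hy : Computable₂ P.y) {e k n i z : α → ℕ} {H : α → List ℕ}
    (he : Computable e) (hk : Computable k) (hH : Computable H) (hn : Computable n)
    (hi : Computable i) (hz : Computable z) :
    Computable fun a => valO P (e a) (k a) (H a) (n a) (i a) (z a) := by
  have hT : Computable fun a => (List.range (k a)).map (P.y (e a)) :=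
    computable_rmap (f := fun a j => P.y (e a) j)
      (hy.comp (he.comp Computable.fst) Computable.snd).to₂ hk
  refine (primrec_valT.to_comp.comp
    (hT.pair (he.pair (hk.pair (hH.pair (hn.pair (hi.pair hz))))))).of_eq fun a => ?_
  exact (valO_eq P _ _ _ _ _ _).symm

theorem computable_tst (hcl : Computable fun p : ℕ × ℕ × ℕ => P.cl p.1 p.2.1 p.2.2)
    {b k m₀ s m : α → ℕ} (hb : Computable b) (hk : Computable k) (hm₀ : Computable m₀)
    (hs : Computable s) (hm : Computable m) :
    Computable fun a => tst P (b a) (k a) (m₀ a) (s a) (m a) := by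
  have h := Computable.cond
    (Primrec.eq.decide.to_comp.comp hb (Computable.const (0 : ℕ)))
    (Primrec.nat_lt.decide.to_comp.comp hm hk) (hcl.comp (hm.pair (hm₀.pair hs)))
  refine h.of_eq fun a => ?_
  unfold tst
  by_cases hb0 : b a = 0 <;> simp [hb0]

theorem cvd_eq (P : Prm) (e k : ℕ) (H : List ℕ) (n b m₀ s i : ℕ) :
    cvd P e k H n b m₀ s i = (List.range k).any fun z =>
      (Option.casesOn (valO P e k H n i z) false fun m => tst P b k m₀ s m : Bool) := by
  unfold cvd
  congr 1
  funext z
  unfold valO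
  cases hc : cov e k H i (lst z) with
  | false => simp
  | true =>
    simp only [Bool.true_and, if_true]
    cases com P e (lst z) n <;> simp

theorem computable_cvd (hy : Computable₂ P.y)
    (hcl : Computable fun p : ℕ × ℕ × ℕ => P.cl p.1 p.2.1 p.2.2)
    {e k n b m₀ s i : α → ℕ} {H : α → List ℕ}
    (he : Computable e) (hk : Computable k) (hH : Computable H) (hn : Computable n)
    (hb : Computable b) (hm₀ : Computable m₀) (hs : Computable s) (hi : Computable i) :
    Computable fun a => cvd P (e a) (k a) (H a) (n a) (b a) (m₀ a) (s a) (i a) := by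
  have hp : Computable₂ fun (a : α) (z : ℕ) =>
      (Option.casesOn (valO P (e a) (k a) (H a) (n a) (i a) z) false
        fun m => tst P (b a) (k a) (m₀ a) (s a) m : Bool) := by
    refine Computable.option_casesOn
      (o := fun p : α × ℕ => valO P (e p.1) (k p.1) (H p.1) (n p.1) (i p.1) p.2)
      (f := fun _ => false) (g := fun p m => tst P (b p.1) (k p.1) (m₀ p.1) (s p.1) m)
      ?_ (Computable.const false) ?_
    · exact computable_valO hy (he.comp Computable.fst) (hk.comp Computable.fst)
        (hH.comp Computable.fst) (hn.comp Computable.fst) (hi.comp Computable.fst) Computable.snd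
    · exact computable_tst hcl (hb.comp (Computable.fst.comp Computable.fst))
        (hk.comp (Computable.fst.comp Computable.fst))
        (hm₀.comp (Computable.fst.comp Computable.fst))
        (hs.comp (Computable.fst.comp Computable.fst)) Computable.snd
  exact (computable_any hp hk).of_eq fun a => (cvd_eq P _ _ _ _ _ _ _ _).symm

theorem computable_fu (hy : Computable₂ P.y)
    (hcl : Computable fun p : ℕ × ℕ × ℕ => P.cl p.1 p.2.1 p.2.2)
    {e k n b m₀ s : α → ℕ} {H : α → List ℕ}
    (he : Computable e) (hk : Computable k) (hH : Computable H) (hn : Computable n)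
    (hb : Computable b) (hm₀ : Computable m₀) (hs : Computable s) :
    Computable fun a => fu P (e a) (k a) (H a) (n a) (b a) (m₀ a) (s a) := by
  have hN : Computable fun a => 2 ^ k a + 1 :=
    Computable.succ.comp (primrec_pow.to_comp.comp (Computable.const 2) hk)
  have c0 : Computable fun p : α × ℕ × ℕ => p.1 := Computable.fst
  have c1 : Computable fun p : α × ℕ × ℕ => p.2.1 := Computable.fst.comp Computable.snd
  have c2 : Computable fun p : α × ℕ × ℕ => p.2.2 := Computable.snd.comp Computable.snd
  have hc := computable_cvd hy hcl (he.comp c0) (hk.comp c0) (hH.comp c0) (hn.comp c0)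
    (hb.comp c0) (hm₀.comp c0) (hs.comp c0) c1
  have hq := Primrec.and.to_comp.comp (Primrec.eq.decide.to_comp.comp c2 c1) hc
  have hh := Computable.cond hq (Computable.succ.comp c1) c2
  have h := Computable.nat_rec (f := fun a => 2 ^ k a + 1) (g := fun _ : α => (0 : ℕ))
    (h := fun a q => cond (decide (q.2 = q.1) &&
      cvd P (e a) (k a) (H a) (n a) (b a) (m₀ a) (s a) q.1) (q.1 + 1) q.2)
    hN (Computable.const 0) hh.to₂
  refine h.of_eq fun a => ?_
  unfold fu
  generalize 2 ^ k a + 1 = N
  induction N with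
  | zero => rfl
  | succ j ih =>
    simp only [] at ih ⊢
    rw [ih]
    generalize (Nat.rec 0 (fun i u => if u = i ∧
      cvd P (e a) (k a) (H a) (n a) (b a) (m₀ a) (s a) i = true then i + 1 else u) j : ℕ) = u
    by_cases h1 : u = j <;>
      cases h2 : cvd P (e a) (k a) (H a) (n a) (b a) (m₀ a) (s a) j <;> simp [h1, h2]

theorem computable_fz (hy : Computable₂ P.y) {e k n : α → ℕ} {H : α → List ℕ}
    (he : Computable e) (hk : Computable k) (hH : Computable H) (hn : Computable n) :
    Computable fun a => fz P (e a) (k a) (H a) (n a) := by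
  have c0 : Computable fun p : α × ℕ × Option ℕ => p.1 := Computable.fst
  have c1 : Computable fun p : α × ℕ × Option ℕ => p.2.1 := Computable.fst.comp Computable.snd
  have c2 : Computable fun p : α × ℕ × Option ℕ => p.2.2 := Computable.snd.comp Computable.snd
  have hv := computable_valO hy (he.comp c0) (hk.comp c0) (hH.comp c0) (hn.comp c0)
    (Computable.const 0) c1
  have hh := Primrec.option_orElse.to_comp.comp c2 hv
  exact Computable.nat_rec (f := k) (g := fun _ : α => (none : Option ℕ))
    (h := fun a q => (q.2 <|> valO P (e a) (k a) (H a) (n a) 0 q.1))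
    hk (Computable.const none) hh.to₂

theorem computable_ev1 (hy : Computable₂ P.y)
    (hfr : Computable fun p : ℕ × ℕ × ℕ => P.fr p.1 p.2.1 p.2.2) {e k : α → ℕ}
    (he : Computable e) (hk : Computable k) :
    Computable fun a => ev1 P (e a) (k a) := by
  have hk1 : Computable fun a => (k a).unpair.1 := Computable.fst.comp (Computable.unpair.comp hk)
  have hk2 : Computable fun a => (k a).unpair.2 := Computable.snd.comp (Computable.unpair.comp hk)
  have he1 : Computable fun a => (e a).unpair.1 := Computable.fst.comp (Computable.unpair.comp he)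
  have he2 : Computable fun a => (e a).unpair.2 := Computable.snd.comp (Computable.unpair.comp he)
  have hw : Computable fun a => (List.range (k a).unpair.2).map (P.y (e a)) :=
    computable_rmap (f := fun a j => P.y (e a) j)
      (hy.comp (he.comp Computable.fst) Computable.snd).to₂ hk2
  have hV : Primrec fun q : ℕ × List ℕ × ℕ => valsO (rn q.1 q.2.1) (q.2.2 + 1) := by
    refine primrec_valsO (f := fun (q : ℕ × List ℕ × ℕ) n => rn q.1 q.2.1 n) ?_
      (Primrec.succ.comp (Primrec.snd.comp Primrec.snd))
    exact primrec_rn (Primrec.fst.comp Primrec.fst)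
      (Primrec.fst.comp (Primrec.snd.comp Primrec.fst)) Primrec.snd
  have hR : Primrec fun q : ℕ × List ℕ × ℕ => rn q.1 q.2.1 q.2.2 :=
    primrec_rn Primrec.fst (Primrec.fst.comp Primrec.snd) (Primrec.snd.comp Primrec.snd)
  have hf1 : Computable fun a => valsO (rn (e a).unpair.1
      ((List.range (k a).unpair.2).map (P.y (e a)))) ((k a).unpair.1 + 1) := by
    have h1 := he1.pair (hw.pair hk1)
    have h2 := Computable.comp hV.to_comp h1
    exact h2
  have hf2 : Computable fun q : α × List ℕ => rn (e q.1).unpair.2 q.2.tail (e q.1 + 2) := by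
    have h0 : Computable fun q : α × List ℕ => e q.1 + 2 :=
      Computable.succ.comp (Computable.succ.comp (he.comp Computable.fst))
    have h3 : Computable fun q : α × List ℕ => q.2.tail :=
      Primrec.list_tail.to_comp.comp Computable.snd
    have h4 : Computable fun q : α × List ℕ => (e q.1).unpair.2 := he2.comp Computable.fst
    have h1 := h4.pair (h3.pair h0)
    have h2 := Computable.comp hR.to_comp h1
    exact h2
  have d0 : Computable fun q : (α × List ℕ) × ℕ => q.1.1 := Computable.fst.comp Computable.fst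
  have d1 : Computable fun q : (α × List ℕ) × ℕ => q.2 := Computable.snd
  have h := Computable.cond
    (hfr.comp ((he.comp d0).pair (d1.pair (hk.comp d0))))
    (Computable.option_some.comp (hk1.comp d0)) (Computable.const (none : Option ℕ))
  have hf3 : Computable₂ fun (q : α × List ℕ) (m : ℕ) =>
      if P.fr (e q.1) m (k q.1) = true then some (k q.1).unpair.1 else none := by
    refine h.of_eq fun q => ?_
    cases hq : P.fr (e q.1.1) q.2 (k q.1.1) <;> simp [hq]
  have hf4 : Computable₂ fun (a : α) (qs : List ℕ) =>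
      (rn (e a).unpair.2 qs.tail (e a + 2)).bind fun m =>
        if P.fr (e a) m (k a) = true then some (k a).unpair.1 else none :=
    Computable.option_bind hf2 hf3
  exact Computable.option_bind hf1 hf4

end aux

/- ===== TARGETS ===== -/

/-- TARGET 1 -/
theorem computable_sts (P : Prm) (hy : Computable₂ P.y)
    (hfr : Computable fun p : ℕ × ℕ × ℕ => P.fr p.1 p.2.1 p.2.2) (hell : Computable P.ell)
    (hcl : Computable fun p : ℕ × ℕ × ℕ => P.cl p.1 p.2.1 p.2.2) : Computable₂ (sts P) := by
  have hstp : Computable fun q : ℕ × ℕ × St => stp P q.1 q.2.1 q.2.2 := by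
    have he : Computable fun q : ℕ × ℕ × St => q.1 := Computable.fst
    have hk : Computable fun q : ℕ × ℕ × St => q.2.1 := Computable.fst.comp Computable.snd
    have s0 : Computable fun q : ℕ × ℕ × St => q.2.2 := Computable.snd.comp Computable.snd
    have hm : Computable fun q : ℕ × ℕ × St => q.2.2.1 := Computable.fst.comp s0
    have s1 : Computable fun q : ℕ × ℕ × St => q.2.2.2 := Computable.snd.comp s0
    have hK : Computable fun q : ℕ × ℕ × St => q.2.2.2.1 := Computable.fst.comp s1
    have s2 : Computable fun q : ℕ × ℕ × St => q.2.2.2.2 := Computable.snd.comp s1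
    have hs : Computable fun q : ℕ × ℕ × St => q.2.2.2.2.1 := Computable.fst.comp s2
    have s3 : Computable fun q : ℕ × ℕ × St => q.2.2.2.2.2 := Computable.snd.comp s2
    have hr : Computable fun q : ℕ × ℕ × St => q.2.2.2.2.2.1 := Computable.fst.comp s3
    have hH : Computable fun q : ℕ × ℕ × St => q.2.2.2.2.2.2 := Computable.snd.comp s3
    have cc : ∀ n : ℕ, Computable fun _ : ℕ × ℕ × St => n := fun n => Computable.const n
    have hH0 : Computable fun q : ℕ × ℕ × St => q.2.2.2.2.2.2 ++ [0] :=
      Computable.list_concat.comp hH (cc 0)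
    have hp : Computable fun q : ℕ × ℕ × St => 2 ^ q.2.1 :=
      primrec_pow.to_comp.comp (cc 2) hk
    have hHp : Computable fun q : ℕ × ℕ × St => q.2.2.2.2.2.2 ++ [2 ^ q.2.1] :=
      Computable.list_concat.comp hH hp
    have hn1 : Computable fun q : ℕ × ℕ × St => n1 q.1 q.2.2.2.1 := by
      unfold n1
      exact Primrec.nat_add.to_comp.comp (Primrec.nat_add.to_comp.comp hK he) (cc 10)
    have hn2 : Computable fun q : ℕ × ℕ × St => n2 P q.2.2.2.2.1 := by
      unfold n2
      exact Primrec.nat_add.to_comp.comp (hell.comp hs) (cc 5)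
    have hfu1 := computable_fu hy hcl he hk hH hn1 (cc 0) (cc 0) (cc 0)
    have hfu3 := computable_fu hy hcl he hk hH hn2 (cc 1) hr hs
    have hfz := computable_fz hy he hk hH hn2
    have hev := computable_ev1 hy hfr he hk
    -- the branches
    have hb0 : Computable fun q : ℕ × ℕ × St =>
        (Option.casesOn (ev1 P q.1 q.2.1) (0, 0, 0, 0, q.2.2.2.2.2.2 ++ [0])
          fun K => (1, K, 0, 0, q.2.2.2.2.2.2 ++ [0]) : St) := by
      refine Computable.option_casesOn hev
        ((cc 0).pair ((cc 0).pair ((cc 0).pair ((cc 0).pair hH0)))) ?_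
      exact ((Computable.const 1).pair (Computable.snd.pair ((Computable.const 0).pair
        ((Computable.const 0).pair (hH0.comp Computable.fst))))).to₂
    have hle1 := Primrec.nat_le.decide.to_comp.comp hfu1 hp
    have hle3 := Primrec.nat_le.decide.to_comp.comp hfu3 hp
    have hcnd : Computable fun q : ℕ × ℕ × St =>
        (decide (q.2.1.unpair.1 = q.1) && decide (q.2.2.2.1 + 3 ≤ q.2.1)) :=
      Primrec.and.to_comp.comp
        (Primrec.eq.decide.to_comp.comp (Computable.fst.comp (Computable.unpair.comp hk)) he)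
        (Primrec.nat_le.decide.to_comp.comp (Primrec.nat_add.to_comp.comp hK (cc 3)) hk)
    have hfu1' := Primrec.nat_sub.to_comp.comp hfu1 (cc 1)
    have hfu3' := Primrec.nat_sub.to_comp.comp hfu3 (cc 1)
    have hb1 := Computable.cond hle1
      ((cc 1).pair (hK.pair ((cc 0).pair ((cc 0).pair
        (Computable.list_concat.comp hH hfu1')))))
      (Computable.cond hcnd
        ((cc 2).pair (hK.pair (hk.pair ((cc 0).pair hH0))))
        ((cc 1).pair (hK.pair ((cc 0).pair ((cc 0).pair hHp)))))
    have hb2 : Computable fun q : ℕ × ℕ × St =>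
        (Option.casesOn (fz P q.1 q.2.1 q.2.2.2.2.2.2 (n2 P q.2.2.2.2.1))
          (2, q.2.2.2.1, q.2.2.2.2.1, 0, q.2.2.2.2.2.2 ++ [0])
          fun m => (3, q.2.2.2.1, q.2.2.2.2.1, m, q.2.2.2.2.2.2 ++ [0]) : St) := by
      refine Computable.option_casesOn hfz
        ((cc 2).pair (hK.pair (hs.pair ((cc 0).pair hH0)))) ?_
      exact ((Computable.const 3).pair ((hK.comp Computable.fst).pair
        ((hs.comp Computable.fst).pair (Computable.snd.pair (hH0.comp Computable.fst))))).to₂
    have hb4 := (cc 4).pair (hK.pair (hs.pair (hr.pair hHp)))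
    have hb3 := Computable.cond hle3
      ((cc 3).pair (hK.pair (hs.pair (hr.pair (Computable.list_concat.comp hH hfu3'))))) hb4
    have heq : ∀ n : ℕ, Computable fun q : ℕ × ℕ × St => decide (q.2.2.1 = n) := fun n =>
      Primrec.eq.decide.to_comp.comp hm (cc n)
    have hall := Computable.cond (heq 0) hb0 (Computable.cond (heq 1) hb1
      (Computable.cond (heq 2) hb2 (Computable.cond (heq 3) hb3 hb4)))
    refine hall.of_eq fun q => ?_
    unfold stp
    by_cases h0 : q.2.2.1 = 0
    · rw [decide_eq_true h0, cond_true, if_pos h0]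
      cases ev1 P q.1 q.2.1 <;> rfl
    rw [decide_eq_false h0, cond_false, if_neg h0]
    by_cases h1 : q.2.2.1 = 1
    · rw [decide_eq_true h1, cond_true, if_pos h1]
      by_cases g1 : fu P q.1 q.2.1 q.2.2.2.2.2.2 (n1 q.1 q.2.2.2.1) 0 0 0 ≤ 2 ^ q.2.1
      · rw [decide_eq_true g1, cond_true, if_pos g1]
      rw [decide_eq_false g1, cond_false, if_neg g1]
      by_cases g2 : q.2.1.unpair.1 = q.1
      · by_cases g3 : q.2.2.2.1 + 3 ≤ q.2.1
        · rw [decide_eq_true g2, decide_eq_true g3, if_pos ⟨g2, g3⟩]
          rfl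
        · rw [decide_eq_false g3, Bool.and_false, cond_false, if_neg (fun h => g3 h.2)]
      · rw [decide_eq_false g2, Bool.false_and, cond_false, if_neg (fun h => g2 h.1)]
    rw [decide_eq_false h1, cond_false, if_neg h1]
    by_cases h2 : q.2.2.1 = 2
    · rw [decide_eq_true h2, cond_true, if_pos h2]
      cases fz P q.1 q.2.1 q.2.2.2.2.2.2 (n2 P q.2.2.2.2.1) <;> rfl
    rw [decide_eq_false h2, cond_false, if_neg h2]
    by_cases h3 : q.2.2.1 = 3
    · rw [decide_eq_true h3, cond_true, if_pos h3]
      by_cases g1 : fu P q.1 q.2.1 q.2.2.2.2.2.2 (n2 P q.2.2.2.2.1) 1 q.2.2.2.2.2.1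
          q.2.2.2.2.1 ≤ 2 ^ q.2.1
      · rw [decide_eq_true g1, cond_true, if_pos g1]
      rw [decide_eq_false g1, cond_false, if_neg g1]
    rw [decide_eq_false h3, cond_false, if_neg h3]
  have c0 : Computable fun p : (ℕ × ℕ) × ℕ × St => p.1.1 := Computable.fst.comp Computable.fst
  have c1 : Computable fun p : (ℕ × ℕ) × ℕ × St => p.2.1 := Computable.fst.comp Computable.snd
  have c2 : Computable fun p : (ℕ × ℕ) × ℕ × St => p.2.2 := Computable.snd.comp Computable.snd
  have hh := Computable.comp hstp (c0.pair (c1.pair c2))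
  have h := Computable.nat_rec (f := fun a : ℕ × ℕ => a.2)
    (g := fun _ : ℕ × ℕ => ((0, 0, 0, 0, []) : St))
    (h := fun a q => stp P a.1 q.1 q.2) Computable.snd (Computable.const _) hh.to₂
  exact h

/-- TARGET 2 -/
theorem computable_num (P : Prm) (h : Computable₂ (sts P)) : Computable₂ (num P) := by
  have h1 : Computable fun p : ℕ × ℕ => sts P p.1 (p.2 + 1) :=
    h.comp Computable.fst (Computable.succ.comp Computable.snd)
  have h2 : Computable fun p : ℕ × ℕ => (sts P p.1 (p.2 + 1)).2.2.2.2 :=
    Computable.snd.comp (Computable.snd.comp (Computable.snd.comp (Computable.snd.comp h1)))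
  exact ((Primrec.list_getD 0).to_comp.comp h2 Computable.snd).to₂

/-- TARGET 3 -/
theorem computable_acts (P : Prm) (h : Computable₂ (sts P)) : Computable₂ (acts P) := by
  have h1 : Computable fun p : ℕ × ℕ => sts P p.1 (p.2 + 1) :=
    h.comp Computable.fst (Computable.succ.comp Computable.snd)
  have h0 : Computable fun p : ℕ × ℕ => sts P p.1 p.2 := h
  exact (Primrec.and.to_comp.comp
    (Primrec.eq.decide.to_comp.comp (Computable.fst.comp h0) (Computable.const 1))
    (Primrec.eq.decide.to_comp.comp (Computable.fst.comp h1) (Computable.const 2))).to₂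

end Pool.Agent.Helper583.TT
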