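import Pool.Agent.Helper583.TTBDefs

namespace Pool.Agent.Helper583.TT

open Nat.Partrec (Code)
open Pool.Agent.Helper583.TC.J2 (srchO srchO_some srchO_ne srchO_succ primrec_srchO valsO
  valsO_succ primrec_valsO)


/- ===== TARGETS ===== -/

theorem adf_cast (a b : ℕ) : ((adf a b : ℕ) : ℝ) = |(a : ℝ) - (b : ℝ)| := by
  unfold adf
  rcases le_total a b with h | h
  · rw [Nat.sub_eq_zero_of_le h, zero_add, Nat.cast_sub h]
    have h' : (a : ℝ) ≤ b := by exact_mod_cast h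
    rw [abs_of_nonpos (by linarith)]
    ring
  · rw [Nat.sub_eq_zero_of_le h, add_zero, Nat.cast_sub h]
    have h' : (b : ℝ) ≤ a := by exact_mod_cast h
    rw [abs_of_nonneg (by linarith)]

theorem cov_iff_nat {e k : ℕ} {H : List ℕ} {i : ℕ} {σ : List ℕ} :
    cov e k H i σ = true ↔ ∀ j < σ.length, j ≤ σ.getD j 0 ∧ σ.getD j 0 < k ∧
      adf (H.getD (σ.getD j 0) 0 * 2 ^ (k - σ.getD j 0)) i * 2 ^ (j + 1) < 2 ^ (e + k) := by
  unfold cov
  rw [List.all_eq_true]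
  constructor
  · intro h j hj
    have h1 := h j (List.mem_range.mpr hj)
    rw [Bool.and_eq_true, Bool.and_eq_true, decide_eq_true_eq, decide_eq_true_eq, decide_eq_true_eq] at h1
    exact ⟨h1.1.1, h1.1.2, h1.2⟩
  · intro h j hj
    have h1 := h j (List.mem_range.mp hj)
    rw [Bool.and_eq_true, Bool.and_eq_true, decide_eq_true_eq, decide_eq_true_eq, decide_eq_true_eq]
    exact ⟨⟨h1.1, h1.2.1⟩, h1.2.2⟩

theorem slack_nat {e k g j D : ℕ} (hjg : j ≤ g) (hgk : g < k) (h : D * 2 ^ (j + 1) < 2 ^ (e + k)) :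
    (D + 1) * 2 ^ (j + 1) ≤ 2 ^ (e + k) := by
  have h1 : 2 ^ (e + k) = 2 ^ (e + k - (j + 1)) * 2 ^ (j + 1) := by
    rw [← pow_add]
    congr 1
    omega
  rw [h1] at h ⊢
  have h2 : D < 2 ^ (e + k - (j + 1)) := lt_of_mul_lt_mul_right h (Nat.zero_le _)
  exact Nat.mul_le_mul_right _ h2

theorem scale_eq {k g : ℕ} (hgk : g < k) (A i : ℕ) :
    |(A : ℝ) / 2 ^ g - (i : ℝ) / 2 ^ k| = ((adf (A * 2 ^ (k - g)) i : ℕ) : ℝ) / 2 ^ k := by
  rw [adf_cast]
  have h1 : (A : ℝ) / 2 ^ g - (i : ℝ) / 2 ^ k = (((A * 2 ^ (k - g) : ℕ) : ℝ) - (i : ℝ)) / 2 ^ k := by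
    have h2 : (2 : ℝ) ^ k = 2 ^ g * 2 ^ (k - g) := by
      rw [← pow_add]
      congr 1
      omega
    push_cast
    rw [h2]
    field_simp
  rw [h1, abs_div, abs_of_pos (by positivity : (0 : ℝ) < 2 ^ k)]

/-- TARGET 1: what covering means for real numbers -/
theorem cov_iff {e k : ℕ} {H : List ℕ} {a : ℕ → ℕ} (hH : ∀ g < k, H.getD g 0 = a g) (i : ℕ)
    (σ : List ℕ) : cov e k H i σ = true ↔ ∀ j < σ.length, j ≤ σ.getD j 0 ∧ σ.getD j 0 < k ∧
      |(a (σ.getD j 0) : ℝ) / 2 ^ (σ.getD j 0) - (i : ℝ) / 2 ^ k| < 2 ^ e / 2 ^ (j + 1) := by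
  rw [cov_iff_nat]
  refine forall₂_congr fun j _ => ?_
  refine and_congr_right fun _ => ?_
  refine and_congr_right fun hg => ?_
  rw [hH _ hg, scale_eq hg]
  generalize adf (a (σ.getD j 0) * 2 ^ (k - σ.getD j 0)) i = D
  rw [div_lt_div_iff₀ (by positivity) (by positivity), ← pow_add]
  have h1 : ((D * 2 ^ (j + 1) : ℕ) : ℝ) = (D : ℝ) * 2 ^ (j + 1) := by push_cast; rfl
  have h2 : ((2 ^ (e + k) : ℕ) : ℝ) = (2 : ℝ) ^ (e + k) := by push_cast; rfl
  rw [← h1, ← h2, Nat.cast_lt]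

/-- TARGET 2: by integrality a covered grid point comes with an interval -/
theorem cov_slack {e k : ℕ} {H : List ℕ} {a : ℕ → ℕ} (hH : ∀ g < k, H.getD g 0 = a g) {i : ℕ}
    {σ : List ℕ} (h : cov e k H i σ = true) {x : ℝ} (h1 : (i : ℝ) / 2 ^ k ≤ x)
    (h2 : x < (i + 1 : ℝ) / 2 ^ k) :
    ∀ j < σ.length, |(a (σ.getD j 0) : ℝ) / 2 ^ (σ.getD j 0) - x| < 2 ^ e / 2 ^ (j + 1) := by
  intro j hj
  obtain ⟨hjg, hgk, hlt⟩ := cov_iff_nat.mp h j hj
  rw [hH _ hgk] at hlt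
  have hle := slack_nat hjg hgk hlt
  generalize hgen : σ.getD j 0 = g at *
  have hA : (a g : ℝ) / 2 ^ g = ((a g * 2 ^ (k - g) : ℕ) : ℝ) / 2 ^ k := by
    have h2 : (2 : ℝ) ^ k = 2 ^ g * 2 ^ (k - g) := by
      rw [← pow_add]
      congr 1
      omega
    push_cast
    rw [h2]
    field_simp
  rw [hA]
  generalize a g * 2 ^ (k - g) = A at *
  have hkpos : (0 : ℝ) < 2 ^ k := by positivity
  have hjpos : (0 : ℝ) < 2 ^ (j + 1) := by positivity
  have hle' : ((adf A i : ℕ) : ℝ) + 1 ≤ 2 ^ e / 2 ^ (j + 1) * 2 ^ k := by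
    have h3 : (((adf A i + 1) * 2 ^ (j + 1) : ℕ) : ℝ) ≤ ((2 ^ (e + k) : ℕ) : ℝ) := by exact_mod_cast hle
    push_cast at h3
    rw [pow_add (2 : ℝ) e k] at h3
    rw [div_mul_eq_mul_div, le_div_iff₀ hjpos]
    exact h3
  rw [adf_cast] at hle'
  have hx1 : (i : ℝ) ≤ x * 2 ^ k := by rwa [div_le_iff₀ hkpos] at h1
  have hx2 : x * 2 ^ k < (i : ℝ) + 1 := by rwa [lt_div_iff₀ hkpos] at h2
  have h4 : |(A : ℝ) - x * 2 ^ k| < |(A : ℝ) - i| + 1 := by
    have h5 : (A : ℝ) - x * 2 ^ k = ((A : ℝ) - i) + ((i : ℝ) - x * 2 ^ k) := by ring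
    rw [h5]
    refine (abs_add_le _ _).trans_lt ?_
    have h6 : |(i : ℝ) - x * 2 ^ k| < 1 := by
      rw [abs_lt]
      constructor <;> linarith
    linarith
  have h7 : |(A : ℝ) / 2 ^ k - x| = |(A : ℝ) - x * 2 ^ k| / 2 ^ k := by
    have h8 : (A : ℝ) / 2 ^ k - x = ((A : ℝ) - x * 2 ^ k) / 2 ^ k := by field_simp
    rw [h8, abs_div, abs_of_pos hkpos]
  rw [h7, div_lt_iff₀ hkpos]
  exact h4.trans_le hle'

/-- TARGET 3 -/
theorem cov_succ {e k : ℕ} {H H' : List ℕ} (hH : ∀ g < k, H'.getD g 0 = H.getD g 0) {i : ℕ}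
    {σ : List ℕ} (h : cov e k H i σ = true) :
    cov e (k + 1) H' (2 * i) σ = true ∧ cov e (k + 1) H' (2 * i + 1) σ = true := by
  rw [cov_iff_nat, cov_iff_nat]
  have key : ∀ j < σ.length, j ≤ σ.getD j 0 ∧ σ.getD j 0 < k ∧
      (adf (H'.getD (σ.getD j 0) 0 * 2 ^ (k + 1 - σ.getD j 0)) (2 * i) * 2 ^ (j + 1) < 2 ^ (e + (k + 1)) ∧
       adf (H'.getD (σ.getD j 0) 0 * 2 ^ (k + 1 - σ.getD j 0)) (2 * i + 1) * 2 ^ (j + 1) < 2 ^ (e + (k + 1))) := by
    intro j hj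
    obtain ⟨hjg, hgk, hlt⟩ := cov_iff_nat.mp h j hj
    have hle := slack_nat hjg hgk hlt
    refine ⟨hjg, hgk, ?_⟩
    rw [hH _ hgk]
    generalize σ.getD j 0 = g at *
    have h1 : H.getD g 0 * 2 ^ (k + 1 - g) = 2 * (H.getD g 0 * 2 ^ (k - g)) := by
      rw [Nat.succ_sub hgk.le, pow_succ]
      ring
    rw [h1]
    generalize H.getD g 0 * 2 ^ (k - g) = A at *
    have h2 : adf (2 * A) (2 * i) = 2 * adf A i := by unfold adf; omega
    have h3 : adf (2 * A) (2 * i + 1) ≤ 2 * adf A i + 1 := by unfold adf; omega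
    have h4 : 2 ^ (e + (k + 1)) = 2 * 2 ^ (e + k) := by rw [← add_assoc, pow_succ]; ring
    rw [h4]
    have hp : 0 < 2 ^ (j + 1) := by positivity
    generalize 2 ^ (j + 1) = J at *
    generalize 2 ^ (e + k) = E at *
    constructor
    · rw [h2]
      nlinarith
    · have h5 : adf (2 * A) (2 * i + 1) * J ≤ (2 * adf A i + 1) * J := Nat.mul_le_mul_right _ h3
      nlinarith
  constructor
  · intro j hj
    obtain ⟨h1, h2, h3, _⟩ := key j hj
    exact ⟨h1, h2.trans (Nat.lt_succ_self k), h3⟩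
  · intro j hj
    obtain ⟨h1, h2, _, h3⟩ := key j hj
    exact ⟨h1, h2.trans (Nat.lt_succ_self k), h3⟩

/-- TARGET 4 -/
theorem cvd_iff (P : Prm) (e k : ℕ) (H : List ℕ) (n b m₀ s i : ℕ) :
    cvd P e k H n b m₀ s i = true ↔ ∃ z < k, cov e k H i (lst z) = true ∧
      ∃ m, com P e (lst z) n = some m ∧ tst P b k m₀ s m = true := by
  unfold cvd
  rw [List.any_eq_true]
  constructor
  · rintro ⟨z, hz, h⟩
    rw [Bool.and_eq_true, Option.any_eq_true] at h
    obtain ⟨h1, m, hm1, hm2⟩ := h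
    exact ⟨z, List.mem_range.mp hz, h1, m, hm1, hm2⟩
  · rintro ⟨z, hz, h1, m, hm1, hm2⟩
    refine ⟨z, List.mem_range.mpr hz, ?_⟩
    rw [Bool.and_eq_true, Option.any_eq_true]
    exact ⟨h1, m, hm1, hm2⟩

/-- TARGET 5 -/
theorem cvd_succ (P : Prm) {e k : ℕ} {H H' : List ℕ} (hH : ∀ g < k, H'.getD g 0 = H.getD g 0)
    {n b m₀ s i : ℕ} (h : cvd P e k H n b m₀ s i = true) :
    cvd P e (k + 1) H' n b m₀ s (2 * i) = true ∧
      cvd P e (k + 1) H' n b m₀ s (2 * i + 1) = true := by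
  rw [cvd_iff] at h
  rw [cvd_iff, cvd_iff]
  obtain ⟨z, hz, hc, m, hm, ht⟩ := h
  obtain ⟨h1, h2⟩ := cov_succ hH hc
  have ht' : tst P b (k + 1) m₀ s m = true := by
    unfold tst at ht ⊢
    by_cases hb : b = 0
    · rw [if_pos hb] at ht ⊢
      rw [decide_eq_true_eq] at ht ⊢
      omega
    · rw [if_neg hb] at ht ⊢
      exact ht
  exact ⟨⟨z, by omega, h1, m, hm, ht'⟩, ⟨z, by omega, h2, m, hm, ht'⟩⟩

theorem firstUnc_spec (c : ℕ → Bool) (N : ℕ) :
    (∀ i < (Nat.rec 0 (fun i u => if u = i ∧ c i = true then i + 1 else u) N : ℕ), c i = true) ∧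
    ((Nat.rec 0 (fun i u => if u = i ∧ c i = true then i + 1 else u) N : ℕ) < N →
      c (Nat.rec 0 (fun i u => if u = i ∧ c i = true then i + 1 else u) N : ℕ) = false) ∧
    (Nat.rec 0 (fun i u => if u = i ∧ c i = true then i + 1 else u) N : ℕ) ≤ N := by
  induction N with
  | zero =>
    refine ⟨?_, ?_, ?_⟩
    · intro i hi
      exact absurd hi (Nat.not_lt_zero _)
    · intro hi
      exact absurd hi (Nat.not_lt_zero _)
    · exact le_refl _
  | succ N ih =>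
    change (∀ i < (if (Nat.rec 0 (fun i u => if u = i ∧ c i = true then i + 1 else u) N : ℕ) = N ∧ c N = true then N + 1 else (Nat.rec 0 (fun i u => if u = i ∧ c i = true then i + 1 else u) N : ℕ)), c i = true) ∧
      ((if (Nat.rec 0 (fun i u => if u = i ∧ c i = true then i + 1 else u) N : ℕ) = N ∧ c N = true then N + 1 else (Nat.rec 0 (fun i u => if u = i ∧ c i = true then i + 1 else u) N : ℕ)) < N + 1 →
      c (if (Nat.rec 0 (fun i u => if u = i ∧ c i = true then i + 1 else u) N : ℕ) = N ∧ c N = true then N + 1 else (Nat.rec 0 (fun i u => if u = i ∧ c i = true then i + 1 else u) N : ℕ)) = false) ∧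
      (if (Nat.rec 0 (fun i u => if u = i ∧ c i = true then i + 1 else u) N : ℕ) = N ∧ c N = true then N + 1 else (Nat.rec 0 (fun i u => if u = i ∧ c i = true then i + 1 else u) N : ℕ)) ≤ N + 1
    generalize (Nat.rec 0 (fun i u => if u = i ∧ c i = true then i + 1 else u) N : ℕ) = v at *
    obtain ⟨ih1, ih2, ih3⟩ := ih
    by_cases hv : v = N ∧ c N = true
    · rw [if_pos hv]
      refine ⟨?_, ?_, le_refl _⟩
      · intro i hi
        rcases Nat.lt_succ_iff_lt_or_eq.mp hi with hi | hi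
        · exact ih1 i (by omega)
        · rw [hi]
          exact hv.2
      · intro h
        omega
    · rw [if_neg hv]
      refine ⟨ih1, ?_, by omega⟩
      intro _
      by_cases hvN : v < N
      · exact ih2 hvN
      · have hvN' : v = N := by omega
        rw [hvN']
        by_contra hc
        rw [Bool.not_eq_false] at hc
        exact hv ⟨hvN', hc⟩

/-- TARGET 6 -/
theorem fu_spec (P : Prm) (e k : ℕ) (H : List ℕ) (n b m₀ s : ℕ) :
    (∀ i < fu P e k H n b m₀ s, cvd P e k H n b m₀ s i = true) ∧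
    (fu P e k H n b m₀ s ≤ 2 ^ k → cvd P e k H n b m₀ s (fu P e k H n b m₀ s) = false) ∧
    fu P e k H n b m₀ s ≤ 2 ^ k + 1 := by
  have h := firstUnc_spec (cvd P e k H n b m₀ s) (2 ^ k + 1)
  refine ⟨h.1, fun hle => h.2.1 (Nat.lt_succ_of_le hle), h.2.2⟩

/-- TARGET 7: the first uncovered grid point moves to the right -/
theorem fu_succ (P : Prm) {e k : ℕ} {H H' : List ℕ} (hH : ∀ g < k, H'.getD g 0 = H.getD g 0)
    (n b m₀ s : ℕ) : min (2 * fu P e k H n b m₀ s) (2 ^ (k + 1) + 1) ≤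
      fu P e (k + 1) H' n b m₀ s := by
  obtain ⟨h1, _, _⟩ := fu_spec P e k H n b m₀ s
  obtain ⟨_, h2', _⟩ := fu_spec P e (k + 1) H' n b m₀ s
  by_cases hle : fu P e (k + 1) H' n b m₀ s ≤ 2 ^ (k + 1)
  · have hf := h2' hle
    rw [min_le_iff]
    left
    by_contra hlt
    rw [not_le] at hlt
    have hc := cvd_succ P hH (h1 (fu P e (k + 1) H' n b m₀ s / 2) (by omega))
    rcases Nat.mod_two_eq_zero_or_one (fu P e (k + 1) H' n b m₀ s) with hm | hm
    · have he : 2 * (fu P e (k + 1) H' n b m₀ s / 2) = fu P e (k + 1) H' n b m₀ s := by omega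
      have hc1 := hc.1
      rw [he, hf] at hc1
      exact Bool.false_ne_true hc1
    · have he : 2 * (fu P e (k + 1) H' n b m₀ s / 2) + 1 = fu P e (k + 1) H' n b m₀ s := by omega
      have hc1 := hc.2
      rw [he, hf] at hc1
      exact Bool.false_ne_true hc1
  · rw [min_le_iff]
    right
    omega

/-- TARGET 8 -/
theorem lst_encode (σ : List ℕ) : lst (Encodable.encode σ) = σ := by
  unfold lst
  exact Denumerable.ofNat_encode σ

end Pool.Agent.Helper583.TT
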