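import Pool.Agent.Helper583.TTRun

/-!
A region without isolated points: the strategy which moves the positions.
-/

namespace Pool.Agent.Helper583.TT

open Pool.Agent.Helper583.TC.J2 (srchO srchO_some srchO_ne primrec_srchO valsO valsO_succ
  primrec_valsO)

/-- the parameters of the strategy -/
structure Prm where
  y : ℕ → ℕ → ℕ
  fr : ℕ → ℕ → ℕ → Bool
  ell : ℕ → ℕ
  cl : ℕ → ℕ → ℕ → Bool

/-- a state: mode, the number `K`, the stage of the action, the reference point, the history -/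
abbrev St : Type := ℕ × ℕ × ℕ × ℕ × List ℕ

def adf (a b : ℕ) : ℕ := (a - b) + (b - a)

/-- the word with number `z` -/
def lst (z : ℕ) : List ℕ := Denumerable.ofNat (List ℕ) z

/-- the word `σ` covers the grid point `i / 2 ^ k` -/
def cov (e k : ℕ) (H : List ℕ) (i : ℕ) (σ : List ℕ) : Bool :=
  (List.range σ.length).all fun j =>
    decide (j ≤ σ.getD j 0) && decide (σ.getD j 0 < k) &&
      decide (adf (H.getD (σ.getD j 0) 0 * 2 ^ (k - σ.getD j 0)) i * 2 ^ (j + 1) < 2 ^ (e + k))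

/-- value committed by the word `σ` -/
def com (P : Prm) (e : ℕ) (σ : List ℕ) (n : ℕ) : Option ℕ := rn e.unpair.1 (σ.map (P.y e)) n

/-- test of a committed value: `b = 0` small index, `b = 1` close to the reference point -/
def tst (P : Prm) (b k m₀ s m : ℕ) : Bool := if b = 0 then decide (m < k) else P.cl m m₀ s

/-- the grid point `i / 2 ^ k` is covered by a word with a good value -/
def cvd (P : Prm) (e k : ℕ) (H : List ℕ) (n b m₀ s i : ℕ) : Bool :=
  (List.range k).any fun z => cov e k H i (lst z) &&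
    ((com P e (lst z) n).any fun m => tst P b k m₀ s m)

/-- number of the first grid point which is not covered -/
def fu (P : Prm) (e k : ℕ) (H : List ℕ) (n b m₀ s : ℕ) : ℕ :=
  Nat.rec 0 (fun i u => if u = i ∧ cvd P e k H n b m₀ s i = true then i + 1 else u) (2 ^ k + 1)

/-- first value committed at position zero -/
def fz (P : Prm) (e k : ℕ) (H : List ℕ) (n : ℕ) : Option ℕ :=
  srchO (fun z => if cov e k H 0 (lst z) = true then com P e (lst z) n else none) k

/-- the event of mode zero -/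
def ev1 (P : Prm) (e k : ℕ) : Option ℕ :=
  (valsO (rn e.unpair.1 ((List.range k.unpair.2).map (P.y e))) (k.unpair.1 + 1)).bind fun qs =>
    (rn e.unpair.2 qs.tail (e + 2)).bind fun m =>
      if P.fr e m k = true then some k.unpair.1 else none

/-- precision in mode one -/
def n1 (e K : ℕ) : ℕ := K + e + 10

/-- precision in modes two and three -/
def n2 (P : Prm) (s : ℕ) : ℕ := P.ell s + 5

/-- one step -/
def stp (P : Prm) (e k : ℕ) (s : St) : St :=
  if s.1 = 0 then
    match ev1 P e k with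
    | none => (0, 0, 0, 0, s.2.2.2.2 ++ [0])
    | some K => (1, K, 0, 0, s.2.2.2.2 ++ [0])
  else if s.1 = 1 then
    if fu P e k s.2.2.2.2 (n1 e s.2.1) 0 0 0 ≤ 2 ^ k then
      (1, s.2.1, 0, 0, s.2.2.2.2 ++ [fu P e k s.2.2.2.2 (n1 e s.2.1) 0 0 0 - 1])
    else if k.unpair.1 = e ∧ s.2.1 + 3 ≤ k then (2, s.2.1, k, 0, s.2.2.2.2 ++ [0])
    else (1, s.2.1, 0, 0, s.2.2.2.2 ++ [2 ^ k])
  else if s.1 = 2 then
    match fz P e k s.2.2.2.2 (n2 P s.2.2.1) with
    | none => (2, s.2.1, s.2.2.1, 0, s.2.2.2.2 ++ [0])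
    | some m => (3, s.2.1, s.2.2.1, m, s.2.2.2.2 ++ [0])
  else if s.1 = 3 then
    if fu P e k s.2.2.2.2 (n2 P s.2.2.1) 1 s.2.2.2.1 s.2.2.1 ≤ 2 ^ k then
      (3, s.2.1, s.2.2.1, s.2.2.2.1,
        s.2.2.2.2 ++ [fu P e k s.2.2.2.2 (n2 P s.2.2.1) 1 s.2.2.2.1 s.2.2.1 - 1])
    else (4, s.2.1, s.2.2.1, s.2.2.2.1, s.2.2.2.2 ++ [2 ^ k])
  else (4, s.2.1, s.2.2.1, s.2.2.2.1, s.2.2.2.2 ++ [2 ^ k])

/-- the states -/
def sts (P : Prm) (e : ℕ) (k : ℕ) : St :=
  Nat.rec (0, 0, 0, 0, []) (fun k s => stp P e k s) k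

/-- numerator of the `k`-th position -/
def num (P : Prm) (e k : ℕ) : ℕ := (sts P e (k + 1)).2.2.2.2.getD k 0

/-- the action takes place at stage `k` -/
def acts (P : Prm) (e k : ℕ) : Bool :=
  decide ((sts P e k).1 = 1) && decide ((sts P e (k + 1)).1 = 2)

end Pool.Agent.Helper583.TT
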