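import Pool.Agent.Helper583.TTBEnd

/-!
A region without isolated points: the two presentations are not computably homeomorphic.
-/

namespace Pool.Agent.Helper583.TT

open Filter Topology

variable {Y : Type} [MetricSpace Y] [CompleteSpace Y] {c : ℕ → Y}

namespace Geo

variable (G : Geo c) {h : G.N.Y ≃ₜ G.M.Y} {e : ℕ}

theorem base_le (m : ℕ) (z : GM G.ΦM) : dist (c m) z.val ≤ dist (G.M.c m) (z : G.M.Y) :=
  gm_base_le (Φ := G.ΦM) (⟨c m⟩ : GM G.ΦM) z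

/-- two points after the action with values close in `Y` have values close in `M` -/
theorem close_M (hf : Rn G.N G.M h e.unpair.1) {K s k k' : ℕ} (hB : G.PB e K s) (hK : K + 3 ≤ s)
    (hk : s ≤ k) (hk' : s ≤ k')
    (hd : dist (GM.val (Φ := G.ΦM) (h (⟨c (G.y e k)⟩ : GM G.ΦN)))
      (GM.val (Φ := G.ΦM) (h (⟨c (G.y e k')⟩ : GM G.ΦN))) ≤ 1 / 2 ^ G.ell s) :
    dist (h (⟨c (G.y e k)⟩ : GM G.ΦN)) (h (⟨c (G.y e k')⟩ : GM G.ΦN)) ≤ 1 / 2 ^ K := by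
  obtain ⟨⟨m, hm, hm2⟩, j, hj, hj2⟩ := G.label hf hB hk
  obtain ⟨⟨m', hm', hm2'⟩, j', hj', hj2'⟩ := G.label hf hB hk'
  have hjj := G.label_unique hj hj' hj2 hj2' hd
  subst hjj
  set z : GM G.ΦM := h (⟨c (G.y e k)⟩ : GM G.ΦN) with hz
  set z' : GM G.ΦM := h (⟨c (G.y e k')⟩ : GM G.ΦN) with hz'
  have hη : (0:ℝ) < 1 / 2 ^ G.ell s := by positivity
  have h1 : dist z.val z'.val ≤ 2 * (1 / 2 ^ G.ell s / 2 ^ 10) := by
    have := dist_triangle_right z.val z'.val (c j)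
    linarith
  have h2 := G.dM_small hm hm' z z'
  have h3 : dist z.val z'.val * 2 ^ G.ell s ≤ 2 * (1 / 2 ^ 10) := by
    have : 2 * ((1:ℝ) / 2 ^ G.ell s / 2 ^ 10) * 2 ^ G.ell s = 2 * (1 / 2 ^ 10) := by
      field_simp
    rw [← this]
    exact mul_le_mul_of_nonneg_right h1 (by positivity)
  have h4 : dist z.val z'.val * 2 ^ G.ell s / 2 ^ (s + 2) ≤ 2 * (1 / 2 ^ 10) * (1 / 2 ^ K) := by
    rw [div_eq_mul_one_div]
    apply mul_le_mul h3 _ (by positivity) (by positivity)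
    exact pow_anti (by omega)
  have h5 : (1:ℝ) / 2 ^ G.ell s ≤ 1 / 2 ^ K := pow_anti (by have := G.ell2 s; omega)
  have h6 : (1:ℝ) / 2 ^ n1 e K ≤ 1 / 2 ^ 10 * (1 / 2 ^ K) := by
    have : (1:ℝ) / 2 ^ 10 * (1 / 2 ^ K) = 1 / 2 ^ (10 + K) := by
      rw [pow_add]; field_simp
    rw [this]
    exact pow_anti (by unfold n1; omega)
  have h7 : dist (⟨c m⟩ : GM G.ΦM) z ≤ 1 / 2 ^ n1 e K := hm2
  have h8 : dist (⟨c m'⟩ : GM G.ΦM) z' ≤ 1 / 2 ^ n1 e K := hm2'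
  have h9 : (0:ℝ) < 1 / 2 ^ K := by positivity
  have h10 : dist z z' ≤ 1 / 2 ^ K := by
    have p10 : (2:ℝ) ^ 10 = 1024 := by norm_num
    rw [p10] at h1 h4 h6
    linarith
  exact h10

/-- mode three ends -/
theorem claim4 (hf : Rn G.N G.M h e.unpair.1) {K s₂ s₃ m₀ : ℕ} (hB : G.PB e K s₂)
    (h23 : s₂ < s₃) (hz3 : num G.P e s₃ = 0)
    (hC : ∃ σ, Cv G.P e s₃ σ 0 ∧ com G.P e σ (n2 G.P s₂) = some m₀)
    (hD1 : ∀ k > s₃, ∃ σ m, Cv G.P e k σ (ps G.P e k) ∧ com G.P e σ (n2 G.P s₂) = some m ∧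
      G.P.cl m m₀ s₂ = true)
    (hD2 : ∀ L, Tendsto (ps G.P e) atTop (𝓝 L) → ∀ g, Nm G.P e L g →
      ∀ l m, com G.P e (pre g l) (n2 G.P s₂) = some m → G.P.cl m m₀ s₂ = false) : False := by
  obtain ⟨σ₀, hσ₀, hm₀⟩ := hC
  have hn2 : n2 G.P s₂ = G.ell s₂ + 5 := rfl
  have hη : (0:ℝ) < 1 / 2 ^ G.ell s₂ := by positivity
  have hη5 : (1:ℝ) / 2 ^ n2 G.P s₂ = 1 / 2 ^ G.ell s₂ / 32 := by
    rw [hn2, pow_add]; field_simp; norm_num
  -- the point with number `s₃`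
  have h1 := G.com_y hf hσ₀ (G.ps_zero hz3).symm (Nat.le_succ _) hm₀
  set z₀ : GM G.ΦM := h (⟨c (G.y e s₃)⟩ : GM G.ΦN) with hz₀
  have h2 : dist (c m₀) z₀.val ≤ 1 / 2 ^ G.ell s₂ / 32 := by
    rw [← hη5]
    exact le_trans (G.base_le m₀ z₀) h1
  obtain ⟨-, j₀, hj₀, hj₀2⟩ := G.label hf hB h23.le
  -- later points
  have h3 : ∀ k > s₃, dist (GM.val (Φ := G.ΦM) (h (⟨c (G.y e k)⟩ : GM G.ΦN))) (c j₀) ≤
      1 / 2 ^ G.ell s₂ / 2 ^ 10 := by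
    intro k hk
    obtain ⟨σ, m, hσ, hm, hcl⟩ := hD1 k hk
    have h4 := G.com_y hf hσ rfl (Nat.le_succ _) hm
    set z : GM G.ΦM := h (⟨c (G.y e k)⟩ : GM G.ΦN) with hz
    have h5 : dist (c m) z.val ≤ 1 / 2 ^ G.ell s₂ / 32 := by
      rw [← hη5]
      exact le_trans (G.base_le m z) h4
    have h6 := G.cl2 m m₀ s₂ hcl
    obtain ⟨-, j, hj, hj2⟩ := G.label hf hB (show s₂ ≤ k by omega)
    have h7 : dist z.val z₀.val ≤ 1 / 2 ^ G.ell s₂ := by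
      have h8 := dist_triangle4 z.val (c m) (c m₀) z₀.val
      rw [dist_comm z.val (c m)] at h8
      linarith
    have h8 := G.label_unique hj hj₀ hj2 hj₀2 h7
    rw [← h8]
    exact hj2
  -- the commitment at the limit
  obtain ⟨g, hg⟩ := G.exists_nm e
  obtain ⟨q, hq, hq1, hq2⟩ := G.com_w hf hg
  obtain ⟨l₀, hl₀⟩ := hq2 (n2 G.P s₂)
  have h4 := hl₀ l₀ le_rfl
  have h5 := hD2 _ (G.hL e) g hg l₀ _ h4
  have h6 := hq (n2 G.P s₂)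
  set zw : GM G.ΦM := h (⟨G.w e⟩ : GM G.ΦN) with hzw
  have h7 : dist (c (q (n2 G.P s₂))) zw.val ≤ 1 / 2 ^ G.ell s₂ / 32 := by
    rw [← hη5]
    exact le_trans (G.base_le _ zw) h6
  -- continuity
  have h8 : dist zw.val (c j₀) ≤ 1 / 2 ^ G.ell s₂ / 2 ^ 10 := by
    have ht : Tendsto (fun k => (⟨c (G.y e k)⟩ : GM G.ΦN)) atTop (𝓝 (⟨G.w e⟩ : GM G.ΦN)) := by
      rw [tendsto_iff_dist_tendsto_zero]
      have he : ∀ k, dist (⟨c (G.y e k)⟩ : GM G.ΦN) (⟨G.w e⟩ : GM G.ΦN) =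
          dist (c (G.y e k)) (G.w e) + |ps G.P e k - G.L e| / 2 ^ e := by
        intro k
        rw [G.dist_one (e := e) (fun e' he' => G.pi_y' k he') (fun e' he' => G.pi_w' he'), G.pi_y,
          G.pi_w]
      simp only [he]
      have h9 : Tendsto (fun k => dist (c (G.y e k)) (G.w e)) atTop (𝓝 0) := by
        refine squeeze_zero (fun k => dist_nonneg) (fun k => ?_) pow_lim
        exact le_trans (G.yd e k) (pow_anti (by omega))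
      have h10 : Tendsto (fun k => |ps G.P e k - G.L e| / 2 ^ e) atTop (𝓝 0) := by
        have h11 := ((G.hL e).sub_const (G.L e)).abs.div_const (2 ^ e)
        simpa using h11
      simpa using h9.add h10
    have ht2 : Tendsto (fun k => GM.val (Φ := G.ΦM) (h (⟨c (G.y e k)⟩ : GM G.ΦN))) atTop
        (𝓝 zw.val) :=
      ((gmHomeo (Φ := G.ΦM)).continuous.tendsto zw).comp ((h.continuous.tendsto _).comp ht)
    have ht3 := ht2.dist (tendsto_const_nhds (x := c j₀))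
    refine le_of_tendsto ht3 ?_
    filter_upwards [eventually_gt_atTop s₃] with k hk
    exact h3 k hk
  have h9 : G.P.cl (q (n2 G.P s₂)) m₀ s₂ = true := by
    apply G.cl1
    have h10 := dist_triangle4 (c (q (n2 G.P s₂))) zw.val (c j₀) z₀.val
    have h11 := dist_triangle_right (c (q (n2 G.P s₂))) (c m₀) z₀.val
    rw [dist_comm (c j₀) z₀.val] at h10
    have h12 : (1:ℝ) / 2 ^ G.ell s₂ / 2 ^ 10 ≤ 1 / 2 ^ G.ell s₂ / 32 := by
      apply div_le_div_of_nonneg_left hη.le (by norm_num) (by norm_num)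
    linarith
  rw [h9] at h5
  exact Bool.false_ne_true h5.symm

/-- the strategy never reaches mode four -/
theorem claim5 (hf : Rn G.N G.M h e.unpair.1) (hg : Rn G.M G.N h.symm e.unpair.2)
    {k₀ K s₂ s₃ m₀ s₄ : ℕ} (h1 : ev1 G.P e k₀ = some K) (h2 : ∀ k ≤ k₀, num G.P e k = 0)
    (hB : G.PB e K s₂) (hK : K + 3 ≤ s₂) (h02 : k₀ < s₂)
    (h23 : s₂ < s₃) (hz3 : num G.P e s₃ = 0)
    (hC : ∃ σ, Cv G.P e s₃ σ 0 ∧ com G.P e σ (n2 G.P s₂) = some m₀)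
    (h34 : s₃ < s₄) (hz4 : num G.P e s₄ = 2 ^ s₄)
    (hD : ∃ σ m, Cv G.P e s₄ σ 1 ∧ com G.P e σ (n2 G.P s₂) = some m ∧
      G.P.cl m m₀ s₂ = true) : False := by
  obtain ⟨σ₀, hσ₀, hm₀⟩ := hC
  obtain ⟨σ₁, m₁, hσ₁, hm₁, hcl⟩ := hD
  have hn2 : n2 G.P s₂ = G.ell s₂ + 5 := rfl
  have hη : (0:ℝ) < 1 / 2 ^ G.ell s₂ := by positivity
  have hη5 : (1:ℝ) / 2 ^ n2 G.P s₂ = 1 / 2 ^ G.ell s₂ / 32 := by
    rw [hn2, pow_add]; field_simp; norm_num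
  have hps4 : ps G.P e s₄ = 1 := by
    unfold ps
    rw [hz4]
    push_cast
    exact div_self (by positivity)
  have e1 := G.com_y hf hσ₀ (G.ps_zero hz3).symm (Nat.le_succ _) hm₀
  have e2 := G.com_y hf hσ₁ hps4.symm (Nat.le_succ _) hm₁
  have e3 : dist (c m₀) (GM.val (Φ := G.ΦM) (h (⟨c (G.y e s₃)⟩ : GM G.ΦN))) ≤
      1 / 2 ^ G.ell s₂ / 32 := by
    rw [← hη5]
    exact le_trans (G.base_le m₀ _) e1
  have e4 : dist (c m₁) (GM.val (Φ := G.ΦM) (h (⟨c (G.y e s₄)⟩ : GM G.ΦN))) ≤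
      1 / 2 ^ G.ell s₂ / 32 := by
    rw [← hη5]
    exact le_trans (G.base_le m₁ _) e2
  have e5 := G.cl2 m₁ m₀ s₂ hcl
  have e6 : dist (GM.val (Φ := G.ΦM) (h (⟨c (G.y e s₄)⟩ : GM G.ΦN)))
      (GM.val (Φ := G.ΦM) (h (⟨c (G.y e s₃)⟩ : GM G.ΦN))) ≤ 1 / 2 ^ G.ell s₂ := by
    have e7 := dist_triangle4 (GM.val (Φ := G.ΦM) (h (⟨c (G.y e s₄)⟩ : GM G.ΦN))) (c m₁) (c m₀)
      (GM.val (Φ := G.ΦM) (h (⟨c (G.y e s₃)⟩ : GM G.ΦN)))
    rw [dist_comm (GM.val (Φ := G.ΦM) (h (⟨c (G.y e s₄)⟩ : GM G.ΦN))) (c m₁)] at e7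
    linarith
  have e7 := G.close_M hf hB hK (show s₂ ≤ s₄ by omega) h23.le e6
  have e8 := G.guard hf hg h1 h2 (show k₀ ≤ s₃ by omega) hz3 e7
  rw [h.symm_apply_apply] at e8
  have e9 : G.pi e (c (G.y e s₄)) ≤ 1 / 4 := e8
  rw [G.pi_y, hps4] at e9
  norm_num at e9

/-- the two presentations are not computably homeomorphic -/
theorem caseB (h1 : CompMap G.N G.M h) (h2 : CompMap G.M G.N h.symm) : False := by
  obtain ⟨f, hf0⟩ := rn_of_comp h1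
  obtain ⟨g, hg0⟩ := rn_of_comp h2
  have hf : Rn G.N G.M h (Nat.pair f g).unpair.1 := by
    rw [Nat.unpair_pair]; exact hf0
  have hg : Rn G.M G.N h.symm (Nat.pair f g).unpair.2 := by
    rw [Nat.unpair_pair]; exact hg0
  have hcl : ∀ m s, G.P.cl m m s = true := by
    intro m s
    apply G.cl1
    rw [dist_self]
    positivity
  rcases machine G.P hcl (Nat.pair f g) with ⟨a1, a2⟩ | ⟨k₀, K, ⟨a1, a2⟩, a3⟩
  · exact G.claim1 hf hg a1 a2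
  · rcases a3 with a3 | ⟨s₂, ⟨b1, b2, b3, -, b5⟩, b6⟩
    · obtain ⟨g', hg'⟩ := G.exists_nm (Nat.pair f g)
      obtain ⟨q, -, -, hq2⟩ := G.com_w hf hg'
      obtain ⟨l₀, hl₀⟩ := hq2 (n1 (Nat.pair f g) K)
      have h3 := hl₀ l₀ le_rfl
      rw [a3 _ (G.hL _) g' hg' l₀] at h3
      simp at h3
    · rcases b6 with ⟨b6, b7⟩ | ⟨s₃, m₀, ⟨c1, c2, c3⟩, c4⟩
      · obtain ⟨g', hg'⟩ := G.exists_nm (Nat.pair f g)
        obtain ⟨q, -, -, hq2⟩ := G.com_w hf hg'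
        obtain ⟨l₀, hl₀⟩ := hq2 (n2 G.P s₂)
        have h3 := hl₀ l₀ le_rfl
        rw [G.L_zero b6] at hg'
        rw [b7 g' hg' l₀] at h3
        simp at h3
      · rcases c4 with ⟨d1, d2⟩ | ⟨s₄, d1, d2, d3⟩
        · exact G.claim4 hf ⟨b1, b5⟩ c1 c2 c3 d1 d2
        · exact G.claim5 hf hg a1 a2 ⟨b1, b5⟩ b2 b3 c1 c2 c3 d1 d2 d3

end Geo

end Pool.Agent.Helper583.TT
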