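import Pool.Agent.Helper583.TTBStep
import Pool.Agent.Helper583.TTBCov

namespace Pool.Agent.Helper583.TT

open Nat.Partrec (Code)
open Pool.Agent.Helper583.TC.J2 (srchO srchO_some srchO_ne srchO_succ primrec_srchO valsO
  valsO_succ primrec_valsO)

/-- the position number `k` -/
noncomputable def ps (P : Prm) (e k : ℕ) : ℝ := (num P e k : ℝ) / 2 ^ k

/-- the word `σ` of indices `< k` covers the number `x` -/
def Cv (P : Prm) (e k : ℕ) (σ : List ℕ) (x : ℝ) : Prop :=
  ∀ j < σ.length, j ≤ σ.getD j 0 ∧ σ.getD j 0 < k ∧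
    |ps P e (σ.getD j 0) - x| < 2 ^ e / 2 ^ (j + 1)

/-- `g` covers the number `x` -/
def Nm (P : Prm) (e : ℕ) (x : ℝ) (g : ℕ → ℕ) : Prop :=
  ∀ j, j ≤ g j ∧ |ps P e (g j) - x| < 2 ^ e / 2 ^ (j + 1)

/- ===== TARGETS ===== -/

/-- TARGET 1 -/
theorem ps_mem (P : Prm) (e k : ℕ) : 0 ≤ ps P e k ∧ ps P e k ≤ 1 := by
  have h := num_le P e k
  have h' : (num P e k : ℝ) ≤ 2 ^ k := by exact_mod_cast h
  refine ⟨by unfold ps; positivity, ?_⟩
  unfold ps
  rw [div_le_one (by positivity)]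
  exact h'

theorem ev_const (f : ℕ → ℕ) (hm : ∀ j k, j ≤ k → f j ≤ f k) (B : ℕ) (hB : ∀ k, f k ≤ B) :
    ∃ k0, ∀ k ≥ k0, f k = f k0 := by
  by_contra hcon
  push Not at hcon
  have key : ∀ n : ℕ, ∃ k, n ≤ f k := by
    intro n
    induction n with
    | zero => exact ⟨0, Nat.zero_le _⟩
    | succ n ih =>
      obtain ⟨k, hk⟩ := ih
      obtain ⟨k', hk', hne⟩ := hcon k
      have := hm k k' hk'
      exact ⟨k', by omega⟩
  obtain ⟨k, hk⟩ := key (B + 1)
  have := hB k
  omega

theorem hs_restr (P : Prm) (e k : ℕ) : ∀ g < k, (hs P e (k + 1)).getD g 0 = (hs P e k).getD g 0 := by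
  intro g hg
  rw [hs_getD P e hg, hs_getD P e (by omega : g < k + 1)]

/-- the number of the first uncovered point for the true history -/
def fk (P : Prm) (e n b m₀ s k : ℕ) : ℕ := fu P e k (hs P e k) n b m₀ s

theorem fk_succ (P : Prm) (e n b m₀ s k : ℕ) :
    min (2 * fk P e n b m₀ s k) (2 ^ (k + 1) + 1) ≤ fk P e n b m₀ s (k + 1) :=
  fu_succ P (hs_restr P e k) n b m₀ s

theorem fk_le (P : Prm) (e n b m₀ s k : ℕ) : fk P e n b m₀ s k ≤ 2 ^ k + 1 := fu_le _ _ _ _ _ _ _ _

theorem ps_tend_of_mono (P : Prm) (e n b m₀ s k0 : ℕ)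
    (h : ∀ k ≥ k0, num P e k = fk P e n b m₀ s k - 1) :
    ∃ L, Filter.Tendsto (ps P e) Filter.atTop (nhds L) := by
  have hmono : Monotone (fun k => ps P e (k + k0)) := by
    apply monotone_nat_of_le_succ
    intro k
    show ps P e (k + k0) ≤ ps P e (k + 1 + k0)
    have e1 : k + 1 + k0 = (k + k0) + 1 := by omega
    rw [e1]
    have h1 := h (k + k0) (by omega)
    have h2 := h (k + k0 + 1) (by omega)
    have h3 := fk_succ P e n b m₀ s (k + k0)
    have h4 := fk_le P e n b m₀ s (k + k0)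
    have h5 : 2 * num P e (k + k0) ≤ num P e (k + k0 + 1) := by
      rw [h1, h2]
      rw [pow_succ] at h3
      rcases min_le_iff.1 h3 with h6 | h6 <;> omega
    have h7 : 2 * (num P e (k + k0) : ℝ) ≤ num P e (k + k0 + 1) := by exact_mod_cast h5
    unfold ps
    rw [pow_succ, div_le_div_iff₀ (by positivity) (by positivity)]
    have h8 : (0 : ℝ) < 2 ^ (k + k0) := by positivity
    nlinarith
  have hb : BddAbove (Set.range (fun k => ps P e (k + k0))) :=
    ⟨1, by rintro _ ⟨k, rfl⟩; exact (ps_mem P e _).2⟩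
  have := tendsto_atTop_ciSup hmono hb
  exact ⟨_, (Filter.tendsto_add_atTop_iff_nat k0).mp this⟩

/-- TARGET 2: the positions converge -/
theorem ps_lim (P : Prm) (e : ℕ) : ∃ L, Filter.Tendsto (ps P e) Filter.atTop (nhds L) := by
  obtain ⟨k0, hk0⟩ := ev_const (md P e) (fun j k h => md_mono P e h) 4 (md_le P e)
  have hle := md_le P e k0
  have hconst : ∀ c : ℝ, (∀ k ≥ k0, ps P e k = c) →
      ∃ L, Filter.Tendsto (ps P e) Filter.atTop (nhds L) := by
    intro c hc
    refine ⟨c, ?_⟩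
    have : ps P e =ᶠ[Filter.atTop] fun _ => c := by
      filter_upwards [Filter.eventually_ge_atTop k0] with k hk
      exact hc k hk
    exact (Filter.tendsto_congr' this).mpr tendsto_const_nhds
  have hcases : md P e k0 = 0 ∨ md P e k0 = 1 ∨ md P e k0 = 2 ∨ md P e k0 = 3 ∨ md P e k0 = 4 := by
    omega
  rcases hcases with h | h | h | h | h
  · apply hconst 0
    intro k hk
    have := (step0 P e k (by rw [hk0 k hk, h])).1
    unfold ps
    rw [this]
    simp
  · have hkk : ∀ k ≥ k0, kk P e k = kk P e k0 := by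
      intro k hk
      induction k, hk using Nat.le_induction with
      | base => rfl
      | succ k hk ih => rw [(step1 P e k (by rw [hk0 k hk, h])).1, ih]
    apply ps_tend_of_mono P e (n1 e (kk P e k0)) 0 0 0 k0
    intro k hk
    have h1 := (step1 P e k (by rw [hk0 k hk, h])).2
    rw [hkk k hk] at h1
    have h2 := fk_le P e (n1 e (kk P e k0)) 0 0 0 k
    have h3 : md P e (k + 1) = 1 := by rw [hk0 (k + 1) (by omega), h]
    unfold fk at h2 ⊢
    rcases h1 with ⟨h4, h5, h6⟩ | ⟨h4, h5, h6, h7, h8, h9⟩ | ⟨h4, h5, h6, h7⟩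
    · exact h6
    · omega
    · omega
  · apply hconst 0
    intro k hk
    have := (step2 P e k (by rw [hk0 k hk, h])).2.2.1
    unfold ps
    rw [this]
    simp
  · have hkk : ∀ k ≥ k0, sa P e k = sa P e k0 ∧ rf P e k = rf P e k0 := by
      intro k hk
      induction k, hk using Nat.le_induction with
      | base => exact ⟨rfl, rfl⟩
      | succ k hk ih =>
        obtain ⟨-, h1, h2, -⟩ := step3 P e k (by rw [hk0 k hk, h])
        rw [h1, h2]
        exact ih
    apply ps_tend_of_mono P e (n2 P (sa P e k0)) 1 (rf P e k0) (sa P e k0) k0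
    intro k hk
    obtain ⟨-, -, -, h1⟩ := step3 P e k (by rw [hk0 k hk, h])
    rw [(hkk k hk).1, (hkk k hk).2] at h1
    have h3 : md P e (k + 1) = 3 := by rw [hk0 (k + 1) (by omega), h]
    unfold fk
    rcases h1 with ⟨h4, h5, h6⟩ | ⟨h4, h5, h6⟩
    · exact h6
    · omega
  · apply hconst 1
    intro k hk
    have := (step4 P e k (by rw [hk0 k hk, h])).2
    unfold ps
    rw [this]
    push_cast
    exact div_self (by positivity)

theorem phase (f : ℕ → ℕ) (c k1 : ℕ) (h : f k1 = c) : (∀ k ≥ k1, f k = c) ∨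
    ∃ s, k1 ≤ s ∧ (∀ k, k1 ≤ k → k ≤ s → f k = c) ∧ f (s + 1) ≠ c := by
  classical
  by_cases H : ∀ k ≥ k1, f k = c
  · exact Or.inl H
  · right
    push Not at H
    have hex : ∃ k, k1 ≤ k ∧ f k ≠ c := H
    have hsp := Nat.find_spec hex
    have hmin : ∀ m < Nat.find hex, ¬ (k1 ≤ m ∧ f m ≠ c) := fun m hm => Nat.find_min hex hm
    set t := Nat.find hex with ht
    have hne : t ≠ k1 := fun he => hsp.2 (by rw [he]; exact h)
    refine ⟨t - 1, by omega, ?_, ?_⟩
    · intro k hk1 hk2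
      by_contra hc
      exact hmin k (by omega) ⟨hk1, hc⟩
    · rw [show t - 1 + 1 = t by omega]
      exact hsp.2

theorem preL_len (g : ℕ → ℕ) (l : ℕ) : (pre g l).length = l := by simp [pre]

theorem preL_get (g : ℕ → ℕ) (l j : ℕ) (h : j < l) : (pre g l).getD j 0 = g j := by
  simp [pre, List.getD, h]

theorem cv_of_cov (P : Prm) {e k i : ℕ} {σ : List ℕ} (h : cov e k (hs P e k) i σ = true) :
    Cv P e k σ ((i : ℝ) / 2 ^ k) :=
  (cov_iff (a := num P e) (fun _ hg => hs_getD P e hg) i σ).1 h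

theorem cov_of_cv (P : Prm) {e k i : ℕ} {σ : List ℕ} (h : Cv P e k σ ((i : ℝ) / 2 ^ k)) :
    cov e k (hs P e k) i σ = true :=
  (cov_iff (a := num P e) (fun _ hg => hs_getD P e hg) i σ).2 h

theorem lim_uncov (P : Prm) (e n b m₀ s k1 : ℕ) (hfu : ∀ k ≥ k1, fk P e n b m₀ s k ≤ 2 ^ k)
    (hnum : ∀ k ≥ k1, num P e k = fk P e n b m₀ s k - 1) {L : ℝ}
    (hL : Filter.Tendsto (ps P e) Filter.atTop (nhds L)) {g : ℕ → ℕ} (hg : Nm P e L g)
    (l m : ℕ) (hcom : com P e (pre g l) n = some m) (k2 : ℕ)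
    (htst : ∀ k ≥ k2, tst P b k m₀ s m = true) : False := by
  -- the uncovered grid points converge to `L` as well
  have hfl : Filter.Tendsto (fun k => (fk P e n b m₀ s k : ℝ) / 2 ^ k) Filter.atTop (nhds L) := by
    have h0 : Filter.Tendsto (fun k : ℕ => (1 / 2 : ℝ) ^ k) Filter.atTop (nhds 0) :=
      tendsto_pow_atTop_nhds_zero_of_lt_one (by norm_num) (by norm_num)
    have h1 : Filter.Tendsto (fun k : ℕ => ps P e k + (1 / 2 : ℝ) ^ k) Filter.atTop (nhds L) := by
      have := hL.add h0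
      rwa [add_zero] at this
    refine tendsto_of_tendsto_of_tendsto_of_le_of_le' hL h1 ?_ ?_
    · filter_upwards [Filter.eventually_ge_atTop k1] with k hk
      unfold ps
      rw [hnum k hk]
      apply div_le_div_of_nonneg_right _ (by positivity)
      exact_mod_cast Nat.sub_le _ _
    · filter_upwards [Filter.eventually_ge_atTop k1] with k hk
      unfold ps
      rw [hnum k hk, one_div, inv_pow, ← one_div, ← add_div]
      apply div_le_div_of_nonneg_right _ (by positivity)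
      have : fk P e n b m₀ s k ≤ (fk P e n b m₀ s k - 1) + 1 := by omega
      exact_mod_cast this
  have hev : ∀ᶠ k in Filter.atTop, ∀ j ∈ Finset.range l, g j < k ∧
      |ps P e (g j) - (fk P e n b m₀ s k : ℝ) / 2 ^ k| < 2 ^ e / 2 ^ (j + 1) := by
    rw [Filter.eventually_all_finset]
    intro j _
    have h1 : ∀ᶠ k in Filter.atTop, g j < k := Filter.eventually_gt_atTop (g j)
    have h2 : Filter.Tendsto (fun k => |ps P e (g j) - (fk P e n b m₀ s k : ℝ) / 2 ^ k|)
        Filter.atTop (nhds |ps P e (g j) - L|) := (tendsto_const_nhds.sub hfl).abs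
    have h3 := h2.eventually_lt_const (hg j).2
    exact h1.and h3
  obtain ⟨k, hk1, hk2, hk3, hk4⟩ := (((Filter.eventually_ge_atTop k1).and
    ((Filter.eventually_ge_atTop k2).and ((Filter.eventually_gt_atTop
      (Encodable.encode (pre g l))).and hev)))).exists
  have hsp := (fu_spec P e k (hs P e k) n b m₀ s).2.1 (hfu k hk1)
  have hcv : Cv P e k (pre g l) (((fk P e n b m₀ s k : ℕ) : ℝ) / 2 ^ k) := by
    intro j hj
    rw [preL_len] at hj
    rw [preL_get g l j hj]
    obtain ⟨h1, h2⟩ := hk4 j (Finset.mem_range.2 hj)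
    exact ⟨(hg j).1, h1, h2⟩
  have hcov := cov_of_cv P hcv
  have : cvd P e k (hs P e k) n b m₀ s (fu P e k (hs P e k) n b m₀ s) = true := by
    rw [cvd_iff]
    refine ⟨Encodable.encode (pre g l), hk3, ?_, m, ?_, htst k hk2⟩
    · rw [lst_encode]; exact hcov
    · rw [lst_encode]; exact hcom
  rw [this] at hsp
  exact absurd hsp (by simp)

theorem cv_of_full (P : Prm) (e n b m₀ s k : ℕ) (h : 2 ^ k < fk P e n b m₀ s k) (x : ℝ)
    (hx0 : 0 ≤ x) (hx1 : x ≤ 1) : ∃ σ m, Cv P e k σ x ∧ com P e σ n = some m ∧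
      tst P b k m₀ s m = true := by
  set i := ⌊x * 2 ^ k⌋₊ with hi
  have hp : (0 : ℝ) < 2 ^ k := by positivity
  have hi1 : (i : ℝ) ≤ x * 2 ^ k := Nat.floor_le (by positivity)
  have hi2 : x * 2 ^ k < i + 1 := Nat.lt_floor_add_one _
  have hi3 : i ≤ 2 ^ k := by
    have : (i : ℝ) ≤ 2 ^ k := hi1.trans (by nlinarith)
    exact_mod_cast this
  have hc := (fu_spec P e k (hs P e k) n b m₀ s).1 i (lt_of_le_of_lt hi3 h)
  rw [cvd_iff] at hc
  obtain ⟨z, hz, hcov, m, hm, ht⟩ := hc
  refine ⟨lst z, m, ?_, hm, ht⟩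
  intro j hj
  have h1 := cv_of_cov P hcov j hj
  refine ⟨h1.1, h1.2.1, ?_⟩
  exact cov_slack (a := num P e) (fun _ hg => hs_getD P e hg) hcov
    ((div_le_iff₀ hp).2 hi1) ((lt_div_iff₀ hp).2 hi2) j hj

/-- TARGET 3: the possible histories of the strategy -/
theorem machine (P : Prm) (hcl : ∀ m s, P.cl m m s = true) (e : ℕ) :
    ((∀ k, num P e k = 0) ∧ ∀ k, ev1 P e k = none) ∨
    ∃ k₀ K, (ev1 P e k₀ = some K ∧ ∀ k ≤ k₀, num P e k = 0) ∧
      ((∀ L, Filter.Tendsto (ps P e) Filter.atTop (nhds L) → ∀ g, Nm P e L g →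
          ∀ l, com P e (pre g l) (n1 e K) = none) ∨
        ∃ s₂, (acts P e s₂ = true ∧ K + 3 ≤ s₂ ∧ k₀ < s₂ ∧ s₂.unpair.1 = e ∧
          ∀ x : ℝ, 0 ≤ x → x ≤ 1 → ∃ σ m, Cv P e s₂ σ x ∧ com P e σ (n1 e K) = some m ∧
            m < s₂) ∧
          (((∀ k ≥ s₂, num P e k = 0) ∧ ∀ g, Nm P e 0 g →
              ∀ l, com P e (pre g l) (n2 P s₂) = none) ∨
            ∃ s₃ m₀, (s₂ < s₃ ∧ num P e s₃ = 0 ∧ ∃ σ, Cv P e s₃ σ 0 ∧
              com P e σ (n2 P s₂) = some m₀) ∧
              (((∀ k > s₃, ∃ σ m, Cv P e k σ (ps P e k) ∧ com P e σ (n2 P s₂) = some m ∧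
                    P.cl m m₀ s₂ = true) ∧
                  ∀ L, Filter.Tendsto (ps P e) Filter.atTop (nhds L) → ∀ g, Nm P e L g →
                    ∀ l m, com P e (pre g l) (n2 P s₂) = some m → P.cl m m₀ s₂ = false) ∨
                ∃ s₄, s₃ < s₄ ∧ num P e s₄ = 2 ^ s₄ ∧ ∃ σ m, Cv P e s₄ σ 1 ∧
                  com P e σ (n2 P s₂) = some m ∧ P.cl m m₀ s₂ = true))) := by
  have h00 : md P e 0 = 0 := rfl
  rcases phase (md P e) 0 0 h00 with hA | ⟨k₀, -, hA1, hA2⟩
  · -- mode zero forever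
    left
    have h1 := fun k => step0 P e k (hA k (Nat.zero_le _))
    refine ⟨fun k => (h1 k).1, fun k => ?_⟩
    rcases (h1 k).2 with h2 | h2
    · exact h2.1
    · have := hA (k + 1) (Nat.zero_le _)
      omega
  right
  have hk0 := (step0 P e k₀ (hA1 k₀ (Nat.zero_le _) le_rfl)).2
  have hk0' : ev1 P e k₀ = some (kk P e (k₀ + 1)) ∧ md P e (k₀ + 1) = 1 := by
    rcases hk0 with h2 | h2
    · exact absurd h2.2 hA2
    · exact h2
  set K := kk P e (k₀ + 1) with hK
  refine ⟨k₀, K, ⟨hk0'.1, fun k hk => (step0 P e k (hA1 k (Nat.zero_le _) hk)).1⟩, ?_⟩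
  rcases phase (md P e) 1 (k₀ + 1) hk0'.2 with hB | ⟨s₂, hB0, hB1, hB2⟩
  · -- mode one forever
    left
    have hkk : ∀ k ≥ k₀ + 1, kk P e k = K := by
      intro k hk
      induction k, hk using Nat.le_induction with
      | base => rfl
      | succ k hk ih => rw [(step1 P e k (hB k hk)).1, ih]
    have hst : ∀ k ≥ k₀ + 1, (fk P e (n1 e K) 0 0 0 k ≤ 2 ^ k ∧
        num P e k = fk P e (n1 e K) 0 0 0 k - 1) ∨
        (2 ^ k < fk P e (n1 e K) 0 0 0 k ∧ ¬(k.unpair.1 = e ∧ K + 3 ≤ k)) := by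
      intro k hk
      have h1 := (step1 P e k (hB k hk)).2
      rw [hkk k hk] at h1
      have h3 := hB (k + 1) (by omega)
      unfold fk
      rcases h1 with ⟨h4, h5, h6⟩ | ⟨h4, h5, h6, h7, h8, h9⟩ | ⟨h4, h5, h6, h7⟩
      · exact Or.inl ⟨h4, h6⟩
      · omega
      · exact Or.inr ⟨h4, h5⟩
    have hfull : ∀ k ≥ k₀ + 1, fk P e (n1 e K) 0 0 0 k ≤ 2 ^ k := by
      intro k hk
      by_contra hcon
      push Not at hcon
      have hpers : ∀ k' ≥ k, 2 ^ k' < fk P e (n1 e K) 0 0 0 k' := by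
        intro k' hk'
        induction k', hk' using Nat.le_induction with
        | base => exact hcon
        | succ k' hk' ih =>
          have h3 := fk_succ P e (n1 e K) 0 0 0 k'
          rw [pow_succ] at h3 ⊢
          rcases min_le_iff.1 h3 with h6 | h6 <;> omega
      have hbig : k + K + 3 ≤ Nat.pair e (k + K + 3) := Nat.right_le_pair _ _
      have h1 := hpers (Nat.pair e (k + K + 3)) (by omega)
      rcases hst (Nat.pair e (k + K + 3)) (by omega) with h2 | h2
      · omega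
      · apply h2.2
        refine ⟨by rw [Nat.unpair_pair], by omega⟩
    have hnum : ∀ k ≥ k₀ + 1, num P e k = fk P e (n1 e K) 0 0 0 k - 1 := by
      intro k hk
      rcases hst k hk with h | h
      · exact h.2
      · have := hfull k hk
        omega
    intro L hL g hg l
    by_contra hne
    obtain ⟨m, hm⟩ := Option.ne_none_iff_exists'.1 hne
    refine lim_uncov P e (n1 e K) 0 0 0 (k₀ + 1) hfull hnum hL hg l m hm (m + 1) ?_
    intro k hk
    simp only [tst, if_true, decide_eq_true_eq]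
    omega
  -- action at stage s₂
  right
  have hkk : ∀ k, k₀ + 1 ≤ k → k ≤ s₂ → kk P e k = K := by
    intro k hk
    induction k, hk using Nat.le_induction with
    | base => intro _; rfl
    | succ k hk ih =>
      intro hk'
      rw [(step1 P e k (hB1 k hk (by omega))).1, ih (by omega)]
  have hs2 := (step1 P e s₂ (hB1 s₂ hB0 le_rfl)).2
  rw [hkk s₂ hB0 le_rfl] at hs2
  have hs2' : 2 ^ s₂ < fk P e (n1 e K) 0 0 0 s₂ ∧ s₂.unpair.1 = e ∧ K + 3 ≤ s₂ ∧
      md P e (s₂ + 1) = 2 ∧ sa P e (s₂ + 1) = s₂ ∧ num P e s₂ = 0 := by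
    unfold fk
    rcases hs2 with h | h | h
    · exact absurd h.2.1 hB2
    · exact h
    · exact absurd h.2.2.1 hB2
  obtain ⟨hf2, hu2, hK2, hm2, hsa2, hn2⟩ := hs2'
  refine ⟨s₂, ⟨(acts_iff P e s₂).2 ⟨hB1 s₂ hB0 le_rfl, hm2⟩, hK2, by omega, hu2, ?_⟩, ?_⟩
  · intro x hx0 hx1
    obtain ⟨σ, m, h1, h2, h3⟩ := cv_of_full P e (n1 e K) 0 0 0 s₂ hf2 x hx0 hx1
    refine ⟨σ, m, h1, h2, ?_⟩
    simpa [tst] using h3
  rcases phase (md P e) 2 (s₂ + 1) hm2 with hC | ⟨s₃, hC0, hC1, hC2⟩
  · -- mode two forever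
    left
    have hsa : ∀ k ≥ s₂ + 1, sa P e k = s₂ := by
      intro k hk
      induction k, hk using Nat.le_induction with
      | base => exact hsa2
      | succ k hk ih => rw [(step2 P e k (hC k hk)).2.1, ih]
    refine ⟨?_, ?_⟩
    · intro k hk
      rcases Nat.lt_or_ge s₂ k with h | h
      · exact (step2 P e k (hC k h)).2.2.1
      · have : k = s₂ := by omega
        rw [this]; exact hn2
    · intro g hg l
      by_contra hne
      obtain ⟨m, hm⟩ := Option.ne_none_iff_exists'.1 hne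
      have hev : ∀ᶠ k in Filter.atTop, ∀ j ∈ Finset.range l, g j < k := by
        rw [Filter.eventually_all_finset]
        intro j _
        exact Filter.eventually_gt_atTop (g j)
      obtain ⟨k, hk1, hk3, hk4⟩ := (((Filter.eventually_ge_atTop (s₂ + 1)).and
        ((Filter.eventually_gt_atTop (Encodable.encode (pre g l))).and hev))).exists
      have hst := (step2 P e k (hC k hk1)).2.2.2
      rw [hsa k hk1] at hst
      have hnone : fz P e k (hs P e k) (n2 P s₂) = none := by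
        rcases hst with h | h
        · exact h.1
        · have := hC (k + 1) (by omega)
          omega
      have hcv : Cv P e k (pre g l) (((0 : ℕ) : ℝ) / 2 ^ k) := by
        intro j hj
        rw [preL_len] at hj
        rw [preL_get g l j hj]
        refine ⟨(hg j).1, hk4 j (Finset.mem_range.2 hj), ?_⟩
        rw [Nat.cast_zero, zero_div]
        exact (hg j).2
      have hcov := cov_of_cv P hcv
      have hsome : (fun z => if cov e k (hs P e k) 0 (lst z) = true then com P e (lst z) (n2 P s₂)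
          else none) (Encodable.encode (pre g l)) = some m := by
        show (if cov e k (hs P e k) 0 (lst (Encodable.encode (pre g l))) = true then
          com P e (lst (Encodable.encode (pre g l))) (n2 P s₂) else none) = some m
        rw [lst_encode, if_pos hcov, hm]
      obtain ⟨v, hv⟩ := srchO_ne (fun z => if cov e k (hs P e k) 0 (lst z) = true then
        com P e (lst z) (n2 P s₂) else none) k (Encodable.encode (pre g l)) m hk3 hsome
      unfold fz at hnone
      rw [hnone] at hv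
      exact absurd hv (by simp)
  right
  have hsa : ∀ k, s₂ + 1 ≤ k → k ≤ s₃ + 1 → sa P e k = s₂ := by
    intro k hk
    induction k, hk using Nat.le_induction with
    | base => intro _; exact hsa2
    | succ k hk ih =>
      intro hk'
      rw [(step2 P e k (hC1 k hk (by omega))).2.1, ih (by omega)]
  obtain ⟨-, -, hn3, hs3⟩ := step2 P e s₃ (hC1 s₃ hC0 le_rfl)
  rw [hsa s₃ hC0 (by omega)] at hs3
  have hs3' : fz P e s₃ (hs P e s₃) (n2 P s₂) = some (rf P e (s₃ + 1)) ∧ md P e (s₃ + 1) = 3 := by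
    rcases hs3 with h | h
    · exact absurd h.2 hC2
    · exact h
  set m₀ := rf P e (s₃ + 1) with hm0
  have hfz := hs3'.1
  unfold fz at hfz
  obtain ⟨z, hz, hz2⟩ := srchO_some _ _ _ hfz
  have hz3 : cov e s₃ (hs P e s₃) 0 (lst z) = true ∧ com P e (lst z) (n2 P s₂) = some m₀ := by
    by_cases hc : cov e s₃ (hs P e s₃) 0 (lst z) = true
    · simp only [hc, if_true] at hz2
      exact ⟨hc, hz2⟩
    · simp only [hc] at hz2
      simp at hz2
  refine ⟨s₃, m₀, ⟨by omega, hn3, lst z, ?_, hz3.2⟩, ?_⟩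
  · have := cv_of_cov P hz3.1
    rwa [Nat.cast_zero, zero_div] at this
  rcases phase (md P e) 3 (s₃ + 1) hs3'.2 with hD | ⟨s₄, hD0, hD1, hD2⟩
  · -- mode three forever
    left
    have hsr : ∀ k ≥ s₃ + 1, sa P e k = s₂ ∧ rf P e k = m₀ := by
      intro k hk
      induction k, hk using Nat.le_induction with
      | base => exact ⟨hsa _ (by omega) le_rfl, rfl⟩
      | succ k hk ih =>
        obtain ⟨-, h1, h2, -⟩ := step3 P e k (hD k hk)
        rw [h1, h2]
        exact ih
    have hst : ∀ k ≥ s₃ + 1, fk P e (n2 P s₂) 1 m₀ s₂ k ≤ 2 ^ k ∧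
        num P e k = fk P e (n2 P s₂) 1 m₀ s₂ k - 1 := by
      intro k hk
      obtain ⟨-, -, -, h1⟩ := step3 P e k (hD k hk)
      rw [(hsr k hk).1, (hsr k hk).2] at h1
      have h3 := hD (k + 1) (by omega)
      unfold fk
      rcases h1 with ⟨h4, h5, h6⟩ | ⟨h4, h5, h6⟩
      · exact ⟨h4, h6⟩
      · omega
    have hcov0 : ∀ k ≥ s₃, cov e k (hs P e k) 0 (lst z) = true := by
      intro k hk
      induction k, hk using Nat.le_induction with
      | base => exact hz3.1
      | succ k hk ih => exact (cov_succ (hs_restr P e k) ih).1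
    refine ⟨?_, ?_⟩
    · intro k hk
      obtain ⟨h1, h2⟩ := hst k hk
      have hpos : 0 < fk P e (n2 P s₂) 1 m₀ s₂ k := by
        rw [Nat.pos_iff_ne_zero]
        intro h0
        have hsp := (fu_spec P e k (hs P e k) (n2 P s₂) 1 m₀ s₂).2.1 h1
        have h0' : fu P e k (hs P e k) (n2 P s₂) 1 m₀ s₂ = 0 := h0
        rw [h0'] at hsp
        have : cvd P e k (hs P e k) (n2 P s₂) 1 m₀ s₂ 0 = true := by
          rw [cvd_iff]
          refine ⟨z, by omega, hcov0 k (by omega), m₀, hz3.2, ?_⟩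
          simp only [tst, one_ne_zero, if_false]
          exact hcl m₀ s₂
        rw [this] at hsp
        exact absurd hsp (by simp)
      have hc := (fu_spec P e k (hs P e k) (n2 P s₂) 1 m₀ s₂).1 (num P e k) (by
        have : num P e k < fk P e (n2 P s₂) 1 m₀ s₂ k := by omega
        exact this)
      rw [cvd_iff] at hc
      obtain ⟨z', hz', hcov, m, hm, ht⟩ := hc
      refine ⟨lst z', m, cv_of_cov P hcov, hm, ?_⟩
      simpa [tst] using ht
    · intro L hL g hg l m hm
      by_contra hne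
      have hne' : P.cl m m₀ s₂ = true := by simpa using hne
      refine lim_uncov P e (n2 P s₂) 1 m₀ s₂ (s₃ + 1) (fun k hk => (hst k hk).1)
        (fun k hk => (hst k hk).2) hL hg l m hm 0 ?_
      intro k _
      simp only [tst, one_ne_zero, if_false]
      exact hne'
  · right
    have hsr : ∀ k, s₃ + 1 ≤ k → k ≤ s₄ → sa P e k = s₂ ∧ rf P e k = m₀ := by
      intro k hk
      induction k, hk using Nat.le_induction with
      | base => intro _; exact ⟨hsa _ (by omega) le_rfl, rfl⟩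
      | succ k hk ih =>
        intro hk'
        obtain ⟨-, h1, h2, -⟩ := step3 P e k (hD1 k hk (by omega))
        rw [h1, h2]
        exact ih (by omega)
    obtain ⟨-, -, -, h1⟩ := step3 P e s₄ (hD1 s₄ hD0 le_rfl)
    rw [(hsr s₄ hD0 le_rfl).1, (hsr s₄ hD0 le_rfl).2] at h1
    have h2 : 2 ^ s₄ < fk P e (n2 P s₂) 1 m₀ s₂ s₄ ∧ num P e s₄ = 2 ^ s₄ := by
      unfold fk
      rcases h1 with h | h
      · exact absurd h.2.1 hD2
      · exact ⟨h.1, h.2.2⟩
    refine ⟨s₄, by omega, h2.2, ?_⟩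
    obtain ⟨σ, m, h3, h4, h5⟩ := cv_of_full P e (n2 P s₂) 1 m₀ s₂ s₄ h2.1 1 zero_le_one le_rfl
    refine ⟨σ, m, h3, h4, ?_⟩
    simpa [tst] using h5

end Pool.Agent.Helper583.TT
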