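import Pool.Agent.Helper583.TTGM
import Pool.Agent.Helper583.TTCR2

namespace Pool.Agent.Helper583.TT

variable {α β : Type} [Primcodable α] [Primcodable β]

/-- the second coordinates: distance from the first `s + 1` points of the dense sequence, scaled,
where `s` is the stage of the action -/
noncomputable def phi {Y : Type} [MetricSpace Y] (A : ℕ → ℕ → Bool) (ell : ℕ → ℕ) (c : ℕ → Y)
    (e : ℕ) (x : Y) : ℝ :=
  open scoped Classical in
  if h : ∃ s, A e s = true then
    min 1 (mn (fun j => dist x (c j)) h.choose * 2 ^ ell h.choose) else 0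

/- ===== TARGETS ===== -/

/-- TARGET 1 -/
theorem mn_le (f : ℕ → ℝ) {j n : ℕ} (h : j ≤ n) : mn f n ≤ f j := by
  induction n with
  | zero =>
    obtain rfl : j = 0 := by omega
    exact le_rfl
  | succ n ih =>
    rcases Nat.lt_or_ge j (n + 1) with h' | h'
    · exact (min_le_left _ _).trans (ih (by omega))
    · obtain rfl : j = n + 1 := by omega
      exact min_le_right _ _

/-- TARGET 2 -/
theorem mn_mem (f : ℕ → ℝ) (n : ℕ) : ∃ j ≤ n, mn f n = f j := by
  induction n with
  | zero => exact ⟨0, le_rfl, rfl⟩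
  | succ n ih =>
    obtain ⟨j, hj, he⟩ := ih
    rcases min_choice (mn f n) (f (n + 1)) with h | h
    · exact ⟨j, by omega, h.trans he⟩
    · exact ⟨n + 1, le_rfl, h⟩

/-- TARGET 3 -/
theorem mn_lip (f g : ℕ → ℝ) (n : ℕ) (d : ℝ) (h : ∀ j ≤ n, |f j - g j| ≤ d) :
    |mn f n - mn g n| ≤ d := by
  induction n with
  | zero => exact h 0 le_rfl
  | succ n ih =>
    have h1 := ih fun j hj => h j (by omega)
    have h2 := h (n + 1) le_rfl
    exact (abs_min_sub_min_le_max (mn f n) (f (n + 1)) (mn g n) (g (n + 1))).trans (max_le h1 h2)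

variable {Y : Type} [MetricSpace Y]

theorem mn_dist_nonneg (c : ℕ → Y) (x : Y) (n : ℕ) : 0 ≤ mn (fun j => dist x (c j)) n := by
  obtain ⟨j, _, he⟩ := mn_mem (fun j => dist x (c j)) n
  rw [he]
  exact dist_nonneg

/-- TARGET 4 -/
theorem phi_mem (A : ℕ → ℕ → Bool) (ell : ℕ → ℕ) (c : ℕ → Y) (e : ℕ) (x : Y) :
    0 ≤ phi A ell c e x ∧ phi A ell c e x ≤ 1 := by
  unfold phi
  split_ifs with h
  · exact ⟨le_min zero_le_one (mul_nonneg (mn_dist_nonneg c x _) (by positivity)),
      min_le_left _ _⟩
  · exact ⟨le_rfl, zero_le_one⟩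

theorem mn_cont (c : ℕ → Y) (n : ℕ) : Continuous fun x => mn (fun j => dist x (c j)) n := by
  induction n with
  | zero => exact continuous_id.dist continuous_const
  | succ n ih => exact ih.min (continuous_id.dist continuous_const)

/-- TARGET 5 -/
theorem phi_cont (A : ℕ → ℕ → Bool) (ell : ℕ → ℕ) (c : ℕ → Y) (e : ℕ) :
    Continuous (phi A ell c e) := by
  by_cases h : ∃ s, A e s = true
  · have h1 : phi A ell c e =
        fun x => min 1 (mn (fun j => dist x (c j)) h.choose * 2 ^ ell h.choose) := by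
      funext x
      unfold phi
      rw [dif_pos h]
    rw [h1]
    exact continuous_const.min ((mn_cont c _).mul continuous_const)
  · have h1 : phi A ell c e = fun _ => 0 := by
      funext x
      unfold phi
      rw [dif_neg h]
    rw [h1]
    exact continuous_const

/-- TARGET 6 -/
theorem phi_eq (A : ℕ → ℕ → Bool) (ell : ℕ → ℕ) (c : ℕ → Y) {e s : ℕ} (h : A e s = true)
    (hu : ∀ s', A e s' = true → s' = s) (x : Y) :
    phi A ell c e x = min 1 (mn (fun j => dist x (c j)) s * 2 ^ ell s) := by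
  have h' : ∃ s, A e s = true := ⟨s, h⟩
  have h2 : h'.choose = s := hu _ h'.choose_spec
  unfold phi
  rw [dif_pos h', h2]

/-- TARGET 7 -/
theorem phi_zero (A : ℕ → ℕ → Bool) (ell : ℕ → ℕ) (c : ℕ → Y) {e : ℕ}
    (h : ∀ s, A e s = false) (x : Y) : phi A ell c e x = 0 := by
  have h' : ¬ ∃ s, A e s = true := by
    rintro ⟨s, hs⟩
    rw [h s] at hs
    exact absurd hs (by simp)
  unfold phi
  rw [dif_neg h']

/-- the stage of the action below `i`, or `i` -/
def stg (A : ℕ → ℕ → Bool) (e i : ℕ) : ℕ → ℕ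
  | 0 => i
  | n + 1 => bif A e n then n else stg A e i n

theorem stg_eq (A : ℕ → ℕ → Bool) (e i n : ℕ) :
    stg A e i n = Nat.rec i (fun s r => bif A e s then s else r) n := by
  induction n with
  | zero => rfl
  | succ n ih => simp only [stg]; rw [ih]

theorem stg_none (A : ℕ → ℕ → Bool) (e i : ℕ) (n : ℕ) (h : ∀ s < n, A e s = false) :
    stg A e i n = i := by
  induction n with
  | zero => rfl
  | succ n ih =>
    simp only [stg, h n (Nat.lt_succ_self n), cond_false]
    exact ih fun s hs => h s (by omega)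

theorem stg_some (A : ℕ → ℕ → Bool) (e i : ℕ) (n s : ℕ) (hs : s < n) (h : A e s = true)
    (hu : ∀ s', A e s' = true → s' = s) : stg A e i n = s := by
  induction n with
  | zero => omega
  | succ n ih =>
    rcases Nat.lt_or_ge s n with h' | h'
    · have : A e n = false := by
        by_contra hcon
        have := hu n (by simpa using hcon)
        omega
      simp only [stg, this, cond_false]
      exact ih h'
    · obtain rfl : s = n := by omega
      simp only [stg, h, cond_true]

/-- TARGET 8 -/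
theorem cr_phi {A : ℕ → ℕ → Bool} (hA : Computable₂ A)
    (hu : ∀ e s s', A e s = true → A e s' = true → s = s') {ell : ℕ → ℕ} (hell : Computable ell)
    {c : ℕ → Y} (hc : CR fun p : ℕ × ℕ => dist (c p.1) (c p.2)) :
    CR fun p : ℕ × ℕ => phi A ell c p.1 (c p.2) := by
  have has : Computable (fun p : ℕ × ℕ => stg A p.1 p.2 p.2) := by
    have h1 : Computable (fun p : ℕ × ℕ => (Nat.rec p.2
        (fun s r => bif A p.1 s then s else r) p.2 : ℕ)) := by
      refine Computable.nat_rec (f := fun p : ℕ × ℕ => p.2) (g := fun p : ℕ × ℕ => p.2)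
        (h := fun (p : ℕ × ℕ) (q : ℕ × ℕ) => bif A p.1 q.1 then q.1 else q.2)
        Computable.snd Computable.snd ?_
      have h2 : Computable (fun x : (ℕ × ℕ) × (ℕ × ℕ) => A x.1.1 x.2.1) :=
        hA.comp (Computable.fst.comp Computable.fst) (Computable.fst.comp Computable.snd)
      exact Computable.cond h2 (Computable.fst.comp Computable.snd)
        (Computable.snd.comp Computable.snd)
    refine h1.of_eq fun p => ?_
    exact (stg_eq A p.1 p.2 p.2).symm
  have hmn : CR (fun p : ℕ × ℕ => mn (fun j => dist (c p.2) (c j)) (stg A p.1 p.2 p.2)) :=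
    CR.mn (f := fun q : (ℕ × ℕ) × ℕ => dist (c q.1.2) (c q.2))
      (CR.comp hc (g := fun q : (ℕ × ℕ) × ℕ => (q.1.2, q.2))
        (Computable.pair (Computable.snd.comp Computable.fst) Computable.snd)) has
  have h3 := CR.min (CR.nat (α := ℕ × ℕ) (n := fun _ => 1) (Computable.const 1))
    (CR.mul_pow hmn (hell.comp has))
  refine h3.congr fun p => ?_
  have hzero : ∀ n, p.2 ≤ n → mn (fun j => dist (c p.2) (c j)) n = 0 := by
    intro n hn
    apply le_antisymm _ (mn_dist_nonneg c (c p.2) n)
    have := mn_le (fun j => dist (c p.2) (c j)) hn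
    simpa using this
  by_cases h : ∃ s, A p.1 s = true
  · obtain ⟨s, hs⟩ := h
    have hus : ∀ s', A p.1 s' = true → s' = s := fun s' hs' => hu p.1 s' s hs' hs
    rw [phi_eq A ell c hs hus]
    rcases Nat.lt_or_ge s p.2 with h' | h'
    · rw [stg_some A p.1 p.2 p.2 s h' hs hus]
      simp
    · have : stg A p.1 p.2 p.2 = p.2 := by
        apply stg_none
        intro s' hs'
        by_contra hcon
        have := hus s' (by simpa using hcon)
        omega
      rw [this, hzero p.2 le_rfl, hzero s h']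
      simp
  · have h' : ∀ s, A p.1 s = false := by
      intro s
      by_contra hcon
      exact h ⟨s, by simpa using hcon⟩
    rw [phi_zero A ell c h', stg_none A p.1 p.2 p.2 fun s _ => h' s, hzero p.2 le_rfl]
    simp

/-- TARGET 9 -/
theorem cr_gm {c : ℕ → Y} (hc : CR fun p : ℕ × ℕ => dist (c p.1) (c p.2)) (Φ : Crd Y)
    (hΦ : CR fun p : ℕ × ℕ => Φ.f p.1 (c p.2)) :
    CR fun p : ℕ × ℕ => gdist (⟨c p.1⟩ : GM Φ) ⟨c p.2⟩ := by
  have h1 : CR (fun q : (ℕ × ℕ) × ℕ => |Φ.f q.2 (c q.1.1) - Φ.f q.2 (c q.1.2)|) :=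
    CR.absdiff
      (CR.comp hΦ (g := fun q : (ℕ × ℕ) × ℕ => (q.2, q.1.1))
        (Computable.pair Computable.snd (Computable.fst.comp Computable.fst)))
      (CR.comp hΦ (g := fun q : (ℕ × ℕ) × ℕ => (q.2, q.1.2))
        (Computable.pair Computable.snd (Computable.snd.comp Computable.fst)))
  have h2 := CR.tsum h1 (fun q => by
    have a1 := Φ.nonneg q.2 (c q.1.1)
    have a2 := Φ.nonneg q.2 (c q.1.2)
    have a3 := Φ.le_one q.2 (c q.1.1)
    have a4 := Φ.le_one q.2 (c q.1.2)
    rw [abs_le]
    constructor <;> linarith)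
  exact (CR.add hc h2).congr fun p => rfl

end Pool.Agent.Helper583.TT
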