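import Pool.Agent.Helper583.TTTheta

namespace Pool.Agent.Helper583.TT

open Filter Topology

variable {α β : Type} [Primcodable α] [Primcodable β]


/- ===== TARGETS ===== -/

/-- TARGET 1 -/
theorem cr_dw {Y : Type} [MetricSpace Y] {c : ℕ → Y}
    (hc : CR fun p : ℕ × ℕ => dist (c p.1) (c p.2)) {y ρ : ℕ → ℕ → ℕ} {w : ℕ → Y}
    (hy : Computable₂ y) (hρ1 : ∀ e k, k + 1 ≤ ρ e k)
    (hyw : ∀ e k, dist (c (y e k)) (w e) ≤ 1 / 2 ^ ρ e k / 2) :
    CR fun p : ℕ × ℕ => dist (c p.2) (w p.1) := by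
  have hg : CR fun q : (ℕ × ℕ) × ℕ => dist (c q.1.2) (c (y q.1.1 q.2)) :=
    hc.comp (g := fun q : (ℕ × ℕ) × ℕ => (q.1.2, y q.1.1 q.2))
      ((Computable.snd.comp Computable.fst).pair
        (hy.comp (Computable.fst.comp Computable.fst) Computable.snd))
  refine CR.lim hg ?_
  intro p k
  have h1 : |dist (c p.2) (w p.1) - dist (c p.2) (c (y p.1 k))| ≤
      dist (w p.1) (c (y p.1 k)) := by
    rw [dist_comm (c p.2) (w p.1), dist_comm (c p.2) (c (y p.1 k))]
    exact abs_dist_sub_le _ _ _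
  rw [dist_comm (w p.1)] at h1
  refine h1.trans ((hyw p.1 k).trans ?_)
  have h2 : (1 : ℝ) / 2 ^ ρ p.1 k ≤ 1 / 2 ^ k :=
    one_div_le_one_div_of_le (by positivity)
      (pow_le_pow_right₀ (by norm_num) (by have := hρ1 p.1 k; omega))
  have h3 : (0 : ℝ) ≤ 1 / 2 ^ ρ p.1 k := by positivity
  linarith

theorem computable_nat_le {f g : α → ℕ} (hf : Computable f) (hg : Computable g) :
    Computable fun a => decide (f a ≤ g a) := by
  have h1 : Computable₂ fun a b : ℕ => decide (a ≤ b) := Primrec.nat_le.decide.to_comp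
  exact h1.comp hf hg

theorem computable_partialSum {n : ℕ → ℕ} (hn : Computable n) :
    ∃ S : ℕ → ℕ, Computable S ∧ ∀ i k, i ≤ k → n i ≤ S k := by
  refine ⟨fun k => Nat.rec (n 0) (fun j IH => IH + n (j + 1)) k, ?_, ?_⟩
  · refine Computable.nat_rec (f := fun k : ℕ => k) (g := fun _ => n 0)
      (h := fun _ p => p.2 + n (p.1 + 1)) Computable.id (Computable.const _) ?_
    exact (Primrec.nat_add.to_comp).comp (Computable.snd.comp Computable.snd)
      (hn.comp (Computable.succ.comp (Computable.fst.comp Computable.snd)))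
  · intro i k hik
    induction k with
    | zero =>
      have : i = 0 := by omega
      subst this
      exact le_rfl
    | succ k ih =>
      show n i ≤ _ + n (k + 1)
      rcases Nat.lt_or_ge i (k + 1) with h | h
      · exact (ih (by omega)).trans (Nat.le_add_right _ _)
      · have : i = k + 1 := by omega
        subst this
        exact Nat.le_add_left _ _

/-- TARGET 2: the parameters of the strategy -/
theorem exists_prm {Y : Type} [MetricSpace Y] {c : ℕ → Y} (hinj : Function.Injective c)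
    (hc : CR fun p : ℕ × ℕ => dist (c p.1) (c p.2)) {y ρ : ℕ → ℕ → ℕ} {w : ℕ → Y}
    (hy : Computable₂ y) (hρ : Computable₂ ρ) (hρ1 : ∀ e k, k + 1 ≤ ρ e k)
    (hyw : ∀ e k, dist (c (y e k)) (w e) ≤ 1 / 2 ^ ρ e k / 2) (hw : ∀ e i, c i ≠ w e) :
    ∃ (fr : ℕ → ℕ → ℕ → Bool) (ell : ℕ → ℕ) (cl : ℕ → ℕ → ℕ → Bool),
      Computable (fun p : ℕ × ℕ × ℕ => fr p.1 p.2.1 p.2.2) ∧ Computable ell ∧
      Computable (fun p : ℕ × ℕ × ℕ => cl p.1 p.2.1 p.2.2) ∧
      (∀ e m k, fr e m k = true → 2 / 2 ^ ρ e (k + 1) ≤ dist (c m) (w e)) ∧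
      (∀ e m, ∃ k₀, ∀ k ≥ k₀, fr e m k = true) ∧
      (∀ s, ell s + s + 3 ≤ ell (s + 1)) ∧ (∀ s, s ≤ ell s) ∧
      (∀ i j s, i < j → j ≤ s → 16 / 2 ^ ell s ≤ dist (c i) (c j)) ∧
      (∀ m m₀ s, dist (c m) (c m₀) ≤ 1 / 2 ^ ell s / 4 → cl m m₀ s = true) ∧
      (∀ m m₀ s, cl m m₀ s = true → dist (c m) (c m₀) ≤ 1 / 2 ^ ell s / 2) := by
  obtain ⟨n, hn, hn1⟩ := (cr_dw hc hy hρ1 hyw).find_pos (fun p => dist_pos.2 (hw p.1 p.2))
  have hb : Computable fun p : ℕ × ℕ => decide (p.1 = p.2) := by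
    have h1 : Computable₂ fun a b : ℕ => decide (a = b) := Primrec.eq.decide.to_comp
    exact h1.comp Computable.fst Computable.snd
  have hf2 : CR fun p : ℕ × ℕ => if decide (p.1 = p.2) = true then ((1 : ℕ) : ℝ) else
      dist (c p.1) (c p.2) := CR.ite hb (CR.nat (Computable.const 1)) hc
  obtain ⟨n2, hn2, hn21⟩ := hf2.find_pos (by
    intro p
    by_cases h : p.1 = p.2
    · simp [h]
    · simp only [h, decide_false, Bool.false_eq_true, if_false]
      exact dist_pos.2 (fun h' => h (hinj h')))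
  obtain ⟨S, hS, hS1⟩ := computable_partialSum (n := fun k => n2 (Nat.unpair k))
    (hn2.comp Primrec.unpair.to_comp)
  have hadd : Computable₂ ((· + ·) : ℕ → ℕ → ℕ) := Primrec.nat_add.to_comp
  have hmul : Computable₂ ((· * ·) : ℕ → ℕ → ℕ) := Primrec.nat_mul.to_comp
  set e0 : ℕ → ℕ := fun s => 4 + S ((s + 1) * (s + 1)) with he0
  have he0c : Computable e0 :=
    hadd.comp (Computable.const 4) (hS.comp (hmul.comp Computable.succ Computable.succ))
  have he01 : ∀ i j s, i ≤ s → j ≤ s → 4 + n2 (i, j) ≤ e0 s := by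
    intro i j s hi hj
    have h1 : Nat.pair i j ≤ (s + 1) * (s + 1) := by
      have h2 := Nat.pair_lt_max_add_one_sq i j
      have h3 : max i j + 1 ≤ s + 1 := by
        have := max_le hi hj
        omega
      have h4 : (max i j + 1) ^ 2 ≤ (s + 1) ^ 2 := Nat.pow_le_pow_left h3 2
      rw [pow_two (s + 1)] at h4
      omega
    have h5 := hS1 _ _ h1
    simp only [Nat.unpair_pair] at h5
    simp only [he0]
    omega
  set ell : ℕ → ℕ := fun s => Nat.rec (e0 0) (fun j IH => IH + j + 3 + e0 (j + 1)) s with hell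
  have hellc : Computable ell := by
    refine Computable.nat_rec (f := fun k : ℕ => k) (g := fun _ => e0 0)
      (h := fun _ p => p.2 + p.1 + 3 + e0 (p.1 + 1)) Computable.id (Computable.const _) ?_
    have h1 : Computable fun q : ℕ × ℕ × ℕ => q.2.2 + q.2.1 :=
      hadd.comp (Computable.snd.comp Computable.snd) (Computable.fst.comp Computable.snd)
    have h2 : Computable fun q : ℕ × ℕ × ℕ => q.2.2 + q.2.1 + 3 :=
      hadd.comp h1 (Computable.const 3)
    exact hadd.comp h2 (he0c.comp (Computable.succ.comp (Computable.fst.comp Computable.snd)))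
  have hell0 : ell 0 = e0 0 := rfl
  have hells : ∀ s, ell (s + 1) = ell s + s + 3 + e0 (s + 1) := fun s => rfl
  have hell_ge : ∀ s, e0 s ≤ ell s := by
    intro s
    cases s with
    | zero => exact le_rfl
    | succ s => rw [hells]; omega
  obtain ⟨b, hbc, hb1⟩ := CR.cmp
    (hc.comp (g := fun q : ℕ × ℕ × ℕ => (q.1, q.2.1))
      (Computable.fst.pair (Computable.fst.comp Computable.snd)))
    (n := fun q : ℕ × ℕ × ℕ => ell q.2.2 + 1)
    (Computable.succ.comp (hellc.comp (Computable.snd.comp Computable.snd)))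
  refine ⟨fun e m k => decide (n (e, m) + 1 ≤ ρ e (k + 1)), ell, fun m m₀ s => b (m, m₀, s),
    ?_, hellc, ?_, ?_, ?_, ?_, ?_, ?_, ?_, ?_⟩
  · apply computable_nat_le
    · exact Computable.succ.comp (hn.comp
        (Computable.fst.pair (Computable.fst.comp Computable.snd)))
    · exact hρ.comp Computable.fst (Computable.succ.comp (Computable.snd.comp Computable.snd))
  · exact hbc
  · intro e m k h
    rw [decide_eq_true_eq] at h
    refine le_trans ?_ (hn1 (e, m)).le
    have h1 : (2 : ℝ) ^ (n (e, m) + 1) ≤ 2 ^ ρ e (k + 1) := pow_le_pow_right₀ (by norm_num) h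
    rw [div_le_div_iff₀ (by positivity) (by positivity)]
    rw [pow_succ] at h1
    linarith
  · intro e m
    refine ⟨n (e, m), fun k hk => ?_⟩
    rw [decide_eq_true_eq]
    have := hρ1 e (k + 1)
    omega
  · intro s
    rw [hells]
    omega
  · intro s
    induction s with
    | zero => exact Nat.zero_le _
    | succ s ih => rw [hells]; omega
  · intro i j s hij hjs
    have h1 := hn21 (i, j)
    have h2 : (decide (i = j)) = false := by
      rw [decide_eq_false_iff_not]; omega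
    simp only [h2, Bool.false_eq_true, if_false] at h1
    refine le_trans ?_ h1.le
    have h3 : 4 + n2 (i, j) ≤ ell s := (he01 i j s (by omega) hjs).trans (hell_ge s)
    have h4 : (2 : ℝ) ^ (4 + n2 (i, j)) ≤ 2 ^ ell s := pow_le_pow_right₀ (by norm_num) h3
    rw [div_le_div_iff₀ (by positivity) (by positivity)]
    rw [pow_add] at h4
    linarith
  · intro m m₀ s h
    apply (hb1 (m, m₀, s)).1
    refine h.trans (le_of_eq ?_)
    show (1 : ℝ) / 2 ^ ell s / 4 = 1 / 2 ^ (ell s + 1) / 2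
    rw [pow_succ]
    field_simp
    norm_num
  · intro m m₀ s h
    refine ((hb1 (m, m₀, s)).2 h).trans (le_of_eq ?_)
    show (1 : ℝ) / 2 ^ (ell s + 1) = 1 / 2 ^ ell s / 2
    rw [pow_succ]
    field_simp

/-- TARGET 3: values of the coordinates of the first space -/
theorem cr_theta {Y : Type} [MetricSpace Y] {c : ℕ → Y}
    (hc : CR fun p : ℕ × ℕ => dist (c p.1) (c p.2)) {y ρ : ℕ → ℕ → ℕ} {w : ℕ → Y}
    (hy : Computable₂ y) (hρ : Computable₂ ρ) (hρ0 : ∀ e k, ρ e k < ρ e (k + 1))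
    (hρ1 : ∀ e k, k + 1 ≤ ρ e k)
    (hyw : ∀ e k, dist (c (y e k)) (w e) ≤ 1 / 2 ^ ρ e k / 2) (hw : ∀ e i, c i ≠ w e)
    {nu : ℕ → ℕ → ℕ} (hnu : Computable₂ nu) (hnu1 : ∀ e k, nu e k ≤ 2 ^ k) (L : ℕ → ℝ) :
    CR fun p : ℕ × ℕ => theta (ρ p.1) (fun k => (nu p.1 k : ℝ) / 2 ^ k) (L p.1)
      (dist (c p.2) (w p.1)) := by
  have hd := cr_dw hc hy hρ1 hyw
  obtain ⟨n, hn, hn1⟩ := hd.find_pos (fun p => dist_pos.2 (hw p.1 p.2))
  have hd' : CR fun q : (ℕ × ℕ) × ℕ => dist (c q.1.2) (w q.1.1) := hd.comp Computable.fst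
  have h1 : CR fun q : (ℕ × ℕ) × ℕ => (nu q.1.1 q.2 : ℝ) / 2 ^ q.2 :=
    (CR.nat (hnu.comp (Computable.fst.comp Computable.fst) Computable.snd)).div_pow
      Computable.snd
  have hone : CR fun _ : (ℕ × ℕ) × ℕ => ((1 : ℕ) : ℝ) := CR.nat (Computable.const 1)
  have htwo : CR fun _ : (ℕ × ℕ) × ℕ => ((2 : ℕ) : ℝ) := CR.nat (Computable.const 2)
  have h2 : CR fun q : (ℕ × ℕ) × ℕ =>
      (dist (c q.1.2) (w q.1.1) + dist (c q.1.2) (w q.1.1)) * 2 ^ ρ q.1.1 (q.2 + 1) :=
    (hd'.add hd').mul_pow (hρ.comp (Computable.fst.comp Computable.fst)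
      (Computable.succ.comp Computable.snd))
  have h3 : CR fun q : (ℕ × ℕ) × ℕ => dist (c q.1.2) (w q.1.1) * 2 ^ ρ q.1.1 q.2 :=
    hd'.mul_pow (hρ.comp (Computable.fst.comp Computable.fst) Computable.snd)
  have h4 := h1.min (hone.min ((h2.tsub hone).min (htwo.tsub h3)))
  have h5 := h4.mx (n := fun p : ℕ × ℕ => n p + 1) (Computable.succ.comp hn)
  refine h5.congr ?_
  intro p
  have hK : (2 : ℝ) / 2 ^ ρ p.1 (n p + 1) ≤ dist (c p.2) (w p.1) := by
    refine le_trans ?_ (hn1 p).le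
    have h6 := hρ1 p.1 (n p + 1)
    have h7 : (2 : ℝ) ^ (n p + 1) ≤ 2 ^ ρ p.1 (n p + 1) :=
      pow_le_pow_right₀ (by norm_num) (by omega)
    rw [div_le_div_iff₀ (by positivity) (by positivity)]
    rw [pow_succ] at h7
    linarith
  rw [theta_eq_mx (strictMono_nat_of_lt_succ (hρ0 p.1)) (fun k => by positivity)
    (fun k => by
      rw [div_le_one (by positivity)]
      exact_mod_cast hnu1 p.1 k) hK]
  congr 1
  funext k
  unfold bump
  push_cast
  ring_nf

end Pool.Agent.Helper583.TT
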