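import Pool.Agent.Helper583.TTCR1

namespace Pool.Agent.Helper583.TT.TTGeo

variable {α β : Type} [Primcodable α] [Primcodable β]

/-! ### auxiliary lemmas -/

theorem exists_rec {σ : Type} [Primcodable σ] (s0 : α → σ) (h0 : Computable s0)
    (R : (α × ℕ × σ) → ℕ → Bool) (hR : Computable₂ R)
    (nxt : (α × ℕ × σ) → ℕ → σ) (hn : Computable₂ nxt)
    (Inv : α → ℕ → σ → Prop) (hI0 : ∀ a, Inv a 0 (s0 a))
    (hex : ∀ a k s, Inv a k s → ∃ z, R (a, k, s) z = true)
    (hI : ∀ a k s z, Inv a k s → R (a, k, s) z = true → Inv a (k + 1) (nxt (a, k, s) z)) :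
    ∃ S : α → ℕ → σ, Computable₂ S ∧ (∀ a, S a 0 = s0 a) ∧ (∀ a k, Inv a k (S a k)) ∧
      ∀ a k, ∃ z, R (a, k, S a k) z = true ∧ S a (k + 1) = nxt (a, k, S a k) z := by
  let step : (α × ℕ × σ) →. σ := fun x => (Nat.rfind (fun n => (R x n : Part Bool))).map (nxt x)
  have hstep : Partrec step := by
    apply Partrec.map
    · exact Partrec.rfind hR.partrec₂
    · exact hn
  let T : (α × ℕ) →. σ := fun x => x.2.rec (Part.some (s0 x.1))
    (fun y IH => IH.bind fun i => step (x.1, y, i))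
  have hT : Partrec T := by
    have hg : Partrec (fun x : α × ℕ => (Part.some (s0 x.1) : Part σ)) :=
      (h0.comp Computable.fst).partrec
    have hh : Partrec₂ (fun (x : α × ℕ) (y : ℕ × σ) => step (x.1, y.1, y.2)) := by
      apply Partrec.comp hstep
      exact (Computable.fst.comp Computable.fst).pair
        ((Computable.fst.comp Computable.snd).pair (Computable.snd.comp Computable.snd))
    exact Partrec.nat_rec Computable.snd hg hh
  have hmem : ∀ a k s, s ∈ T (a, k) → Inv a k s → ∀ s', s' ∈ T (a, k + 1) →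
      ∃ z, R (a, k, s) z = true ∧ s' = nxt (a, k, s) z := by
    intro a k s hs _ s' hs'
    have e : T (a, k + 1) = (T (a, k)).bind fun i => step (a, k, i) := rfl
    rw [e, Part.eq_some_iff.2 hs, Part.bind_some] at hs'
    simp only [step, Part.mem_map_iff] at hs'
    obtain ⟨z, hz, rfl⟩ := hs'
    refine ⟨z, ?_, rfl⟩
    have := Nat.rfind_spec hz
    simpa using this
  have htot : ∀ a k, ∃ s, s ∈ T (a, k) ∧ Inv a k s := by
    intro a k
    induction k with
    | zero => exact ⟨s0 a, Part.mem_some _, hI0 a⟩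
    | succ k ih =>
      obtain ⟨s, hs, hinv⟩ := ih
      obtain ⟨z, hz⟩ := hex a k s hinv
      have e : T (a, k + 1) = (T (a, k)).bind fun i => step (a, k, i) := rfl
      obtain ⟨n, hn, _⟩ := Nat.rfind_min' (p := R (a, k, s)) hz
      have h2 : nxt (a, k, s) n ∈ T (a, k + 1) := by
        rw [e, Part.eq_some_iff.2 hs, Part.bind_some]
        simp only [step, Part.mem_map_iff]
        exact ⟨n, hn, rfl⟩
      refine ⟨_, h2, ?_⟩
      obtain ⟨z', hz', e'⟩ := hmem a k s hs hinv _ h2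
      rw [e']
      exact hI a k s z' hinv hz'
  choose S hS hSI using htot
  refine ⟨S, ?_, ?_, hSI, ?_⟩
  · exact Partrec.of_eq_tot hT (fun x => hS x.1 x.2)
  · intro a
    have h1 := hS a 0
    have h2 : s0 a ∈ T (a, 0) := Part.mem_some _
    exact Part.mem_unique h1 h2
  · intro a k
    exact hmem a k (S a k) (hS a k) (hSI a k) _ (hS a (k + 1))

theorem primrec_two_pow : Primrec (fun n : ℕ => 2 ^ n) := by
  have h : Primrec (fun n : ℕ => Nat.rec (motive := fun _ => ℕ) 1 (fun _ y => 2 * y) n) := by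
    apply Primrec.nat_rec₁
    exact (Primrec.nat_mul.comp (Primrec.const 2) Primrec.snd).to₂
  refine h.of_eq (fun n => ?_)
  induction n with
  | zero => rfl
  | succ n ih =>
    simp only [ih, pow_succ]
    ring

theorem comp_dec_lt {γ : Type} [Primcodable γ] {f g : γ → ℕ} (hf : Computable f)
    (hg : Computable g) : Computable (fun x => decide (f x < g x)) := by
  have h : Computable₂ (fun a b : ℕ => decide (a < b)) := by
    have := (Primrec.nat_lt).decide
    exact this.to_comp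
  exact h.comp hf hg

theorem comp_and {γ : Type} [Primcodable γ] {f g : γ → Bool} (hf : Computable f)
    (hg : Computable g) : Computable (fun x => f x && g x) := by
  have h : Computable₂ and := Primrec.and.to_comp
  exact h.comp hf hg

theorem comp_mul {γ : Type} [Primcodable γ] {f g : γ → ℕ} (hf : Computable f)
    (hg : Computable g) : Computable (fun x => f x * g x) := by
  have h : Computable₂ (fun a b : ℕ => a * b) := Primrec.nat_mul.to_comp
  exact h.comp hf hg

theorem comp_add {γ : Type} [Primcodable γ] {f g : γ → ℕ} (hf : Computable f)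
    (hg : Computable g) : Computable (fun x => f x + g x) := by
  have h : Computable₂ (fun a b : ℕ => a + b) := Primrec.nat_add.to_comp
  exact h.comp hf hg

theorem comp_pow {γ : Type} [Primcodable γ] {f : γ → ℕ} (hf : Computable f) :
    Computable (fun x => 2 ^ f x) := primrec_two_pow.to_comp.comp hf

theorem cmp_lt {f : α → ℝ} (hf : CR f) : ∃ L : α → ℕ → ℕ → ℕ → Bool,
    (∀ {γ : Type} [Primcodable γ] (a : γ → α) (N M t : γ → ℕ), Computable a → Computable N →
      Computable M → Computable t → Computable fun x => L (a x) (N x) (M x) (t x)) ∧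
    (∀ a (N M t : ℕ), L a N M t = true → f a < (N : ℝ) / 2 ^ M) ∧
    (∀ a (N M : ℕ), f a < (N : ℝ) / 2 ^ M → ∃ T, ∀ t ≥ T, L a N M t = true) := by
  obtain ⟨q, hq, hqf⟩ := hf
  refine ⟨fun a N M t => decide ((q (a, t) + 1) * 2 ^ M < N * 2 ^ t), ?_, ?_, ?_⟩
  · intro γ _ a N M t ha hN hM ht
    apply comp_dec_lt
    · apply comp_mul
      · exact comp_add (hq.comp (ha.pair ht)) (Computable.const 1)
      · exact comp_pow hM
    · exact comp_mul hN (comp_pow ht)
  · intro a N M t h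
    simp only [decide_eq_true_eq] at h
    have h1 := (abs_le.1 (hqf a t)).2
    have h2 : ((q (a, t) : ℝ) + 1) * 2 ^ M < N * 2 ^ t := by exact_mod_cast h
    have h3 : ((q (a, t) : ℝ) + 1) / 2 ^ t < N / 2 ^ M := by
      rw [div_lt_div_iff₀ (by positivity) (by positivity)]
      exact h2
    have h4 : ((q (a, t) : ℝ) + 1) / 2 ^ t = q (a, t) / 2 ^ t + 1 / 2 ^ t := by ring
    linarith
  · intro a N M h
    obtain ⟨T, hT⟩ := exists_pow_lt_of_lt_one (show (0:ℝ) < (N / 2 ^ M - f a) / 2 by linarith)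
      (show (1/2:ℝ) < 1 by norm_num)
    refine ⟨T, fun t ht => ?_⟩
    simp only [decide_eq_true_eq]
    have h1 := (abs_le.1 (hqf a t)).1
    have h2 : (1/2:ℝ) ^ t ≤ (1/2) ^ T := pow_le_pow_of_le_one (by norm_num) (by norm_num) ht
    have h3 : (1:ℝ) / 2 ^ t = (1/2) ^ t := by rw [one_div_pow]
    have h4 : ((q (a, t) : ℝ) + 1) / 2 ^ t = q (a, t) / 2 ^ t + 1 / 2 ^ t := by ring
    have h5 : ((q (a, t) : ℝ) + 1) / 2 ^ t < N / 2 ^ M := by
      rw [h4, h3]
      rw [h3] at h1
      linarith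
    rw [div_lt_div_iff₀ (by positivity) (by positivity)] at h5
    exact_mod_cast h5

theorem cmp_gt {f : α → ℝ} (hf : CR f) : ∃ L : α → ℕ → ℕ → ℕ → Bool,
    (∀ {γ : Type} [Primcodable γ] (a : γ → α) (N M t : γ → ℕ), Computable a → Computable N →
      Computable M → Computable t → Computable fun x => L (a x) (N x) (M x) (t x)) ∧
    (∀ a (N M t : ℕ), L a N M t = true → (N : ℝ) / 2 ^ M < f a) ∧
    (∀ a (N M : ℕ), (N : ℝ) / 2 ^ M < f a → ∃ T, ∀ t ≥ T, L a N M t = true) := by
  obtain ⟨q, hq, hqf⟩ := hf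
  refine ⟨fun a N M t => decide (N * 2 ^ t + 2 ^ M < q (a, t) * 2 ^ M), ?_, ?_, ?_⟩
  · intro γ _ a N M t ha hN hM ht
    apply comp_dec_lt
    · apply comp_add
      · exact comp_mul hN (comp_pow ht)
      · exact comp_pow hM
    · exact comp_mul (hq.comp (ha.pair ht)) (comp_pow hM)
  · intro a N M t h
    simp only [decide_eq_true_eq] at h
    have h1 := (abs_le.1 (hqf a t)).1
    have h2 : (N:ℝ) * 2 ^ t + 2 ^ M < q (a, t) * 2 ^ M := by exact_mod_cast h
    have h3 : (N:ℝ) / 2 ^ M + 1 / 2 ^ t < q (a, t) / 2 ^ t := by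
      have e : (N:ℝ) / 2 ^ M + 1 / 2 ^ t = (N * 2 ^ t + 2 ^ M) / (2 ^ M * 2 ^ t) := by
        field_simp
      rw [e, div_lt_div_iff₀ (by positivity) (by positivity)]
      have h5 : (0:ℝ) < 2 ^ t := by positivity
      nlinarith
    linarith
  · intro a N M h
    obtain ⟨T, hT⟩ := exists_pow_lt_of_lt_one (show (0:ℝ) < (f a - N / 2 ^ M) / 2 by linarith)
      (show (1/2:ℝ) < 1 by norm_num)
    refine ⟨T, fun t ht => ?_⟩
    simp only [decide_eq_true_eq]
    have h1 := (abs_le.1 (hqf a t)).2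
    have h2 : (1/2:ℝ) ^ t ≤ (1/2) ^ T := pow_le_pow_of_le_one (by norm_num) (by norm_num) ht
    have h3 : (1:ℝ) / 2 ^ t = (1/2) ^ t := by rw [one_div_pow]
    have h5 : (N:ℝ) / 2 ^ M + 1 / 2 ^ t < q (a, t) / 2 ^ t := by
      rw [h3]
      rw [h3] at h1
      linarith
    have e : (N:ℝ) / 2 ^ M + 1 / 2 ^ t = (N * 2 ^ t + 2 ^ M) / (2 ^ M * 2 ^ t) := by
      field_simp
    rw [e, div_lt_div_iff₀ (by positivity) (by positivity)] at h5
    have h6 : (0:ℝ) < 2 ^ t := by positivity
    have h7 : (N:ℝ) * 2 ^ t + 2 ^ M < q (a, t) * 2 ^ M := by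
      by_contra hc
      push Not at hc
      have := mul_le_mul_of_nonneg_right hc h6.le
      nlinarith
    exact_mod_cast h7

theorem near_pt {Y : Type} [MetricSpace Y] (c : ℕ → Y) (hd : DenseRange c) {x : Y}
    (hx : ¬ IsOpen ({x} : Set Y)) {r : ℝ} (hr : 0 < r) : ∃ i, c i ≠ x ∧ dist (c i) x < r := by
  by_contra hc
  push Not at hc
  apply hx
  have h1 : Metric.ball x r = {x} := by
    apply Set.eq_singleton_iff_unique_mem.2
    refine ⟨Metric.mem_ball_self hr, fun y hy => ?_⟩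
    by_contra hne
    have ho : IsOpen (Metric.ball x r ∩ {x}ᶜ) := Metric.isOpen_ball.inter isOpen_compl_singleton
    obtain ⟨i, hi⟩ := hd.exists_mem_open ho ⟨y, hy, hne⟩
    have h2 := hc i hi.2
    have h3 : dist (c i) x < r := hi.1
    linarith
  rw [← h1]
  exact Metric.isOpen_ball

theorem near_pt2 {Y : Type} [MetricSpace Y] (c : ℕ → Y) (hd : DenseRange c) {x : Y}
    (hx : ¬ IsOpen ({x} : Set Y)) {r : ℝ} (hr : 0 < r) (k : ℕ) :
    ∃ i, c i ≠ x ∧ c i ≠ c k ∧ dist (c i) x < r := by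
  obtain ⟨i, hi, hi'⟩ := near_pt c hd hx hr
  by_cases h : c i = c k
  · obtain ⟨j, hj, hj'⟩ := near_pt c hd hx (lt_min hr (dist_pos.2 hi))
    refine ⟨j, hj, ?_, hj'.trans_le (min_le_left _ _)⟩
    intro hjk
    have := hj'.trans_le (min_le_right _ _)
    rw [hjk, h] at this
    exact lt_irrefl _ this
  · exact ⟨i, hi, h, hi'⟩

theorem exists_pow_small {δ : ℝ} (hδ : 0 < δ) (C : ℝ) (hC : 0 < C) (b : ℕ) :
    ∃ a : ℕ, b < a ∧ C / 2 ^ a < δ := by
  obtain ⟨T, hT⟩ := exists_pow_lt_of_lt_one (show (0:ℝ) < δ / C by positivity)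
    (show (1/2:ℝ) < 1 by norm_num)
  refine ⟨max T (b + 1), lt_of_lt_of_le (Nat.lt_succ_self b) (le_max_right _ _), ?_⟩
  have h2 : (1/2:ℝ) ^ (max T (b + 1)) ≤ (1/2) ^ T :=
    pow_le_pow_of_le_one (by norm_num) (by norm_num) (le_max_left _ _)
  have h3 : (1/2:ℝ) ^ (max T (b + 1)) < δ / C := h2.trans_lt hT
  rw [lt_div_iff₀ hC, one_div_pow] at h3
  calc C / 2 ^ (max T (b + 1)) = 1 / 2 ^ (max T (b + 1)) * C := by ring
    _ < δ := h3

theorem lim_lemma {Y : Type} [MetricSpace Y] [CompleteSpace Y] (s : ℕ → Y) (ρ : ℕ → ℕ)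
    (h1 : ∀ k, dist (s (k + 1)) (s k) ≤ 1 / 2 ^ (ρ k + 3)) (h2 : ∀ k, ρ k + 3 ≤ ρ (k + 1)) :
    ∃ w, ∀ k, dist (s k) w ≤ 1 / 2 ^ ρ k / 4 := by
  have hρ : ∀ k n, ρ k + n ≤ ρ (k + n) := by
    intro k n
    induction n with
    | zero => simp
    | succ n ih =>
      have := h2 (k + n)
      rw [← add_assoc k n 1]
      omega
  have key : ∀ k n, dist (s (k + n)) (s (k + (n + 1))) ≤ (1 / 2 ^ ρ k / 4) / 2 / 2 ^ n := by
    intro k n
    have e1 : (1 / 2 ^ ρ k / 4) / 2 / 2 ^ n = (1:ℝ) / 2 ^ (ρ k + n + 3) := by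
      rw [pow_add, pow_add]
      field_simp
      norm_num
    rw [e1, dist_comm]
    refine (h1 (k + n)).trans ?_
    apply one_div_le_one_div_of_le (by positivity)
    apply pow_le_pow_right₀ (by norm_num)
    have := hρ k n
    omega
  have hcau : CauchySeq s := by
    refine cauchySeq_of_le_geometric_two (C := 1 / 2 ^ ρ 0 / 4) ?_
    intro n
    have := key 0 n
    simpa using this
  obtain ⟨w, hw⟩ := cauchySeq_tendsto_of_complete hcau
  refine ⟨w, fun k => ?_⟩
  have ht : Filter.Tendsto (fun n => s (k + n)) Filter.atTop (nhds w) := by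
    have := (Filter.tendsto_add_atTop_iff_nat (f := s) k).2 hw
    simpa [add_comm] using this
  have := dist_le_of_le_geometric_two_of_tendsto₀ (f := fun n => s (k + n))
    (fun n => key k n) ht
  simpa using this

/-- In a computable metric space (dense sequence `c`, injective, computable distances) with an open
ball without isolated points there are uniformly computable points `w e` which are not in the dense
sequence, with well separated approximations `c (y e k)` and well separated neighbourhoods. -/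
theorem geom {Y : Type} [MetricSpace Y] [CompleteSpace Y] (c : ℕ → Y) (hd : DenseRange c)
    (hinj : Function.Injective c) (hc : CR fun p : ℕ × ℕ => dist (c p.1) (c p.2))
    (o u : ℕ) (hU : ∀ x : Y, dist x (c o) < 1 / 2 ^ u → ¬ IsOpen ({x} : Set Y)) :
    ∃ (y ρ : ℕ → ℕ → ℕ) (w : ℕ → Y), Computable₂ y ∧ Computable₂ ρ ∧
      (∀ e k, ρ e k < ρ e (k + 1)) ∧ (∀ e k, k + 1 ≤ ρ e k) ∧
      (∀ e k, 2 / 2 ^ ρ e (k + 1) ≤ dist (c (y e k)) (w e)) ∧
      (∀ e k, dist (c (y e k)) (w e) ≤ 1 / 2 ^ ρ e k / 2) ∧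
      (∀ e i, c i ≠ w e) ∧
      (∀ e e', e ≠ e' → 2 / 2 ^ ρ e 0 + 2 / 2 ^ ρ e' 0 ≤ dist (w e) (w e')) := by
  obtain ⟨L, hLc, hL1, hL2⟩ := cmp_lt hc
  obtain ⟨G, hGc, hG1, hG2⟩ := cmp_gt hc
  have cz1 : ∀ {γ : Type} [Primcodable γ], Computable (fun w : γ × ℕ => w.2.unpair.1) :=
    fun {γ} _ => Computable.fst.comp (Computable.unpair.comp Computable.snd)
  have cz2 : ∀ {γ : Type} [Primcodable γ], Computable (fun w : γ × ℕ => w.2.unpair.2.unpair.1) :=
    fun {γ} _ => Computable.fst.comp (Computable.unpair.comp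
      (Computable.snd.comp (Computable.unpair.comp Computable.snd)))
  have cz3 : ∀ {γ : Type} [Primcodable γ], Computable (fun w : γ × ℕ => w.2.unpair.2.unpair.2) :=
    fun {γ} _ => Computable.snd.comp (Computable.unpair.comp
      (Computable.snd.comp (Computable.unpair.comp Computable.snd)))
  -- first recursion
  obtain ⟨S, hSc, hS0, hSI, hSS⟩ := exists_rec (α := Unit) (σ := ℕ × ℕ)
    (fun _ => (0, u + 1)) (Computable.const _)
    (fun x z => L (z.unpair.1, o) 1 (x.2.2.2 + 4) z.unpair.2.unpair.2 &&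
      (G (z.unpair.1, o) 16 z.unpair.2.unpair.1 z.unpair.2.unpair.2 &&
        decide (x.2.2.2 < z.unpair.2.unpair.1)))
    (by
      have ca : Computable (fun w : (Unit × ℕ × ℕ × ℕ) × ℕ => w.1.2.2.2) :=
        Computable.snd.comp (Computable.snd.comp (Computable.snd.comp Computable.fst))
      apply comp_and
      · exact hLc _ _ _ _ (cz1.pair (Computable.const o)) (Computable.const 1)
          (comp_add ca (Computable.const 4)) cz3
      · apply comp_and
        · exact hGc _ _ _ _ (cz1.pair (Computable.const o)) (Computable.const 16) cz2 cz3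
        · exact comp_dec_lt ca cz2)
    (fun _ z => (z.unpair.1, z.unpair.2.unpair.1)) (cz1.pair cz2)
    (fun _ _ s => u + 1 ≤ s.2) (fun _ => le_rfl)
    (by
      rintro _ k ⟨p, a⟩ _
      have h0 : ¬ IsOpen ({c o} : Set Y) := hU (c o) (by rw [dist_self]; positivity)
      obtain ⟨i, hi, hi'⟩ := near_pt c hd h0 (r := 1 / 2 ^ (a + 4)) (by positivity)
      obtain ⟨b, hb, hb'⟩ := exists_pow_small (dist_pos.2 hi) 16 (by norm_num) a
      obtain ⟨T1, hT1⟩ := hL2 (i, o) 1 (a + 4) (by simpa using hi')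
      obtain ⟨T2, hT2⟩ := hG2 (i, o) 16 b (by simpa using hb')
      refine ⟨Nat.pair i (Nat.pair b (max T1 T2)), ?_⟩
      simp only [Nat.unpair_pair, hT1 _ (le_max_left T1 T2), hT2 _ (le_max_right T1 T2),
        Bool.true_and, decide_eq_true_eq]
      exact hb)
    (by
      rintro _ k ⟨p, a⟩ z h hR
      simp only [Bool.and_eq_true, decide_eq_true_eq] at hR h ⊢
      omega)
  set p : ℕ → ℕ := fun e => (S () (e + 1)).1 with hp
  set A : ℕ → ℕ := fun e => (S () e).2 with hA
  have hP : ∀ e, dist (c (p e)) (c o) < 1 / 2 ^ (A e + 4) ∧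
      16 / 2 ^ (A (e + 1)) < dist (c (p e)) (c o) ∧ A e < A (e + 1) := by
    intro e
    obtain ⟨z, hz, hz'⟩ := hSS () e
    simp only [Bool.and_eq_true, decide_eq_true_eq] at hz
    obtain ⟨h1, h2, h3⟩ := hz
    have e1 : p e = z.unpair.1 := by simp only [hp, hz']
    have e2 : A (e + 1) = z.unpair.2.unpair.1 := by simp only [hA, hz']
    rw [e1, e2]
    refine ⟨?_, ?_, h3⟩
    · have := hL1 _ _ _ _ h1
      simpa using this
    · have := hG1 _ _ _ _ h2
      simpa using this
  have hAu : ∀ e, u + 1 ≤ A e := fun e => hSI () e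
  -- second recursion
  obtain ⟨S2, hSc2, hS02, hSI2, hSS2⟩ := exists_rec (α := ℕ) (σ := ℕ × ℕ)
    (fun e => S () (e + 1)) (hSc.comp (Computable.const ()) Computable.succ)
    (fun x z => L (z.unpair.1, x.2.2.1) 1 (x.2.2.2 + 3) z.unpair.2.unpair.2 &&
      (G (z.unpair.1, x.2.2.1) 4 z.unpair.2.unpair.1 z.unpair.2.unpair.2 &&
        (G (z.unpair.1, x.2.1) 4 z.unpair.2.unpair.1 z.unpair.2.unpair.2 &&
          decide (x.2.2.2 + 2 < z.unpair.2.unpair.1))))
    (by
      have cb : Computable (fun w : (ℕ × ℕ × ℕ × ℕ) × ℕ => w.1.2.2.2) :=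
        Computable.snd.comp (Computable.snd.comp (Computable.snd.comp Computable.fst))
      have ci : Computable (fun w : (ℕ × ℕ × ℕ × ℕ) × ℕ => w.1.2.2.1) :=
        Computable.fst.comp (Computable.snd.comp (Computable.snd.comp Computable.fst))
      have ck : Computable (fun w : (ℕ × ℕ × ℕ × ℕ) × ℕ => w.1.2.1) :=
        Computable.fst.comp (Computable.snd.comp Computable.fst)
      apply comp_and
      · exact hLc _ _ _ _ (cz1.pair ci) (Computable.const 1)
          (comp_add cb (Computable.const 3)) cz3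
      · apply comp_and
        · exact hGc _ _ _ _ (cz1.pair ci) (Computable.const 4) cz2 cz3
        · apply comp_and
          · exact hGc _ _ _ _ (cz1.pair ck) (Computable.const 4) cz2 cz3
          · exact comp_dec_lt (comp_add cb (Computable.const 2)) cz2)
    (fun _ z => (z.unpair.1, z.unpair.2.unpair.1)) (cz1.pair cz2)
    (fun _ k s => dist (c s.1) (c o) + 1 / 2 ^ s.2 < 1 / 2 ^ u ∧ k + 1 ≤ s.2)
    (by
      intro e
      obtain ⟨h1, h2, h3⟩ := hP e
      have h4 := hAu e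
      have h5 := hAu (e + 1)
      refine ⟨?_, by simp only [hA] at h5; omega⟩
      show dist (c (p e)) (c o) + 1 / 2 ^ A (e + 1) < 1 / 2 ^ u
      have h6 : (1:ℝ) / 2 ^ (A e + 4) ≤ 1 / 2 ^ (u + 1) := by
        apply one_div_le_one_div_of_le (by positivity)
        apply pow_le_pow_right₀ (by norm_num)
        omega
      have h7 : (16:ℝ) / 2 ^ A (e + 1) = 16 * (1 / 2 ^ A (e + 1)) := by ring
      have h8 : (1:ℝ) / 2 ^ (u + 1) = 1 / 2 ^ u / 2 := by rw [pow_succ]; field_simp
      have h9 : (0:ℝ) < 1 / 2 ^ u := by positivity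
      rw [h7] at h2
      rw [h8] at h6
      linarith)
    (by
      rintro e k ⟨i, b⟩ ⟨h1, h2⟩
      simp only at h1 h2
      have h0 : ¬ IsOpen ({c i} : Set Y) := hU (c i) (by
        have : (0:ℝ) < 1 / 2 ^ b := by positivity
        linarith)
      obtain ⟨j, hj1, hj2, hj3⟩ := near_pt2 c hd h0 (r := 1 / 2 ^ (b + 3)) (by positivity) k
      obtain ⟨b', hb1, hb2⟩ := exists_pow_small (lt_min (dist_pos.2 hj1) (dist_pos.2 hj2)) 4
        (by norm_num) (b + 2)
      obtain ⟨T1, hT1⟩ := hL2 (j, i) 1 (b + 3) (by simpa using hj3)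
      obtain ⟨T2, hT2⟩ := hG2 (j, i) 4 b' (by simpa using hb2.trans_le (min_le_left _ _))
      obtain ⟨T3, hT3⟩ := hG2 (j, k) 4 b' (by simpa using hb2.trans_le (min_le_right _ _))
      refine ⟨Nat.pair j (Nat.pair b' (max T1 (max T2 T3))), ?_⟩
      simp only [Nat.unpair_pair, hT1 _ (le_max_left T1 (max T2 T3)),
        hT2 _ ((le_max_left T2 T3).trans (le_max_right T1 (max T2 T3))),
        hT3 _ ((le_max_right T2 T3).trans (le_max_right T1 (max T2 T3))),
        Bool.true_and, decide_eq_true_eq]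
      exact hb1)
    (by
      rintro e k ⟨i, b⟩ z ⟨h1, h2⟩ hR
      simp only [Bool.and_eq_true, decide_eq_true_eq] at hR h1 h2 ⊢
      obtain ⟨r1, r2, r3, r4⟩ := hR
      have q1 : dist (c z.unpair.1) (c i) < 1 / 2 ^ (b + 3) := by
        have := hL1 _ _ _ _ r1
        simpa using this
      refine ⟨?_, by omega⟩
      have q2 := dist_triangle (c z.unpair.1) (c i) (c o)
      have q3 : (1:ℝ) / 2 ^ (b + 3) = 1 / 2 ^ b / 8 := by rw [pow_add]; field_simp; norm_num
      have q4 : (1:ℝ) / 2 ^ z.unpair.2.unpair.1 ≤ 1 / 2 ^ (b + 3) := by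
        apply one_div_le_one_div_of_le (by positivity)
        apply pow_le_pow_right₀ (by norm_num)
        omega
      have q5 : (0:ℝ) < 1 / 2 ^ b := by positivity
      rw [q3] at q1 q4
      linarith)
  set y : ℕ → ℕ → ℕ := fun e k => (S2 e k).1 with hy
  set ρ : ℕ → ℕ → ℕ := fun e k => (S2 e k).2 with hρ
  have hQ : ∀ e k, dist (c (y e (k + 1))) (c (y e k)) < 1 / 2 ^ (ρ e k + 3) ∧
      4 / 2 ^ ρ e (k + 1) < dist (c (y e (k + 1))) (c (y e k)) ∧
      4 / 2 ^ ρ e (k + 1) < dist (c (y e (k + 1))) (c k) ∧ ρ e k + 3 ≤ ρ e (k + 1) := by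
    intro e k
    obtain ⟨z, hz, hz'⟩ := hSS2 e k
    simp only [Bool.and_eq_true, decide_eq_true_eq] at hz
    obtain ⟨h1, h2, h3, h4⟩ := hz
    have e1 : y e (k + 1) = z.unpair.1 := by simp only [hy, hz']
    have e2 : ρ e (k + 1) = z.unpair.2.unpair.1 := by simp only [hρ, hz']
    rw [e1, e2]
    refine ⟨?_, ?_, ?_, h4⟩
    · have := hL1 _ _ _ _ h1
      simpa using this
    · have := hG1 _ _ _ _ h2
      simpa using this
    · have := hG1 _ _ _ _ h3
      simpa using this
  have hw : ∀ e, ∃ w, ∀ k, dist (c (y e k)) w ≤ 1 / 2 ^ ρ e k / 4 := fun e =>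
    lim_lemma (fun k => c (y e k)) (ρ e) (fun k => (hQ e k).1.le) (fun k => (hQ e k).2.2.2)
  choose w hw using hw
  have hy0 : ∀ e, y e 0 = p e := fun e => by simp only [hy, hp, hS02]
  have hρ0 : ∀ e, ρ e 0 = A (e + 1) := fun e => by simp only [hρ, hA, hS02]
  have hAm : StrictMono A := strictMono_nat_of_lt_succ (fun e => (hP e).2.2)
  have key : ∀ e e', e < e' → 2 / 2 ^ ρ e 0 + 2 / 2 ^ ρ e' 0 ≤ dist (w e) (w e') := by
    intro e e' hee
    obtain ⟨h1, h2, h3⟩ := hP e
    obtain ⟨h1', h2', h3'⟩ := hP e'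
    have g1 := hw e 0
    have g2 := hw e' 0
    rw [hy0, hρ0] at g1 g2
    rw [hρ0, hρ0]
    have m1 : A (e + 1) ≤ A e' := hAm.monotone hee
    set X : ℝ := 1 / 2 ^ A (e + 1) with hX
    have x1 : (1:ℝ) / 2 ^ A (e' + 1) ≤ X := by
      apply one_div_le_one_div_of_le (by positivity)
      exact pow_le_pow_right₀ (by norm_num) (by omega)
    have x2 : (1:ℝ) / 2 ^ (A e' + 4) ≤ X / 16 := by
      have : X / 16 = 1 / 2 ^ (A (e + 1) + 4) := by
        rw [hX, pow_add]
        field_simp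
        norm_num
      rw [this]
      apply one_div_le_one_div_of_le (by positivity)
      exact pow_le_pow_right₀ (by norm_num) (by omega)
    have x0 : 0 < X := by positivity
    have x3 : (16:ℝ) / 2 ^ A (e + 1) = 16 * X := by rw [hX]; ring
    have x4 : (2:ℝ) / 2 ^ A (e + 1) = 2 * X := by rw [hX]; ring
    have x5 : (2:ℝ) / 2 ^ A (e' + 1) = 2 * (1 / 2 ^ A (e' + 1)) := by ring
    rw [x3] at h2
    rw [x4, x5]
    have t1 := dist_triangle (c (p e)) (w e) (c o)
    have t2 := dist_triangle (w e) (w e') (c o)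
    have t3 := dist_triangle_left (w e') (c o) (c (p e'))
    linarith
  refine ⟨y, ρ, w, ?_, ?_, ?_, ?_, ?_, ?_, ?_, ?_⟩
  · exact Computable.fst.comp hSc2
  · exact Computable.snd.comp hSc2
  · intro e k
    have := (hQ e k).2.2.2
    omega
  · intro e k
    exact (hSI2 e k).2
  · intro e k
    obtain ⟨h1, h2, h3, h4⟩ := hQ e k
    have g1 := hw e (k + 1)
    have t := dist_triangle_right (c (y e (k + 1))) (c (y e k)) (w e)
    have x1 : (4:ℝ) / 2 ^ ρ e (k + 1) = 4 * (1 / 2 ^ ρ e (k + 1)) := by ring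
    have x2 : (2:ℝ) / 2 ^ ρ e (k + 1) = 2 * (1 / 2 ^ ρ e (k + 1)) := by ring
    have x3 : (0:ℝ) < 1 / 2 ^ ρ e (k + 1) := by positivity
    rw [x1] at h2
    rw [x2]
    linarith
  · intro e k
    have g1 := hw e k
    have x3 : (0:ℝ) < 1 / 2 ^ ρ e k := by positivity
    linarith
  · intro e i hi
    obtain ⟨h1, h2, h3, h4⟩ := hQ e i
    have g1 := hw e (i + 1)
    rw [hi] at h3
    have x1 : (4:ℝ) / 2 ^ ρ e (i + 1) = 4 * (1 / 2 ^ ρ e (i + 1)) := by ring
    have x3 : (0:ℝ) < 1 / 2 ^ ρ e (i + 1) := by positivity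
    rw [x1] at h3
    linarith
  · intro e e' hne
    rcases lt_or_gt_of_ne hne with h | h
    · exact key e e' h
    · rw [dist_comm, add_comm]
      exact key e' e h

end Pool.Agent.Helper583.TT.TTGeo
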