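import Pool.Agent.Helper583.TTBMach
import Pool.Agent.Helper583.TTBComp
import Pool.Agent.Helper583.TTBPrm
import Pool.Agent.Helper583.TTBPhi
import Pool.Agent.Helper583.TTAMain
import Pool.Agent.Helper583.TTGeo

/-!
A region without isolated points: the two presentations.
-/

namespace Pool.Agent.Helper583.TT

open Filter Topology

/-- everything which is fixed before the construction -/
structure Geo {Y : Type} [MetricSpace Y] (c : ℕ → Y) where
  hd : DenseRange c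
  hc : CR fun p : ℕ × ℕ => dist (c p.1) (c p.2)
  y : ℕ → ℕ → ℕ
  ρ : ℕ → ℕ → ℕ
  w : ℕ → Y
  hy : Computable₂ y
  hρ : Computable₂ ρ
  ρ0 : ∀ e k, ρ e k < ρ e (k + 1)
  ρ1 : ∀ e k, k + 1 ≤ ρ e k
  yl : ∀ e k, 2 / 2 ^ ρ e (k + 1) ≤ dist (c (y e k)) (w e)
  yu : ∀ e k, dist (c (y e k)) (w e) ≤ 1 / 2 ^ ρ e k / 2
  wn : ∀ e i, c i ≠ w e
  ws : ∀ e e', e ≠ e' → 2 / 2 ^ ρ e 0 + 2 / 2 ^ ρ e' 0 ≤ dist (w e) (w e')
  fr : ℕ → ℕ → ℕ → Bool
  ell : ℕ → ℕ
  cl : ℕ → ℕ → ℕ → Bool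
  hfr : Computable (fun p : ℕ × ℕ × ℕ => fr p.1 p.2.1 p.2.2)
  hell : Computable ell
  hcl : Computable (fun p : ℕ × ℕ × ℕ => cl p.1 p.2.1 p.2.2)
  fr1 : ∀ e m k, fr e m k = true → 2 / 2 ^ ρ e (k + 1) ≤ dist (c m) (w e)
  fr2 : ∀ e m, ∃ k₀, ∀ k ≥ k₀, fr e m k = true
  ell1 : ∀ s, ell s + s + 3 ≤ ell (s + 1)
  ell2 : ∀ s, s ≤ ell s
  ell3 : ∀ i j s, i < j → j ≤ s → 16 / 2 ^ ell s ≤ dist (c i) (c j)
  cl1 : ∀ m m₀ s, dist (c m) (c m₀) ≤ 1 / 2 ^ ell s / 4 → cl m m₀ s = true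
  cl2 : ∀ m m₀ s, cl m m₀ s = true → dist (c m) (c m₀) ≤ 1 / 2 ^ ell s / 2

variable {Y : Type} [MetricSpace Y] {c : ℕ → Y}

theorem exists_geo [CompleteSpace Y] (hd : DenseRange c)
    (hinj : Function.Injective c) (hc : CR fun p : ℕ × ℕ => dist (c p.1) (c p.2))
    (o u : ℕ) (hU : ∀ x : Y, dist x (c o) < 1 / 2 ^ u → ¬ IsOpen ({x} : Set Y)) :
    Nonempty (Geo c) := by
  obtain ⟨y, ρ, w, h1, h2, h3, h4, h5, h6, h7, h8⟩ := TTGeo.geom c hd hinj hc o u hU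
  obtain ⟨fr, ell, cl, k1, k2, k3, k4, k5, k6, k7, k8, k9, k10⟩ :=
    exists_prm hinj hc h1 h2 h4 h6 h7
  exact ⟨⟨hd, hc, y, ρ, w, h1, h2, h3, h4, h5, h6, h7, h8, fr, ell, cl, k1, k2, k3, k4, k5, k6,
    k7, k8, k9, k10⟩⟩

namespace Geo

variable (G : Geo c)

/-- the parameters -/
def P : Prm := ⟨G.y, G.fr, G.ell, G.cl⟩

/-- the limit of the positions -/
noncomputable def L (e : ℕ) : ℝ := (ps_lim G.P e).choose

theorem hL (e : ℕ) : Tendsto (ps G.P e) atTop (𝓝 (G.L e)) := (ps_lim G.P e).choose_spec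

theorem mono (e : ℕ) : StrictMono (G.ρ e) := strictMono_nat_of_lt_succ (G.ρ0 e)

/-- first coordinates -/
noncomputable def pi (e : ℕ) (x : Y) : ℝ := theta (G.ρ e) (ps G.P e) (G.L e) (dist x (G.w e))

theorem pi_mem (e : ℕ) (x : Y) : 0 ≤ G.pi e x ∧ G.pi e x ≤ 1 :=
  theta_mem (fun k => (ps_mem G.P e k).1) (fun k => (ps_mem G.P e k).2) (G.hL e) _

theorem pi_cont (e : ℕ) : Continuous (G.pi e) := by
  have h1 := theta_continuous (G.mono e) (fun k => (ps_mem G.P e k).1)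
    (fun k => (ps_mem G.P e k).2) (G.hL e)
  exact h1.comp_continuous (continuous_id.dist continuous_const) fun x => dist_nonneg

theorem pi_far {e : ℕ} {x : Y} (h : 2 / 2 ^ G.ρ e 0 ≤ dist x (G.w e)) : G.pi e x = 0 :=
  theta_eq_zero (G.mono e) (fun k => (ps_mem G.P e k).1) (fun k => (ps_mem G.P e k).2) h

theorem pi_y (e k : ℕ) : G.pi e (c (G.y e k)) = ps G.P e k :=
  theta_eq_pos (G.mono e) (fun k => (ps_mem G.P e k).1) (fun k => (ps_mem G.P e k).2)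
    (G.yl e k) (G.yu e k)

theorem pi_w (e : ℕ) : G.pi e (G.w e) = G.L e := by
  unfold pi theta
  rw [dist_self, if_pos le_rfl]

theorem pi_w' {e e' : ℕ} (h : e' ≠ e) : G.pi e' (G.w e) = 0 := by
  apply G.pi_far
  have h1 := G.ws e e' h.symm
  have h2 : (0:ℝ) ≤ 2 / 2 ^ G.ρ e 0 := by positivity
  linarith

theorem yd (e k : ℕ) : dist (c (G.y e k)) (G.w e) ≤ 1 / 2 ^ (k + 2) := by
  refine le_trans (G.yu e k) ?_
  have h1 := pow_le_pow_right₀ (show (1:ℝ) ≤ 2 by norm_num) (G.ρ1 e k)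
  rw [div_div]
  apply one_div_le_one_div_of_le (by positivity)
  rw [show k + 2 = (k + 1) + 1 by ring, pow_succ]
  linarith

theorem pi_y' {e e' : ℕ} (k : ℕ) (h : e' ≠ e) : G.pi e' (c (G.y e k)) = 0 := by
  apply G.pi_far
  have h1 := G.ws e e' h.symm
  have h2 : dist (c (G.y e k)) (G.w e) ≤ 2 / 2 ^ G.ρ e 0 := by
    refine le_trans (G.yu e k) ?_
    have h3 : (1:ℝ) / 2 ^ G.ρ e k ≤ 1 / 2 ^ G.ρ e 0 := by
      apply one_div_le_one_div_of_le (by positivity)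
      exact pow_le_pow_right₀ (by norm_num) ((G.mono e).monotone (Nat.zero_le k))
    have h4 : (2:ℝ) / 2 ^ G.ρ e 0 = 2 * (1 / 2 ^ G.ρ e 0) := by ring
    have h5 : (0:ℝ) ≤ 1 / 2 ^ G.ρ e 0 := by positivity
    linarith
  have h3 := dist_triangle (G.w e) (c (G.y e k)) (G.w e')
  rw [dist_comm (G.w e) (c (G.y e k))] at h3
  linarith

/-- coordinates of the first space -/
noncomputable def ΦN : Crd Y where
  f := G.pi
  nonneg := fun e x => (G.pi_mem e x).1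
  le_one := fun e x => (G.pi_mem e x).2
  cont := G.pi_cont

/-- coordinates of the second space -/
noncomputable def ΦM : Crd Y where
  f := phi (acts G.P) G.ell c
  nonneg := fun e x => (phi_mem _ _ _ e x).1
  le_one := fun e x => (phi_mem _ _ _ e x).2
  cont := fun e => phi_cont _ _ _ e

theorem comp_sts : Computable₂ (sts G.P) := computable_sts G.P G.hy G.hfr G.hell G.hcl

theorem cr_N : CR fun p : ℕ × ℕ => G.ΦN.f p.1 (c p.2) :=
  cr_theta G.hc G.hy G.hρ G.ρ0 G.ρ1 G.yu G.wn (computable_num G.P G.comp_sts)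
    (num_le G.P) G.L

theorem cr_M : CR fun p : ℕ × ℕ => G.ΦM.f p.1 (c p.2) :=
  cr_phi (computable_acts G.P G.comp_sts) (fun e _ _ h h' => acts_unique G.P e h h') G.hell G.hc

/-- the first presentation -/
noncomputable def N [CompleteSpace Y] : CMS :=
  haveI : CompleteSpace (GM G.ΦN) := gm_complete
  { Y := GM G.ΦN
    c := fun i => ⟨c i⟩
    dense := gm_dense G.hd
    comp := comp_of_cr (cr_gm G.hc G.ΦN G.cr_N) }

/-- the second presentation -/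
noncomputable def M [CompleteSpace Y] : CMS :=
  haveI : CompleteSpace (GM G.ΦM) := gm_complete
  { Y := GM G.ΦM
    c := fun i => ⟨c i⟩
    dense := gm_dense G.hd
    comp := comp_of_cr (cr_gm G.hc G.ΦM G.cr_M) }

/-- distance of points with only one coordinate -/
theorem dist_one {e : ℕ} {x x' : Y} (h : ∀ e' ≠ e, G.pi e' x = 0) (h' : ∀ e' ≠ e, G.pi e' x' = 0) :
    dist (⟨x⟩ : GM G.ΦN) ⟨x'⟩ = dist x x' + |G.pi e x - G.pi e x'| / 2 ^ e := by
  rw [gm_dist]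
  congr 1
  refine (tsum_eq_single e fun e' he' => ?_).trans rfl
  show |G.pi e' x - G.pi e' x'| / 2 ^ e' = 0
  rw [h e' he', h' e' he', sub_zero, abs_zero, zero_div]

theorem near_y {e j g k : ℕ} (hg : j ≤ g) (hk : j ≤ k)
    (h : |ps G.P e g - ps G.P e k| < 2 ^ e / 2 ^ (j + 1)) :
    dist (⟨c (G.y e g)⟩ : GM G.ΦN) ⟨c (G.y e k)⟩ ≤ 1 / 2 ^ j := by
  rw [G.dist_one (e := e) (fun e' he' => G.pi_y' g he') (fun e' he' => G.pi_y' k he'), G.pi_y,
    G.pi_y]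
  have h1 := dist_triangle_right (c (G.y e g)) (c (G.y e k)) (G.w e)
  have h2 := G.yd e g
  have h3 := G.yd e k
  have h4 := pow_anti (show j + 2 ≤ g + 2 by omega)
  have h5 := pow_anti (show j + 2 ≤ k + 2 by omega)
  have h6 : |ps G.P e g - ps G.P e k| / 2 ^ e ≤ 1 / 2 ^ (j + 1) := by
    rw [div_le_iff₀ (by positivity)]
    have : (2:ℝ) ^ e / 2 ^ (j + 1) = 1 / 2 ^ (j + 1) * 2 ^ e := by ring
    linarith
  have h7 := pow_split j
  have h8 := pow_split (j + 1)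
  simp only [show j + 1 + 1 = j + 2 by ring] at h8
  linarith

end Geo

end Pool.Agent.Helper583.TT
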