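import Pool.Agent.Helper583.TTBDefs

namespace Pool.Agent.Helper583.TT

open Nat.Partrec (Code)
open Pool.Agent.Helper583.TC.J2 (srchO srchO_some srchO_ne srchO_succ primrec_srchO valsO
  valsO_succ primrec_valsO)


/- ===== NEW DEFINITIONS ===== -/

/-- mode at stage `k` -/
def md (P : Prm) (e k : ℕ) : ℕ := (sts P e k).1

/-- history at stage `k` -/
def hs (P : Prm) (e k : ℕ) : List ℕ := (sts P e k).2.2.2.2

/-- the number found in mode zero -/
def kk (P : Prm) (e k : ℕ) : ℕ := (sts P e k).2.1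

/-- the stage of the action -/
def sa (P : Prm) (e k : ℕ) : ℕ := (sts P e k).2.2.1

/-- the reference point -/
def rf (P : Prm) (e k : ℕ) : ℕ := (sts P e k).2.2.2.1

/- ===== TARGETS ===== -/

theorem sts_succ (P : Prm) (e k : ℕ) : sts P e (k + 1) = stp P e k (sts P e k) := rfl

theorem stp_hist (P : Prm) (e k : ℕ) (s : St) :
    ∃ x, (stp P e k s).2.2.2.2 = s.2.2.2.2 ++ [x] := by
  unfold stp
  split_ifs
  · cases ev1 P e k with
    | none => exact ⟨0, rfl⟩
    | some K => exact ⟨0, rfl⟩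
  · exact ⟨_, rfl⟩
  · exact ⟨_, rfl⟩
  · exact ⟨_, rfl⟩
  · cases fz P e k s.2.2.2.2 (n2 P s.2.2.1) with
    | none => exact ⟨0, rfl⟩
    | some K => exact ⟨0, rfl⟩
  · exact ⟨_, rfl⟩
  · exact ⟨_, rfl⟩
  · exact ⟨_, rfl⟩

/-- TARGET 1 -/
theorem hs_length (P : Prm) (e k : ℕ) : (hs P e k).length = k := by
  induction k with
  | zero => rfl
  | succ k ih =>
    obtain ⟨x, hx⟩ := stp_hist P e k (sts P e k)
    have h1 : hs P e (k + 1) = hs P e k ++ [x] := hx
    rw [h1, List.length_append, ih]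
    rfl

theorem num_of (P : Prm) (e k x : ℕ) (h : hs P e (k + 1) = hs P e k ++ [x]) :
    num P e k = x := by
  show (hs P e (k + 1)).getD k 0 = x
  rw [h]
  have := hs_length P e k
  simp [List.getD_eq_getElem?_getD, this]

theorem hs_succ (P : Prm) (e k : ℕ) : hs P e (k + 1) = hs P e k ++ [num P e k] := by
  obtain ⟨x, hx⟩ := stp_hist P e k (sts P e k)
  have h1 : hs P e (k + 1) = hs P e k ++ [x] := hx
  rw [num_of P e k x h1]
  exact h1

/-- TARGET 2 -/
theorem hs_getD (P : Prm) (e : ℕ) {j k : ℕ} (h : j < k) : (hs P e k).getD j 0 = num P e j := by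
  induction k with
  | zero => omega
  | succ k ih =>
    rw [hs_succ]
    have hl := hs_length P e k
    rcases Nat.lt_succ_iff_lt_or_eq.1 h with h1 | rfl
    · rw [← ih h1, List.getD_eq_getElem?_getD, List.getD_eq_getElem?_getD,
        List.getElem?_append_left (by omega)]
    · rw [List.getD_eq_getElem?_getD, List.getElem?_append_right (by omega), hl]
      simp

theorem fu_le_aux (f : ℕ → ℕ → Prop) [∀ a b, Decidable (f a b)] (N : ℕ) :
    (Nat.rec 0 (fun i u => if f u i then i + 1 else u) N : ℕ) ≤ N := by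
  induction N with
  | zero => exact le_refl _
  | succ N ih =>
    show (if f _ N then N + 1 else _) ≤ N + 1
    split_ifs
    · exact le_refl _
    · exact ih.trans (Nat.le_succ _)

/-- TARGET 3 (fu is at most `2 ^ k + 1`) -/
theorem fu_le (P : Prm) (e k : ℕ) (H : List ℕ) (n b m₀ s : ℕ) :
    fu P e k H n b m₀ s ≤ 2 ^ k + 1 :=
  fu_le_aux (fun u i => u = i ∧ cvd P e k H n b m₀ s i = true) (2 ^ k + 1)

theorem out (P : Prm) (e k m K s r x : ℕ)
    (h : sts P e (k + 1) = (m, K, s, r, hs P e k ++ [x])) :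
    md P e (k + 1) = m ∧ kk P e (k + 1) = K ∧ sa P e (k + 1) = s ∧ rf P e (k + 1) = r ∧
      num P e k = x := by
  refine ⟨?_, ?_, ?_, ?_, num_of P e k x ?_⟩
  · show (sts P e (k + 1)).1 = m
    rw [h]
  · show (sts P e (k + 1)).2.1 = K
    rw [h]
  · show (sts P e (k + 1)).2.2.1 = s
    rw [h]
  · show (sts P e (k + 1)).2.2.2.1 = r
    rw [h]
  · show (sts P e (k + 1)).2.2.2.2 = _
    rw [h]

/-- TARGET 7 -/
theorem step0 (P : Prm) (e k : ℕ) (h : md P e k = 0) : num P e k = 0 ∧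
    ((ev1 P e k = none ∧ md P e (k + 1) = 0) ∨
      (ev1 P e k = some (kk P e (k + 1)) ∧ md P e (k + 1) = 1)) := by
  have h' : (sts P e k).1 = 0 := h
  cases hv : ev1 P e k with
  | none =>
    have h1 : sts P e (k + 1) = (0, 0, 0, 0, hs P e k ++ [0]) := by
      rw [sts_succ]; unfold stp; rw [if_pos h', hv]; rfl
    obtain ⟨a1, a2, a3, a4, a5⟩ := out P e k _ _ _ _ _ h1
    exact ⟨a5, Or.inl ⟨rfl, a1⟩⟩
  | some K =>
    have h1 : sts P e (k + 1) = (1, K, 0, 0, hs P e k ++ [0]) := by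
      rw [sts_succ]; unfold stp; rw [if_pos h', hv]; rfl
    obtain ⟨a1, a2, a3, a4, a5⟩ := out P e k _ _ _ _ _ h1
    exact ⟨a5, Or.inr ⟨by rw [a2], a1⟩⟩

/-- TARGET 8 -/
theorem step1 (P : Prm) (e k : ℕ) (h : md P e k = 1) : kk P e (k + 1) = kk P e k ∧
    ((fu P e k (hs P e k) (n1 e (kk P e k)) 0 0 0 ≤ 2 ^ k ∧ md P e (k + 1) = 1 ∧
        num P e k = fu P e k (hs P e k) (n1 e (kk P e k)) 0 0 0 - 1) ∨
      (2 ^ k < fu P e k (hs P e k) (n1 e (kk P e k)) 0 0 0 ∧ k.unpair.1 = e ∧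
        kk P e k + 3 ≤ k ∧ md P e (k + 1) = 2 ∧ sa P e (k + 1) = k ∧ num P e k = 0) ∨
      (2 ^ k < fu P e k (hs P e k) (n1 e (kk P e k)) 0 0 0 ∧
        ¬(k.unpair.1 = e ∧ kk P e k + 3 ≤ k) ∧ md P e (k + 1) = 1 ∧ num P e k = 2 ^ k)) := by
  have h' : (sts P e k).1 = 1 := h
  have h0 : ¬ (sts P e k).1 = 0 := by rw [h']; norm_num
  by_cases c1 : fu P e k (hs P e k) (n1 e (kk P e k)) 0 0 0 ≤ 2 ^ k
  · have h1 : sts P e (k + 1) = (1, kk P e k, 0, 0,
        hs P e k ++ [fu P e k (hs P e k) (n1 e (kk P e k)) 0 0 0 - 1]) := by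
      rw [sts_succ]; unfold stp; rw [if_neg h0, if_pos h']
      exact if_pos c1
    obtain ⟨a1, a2, a3, a4, a5⟩ := out P e k _ _ _ _ _ h1
    exact ⟨a2, Or.inl ⟨c1, a1, a5⟩⟩
  · by_cases c2 : k.unpair.1 = e ∧ kk P e k + 3 ≤ k
    · have h1 : sts P e (k + 1) = (2, kk P e k, k, 0, hs P e k ++ [0]) := by
        rw [sts_succ]; unfold stp; rw [if_neg h0, if_pos h']
        exact (if_neg c1).trans (if_pos c2)
      obtain ⟨a1, a2, a3, a4, a5⟩ := out P e k _ _ _ _ _ h1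
      exact ⟨a2, Or.inr (Or.inl ⟨not_le.1 c1, c2.1, c2.2, a1, a3, a5⟩)⟩
    · have h1 : sts P e (k + 1) = (1, kk P e k, 0, 0, hs P e k ++ [2 ^ k]) := by
        rw [sts_succ]; unfold stp; rw [if_neg h0, if_pos h']
        exact (if_neg c1).trans (if_neg c2)
      obtain ⟨a1, a2, a3, a4, a5⟩ := out P e k _ _ _ _ _ h1
      exact ⟨a2, Or.inr (Or.inr ⟨not_le.1 c1, c2, a1, a5⟩)⟩

/-- TARGET 9 -/
theorem step2 (P : Prm) (e k : ℕ) (h : md P e k = 2) : kk P e (k + 1) = kk P e k ∧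
    sa P e (k + 1) = sa P e k ∧ num P e k = 0 ∧
    ((fz P e k (hs P e k) (n2 P (sa P e k)) = none ∧ md P e (k + 1) = 2) ∨
      (fz P e k (hs P e k) (n2 P (sa P e k)) = some (rf P e (k + 1)) ∧
        md P e (k + 1) = 3)) := by
  have h' : (sts P e k).1 = 2 := h
  have h0 : ¬ (sts P e k).1 = 0 := by rw [h']; norm_num
  have h01 : ¬ (sts P e k).1 = 1 := by rw [h']; norm_num
  cases hv : fz P e k (hs P e k) (n2 P (sa P e k)) with
  | none =>
    have hv' : fz P e k (sts P e k).2.2.2.2 (n2 P (sts P e k).2.2.1) = none := hv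
    have h1 : sts P e (k + 1) = (2, kk P e k, sa P e k, 0, hs P e k ++ [0]) := by
      rw [sts_succ]; unfold stp; rw [if_neg h0, if_neg h01, if_pos h', hv']; rfl
    obtain ⟨a1, a2, a3, a4, a5⟩ := out P e k _ _ _ _ _ h1
    exact ⟨a2, a3, a5, Or.inl ⟨rfl, a1⟩⟩
  | some m =>
    have hv' : fz P e k (sts P e k).2.2.2.2 (n2 P (sts P e k).2.2.1) = some m := hv
    have h1 : sts P e (k + 1) = (3, kk P e k, sa P e k, m, hs P e k ++ [0]) := by
      rw [sts_succ]; unfold stp; rw [if_neg h0, if_neg h01, if_pos h', hv']; rfl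
    obtain ⟨a1, a2, a3, a4, a5⟩ := out P e k _ _ _ _ _ h1
    exact ⟨a2, a3, a5, Or.inr ⟨by rw [a4], a1⟩⟩

/-- TARGET 10 -/
theorem step3 (P : Prm) (e k : ℕ) (h : md P e k = 3) : kk P e (k + 1) = kk P e k ∧
    sa P e (k + 1) = sa P e k ∧ rf P e (k + 1) = rf P e k ∧
    ((fu P e k (hs P e k) (n2 P (sa P e k)) 1 (rf P e k) (sa P e k) ≤ 2 ^ k ∧
        md P e (k + 1) = 3 ∧
        num P e k = fu P e k (hs P e k) (n2 P (sa P e k)) 1 (rf P e k) (sa P e k) - 1) ∨
      (2 ^ k < fu P e k (hs P e k) (n2 P (sa P e k)) 1 (rf P e k) (sa P e k) ∧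
        md P e (k + 1) = 4 ∧ num P e k = 2 ^ k)) := by
  have h' : (sts P e k).1 = 3 := h
  have h0 : ¬ (sts P e k).1 = 0 := by rw [h']; norm_num
  have h01 : ¬ (sts P e k).1 = 1 := by rw [h']; norm_num
  have h02 : ¬ (sts P e k).1 = 2 := by rw [h']; norm_num
  by_cases c1 : fu P e k (hs P e k) (n2 P (sa P e k)) 1 (rf P e k) (sa P e k) ≤ 2 ^ k
  · have h1 : sts P e (k + 1) = (3, kk P e k, sa P e k, rf P e k,
        hs P e k ++ [fu P e k (hs P e k) (n2 P (sa P e k)) 1 (rf P e k) (sa P e k) - 1]) := by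
      rw [sts_succ]; unfold stp; rw [if_neg h0, if_neg h01, if_neg h02, if_pos h']
      exact if_pos c1
    obtain ⟨a1, a2, a3, a4, a5⟩ := out P e k _ _ _ _ _ h1
    exact ⟨a2, a3, a4, Or.inl ⟨c1, a1, a5⟩⟩
  · have h1 : sts P e (k + 1) = (4, kk P e k, sa P e k, rf P e k, hs P e k ++ [2 ^ k]) := by
      rw [sts_succ]; unfold stp; rw [if_neg h0, if_neg h01, if_neg h02, if_pos h']
      exact if_neg c1
    obtain ⟨a1, a2, a3, a4, a5⟩ := out P e k _ _ _ _ _ h1
    exact ⟨a2, a3, a4, Or.inr ⟨not_le.1 c1, a1, a5⟩⟩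

theorem step4' (P : Prm) (e k : ℕ) (h : 4 ≤ md P e k) :
    md P e (k + 1) = 4 ∧ num P e k = 2 ^ k := by
  have h' : 4 ≤ (sts P e k).1 := h
  have h0 : ¬ (sts P e k).1 = 0 := by omega
  have h01 : ¬ (sts P e k).1 = 1 := by omega
  have h02 : ¬ (sts P e k).1 = 2 := by omega
  have h03 : ¬ (sts P e k).1 = 3 := by omega
  have h1 : sts P e (k + 1) = (4, kk P e k, sa P e k, rf P e k, hs P e k ++ [2 ^ k]) := by
    rw [sts_succ]; unfold stp; rw [if_neg h0, if_neg h01, if_neg h02, if_neg h03]; rfl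
  obtain ⟨a1, a2, a3, a4, a5⟩ := out P e k _ _ _ _ _ h1
  exact ⟨a1, a5⟩

/-- TARGET 11 -/
theorem step4 (P : Prm) (e k : ℕ) (h : md P e k = 4) :
    md P e (k + 1) = 4 ∧ num P e k = 2 ^ k := step4' P e k h.ge

/-- TARGET 5 -/
theorem md_le (P : Prm) (e k : ℕ) : md P e k ≤ 4 := by
  induction k with
  | zero =>
    show (0 : ℕ) ≤ 4
    norm_num
  | succ k ih =>
    have h : md P e k = 0 ∨ md P e k = 1 ∨ md P e k = 2 ∨ md P e k = 3 ∨ md P e k = 4 := by omega
    rcases h with h | h | h | h | h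
    · rcases (step0 P e k h).2 with h1 | h1 <;> omega
    · rcases (step1 P e k h).2 with h1 | h1 | h1 <;> omega
    · rcases (step2 P e k h).2.2.2 with h1 | h1 <;> omega
    · rcases (step3 P e k h).2.2.2 with h1 | h1 <;> omega
    · have := (step4 P e k h).1; omega

/-- TARGET 4 -/
theorem num_le (P : Prm) (e k : ℕ) : num P e k ≤ 2 ^ k := by
  have h4 := md_le P e k
  have h : md P e k = 0 ∨ md P e k = 1 ∨ md P e k = 2 ∨ md P e k = 3 ∨ md P e k = 4 := by omega
  rcases h with h | h | h | h | h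
  · rw [(step0 P e k h).1]; exact Nat.zero_le _
  · rcases (step1 P e k h).2 with h1 | h1 | h1
    · rw [h1.2.2]; omega
    · rw [h1.2.2.2.2.2]; exact Nat.zero_le _
    · rw [h1.2.2.2]
  · rw [(step2 P e k h).2.2.1]; exact Nat.zero_le _
  · rcases (step3 P e k h).2.2.2 with h1 | h1
    · rw [h1.2.2]; omega
    · rw [h1.2.2]
  · rw [(step4 P e k h).2]

/-- TARGET 6 -/
theorem md_mono (P : Prm) (e : ℕ) {j k : ℕ} (h : j ≤ k) : md P e j ≤ md P e k := by
  have hm : Monotone (md P e) := by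
    refine monotone_nat_of_le_succ fun k => ?_
    have h4 := md_le P e k
    have h : md P e k = 0 ∨ md P e k = 1 ∨ md P e k = 2 ∨ md P e k = 3 ∨ md P e k = 4 := by omega
    rcases h with h | h | h | h | h
    · rw [h]; exact Nat.zero_le _
    · rcases (step1 P e k h).2 with h1 | h1 | h1 <;> omega
    · rcases (step2 P e k h).2.2.2 with h1 | h1 <;> omega
    · rcases (step3 P e k h).2.2.2 with h1 | h1 <;> omega
    · have := (step4 P e k h).1; omega
  exact hm h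

/-- TARGET 12 -/
theorem acts_iff (P : Prm) (e k : ℕ) : acts P e k = true ↔ md P e k = 1 ∧ md P e (k + 1) = 2 := by
  unfold acts md
  rw [Bool.and_eq_true, decide_eq_true_eq, decide_eq_true_eq]

/-- TARGET 13 -/
theorem acts_unique (P : Prm) (e : ℕ) {j k : ℕ} (hj : acts P e j = true)
    (hk : acts P e k = true) : j = k := by
  rw [acts_iff] at hj hk
  rcases Nat.lt_trichotomy j k with h | h | h
  · have := md_mono P e (show j + 1 ≤ k by omega)
    omega
  · exact h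
  · have := md_mono P e (show k + 1 ≤ j by omega)
    omega

/-- TARGET 14 -/
theorem acts_unpair (P : Prm) (e : ℕ) {k : ℕ} (hk : acts P e k = true) : k.unpair.1 = e := by
  rw [acts_iff] at hk
  rcases (step1 P e k hk.1).2 with h1 | h1 | h1
  · have := h1.2.1; omega
  · exact h1.2.1
  · have := h1.2.2.1; omega

end Pool.Agent.Helper583.TT
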