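import Mathlib

namespace Pool.Agent.Helper583.TT

/-- a computable family of nonnegative reals, given by dyadic approximations -/
def CR {α : Type} [Primcodable α] (f : α → ℝ) : Prop :=
  ∃ q : α × ℕ → ℕ, Computable q ∧ ∀ a k, |f a - (q (a, k) : ℝ) / 2 ^ k| ≤ 1 / 2 ^ k

variable {α β : Type} [Primcodable α] [Primcodable β]

theorem CR.nonneg {f : α → ℝ} (hf : CR f) (a : α) : 0 ≤ f a := by
  obtain ⟨q, _, h⟩ := hf
  by_contra hneg
  push Not at hneg
  obtain ⟨k, hk⟩ := exists_pow_lt_of_lt_one (neg_pos.2 hneg) (by norm_num : (1 / 2 : ℝ) < 1)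
  rw [one_div_pow] at hk
  have h1 := abs_le.1 (h a k)
  have h2 : (0 : ℝ) ≤ (q (a, k) : ℝ) / 2 ^ k := by positivity
  linarith [h1.1]

theorem CR.comp {f : β → ℝ} (hf : CR f) {g : α → β} (hg : Computable g) :
    CR fun a => f (g a) := by
  obtain ⟨q, hq, h⟩ := hf
  refine ⟨fun p => q (g p.1, p.2), ?_, fun a k => h (g a) k⟩
  exact hq.comp (Computable.pair (hg.comp Computable.fst) Computable.snd)

theorem prim_pow : Primrec₂ ((· ^ ·) : ℕ → ℕ → ℕ) := Primrec₂.unpaired'.1 Nat.Primrec.pow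

theorem comp_bin {op : ℕ → ℕ → ℕ} (hop : Primrec₂ op) {f g : α → ℕ} (hf : Computable f)
    (hg : Computable g) : Computable fun a => op (f a) (g a) := hop.to_comp.comp hf hg

theorem comp_pow2 {f : α → ℕ} (hf : Computable f) : Computable fun a => 2 ^ (f a) :=
  comp_bin prim_pow (Computable.const 2) hf

theorem comp_arg {q : α × ℕ → ℕ} (hq : Computable q) {g : α × ℕ → ℕ} (hg : Computable g) :
    Computable fun p : α × ℕ => q (p.1, g p) :=
  hq.comp (Computable.pair Computable.fst hg)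

theorem comp_snd_add (c : ℕ) : Computable fun p : α × ℕ => p.2 + c :=
  comp_bin Primrec.nat_add Computable.snd (Computable.const c)

theorem CR.of_dyadic {f : α → ℝ} (q : α × ℕ → ℕ × ℕ) (hq : Computable q)
    (h : ∀ a k, |f a - ((q (a, k)).1 : ℝ) / 2 ^ (q (a, k)).2| ≤ 1 / 2 ^ k) : CR f := by
  have hq2 : Computable fun p : α × ℕ => q (p.1, p.2 + 2) :=
    hq.comp (Computable.pair Computable.fst (comp_snd_add 2))
  have hn : Computable fun p : α × ℕ => (q (p.1, p.2 + 2)).1 := Computable.fst.comp hq2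
  have hm : Computable fun p : α × ℕ => (q (p.1, p.2 + 2)).2 := Computable.snd.comp hq2
  refine ⟨fun p => (2 ^ p.2 * (q (p.1, p.2 + 2)).1 * 2 + 2 ^ (q (p.1, p.2 + 2)).2) /
    (2 * 2 ^ (q (p.1, p.2 + 2)).2), ?_, fun a k => ?_⟩
  · refine comp_bin Primrec.nat_div (comp_bin Primrec.nat_add (comp_bin Primrec.nat_mul
      (comp_bin Primrec.nat_mul (comp_pow2 Computable.snd) hn) (Computable.const 2))
      (comp_pow2 hm)) (comp_bin Primrec.nat_mul (Computable.const 2) (comp_pow2 hm))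
  · have h1 := h a (k + 2)
    obtain ⟨n, hn⟩ : ∃ n, n = (q (a, k + 2)).1 := ⟨_, rfl⟩
    obtain ⟨m, hm⟩ : ∃ m, m = (q (a, k + 2)).2 := ⟨_, rfl⟩
    show |f a - (((2 ^ k * (q (a, k + 2)).1 * 2 + 2 ^ (q (a, k + 2)).2) /
      (2 * 2 ^ (q (a, k + 2)).2) : ℕ) : ℝ) / 2 ^ k| ≤ 1 / 2 ^ k
    rw [← hn, ← hm] at h1 ⊢
    obtain ⟨r, hr⟩ : ∃ r, r = (2 ^ k * n * 2 + 2 ^ m) / (2 * 2 ^ m) := ⟨_, rfl⟩
    rw [← hr]
    have hpos : 0 < 2 * 2 ^ m := by positivity
    have h2 : r * (2 * 2 ^ m) ≤ 2 ^ k * n * 2 + 2 ^ m := by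
      rw [hr]; exact Nat.div_mul_le_self _ _
    have h3 : 2 ^ k * n * 2 + 2 ^ m < (r + 1) * (2 * 2 ^ m) := by
      rw [hr]
      exact (Nat.div_lt_iff_lt_mul hpos).1 (Nat.lt_succ_self _)
    have h2' : (r : ℝ) * (2 * 2 ^ m) ≤ 2 ^ k * n * 2 + 2 ^ m := by exact_mod_cast h2
    have h3' : (2 : ℝ) ^ k * n * 2 + 2 ^ m < (r + 1) * (2 * 2 ^ m) := by exact_mod_cast h3
    have hM : (0 : ℝ) < 2 ^ m := by positivity
    have hK : (0 : ℝ) < 2 ^ k := by positivity
    have h4 : |(n : ℝ) / 2 ^ m - (r : ℝ) / 2 ^ k| ≤ 1 / 2 ^ k / 2 := by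
      have e : (n : ℝ) / 2 ^ m - (r : ℝ) / 2 ^ k = (2 ^ k * n - r * 2 ^ m) / (2 ^ m * 2 ^ k) := by
        field_simp
      rw [e, abs_div, abs_of_pos (by positivity : (0 : ℝ) < 2 ^ m * 2 ^ k),
        div_le_iff₀ (by positivity)]
      have e2 : (1 : ℝ) / 2 ^ k / 2 * (2 ^ m * 2 ^ k) = 2 ^ m / 2 := by field_simp
      rw [e2, abs_le]
      constructor <;> linarith
    have h5 : |f a - (r : ℝ) / 2 ^ k| ≤ |f a - (n : ℝ) / 2 ^ m| +
        |(n : ℝ) / 2 ^ m - (r : ℝ) / 2 ^ k| := abs_sub_le _ _ _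
    have h6 : (1 : ℝ) / 2 ^ (k + 2) = 1 / 2 ^ k / 4 := by
      rw [pow_add]; field_simp; norm_num
    have h7 : (0 : ℝ) < 1 / 2 ^ k := by positivity
    linarith

theorem CR.nat {n : α → ℕ} (hn : Computable n) : CR fun a => (n a : ℝ) := by
  refine CR.of_dyadic (fun p => (n p.1, 0)) ?_ (fun a k => ?_)
  · exact Computable.pair (hn.comp Computable.fst) (Computable.const 0)
  · simp

theorem half_pow (k : ℕ) : (1 : ℝ) / 2 ^ (k + 1) = 1 / 2 ^ k / 2 := by
  rw [pow_add]; field_simp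

theorem CR.add {f g : α → ℝ} (hf : CR f) (hg : CR g) : CR fun a => f a + g a := by
  obtain ⟨q, hq, h⟩ := hf
  obtain ⟨q', hq', h'⟩ := hg
  refine CR.of_dyadic (fun p => (q (p.1, p.2 + 1) + q' (p.1, p.2 + 1), p.2 + 1)) ?_
    (fun a k => ?_)
  · exact Computable.pair (comp_bin Primrec.nat_add (comp_arg hq (comp_snd_add 1))
      (comp_arg hq' (comp_snd_add 1))) (comp_snd_add 1)
  · have h1 := abs_le.1 (h a (k + 1))
    have h2 := abs_le.1 (h' a (k + 1))
    rw [half_pow] at h1 h2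
    show |f a + g a - ((q (a, k + 1) + q' (a, k + 1) : ℕ) : ℝ) / 2 ^ (k + 1)| ≤ 1 / 2 ^ k
    push_cast
    rw [add_div, abs_le]
    constructor <;> linarith [h1.1, h1.2, h2.1, h2.2]

theorem CR.max {f g : α → ℝ} (hf : CR f) (hg : CR g) : CR fun a => max (f a) (g a) := by
  obtain ⟨q, hq, h⟩ := hf
  obtain ⟨q', hq', h'⟩ := hg
  refine ⟨fun p => Max.max (q p) (q' p), comp_bin Primrec.nat_max hq hq', fun a k => ?_⟩
  have hK : (0 : ℝ) < 2 ^ k := by positivity
  have e : ((Max.max (q (a, k)) (q' (a, k)) : ℕ) : ℝ) / 2 ^ k =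
      Max.max ((q (a, k) : ℝ) / 2 ^ k) ((q' (a, k) : ℝ) / 2 ^ k) := by
    rw [Nat.cast_max, max_div_div_right hK.le]
  show |Max.max (f a) (g a) - ((Max.max (q (a, k)) (q' (a, k)) : ℕ) : ℝ) / 2 ^ k| ≤ 1 / 2 ^ k
  rw [e]
  exact (abs_max_sub_max_le_max _ _ _ _).trans (max_le (h a k) (h' a k))

theorem CR.min {f g : α → ℝ} (hf : CR f) (hg : CR g) : CR fun a => min (f a) (g a) := by
  obtain ⟨q, hq, h⟩ := hf
  obtain ⟨q', hq', h'⟩ := hg
  refine ⟨fun p => Min.min (q p) (q' p), comp_bin Primrec.nat_min hq hq', fun a k => ?_⟩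
  have hK : (0 : ℝ) < 2 ^ k := by positivity
  have e : ((Min.min (q (a, k)) (q' (a, k)) : ℕ) : ℝ) / 2 ^ k =
      Min.min ((q (a, k) : ℝ) / 2 ^ k) ((q' (a, k) : ℝ) / 2 ^ k) := by
    rw [Nat.cast_min, min_div_div_right hK.le]
  show |Min.min (f a) (g a) - ((Min.min (q (a, k)) (q' (a, k)) : ℕ) : ℝ) / 2 ^ k| ≤ 1 / 2 ^ k
  rw [e]
  exact (abs_min_sub_min_le_max _ _ _ _).trans (max_le (h a k) (h' a k))

theorem CR.tsub {f g : α → ℝ} (hf : CR f) (hg : CR g) : CR fun a => Max.max (f a - g a) 0 := by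
  obtain ⟨q, hq, h⟩ := hf
  obtain ⟨q', hq', h'⟩ := hg
  refine CR.of_dyadic (fun p => (q (p.1, p.2 + 1) - q' (p.1, p.2 + 1), p.2 + 1)) ?_
    (fun a k => ?_)
  · exact Computable.pair (comp_bin Primrec.nat_sub (comp_arg hq (comp_snd_add 1))
      (comp_arg hq' (comp_snd_add 1))) (comp_snd_add 1)
  · have h1 := abs_le.1 (h a (k + 1))
    have h2 := abs_le.1 (h' a (k + 1))
    rw [half_pow] at h1 h2
    show |Max.max (f a - g a) 0 - ((q (a, k + 1) - q' (a, k + 1) : ℕ) : ℝ) / 2 ^ (k + 1)| ≤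
      1 / 2 ^ k
    have hK : (0 : ℝ) < 2 ^ (k + 1) := by positivity
    have e : ((q (a, k + 1) - q' (a, k + 1) : ℕ) : ℝ) / 2 ^ (k + 1) =
        Max.max ((q (a, k + 1) : ℝ) / 2 ^ (k + 1) - (q' (a, k + 1) : ℝ) / 2 ^ (k + 1)) 0 := by
      rcases le_total (q' (a, k + 1)) (q (a, k + 1)) with hle | hle
      · rw [Nat.cast_sub hle, sub_div, max_eq_left]
        rw [sub_nonneg]
        have : (q' (a, k + 1) : ℝ) ≤ q (a, k + 1) := by exact_mod_cast hle
        exact div_le_div_of_nonneg_right this hK.le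
      · rw [Nat.sub_eq_zero_of_le hle, Nat.cast_zero, zero_div, max_eq_right]
        rw [sub_nonpos]
        have : (q (a, k + 1) : ℝ) ≤ q' (a, k + 1) := by exact_mod_cast hle
        exact div_le_div_of_nonneg_right this hK.le
    rw [e]
    refine (abs_max_sub_max_le_max _ _ _ _).trans (max_le ?_ (by simp))
    rw [abs_le]
    constructor <;> linarith [h1.1, h1.2, h2.1, h2.2]

theorem CR.congr {f g : α → ℝ} (hf : CR f) (h : ∀ a, f a = g a) : CR g := by
  have : f = g := funext h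
  rw [← this]
  exact hf

theorem CR.absdiff {f g : α → ℝ} (hf : CR f) (hg : CR g) : CR fun a => |f a - g a| := by
  refine CR.congr ((hf.tsub hg).add (hg.tsub hf)) (fun a => ?_)
  rcases le_total (f a) (g a) with h | h
  · rw [max_eq_right (by linarith), max_eq_left (by linarith), abs_of_nonpos (by linarith)]
    ring
  · rw [max_eq_left (by linarith), max_eq_right (by linarith), abs_of_nonneg (by linarith)]
    ring

theorem CR.div_pow {f : α → ℝ} (hf : CR f) {n : α → ℕ} (hn : Computable n) :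
    CR fun a => f a / 2 ^ n a := by
  obtain ⟨q, hq, h⟩ := hf
  refine CR.of_dyadic (fun p => (q p, p.2 + n p.1)) ?_ (fun a k => ?_)
  · exact Computable.pair hq (comp_bin Primrec.nat_add Computable.snd (hn.comp Computable.fst))
  · have h1 := h a k
    show |f a / 2 ^ n a - (q (a, k) : ℝ) / 2 ^ (k + n a)| ≤ 1 / 2 ^ k
    have e : f a / 2 ^ n a - (q (a, k) : ℝ) / 2 ^ (k + n a) =
        (f a - (q (a, k) : ℝ) / 2 ^ k) / 2 ^ n a := by
      rw [pow_add]; field_simp
    rw [e, abs_div, abs_of_pos (by positivity : (0 : ℝ) < 2 ^ n a)]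
    refine (div_le_self (abs_nonneg _) ?_).trans h1
    exact one_le_pow₀ (by norm_num)

theorem CR.mul_pow {f : α → ℝ} (hf : CR f) {n : α → ℕ} (hn : Computable n) :
    CR fun a => f a * 2 ^ n a := by
  obtain ⟨q, hq, h⟩ := hf
  refine CR.of_dyadic (fun p => (q (p.1, p.2 + n p.1), p.2)) ?_ (fun a k => ?_)
  · exact Computable.pair (comp_arg hq (comp_bin Primrec.nat_add Computable.snd
      (hn.comp Computable.fst))) Computable.snd
  · have h1 := h a (k + n a)
    show |f a * 2 ^ n a - (q (a, k + n a) : ℝ) / 2 ^ k| ≤ 1 / 2 ^ k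
    have e : f a * 2 ^ n a - (q (a, k + n a) : ℝ) / 2 ^ k =
        (f a - (q (a, k + n a) : ℝ) / 2 ^ (k + n a)) * 2 ^ n a := by
      rw [pow_add]; field_simp
    rw [e, abs_mul, abs_of_pos (by positivity : (0 : ℝ) < 2 ^ n a)]
    have e2 : (1 : ℝ) / 2 ^ k = 1 / 2 ^ (k + n a) * 2 ^ n a := by
      rw [pow_add]; field_simp
    rw [e2]
    exact mul_le_mul_of_nonneg_right h1 (by positivity)

theorem CR.ite {b : α → Bool} (hb : Computable b) {f g : α → ℝ} (hf : CR f) (hg : CR g) :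
    CR fun a => if b a = true then f a else g a := by
  obtain ⟨q, hq, h⟩ := hf
  obtain ⟨q', hq', h'⟩ := hg
  refine ⟨fun p => bif b p.1 then q p else q' p,
    Computable.cond (hb.comp Computable.fst) hq hq', fun a k => ?_⟩
  show |(if b a = true then f a else g a) - ((bif b a then q (a, k) else q' (a, k) : ℕ) : ℝ) /
    2 ^ k| ≤ 1 / 2 ^ k
  cases hba : b a with
  | true => simpa using h a k
  | false => simpa using h' a k

theorem CR.lim {f : α → ℝ} {g : α × ℕ → ℝ} (hg : CR g)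
    (h : ∀ a k, |f a - g (a, k)| ≤ 1 / 2 ^ k) : CR f := by
  obtain ⟨q, hq, hq'⟩ := hg
  refine CR.of_dyadic (fun p => (q ((p.1, p.2 + 1), p.2 + 1), p.2 + 1)) ?_ (fun a k => ?_)
  · exact Computable.pair (hq.comp (Computable.pair (Computable.pair Computable.fst
      (comp_snd_add 1)) (comp_snd_add 1))) (comp_snd_add 1)
  · have h1 := h a (k + 1)
    have h2 := hq' (a, k + 1) (k + 1)
    rw [half_pow] at h1 h2
    show |f a - (q ((a, k + 1), k + 1) : ℝ) / 2 ^ (k + 1)| ≤ 1 / 2 ^ k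
    have h3 := abs_sub_le (f a) (g (a, k + 1)) ((q ((a, k + 1), k + 1) : ℝ) / 2 ^ (k + 1))
    linarith

theorem CR.find_pos {f : α → ℝ} (hf : CR f) (h : ∀ a, 0 < f a) :
    ∃ n : α → ℕ, Computable n ∧ ∀ a, 1 / 2 ^ n a < f a := by
  obtain ⟨q, hq, hq'⟩ := hf
  have hex : ∀ a, ∃ t, 3 ≤ q (a, t) := by
    intro a
    obtain ⟨t, ht⟩ := exists_pow_lt_of_lt_one (div_pos (h a) (by norm_num : (0 : ℝ) < 4))
      (by norm_num : (1 / 2 : ℝ) < 1)
    rw [one_div_pow] at ht
    refine ⟨t, ?_⟩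
    have h1 := abs_le.1 (hq' a t)
    have hK : (0 : ℝ) < 2 ^ t := by positivity
    have h2 : 3 * (1 / 2 ^ t) ≤ (q (a, t) : ℝ) / 2 ^ t := by linarith [h1.2]
    rw [← mul_div_assoc, mul_one, div_le_div_iff_of_pos_right hK] at h2
    exact_mod_cast h2
  refine ⟨fun a => Nat.find (hex a), ?_, fun a => ?_⟩
  · have hp : Computable₂ (fun (a : α) (t : ℕ) => decide (3 ≤ q (a, t))) := by
      have h1 : Computable (fun p : α × ℕ => decide (3 ≤ q (p.1, p.2))) :=
        (Primrec.nat_le.decide.to_comp).comp (Computable.const 3) hq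
      exact h1
    have h2 : Partrec fun a => Nat.rfind fun t => Part.some (decide (3 ≤ q (a, t))) :=
      Partrec.rfind hp.partrec₂
    refine Partrec.of_eq h2 (fun a => ?_)
    apply Part.eq_some_iff.2
    refine Nat.mem_rfind.2 ⟨?_, fun {m} hm => ?_⟩
    · have := Nat.find_spec (hex a)
      exact Part.mem_some_iff.2 (decide_eq_true this).symm
    · have := Nat.find_min (hex a) hm
      exact Part.mem_some_iff.2 (decide_eq_false this).symm
  · have h1 := Nat.find_spec (hex a)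
    have h2 := abs_le.1 (hq' a (Nat.find (hex a)))
    have hK : (0 : ℝ) < 1 / 2 ^ Nat.find (hex a) := by positivity
    have h3 : (3 : ℝ) ≤ (q (a, Nat.find (hex a)) : ℝ) := by exact_mod_cast h1
    have h4 : 3 * (1 / 2 ^ Nat.find (hex a)) ≤ (q (a, Nat.find (hex a)) : ℝ) /
        2 ^ Nat.find (hex a) := by
      rw [← mul_div_assoc, mul_one]
      exact div_le_div_of_nonneg_right h3 (by positivity)
    linarith [h2.1]

/-- approximate comparison with a power of two -/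
theorem CR.cmp {f : α → ℝ} (hf : CR f) {n : α → ℕ} (hn : Computable n) :
    ∃ b : α → Bool, Computable b ∧ ∀ a, (f a ≤ 1 / 2 ^ n a / 2 → b a = true) ∧
      (b a = true → f a ≤ 1 / 2 ^ n a) := by
  obtain ⟨q, hq, hq'⟩ := hf
  refine ⟨fun a => decide (q (a, n a + 4) ≤ 9), ?_, fun a => ?_⟩
  · exact (Primrec.nat_le.decide.to_comp).comp (hq.comp (Computable.pair Computable.id
      (comp_bin Primrec.nat_add hn (Computable.const 4)))) (Computable.const 9)
  · have h1 := abs_le.1 (hq' a (n a + 4))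
    have e : (1 : ℝ) / 2 ^ n a = 16 * (1 / 2 ^ (n a + 4)) := by
      rw [pow_add]; field_simp; norm_num
    have hK : (0 : ℝ) < 2 ^ (n a + 4) := by positivity
    have hK' : (0 : ℝ) < 1 / 2 ^ (n a + 4) := by positivity
    rw [e, decide_eq_true_iff]
    constructor
    · intro h2
      have h3 : (q (a, n a + 4) : ℝ) / 2 ^ (n a + 4) ≤ 9 * (1 / 2 ^ (n a + 4)) := by
        linarith [h1.1]
      rw [← mul_div_assoc, mul_one, div_le_div_iff_of_pos_right hK] at h3
      exact_mod_cast h3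
    · intro h2
      have h3 : (q (a, n a + 4) : ℝ) ≤ 9 := by exact_mod_cast h2
      have h4 : (q (a, n a + 4) : ℝ) / 2 ^ (n a + 4) ≤ 9 * (1 / 2 ^ (n a + 4)) := by
        rw [← mul_div_assoc, mul_one]
        exact div_le_div_of_nonneg_right h3 hK.le
      linarith [h1.2]

end Pool.Agent.Helper583.TT
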