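import Mathlib

namespace Pool.Agent.Helper583.TT

/-- countably many continuous coordinates with values in `[0,1]` -/
structure Crd (Y : Type) [TopologicalSpace Y] where
  f : ℕ → Y → ℝ
  nonneg : ∀ e x, 0 ≤ f e x
  le_one : ∀ e x, f e x ≤ 1
  cont : ∀ e, Continuous (f e)

/-- the space `Y` with the metric increased by the coordinates -/
structure GM {Y : Type} [MetricSpace Y] (Φ : Crd Y) where
  val : Y

variable {Y : Type} [MetricSpace Y] {Φ : Crd Y}

noncomputable def gdist (x y : GM Φ) : ℝ :=
  dist x.val y.val + ∑' e, |Φ.f e x.val - Φ.f e y.val| / 2 ^ e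

theorem gterm_le (e : ℕ) (x y : Y) : |Φ.f e x - Φ.f e y| / 2 ^ e ≤ (1 / 2 : ℝ) ^ e := by
  have h1 : |Φ.f e x - Φ.f e y| ≤ 1 := by
    rw [abs_le]
    constructor <;> linarith [Φ.nonneg e x, Φ.nonneg e y, Φ.le_one e x, Φ.le_one e y]
  rw [one_div, inv_pow, div_eq_mul_inv]
  have h2 : (0 : ℝ) ≤ ((2 : ℝ) ^ e)⁻¹ := by positivity
  nlinarith

theorem gterm_nonneg (e : ℕ) (x y : Y) : 0 ≤ |Φ.f e x - Φ.f e y| / 2 ^ e := by
  positivity

theorem gdist_summable (x y : Y) : Summable fun e => |Φ.f e x - Φ.f e y| / 2 ^ e :=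
  Summable.of_nonneg_of_le (fun e => gterm_nonneg e x y) (fun e => gterm_le e x y)
    summable_geometric_two

theorem gtsum_nonneg (x y : Y) : 0 ≤ ∑' e, |Φ.f e x - Φ.f e y| / 2 ^ e :=
  tsum_nonneg fun e => gterm_nonneg e x y

noncomputable instance gmMetric : MetricSpace (GM Φ) where
  dist := gdist
  dist_self := by
    intro x
    simp [gdist]
  dist_comm := by
    intro x y
    simp only [gdist]
    rw [dist_comm x.val y.val]
    congr 1
    apply tsum_congr
    intro e
    rw [abs_sub_comm]
  dist_triangle := by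
    intro x y z
    simp only [gdist]
    have h1 := dist_triangle x.val y.val z.val
    have h2 : ∑' e, |Φ.f e x.val - Φ.f e z.val| / 2 ^ e ≤
        ∑' e, |Φ.f e x.val - Φ.f e y.val| / 2 ^ e + ∑' e, |Φ.f e y.val - Φ.f e z.val| / 2 ^ e := by
      rw [← (gdist_summable x.val y.val).tsum_add (gdist_summable y.val z.val)]
      apply Summable.tsum_le_tsum _ (gdist_summable x.val z.val)
        ((gdist_summable x.val y.val).add (gdist_summable y.val z.val))
      intro e
      rw [← add_div]
      gcongr
      exact abs_sub_le _ _ _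
    linarith
  eq_of_dist_eq_zero := by
    intro x y h
    simp only [gdist] at h
    have h1 := gtsum_nonneg (Φ := Φ) x.val y.val
    have h2 : dist x.val y.val = 0 := le_antisymm (by linarith) dist_nonneg
    have h3 := dist_eq_zero.1 h2
    cases x
    cases y
    simp only at h3
    rw [h3]

theorem gm_dist (x y : GM Φ) :
    dist x y = dist x.val y.val + ∑' e, |Φ.f e x.val - Φ.f e y.val| / 2 ^ e := rfl

theorem gm_base_le (x y : GM Φ) : dist x.val y.val ≤ dist x y := by
  rw [gm_dist]
  linarith [gtsum_nonneg (Φ := Φ) x.val y.val]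

theorem gm_coord_le (e : ℕ) (x y : GM Φ) : |Φ.f e x.val - Φ.f e y.val| / 2 ^ e ≤ dist x y := by
  rw [gm_dist]
  have h1 := (gdist_summable (Φ := Φ) x.val y.val).le_tsum e
    (fun j _ => gterm_nonneg j x.val y.val)
  have h2 : 0 ≤ dist x.val y.val := dist_nonneg
  linarith

/-- topologically nothing has changed -/
noncomputable def gmHomeo : GM Φ ≃ₜ Y where
  toFun := GM.val
  invFun := GM.mk
  left_inv := fun _ => rfl
  right_inv := fun _ => rfl
  continuous_toFun := by
    refine (LipschitzWith.of_dist_le_mul (K := 1) ?_).continuous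
    intro x y
    simpa using gm_base_le x y
  continuous_invFun := by
    rw [continuous_iff_continuousAt]
    intro y
    unfold ContinuousAt
    rw [tendsto_iff_dist_tendsto_zero]
    have hc : Continuous fun x : Y => dist x y + ∑' e, |Φ.f e x - Φ.f e y| / 2 ^ e := by
      refine Continuous.add (continuous_id.dist continuous_const) ?_
      refine continuous_tsum (u := fun e => (1 / 2 : ℝ) ^ e) ?_ summable_geometric_two ?_
      · intro e
        exact (((Φ.cont e).sub continuous_const).abs).div_const _
      · intro e x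
        rw [Real.norm_of_nonneg (gterm_nonneg e x y)]
        exact gterm_le e x y
    have h0 := hc.tendsto y
    simp only [dist_self, sub_self, abs_zero, zero_div, tsum_zero, add_zero] at h0
    exact h0

theorem gm_complete [CompleteSpace Y] : CompleteSpace (GM Φ) := by
  apply Metric.complete_of_cauchySeq_tendsto
  intro u hu
  have h1 : CauchySeq fun n => (u n).val := by
    rw [Metric.cauchySeq_iff'] at hu ⊢
    intro ε hε
    obtain ⟨N, hN⟩ := hu ε hε
    exact ⟨N, fun n hn => lt_of_le_of_lt (gm_base_le _ _) (hN n hn)⟩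
  obtain ⟨a, ha⟩ := cauchySeq_tendsto_of_complete h1
  refine ⟨⟨a⟩, ?_⟩
  have h2 := ((gmHomeo (Φ := Φ)).symm.continuous.tendsto a).comp ha
  exact h2

theorem gm_dense {c : ℕ → Y} (hd : DenseRange c) : DenseRange fun i => (⟨c i⟩ : GM Φ) := by
  exact (gmHomeo (Φ := Φ)).symm.surjective.denseRange.comp hd
    (gmHomeo (Φ := Φ)).symm.continuous

end Pool.Agent.Helper583.TT
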