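import Pool.Agent.Helper583.TTCR1

namespace Pool.Agent.Helper583.TT.TTInj

variable {α β : Type} [Primcodable α] [Primcodable β]

omit [Primcodable β] in
theorem comp_ball_aux (P : α → ℕ → Bool) (hP : Computable₂ P) (f : α → ℕ)
    (hf : Computable f) :
    ∃ w : α → Bool, Computable w ∧ ∀ a, w a = true ↔ ∀ i < f a, P a i = true := by
  refine ⟨fun a => Nat.rec true (fun y IH => IH && P a y) (f a), ?_, ?_⟩
  · have h2 : Computable₂ (fun (a : α) (p : ℕ × Bool) => p.2 && P a p.1) := by
      have h3 : Computable (fun x : α × (ℕ × Bool) => x.2.2 && P x.1 x.2.1) := by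
        have h4 : Computable (fun x : α × (ℕ × Bool) => P x.1 x.2.1) :=
          Computable₂.comp hP Computable.fst (Computable.fst.comp Computable.snd)
        have h5 : Computable (fun x : α × (ℕ × Bool) => x.2.2) :=
          Computable.snd.comp Computable.snd
        exact Computable₂.comp (Primrec₂.to_comp Primrec.and) h5 h4
      exact h3.to₂
    exact Computable.nat_rec hf (Computable.const true) h2
  · intro a
    show (Nat.rec true (fun y IH => IH && P a y) (f a) : Bool) = true ↔
      ∀ i < f a, P a i = true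
    generalize f a = n
    induction n with
    | zero => simp
    | succ n ih =>
      simp only [Bool.and_eq_true, ih]
      constructor
      · rintro ⟨h1, h2⟩ i hi
        rcases Nat.lt_succ_iff_lt_or_eq.1 hi with h | h
        · exact h1 i h
        · rw [h]; exact h2
      · intro h
        exact ⟨fun i hi => h i (by omega), h n (by omega)⟩

omit [Primcodable β] in
theorem comp_find_aux (P : α → ℕ → Bool) (hP : Computable₂ P)
    (h : ∀ a, ∃ n, P a n = true) :
    Computable (fun a => Nat.find (h a)) := by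
  have h1 : Partrec fun a => Nat.rfind (fun n => (Part.some (P a n))) :=
    Partrec.rfind (p := fun a n => Part.some (P a n)) hP
  refine Partrec.of_eq h1 ?_
  intro a
  refine Part.eq_some_iff.2 ?_
  refine Nat.mem_rfind.2 ⟨?_, ?_⟩
  · rw [Part.mem_some_iff]
    exact (Nat.find_spec (h a)).symm
  · intro m hm
    rw [Part.mem_some_iff]
    have := Nat.find_min (h a) hm
    simpa using this

/-- an injective enumeration of the dense sequence of an infinite computable metric space -/
theorem exists_inj {Y : Type} [MetricSpace Y] [Infinite Y] (c : ℕ → Y) (hd : DenseRange c)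
    (hc : CR fun p : ℕ × ℕ => dist (c p.1) (c p.2)) :
    ∃ g : ℕ → ℕ, Computable g ∧ Function.Injective (fun n => c (g n)) ∧
      Set.range (fun n => c (g n)) = Set.range c := by
  obtain ⟨q, hq, hqa⟩ := hc
  -- facts about q
  have hA : ∀ i e t, 2 ≤ q ((i, e), t) → c i ≠ c e := by
    intro i e t h heq
    have h1 := hqa (i, e) t
    simp only [heq, dist_self, zero_sub, abs_neg] at h1
    have h2 : (0:ℝ) < 2 ^ t := by positivity
    rw [abs_of_nonneg (by positivity), div_le_div_iff_of_pos_right h2] at h1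
    have h3 : (2:ℝ) ≤ (q ((i, e), t) : ℝ) := by exact_mod_cast h
    linarith
  have hB : ∀ i e, c i ≠ c e → ∃ N, ∀ t, N ≤ t → 2 ≤ q ((i, e), t) := by
    intro i e hne
    have hpos : 0 < dist (c i) (c e) := dist_pos.2 hne
    obtain ⟨N, hN⟩ := pow_unbounded_of_one_lt (3 / dist (c i) (c e)) (by norm_num : (1:ℝ) < 2)
    refine ⟨N, fun t ht => ?_⟩
    have h2 : (0:ℝ) < 2 ^ t := by positivity
    have h3 : (2:ℝ) ^ N ≤ 2 ^ t := pow_le_pow_right₀ (by norm_num) ht
    have h4 : 3 < 2 ^ t * dist (c i) (c e) := by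
      have := lt_of_lt_of_le hN h3
      rwa [div_lt_iff₀ hpos] at this
    have h1 := (abs_le.1 (hqa (i, e) t)).2
    simp only at h1
    have h5 : dist (c i) (c e) * 2 ^ t - q ((i, e), t) ≤ 1 := by
      have h6 : (dist (c i) (c e) - (q ((i, e), t) : ℝ) / 2 ^ t) * 2 ^ t ≤ 1 / 2 ^ t * 2 ^ t :=
        mul_le_mul_of_nonneg_right h1 h2.le
      have h7 : (dist (c i) (c e) - (q ((i, e), t) : ℝ) / 2 ^ t) * 2 ^ t
          = dist (c i) (c e) * 2 ^ t - q ((i, e), t) := by field_simp
      have h8 : (1:ℝ) / 2 ^ t * 2 ^ t = 1 := by field_simp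
      linarith
    have h6 : (2:ℝ) < (q ((i, e), t) : ℝ) := by nlinarith
    have h7 : 2 < q ((i, e), t) := by exact_mod_cast h6
    omega
  -- W
  obtain ⟨W, hWc, hW⟩ : ∃ w : ℕ × ℕ → Bool, Computable w ∧
      ∀ p : ℕ × ℕ, w p = true ↔ ∀ i < p.1, decide (2 ≤ q ((i, p.1), p.2)) = true := by
    refine comp_ball_aux (fun (p : ℕ × ℕ) (i : ℕ) => decide (2 ≤ q ((i, p.1), p.2))) ?_
      (fun p => p.1) Computable.fst
    have h1 : Computable (fun x : (ℕ × ℕ) × ℕ => q ((x.2, x.1.1), x.1.2)) := by
      refine hq.comp ?_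
      refine Computable.pair (Computable.pair Computable.snd
        (Computable.fst.comp Computable.fst)) (Computable.snd.comp Computable.fst)
    have h2 : Computable₂ (fun a b : ℕ => decide (a ≤ b)) :=
      Primrec₂.to_comp (PrimrecRel.decide Primrec.nat_le)
    have h3 : Computable (fun x : (ℕ × ℕ) × ℕ => decide (2 ≤ q ((x.2, x.1.1), x.1.2))) :=
      Computable₂.comp h2 (Computable.const 2) h1
    exact h3.to₂
  obtain ⟨V, hVc, hV⟩ : ∃ w : ℕ × ℕ → Bool, Computable w ∧
      ∀ p : ℕ × ℕ, w p = true ↔ ∀ t < p.2, (!(W (p.1, t))) = true := by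
    refine comp_ball_aux (fun (p : ℕ × ℕ) (t : ℕ) => !(W (p.1, t))) ?_
      (fun p => p.2) Computable.snd
    have h1 : Computable (fun x : (ℕ × ℕ) × ℕ => W (x.1.1, x.2)) := by
      refine hWc.comp ?_
      exact Computable.pair (Computable.fst.comp Computable.fst) Computable.snd
    have h3 : Computable (fun x : (ℕ × ℕ) × ℕ => !(W (x.1.1, x.2))) :=
      (Primrec.to_comp Primrec.not).comp h1
    exact h3.to₂
  set Zb : ℕ → Bool := fun z => W (Nat.unpair z) && V (Nat.unpair z) with hZb
  have hZc : Computable Zb :=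
    Computable₂.comp (Primrec₂.to_comp Primrec.and) (hWc.comp Computable.unpair)
      (hVc.comp Computable.unpair)
  have hZ : ∀ z, Zb z = true ↔ W (Nat.unpair z) = true ∧
      ∀ t < (Nat.unpair z).2, ¬ W ((Nat.unpair z).1, t) = true := by
    intro z
    simp only [hZb, Bool.and_eq_true, hV]
    simp
  have hWE : ∀ e t, W (e, t) = true → ∀ i < e, c i ≠ c e := by
    intro e t h i hi
    have := (hW (e, t)).1 h i hi
    simp only [decide_eq_true_eq] at this
    exact hA i e t this
  have hEW : ∀ e, (∀ i < e, c i ≠ c e) → ∃ t, W (e, t) = true := by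
    intro e he
    have h1 : ∀ i, ∃ N, i < e → ∀ t, N ≤ t → 2 ≤ q ((i, e), t) := by
      intro i
      by_cases hi : i < e
      · obtain ⟨N, hN⟩ := hB i e (he i hi)
        exact ⟨N, fun _ => hN⟩
      · exact ⟨0, fun h => absurd h hi⟩
    choose N hN using h1
    refine ⟨(Finset.range e).sup N, (hW _).2 ?_⟩
    intro i hi
    simp only [decide_eq_true_eq]
    exact hN i hi _ (Finset.le_sup (Finset.mem_range.2 hi))
  -- least witness
  have hEZ : ∀ e, (∀ i < e, c i ≠ c e) → ∃ z, Zb z = true ∧ (Nat.unpair z).1 = e := by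
    intro e he
    have h1 := hEW e he
    refine ⟨Nat.pair e (Nat.find h1), ?_, by simp⟩
    rw [hZ]
    simp only [Nat.unpair_pair]
    exact ⟨Nat.find_spec h1, fun t ht => Nat.find_min h1 ht⟩
  -- unbounded
  have hEinf : ∀ s, ∃ e, s ≤ e ∧ ∀ i < e, c i ≠ c e := by
    intro s
    by_contra hcon
    push Not at hcon
    have h1 : ∀ e, ∃ j < s, c j = c e := by
      intro e
      induction e using Nat.strong_induction_on with
      | _ e ih =>
        by_cases hs : e < s
        · exact ⟨e, hs, rfl⟩
        · obtain ⟨i, hi, hie⟩ := hcon e (by omega)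
          obtain ⟨j, hj, hji⟩ := ih i hi
          exact ⟨j, hj, hji.trans hie⟩
    have h2 : (Set.range c).Finite := by
      refine Set.Finite.subset ((Set.finite_Iio s).image c) ?_
      rintro _ ⟨e, rfl⟩
      obtain ⟨j, hj, hje⟩ := h1 e
      exact ⟨j, hj, hje⟩
    have h3 : Set.range c = Set.univ := by
      have := hd.closure_range
      rwa [h2.isClosed.closure_eq] at this
    rw [h3] at h2
    exact Set.infinite_univ h2
  have hinf : ∀ s, ∃ z, (decide (s ≤ z) && Zb z) = true := by
    intro s
    obtain ⟨e, hse, he⟩ := hEinf s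
    obtain ⟨z, hz, hze⟩ := hEZ e he
    refine ⟨z, ?_⟩
    simp only [Bool.and_eq_true, decide_eq_true_eq]
    refine ⟨?_, hz⟩
    have := Nat.unpair_left_le z
    omega
  have hPc : Computable₂ (fun s z : ℕ => decide (s ≤ z) && Zb z) := by
    have h2 : Computable₂ (fun a b : ℕ => decide (a ≤ b)) :=
      Primrec₂.to_comp (PrimrecRel.decide Primrec.nat_le)
    have h3 : Computable (fun x : ℕ × ℕ => decide (x.1 ≤ x.2) && Zb x.2) :=
      Computable₂.comp (Primrec₂.to_comp Primrec.and)
        (Computable₂.comp h2 Computable.fst Computable.snd) (hZc.comp Computable.snd)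
    exact h3.to₂
  have hnc := comp_find_aux (fun s z : ℕ => decide (s ≤ z) && Zb z) hPc hinf
  set nx : ℕ → ℕ := fun s => Nat.find (hinf s) with hnx
  have hnx1 : ∀ s, s ≤ nx s ∧ Zb (nx s) = true := by
    intro s
    have : (decide (s ≤ nx s) && Zb (nx s)) = true := Nat.find_spec (hinf s)
    simp only [Bool.and_eq_true, decide_eq_true_eq] at this
    exact this
  have hnx2 : ∀ s z, s ≤ z → Zb z = true → nx s ≤ z := by
    intro s z h1 h2
    refine Nat.find_min' (hinf s) ?_
    simp only [Bool.and_eq_true, decide_eq_true_eq]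
    exact ⟨h1, h2⟩
  set G : ℕ → ℕ := fun n => Nat.rec (nx 0) (fun _ ih => nx (ih + 1)) n with hG
  have hGc : Computable G := by
    have h1 : Computable₂ (fun (_ : ℕ) (p : ℕ × ℕ) => nx (p.2 + 1)) := by
      have h2 : Computable (fun x : ℕ × (ℕ × ℕ) => nx (x.2.2 + 1)) :=
        hnc.comp ((Primrec.to_comp Primrec.succ).comp (Computable.snd.comp Computable.snd))
      exact h2.to₂
    exact Computable.nat_rec Computable.id (Computable.const (nx 0)) h1
  have hG0 : G 0 = nx 0 := rfl
  have hGs : ∀ n, G (n + 1) = nx (G n + 1) := fun n => rfl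
  have hGZ : ∀ n, Zb (G n) = true := by
    intro n
    cases n with
    | zero => rw [hG0]; exact (hnx1 0).2
    | succ n => rw [hGs]; exact (hnx1 _).2
  have hGm : StrictMono G := by
    refine strictMono_nat_of_lt_succ fun n => ?_
    rw [hGs]
    have := (hnx1 (G n + 1)).1
    omega
  have hGr : ∀ z, Zb z = true → ∃ n, G n = z := by
    intro z hz
    have h1 : ∃ n, z ≤ G n := ⟨z, hGm.id_le z⟩
    have h2 := Nat.find_spec h1
    rcases hn : Nat.find h1 with _ | m
    · rw [hn] at h2
      refine ⟨0, le_antisymm ?_ h2⟩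
      rw [hG0]
      exact hnx2 0 z (Nat.zero_le _) hz
    · rw [hn] at h2
      have h3 : ¬ z ≤ G m := Nat.find_min h1 (by omega)
      refine ⟨m + 1, le_antisymm ?_ h2⟩
      rw [hGs]
      exact hnx2 _ z (by omega) hz
  refine ⟨fun n => (Nat.unpair (G n)).1, ?_, ?_, ?_⟩
  · exact Computable.fst.comp (Computable.unpair.comp hGc)
  · intro n m hnm
    simp only at hnm
    have hn := (hZ _).1 (hGZ n)
    have hm := (hZ _).1 (hGZ m)
    have hen := hWE _ _ (by exact hn.1)
    have hem := hWE _ _ (by exact hm.1)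
    have he : (Nat.unpair (G n)).1 = (Nat.unpair (G m)).1 := by
      rcases lt_trichotomy (Nat.unpair (G n)).1 (Nat.unpair (G m)).1 with h | h | h
      · exact absurd hnm (hem _ h)
      · exact h
      · exact absurd hnm.symm (hen _ h)
    have ht : (Nat.unpair (G n)).2 = (Nat.unpair (G m)).2 := by
      rcases lt_trichotomy (Nat.unpair (G n)).2 (Nat.unpair (G m)).2 with h | h | h
      · refine absurd ?_ (hm.2 _ h)
        rw [← he]; exact hn.1
      · exact h
      · refine absurd ?_ (hn.2 _ h)
        rw [he]; exact hm.1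
    have hz : G n = G m := by
      rw [← Nat.pair_unpair (G n), ← Nat.pair_unpair (G m), he, ht]
    exact hGm.injective hz
  · ext y
    constructor
    · rintro ⟨n, rfl⟩
      exact ⟨_, rfl⟩
    · rintro ⟨k, rfl⟩
      classical
      have h1 : ∃ e, c e = c k := ⟨k, rfl⟩
      obtain ⟨z, hz, hze⟩ := hEZ (Nat.find h1) (fun i hi heq =>
        Nat.find_min h1 hi (heq.trans (Nat.find_spec h1)))
      obtain ⟨n, hn⟩ := hGr z hz
      refine ⟨n, ?_⟩
      simp only [hn, hze]
      exact Nat.find_spec h1

end Pool.Agent.Helper583.TT.TTInj
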