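import Pool.Agent.Helper583.TTReenum

/-!
No infinite computable Polish space is topologically computably categorical.
-/

namespace Pool.Agent.Helper583.TT

open Filter Topology

/-- two presentations without a computable homeomorphism -/
theorem two_presentations {Y : Type} [MetricSpace Y] [CompleteSpace Y] [Infinite Y] {c : ℕ → Y}
    (hd : DenseRange c) (hinj : Function.Injective c)
    (hc : CR fun p : ℕ × ℕ => dist (c p.1) (c p.2)) :
    ∃ M N : CMS, Nonempty (M.Y ≃ₜ Y) ∧ Nonempty (N.Y ≃ₜ Y) ∧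
      ∀ h : M.Y ≃ₜ N.Y, ¬ (CompMap M N h ∧ CompMap N M h.symm) := by
  by_cases hiso : Dense {y : Y | IsOpen ({y} : Set Y)}
  · refine ⟨NA hd hc, MA hd hc, ?_, ?_, fun h hh => caseA hh.1 hh.2⟩
    · exact twin hd hinj hiso iN_finite hN_nonneg hN_lim
    · refine twin hd hinj hiso (fun n => ?_) (fun e => by positivity) pow_lim
      exact (Set.finite_singleton n).subset fun e he => he
  · obtain ⟨x, hx⟩ : ∃ x, x ∉ closure {y : Y | IsOpen ({y} : Set Y)} := by
      by_contra hcon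
      push Not at hcon
      exact hiso hcon
    have hopen : IsOpen (closure {y : Y | IsOpen ({y} : Set Y)})ᶜ := isClosed_closure.isOpen_compl
    obtain ⟨o, ho⟩ := hd.exists_mem_open hopen ⟨x, hx⟩
    obtain ⟨ε, hε, hε2⟩ := Metric.isOpen_iff.1 hopen (c o) ho
    obtain ⟨u, hu⟩ := exists_pow_lt_of_lt_one hε (show (1 / 2 : ℝ) < 1 by norm_num)
    rw [one_div_pow] at hu
    obtain ⟨G⟩ := exists_geo hd hinj hc o u (fun z hz hzo => by
      have h1 : z ∈ (closure {y : Y | IsOpen ({y} : Set Y)})ᶜ :=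
        hε2 (lt_trans (Metric.mem_ball.2 hz) hu)
      exact h1 (subset_closure hzo))
    exact ⟨G.N, G.M, ⟨gmHomeo⟩, ⟨gmHomeo⟩, fun h hh => G.caseB hh.1 hh.2⟩

/-- every infinite computable Polish space has two presentations without a computable
homeomorphism -/
theorem not_categorical (X : Type) [TopologicalSpace X] [Infinite X]
    (hX : ∃ M : CMS, Nonempty (M.Y ≃ₜ X)) :
    ∃ M N : CMS, Function.Injective M.c ∧ Function.Injective N.c ∧
      Nonempty (M.Y ≃ₜ X) ∧ Nonempty (N.Y ≃ₜ X) ∧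
      ∀ h : M.Y ≃ₜ N.Y, ¬ (CompMap M N h ∧ CompMap N M h.symm) := by
  obtain ⟨M₀, ⟨i₀⟩⟩ := hX
  have : Infinite M₀.Y := Infinite.of_injective i₀.symm i₀.symm.injective
  have hc := cr_of_comp M₀
  obtain ⟨g, hg, hinj, hr⟩ := TTInj.exists_inj M₀.c M₀.dense hc
  have hd : DenseRange fun n => M₀.c (g n) := dense_of_range hr M₀.dense
  have hc' : CR fun p : ℕ × ℕ => dist (M₀.c (g p.1)) (M₀.c (g p.2)) :=
    hc.comp ((hg.comp Computable.fst).pair (hg.comp Computable.snd) :
      Computable fun p : ℕ × ℕ => (g p.1, g p.2))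
  obtain ⟨M, N, ⟨iM⟩, ⟨iN⟩, hMN⟩ := two_presentations hd hinj hc'
  have : Infinite M.Y := Infinite.of_injective iM.symm iM.symm.injective
  have : Infinite N.Y := Infinite.of_injective iN.symm iN.symm.injective
  obtain ⟨M', j, hM1, hM2, hM3⟩ := reenum M inferInstance
  obtain ⟨N', k, hN1, hN2, hN3⟩ := reenum N inferInstance
  refine ⟨M', N', hM1, hN1, ⟨(j.trans iM).trans i₀⟩, ⟨(k.trans iN).trans i₀⟩, ?_⟩
  rintro h ⟨h1, h2⟩
  refine hMN ((j.symm.trans h).trans k) ⟨?_, ?_⟩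
  · exact hM2 N _ (hN3 M' _ h1)
  · exact hN2 M _ (hM3 N' _ h2)

end Pool.Agent.Helper583.TT
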