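import Pool.Agent.Helper583.TTBFin
import Pool.Agent.Helper583.TTInj

/-!
Injective enumerations, and the main theorem.
-/

namespace Pool.Agent.Helper583.TT

open Filter Topology

theorem dense_of_range {Y : Type} [TopologicalSpace Y] {c c' : ℕ → Y}
    (h : Set.range c' = Set.range c) (hd : DenseRange c) : DenseRange c' := by
  unfold DenseRange at *
  rw [h]
  exact hd

/-- a search for close points of the new enumeration -/
theorem exists_search {Y : Type} [MetricSpace Y] {c : ℕ → Y}
    (hc : CR fun p : ℕ × ℕ => dist (c p.1) (c p.2)) {g : ℕ → ℕ} (hg : Computable g)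
    (hd : DenseRange fun n => c (g n)) :
    ∃ s : ℕ × ℕ → ℕ, Computable s ∧ ∀ p, dist (c (g (s p))) (c p.1) ≤ 1 / 2 ^ (p.2 + 1) := by
  have h1 : CR fun a : (ℕ × ℕ) × ℕ => dist (c (g a.2)) (c a.1.1) :=
    hc.comp ((hg.comp Computable.snd).pair (Computable.fst.comp Computable.fst) :
      Computable fun a : (ℕ × ℕ) × ℕ => (g a.2, a.1.1))
  have h2 : Computable fun a : (ℕ × ℕ) × ℕ => a.1.2 + 1 :=
    Computable.succ.comp (Computable.snd.comp Computable.fst)
  obtain ⟨b, hb, hb2⟩ := h1.cmp h2
  have hex : ∀ p : ℕ × ℕ, ∃ m, b (p, m) = true := by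
    intro p
    obtain ⟨m, hm⟩ := Metric.denseRange_iff.1 hd (c p.1) (1 / 2 ^ (p.2 + 1) / 2) (by positivity)
    refine ⟨m, (hb2 (p, m)).1 ?_⟩
    rw [dist_comm]
    exact hm.le
  refine ⟨fun p => Nat.find (hex p), TTInj.comp_find_aux (fun p m => b (p, m)) hb hex, fun p => ?_⟩
  exact (hb2 (p, Nat.find (hex p))).2 (Nat.find_spec (hex p))

theorem computable_map {α : Type} [Primcodable α] {f : α → ℕ → ℕ}
    (hf : Computable fun p : α × ℕ => f p.1 p.2) {n : α → ℕ} (hn : Computable n) :
    Computable fun a => (List.range (n a)).map (f a) := by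
  have hh : Computable₂ fun (a : α) (p : ℕ × List ℕ) => p.2 ++ [f a p.1] := by
    have h1 : Computable fun p : α × (ℕ × List ℕ) => p.2.2 := Computable.snd.comp Computable.snd
    have h2 : Computable fun p : α × (ℕ × List ℕ) => f p.1 p.2.1 :=
      hf.comp (Computable.fst.pair (Computable.fst.comp Computable.snd))
    exact Computable.list_concat.comp h1 h2
  refine (Computable.nat_rec hn (Computable.const ([] : List ℕ)) hh).of_eq fun a => ?_
  induction n a with
  | zero => rfl
  | succ k ih =>
    rw [List.range_succ, List.map_append, List.map_singleton]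
    exact congrArg (fun l => l ++ [f a k]) ih

/-- the same space with an injective enumeration -/
theorem reenum (M : CMS) (hinf : Infinite M.Y) : ∃ (M' : CMS) (i : M'.Y ≃ₜ M.Y),
    Function.Injective M'.c ∧
    (∀ (N : CMS) (h : M'.Y → N.Y), CompMap M' N h → CompMap M N (h ∘ i.symm)) ∧
    (∀ (N : CMS) (h : N.Y → M'.Y), CompMap N M' h → CompMap N M (i ∘ h)) := by
  have hc := cr_of_comp M
  obtain ⟨g, hg, hinj, hr⟩ := TTInj.exists_inj M.c M.dense hc
  have hd : DenseRange fun n => M.c (g n) := dense_of_range hr M.dense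
  have hc' : CR fun p : ℕ × ℕ => dist (M.c (g p.1)) (M.c (g p.2)) :=
    hc.comp ((hg.comp Computable.fst).pair (hg.comp Computable.snd) :
      Computable fun p : ℕ × ℕ => (g p.1, g p.2))
  obtain ⟨s, hs, hs2⟩ := exists_search hc hg hd
  refine ⟨{ Y := M.Y, c := fun n => M.c (g n), dense := hd, comp := comp_of_cr hc' },
    Homeomorph.refl _, hinj, ?_, ?_⟩
  · rintro N h ⟨φ, hφ, hspec⟩
    have hT : Computable fun σ : List ℕ =>
        (List.range (σ.length - 1)).map fun j => s (σ.getD (j + 1) 0, j) :=
      computable_map (f := fun σ j => s (σ.getD (j + 1) 0, j))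
        (hs.comp (((Primrec.list_getD 0).comp Primrec.fst
          (Primrec.succ.comp Primrec.snd)).to_comp.pair Computable.snd))
        (Primrec.nat_sub.comp Primrec.list_length (Primrec.const 1)).to_comp
    refine ⟨fun a => φ ((List.range (a.1.length - 1)).map fun j => s (a.1.getD (j + 1) 0, j), a.2),
      hφ.comp ((hT.comp Computable.fst).pair Computable.snd), fun x p hp => ?_⟩
    have hp' : ∀ k, dist (M.c (g (s (p (k + 1), k)))) x ≤ 1 / 2 ^ k := by
      intro k
      have h1 := hs2 (p (k + 1), k)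
      have h2 := hp (k + 1)
      have h3 := pow_split k
      have h4 := dist_triangle (M.c (g (s (p (k + 1), k)))) (M.c (p (k + 1))) x
      simp only at h1
      linarith
    obtain ⟨q, hq, hq2⟩ := hspec x (fun k => s (p (k + 1), k)) hp'
    have hpre : ∀ k, (List.range ((pre p k).length - 1)).map
        (fun j => s ((pre p k).getD (j + 1) 0, j)) = pre (fun k => s (p (k + 1), k)) (k - 1) := by
      intro k
      rw [pre_length]
      unfold pre
      apply List.map_congr_left
      intro j hj
      rw [List.mem_range] at hj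
      have := pre_getD p (show j + 1 < k by omega)
      unfold pre at this
      rw [this]
    refine ⟨q, hq, fun n => ⟨?_, ?_⟩⟩
    · obtain ⟨k, hk⟩ := (hq2 n).1
      refine ⟨k + 1, ?_⟩
      simp only [hpre, Nat.add_sub_cancel]
      exact hk
    · intro k m hm
      simp only [hpre] at hm
      exact (hq2 n).2 _ m hm
  · rintro N h ⟨φ, hφ, hspec⟩
    refine ⟨fun a => (φ a).map g, hφ.map (hg.comp Computable.snd).to₂, fun x p hp => ?_⟩
    obtain ⟨q, hq, hq2⟩ := hspec x p hp
    refine ⟨fun n => g (q n), hq, fun n => ⟨?_, ?_⟩⟩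
    · obtain ⟨k, hk⟩ := (hq2 n).1
      exact ⟨k, Part.mem_map g hk⟩
    · intro k m hm
      obtain ⟨m', hm', rfl⟩ := (Part.mem_map_iff g).1 hm
      rw [(hq2 n).2 k m' hm']

end Pool.Agent.Helper583.TT
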