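import Pool.Agent.Helper583.TTStmt
import Pool.Agent.Helper583.TCJ2

/-!
Running functionals on finite words.
-/

namespace Pool.Agent.Helper583.TT

open Nat.Partrec (Code)
open Pool.Agent.Helper583.TC.J2 (srchO srchO_some srchO_ne primrec_srchO valsO valsO_succ
  primrec_valsO)

/-- evaluation of a coded program -/
def evl (t c : ℕ) (l : List ℕ) (n : ℕ) : Option ℕ :=
  Code.evaln t (Denumerable.ofNat Code c) (Encodable.encode (l, n))

/-- value computed by the program `c` within `σ.length` steps from some initial part of `σ` -/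
def rn (c : ℕ) (σ : List ℕ) (n : ℕ) : Option ℕ :=
  srchO (fun L => evl σ.length c (σ.take L) n) (σ.length + 1)

theorem primrec_evl {α : Type} [Primcodable α] {t c n : α → ℕ} {l : α → List ℕ} (ht : Primrec t)
    (hc : Primrec c) (hl : Primrec l) (hn : Primrec n) :
    Primrec fun a => evl (t a) (c a) (l a) (n a) := by
  unfold evl
  exact Nat.Partrec.Code.primrec_evaln.comp
    ((ht.pair ((Primrec.ofNat Code).comp hc)).pair (Primrec.encode.comp (hl.pair hn)))

theorem primrec_rn {α : Type} [Primcodable α] {c n : α → ℕ} {l : α → List ℕ}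
    (hc : Primrec c) (hl : Primrec l) (hn : Primrec n) :
    Primrec fun a => rn (c a) (l a) (n a) := by
  unfold rn
  refine primrec_srchO (f := fun a L => evl (l a).length (c a) ((l a).take L) (n a)) ?_
    (Primrec.succ.comp (Primrec.list_length.comp hl))
  exact primrec_evl (Primrec.list_length.comp (hl.comp Primrec.fst)) (hc.comp Primrec.fst)
    (Primrec.list_take.comp Primrec.snd (hl.comp Primrec.fst)) (hn.comp Primrec.fst)

/-- the program `c` computes `h` -/
def Rn (M N : CMS) (h : M.Y → N.Y) (c : ℕ) : Prop :=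
  ∀ x p, IsName M p x → ∃ q, IsName N q (h x) ∧
    (∀ L n m, rn c (pre p L) n = some m → m = q n) ∧
    ∀ n, ∃ L₀, ∀ L ≥ L₀, rn c (pre p L) n = some (q n)

theorem pre_length {A : Type} (p : ℕ → A) (L : ℕ) : (pre p L).length = L := by simp [pre]

theorem pre_take {A : Type} (x : ℕ → A) {m n : ℕ} (h : m ≤ n) : (pre x n).take m = pre x m := by
  simp [pre, ← List.map_take, List.take_range, Nat.min_eq_left h]

theorem pre_getD (p : ℕ → ℕ) {L i : ℕ} (h : i < L) : (pre p L).getD i 0 = p i := by
  simp [pre, h]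

theorem rn_of_comp {M N : CMS} {h : M.Y → N.Y} (hc : CompMap M N h) : ∃ c, Rn M N h c := by
  obtain ⟨φ, hφ, hspec⟩ := hc
  obtain ⟨c, hc⟩ := Code.exists_code.1 hφ
  have key : ∀ (l : List ℕ) (n m : ℕ),
      (m ∈ φ (l, n) ↔ ∃ t, evl t (Encodable.encode c) l n = some m) := by
    intro l n m
    have h1 : m ∈ c.eval (Encodable.encode (l, n)) ↔ m ∈ φ (l, n) := by
      rw [hc]
      simp
    rw [← h1, Code.evaln_complete]
    unfold evl
    rw [Denumerable.ofNat_encode]
    rfl
  refine ⟨Encodable.encode c, fun x p hp => ?_⟩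
  obtain ⟨q, hq, hq2⟩ := hspec x p hp
  have hsound : ∀ L n m, rn (Encodable.encode c) (pre p L) n = some m → m = q n := by
    intro L n m hm
    obtain ⟨k, hk, hk2⟩ := srchO_some _ _ _ hm
    rw [pre_length] at hk hk2
    rw [pre_take p (by omega)] at hk2
    exact (hq2 n).2 k m ((key _ _ _).2 ⟨_, hk2⟩)
  refine ⟨q, hq, hsound, fun n => ?_⟩
  obtain ⟨k, hk⟩ := (hq2 n).1
  obtain ⟨t, ht⟩ := (key _ _ _).1 hk
  refine ⟨max k t, fun L hL => ?_⟩
  have h1 : evl L (Encodable.encode c) ((pre p L).take k) n = some (q n) := by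
    rw [pre_take p (le_trans (le_max_left _ _) hL)]
    exact Nat.Partrec.Code.evaln_mono (le_trans (le_max_right _ _) hL) ht
  obtain ⟨v, hv⟩ := srchO_ne (fun u => evl (pre p L).length (Encodable.encode c)
    ((pre p L).take u) n) ((pre p L).length + 1) k (q n)
    (by rw [pre_length]; exact Nat.lt_succ_of_le (le_trans (le_max_left _ _) hL))
    (by simp only [pre_length]; exact h1)
  have h2 : rn (Encodable.encode c) (pre p L) n = some v := hv
  rw [h2, hsound L n v h2]

/-- a name extending a given word -/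
theorem exists_name (M : CMS) (x : M.Y) (σ : List ℕ)
    (hσ : ∀ j < σ.length, dist (M.c (σ.getD j 0)) x ≤ 1 / 2 ^ j) :
    ∃ p, IsName M p x ∧ pre p σ.length = σ := by
  have h1 : ∀ k : ℕ, ∃ i, dist (M.c i) x ≤ 1 / 2 ^ k := by
    intro k
    obtain ⟨i, hi⟩ := M.dense.exists_dist_lt x (show (0:ℝ) < 1 / 2 ^ k by positivity)
    exact ⟨i, by rw [dist_comm]; exact hi.le⟩
  choose f hf using h1
  refine ⟨fun j => if j < σ.length then σ.getD j 0 else f j, fun k => ?_, ?_⟩
  · by_cases h : k < σ.length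
    · simp only [h, if_true]; exact hσ k h
    · simp only [h, if_false]; exact hf k
  · apply List.ext_getElem
    · simp [pre]
    · intro i h1 h2
      simp [pre, h2]

theorem commit {M N : CMS} {h : M.Y → N.Y} {c : ℕ} (hr : Rn M N h c) (x : M.Y) {σ : List ℕ}
    (hσ : ∀ j < σ.length, dist (M.c (σ.getD j 0)) x ≤ 1 / 2 ^ j) {n m : ℕ}
    (hm : rn c σ n = some m) : dist (N.c m) (h x) ≤ 1 / 2 ^ n := by
  obtain ⟨p, hp, hps⟩ := exists_name M x σ hσ
  obtain ⟨q, hq, hq1, -⟩ := hr x p hp
  have := hq1 σ.length n m (by rw [hps]; exact hm)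
  rw [this]
  exact hq n

end Pool.Agent.Helper583.TT
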