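import Mathlib

/-!
Topological computable categoricity: the definitions used in the statement.
-/

namespace Pool.Agent.Helper583.TT

/-- The finite word of the first `n` values of `x`. -/
def pre {A : Type} (x : ℕ → A) (n : ℕ) : List A := (List.range n).map x

/-- A computable metric space together with its completion `Y`: a complete metric space with a
dense sequence whose mutual distances are uniformly computable reals. -/
structure CMS where
  Y : Type
  [ms : MetricSpace Y]
  [cs : CompleteSpace Y]
  c : ℕ → Y
  dense : DenseRange c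
  comp : ∃ q : ℕ × ℕ × ℕ → ℕ, Computable q ∧
    ∀ i j k, |dist (c i) (c j) - (q (i, j, k) : ℝ) / 2 ^ k| ≤ 1 / 2 ^ k

attribute [instance] CMS.ms CMS.cs

/-- `p` is a name of the point `x`. -/
def IsName (M : CMS) (p : ℕ → ℕ) (x : M.Y) : Prop := ∀ k, dist (M.c (p k)) x ≤ 1 / 2 ^ k

/-- The map `h` is computable: one functional sends every name of every point `x` to a name of
`h x`. -/
def CompMap (M N : CMS) (h : M.Y → N.Y) : Prop :=
  ∃ φ : List ℕ × ℕ →. ℕ, Partrec φ ∧
    ∀ x p, IsName M p x → ∃ q, IsName N q (h x) ∧
      ∀ n, (∃ k, q n ∈ φ (pre p k, n)) ∧ ∀ k m, m ∈ φ (pre p k, n) → m = q n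

end Pool.Agent.Helper583.TT
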