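import Pool.Agent.Helper583.TTCR2

namespace Pool.Agent.Helper583.TT

open Filter Topology

/-- a bump which is `1` on `[2^-ρ(k+1), 2^-ρ(k)]` and `0` outside `(2^-ρ(k+1)/2, 2·2^-ρ(k))` -/
noncomputable def bump (ρ : ℕ → ℕ) (k : ℕ) (δ : ℝ) : ℝ :=
  min 1 (min (max (2 * δ * 2 ^ ρ (k + 1) - 1) 0) (max (2 - δ * 2 ^ ρ k) 0))

/-- position as a function of the distance; `L` is the limit of the positions -/
noncomputable def theta (ρ : ℕ → ℕ) (pos : ℕ → ℝ) (L : ℝ) (δ : ℝ) : ℝ :=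
  if δ ≤ 0 then L else ⨆ k, min (pos k) (bump ρ k δ)

variable {ρ : ℕ → ℕ} {pos : ℕ → ℝ} {L : ℝ}

theorem mx_nonneg (f : ℕ → ℝ) (K : ℕ) : 0 ≤ mx f K := by
  induction K with
  | zero => exact le_refl _
  | succ n ih => exact le_trans ih (le_max_left _ _)

theorem le_mx (f : ℕ → ℝ) (K k : ℕ) (hk : k < K) : f k ≤ mx f K := by
  induction K with
  | zero => omega
  | succ n ih =>
    rcases Nat.lt_succ_iff_lt_or_eq.1 hk with h | h
    · exact le_trans (ih h) (le_max_left _ _)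
    · subst h; exact le_max_right _ _

theorem mx_le (f : ℕ → ℝ) (K : ℕ) (c : ℝ) (hc : 0 ≤ c) (h : ∀ k < K, f k ≤ c) : mx f K ≤ c := by
  induction K with
  | zero => exact hc
  | succ n ih => exact max_le (ih fun k hk => h k (by omega)) (h n (by omega))

theorem bump_nonneg (ρ : ℕ → ℕ) (k : ℕ) (δ : ℝ) : 0 ≤ bump ρ k δ :=
  le_min zero_le_one (le_min (le_max_right _ _) (le_max_right _ _))

theorem bump_le_one (ρ : ℕ → ℕ) (k : ℕ) (δ : ℝ) : bump ρ k δ ≤ 1 := min_le_left _ _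

theorem term_nonneg (h0 : ∀ k, 0 ≤ pos k) (k : ℕ) (δ : ℝ) : 0 ≤ min (pos k) (bump ρ k δ) :=
  le_min (h0 k) (bump_nonneg _ _ _)

theorem term_bdd (ρ : ℕ → ℕ) (pos : ℕ → ℝ) (δ : ℝ) :
    BddAbove (Set.range fun k => min (pos k) (bump ρ k δ)) := by
  refine ⟨1, ?_⟩
  rintro _ ⟨k, rfl⟩
  exact le_trans (min_le_right _ _) (bump_le_one _ _ _)

theorem bump_eq_zero_high (hρ : StrictMono ρ) {δ : ℝ} {K : ℕ} (hK : 2 / 2 ^ ρ K ≤ δ) {k : ℕ}
    (hk : K ≤ k) : bump ρ k δ = 0 := by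
  have hp : (0 : ℝ) < 2 ^ ρ K := by positivity
  have h1 : 2 ≤ δ * 2 ^ ρ K := by
    rwa [div_le_iff₀ hp] at hK
  have hδ : 0 < δ := lt_of_lt_of_le (by positivity) hK
  have h2 : (2 : ℝ) ^ ρ K ≤ 2 ^ ρ k := pow_le_pow_right₀ one_le_two (hρ.monotone hk)
  have h3 : 2 ≤ δ * 2 ^ ρ k := le_trans h1 (mul_le_mul_of_nonneg_left h2 hδ.le)
  unfold bump
  rw [max_eq_right (show 2 - δ * 2 ^ ρ k ≤ 0 by linarith), min_eq_right (le_max_right _ _),
    min_eq_right zero_le_one]

theorem bump_eq_zero_low {δ : ℝ} {k : ℕ} (hk : 2 * δ * 2 ^ ρ (k + 1) ≤ 1) : bump ρ k δ = 0 := by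
  unfold bump
  rw [max_eq_right (show 2 * δ * 2 ^ ρ (k + 1) - 1 ≤ 0 by linarith),
    min_eq_left (le_max_right _ _), min_eq_right zero_le_one]

theorem bump_eq_one {δ : ℝ} {k : ℕ} (h1 : 1 ≤ δ * 2 ^ ρ (k + 1)) (h2 : δ * 2 ^ ρ k ≤ 1) :
    bump ρ k δ = 1 := by
  unfold bump
  rw [min_eq_left]
  refine le_min (le_trans ?_ (le_max_left _ _)) (le_trans ?_ (le_max_left _ _))
  · nlinarith
  · linarith

theorem theta_mem (h0 : ∀ k, 0 ≤ pos k) (h1 : ∀ k, pos k ≤ 1) (hL : Tendsto pos atTop (𝓝 L))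
    (δ : ℝ) : 0 ≤ theta ρ pos L δ ∧ theta ρ pos L δ ≤ 1 := by
  unfold theta
  split_ifs with h
  · exact ⟨ge_of_tendsto' hL h0, le_of_tendsto' hL h1⟩
  · exact ⟨Real.iSup_nonneg fun k => term_nonneg h0 k δ,
      ciSup_le fun k => le_trans (min_le_right _ _) (bump_le_one _ _ _)⟩

/-- only finitely many bumps matter away from `0` -/
theorem theta_eq_mx (hρ : StrictMono ρ) (h0 : ∀ k, 0 ≤ pos k) (h1 : ∀ k, pos k ≤ 1) {δ : ℝ} {K : ℕ}
    (hK : 2 / 2 ^ ρ K ≤ δ) : theta ρ pos L δ = mx (fun k => min (pos k) (bump ρ k δ)) K := by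
  have hδ : 0 < δ := lt_of_lt_of_le (by positivity) hK
  unfold theta
  rw [if_neg (not_le.2 hδ)]
  apply le_antisymm
  · apply ciSup_le
    intro k
    rcases lt_or_ge k K with h | h
    · exact le_mx (fun k => min (pos k) (bump ρ k δ)) K k h
    · rw [bump_eq_zero_high hρ hK h, min_eq_right (h0 k)]
      exact mx_nonneg _ _
  · apply mx_le _ _ _ (Real.iSup_nonneg fun k => term_nonneg h0 k δ)
    intro k _
    exact le_ciSup (term_bdd ρ pos δ) k

/-- on the middle part of the `k`-th interval the position is `pos k` -/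
theorem theta_eq_pos (hρ : StrictMono ρ) (h0 : ∀ k, 0 ≤ pos k) (h1 : ∀ k, pos k ≤ 1) {δ : ℝ} {k : ℕ}
    (hk : 2 / 2 ^ ρ (k + 1) ≤ δ) (hk' : δ ≤ 1 / 2 ^ ρ k / 2) : theta ρ pos L δ = pos k := by
  have hδ : 0 < δ := lt_of_lt_of_le (by positivity) hk
  have h2 : 2 * δ * 2 ^ ρ k ≤ 1 := by
    have hp : (0 : ℝ) < 2 ^ ρ k := by positivity
    rw [div_div, le_div_iff₀ (by positivity)] at hk'
    linarith
  have h3 : 2 ≤ δ * 2 ^ ρ (k + 1) := by
    rwa [div_le_iff₀ (by positivity)] at hk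
  have hone : bump ρ k δ = 1 := by
    apply bump_eq_one
    · linarith
    · have : 0 < δ * 2 ^ ρ k := by positivity
      linarith
  unfold theta
  rw [if_neg (not_le.2 hδ)]
  apply le_antisymm
  · apply ciSup_le
    intro j
    rcases lt_trichotomy j k with h | h | h
    · rw [bump_eq_zero_low, min_eq_right (h0 j)]
      · exact h0 k
      · have h4 : (2 : ℝ) ^ ρ (j + 1) ≤ 2 ^ ρ k := pow_le_pow_right₀ one_le_two (hρ.monotone h)
        exact le_trans (mul_le_mul_of_nonneg_left h4 (by positivity)) h2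
    · subst h
      exact min_le_left _ _
    · rw [bump_eq_zero_high hρ hk h, min_eq_right (h0 j)]
      exact h0 k
  · have := le_ciSup (term_bdd ρ pos δ) k
    simp only [hone] at this
    rwa [min_eq_left (h1 k)] at this

theorem theta_eq_zero (hρ : StrictMono ρ) (h0 : ∀ k, 0 ≤ pos k) (h1 : ∀ k, pos k ≤ 1) {δ : ℝ}
    (hδ : 2 / 2 ^ ρ 0 ≤ δ) : theta ρ pos L δ = 0 := by
  rw [theta_eq_mx hρ h0 h1 hδ]
  rfl

/-- if the first positions are zero then the position vanishes away from `0` -/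
theorem theta_eq_zero_of (hρ : StrictMono ρ) (h0 : ∀ k, 0 ≤ pos k) (h1 : ∀ k, pos k ≤ 1) {δ : ℝ}
    {K : ℕ} (hK : 2 / 2 ^ ρ K ≤ δ) (hz : ∀ k < K, pos k = 0) : theta ρ pos L δ = 0 := by
  rw [theta_eq_mx hρ h0 h1 hK]
  apply le_antisymm _ (mx_nonneg _ _)
  apply mx_le _ _ _ le_rfl
  intro k hk
  rw [hz k hk]
  exact min_le_left _ _

theorem bump_continuous (ρ : ℕ → ℕ) (k : ℕ) : Continuous (bump ρ k) := by
  unfold bump
  fun_prop

theorem mx_continuous (g : ℕ → ℝ → ℝ) (hg : ∀ k, Continuous (g k)) (K : ℕ) :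
    Continuous (fun δ => mx (fun k => g k δ) K) := by
  induction K with
  | zero => exact continuous_const
  | succ n ih => exact ih.max (hg n)

theorem tendsto_two_pow (hρ : StrictMono ρ) {δ : ℝ} (hδ : 0 < δ) : ∃ K, 2 / 2 ^ ρ K < δ := by
  obtain ⟨n, hn⟩ := exists_pow_lt_of_lt_one (show (0 : ℝ) < δ / 2 by positivity)
    (show (1 / 2 : ℝ) < 1 by norm_num)
  refine ⟨n, ?_⟩
  have h1 : (2 : ℝ) ^ n ≤ 2 ^ ρ n := pow_le_pow_right₀ one_le_two (hρ.id_le n)
  have h2 : (2 : ℝ) / 2 ^ ρ n ≤ 2 / 2 ^ n := by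
    apply div_le_div_of_nonneg_left (by norm_num) (by positivity) h1
  rw [one_div, inv_pow] at hn
  have h3 : (2 : ℝ) / 2 ^ n = 2 * (2 ^ n)⁻¹ := div_eq_mul_inv _ _
  linarith

theorem theta_continuous (hρ : StrictMono ρ) (h0 : ∀ k, 0 ≤ pos k) (h1 : ∀ k, pos k ≤ 1)
    (hL : Tendsto pos atTop (𝓝 L)) : ContinuousOn (theta ρ pos L) (Set.Ici 0) := by
  intro δ₀ hδ₀
  rcases eq_or_lt_of_le (show (0 : ℝ) ≤ δ₀ from hδ₀) with h | h
  · subst h
    rw [Metric.continuousWithinAt_iff]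
    intro ε hε
    obtain ⟨K, hK⟩ := Metric.tendsto_atTop.1 hL (ε / 2) (by positivity)
    have hL0 : 0 ≤ L := ge_of_tendsto' hL h0
    refine ⟨1 / 2 ^ ρ (K + 1), by positivity, ?_⟩
    intro δ hδ hd
    rw [Real.dist_eq, sub_zero] at hd
    have hδ' : (0 : ℝ) ≤ δ := hδ
    rw [abs_of_nonneg hδ'] at hd
    have hL' : theta ρ pos L 0 = L := by
      unfold theta
      rw [if_pos le_rfl]
    rw [hL']
    rcases eq_or_lt_of_le hδ' with h | h
    · subst h
      rw [hL', dist_self]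
      exact hε
    · -- the index whose bump is one
      have hex : ∃ m, 1 / 2 ^ ρ m ≤ δ := by
        obtain ⟨m, hm⟩ := tendsto_two_pow hρ h
        refine ⟨m, le_trans ?_ hm.le⟩
        exact div_le_div_of_nonneg_right (by norm_num) (by positivity)
      classical
      have hm := Nat.find_spec hex
      have hm' := fun k (hk : k < Nat.find hex) => Nat.find_min hex hk
      set m := Nat.find hex
      have hmK : K + 1 < m := by
        by_contra hcon
        push Not at hcon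
        have h4 : (2 : ℝ) ^ ρ m ≤ 2 ^ ρ (K + 1) :=
          pow_le_pow_right₀ one_le_two (hρ.monotone hcon)
        have h5 : (1 : ℝ) / 2 ^ ρ (K + 1) ≤ 1 / 2 ^ ρ m :=
          div_le_div_of_nonneg_left (by norm_num) (by positivity) h4
        linarith
      obtain ⟨k, hk⟩ : ∃ k, m = k + 1 := ⟨m - 1, by omega⟩
      have hkK : K ≤ k := by omega
      have hk1 := hm' k (by omega)
      rw [hk] at hm
      push Not at hk1
      have hone : bump ρ k δ = 1 := by
        apply bump_eq_one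
        · rwa [div_le_iff₀ (by positivity)] at hm
        · rw [lt_div_iff₀ (by positivity)] at hk1
          exact hk1.le
      have hlow : pos k ≤ theta ρ pos L δ := by
        unfold theta
        rw [if_neg (not_le.2 h)]
        have := le_ciSup (term_bdd ρ pos δ) k
        simp only [hone] at this
        rwa [min_eq_left (h1 k)] at this
      have hup : theta ρ pos L δ ≤ L + ε / 2 := by
        unfold theta
        rw [if_neg (not_le.2 h)]
        apply ciSup_le
        intro j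
        rcases lt_or_ge j K with hj | hj
        · rw [bump_eq_zero_low, min_eq_right (h0 j)]
          · positivity
          · have h4 : (2 : ℝ) ^ ρ (j + 1) ≤ 2 ^ ρ K :=
              pow_le_pow_right₀ one_le_two (hρ.monotone hj)
            have h5 : (2 : ℝ) ^ (ρ K + 1) ≤ 2 ^ ρ (K + 1) :=
              pow_le_pow_right₀ one_le_two (hρ (Nat.lt_succ_self K))
            rw [lt_div_iff₀ (by positivity)] at hd
            rw [pow_succ] at h5
            have h6 : δ * 2 ^ ρ (j + 1) ≤ δ * 2 ^ ρ K := mul_le_mul_of_nonneg_left h4 hδ'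
            have h7 : δ * (2 ^ ρ K * 2) ≤ δ * 2 ^ ρ (K + 1) := mul_le_mul_of_nonneg_left h5 hδ'
            linarith
        · refine le_trans (min_le_left _ _) ?_
          have := hK j hj
          rw [Real.dist_eq, abs_lt] at this
          linarith [this.2]
      have hk2 := hK k hkK
      rw [Real.dist_eq, abs_lt] at hk2
      rw [Real.dist_eq, abs_lt]
      constructor <;> linarith [hk2.1, hk2.2]
  · obtain ⟨K, hK⟩ := tendsto_two_pow hρ h
    apply ContinuousAt.continuousWithinAt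
    have hev : (fun δ => mx (fun k => min (pos k) (bump ρ k δ)) K) =ᶠ[𝓝 δ₀] theta ρ pos L := by
      filter_upwards [lt_mem_nhds hK] with δ hδ
      exact (theta_eq_mx hρ h0 h1 hδ.le).symm
    refine ContinuousAt.congr ?_ hev
    exact (mx_continuous (fun k δ => min (pos k) (bump ρ k δ))
      (fun k => continuous_const.min (bump_continuous ρ k)) K).continuousAt

end Pool.Agent.Helper583.TT
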