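import Pool.Agent.Helper583.WDPos3

/-!
Enumerating the equivalence relation generated by a computable sequence of edges; the product of
choice on the numbers and DIAG reduces to DIAG.
-/

namespace Pool.Agent.Helper583.WD

section Gen

variable (Ed : (ℕ → ℕ) → ℕ → ℕ → ℕ → Prop)

/-- Symmetric version. -/
def GS (p : ℕ → ℕ) (i a b : ℕ) : Prop := Ed p i a b ∨ Ed p i b a

open Classical in
/-- One step of a walk. -/
noncomputable def gwalk (p : ℕ → ℕ) (B cur : ℕ) (s : ℕ × ℕ) : ℕ :=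
  if s.1 < B ∧ GS Ed p s.1 cur s.2 then s.2 else cur

/-- The enumeration of the equivalence relation generated by the edges. -/
noncomputable def genum (p : ℕ → ℕ) (k : ℕ) : ℕ :=
  Nat.pair k.unpair.1.unpair.1 ((Denumerable.ofNat (List (ℕ × ℕ)) k.unpair.2).foldl
    (gwalk Ed p k.unpair.1.unpair.2) k.unpair.1.unpair.1)

/-- The reflexive and transitive closure. -/
def GConn (p : ℕ → ℕ) : ℕ → ℕ → Prop := Relation.ReflTransGen (fun a b => ∃ i, GS Ed p i a b)

variable {Ed}

theorem gwalk_congr (hEd : ∀ p q i a b, (∀ j < 2 * i + 2, p j = q j) → (Ed p i a b ↔ Ed q i a b))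
    {p q : ℕ → ℕ} {B : ℕ} (h : ∀ j < 2 * B, p j = q j) (cur : ℕ) (s : ℕ × ℕ) :
    gwalk Ed p B cur s = gwalk Ed q B cur s := by
  unfold gwalk
  by_cases hs : s.1 < B
  · have h1 : GS Ed p s.1 cur s.2 ↔ GS Ed q s.1 cur s.2 := by
      unfold GS
      rw [hEd p q _ _ _ (fun j hj => h j (by omega)), hEd p q _ _ _ (fun j hj => h j (by omega))]
    by_cases h2 : GS Ed p s.1 cur s.2
    · rw [if_pos ⟨hs, h2⟩, if_pos ⟨hs, h1.1 h2⟩]
    · rw [if_neg (fun h' => h2 h'.2), if_neg (fun h' => h2 (h1.2 h'.2))]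
  · rw [if_neg (fun h' => hs h'.1), if_neg (fun h' => hs h'.1)]

theorem genum_congr (hEd : ∀ p q i a b, (∀ j < 2 * i + 2, p j = q j) → (Ed p i a b ↔ Ed q i a b))
    {p q : ℕ → ℕ} {k : ℕ} (h : ∀ j < 2 * k.unpair.1.unpair.2, p j = q j) :
    genum Ed p k = genum Ed q k := by
  unfold genum
  congr 1
  apply List.foldl_ext
  intro a b _
  exact gwalk_congr hEd h a b

theorem gconn_symm {p : ℕ → ℕ} {a b : ℕ} (h : GConn Ed p a b) : GConn Ed p b a := by
  induction h with
  | refl => exact Relation.ReflTransGen.refl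
  | tail _ hyz ih =>
    obtain ⟨i, hi⟩ := hyz
    exact Relation.ReflTransGen.head ⟨i, hi.symm⟩ ih

theorem gconn_walk (p : ℕ → ℕ) (B : ℕ) (L : List (ℕ × ℕ)) (x : ℕ) :
    GConn Ed p x (L.foldl (gwalk Ed p B) x) := by
  classical
  induction L generalizing x with
  | nil => exact Relation.ReflTransGen.refl
  | cons s L ih =>
    rw [List.foldl_cons]
    refine Relation.ReflTransGen.trans ?_ (ih _)
    unfold gwalk
    split_ifs with h
    · exact Relation.ReflTransGen.single ⟨s.1, h.2⟩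
    · exact Relation.ReflTransGen.refl

theorem gwalk_conn {p : ℕ → ℕ} {x z : ℕ} (h : GConn Ed p x z) :
    ∃ B, ∃ L : List (ℕ × ℕ), (∀ s ∈ L, s.1 < B) ∧ L.foldl (gwalk Ed p B) x = z := by
  classical
  induction h with
  | refl => exact ⟨0, [], by simp, rfl⟩
  | @tail y z _ hyz ih =>
    obtain ⟨B, L, hL, hy⟩ := ih
    obtain ⟨i, hi⟩ := hyz
    refine ⟨max B (i + 1), L ++ [(i, z)], ?_, ?_⟩
    · intro s hs
      rcases List.mem_append.1 hs with h | h
      · exact lt_of_lt_of_le (hL s h) (le_max_left _ _)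
      · rw [List.mem_singleton.1 h]
        exact lt_of_lt_of_le (Nat.lt_succ_self i) (le_max_right _ _)
    · rw [List.foldl_append]
      have h1 : L.foldl (gwalk Ed p (max B (i + 1))) x = L.foldl (gwalk Ed p B) x := by
        apply List.foldl_ext
        intro a b hb
        have h2 := hL b hb
        have h3 : b.1 < max B (i + 1) := lt_of_lt_of_le h2 (le_max_left _ _)
        simp only [gwalk, h2, h3, true_and]
      rw [h1, hy]
      have h4 : i < max B (i + 1) := lt_of_lt_of_le (Nat.lt_succ_self i) (le_max_right _ _)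
      simp only [List.foldl_cons, List.foldl_nil, gwalk, h4, hi, true_and, if_true]

theorem rel_genum (p : ℕ → ℕ) (x z : ℕ) : Rel (genum Ed p) x z ↔ GConn Ed p x z := by
  constructor
  · rintro ⟨k, hk⟩
    have := Nat.pair_eq_pair.1 hk
    rw [← this.2, ← this.1]
    exact gconn_walk p _ _ _
  · intro h
    obtain ⟨B, L, -, hL⟩ := gwalk_conn h
    refine ⟨Nat.pair (Nat.pair x B) (Encodable.encode L), ?_⟩
    simp only [genum, Nat.unpair_pair, Denumerable.ofNat_encode, hL]

theorem gconn_le {p : ℕ → ℕ} {r : ℕ → ℕ → Prop} (hr : Equivalence r)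
    (h : ∀ i a b, Ed p i a b → r a b) {a b : ℕ} (hab : GConn Ed p a b) : r a b := by
  induction hab with
  | refl => exact hr.refl _
  | tail _ hyz ih =>
    obtain ⟨i, hi | hi⟩ := hyz
    · exact hr.trans ih (h i _ _ hi)
    · exact hr.trans ih (hr.symm (h i _ _ hi))

theorem genum_equiv (p : ℕ → ℕ) : Equivalence (Rel (genum Ed p)) := by
  refine ⟨fun x => ?_, fun {x y} h => ?_, fun {x y z} h h' => ?_⟩
  · rw [rel_genum]; exact Relation.ReflTransGen.refl
  · rw [rel_genum] at *; exact gconn_symm h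
  · rw [rel_genum] at *; exact Relation.ReflTransGen.trans h h'

theorem primrec_genum
    (hP : PrimrecPred fun x : (List ℕ × ℕ) × (ℕ × ℕ) => Ed (tf x.1.1) x.1.2 x.2.1 x.2.2) :
    Primrec fun a : List ℕ × ℕ => genum Ed (tf a.1) a.2 := by
  classical
  have hw : Primrec fun x : (List ℕ × ℕ) × (ℕ × (ℕ × ℕ)) =>
      gwalk Ed (tf x.1.1) x.1.2.unpair.1.unpair.2 x.2.1 x.2.2 := by
    unfold gwalk
    have h1 : Primrec fun x : (List ℕ × ℕ) × (ℕ × (ℕ × ℕ)) => x.1.1 :=
      Primrec.fst.comp Primrec.fst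
    have h2 : Primrec fun x : (List ℕ × ℕ) × (ℕ × (ℕ × ℕ)) => x.1.2.unpair.1.unpair.2 :=
      Primrec.snd.comp (Primrec.unpair.comp (Primrec.fst.comp (Primrec.unpair.comp
        (Primrec.snd.comp Primrec.fst))))
    have h3 : Primrec fun x : (List ℕ × ℕ) × (ℕ × (ℕ × ℕ)) => x.2.1 :=
      Primrec.fst.comp Primrec.snd
    have h4 : Primrec fun x : (List ℕ × ℕ) × (ℕ × (ℕ × ℕ)) => x.2.2.1 :=
      Primrec.fst.comp (Primrec.snd.comp Primrec.snd)
    have h5 : Primrec fun x : (List ℕ × ℕ) × (ℕ × (ℕ × ℕ)) => x.2.2.2 :=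
      Primrec.snd.comp (Primrec.snd.comp Primrec.snd)
    have h6 : PrimrecPred fun x : (List ℕ × ℕ) × (ℕ × (ℕ × ℕ)) =>
        GS Ed (tf x.1.1) x.2.2.1 x.2.1 x.2.2.2 :=
      PrimrecPred.or (hP.comp ((h1.pair h4).pair (h3.pair h5)))
        (hP.comp ((h1.pair h4).pair (h5.pair h3)))
    exact Primrec.ite (PrimrecPred.and (Primrec.nat_lt.comp h4 h2) h6) h5 h3
  unfold genum
  have h1 : Primrec fun a : List ℕ × ℕ => a.2.unpair.1.unpair.1 :=
    Primrec.fst.comp (Primrec.unpair.comp (Primrec.fst.comp (Primrec.unpair.comp Primrec.snd)))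
  have h2 : Primrec fun a : List ℕ × ℕ => Denumerable.ofNat (List (ℕ × ℕ)) a.2.unpair.2 :=
    (Primrec.ofNat _).comp (Primrec.snd.comp (Primrec.unpair.comp Primrec.snd))
  exact Primrec₂.natPair.comp h1 (Primrec.list_foldl (h := fun (a : List ℕ × ℕ)
    (x : ℕ × (ℕ × ℕ)) => gwalk Ed (tf a.1) a.2.unpair.1.unpair.2 x.1 x.2) h2 h1 hw)

end Gen

/-- The last stage at which the guess has changed. -/
noncomputable def act (c : ℕ → ℕ) : ℕ → ℕ
  | 0 => 0
  | s + 1 => open Classical in if Chg c s then s + 1 else act c s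

theorem act_succ_of_chg {c : ℕ → ℕ} {s : ℕ} (h : Chg c s) : act c (s + 1) = s + 1 := by
  rw [act]; exact if_pos h

theorem act_succ_of_not {c : ℕ → ℕ} {s : ℕ} (h : ¬ Chg c s) : act c (s + 1) = act c s := by
  rw [act]; exact if_neg h

theorem act_le (c : ℕ → ℕ) (s : ℕ) : act c s ≤ s := by
  induction s with
  | zero => exact le_rfl
  | succ s ih =>
    by_cases h : Chg c s
    · rw [act_succ_of_chg h]
    · rw [act_succ_of_not h]; omega

theorem act_congr {c c' : ℕ → ℕ} {s : ℕ} (h : ∀ k < s, c k = c' k) : act c s = act c' s := by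
  induction s with
  | zero => rfl
  | succ s ih =>
    have h1 := chg_congr (c := c) (c' := c') (s := s) (fun k hk => h k hk)
    by_cases hc : Chg c s
    · rw [act_succ_of_chg hc, act_succ_of_chg (h1.1 hc)]
    · rw [act_succ_of_not hc, act_succ_of_not (fun h' => hc (h1.2 h')),
        ih (fun k hk => h k (by omega))]

theorem act_between {c : ℕ → ℕ} (s : ℕ) : ∀ i, act c s ≤ i → i ≤ s →
    act c i = act c s ∧ gs c i = gs c s := by
  induction s with
  | zero =>
    intro i _ hi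
    have : i = 0 := by omega
    subst this
    exact ⟨rfl, rfl⟩
  | succ s ih =>
    intro i hi his
    rcases Nat.eq_or_lt_of_le his with h | h
    · rw [h]; exact ⟨rfl, rfl⟩
    · by_cases hc : Chg c s
      · rw [act_succ_of_chg hc] at hi
        omega
      · rw [act_succ_of_not hc] at hi ⊢
        rw [gs_succ_of_not hc]
        exact ih i hi (by omega)

theorem exists_final {c : ℕ → ℕ} (hc : ∃ N, ∀ k, c k ≠ N + 1) :
    ∃ T, (∀ i < T, act c i < T) ∧ (∀ i ≥ T, act c i = T) ∧ ∀ k, c k ≠ gs c T + 1 := by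
  obtain ⟨N, hN⟩ := hc
  obtain ⟨s0, hs0⟩ := exists_stable hN
  have h1 : ∀ i ≥ s0, act c i = act c s0 := by
    intro i hi
    induction i, hi using Nat.le_induction with
    | base => rfl
    | succ i hi ih => rw [act_succ_of_not (hs0 i hi), ih]
  have h2 : ∀ i ≥ s0, gs c i = gs c s0 := gs_const hs0
  have h3 := act_le c s0
  refine ⟨act c s0, fun i hi => lt_of_le_of_lt (act_le c i) hi, fun i hi => ?_, fun k hk => ?_⟩
  · rcases le_total s0 i with h | h
    · exact h1 i h
    · exact (act_between s0 i hi h).1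
  · rw [(act_between s0 (act c s0) le_rfl h3).2] at hk
    apply hs0 (max s0 k) (le_max_left _ _)
    exact ⟨k, Nat.lt_succ_of_le (le_max_right _ _), by rw [h2 _ (le_max_left _ _)]; exact hk⟩

/-- The edges: copies of the given equivalence relation, the active copy absorbing all others. -/
def AEd (p : ℕ → ℕ) (i a b : ℕ) : Prop :=
  (a ≠ 0 ∧ b ≠ 0 ∧ (a - 1).unpair.1 = act (fun k => p (2 * k)) i ∧
      (b - 1).unpair.1 = act (fun k => p (2 * k)) i ∧
      ∃ j < i + 1, p (2 * j + 1) = Nat.pair (a - 1).unpair.2 (b - 1).unpair.2) ∨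
    (b = Nat.pair (act (fun k => p (2 * k)) i) 0 + 1 ∧ a ≤ i ∧
      (a = 0 ∨ (a - 1).unpair.1 ≠ act (fun k => p (2 * k)) i))

theorem aed_congr (p q : ℕ → ℕ) (i a b : ℕ) (h : ∀ j < 2 * i + 2, p j = q j) :
    AEd p i a b ↔ AEd q i a b := by
  have h1 : act (fun k => p (2 * k)) i = act (fun k => q (2 * k)) i :=
    act_congr (fun k hk => h _ (by omega))
  have h2 : (∃ j < i + 1, p (2 * j + 1) = Nat.pair (a - 1).unpair.2 (b - 1).unpair.2) ↔
      ∃ j < i + 1, q (2 * j + 1) = Nat.pair (a - 1).unpair.2 (b - 1).unpair.2 := by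
    constructor
    · rintro ⟨j, hj, h'⟩
      exact ⟨j, hj, by rwa [← h _ (by omega)]⟩
    · rintro ⟨j, hj, h'⟩
      exact ⟨j, hj, by rwa [h _ (by omega)]⟩
  unfold AEd
  rw [h1, h2]

theorem primrec_act : Primrec fun a : List ℕ × ℕ => act (fun k => tf a.1 (2 * k)) a.2 := by
  classical
  have hstep : Primrec₂ fun (a : List ℕ × ℕ) (x : ℕ × ℕ) =>
      if Chg (fun k => tf a.1 (2 * k)) x.1 then x.1 + 1 else x.2 := by
    refine Primrec.ite ?_ (Primrec.succ.comp (Primrec.fst.comp Primrec.snd))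
      (Primrec.snd.comp Primrec.snd)
    exact primrec_chg.comp ((Primrec.fst.comp Primrec.fst).pair (Primrec.fst.comp Primrec.snd))
  refine (Primrec.nat_rec' (f := fun a : List ℕ × ℕ => a.2) (g := fun _ => 0)
    Primrec.snd (Primrec.const 0) hstep).of_eq ?_
  rintro ⟨w, s⟩
  induction s with
  | zero => rfl
  | succ s ih =>
    simp only at ih ⊢
    by_cases hc : Chg (fun k => tf w (2 * k)) s
    · rw [act_succ_of_chg hc, if_pos hc]
    · rw [act_succ_of_not hc, if_neg hc, ← ih]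

theorem primrec_aed :
    PrimrecPred fun x : (List ℕ × ℕ) × (ℕ × ℕ) => AEd (tf x.1.1) x.1.2 x.2.1 x.2.2 := by
  unfold AEd
  have hw : Primrec fun x : (List ℕ × ℕ) × (ℕ × ℕ) => x.1.1 := Primrec.fst.comp Primrec.fst
  have hi : Primrec fun x : (List ℕ × ℕ) × (ℕ × ℕ) => x.1.2 := Primrec.snd.comp Primrec.fst
  have ha : Primrec fun x : (List ℕ × ℕ) × (ℕ × ℕ) => x.2.1 := Primrec.fst.comp Primrec.snd
  have hb : Primrec fun x : (List ℕ × ℕ) × (ℕ × ℕ) => x.2.2 := Primrec.snd.comp Primrec.snd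
  have hact : Primrec fun x : (List ℕ × ℕ) × (ℕ × ℕ) => act (fun k => tf x.1.1 (2 * k)) x.1.2 :=
    primrec_act.comp (hw.pair hi)
  have ha' : Primrec fun x : (List ℕ × ℕ) × (ℕ × ℕ) => (x.2.1 - 1).unpair :=
    Primrec.unpair.comp (Primrec.nat_sub.comp ha (Primrec.const 1))
  have hb' : Primrec fun x : (List ℕ × ℕ) × (ℕ × ℕ) => (x.2.2 - 1).unpair :=
    Primrec.unpair.comp (Primrec.nat_sub.comp hb (Primrec.const 1))
  refine PrimrecPred.or (PrimrecPred.and (PrimrecPred.not (Primrec.eq.comp ha (Primrec.const 0)))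
    (PrimrecPred.and (PrimrecPred.not (Primrec.eq.comp hb (Primrec.const 0)))
    (PrimrecPred.and (Primrec.eq.comp (Primrec.fst.comp ha') hact)
    (PrimrecPred.and (Primrec.eq.comp (Primrec.fst.comp hb') hact) ?_))))
    (PrimrecPred.and (Primrec.eq.comp hb (Primrec.succ.comp (Primrec₂.natPair.comp hact
      (Primrec.const 0)))) (PrimrecPred.and (Primrec.nat_le.comp ha hi)
      (PrimrecPred.or (Primrec.eq.comp ha (Primrec.const 0))
        (PrimrecPred.not (Primrec.eq.comp (Primrec.fst.comp ha') hact)))))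
  refine ex_lt (R := fun j (x : (List ℕ × ℕ) × (ℕ × ℕ)) => tf x.1.1 (2 * j + 1) =
    Nat.pair (x.2.1 - 1).unpair.2 (x.2.2 - 1).unpair.2) ?_ (Primrec.succ.comp hi)
  exact Primrec.eq.comp (primrec_tf (hw.comp Primrec.snd) (Primrec.succ.comp
    (Primrec.nat_mul.comp (Primrec.const 2) Primrec.fst)))
    (Primrec₂.natPair.comp (Primrec.snd.comp (ha'.comp Primrec.snd))
      (Primrec.snd.comp (hb'.comp Primrec.snd)))

end Pool.Agent.Helper583.WD
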