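import Pool.Agent.Helper583.WDAb1

/-!
The product of choice on the numbers and DIAG reduces to DIAG.
-/

namespace Pool.Agent.Helper583.WD

open Classical in
/-- The element of the original relation represented by a number, for the final copy `T`. -/
noncomputable def proj (T w : ℕ) : ℕ :=
  if w ≠ 0 ∧ (w - 1).unpair.1 = T then (w - 1).unpair.2 else 0

theorem proj_pair (T x : ℕ) : proj T (Nat.pair T x + 1) = x := by
  unfold proj
  rw [Nat.add_sub_cancel, Nat.unpair_pair]
  simp

theorem proj_other {T w : ℕ} (h : w = 0 ∨ (w - 1).unpair.1 ≠ T) : proj T w = 0 := by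
  unfold proj
  rw [if_neg]
  rintro ⟨h1, h2⟩
  rcases h with h | h
  · exact h1 h
  · exact h h2

theorem aconn_iff {p : ℕ → ℕ} {T : ℕ} (hT1 : ∀ i < T, act (fun k => p (2 * k)) i < T)
    (hT2 : ∀ i ≥ T, act (fun k => p (2 * k)) i = T) (he : Equivalence (Rel (right p))) (a b : ℕ) :
    GConn AEd p a b ↔ Rel (right p) (proj T a) (proj T b) := by
  have hr : Equivalence fun a b => Rel (right p) (proj T a) (proj T b) :=
    ⟨fun _ => he.refl _, fun h => he.symm h, fun h h' => he.trans h h'⟩
  constructor
  · refine gconn_le (Ed := AEd) hr fun i a b hab => ?_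
    rcases hab with ⟨ha, hb, ha', hb', j, -, hj⟩ | ⟨hb, hai, ha⟩
    · by_cases hi : i < T
      · have h1 := hT1 i hi
        rw [proj_other (T := T) (w := a) (Or.inr (by omega)),
          proj_other (T := T) (w := b) (Or.inr (by omega))]
        exact he.refl 0
      · have h1 := hT2 i (not_lt.1 hi)
        rw [h1] at ha' hb'
        unfold proj
        rw [if_pos ⟨ha, ha'⟩, if_pos ⟨hb, hb'⟩]
        exact ⟨j, hj⟩
    · by_cases hi : i < T
      · have h1 := hT1 i hi
        have h2 : proj T a = 0 := by
          apply proj_other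
          by_cases h0 : a = 0
          · exact Or.inl h0
          · refine Or.inr fun h => ?_
            have := Nat.unpair_left_le (a - 1)
            omega
        have h3 : proj T b = 0 := by
          apply proj_other
          refine Or.inr ?_
          rw [hb, Nat.add_sub_cancel, Nat.unpair_pair]
          simp only
          omega
        rw [h2, h3]
        exact he.refl 0
      · have h1 := hT2 i (not_lt.1 hi)
        rw [h1] at hb ha
        rw [proj_other ha, hb, proj_pair]
        exact he.refl 0
  · intro h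
    have key : ∀ w, GConn AEd p w (Nat.pair T (proj T w) + 1) := by
      intro w
      by_cases hw : w ≠ 0 ∧ (w - 1).unpair.1 = T
      · have h1 : Nat.pair T (proj T w) + 1 = w := by
          unfold proj
          rw [if_pos hw, ← hw.2, Nat.pair_unpair]
          omega
        rw [h1]
        exact Relation.ReflTransGen.refl
      · have h2 : w = 0 ∨ (w - 1).unpair.1 ≠ T := by
          by_contra hcon
          push Not at hcon
          exact hw hcon
        rw [proj_other h2]
        refine Relation.ReflTransGen.single ⟨max w T, Or.inl (Or.inr ?_)⟩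
        have h3 := hT2 (max w T) (le_max_right _ _)
        rw [h3]
        exact ⟨rfl, le_max_left _ _, h2⟩
    refine (key a).trans (Relation.ReflTransGen.trans ?_ (gconn_symm (key b)))
    obtain ⟨j, hj⟩ := h
    refine Relation.ReflTransGen.single ⟨max j T, Or.inl (Or.inl ?_)⟩
    have h3 := hT2 (max j T) (le_max_right _ _)
    rw [h3]
    refine ⟨by omega, by omega, ?_, ?_, j, Nat.lt_succ_of_le (le_max_left _ _), ?_⟩
    · rw [Nat.add_sub_cancel, Nat.unpair_pair]
    · rw [Nat.add_sub_cancel, Nat.unpair_pair]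
    · rw [Nat.add_sub_cancel, Nat.unpair_pair, Nat.add_sub_cancel, Nat.unpair_pair]
      exact hj

theorem cn_diag_le : WLE (prod CN DIAG) DIAG := by
  classical
  obtain ⟨φ, hφ, hφ'⟩ := exists_functional (genum AEd) (fun _ k => 2 * k.unpair.1.unpair.2)
    (fun p q n h => ⟨genum_congr aed_congr h, rfl⟩) (primrec_genum primrec_aed)
    (Primrec.nat_mul.comp (Primrec.const 2) (Primrec.snd.comp (Primrec.unpair.comp
      (Primrec.fst.comp (Primrec.unpair.comp Primrec.snd)))))
  obtain ⟨ψ, hψ, hψ'⟩ := exists_functional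
    (fun z n => if n % 2 = 0 then gs (fun k => z (4 * k)) (z 1 - 1).unpair.1 else
      if z (2 * (Nat.pair (z 1 - 1).unpair.1 (n / 2) + 1) + 1) ≠ 0 ∧
        (z (2 * (Nat.pair (z 1 - 1).unpair.1 (n / 2) + 1) + 1) - 1).unpair.1 =
          (z 1 - 1).unpair.1
      then (z (2 * (Nat.pair (z 1 - 1).unpair.1 (n / 2) + 1) + 1) - 1).unpair.2 else 0)
    (fun z n => 4 * (z 1 - 1).unpair.1 + 2 * Nat.pair (z 1 - 1).unpair.1 (n / 2) + 10)
    (by
      intro p q n h
      have h1 : p 1 = q 1 := h 1 (by omega)
      have h2 := h (2 * (Nat.pair (p 1 - 1).unpair.1 (n / 2) + 1) + 1) (by omega)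
      have h3 := gs_congr (c := fun k => p (4 * k)) (c' := fun k => q (4 * k))
        (s := (p 1 - 1).unpair.1) (fun k hk => h (4 * k) (by omega))
      refine ⟨?_, ?_⟩
      · rw [h2, h3, h1]
      · rw [h1])
    (by
      have h1 : Primrec fun a : List ℕ × ℕ => (tf a.1 1 - 1).unpair.1 :=
        Primrec.fst.comp (Primrec.unpair.comp (Primrec.nat_sub.comp
          (primrec_tf Primrec.fst (Primrec.const 1)) (Primrec.const 1)))
      have h2 : Primrec fun a : List ℕ × ℕ =>
          tf a.1 (2 * (Nat.pair (tf a.1 1 - 1).unpair.1 (a.2 / 2) + 1) + 1) :=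
        primrec_tf Primrec.fst (Primrec.succ.comp (Primrec.nat_mul.comp (Primrec.const 2)
          (Primrec.succ.comp (Primrec₂.natPair.comp h1
            (Primrec.nat_div.comp Primrec.snd (Primrec.const 2))))))
      have h3 : Primrec fun a : List ℕ × ℕ =>
          (tf a.1 (2 * (Nat.pair (tf a.1 1 - 1).unpair.1 (a.2 / 2) + 1) + 1) - 1).unpair :=
        Primrec.unpair.comp (Primrec.nat_sub.comp h2 (Primrec.const 1))
      exact Primrec.ite (Primrec.eq.comp (Primrec.nat_mod.comp Primrec.snd (Primrec.const 2))
        (Primrec.const 0)) ((primrec_gs 4).comp (Primrec.fst.pair h1))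
        (Primrec.ite (PrimrecPred.and (PrimrecPred.not (Primrec.eq.comp h2 (Primrec.const 0)))
          (Primrec.eq.comp (Primrec.fst.comp h3) h1)) (Primrec.snd.comp h3) (Primrec.const 0)))
    (by
      have h1 : Primrec fun a : List ℕ × ℕ => (tf a.1 1 - 1).unpair.1 :=
        Primrec.fst.comp (Primrec.unpair.comp (Primrec.nat_sub.comp
          (primrec_tf Primrec.fst (Primrec.const 1)) (Primrec.const 1)))
      exact Primrec.nat_add.comp (Primrec.nat_add.comp (Primrec.nat_mul.comp (Primrec.const 4) h1)
        (Primrec.nat_mul.comp (Primrec.const 2) (Primrec₂.natPair.comp h1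
          (Primrec.nat_div.comp Primrec.snd (Primrec.const 2))))) (Primrec.const 10))
  refine ⟨φ, ψ, hφ, hψ, fun p hp => ?_⟩
  obtain ⟨hc, he, x0, y0, hxy⟩ := hp
  obtain ⟨T, hT1, hT2, hT3⟩ := exists_final (c := fun k => p (2 * k)) hc
  have hrel : ∀ a b, Rel (genum AEd p) a b ↔ Rel (right p) (proj T a) (proj T b) := fun a b => by
    rw [rel_genum, aconn_iff hT1 hT2 he]
  refine ⟨_, hφ' p, ⟨genum_equiv p, Nat.pair T x0 + 1, Nat.pair T y0 + 1, fun h => ?_⟩,
    fun g hg => ⟨_, hψ' _, ?_⟩⟩
  · rw [hrel, proj_pair, proj_pair] at h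
    exact hxy h
  · have hg' : ∀ w, ¬ Rel (right p) (proj T (g w)) (proj T w) := fun w h =>
      hg w ((hrel _ _).2 h)
    have h0 : g 0 ≠ 0 ∧ (g 0 - 1).unpair.1 = T := by
      by_contra hcon
      apply hg' 0
      have h1 : proj T (g 0) = 0 := if_neg hcon
      have h2 : proj T 0 = 0 := proj_other (Or.inl rfl)
      rw [h1, h2]
      exact he.refl 0
    have e1 : join p g 1 = g 0 := by simp [join]
    have e2 : (fun k => join p g (4 * k)) = fun k => p (2 * k) := by
      funext k
      have h1 : 4 * k % 2 = 0 := by omega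
      have h2 : 4 * k / 2 = 2 * k := by omega
      simp only [join, h1, h2, if_true]
    have e3 : ∀ w, join p g (2 * w + 1) = g w := fun w => congrFun (right_join p g) w
    refine ⟨fun k hk => ?_, fun x hx => ?_⟩
    · simp only [left, Nat.mul_zero, Nat.zero_mod, if_true, e1, e2, h0.2] at hk
      exact hT3 k hk
    · have h1 : (2 * x + 1) % 2 ≠ 0 := by omega
      have h2 : (2 * x + 1) / 2 = x := by omega
      simp only [right, h1, h2, if_false, e1, h0.2, e3] at hx
      apply hg' (Nat.pair T x + 1)
      rw [proj_pair]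
      exact hx

end Pool.Agent.Helper583.WD
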