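import Pool.Agent.Helper583.WDWWKL

/-!
DNR up to finitely many errors is not reducible to DIAG: one stage.
-/

namespace Pool.Agent.Helper583.WD

/-- Avoiding a partial function almost everywhere, with the `n`-th value less than `H n` for almost
all `n`. -/
def AeDNR (H : ℕ → ℕ∞) : Problem where
  inst p := ∀ s t n v w, p s = Nat.pair n v + 1 → p t = Nat.pair n w + 1 → v = w
  sol p q := ∃ N, ∀ n ≥ N, (q n : ℕ∞) < H n ∧ ∀ t, p t ≠ Nat.pair n (q n) + 1

/-- The values of `g` below `N` are permanently right, if `D` is never declared. -/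
def Perm (R : (ℕ → ℕ) → ℕ → ℕ) (D : Finset ℕ) (c : ℕ → ℕ) (T : ℕ) (g : ℕ → ℕ) (N : ℕ) : Prop :=
  ∀ p, (∀ j < T, p j = c j) → Ins D p → ∀ y < N, ¬ Rel (R p) (g y) y

/-- A permanent error is reached at some place `≥ B`. -/
def Win (ψ : List ℕ × ℕ →. ℕ) (H : ℕ → ℕ∞) (R : (ℕ → ℕ) → ℕ → ℕ) (B : ℕ) (D : Finset ℕ)
    (c : ℕ → ℕ) (T : ℕ) (g : ℕ → ℕ) (N : ℕ) : Prop :=
  ∃ D' c' T' g' N', D ⊆ D' ∧ T ≤ T' ∧ (∀ j < T, c' j = c j) ∧ Good D' c' T' ∧ N ≤ N' ∧
    (∀ y < N, g' y = g y) ∧ Perm R D' c' T' g' N' ∧ ∃ n ≥ B, ∃ v, (∃ m, m ≤ T' ∧ m ≤ N' ∧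
      v ∈ ψ (pre (join c' g') m, n)) ∧ (H n ≤ v ∨ ∃ t < T', c' t = Nat.pair n v + 1)

section

variable {P : Problem} {H : ℕ → ℕ∞} {φ ψ : List ℕ × ℕ →. ℕ} {R : (ℕ → ℕ) → ℕ → ℕ}
  (hP : ∀ p, Ins ∅ p → P.inst p)
  (hR : ∀ p, P.inst p → Computes φ p (R p) ∧ DIAG.inst (R p) ∧
    ∀ g, DIAG.sol (R p) g → ∃ s, Computes ψ (join p g) s ∧ P.sol p s)

include hP hR

theorem forces_of_rel {p : ℕ → ℕ} (hp : Ins ∅ p) {x y : ℕ} (h : Rel (R p) x y) (M : ℕ) :
    ∃ M' ≥ M, Forces R p M' x y := by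
  obtain ⟨t, m, hm⟩ := pre_of_rel hR (hP p hp) h
  exact ⟨M + m, by omega, fun p' hp' hI =>
    rel_of_pre hR (hP p' hI) hm (pre_congr fun j hj => (hp' j (by omega)).symm)⟩

/-- Deciding, for all `y < L`, whether `y` can be put in the class of `a`. -/
theorem decide_all (a : ℕ) (D : Finset ℕ) (L : ℕ) : ∀ (c : ℕ → ℕ) (T : ℕ), Good D c T →
    ∃ c' T', T ≤ T' ∧ (∀ j < T, c' j = c j) ∧ Good D c' T' ∧ ∀ y < L, Forces R c' T' a y ∨
      ∀ p, (∀ j < T', p j = c' j) → Ins D p → ¬ Rel (R p) a y := by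
  classical
  induction L with
  | zero => exact fun c T hg => ⟨c, T, le_rfl, fun _ _ => rfl, hg, fun y hy =>
      absurd hy (Nat.not_lt_zero y)⟩
  | succ L ih =>
    intro c T hg
    obtain ⟨c1, T1, h1, h2, h3, h4⟩ := ih c T hg
    by_cases h : ∃ p, (∀ j < T1, p j = c1 j) ∧ Ins D p ∧ Rel (R p) a L
    · obtain ⟨p, hp1, hp2, hp3⟩ := h
      obtain ⟨M', hM', hF⟩ := forces_of_rel hP hR (hp2.mono (Finset.empty_subset D)) hp3 T1
      refine ⟨p, M', by omega, fun j hj => (hp1 j (by omega)).trans (h2 j hj), hp2.good M',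
        fun y hy => ?_⟩
      rcases Nat.lt_succ_iff_lt_or_eq.1 hy with h' | h'
      · rcases h4 y h' with h5 | h5
        · exact Or.inl (h5.mono hM' hp1)
        · exact Or.inr fun p' hp' hI => h5 p' (fun j hj =>
            (hp' j (by omega)).trans (hp1 j hj)) hI
      · rw [h']; exact Or.inl hF
    · push Not at h
      refine ⟨c1, T1, h1, h2, h3, fun y hy => ?_⟩
      rcases Nat.lt_succ_iff_lt_or_eq.1 hy with h' | h'
      · exact h4 y h'
      · rw [h']; exact Or.inr h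

variable {pb : ℕ → ℕ} {M0 a b : ℕ}
  (hsep : ∀ p', (∀ j < M0, p' j = pb j) → Ins ∅ p' → ¬ Rel (R p') a b)
  {Db : Finset ℕ} {σ : ℕ → ℕ} {N B : ℕ} (hσ : Perm R Db pb M0 σ N)
  (hnw : ¬ Win ψ H R B Db pb M0 σ N)

include hsep hσ hnw

theorem node' {D : Finset ℕ} (hD : Db ⊆ D) {n : ℕ} (hn : n ∉ D) (hnB : B ≤ n) {p0 : ℕ → ℕ} {T : ℕ}
    (hT : M0 ≤ T) (hp0 : ∀ j < M0, p0 j = pb j) (hg : Good (insert n D) p0 T) :
    ∃ Mn, ∀ p M, T + Mn ≤ M → (∀ j < T + Mn, p j = glue p0 T (fun _ => 0) j) →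
      Good (insert n D) p M → ∃ z < Mn, Free R a b D p M z := by
  classical
  have hq0 := hg.zero
  obtain ⟨Mn, hMn⟩ := exists_dec hR (p := glue p0 T (fun _ => 0))
    (hP _ (hq0.mono (Finset.empty_subset _))) ({a, b} ∪ (Finset.range N).image σ) n
  refine ⟨Mn, fun p M hM hp hgp => ?_⟩
  by_contra hcon
  push Not at hcon
  have hcon' : ∀ z, ∃ β : Bool, z < Mn → ∀ p' M', M ≤ M' → (∀ j < M, p' j = p j) → Good D p' M' →
      ¬ Forces R p' M' (col a b β) z := by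
    intro z
    by_cases hz : z < Mn
    · have := hcon z hz
      unfold Free at this
      push Not at this
      obtain ⟨β, hβ⟩ := this
      exact ⟨β, fun _ => hβ⟩
    · exact ⟨true, fun h => absurd h hz⟩
  choose β hβ using hcon'
  have hnp : ∀ t < M, ∀ v, p t ≠ Nat.pair n v + 1 := fun t ht v hv =>
    hgp.2 t ht n v hv (Finset.mem_insert_self n D)
  have hgD : Good D p M := hgp.mono (Finset.subset_insert n D) le_rfl
  have hpb : ∀ j < M0, p j = pb j := fun j hj => by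
    rw [hp j (by omega), glue_lt (by omega), hp0 j hj]
  obtain ⟨g0, hg0⟩ : ∃ g0 : ℕ → ℕ, ∀ z, g0 z = if z < N then σ z else col a b (β z) :=
    ⟨_, fun _ => rfl⟩
  -- permanence
  have hperm : Perm R D p M g0 (max N Mn) := by
    intro p' hp' hI y hy hrel
    rw [hg0] at hrel
    split_ifs at hrel with hyN
    · exact hσ p' (fun j hj => (hp' j (by omega)).trans (hpb j hj)) (hI.mono hD) y hyN hrel
    · have hyM : y < Mn := by
        rcases lt_max_iff.1 hy with h | h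
        · omega
        · exact h
      obtain ⟨M', hM', hF⟩ := forces_of_rel hP hR (hI.mono (Finset.empty_subset D)) hrel M
      exact hβ y hyM p' M' hM' hp' (hI.good M') hF
  obtain ⟨q, hq⟩ : ∃ q : ℕ → ℕ → ℕ, ∀ l, q l = glue p M (fun _ => Nat.pair n l + 1) :=
    ⟨_, fun _ => rfl⟩
  have hqD : ∀ l, Ins D (q l) := fun l => by rw [hq]; exact hgD.add hnp hn l
  have hqI : ∀ l, Ins ∅ (q l) := fun l => (hqD l).mono (Finset.empty_subset D)
  have hqp : ∀ l, ∀ j < M, q l j = p j := fun l j hj => by rw [hq]; exact glue_lt hj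
  have hpre : ∀ l, ∀ m ≤ Mn, ∀ i < m, glue p0 T (fun _ => 0) i = q l i := fun l m hm i hi => by
    rw [hqp l i (by omega), hp i (by omega)]
  rcases hMn g0 (fun y => by
    simp only [Finset.mem_union, Finset.mem_insert, Finset.mem_singleton, Finset.mem_image,
      Finset.mem_range]
    rw [hg0]
    unfold col
    split_ifs with h1 h2
    · exact Or.inr ⟨y, h1, rfl⟩
    · exact Or.inl (Or.inl rfl)
    · exact Or.inl (Or.inr rfl)) with ⟨y, hy, t, m, hm, h⟩ | ⟨m, hm, v, h⟩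
  · exact hperm (q 0) (hqp 0) (hqD 0) y (lt_max_of_lt_right hy)
      (rel_of_pre hR (p' := q 0) (hP _ (hqI 0)) h (pre_congr (hpre 0 m hm)))
  · apply hnw
    refine ⟨D, q v, M + 1, g0, max N Mn, hD, by omega, fun j hj => ?_, (hqD v).good _,
      le_max_left _ _, fun y hy => by rw [hg0, if_pos hy], ?_, n, hnB, v,
      ⟨m, by omega, hm.trans (le_max_right _ _), ?_⟩, Or.inr ⟨M, Nat.lt_succ_self M, ?_⟩⟩
    · rw [hqp v j (by omega), hpb j hj]
    · intro p' hp' hI y hy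
      exact hperm p' (fun j hj => (hp' j (by omega)).trans (hqp v j hj)) hI y hy
    · rw [← pre_congr (p := join (glue p0 T (fun _ => 0)) g0) (q := join (q v) g0)
        (join_congr (hpre v m hm) (fun _ _ => rfl))]
      exact h
    · rw [hq]; exact glue_ge 0

theorem persist' {D : Finset ℕ} (hD : Db ⊆ D) {n : ℕ} (hn : n ∉ D) (hnB : B ≤ n) {p0 : ℕ → ℕ}
    {T : ℕ} (hT : M0 ≤ T) (hp0 : ∀ j < M0, p0 j = pb j) (hg : Good (insert n D) p0 T) :
    ∃ p1 T1 z, T ≤ T1 ∧ (∀ j < T, p1 j = p0 j) ∧ Good (insert n D) p1 T1 ∧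
      ∀ p M, T1 ≤ M → (∀ j < T1, p j = p1 j) → Good (insert n D) p M → Free R a b D p M z := by
  classical
  obtain ⟨Mn, hMn⟩ := node' hP hR hsep hσ hnw hD hn hnB hT hp0 hg
  let Q : ℕ → Prop := fun k => ∃ p M, T + Mn ≤ M ∧ (∀ j < T + Mn, p j = glue p0 T (fun _ => 0) j) ∧
    Good (insert n D) p M ∧ ((Finset.range Mn).filter (Free R a b D p M)).card = k
  have hQ : ∃ k, Q k := ⟨_, glue p0 T (fun _ => 0), T + Mn, le_rfl, fun _ _ => rfl,
    hg.zero.good _, rfl⟩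
  obtain ⟨p1, T1, hT1, hp1, hg1, hk⟩ := Nat.find_spec hQ
  obtain ⟨z, hz, hzf⟩ := hMn p1 T1 hT1 hp1 hg1
  refine ⟨p1, T1, z, by omega, fun j hj => ?_, hg1, fun p M hM hp hgp => ?_⟩
  · rw [hp1 j (by omega), glue_lt hj]
  · have hsub : (Finset.range Mn).filter (Free R a b D p M) ⊆
        (Finset.range Mn).filter (Free R a b D p1 T1) := by
      intro y hy
      rw [Finset.mem_filter] at hy ⊢
      exact ⟨hy.1, hy.2.anti hM hp⟩
    have hQ' : Q ((Finset.range Mn).filter (Free R a b D p M)).card :=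
      ⟨p, M, by omega, fun j hj => (hp j (by omega)).trans (hp1 j hj), hgp, rfl⟩
    have hle := Nat.find_min' hQ hQ'
    rw [← hk] at hle
    have heq := Finset.eq_of_subset_of_card_le hsub hle
    have hmem : z ∈ (Finset.range Mn).filter (Free R a b D p1 T1) :=
      Finset.mem_filter.2 ⟨Finset.mem_range.2 hz, hzf⟩
    rw [← heq] at hmem
    exact (Finset.mem_filter.1 hmem).2

theorem shatter' (r : ℕ) : ∀ (D : Finset ℕ) (p0 : ℕ → ℕ) (T : ℕ), Db ⊆ D → M0 ≤ T →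
    (∀ j < M0, p0 j = pb j) → Good D p0 T →
    ∃ (D' : Finset ℕ) (p1 : ℕ → ℕ) (T1 : ℕ) (z : ℕ → ℕ), D ⊆ D' ∧ T ≤ T1 ∧
      (∀ j < T, p1 j = p0 j) ∧ Good D' p1 T1 ∧
      ∀ p M, T1 ≤ M → (∀ j < T1, p j = p1 j) → Good D' p M → ∀ π : ℕ → Bool,
        ∃ p' M', M ≤ M' ∧ (∀ j < M, p' j = p j) ∧ Good D p' M' ∧
          ∀ j < r, Forces R p' M' (col a b (π j)) (z j) := by
  classical
  induction r with
  | zero =>
    intro D p0 T _ hT hp0 hg
    exact ⟨D, p0, T, fun _ => 0, subset_rfl, le_rfl, fun _ _ => rfl, hg,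
      fun p M _ _ hgp π => ⟨p, M, le_rfl, fun _ _ => rfl, hgp,
        fun j hj => absurd hj (Nat.not_lt_zero j)⟩⟩
  | succ r ih =>
    intro D p0 T hDb hT hp0 hg
    obtain ⟨n, hnD', hn⟩ := exists_index (D ∪ Finset.range B) p0 T
    rw [Finset.mem_union, Finset.mem_range] at hnD'
    push Not at hnD'
    obtain ⟨hnD, hnB⟩ := hnD'
    have hg' : Good (insert n D) p0 T := by
      refine ⟨hg.1, fun t ht e v he hmem => ?_⟩
      rcases Finset.mem_insert.1 hmem with h | h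
      · subst h; exact hn t ht v he
      · exact hg.2 t ht e v he h
    obtain ⟨p1, T1, z0, hT1, hp1, hg1, hfree⟩ := persist' hP hR hsep hσ hnw hDb hnD hnB hT hp0 hg'
    obtain ⟨D', p2, T2, z, hD', hT2, hp2, hg2, hsh⟩ := ih (insert n D) p1 T1
      (hDb.trans (Finset.subset_insert n D)) (by omega)
      (fun j hj => (hp1 j (by omega)).trans (hp0 j hj)) hg1
    refine ⟨D', p2, T2, fun j => if j = r then z0 else z j,
      (Finset.subset_insert n D).trans hD', by omega,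
      fun j hj => (hp2 j (by omega)).trans (hp1 j hj), hg2, fun p M hM hp hgp π => ?_⟩
    obtain ⟨p', M', hM', hp', hgp', hF⟩ := hsh p M hM hp hgp π
    obtain ⟨p'', M'', hM'', hp'', hgp'', hF'⟩ := hfree p' M' (by omega)
      (fun j hj => by rw [hp' j (by omega), hp j (by omega), hp2 j hj]) hgp' (π r)
    refine ⟨p'', M'', by omega, fun j hj => (hp'' j (by omega)).trans (hp' j hj), hgp'',
      fun j hj => ?_⟩
    by_cases hjr : j = r
    · subst hjr
      simpa using hF'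
    · simp only [if_neg hjr]
      exact (hF j (by omega)).mono hM'' hp''

end

end Pool.Agent.Helper583.WD
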