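import Pool.Agent.Helper583.WDAe

/-!
DNR up to finitely many errors is not reducible to DIAG.
-/

namespace Pool.Agent.Helper583.WD

section

variable {P : Problem} {H : ℕ → ℕ∞} {φ ψ : List ℕ × ℕ →. ℕ} {R : (ℕ → ℕ) → ℕ → ℕ}
  (hP : ∀ p, Ins ∅ p → P.inst p)
  (hR : ∀ p, P.inst p → Computes φ p (R p) ∧ DIAG.inst (R p) ∧
    ∀ g, DIAG.sol (R p) g → ∃ s, Computes ψ (join p g) s ∧ P.sol p s)

include hP hR

theorem exists_sep2 : ∃ (p : ℕ → ℕ) (M a b : ℕ), Good ∅ p M ∧
    ∀ p', (∀ j < M, p' j = p j) → Ins ∅ p' → ¬ Rel (R p') a b := by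
  classical
  by_contra hcon
  push Not at hcon
  let C : (ℕ → ℕ) → ℕ → Prop := fun p M => Good ∅ p M
  let D : ℕ → (ℕ → ℕ) → ℕ → Prop := fun i p M => ∃ t, ∃ m ≤ M, i ∈ φ (pre p m, t)
  have h0 : C (fun _ => 0) 0 :=
    ⟨fun s hs => absurd hs (Nat.not_lt_zero s), fun s hs => absurd hs (Nat.not_lt_zero s)⟩
  have step : ∀ i u M, C u M → ∃ u' M', M < M' ∧ (∀ j < M, u' j = u j) ∧ C u' M' ∧ D i u' M' := by
    intro i u M hu
    obtain ⟨p', hp', hI, hrel⟩ := hcon u M i.unpair.1 i.unpair.2 hu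
    obtain ⟨t, m, hm⟩ := pre_of_rel hR (p := p') (hP p' hI) hrel
    rw [Nat.pair_unpair] at hm
    exact ⟨p', M + m + 1, by omega, hp', hI.good _, t, m, by omega, hm⟩
  obtain ⟨p, -, hp⟩ := generic (C := C) (D := D) (fun _ => 0) 0 h0 step
  have hpI : Ins ∅ p := by
    refine ⟨?_, fun _ _ _ _ => Finset.notMem_empty _⟩
    intro s t e v u hs ht
    obtain ⟨p', M', hi, -, hag, h1, -⟩ := hp (s + t)
    rw [hag s (by omega)] at hs
    rw [hag t (by omega)] at ht
    exact h1.1 s (by omega) t (by omega) e v u hs ht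
  obtain ⟨-, ⟨-, x, y, hxy⟩, -⟩ := hR p (hP p hpI)
  obtain ⟨p', M', -, -, hag, -, t, m, hm, h⟩ := hp (Nat.pair x y)
  exact hxy (rel_of_pre hR (hP p hpI) h (pre_congr fun j hj => (hag j (by omega)).symm))

variable {pb : ℕ → ℕ} {M0 a b : ℕ}
  (hsep : ∀ p', (∀ j < M0, p' j = pb j) → Ins ∅ p' → ¬ Rel (R p') a b)
  {Db : Finset ℕ} {σ : ℕ → ℕ} {N B : ℕ} (hσ : Perm R Db pb M0 σ N)

include hsep hσ

theorem stage (hH : ∀ N, ∃ n ≥ N, H n ≠ ⊤) (hgb : Good Db pb M0) : Win ψ H R B Db pb M0 σ N := by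
  classical
  by_contra hnw
  obtain ⟨n0, hn0, hHn⟩ := hH (B + Db.sup id +
    (Finset.range M0).sup (fun t => (pb t - 1).unpair.1) + 1)
  obtain ⟨k, hk⟩ := ENat.ne_top_iff_exists.1 hHn
  have hn0D : n0 ∉ Db := by
    intro h
    have := Finset.le_sup (f := id) h
    simp only [id] at this
    omega
  have hn0' : ∀ t < M0, ∀ v, pb t ≠ Nat.pair n0 v + 1 := by
    intro t ht v hv
    have := Finset.le_sup (f := fun t => (pb t - 1).unpair.1) (Finset.mem_range.2 ht)
    rw [hv, Nat.add_sub_cancel, Nat.unpair_pair] at this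
    simp only at this
    omega
  have hg0 : Good (insert n0 Db) pb M0 := by
    refine ⟨hgb.1, fun t ht e v he hmem => ?_⟩
    rcases Finset.mem_insert.1 hmem with h | h
    · subst h; exact hn0' t ht v he
    · exact hgb.2 t ht e v he h
  obtain ⟨r, hr⟩ : ∃ r, r = Fintype.card (Fin (k + 1) → Bool) := ⟨_, rfl⟩
  let e : (Fin (k + 1) → Bool) ≃ Fin r := hr ▸ Fintype.equivFin (Fin (k + 1) → Bool)
  obtain ⟨D', p1, T1, z, hD', hT1, hp1, hg1, hsh⟩ := shatter' hP hR hsep hσ hnw r (insert n0 Db)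
    pb M0 (Finset.subset_insert n0 Db) le_rfl (fun _ _ => rfl) hg0
  obtain ⟨q, hq⟩ : ∃ q, q = glue p1 T1 (fun _ => 0) := ⟨_, rfl⟩
  have hqI : Ins D' q := by rw [hq]; exact hg1.zero
  obtain ⟨tK, htK⟩ := exists_dec hR (p := q) (hP q (hqI.mono (Finset.empty_subset _)))
    ((Finset.range r).image z ∪ (Finset.range N).image σ) n0
  have hbr : ∀ i : Fin (k + 1), ∃ c M, T1 + tK ≤ M ∧ (∀ j < T1 + tK, c j = q j) ∧
      Good (insert n0 Db) c M ∧
      ∀ s : Fin (k + 1) → Bool, Forces R c M (col a b (s i)) (z (e s)) := by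
    intro i
    obtain ⟨c, M, hM, hc, hgc, hF⟩ := hsh q (T1 + tK) (by omega)
      (fun j hj => by rw [hq, glue_lt hj]) (hqI.good _)
      (fun j => if h : j < r then e.symm ⟨j, h⟩ i else true)
    refine ⟨c, M, hM, hc, hgc, fun s => ?_⟩
    have := hF (e s) (e s).2
    simpa using this
  choose c M hM hc hgc hF using hbr
  have hAg : ∀ i : Fin (k + 1), Good Db (glue (c i) (M i) (fun _ => Nat.pair n0 (i : ℕ) + 1))
      (M i + 1) := by
    intro i
    refine (((hgc i).mono (Finset.subset_insert n0 Db) le_rfl).add (fun t ht v hv => ?_)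
      hn0D i).good _
    exact (hgc i).2 t ht n0 v hv (Finset.mem_insert_self n0 Db)
  have hdec : ∀ i : Fin (k + 1), ∃ c' T', M i + 1 ≤ T' ∧
      (∀ j < M i + 1, c' j = glue (c i) (M i) (fun _ => Nat.pair n0 (i : ℕ) + 1) j) ∧
      Good Db c' T' ∧ ∀ y < tK, Forces R c' T' a y ∨
      ∀ p, (∀ j < T', p j = c' j) → Ins Db p → ¬ Rel (R p) a y := fun i =>
    decide_all hP hR a Db tK _ _ (hAg i)
  choose A T hT hA hAG hAd using hdec
  have hAc : ∀ i, ∀ j < M i, A i j = c i j := fun i j hj => by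
    rw [hA i j (by omega), glue_lt hj]
  have hAq : ∀ i, ∀ j < T1 + tK, A i j = q j := fun i j hj => by
    rw [hAc i j (lt_of_lt_of_le hj (hM i)), hc i j hj]
  have hAM : ∀ i, A i (M i) = Nat.pair n0 (i : ℕ) + 1 := fun i => by
    rw [hA i (M i) (Nat.lt_succ_self _)]
    exact glue_ge 0
  have hqb : ∀ j < M0, q j = pb j := fun j hj => by rw [hq, glue_lt (by omega), hp1 j hj]
  obtain ⟨g, hg⟩ : ∃ g : ℕ → ℕ, ∀ y, g y = if y < N then σ y else
      z (e (fun i => decide (¬ Forces R (A i) (T i) a y))) := ⟨_, fun _ => rfl⟩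
  have hgK : ∀ y, g y ∈ (Finset.range r).image z ∪ (Finset.range N).image σ := by
    intro y
    rw [hg]
    split_ifs with h
    · exact Finset.mem_union_right _ (Finset.mem_image_of_mem σ (Finset.mem_range.2 h))
    · exact Finset.mem_union_left _ (Finset.mem_image_of_mem z (Finset.mem_range.2 (e _).2))
  have hperm : ∀ i, Perm R Db (A i) (T i) g (max N tK) := by
    intro i p hp hI y hy hrel
    have hpb : ∀ j < M0, p j = pb j := fun j hj => by
      have h1 := hM i
      have h2 := hT i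
      rw [hp j (by omega), hAq i j (by omega), hqb j hj]
    rw [hg] at hrel
    split_ifs at hrel with hyN
    · exact hσ p hpb hI y hyN hrel
    · have hyt : y < tK := by
        rcases lt_max_iff.1 hy with h | h
        · omega
        · exact h
      have hI0 : Ins ∅ p := hI.mono (Finset.empty_subset _)
      have eA := (hR p (hP p hI0)).2.1.1
      have h1 := hF i (fun i => decide (¬ Forces R (A i) (T i) a y)) p (fun j hj => by
        have h2 := hT i
        rw [hp j (by omega), hAc i j hj]) hI0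
      have h2 := eA.trans h1 hrel
      by_cases h : Forces R (A i) (T i) a y
      · have h3 : col a b (decide (¬ Forces R (A i) (T i) a y)) = b := by simp [col, h]
        rw [h3] at h2
        exact hsep p hpb hI0 (eA.trans (h p hp hI0) (eA.symm h2))
      · have h3 : col a b (decide (¬ Forces R (A i) (T i) a y)) = a := by simp [col, h]
        rw [h3] at h2
        rcases hAd i y hyt with h4 | h4
        · exact h h4
        · exact h4 p hp hI h2
  have h0k : 0 < k + 1 := Nat.succ_pos k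
  rcases htK g hgK with ⟨y, hy, t, m, hm, h⟩ | ⟨m, hm, v, h⟩
  · have hI0 : Ins Db (glue (A ⟨0, h0k⟩) (T ⟨0, h0k⟩) (fun _ => 0)) := (hAG ⟨0, h0k⟩).zero
    refine hperm ⟨0, h0k⟩ _ (fun j hj => glue_lt hj) hI0 y (lt_max_of_lt_right hy)
      (rel_of_pre hR (p' := glue (A ⟨0, h0k⟩) (T ⟨0, h0k⟩) (fun _ => 0))
        (hP _ (hI0.mono (Finset.empty_subset _))) h (pre_congr fun j hj => ?_))
    have h1 := hM ⟨0, h0k⟩
    have h2 := hT ⟨0, h0k⟩
    rw [glue_lt (by omega), hAq ⟨0, h0k⟩ j (by omega)]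
  · -- the branch
    obtain ⟨i, hi⟩ : ∃ i : Fin (k + 1), (H n0 ≤ (v : ℕ∞)) ∨ (i : ℕ) = v := by
      by_cases hv : v < k + 1
      · exact ⟨⟨v, hv⟩, Or.inr rfl⟩
      · refine ⟨⟨0, h0k⟩, Or.inl ?_⟩
        rw [← hk]
        exact_mod_cast (by omega : k ≤ v)
    apply hnw
    have h1 := hM i
    have h2 := hT i
    refine ⟨Db, A i, T i, g, max N tK, subset_rfl, by omega, fun j hj => ?_, hAG i,
      le_max_left _ _, fun y hy => by rw [hg, if_pos hy], hperm i, n0, by omega, v,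
      ⟨m, by omega, hm.trans (le_max_right _ _), ?_⟩, ?_⟩
    · rw [hAq i j (by omega), hqb j hj]
    · rw [← pre_congr (p := join q g) (q := join (A i) g)
        (join_congr (fun j hj => (hAq i j (by omega)).symm) (fun _ _ => rfl))]
      exact h
    · rcases hi with hi | hi
      · exact Or.inl hi
      · exact Or.inr ⟨M i, by omega, by rw [hAM, hi]⟩

/-- A stage, with progress in both lengths. -/
theorem stage2 (hH : ∀ N, ∃ n ≥ N, H n ≠ ⊤) (hgb : Good Db pb M0) :
    ∃ D' c' T' g' N', Db ⊆ D' ∧ M0 < T' ∧ (∀ j < M0, c' j = pb j) ∧ Good D' c' T' ∧ N < N' ∧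
      (∀ y < N, g' y = σ y) ∧ Perm R D' c' T' g' N' ∧ ∃ n ≥ B, ∃ v, (∃ m, m ≤ T' ∧ m ≤ N' ∧
        v ∈ ψ (pre (join c' g') m, n)) ∧ (H n ≤ v ∨ ∃ t < T', c' t = Nat.pair n v + 1) := by
  classical
  obtain ⟨D', c', T', g', N', h1, h2, h3, h4, h5, h6, h7, n, hn, v, ⟨m, hm1, hm2, hv⟩, herr⟩ :=
    stage (B := B) hP hR hsep hσ hH hgb
  obtain ⟨c2, T2, e1, e2, e3, e4⟩ := decide_all hP hR a D' (N' + 1) c' T' h4
  obtain ⟨g2, hg2⟩ : ∃ g2 : ℕ → ℕ, ∀ y, g2 y = if y < N' then g' y else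
      if Forces R c2 T2 a N' then b else a := ⟨_, fun _ => rfl⟩
  refine ⟨D', glue c2 T2 (fun _ => 0), T2 + 1, g2, N' + 1, h1, by omega, fun j hj => ?_,
    e3.zero.good _, by omega, fun y hy => ?_, ?_, n, hn, v, ⟨m, by omega, by omega, ?_⟩, ?_⟩
  · rw [glue_lt (by omega), e2 j (by omega), h3 j hj]
  · rw [hg2, if_pos (by omega), h6 y hy]
  · intro p hp hI y hy hrel
    have hp2 : ∀ j < T2, p j = c2 j := fun j hj => by rw [hp j (by omega), glue_lt hj]
    have hI0 : Ins ∅ p := hI.mono (Finset.empty_subset _)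
    rw [hg2] at hrel
    split_ifs at hrel with hy1 hy2
    · exact h7 p (fun j hj => by rw [hp2 j (by omega), e2 j hj]) hI y hy1 hrel
    · have hyN : y = N' := by omega
      subst hyN
      have eA := (hR p (hP p hI0)).2.1.1
      refine hsep p (fun j hj => by rw [hp2 j (by omega), e2 j (by omega), h3 j hj]) hI0 ?_
      exact eA.trans (hy2 p hp2 hI0) (eA.symm hrel)
    · have hyN : y = N' := by omega
      subst hyN
      rcases e4 y (Nat.lt_succ_self y) with h8 | h8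
      · exact hy2 h8
      · exact h8 p hp2 hI hrel
  · rw [pre_congr (p := join (glue c2 T2 (fun _ => 0)) g2) (q := join c' g')
      (join_congr (fun j hj => by rw [glue_lt (by omega), e2 j (by omega)])
        (fun j hj => by rw [hg2, if_pos (by omega)]))]
    exact hv
  · rcases herr with h | ⟨t, ht, h⟩
    · exact Or.inl h
    · exact Or.inr ⟨t, by omega, by rw [glue_lt (by omega), e2 t ht, h]⟩

end

end Pool.Agent.Helper583.WD
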