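import Pool.Agent.Helper583.WDAe2

/-!
DNR up to finitely many errors is not reducible to DIAG.
-/

namespace Pool.Agent.Helper583.WD

/-- A condition: a set of places which are never declared, an initial part of an instance, an
initial part of a solution. -/
structure St5 where
  D : Finset ℕ
  c : ℕ → ℕ
  T : ℕ
  g : ℕ → ℕ
  N : ℕ

theorem aednr_not_diag (H : ℕ → ℕ∞) (hH : ∀ N, ∃ n ≥ N, H n ≠ ⊤) : ¬ CLE (AeDNR H) DIAG := by
  classical
  rintro ⟨φ, ψ, hred⟩
  have hred' : ∀ p, ∃ r, (AeDNR H).inst p → Computes φ p r ∧ DIAG.inst r ∧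
      ∀ g, DIAG.sol r g → ∃ s, Computes ψ (join p g) s ∧ (AeDNR H).sol p s := by
    intro p
    by_cases h : (AeDNR H).inst p
    · obtain ⟨r, hr⟩ := hred p h
      exact ⟨r, fun _ => hr⟩
    · exact ⟨p, fun h' => absurd h' h⟩
  choose R hR using hred'
  have hP : ∀ p, Ins ∅ p → (AeDNR H).inst p := fun p hp => hp.1
  obtain ⟨pb, M0, a, b, hgb, hsep⟩ := exists_sep2 hP hR
  let V : St5 → Prop := fun s => M0 ≤ s.T ∧ (∀ j < M0, s.c j = pb j) ∧ Good s.D s.c s.T ∧
    Perm R s.D s.c s.T s.g s.N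
  let W : ℕ → St5 → St5 → Prop := fun B s s' => s.D ⊆ s'.D ∧ s.T < s'.T ∧
    (∀ j < s.T, s'.c j = s.c j) ∧ s.N < s'.N ∧ (∀ y < s.N, s'.g y = s.g y) ∧ V s' ∧
    ∃ n ≥ B, ∃ v, (∃ m, m ≤ s'.T ∧ m ≤ s'.N ∧ v ∈ ψ (pre (join s'.c s'.g) m, n)) ∧
      (H n ≤ v ∨ ∃ t < s'.T, s'.c t = Nat.pair n v + 1)
  have hstep : ∀ B s, V s → ∃ s', W B s s' := by
    rintro B ⟨D, c, T, g, N⟩ ⟨h1, h2, h3, h4⟩
    simp only at h1 h2 h3 h4
    have hsep' : ∀ p', (∀ j < T, p' j = c j) → Ins ∅ p' → ¬ Rel (R p') a b := fun p' hp' hI =>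
      hsep p' (fun j hj => by rw [hp' j (by omega), h2 j hj]) hI
    obtain ⟨D', c', T', g', N', e1, e2, e3, e4, e5, e6, e7, e8⟩ :=
      stage2 (B := B) hP hR hsep' h4 hH h3
    exact ⟨⟨D', c', T', g', N'⟩, e1, e2, e3, e5, e6, ⟨by simp only; omega, fun j hj => by
      simp only; rw [e3 j (by omega), h2 j hj], e4, e7⟩, e8⟩
  choose! f hf using hstep
  let S : ℕ → St5 := fun n => Nat.rec ⟨∅, pb, M0, fun _ => 0, 0⟩ (fun i s => f i s) n
  have hS : ∀ i, S (i + 1) = f i (S i) := fun i => rfl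
  have hV : ∀ i, V (S i) := by
    intro i
    induction i with
    | zero => exact ⟨le_rfl, fun _ _ => rfl, hgb, fun p _ _ y hy => absurd hy (Nat.not_lt_zero y)⟩
    | succ i ih => rw [hS]; exact (hf i _ ih).2.2.2.2.2.1
  have hW : ∀ i, W i (S i) (S (i + 1)) := fun i => by rw [hS]; exact hf i _ (hV i)
  have hTlt : ∀ i, (S i).T < (S (i + 1)).T := fun i => (hW i).2.1
  have hNlt : ∀ i, (S i).N < (S (i + 1)).N := fun i => (hW i).2.2.2.1
  have hTm : StrictMono fun i => (S i).T := strictMono_nat_of_lt_succ hTlt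
  have hNm : StrictMono fun i => (S i).N := strictMono_nat_of_lt_succ hNlt
  have hTge : ∀ i, i ≤ (S i).T := fun i => hTm.le_apply
  have hNge : ∀ i, i ≤ (S i).N := fun i => hNm.le_apply
  have hmono : ∀ i k, (S i).D ⊆ (S (i + k)).D ∧ (∀ j < (S i).T, (S (i + k)).c j = (S i).c j) ∧
      ∀ y < (S i).N, (S (i + k)).g y = (S i).g y := by
    intro i k
    induction k with
    | zero => exact ⟨subset_rfl, fun _ _ => rfl, fun _ _ => rfl⟩
    | succ k ih =>
      obtain ⟨w1, w2, w3, w4, w5, -⟩ := hW (i + k)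
      have hT1 : (S i).T ≤ (S (i + k)).T := hTm.monotone (Nat.le_add_right _ _)
      have hN1 : (S i).N ≤ (S (i + k)).N := hNm.monotone (Nat.le_add_right _ _)
      rw [← add_assoc]
      exact ⟨ih.1.trans w1, fun j hj => by rw [w3 j (by omega), ih.2.1 j hj],
        fun y hy => by rw [w5 y (by omega), ih.2.2 y hy]⟩
  obtain ⟨p, hp⟩ : ∃ p : ℕ → ℕ, ∀ t, p t = (S (t + 1)).c t := ⟨_, fun _ => rfl⟩
  obtain ⟨g, hg⟩ : ∃ g : ℕ → ℕ, ∀ y, g y = (S (y + 1)).g y := ⟨_, fun _ => rfl⟩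
  have hpS : ∀ i, ∀ t < (S i).T, p t = (S i).c t := by
    intro i t ht
    rw [hp]
    have h1 : t < (S (t + 1)).T := lt_of_lt_of_le (Nat.lt_succ_self t) (hTge (t + 1))
    rcases le_total i (t + 1) with h | h
    · obtain ⟨k, hk⟩ := Nat.exists_eq_add_of_le h
      rw [hk]
      exact (hmono i k).2.1 t ht
    · obtain ⟨k, hk⟩ := Nat.exists_eq_add_of_le h
      have := (hmono (t + 1) k).2.1 t h1
      rw [← hk] at this
      exact this.symm
  have hgS : ∀ i, ∀ y < (S i).N, g y = (S i).g y := by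
    intro i y hy
    rw [hg]
    have h1 : y < (S (y + 1)).N := lt_of_lt_of_le (Nat.lt_succ_self y) (hNge (y + 1))
    rcases le_total i (y + 1) with h | h
    · obtain ⟨k, hk⟩ := Nat.exists_eq_add_of_le h
      rw [hk]
      exact (hmono i k).2.2 y hy
    · obtain ⟨k, hk⟩ := Nat.exists_eq_add_of_le h
      have := (hmono (y + 1) k).2.2 y h1
      rw [← hk] at this
      exact this.symm
  have hpI : ∀ i, Ins (S i).D p := by
    intro i
    refine ⟨fun s t n v w hs ht => ?_, fun t n v ht hn => ?_⟩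
    · have h1 := hTge (s + t + 1)
      have h2 := hpS (s + t + 1) s (by omega)
      have h3 := hpS (s + t + 1) t (by omega)
      exact (hV (s + t + 1)).2.2.1.1 s (by omega) t (by omega) n v w (h2 ▸ hs) (h3 ▸ ht)
    · have h1 := hTge (i + (t + 1))
      have h2 := hpS (i + (t + 1)) t (by omega)
      exact (hV (i + (t + 1))).2.2.1.2 t (by omega) n v (h2 ▸ ht) ((hmono i (t + 1)).1 hn)
  have hp0 : (AeDNR H).inst p := (hpI 0).1
  have hgsol : DIAG.sol (R p) g := by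
    intro y hy
    have h1 := hNge (y + 1)
    rw [hgS (y + 1) y (by omega)] at hy
    exact (hV (y + 1)).2.2.2 p (hpS (y + 1)) (hpI (y + 1)) y (by omega) hy
  obtain ⟨s, hs, K, hK⟩ := (hR p hp0).2.2 g hgsol
  obtain ⟨-, -, -, -, -, -, n, hn, v, ⟨m, hm1, hm2, hv⟩, herr⟩ := hW K
  have hv' : v ∈ ψ (pre (join p g) m, n) := by
    rw [pre_congr (p := join p g) (q := join (S (K + 1)).c (S (K + 1)).g)
      (join_congr (fun j hj => hpS (K + 1) j (by omega)) (fun j hj => hgS (K + 1) j (by omega)))]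
    exact hv
  have hsv : v = s n := (hs n).2 m v hv'
  obtain ⟨h1, h2⟩ := hK n hn
  rw [← hsv] at h1 h2
  rcases herr with h | ⟨t, ht, h⟩
  · exact absurd h1 (not_lt.2 h)
  · exact h2 t (by rw [hpS (K + 1) t ht, h])

end Pool.Agent.Helper583.WD
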