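import Pool.Agent.Helper583.WDDefs

/-!
Basic facts: words, generic sequences, compactness.
-/

namespace Pool.Agent.Helper583.WD

@[simp] theorem pre_length (p : ℕ → ℕ) (n : ℕ) : (pre p n).length = n := by simp [pre]

theorem pre_congr {p q : ℕ → ℕ} {n : ℕ} (h : ∀ i < n, p i = q i) : pre p n = pre q n := by
  unfold pre
  apply List.map_congr_left
  intro a ha
  exact h a (List.mem_range.1 ha)

theorem left_join (p q : ℕ → ℕ) : left (join p q) = p := by
  funext n
  simp [left, join]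

theorem right_join (p q : ℕ → ℕ) : right (join p q) = q := by
  funext n
  have h1 : (2 * n + 1) % 2 = 1 := by omega
  have h2 : (2 * n + 1) / 2 = n := by omega
  simp [right, join, h1, h2]

theorem join_congr {p q p' q' : ℕ → ℕ} {n : ℕ} (h : ∀ i < n, p i = p' i)
    (h' : ∀ i < n, q i = q' i) : ∀ i < n, join p q i = join p' q' i := by
  intro i hi
  have h1 : i / 2 < n := lt_of_le_of_lt (Nat.div_le_self _ _) hi
  unfold join
  split_ifs
  · exact h _ h1
  · exact h' _ h1

/-- A limit of a sequence of finite conditions. -/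
theorem generic {C : (ℕ → ℕ) → ℕ → Prop} {D : ℕ → (ℕ → ℕ) → ℕ → Prop} (p0 : ℕ → ℕ) (M0 : ℕ)
    (h0 : C p0 M0)
    (step : ∀ i p M, C p M → ∃ p' M', M < M' ∧ (∀ j < M, p' j = p j) ∧ C p' M' ∧ D i p' M') :
    ∃ p : ℕ → ℕ, (∀ j < M0, p j = p0 j) ∧ ∀ i, ∃ p' M', i < M' ∧ M0 < M' ∧
      (∀ j < M', p j = p' j) ∧ C p' M' ∧ D i p' M' := by
  classical
  choose! f g hfg using step
  let S : ℕ → (ℕ → ℕ) × ℕ := fun n => Nat.rec (p0, M0) (fun i s => (f i s.1 s.2, g i s.1 s.2)) n
  have hS0 : S 0 = (p0, M0) := rfl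
  have hS : ∀ i, S (i + 1) = (f i (S i).1 (S i).2, g i (S i).1 (S i).2) := fun i => rfl
  have hC : ∀ i, C (S i).1 (S i).2 := by
    intro i
    induction i with
    | zero => exact h0
    | succ i ih =>
      rw [hS]
      exact (hfg i _ _ ih).2.2.1
  have hlt : ∀ i, (S i).2 < (S (i + 1)).2 := by
    intro i
    rw [hS]
    exact (hfg i _ _ (hC i)).1
  have hag : ∀ i, ∀ j < (S i).2, (S (i + 1)).1 j = (S i).1 j := by
    intro i
    rw [hS]
    exact (hfg i _ _ (hC i)).2.1
  have hD : ∀ i, D i (S (i + 1)).1 (S (i + 1)).2 := by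
    intro i
    rw [hS]
    exact (hfg i _ _ (hC i)).2.2.2
  have hmono : StrictMono fun i => (S i).2 := strictMono_nat_of_lt_succ hlt
  have hge : ∀ i, i ≤ (S i).2 := fun i => hmono.le_apply
  have hagree : ∀ i k, ∀ j < (S i).2, (S (i + k)).1 j = (S i).1 j := by
    intro i k
    induction k with
    | zero => intro j _; rfl
    | succ k ih =>
      intro j hj
      have h1 : (S i).2 ≤ (S (i + k)).2 := hmono.monotone (Nat.le_add_right _ _)
      rw [← add_assoc, hag (i + k) j (lt_of_lt_of_le hj h1)]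
      exact ih j hj
  have hpq : ∀ i, ∀ j < (S i).2, (S (j + 1)).1 j = (S i).1 j := by
    intro i j hj
    have hj1 : j < (S (j + 1)).2 := lt_of_lt_of_le (Nat.lt_succ_self j) (hge (j + 1))
    rcases le_total i (j + 1) with h | h
    · obtain ⟨k, hk⟩ := Nat.exists_eq_add_of_le h
      rw [hk]
      exact hagree i k j hj
    · obtain ⟨k, hk⟩ := Nat.exists_eq_add_of_le h
      have := hagree (j + 1) k j hj1
      rw [← hk] at this
      exact this.symm
  refine ⟨fun j => (S (j + 1)).1 j, fun j hj => hpq 0 j hj, fun i => ⟨(S (i + 1)).1,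
    (S (i + 1)).2, lt_of_lt_of_le (Nat.lt_succ_self i) (hge (i + 1)), ?_, fun j hj => hpq (i + 1) j hj,
    hC (i + 1), hD i⟩⟩
  exact hmono (Nat.succ_pos i)

/-- Compactness of the space of points with values in a finite set. -/
theorem compact_use (S : Finset ℕ) (P : ℕ → (ℕ → ℕ) → Prop)
    (mono : ∀ M M' g, M ≤ M' → P M g → P M' g)
    (loc : ∀ M g g', (∀ i < M, g' i = g i) → P M g → P M g')
    (all : ∀ g : ℕ → ℕ, (∀ x, g x ∈ S) → ∃ M, P M g) :
    ∃ M, ∀ g : ℕ → ℕ, (∀ x, g x ∈ S) → P M g := by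
  classical
  let U : ℕ → Set (ℕ → ↥S) := fun M => {g | P M (fun x => (g x : ℕ))}
  have hopen : ∀ M, IsOpen (U M) := by
    intro M
    rw [isOpen_iff_mem_nhds]
    intro g hg
    have h1 : IsOpen (PiNat.cylinder g M) := PiNat.isOpen_cylinder (fun _ => ↥S) g M
    apply Filter.mem_of_superset (h1.mem_nhds (PiNat.self_mem_cylinder g M))
    intro g' hg'
    apply loc M _ _ _ hg
    intro i hi
    have := (PiNat.mem_cylinder_iff.1 hg') i hi
    rw [this]
  have hcov : (Set.univ : Set (ℕ → ↥S)) ⊆ ⋃ M, U M := by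
    intro g _
    obtain ⟨M, hM⟩ := all (fun x => (g x : ℕ)) (fun x => (g x).2)
    exact Set.mem_iUnion.2 ⟨M, hM⟩
  obtain ⟨t, ht⟩ := isCompact_univ.elim_finite_subcover U hopen hcov
  refine ⟨t.sup id, fun g hg => ?_⟩
  have h2 : (fun x => (⟨g x, hg x⟩ : ↥S)) ∈ ⋃ i ∈ t, U i := ht (Set.mem_univ _)
  obtain ⟨M, hM, hP⟩ := Set.mem_iUnion₂.1 h2
  exact mono M _ g (Finset.le_sup (f := id) hM) hP

end Pool.Agent.Helper583.WD
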