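import Pool.Agent.Helper583.WDPos3

/-!
DIAG reduces to the product of choice on the numbers and DIAG with a given inequivalent pair:
combinatorics.
-/

namespace Pool.Agent.Helper583.WD

/-- Finding a diagonal function for an equivalence relation in which `0` and `1` are not
equivalent. -/
def DIAG01 : Problem where
  inst p := Equivalence (Rel p) ∧ ¬ Rel p 0 1
  sol p g := ∀ x, ¬ Rel p (g x) x

/-- Replace a number following a list of merges. -/
def rep (L : List (ℕ × ℕ)) (x : ℕ) : ℕ := L.foldl (fun r m => if r = m.1 then m.2 else r) x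

/-- The list of merges, the guess for an inequivalent pair, and the version, at stage `i`. -/
def sC (p : ℕ → ℕ) : ℕ → List (ℕ × ℕ) × ℕ × ℕ
  | 0 => ([], 0, 0)
  | i + 1 =>
    if rep ((sC p i).1 ++ [(rep (sC p i).1 (p i).unpair.2, rep (sC p i).1 (p i).unpair.1)])
        (sC p i).2.1.unpair.1 =
      rep ((sC p i).1 ++ [(rep (sC p i).1 (p i).unpair.2, rep (sC p i).1 (p i).unpair.1)])
        (sC p i).2.1.unpair.2
    then ((sC p i).1 ++ [(rep (sC p i).1 (p i).unpair.2, rep (sC p i).1 (p i).unpair.1)],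
      (sC p i).2.1 + 1, i + 1)
    else ((sC p i).1 ++ [(rep (sC p i).1 (p i).unpair.2, rep (sC p i).1 (p i).unpair.1)],
      (sC p i).2.1, (sC p i).2.2)

/-- The representative at stage `i`. -/
def rho (p : ℕ → ℕ) (i x : ℕ) : ℕ := rep (sC p i).1 x

/-- The guess at stage `i`. -/
def gp (p : ℕ → ℕ) (i : ℕ) : ℕ := (sC p i).2.1

/-- The version at stage `i`. -/
def vs (p : ℕ → ℕ) (i : ℕ) : ℕ := (sC p i).2.2

/-- The guess changes after stage `i`. -/
def Chd (p : ℕ → ℕ) (i : ℕ) : Prop :=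
  rho p (i + 1) (gp p i).unpair.1 = rho p (i + 1) (gp p i).unpair.2

theorem sC_fst (p : ℕ → ℕ) (i : ℕ) : (sC p (i + 1)).1 =
    (sC p i).1 ++ [(rep (sC p i).1 (p i).unpair.2, rep (sC p i).1 (p i).unpair.1)] := by
  rw [sC]
  split_ifs <;> rfl

theorem rho_succ (p : ℕ → ℕ) (i x : ℕ) : rho p (i + 1) x =
    if rho p i x = rho p i (p i).unpair.2 then rho p i (p i).unpair.1 else rho p i x := by
  unfold rho
  rw [sC_fst]
  unfold rep
  rw [List.foldl_append]
  rfl

theorem sC_chd {p : ℕ → ℕ} {i : ℕ} (h : Chd p i) :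
    gp p (i + 1) = gp p i + 1 ∧ vs p (i + 1) = i + 1 := by
  unfold Chd rho at h
  rw [sC_fst] at h
  unfold gp at h
  unfold gp vs
  rw [sC, if_pos h]
  exact ⟨rfl, rfl⟩

theorem sC_not {p : ℕ → ℕ} {i : ℕ} (h : ¬ Chd p i) :
    gp p (i + 1) = gp p i ∧ vs p (i + 1) = vs p i := by
  unfold Chd rho at h
  rw [sC_fst] at h
  unfold gp at h
  unfold gp vs
  rw [sC, if_neg h]
  exact ⟨rfl, rfl⟩

theorem sC_congr {p q : ℕ → ℕ} {i : ℕ} (h : ∀ j < i, p j = q j) : sC p i = sC q i := by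
  induction i with
  | zero => rfl
  | succ i ih =>
    rw [sC, sC, ih (fun j hj => h j (by omega)), h i (by omega)]

theorem rho_zero (p : ℕ → ℕ) (x : ℕ) : rho p 0 x = x := rfl

theorem rho_mono {p : ℕ → ℕ} {i j x y : ℕ} (hij : i ≤ j) (h : rho p i x = rho p i y) :
    rho p j x = rho p j y := by
  induction j, hij using Nat.le_induction with
  | base => exact h
  | succ j hj ih => rw [rho_succ, rho_succ, ih]

theorem rho_new (p : ℕ → ℕ) (i : ℕ) :
    rho p (i + 1) (p i).unpair.1 = rho p (i + 1) (p i).unpair.2 := by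
  rw [rho_succ, rho_succ]
  simp

theorem rho_sound {p : ℕ → ℕ} (he : Equivalence (Rel p)) (i x : ℕ) : Rel p x (rho p i x) := by
  induction i generalizing x with
  | zero => exact he.refl x
  | succ i ih =>
    rw [rho_succ]
    split_ifs with h
    · have h1 : Rel p (p i).unpair.1 (p i).unpair.2 := ⟨i, (Nat.pair_unpair _).symm⟩
      have h2 := ih x
      rw [h] at h2
      exact he.trans (he.trans h2 (he.symm (ih _))) (he.trans (he.symm h1) (ih _))
    · exact ih x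

theorem rel_of_rho {p : ℕ → ℕ} (he : Equivalence (Rel p)) {i x y : ℕ}
    (h : rho p i x = rho p i y) : Rel p x y := by
  have h1 := rho_sound he i x
  rw [h] at h1
  exact he.trans h1 (he.symm (rho_sound he i y))

theorem rho_of_rel {p : ℕ → ℕ} {x y : ℕ} (h : Rel p x y) : ∃ i, ∀ j ≥ i, rho p j x = rho p j y := by
  obtain ⟨i, hi⟩ := h
  have h1 := rho_new p i
  rw [hi, Nat.unpair_pair] at h1
  exact ⟨i + 1, fun j hj => rho_mono hj h1⟩

theorem vs_le (p : ℕ → ℕ) (i : ℕ) : vs p i ≤ i := by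
  induction i with
  | zero => exact le_rfl
  | succ i ih =>
    by_cases h : Chd p i
    · rw [(sC_chd h).2]
    · rw [(sC_not h).2]; omega

theorem vs_between {p : ℕ → ℕ} (s : ℕ) : ∀ i, vs p s ≤ i → i ≤ s →
    vs p i = vs p s ∧ gp p i = gp p s := by
  induction s with
  | zero =>
    intro i _ hi
    have : i = 0 := by omega
    subst this
    exact ⟨rfl, rfl⟩
  | succ s ih =>
    intro i hi his
    rcases Nat.eq_or_lt_of_le his with h | h
    · rw [h]; exact ⟨rfl, rfl⟩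
    · by_cases hc : Chd p s
      · rw [(sC_chd hc).2] at hi
        omega
      · rw [(sC_not hc).2] at hi ⊢
        rw [(sC_not hc).1]
        exact ih i hi (by omega)

theorem vs_good {p : ℕ → ℕ} {i : ℕ} (h : vs p i < i) :
    rho p i (gp p i).unpair.1 ≠ rho p i (gp p i).unpair.2 := by
  cases i with
  | zero => omega
  | succ i =>
    by_cases hc : Chd p i
    · rw [(sC_chd hc).2] at h
      omega
    · rw [(sC_not hc).1]
      exact hc

theorem exists_stable' {p : ℕ → ℕ} (hp : DIAG.inst p) : ∃ u, ∀ i ≥ u, ¬ Chd p i := by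
  classical
  obtain ⟨he, a, b, hab⟩ := hp
  have hle : ∀ i, gp p i ≤ Nat.pair a b := by
    intro i
    induction i with
    | zero => exact Nat.zero_le _
    | succ i ih =>
      by_cases h : Chd p i
      · rw [(sC_chd h).1]
        have : gp p i ≠ Nat.pair a b := by
          intro h'
          unfold Chd at h
          rw [h', Nat.unpair_pair] at h
          exact hab (rel_of_rho he h)
        omega
      · rw [(sC_not h).1]; exact ih
  have hmono : Monotone (gp p) := monotone_nat_of_le_succ fun i => by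
    by_cases h : Chd p i
    · rw [(sC_chd h).1]; omega
    · rw [(sC_not h).1]
  have hex : ∃ d s, Nat.pair a b - gp p s = d := ⟨_, 0, rfl⟩
  obtain ⟨s0, hs0⟩ := Nat.find_spec hex
  refine ⟨s0, fun i hi hch => ?_⟩
  have h1 : Nat.find hex ≤ Nat.pair a b - gp p (i + 1) := Nat.find_min' hex ⟨i + 1, rfl⟩
  have h2 := hle (i + 1)
  have h3 := hle s0
  have h4 := hmono hi
  rw [(sC_chd hch).1] at h1 h2
  omega

theorem vs_final {p : ℕ → ℕ} {u : ℕ} (hu : ∀ i ≥ u, ¬ Chd p i) :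
    ∀ i ≥ vs p u, vs p i = vs p u ∧ gp p i = gp p u := by
  have h1 : ∀ i ≥ u, vs p i = vs p u ∧ gp p i = gp p u := by
    intro i hi
    induction i, hi using Nat.le_induction with
    | base => exact ⟨rfl, rfl⟩
    | succ i hi ih => rw [(sC_not (hu i hi)).1, (sC_not (hu i hi)).2]; exact ih
  intro i hi
  rcases le_total u i with h | h
  · exact h1 i h
  · exact vs_between u i hi h

/-- The element `w` is seen at stage `i` to be in the class of the second element. -/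
def Oi (p : ℕ → ℕ) (i w : ℕ) : Prop :=
  vs p i = (w - 2).unpair.1 ∧ vs p i < i ∧ rho p i (w - 2).unpair.2 = rho p i (gp p i).unpair.2

/-- The element `w` is seen at stage `i` to be in the class of the first element. -/
def Ai (p : ℕ → ℕ) (i w : ℕ) : Prop :=
  vs p i = (w - 2).unpair.1 ∧ vs p i < i ∧ rho p i (w - 2).unpair.2 = rho p i (gp p i).unpair.1

/-- The version of `w` is over. -/
def Ni (p : ℕ → ℕ) (i w : ℕ) : Prop :=
  w ≤ i ∧ vs p i ≠ (w - 2).unpair.1 ∧ ¬ ∃ j < i, Oi p j w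

/-- The elements `w` and `w'` are seen to be equivalent at stage `i`. -/
def Ri (p : ℕ → ℕ) (i w w' : ℕ) : Prop :=
  2 ≤ w ∧ 2 ≤ w' ∧ vs p i = (w - 2).unpair.1 ∧ vs p i = (w' - 2).unpair.1 ∧ vs p i < i ∧
    rho p i (w - 2).unpair.2 = rho p i (w' - 2).unpair.2

/-- The class of `1`. -/
def OO (p : ℕ → ℕ) (w : ℕ) : Prop := w = 1 ∨ (2 ≤ w ∧ ∃ i, Oi p i w)

/-- The class of `0`. -/
def ZZ (p : ℕ → ℕ) (w : ℕ) : Prop := w = 0 ∨ (2 ≤ w ∧ ∃ i, (Ai p i w ∨ Ni p i w))

theorem same_vs {p : ℕ → ℕ} {i j : ℕ} (h : vs p i = vs p j) (hij : i ≤ j) : gp p i = gp p j := by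
  have h1 := vs_le p i
  exact (vs_between j i (by omega) hij).2

theorem oi_mono {p : ℕ → ℕ} {i j w : ℕ} (h : Oi p i w) (hij : i ≤ j) (hv : vs p i = vs p j) :
    Oi p j w := by
  obtain ⟨h1, h2, h3⟩ := h
  refine ⟨hv ▸ h1, by omega, ?_⟩
  rw [← same_vs hv hij]
  exact rho_mono hij h3

theorem ai_mono {p : ℕ → ℕ} {i j w : ℕ} (h : Ai p i w) (hij : i ≤ j) (hv : vs p i = vs p j) :
    Ai p j w := by
  obtain ⟨h1, h2, h3⟩ := h
  refine ⟨hv ▸ h1, by omega, ?_⟩
  rw [← same_vs hv hij]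
  exact rho_mono hij h3

theorem ri_mono {p : ℕ → ℕ} {i j w w' : ℕ} (h : Ri p i w w') (hij : i ≤ j)
    (hv : vs p i = vs p j) : Ri p j w w' := by
  obtain ⟨h1, h2, h3, h4, h5, h6⟩ := h
  exact ⟨h1, h2, hv ▸ h3, hv ▸ h4, by omega, rho_mono hij h6⟩

theorem ri_symm {p : ℕ → ℕ} {i w w' : ℕ} (h : Ri p i w w') : Ri p i w' w := by
  obtain ⟨h1, h2, h3, h4, h5, h6⟩ := h
  exact ⟨h2, h1, h4, h3, h5, h6.symm⟩

theorem oi_ri {p : ℕ → ℕ} {i j w w' : ℕ} (h : Oi p i w) (h' : Ri p j w w') : Oi p (max i j) w' := by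
  have hv : vs p i = vs p j := by rw [h.1, h'.2.2.1]
  have hm : vs p i = vs p (max i j) := by
    rcases le_total i j with hij | hij
    · rw [max_eq_right hij]; exact hv
    · rw [max_eq_left hij]
  have h1 := oi_mono h (le_max_left i j) hm
  have h2 := ri_mono h' (le_max_right i j) (hv.symm.trans hm)
  exact ⟨h2.2.2.2.1, h1.2.1, h2.2.2.2.2.2.symm.trans h1.2.2⟩

theorem ai_ri {p : ℕ → ℕ} {i j w w' : ℕ} (h : Ai p i w) (h' : Ri p j w w') : Ai p (max i j) w' := by
  have hv : vs p i = vs p j := by rw [h.1, h'.2.2.1]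
  have hm : vs p i = vs p (max i j) := by
    rcases le_total i j with hij | hij
    · rw [max_eq_right hij]; exact hv
    · rw [max_eq_left hij]
  have h1 := ai_mono h (le_max_left i j) hm
  have h2 := ri_mono h' (le_max_right i j) (hv.symm.trans hm)
  exact ⟨h2.2.2.2.1, h1.2.1, h2.2.2.2.2.2.symm.trans h1.2.2⟩

theorem oi_ai {p : ℕ → ℕ} {i j w : ℕ} (h : Oi p i w) (h' : Ai p j w) : False := by
  have hv : vs p i = vs p j := by rw [h.1, h'.1]
  have hm : vs p i = vs p (max i j) := by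
    rcases le_total i j with hij | hij
    · rw [max_eq_right hij]; exact hv
    · rw [max_eq_left hij]
  have h1 := oi_mono h (le_max_left i j) hm
  have h2 := ai_mono h' (le_max_right i j) (hv.symm.trans hm)
  exact vs_good h1.2.1 (h2.2.2.symm.trans h1.2.2)

theorem unpair_le {w : ℕ} (hw : 2 ≤ w) : (w - 2).unpair.1 ≤ w := by
  have := Nat.unpair_left_le (w - 2)
  omega

theorem oi_ni {p : ℕ → ℕ} {i j w : ℕ} (hw : 2 ≤ w) (h : Oi p i w) (h' : Ni p j w) : False := by
  obtain ⟨h1, h2, h3⟩ := h'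
  have hji : j ≤ i := by
    by_contra hcon
    exact h3 ⟨i, by omega, h⟩
  have h4 := unpair_le hw
  have h5 := h.1
  have h6 := (vs_between (p := p) i j (by omega) hji).1
  exact h2 (h6.trans h5)

theorem zz_oo {p : ℕ → ℕ} {w : ℕ} (h : ZZ p w) (h' : OO p w) : False := by
  rcases h with h | ⟨hw, i, h⟩
  · rcases h' with h' | ⟨h', -⟩ <;> omega
  · rcases h' with h' | ⟨-, j, h'⟩
    · omega
    · rcases h with h | h
      · exact oi_ai h' h
      · exact oi_ni hw h' h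

theorem oo_ri {p : ℕ → ℕ} {j w w' : ℕ} (h : OO p w) (h' : Ri p j w w') : OO p w' := by
  have hw := h'.1
  rcases h with h | ⟨-, i, h⟩
  · omega
  · exact Or.inr ⟨h'.2.1, _, oi_ri h h'⟩

theorem zz_ri {p : ℕ → ℕ} {j w w' : ℕ} (h : ZZ p w) (h' : Ri p j w w') : ZZ p w' := by
  have hw := h'.1
  have hzz := h
  rcases h with h | ⟨-, i, h | h⟩
  · omega
  · exact Or.inr ⟨h'.2.1, _, Or.inl (ai_ri h h')⟩
  · refine Or.inr ⟨h'.2.1, max i w', Or.inr ⟨le_max_right _ _, fun hv => ?_, ?_⟩⟩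
    · obtain ⟨h1, h2, -⟩ := h
      have h3 : vs p (max i w') = (w - 2).unpair.1 := by
        rw [hv, ← h'.2.2.2.1, h'.2.2.1]
      have h4 := unpair_le hw
      have h5 := (vs_between (p := p) (max i w') i (by omega) (le_max_left _ _)).1
      exact h2 (h5.trans h3)
    · rintro ⟨k, -, hk⟩
      exact zz_oo hzz (Or.inr ⟨hw, _, oi_ri hk (ri_symm h')⟩)

theorem ri_trans {p : ℕ → ℕ} {i j a b c : ℕ} (h : Ri p i a b) (h' : Ri p j b c) :
    Ri p (max i j) a c := by
  have hv : vs p i = vs p j := by rw [h.2.2.2.1, h'.2.2.1]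
  have hm : vs p i = vs p (max i j) := by
    rcases le_total i j with hij | hij
    · rw [max_eq_right hij]; exact hv
    · rw [max_eq_left hij]
  have h1 := ri_mono h (le_max_left i j) hm
  have h2 := ri_mono h' (le_max_right i j) (hv.symm.trans hm)
  exact ⟨h1.1, h2.2.1, h1.2.2.1, h2.2.2.2.1, h1.2.2.2.2.1, h1.2.2.2.2.2.trans h2.2.2.2.2.2⟩

/-- The equivalence relation. -/
def RB (p : ℕ → ℕ) (x y : ℕ) : Prop :=
  x = y ∨ (ZZ p x ∧ ZZ p y) ∨ (OO p x ∧ OO p y) ∨ ∃ i, Ri p i x y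

theorem rb_equiv (p : ℕ → ℕ) : Equivalence (RB p) := by
  refine ⟨fun x => Or.inl rfl, fun {x y} h => ?_, fun {x y z} h h' => ?_⟩
  · rcases h with h | h | h | ⟨i, h⟩
    · exact Or.inl h.symm
    · exact Or.inr (Or.inl ⟨h.2, h.1⟩)
    · exact Or.inr (Or.inr (Or.inl ⟨h.2, h.1⟩))
    · exact Or.inr (Or.inr (Or.inr ⟨i, ri_symm h⟩))
  · rcases h with h | h | h | ⟨i, h⟩
    · rw [h]; exact h'
    · rcases h' with h' | h' | h' | ⟨j, h'⟩
      · rw [← h']; exact Or.inr (Or.inl h)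
      · exact Or.inr (Or.inl ⟨h.1, h'.2⟩)
      · exact (zz_oo h.2 h'.1).elim
      · exact Or.inr (Or.inl ⟨h.1, zz_ri h.2 h'⟩)
    · rcases h' with h' | h' | h' | ⟨j, h'⟩
      · rw [← h']; exact Or.inr (Or.inr (Or.inl h))
      · exact (zz_oo h'.1 h.2).elim
      · exact Or.inr (Or.inr (Or.inl ⟨h.1, h'.2⟩))
      · exact Or.inr (Or.inr (Or.inl ⟨h.1, oo_ri h.2 h'⟩))
    · rcases h' with h' | h' | h' | ⟨j, h'⟩
      · rw [← h']; exact Or.inr (Or.inr (Or.inr ⟨i, h⟩))
      · exact Or.inr (Or.inl ⟨zz_ri h'.1 (ri_symm h), h'.2⟩)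
      · exact Or.inr (Or.inr (Or.inl ⟨oo_ri h'.1 (ri_symm h), h'.2⟩))
      · exact Or.inr (Or.inr (Or.inr ⟨_, ri_trans h h'⟩))

theorem rb_zero_one (p : ℕ → ℕ) : ¬ RB p 0 1 := by
  rintro (h | h | h | ⟨i, h⟩)
  · omega
  · rcases h.2 with h' | ⟨h', -⟩ <;> omega
  · rcases h.1 with h' | ⟨h', -⟩ <;> omega
  · have := h.1
    omega

end Pool.Agent.Helper583.WD
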