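import Pool.Agent.Helper583.WDCl1

/-!
DIAG reduces to the product of choice on the numbers and DIAG with a given inequivalent pair.
-/

namespace Pool.Agent.Helper583.WD

/-- The class of `1`, seen before stage `N`. -/
def OBd (p : ℕ → ℕ) (N w : ℕ) : Prop := w = 1 ∨ (2 ≤ w ∧ ∃ i < N, Oi p i w)

/-- The class of `0`, seen before stage `N`. -/
def ZBd (p : ℕ → ℕ) (N w : ℕ) : Prop := w = 0 ∨ (2 ≤ w ∧ ∃ i < N, (Ai p i w ∨ Ni p i w))

open Classical in
/-- The enumeration of the equivalence relation. -/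
noncomputable def eB (p : ℕ → ℕ) (k : ℕ) : ℕ :=
  if k.unpair.1.unpair.1 = k.unpair.1.unpair.2 ∨
    (ZBd p k.unpair.2 k.unpair.1.unpair.1 ∧ ZBd p k.unpair.2 k.unpair.1.unpair.2) ∨
    (OBd p k.unpair.2 k.unpair.1.unpair.1 ∧ OBd p k.unpair.2 k.unpair.1.unpair.2) ∨
    (∃ i < k.unpair.2, Ri p i k.unpair.1.unpair.1 k.unpair.1.unpair.2)
  then k.unpair.1 else 0

theorem rel_eB (p : ℕ → ℕ) (x y : ℕ) : Rel (eB p) x y ↔ RB p x y := by
  have h00 : Nat.pair 0 0 = 0 := by simp [Nat.pair]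
  have hZ : ∀ N w, ZBd p N w → ZZ p w := by
    rintro N w (h | ⟨h, i, -, h'⟩)
    · exact Or.inl h
    · exact Or.inr ⟨h, i, h'⟩
  have hO : ∀ N w, OBd p N w → OO p w := by
    rintro N w (h | ⟨h, i, -, h'⟩)
    · exact Or.inl h
    · exact Or.inr ⟨h, i, h'⟩
  have hZ' : ∀ w, ZZ p w → ∃ N, ∀ N' ≥ N, ZBd p N' w := by
    rintro w (h | ⟨h, i, h'⟩)
    · exact ⟨0, fun _ _ => Or.inl h⟩
    · exact ⟨i + 1, fun N' hN' => Or.inr ⟨h, i, by omega, h'⟩⟩
  have hO' : ∀ w, OO p w → ∃ N, ∀ N' ≥ N, OBd p N' w := by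
    rintro w (h | ⟨h, i, h'⟩)
    · exact ⟨0, fun _ _ => Or.inl h⟩
    · exact ⟨i + 1, fun N' hN' => Or.inr ⟨h, i, by omega, h'⟩⟩
  constructor
  · rintro ⟨k, hk⟩
    unfold eB at hk
    split_ifs at hk with h
    · rw [hk] at h
      simp only [Nat.unpair_pair] at h
      rcases h with h | h | h | ⟨i, -, h⟩
      · exact Or.inl h
      · exact Or.inr (Or.inl ⟨hZ _ _ h.1, hZ _ _ h.2⟩)
      · exact Or.inr (Or.inr (Or.inl ⟨hO _ _ h.1, hO _ _ h.2⟩))
      · exact Or.inr (Or.inr (Or.inr ⟨i, h⟩))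
    · have := Nat.pair_eq_pair.1 (h00.trans hk)
      exact Or.inl (this.1.symm.trans this.2)
  · rintro (h | ⟨h1, h2⟩ | ⟨h1, h2⟩ | ⟨i, h⟩)
    · refine ⟨Nat.pair (Nat.pair x y) 0, ?_⟩
      rw [eB, if_pos]
      · simp only [Nat.unpair_pair]
      · simp only [Nat.unpair_pair]
        exact Or.inl h
    · obtain ⟨T1, h1⟩ := hZ' x h1
      obtain ⟨T2, h2⟩ := hZ' y h2
      refine ⟨Nat.pair (Nat.pair x y) (max T1 T2), ?_⟩
      rw [eB, if_pos]
      · simp only [Nat.unpair_pair]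
      · simp only [Nat.unpair_pair]
        exact Or.inr (Or.inl ⟨h1 _ (le_max_left _ _), h2 _ (le_max_right _ _)⟩)
    · obtain ⟨T1, h1⟩ := hO' x h1
      obtain ⟨T2, h2⟩ := hO' y h2
      refine ⟨Nat.pair (Nat.pair x y) (max T1 T2), ?_⟩
      rw [eB, if_pos]
      · simp only [Nat.unpair_pair]
      · simp only [Nat.unpair_pair]
        exact Or.inr (Or.inr (Or.inl ⟨h1 _ (le_max_left _ _), h2 _ (le_max_right _ _)⟩))
    · refine ⟨Nat.pair (Nat.pair x y) (i + 1), ?_⟩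
      rw [eB, if_pos]
      · simp only [Nat.unpair_pair]
      · simp only [Nat.unpair_pair]
        exact Or.inr (Or.inr (Or.inr ⟨i, Nat.lt_succ_self i, h⟩))

theorem inst_eB (p : ℕ → ℕ) : DIAG01.inst (eB p) := by
  have h := rb_equiv p
  refine ⟨⟨fun x => ?_, fun {x y} h' => ?_, fun {x y z} h' h'' => ?_⟩, fun h' => ?_⟩
  · rw [rel_eB]; exact h.refl x
  · rw [rel_eB] at *; exact h.symm h'
  · rw [rel_eB] at *; exact h.trans h' h''
  · rw [rel_eB] at h'
    exact rb_zero_one p h'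

open Classical in
/-- Reading a diagonal value. -/
noncomputable def dec (p : ℕ → ℕ) (u v : ℕ) : ℕ :=
  if v = 0 then (gp p u).unpair.1 else if v = 1 then (gp p u).unpair.2
  else if (v - 2).unpair.1 = vs p u then (v - 2).unpair.2
  else if ∃ i < vs p u, Oi p i v then (gp p u).unpair.2 else (gp p u).unpair.1

theorem dec_spec {p : ℕ → ℕ} {u : ℕ} (hu : ∀ i ≥ u, ¬ Chd p i)
    {v x : ℕ} (hv : ¬ RB p v (Nat.pair (vs p u) x + 2)) : ¬ Rel p (dec p u v) x := by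
  have hfin := vs_final hu
  -- the classes of the two elements
  have hA : Rel p (gp p u).unpair.1 x → ZZ p (Nat.pair (vs p u) x + 2) := by
    intro h
    obtain ⟨i, hi⟩ := rho_of_rel h
    have h1 := hfin (max i (vs p u + 1)) (by omega)
    refine Or.inr ⟨by omega, max i (vs p u + 1), Or.inl ⟨?_, by rw [h1.1]; omega, ?_⟩⟩
    · rw [Nat.add_sub_cancel, Nat.unpair_pair, h1.1]
    · rw [Nat.add_sub_cancel, Nat.unpair_pair, h1.2]
      exact (hi _ (le_max_left _ _)).symm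
  have hB : Rel p (gp p u).unpair.2 x → OO p (Nat.pair (vs p u) x + 2) := by
    intro h
    obtain ⟨i, hi⟩ := rho_of_rel h
    have h1 := hfin (max i (vs p u + 1)) (by omega)
    refine Or.inr ⟨by omega, max i (vs p u + 1), ?_, by rw [h1.1]; omega, ?_⟩
    · rw [Nat.add_sub_cancel, Nat.unpair_pair, h1.1]
    · rw [Nat.add_sub_cancel, Nat.unpair_pair, h1.2]
      exact (hi _ (le_max_left _ _)).symm
  have hcaseA : ZZ p v → ¬ Rel p (gp p u).unpair.1 x := fun h h' =>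
    hv (Or.inr (Or.inl ⟨h, hA h'⟩))
  have hcaseB : OO p v → ¬ Rel p (gp p u).unpair.2 x := fun h h' =>
    hv (Or.inr (Or.inr (Or.inl ⟨h, hB h'⟩)))
  unfold dec
  split_ifs with h0 h1 h2 h3
  · exact hcaseA (Or.inl h0)
  · exact hcaseB (Or.inl h1)
  · intro h
    obtain ⟨i, hi⟩ := rho_of_rel h
    have h4 := hfin (max i (vs p u + 1)) (by omega)
    apply hv
    refine Or.inr (Or.inr (Or.inr ⟨max i (vs p u + 1), by omega, by omega, ?_, ?_, by
      rw [h4.1]; omega, ?_⟩))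
    · rw [h4.1, h2]
    · rw [Nat.add_sub_cancel, Nat.unpair_pair, h4.1]
    · rw [Nat.add_sub_cancel, Nat.unpair_pair]
      exact hi _ (le_max_left _ _)
  · obtain ⟨i, -, h3⟩ := h3
    exact hcaseB (Or.inr ⟨by omega, i, h3⟩)
  · have h4 := hfin (max v (vs p u)) (le_max_right _ _)
    refine hcaseA (Or.inr ⟨by omega, max v (vs p u), Or.inr ⟨le_max_left _ _, ?_, ?_⟩⟩)
    · rw [h4.1]; exact fun h => h2 h.symm
    · rintro ⟨j, -, hj⟩
      by_cases hju : j < vs p u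
      · exact h3 ⟨j, hju, hj⟩
      · have h5 := hfin j (not_lt.1 hju)
        exact h2 (hj.1.symm.trans h5.1)

/-! Continuity. -/

theorem oi_congr {p q : ℕ → ℕ} {i w : ℕ} (h : ∀ j < i, p j = q j) : Oi p i w ↔ Oi q i w := by
  unfold Oi vs rho gp
  rw [sC_congr h]

theorem ai_congr {p q : ℕ → ℕ} {i w : ℕ} (h : ∀ j < i, p j = q j) : Ai p i w ↔ Ai q i w := by
  unfold Ai vs rho gp
  rw [sC_congr h]

theorem ri_congr {p q : ℕ → ℕ} {i w w' : ℕ} (h : ∀ j < i, p j = q j) :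
    Ri p i w w' ↔ Ri q i w w' := by
  unfold Ri vs rho
  rw [sC_congr h]

theorem exoi_congr {p q : ℕ → ℕ} {N w : ℕ} (h : ∀ j < N, p j = q j) :
    (∃ j < N, Oi p j w) ↔ ∃ j < N, Oi q j w := by
  constructor
  · rintro ⟨j, hj, h'⟩
    exact ⟨j, hj, (oi_congr fun i hi => h i (by omega)).1 h'⟩
  · rintro ⟨j, hj, h'⟩
    exact ⟨j, hj, (oi_congr fun i hi => h i (by omega)).2 h'⟩

theorem ni_congr {p q : ℕ → ℕ} {i w : ℕ} (h : ∀ j < i, p j = q j) : Ni p i w ↔ Ni q i w := by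
  unfold Ni
  rw [exoi_congr h]
  unfold vs
  rw [sC_congr h]

theorem eB_congr {p q : ℕ → ℕ} {k : ℕ} (h : ∀ i < k.unpair.2, p i = q i) : eB p k = eB q k := by
  have hO : ∀ w, OBd p k.unpair.2 w ↔ OBd q k.unpair.2 w := fun w => by
    unfold OBd
    rw [exoi_congr h]
  have hZ : ∀ w, ZBd p k.unpair.2 w ↔ ZBd q k.unpair.2 w := fun w => by
    unfold ZBd
    constructor
    · rintro (h' | ⟨h1, i, hi, h'⟩)
      · exact Or.inl h'
      · refine Or.inr ⟨h1, i, hi, ?_⟩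
        rwa [← ai_congr fun j hj => h j (by omega), ← ni_congr fun j hj => h j (by omega)]
    · rintro (h' | ⟨h1, i, hi, h'⟩)
      · exact Or.inl h'
      · refine Or.inr ⟨h1, i, hi, ?_⟩
        rwa [ai_congr fun j hj => h j (by omega), ni_congr fun j hj => h j (by omega)]
  have hR : ∀ w w', (∃ i < k.unpair.2, Ri p i w w') ↔ ∃ i < k.unpair.2, Ri q i w w' := by
    intro w w'
    constructor
    · rintro ⟨j, hj, h'⟩
      exact ⟨j, hj, (ri_congr fun i hi => h i (by omega)).1 h'⟩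
    · rintro ⟨j, hj, h'⟩
      exact ⟨j, hj, (ri_congr fun i hi => h i (by omega)).2 h'⟩
  have hc : (k.unpair.1.unpair.1 = k.unpair.1.unpair.2 ∨
    (ZBd p k.unpair.2 k.unpair.1.unpair.1 ∧ ZBd p k.unpair.2 k.unpair.1.unpair.2) ∨
    (OBd p k.unpair.2 k.unpair.1.unpair.1 ∧ OBd p k.unpair.2 k.unpair.1.unpair.2) ∨
    (∃ i < k.unpair.2, Ri p i k.unpair.1.unpair.1 k.unpair.1.unpair.2)) ↔
    (k.unpair.1.unpair.1 = k.unpair.1.unpair.2 ∨
    (ZBd q k.unpair.2 k.unpair.1.unpair.1 ∧ ZBd q k.unpair.2 k.unpair.1.unpair.2) ∨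
    (OBd q k.unpair.2 k.unpair.1.unpair.1 ∧ OBd q k.unpair.2 k.unpair.1.unpair.2) ∨
    (∃ i < k.unpair.2, Ri q i k.unpair.1.unpair.1 k.unpair.1.unpair.2)) := by
    rw [hO, hO, hZ, hZ, hR]
  unfold eB
  by_cases hq : (k.unpair.1.unpair.1 = k.unpair.1.unpair.2 ∨
    (ZBd q k.unpair.2 k.unpair.1.unpair.1 ∧ ZBd q k.unpair.2 k.unpair.1.unpair.2) ∨
    (OBd q k.unpair.2 k.unpair.1.unpair.1 ∧ OBd q k.unpair.2 k.unpair.1.unpair.2) ∨
    (∃ i < k.unpair.2, Ri q i k.unpair.1.unpair.1 k.unpair.1.unpair.2))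
  · rw [if_pos hq, if_pos (hc.2 hq)]
  · rw [if_neg hq, if_neg (fun h' => hq (hc.1 h'))]

theorem dec_congr {p q : ℕ → ℕ} {u v : ℕ} (h : ∀ j < u, p j = q j) : dec p u v = dec q u v := by
  have h1 : sC p u = sC q u := sC_congr h
  have h2 : vs p u = vs q u := by unfold vs; rw [h1]
  have h3 : gp p u = gp q u := by unfold gp; rw [h1]
  have h4 : (∃ i < vs p u, Oi p i v) ↔ ∃ i < vs q u, Oi q i v := by
    rw [← h2]
    exact exoi_congr fun j hj => h j (lt_of_lt_of_le hj (vs_le p u))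
  unfold dec
  rw [h2, h3]
  by_cases h5 : ∃ i < vs q u, Oi q i v
  · rw [h2] at h4
    simp only [h5, h4.2 h5]
  · rw [h2] at h4
    have h6 : ¬ ∃ i < vs q u, Oi p i v := fun h => h5 (h4.1 h)
    simp only [h5, h6]

theorem chd_congr {p q : ℕ → ℕ} {i : ℕ} (h : ∀ j < i + 1, p j = q j) : Chd p i ↔ Chd q i := by
  unfold Chd rho gp
  rw [sC_congr h, sC_congr (p := p) (q := q) (i := i) (fun j hj => h j (by omega))]

open Classical in
/-- The instance of choice: stages after which the guess changes are excluded. -/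
noncomputable def cB (p : ℕ → ℕ) (k : ℕ) : ℕ :=
  if k.unpair.1 ≤ k.unpair.2 ∧ Chd p k.unpair.2 then k.unpair.1 + 1 else 0

theorem cB_congr {p q : ℕ → ℕ} {k : ℕ} (h : ∀ j < k + 1, p j = q j) : cB p k = cB q k := by
  have h1 := Nat.unpair_right_le k
  have h2 : Chd p k.unpair.2 ↔ Chd q k.unpair.2 := chd_congr fun j hj => h j (by omega)
  unfold cB
  by_cases h3 : Chd q k.unpair.2
  · simp only [h3, h2.2 h3]
  · have h4 : ¬ Chd p k.unpair.2 := fun h => h3 (h2.1 h)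
    simp only [h3, h4]

theorem cB_spec (p : ℕ → ℕ) (u : ℕ) : (∀ k, cB p k ≠ u + 1) ↔ ∀ i ≥ u, ¬ Chd p i := by
  constructor
  · intro h i hi hc
    apply h (Nat.pair u i)
    unfold cB
    rw [Nat.unpair_pair]
    simp only
    rw [if_pos ⟨hi, hc⟩]
  · intro h k hk
    unfold cB at hk
    split_ifs at hk with hc
    have : k.unpair.1 = u := by omega
    exact h _ (this ▸ hc.1) hc.2

end Pool.Agent.Helper583.WD
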