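import Pool.Agent.Helper583.WDIvt4
import Pool.Agent.Helper583.WDAb2

/-!
Choice on the natural numbers does not help to compute DNR; DIAG is not reducible to the product
of choice on the natural numbers and connected choice.
-/

namespace Pool.Agent.Helper583.WD

theorem drop_cn {Q : Problem} (h : CLE (DNR ⊤) (prod CN Q)) : CLE (DNR ⊤) Q := by
  classical
  obtain ⟨F, G, cF, iF, dG, sG⟩ := cle_iff.1 h
  -- a fixed answer for choice
  obtain ⟨pb, M0, n0, hgb, hn0⟩ : ∃ (pb : ℕ → ℕ) (M0 n0 : ℕ), Good ∅ pb M0 ∧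
      ∀ p', (∀ j < M0, p' j = pb j) → Ins ∅ p' → ∀ k, left (F p') k ≠ n0 + 1 := by
    by_contra hcon
    push Not at hcon
    let C : (ℕ → ℕ) → ℕ → Prop := fun p M => Good ∅ p M
    let D : ℕ → (ℕ → ℕ) → ℕ → Prop := fun n p M =>
      ∀ q, (∀ j < M, q j = p j) → Ins ∅ q → ∃ k, left (F q) k = n + 1
    have h0 : C (fun _ => 0) 0 :=
      ⟨fun s hs => absurd hs (Nat.not_lt_zero s), fun s hs => absurd hs (Nat.not_lt_zero s)⟩
    have step : ∀ i u M, C u M → ∃ u' M', M < M' ∧ (∀ j < M, u' j = u j) ∧ C u' M' ∧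
        D i u' M' := by
      intro i u M hu
      obtain ⟨p', hp', hI, k, hk⟩ := hcon u M i hu
      obtain ⟨m, hm⟩ := cF p' hI.1 (2 * k)
      refine ⟨p', M + m + 1, by omega, hp', hI.good _, fun q hq hqI => ⟨k, ?_⟩⟩
      have := hm q hqI.1 (fun j hj => hq j (by omega))
      show F q (2 * k) = i + 1
      rw [this]
      exact hk
    obtain ⟨p, -, hp⟩ := generic (C := C) (D := D) (fun _ => 0) 0 h0 step
    have hpI : Ins ∅ p := by
      refine ⟨?_, fun _ _ _ _ => Finset.notMem_empty _⟩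
      intro s t e v u hs ht
      obtain ⟨p', M', hi, -, hag, h1, -⟩ := hp (s + t)
      rw [hag s (by omega)] at hs
      rw [hag t (by omega)] at ht
      exact h1.1 s (by omega) t (by omega) e v u hs ht
    obtain ⟨⟨n, hn⟩, -⟩ := iF p hpI.1
    obtain ⟨p', M', -, -, hag, -, hD⟩ := hp n
    obtain ⟨k, hk⟩ := hD p hag hpI
    exact hn k hk
  -- shifting the indices
  obtain ⟨N, hN⟩ : ∃ N, ∀ t < M0, ∀ n v, pb t = Nat.pair n v + 1 → n < N := by
    refine ⟨(Finset.range M0).sup (fun t => (pb t - 1).unpair.1) + 1, fun t ht n v hv => ?_⟩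
    have := Finset.le_sup (f := fun t => (pb t - 1).unpair.1) (Finset.mem_range.2 ht)
    rw [hv, Nat.add_sub_cancel, Nat.unpair_pair] at this
    simp only at this
    omega
  obtain ⟨S, hS⟩ : ∃ S : (ℕ → ℕ) → ℕ → ℕ, ∀ p, S p = glue pb M0 (fun t =>
      if p t = 0 then 0 else
        Nat.pair ((p t - 1).unpair.1 + N) (p t - 1).unpair.2 + 1) := ⟨_, fun _ => rfl⟩
  have hS1 : ∀ p, ∀ j < M0, S p j = pb j := fun p j hj => by rw [hS]; exact glue_lt hj
  have hS2 : ∀ p t n v, p t = Nat.pair n v + 1 → S p (M0 + t) = Nat.pair (n + N) v + 1 := by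
    intro p t n v ht
    rw [hS, glue_ge, if_neg (by omega), ht, Nat.add_sub_cancel, Nat.unpair_pair]
  have key : ∀ p t e v, S p t = Nat.pair e v + 1 → (t < M0 ∧ pb t = Nat.pair e v + 1 ∧ e < N) ∨
      ∃ e' t', e = e' + N ∧ p t' = Nat.pair e' v + 1 := by
    intro p t e v ht
    by_cases h1 : t < M0
    · rw [hS1 p t h1] at ht
      exact Or.inl ⟨h1, ht, hN t h1 e v ht⟩
    · obtain ⟨t', rfl⟩ := Nat.exists_eq_add_of_le (not_lt.1 h1)
      rw [hS, glue_ge] at ht
      split_ifs at ht with h2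
      obtain ⟨e1, e2⟩ := Nat.pair_eq_pair.1 (Nat.succ_injective ht)
      refine Or.inr ⟨_, t', e1.symm, ?_⟩
      rw [← e2, Nat.pair_unpair]
      omega
  have hSI : ∀ p, (DNR ⊤).inst p → Ins ∅ (S p) := by
    intro p hp
    refine ⟨?_, fun _ _ _ _ => Finset.notMem_empty _⟩
    intro s t e v w hs ht
    rcases key p s e v hs with ⟨h1, h2, h3⟩ | ⟨e1, s', h1, h2⟩ <;>
      rcases key p t e w ht with ⟨h4, h5, h6⟩ | ⟨e2, t', h4, h5⟩
    · exact hgb.1 s h1 t h4 e v w h2 h5
    · omega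
    · omega
    · have : e1 = e2 := by omega
      subst this
      exact hp s' t' e1 v w h2 h5
  have cS : ContOn (DNR ⊤).inst S := by
    intro p _ t
    refine ⟨t + 1, fun p' _ hag => ?_⟩
    rw [hS, hS]
    by_cases h1 : t < M0
    · rw [glue_lt h1, glue_lt h1]
    · obtain ⟨t', rfl⟩ := Nat.exists_eq_add_of_le (not_lt.1 h1)
      rw [glue_ge, glue_ge, hag t' (by omega)]
  refine cle_iff.2 ⟨fun p => right (F (S p)), fun z n =>
    G (join (S (left z)) (join (fun _ => n0) (right z))) (n + N), ?_, ?_, ?_, ?_⟩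
  · exact (contOn_right (D := fun _ => True)).comp (cF.comp cS fun p hp => (hSI p hp).1)
      fun _ _ => trivial
  · exact fun p hp => (iF _ (hSI p hp).1).2
  · have h1 : ContOn (fun z => (DNR ⊤).inst (left z) ∧ Q.sol (right (F (S (left z)))) (right z))
        (fun z => G (join (S (left z)) (join (fun _ => n0) (right z)))) := by
      refine dG.comp (contOn_join (cS.comp contOn_left fun z hz => hz.1)
        (contOn_join (contOn_const _) contOn_right)) ?_
      rintro z ⟨hz1, hz2⟩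
      rw [left_join, right_join]
      refine ⟨(hSI _ hz1).1, ?_, ?_⟩
      · rw [left_join]
        exact hn0 _ (hS1 _) (hSI _ hz1)
      · rw [right_join]; exact hz2
    exact fun z hz n => h1 z hz (n + N)
  · intro p q hp hq n
    have h1 := sG (S p) (join (fun _ => n0) q) (hSI p hp).1 ⟨by
      rw [left_join]; exact hn0 _ (hS1 _) (hSI _ hp), by rw [right_join]; exact hq⟩
    dsimp only
    rw [left_join, right_join]
    exact ⟨(h1 (n + N)).1, fun t ht => (h1 (n + N)).2 (M0 + t) (hS2 p t n _ ht)⟩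

theorem diag_not_cn_cc : ¬ CLE DIAG (prod CN CC) := fun h =>
  dnr_not_cc (drop_cn (((dnr_le_prod ⊤).trans cn_dnr_le.cle).trans h))

theorem cn_cc_le : CLE (prod CN CC) DIAG :=
  (CLE.prod_mono (CLE.refl CN) cc_le.cle).trans cn_diag_le.cle

end Pool.Agent.Helper583.WD
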