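import Pool.Agent.Helper583.WDCl2
import Pool.Agent.Helper583.WDDrop

/-!
DIAG reduces to the product of choice on the numbers and DIAG with a given inequivalent pair:
computability.
-/

namespace Pool.Agent.Helper583.WD

theorem primrec_rep {α : Type*} [Primcodable α] {L : α → List (ℕ × ℕ)} {x : α → ℕ}
    (hL : Primrec L) (hx : Primrec x) : Primrec fun a => rep (L a) (x a) := by
  unfold rep
  refine Primrec.list_foldl (h := fun (_ : α) (y : ℕ × (ℕ × ℕ)) =>
    if y.1 = y.2.1 then y.2.2 else y.1) hL hx ?_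
  have h1 : Primrec fun y : α × (ℕ × (ℕ × ℕ)) => y.2.1 := Primrec.fst.comp Primrec.snd
  have h2 : Primrec fun y : α × (ℕ × (ℕ × ℕ)) => y.2.2.1 :=
    Primrec.fst.comp (Primrec.snd.comp Primrec.snd)
  have h3 : Primrec fun y : α × (ℕ × (ℕ × ℕ)) => y.2.2.2 :=
    Primrec.snd.comp (Primrec.snd.comp Primrec.snd)
  exact Primrec.ite (Primrec.eq.comp h1 h2) h3 h1

theorem primrec_sC (m : ℕ) :
    Primrec fun a : List ℕ × ℕ => sC (fun k => tf a.1 (m * k)) a.2 := by
  have hstep : Primrec₂ fun (a : List ℕ × ℕ) (x : ℕ × (List (ℕ × ℕ) × ℕ × ℕ)) =>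
      (if rep (x.2.1 ++ [(rep x.2.1 (tf a.1 (m * x.1)).unpair.2,
            rep x.2.1 (tf a.1 (m * x.1)).unpair.1)]) x.2.2.1.unpair.1 =
          rep (x.2.1 ++ [(rep x.2.1 (tf a.1 (m * x.1)).unpair.2,
            rep x.2.1 (tf a.1 (m * x.1)).unpair.1)]) x.2.2.1.unpair.2
        then (x.2.1 ++ [(rep x.2.1 (tf a.1 (m * x.1)).unpair.2,
            rep x.2.1 (tf a.1 (m * x.1)).unpair.1)], x.2.2.1 + 1, x.1 + 1)
        else (x.2.1 ++ [(rep x.2.1 (tf a.1 (m * x.1)).unpair.2,
            rep x.2.1 (tf a.1 (m * x.1)).unpair.1)], x.2.2.1, x.2.2.2) :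
        List (ℕ × ℕ) × ℕ × ℕ) := by
    have hi : Primrec fun y : (List ℕ × ℕ) × (ℕ × (List (ℕ × ℕ) × ℕ × ℕ)) => y.2.1 :=
      Primrec.fst.comp Primrec.snd
    have hL : Primrec fun y : (List ℕ × ℕ) × (ℕ × (List (ℕ × ℕ) × ℕ × ℕ)) => y.2.2.1 :=
      Primrec.fst.comp (Primrec.snd.comp Primrec.snd)
    have hg : Primrec fun y : (List ℕ × ℕ) × (ℕ × (List (ℕ × ℕ) × ℕ × ℕ)) => y.2.2.2.1 :=
      Primrec.fst.comp (Primrec.snd.comp (Primrec.snd.comp Primrec.snd))
    have hv : Primrec fun y : (List ℕ × ℕ) × (ℕ × (List (ℕ × ℕ) × ℕ × ℕ)) => y.2.2.2.2 :=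
      Primrec.snd.comp (Primrec.snd.comp (Primrec.snd.comp Primrec.snd))
    have hp : Primrec fun y : (List ℕ × ℕ) × (ℕ × (List (ℕ × ℕ) × ℕ × ℕ)) =>
        (tf y.1.1 (m * y.2.1)).unpair :=
      Primrec.unpair.comp (primrec_tf (Primrec.fst.comp Primrec.fst)
        (Primrec.nat_mul.comp (Primrec.const m) hi))
    have hL' : Primrec fun y : (List ℕ × ℕ) × (ℕ × (List (ℕ × ℕ) × ℕ × ℕ)) =>
        y.2.2.1 ++ [(rep y.2.2.1 (tf y.1.1 (m * y.2.1)).unpair.2,
          rep y.2.2.1 (tf y.1.1 (m * y.2.1)).unpair.1)] :=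
      Primrec.list_append.comp hL (Primrec.list_cons.comp
        ((primrec_rep hL (Primrec.snd.comp hp)).pair (primrec_rep hL (Primrec.fst.comp hp)))
        (Primrec.const []))
    have hg' := Primrec.unpair.comp hg
    exact Primrec.ite (Primrec.eq.comp (primrec_rep hL' (Primrec.fst.comp hg'))
      (primrec_rep hL' (Primrec.snd.comp hg')))
      (hL'.pair ((Primrec.succ.comp hg).pair (Primrec.succ.comp hi)))
      (hL'.pair (hg.pair hv))
  refine (Primrec.nat_rec' (f := fun a : List ℕ × ℕ => a.2)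
    (g := fun _ => (([], 0, 0) : List (ℕ × ℕ) × ℕ × ℕ))
    Primrec.snd (Primrec.const _) hstep).of_eq ?_
  rintro ⟨w, s⟩
  induction s with
  | zero => rfl
  | succ s ih =>
    simp only at ih ⊢
    rw [sC, ← ih]

section

variable {α : Type*} [Primcodable α] {w : α → List ℕ} {i u v : α → ℕ} (m : ℕ)

theorem primrec_rho (hw : Primrec w) (hi : Primrec i) (hu : Primrec u) :
    Primrec fun x => rho (fun k => tf (w x) (m * k)) (i x) (u x) := by
  unfold rho
  exact primrec_rep (Primrec.fst.comp ((primrec_sC m).comp (hw.pair hi))) hu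

theorem primrec_gp (hw : Primrec w) (hi : Primrec i) :
    Primrec fun x => gp (fun k => tf (w x) (m * k)) (i x) := by
  unfold gp
  exact Primrec.fst.comp (Primrec.snd.comp ((primrec_sC m).comp (hw.pair hi)))

theorem primrec_vs (hw : Primrec w) (hi : Primrec i) :
    Primrec fun x => vs (fun k => tf (w x) (m * k)) (i x) := by
  unfold vs
  exact Primrec.snd.comp (Primrec.snd.comp ((primrec_sC m).comp (hw.pair hi)))

theorem primrec_oi (hw : Primrec w) (hi : Primrec i) (hu : Primrec u) :
    PrimrecPred fun x => Oi (fun k => tf (w x) (m * k)) (i x) (u x) := by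
  unfold Oi
  have h1 : Primrec fun x => (u x - 2).unpair :=
    Primrec.unpair.comp (Primrec.nat_sub.comp hu (Primrec.const 2))
  exact PrimrecPred.and (Primrec.eq.comp (primrec_vs m hw hi) (Primrec.fst.comp h1))
    (PrimrecPred.and (Primrec.nat_lt.comp (primrec_vs m hw hi) hi)
      (Primrec.eq.comp (primrec_rho m hw hi (Primrec.snd.comp h1))
        (primrec_rho m hw hi (Primrec.snd.comp (Primrec.unpair.comp (primrec_gp m hw hi))))))

theorem primrec_ai (hw : Primrec w) (hi : Primrec i) (hu : Primrec u) :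
    PrimrecPred fun x => Ai (fun k => tf (w x) (m * k)) (i x) (u x) := by
  unfold Ai
  have h1 : Primrec fun x => (u x - 2).unpair :=
    Primrec.unpair.comp (Primrec.nat_sub.comp hu (Primrec.const 2))
  exact PrimrecPred.and (Primrec.eq.comp (primrec_vs m hw hi) (Primrec.fst.comp h1))
    (PrimrecPred.and (Primrec.nat_lt.comp (primrec_vs m hw hi) hi)
      (Primrec.eq.comp (primrec_rho m hw hi (Primrec.snd.comp h1))
        (primrec_rho m hw hi (Primrec.fst.comp (Primrec.unpair.comp (primrec_gp m hw hi))))))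

theorem primrec_exoi (hw : Primrec w) (hi : Primrec i) (hu : Primrec u) :
    PrimrecPred fun x => ∃ j < i x, Oi (fun k => tf (w x) (m * k)) j (u x) :=
  ex_lt (R := fun j (x : α) => Oi (fun k => tf (w x) (m * k)) j (u x))
    (primrec_oi m (w := fun y : ℕ × α => w y.2) (i := fun y => y.1) (u := fun y => u y.2)
      (hw.comp Primrec.snd) Primrec.fst (hu.comp Primrec.snd)) hi

theorem primrec_ni (hw : Primrec w) (hi : Primrec i) (hu : Primrec u) :
    PrimrecPred fun x => Ni (fun k => tf (w x) (m * k)) (i x) (u x) := by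
  unfold Ni
  have h1 : Primrec fun x => (u x - 2).unpair :=
    Primrec.unpair.comp (Primrec.nat_sub.comp hu (Primrec.const 2))
  exact PrimrecPred.and (Primrec.nat_le.comp hu hi)
    (PrimrecPred.and (PrimrecPred.not (Primrec.eq.comp (primrec_vs m hw hi)
      (Primrec.fst.comp h1))) (PrimrecPred.not (primrec_exoi m hw hi hu)))

theorem primrec_ri (hw : Primrec w) (hi : Primrec i) (hu : Primrec u) (hv : Primrec v) :
    PrimrecPred fun x => Ri (fun k => tf (w x) (m * k)) (i x) (u x) (v x) := by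
  unfold Ri
  have h1 : Primrec fun x => (u x - 2).unpair :=
    Primrec.unpair.comp (Primrec.nat_sub.comp hu (Primrec.const 2))
  have h2 : Primrec fun x => (v x - 2).unpair :=
    Primrec.unpair.comp (Primrec.nat_sub.comp hv (Primrec.const 2))
  exact PrimrecPred.and (Primrec.nat_le.comp (Primrec.const 2) hu)
    (PrimrecPred.and (Primrec.nat_le.comp (Primrec.const 2) hv)
    (PrimrecPred.and (Primrec.eq.comp (primrec_vs m hw hi) (Primrec.fst.comp h1))
    (PrimrecPred.and (Primrec.eq.comp (primrec_vs m hw hi) (Primrec.fst.comp h2))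
    (PrimrecPred.and (Primrec.nat_lt.comp (primrec_vs m hw hi) hi)
    (Primrec.eq.comp (primrec_rho m hw hi (Primrec.snd.comp h1))
      (primrec_rho m hw hi (Primrec.snd.comp h2)))))))

theorem primrec_zbd (hw : Primrec w) (hi : Primrec i) (hu : Primrec u) :
    PrimrecPred fun x => ZBd (fun k => tf (w x) (m * k)) (i x) (u x) := by
  unfold ZBd
  exact PrimrecPred.or (Primrec.eq.comp hu (Primrec.const 0))
    (PrimrecPred.and (Primrec.nat_le.comp (Primrec.const 2) hu)
      (ex_lt (R := fun j (x : α) => Ai (fun k => tf (w x) (m * k)) j (u x) ∨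
        Ni (fun k => tf (w x) (m * k)) j (u x))
        (PrimrecPred.or
          (primrec_ai m (w := fun y : ℕ × α => w y.2) (i := fun y => y.1) (u := fun y => u y.2)
            (hw.comp Primrec.snd) Primrec.fst (hu.comp Primrec.snd))
          (primrec_ni m (w := fun y : ℕ × α => w y.2) (i := fun y => y.1) (u := fun y => u y.2)
            (hw.comp Primrec.snd) Primrec.fst (hu.comp Primrec.snd))) hi))

theorem primrec_obd (hw : Primrec w) (hi : Primrec i) (hu : Primrec u) :
    PrimrecPred fun x => OBd (fun k => tf (w x) (m * k)) (i x) (u x) := by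
  unfold OBd
  exact PrimrecPred.or (Primrec.eq.comp hu (Primrec.const 1))
    (PrimrecPred.and (Primrec.nat_le.comp (Primrec.const 2) hu) (primrec_exoi m hw hi hu))

theorem primrec_exri (hw : Primrec w) (hi : Primrec i) (hu : Primrec u) (hv : Primrec v) :
    PrimrecPred fun x => ∃ j < i x, Ri (fun k => tf (w x) (m * k)) j (u x) (v x) :=
  ex_lt (R := fun j (x : α) => Ri (fun k => tf (w x) (m * k)) j (u x) (v x))
    (primrec_ri m (w := fun y : ℕ × α => w y.2) (i := fun y => y.1) (u := fun y => u y.2)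
      (v := fun y => v y.2) (hw.comp Primrec.snd) Primrec.fst (hu.comp Primrec.snd)
      (hv.comp Primrec.snd)) hi

theorem primrec_eB' (hw : Primrec w) (hi : Primrec i) :
    Primrec fun x => eB (fun k => tf (w x) (m * k)) (i x) := by
  classical
  unfold eB
  have h1 : Primrec fun x => (i x).unpair.1 := Primrec.fst.comp (Primrec.unpair.comp hi)
  have h2 : Primrec fun x => (i x).unpair.2 := Primrec.snd.comp (Primrec.unpair.comp hi)
  have h3 : Primrec fun x => (i x).unpair.1.unpair.1 := Primrec.fst.comp (Primrec.unpair.comp h1)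
  have h4 : Primrec fun x => (i x).unpair.1.unpair.2 := Primrec.snd.comp (Primrec.unpair.comp h1)
  exact Primrec.ite (PrimrecPred.or (Primrec.eq.comp h3 h4)
    (PrimrecPred.or (PrimrecPred.and (primrec_zbd m hw h2 h3) (primrec_zbd m hw h2 h4))
    (PrimrecPred.or (PrimrecPred.and (primrec_obd m hw h2 h3) (primrec_obd m hw h2 h4))
      (primrec_exri m hw h2 h3 h4)))) h1 (Primrec.const 0)

theorem primrec_cB' (hw : Primrec w) (hi : Primrec i) :
    Primrec fun x => cB (fun k => tf (w x) (m * k)) (i x) := by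
  classical
  have h1 : Primrec fun x => (i x).unpair.1 := Primrec.fst.comp (Primrec.unpair.comp hi)
  have h2 : Primrec fun x => (i x).unpair.2 := Primrec.snd.comp (Primrec.unpair.comp hi)
  have h3 : Primrec fun x => (gp (fun k => tf (w x) (m * k)) (i x).unpair.2).unpair :=
    Primrec.unpair.comp (primrec_gp m hw h2)
  have hC : PrimrecPred fun x => Chd (fun k => tf (w x) (m * k)) (i x).unpair.2 := by
    unfold Chd
    exact Primrec.eq.comp (primrec_rho m hw (Primrec.succ.comp h2) (Primrec.fst.comp h3))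
      (primrec_rho m hw (Primrec.succ.comp h2) (Primrec.snd.comp h3))
  unfold cB
  exact Primrec.ite (PrimrecPred.and (Primrec.nat_le.comp h1 h2) hC)
    (Primrec.succ.comp h1) (Primrec.const 0)

theorem primrec_dec (hw : Primrec w) (hu : Primrec u) (hv : Primrec v) :
    Primrec fun x => dec (fun k => tf (w x) (m * k)) (u x) (v x) := by
  classical
  unfold dec
  have h1 : Primrec fun x => (v x - 2).unpair :=
    Primrec.unpair.comp (Primrec.nat_sub.comp hv (Primrec.const 2))
  have h2 : Primrec fun x => (gp (fun k => tf (w x) (m * k)) (u x)).unpair :=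
    Primrec.unpair.comp (primrec_gp m hw hu)
  exact Primrec.ite (Primrec.eq.comp hv (Primrec.const 0)) (Primrec.fst.comp h2)
    (Primrec.ite (Primrec.eq.comp hv (Primrec.const 1)) (Primrec.snd.comp h2)
    (Primrec.ite (Primrec.eq.comp (Primrec.fst.comp h1) (primrec_vs m hw hu))
      (Primrec.snd.comp h1)
      (Primrec.ite (primrec_exoi m hw (primrec_vs m hw hu) hv) (Primrec.snd.comp h2)
        (Primrec.fst.comp h2))))

end

theorem diag_le_cn_diag01 : WLE DIAG (prod CN DIAG01) := by
  classical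
  obtain ⟨φ, hφ, hφ'⟩ := exists_functional
    (fun p n => if n % 2 = 0 then cB p (n / 2) else eB p (n / 2)) (fun _ n => n + 1)
    (by
      intro p q n h
      have h1 := Nat.unpair_right_le (n / 2)
      refine ⟨?_, rfl⟩
      rw [cB_congr (p := p) (q := q) (fun j hj => h j (by omega)),
        eB_congr (p := p) (q := q) (fun j hj => h j (by omega))])
    (by
      have h1 : Primrec fun a : List ℕ × ℕ => a.2 / 2 :=
        Primrec.nat_div.comp Primrec.snd (Primrec.const 2)
      have h2 := primrec_cB' 1 (w := fun a : List ℕ × ℕ => a.1) Primrec.fst h1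
      have h3 := primrec_eB' 1 (w := fun a : List ℕ × ℕ => a.1) Primrec.fst h1
      simp only [one_mul] at h2 h3
      exact Primrec.ite (Primrec.eq.comp (Primrec.nat_mod.comp Primrec.snd (Primrec.const 2))
        (Primrec.const 0)) h2 h3)
    (Primrec.succ.comp Primrec.snd)
  obtain ⟨ψ, hψ, hψ'⟩ := exists_functional
    (fun z x => dec (fun k => z (2 * k)) (z 1)
      (z (4 * (Nat.pair (vs (fun k => z (2 * k)) (z 1)) x + 2) + 3)))
    (fun z x => 2 * z 1 + 4 * Nat.pair (vs (fun k => z (2 * k)) (z 1)) x + 20)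
    (by
      intro p q n h
      have h1 : p 1 = q 1 := h 1 (by omega)
      have h4 : vs (fun k => p (2 * k)) (p 1) = vs (fun k => q (2 * k)) (p 1) := by
        unfold vs
        rw [sC_congr (p := fun k => p (2 * k)) (q := fun k => q (2 * k))
          (fun j hj => h (2 * j) (by omega))]
      have h2 := h (4 * (Nat.pair (vs (fun k => p (2 * k)) (p 1)) n + 2) + 3) (by omega)
      have h3 := fun v => dec_congr (p := fun k => p (2 * k)) (q := fun k => q (2 * k)) (u := p 1)
        (v := v) (fun k hk => h (2 * k) (by omega))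
      refine ⟨?_, ?_⟩
      · rw [h3, h2, h4, h1]
      · rw [h4, h1])
    (by
      have h1 : Primrec fun a : List ℕ × ℕ => tf a.1 1 := primrec_tf Primrec.fst (Primrec.const 1)
      have h2 := primrec_vs 2 (w := fun a : List ℕ × ℕ => a.1) Primrec.fst h1
      have h3 : Primrec fun a : List ℕ × ℕ =>
          tf a.1 (4 * (Nat.pair (vs (fun k => tf a.1 (2 * k)) (tf a.1 1)) a.2 + 2) + 3) :=
        primrec_tf Primrec.fst (Primrec.nat_add.comp (Primrec.nat_mul.comp (Primrec.const 4)
          (Primrec.nat_add.comp (Primrec₂.natPair.comp h2 Primrec.snd) (Primrec.const 2)))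
          (Primrec.const 3))
      exact primrec_dec 2 (w := fun a : List ℕ × ℕ => a.1) Primrec.fst h1 h3)
    (by
      have h1 : Primrec fun a : List ℕ × ℕ => tf a.1 1 := primrec_tf Primrec.fst (Primrec.const 1)
      have h2 := primrec_vs 2 (w := fun a : List ℕ × ℕ => a.1) Primrec.fst h1
      exact Primrec.nat_add.comp (Primrec.nat_add.comp (Primrec.nat_mul.comp (Primrec.const 2) h1)
        (Primrec.nat_mul.comp (Primrec.const 4) (Primrec₂.natPair.comp h2 Primrec.snd)))
        (Primrec.const 20))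
  refine ⟨φ, ψ, hφ, hψ, fun p hp => ?_⟩
  have hl : left (fun n => if n % 2 = 0 then cB p (n / 2) else eB p (n / 2)) = cB p := by
    funext n
    have h1 : 2 * n % 2 = 0 := by omega
    have h2 : 2 * n / 2 = n := by omega
    simp only [left, h1, h2, if_true]
  have hr : right (fun n => if n % 2 = 0 then cB p (n / 2) else eB p (n / 2)) = eB p := by
    funext n
    have h1 : (2 * n + 1) % 2 ≠ 0 := by omega
    have h2 : (2 * n + 1) / 2 = n := by omega
    simp only [right, h1, h2, if_false]
  refine ⟨_, hφ' p, ⟨?_, ?_⟩, fun q hq => ⟨_, hψ' _, fun x => ?_⟩⟩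
  · rw [hl]
    obtain ⟨u, hu⟩ := exists_stable' hp
    exact ⟨u, (cB_spec p u).2 hu⟩
  · rw [hr]
    exact inst_eB p
  · obtain ⟨hq1, hq2⟩ := hq
    rw [hl] at hq1
    rw [hr] at hq2
    have hu := (cB_spec p (left q 0)).1 hq1
    have e1 : join p q 1 = q 0 := by simp [join]
    have e2 : (fun k => join p q (2 * k)) = p := left_join p q
    have e3 : ∀ w, join p q (4 * w + 3) = right q w := by
      intro w
      have h1 : (4 * w + 3) % 2 ≠ 0 := by omega
      have h2 : (4 * w + 3) / 2 = 2 * w + 1 := by omega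
      simp only [join, right, h1, h2, if_false]
    have e4 : left q 0 = q 0 := rfl
    rw [e4] at hu
    rw [e2, e1, e3]
    apply dec_spec hu
    rw [← rel_eB]
    exact hq2 _

/-- DIAG with a given inequivalent pair is a restriction of DIAG. -/
theorem diag01_le : WLE DIAG01 DIAG := by
  obtain ⟨φ, hφ, hφ'⟩ := exists_functional (fun p n => p n) (fun _ n => n + 1)
    (fun p q n h => ⟨h n (Nat.lt_succ_self n), rfl⟩) (primrec_tf Primrec.fst Primrec.snd)
    (Primrec.succ.comp Primrec.snd)
  obtain ⟨ψ, hψ, hψ'⟩ := exists_functional (fun z n => z (2 * n + 1)) (fun _ n => 2 * n + 2)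
    (fun p q n h => ⟨h _ (by omega), rfl⟩)
    (primrec_tf Primrec.fst (Primrec.succ.comp (Primrec.nat_mul.comp (Primrec.const 2)
      Primrec.snd)))
    (Primrec.succ.comp (Primrec.succ.comp (Primrec.nat_mul.comp (Primrec.const 2) Primrec.snd)))
  refine ⟨φ, ψ, hφ, hψ, fun p hp => ⟨_, hφ' p, ⟨hp.1, 0, 1, hp.2⟩, fun g hg =>
    ⟨_, hψ' _, fun x => ?_⟩⟩⟩
  have : join p g (2 * x + 1) = g x := congrFun (right_join p g) x
  rw [this]
  exact hg x

end Pool.Agent.Helper583.WD
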