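import Pool.Agent.Helper583.WDPos2

/-!
The product of choice on the numbers and DNR reduces to DIAG: computability.
-/

namespace Pool.Agent.Helper583.WD

theorem primrec_gs (m : ℕ) :
    Primrec fun a : List ℕ × ℕ => gs (fun k => tf a.1 (m * k)) a.2 := by
  classical
  have hstep : Primrec₂ fun (a : List ℕ × ℕ) (x : ℕ × ℕ) =>
      if ∃ k < x.1 + 1, tf a.1 (m * k) = x.2 + 1 then x.2 + 1 else x.2 := by
    have h1 : Primrec fun y : (List ℕ × ℕ) × (ℕ × ℕ) => y.2.2 :=
      Primrec.snd.comp Primrec.snd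
    refine Primrec.ite ?_ (Primrec.succ.comp h1) h1
    refine ex_lt (R := fun k (y : (List ℕ × ℕ) × (ℕ × ℕ)) => tf y.1.1 (m * k) = y.2.2 + 1) ?_
      (Primrec.succ.comp (Primrec.fst.comp Primrec.snd))
    exact Primrec.eq.comp (primrec_tf (Primrec.fst.comp (Primrec.fst.comp Primrec.snd))
      (Primrec.nat_mul.comp (Primrec.const m) Primrec.fst))
      (Primrec.succ.comp (h1.comp Primrec.snd))
  refine (Primrec.nat_rec' (f := fun a : List ℕ × ℕ => a.2) (g := fun _ => 0)
    Primrec.snd (Primrec.const 0) hstep).of_eq ?_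
  rintro ⟨w, s⟩
  induction s with
  | zero => rfl
  | succ s ih =>
    simp only at ih ⊢
    rw [gs, ← ih]

theorem primrec_chg : PrimrecPred fun a : List ℕ × ℕ => Chg (fun k => tf a.1 (2 * k)) a.2 := by
  unfold Chg
  refine ex_lt (R := fun k (a : List ℕ × ℕ) =>
    tf a.1 (2 * k) = gs (fun k => tf a.1 (2 * k)) a.2 + 1) ?_ (Primrec.succ.comp Primrec.snd)
  exact Primrec.eq.comp (primrec_tf (Primrec.fst.comp Primrec.snd)
    (Primrec.nat_mul.comp (Primrec.const 2) Primrec.fst))
    (Primrec.succ.comp ((primrec_gs 2).comp Primrec.snd))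

theorem primrec_edge {α : Type*} [Primcodable α] {w : α → List ℕ} {i a b : α → ℕ}
    (hw : Primrec w) (hi : Primrec i) (ha : Primrec a) (hb : Primrec b) :
    PrimrecPred fun x => Edge (tf (w x)) (i x) (a x) (b x) := by
  unfold Edge FEdge
  refine PrimrecPred.or (PrimrecPred.and (PrimrecPred.not (Primrec.eq.comp ha (Primrec.const 0)))
    (PrimrecPred.and (Primrec.eq.comp (Primrec.nat_mod.comp ha (Primrec.const 2))
      (Primrec.const 0)) (Primrec.eq.comp (primrec_tf hw (Primrec.succ.comp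
      (Primrec.nat_mul.comp (Primrec.const 2) hi))) (Primrec.succ.comp (Primrec₂.natPair.comp
      (Primrec.nat_div.comp (Primrec.nat_sub.comp ha (Primrec.const 2)) (Primrec.const 2)) hb)))))
    (PrimrecPred.and (Primrec.eq.comp ha (Primrec.const 0))
      (PrimrecPred.and (Primrec.nat_le.comp hb hi) ?_))
  exact primrec_chg.comp (hw.pair hi)

theorem primrec_walk : Primrec fun x : (List ℕ × ℕ) × (ℕ × (ℕ × ℕ)) =>
    walk (tf x.1.1) x.1.2.unpair.1.unpair.2 x.2.1 x.2.2 := by
  classical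
  unfold walk
  have h1 : Primrec fun x : (List ℕ × ℕ) × (ℕ × (ℕ × ℕ)) => x.1.1 := Primrec.fst.comp Primrec.fst
  have h2 : Primrec fun x : (List ℕ × ℕ) × (ℕ × (ℕ × ℕ)) => x.1.2.unpair.1.unpair.2 :=
    Primrec.snd.comp (Primrec.unpair.comp (Primrec.fst.comp (Primrec.unpair.comp
      (Primrec.snd.comp Primrec.fst))))
  have h3 : Primrec fun x : (List ℕ × ℕ) × (ℕ × (ℕ × ℕ)) => x.2.1 := Primrec.fst.comp Primrec.snd
  have h4 : Primrec fun x : (List ℕ × ℕ) × (ℕ × (ℕ × ℕ)) => x.2.2.1 :=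
    Primrec.fst.comp (Primrec.snd.comp Primrec.snd)
  have h5 : Primrec fun x : (List ℕ × ℕ) × (ℕ × (ℕ × ℕ)) => x.2.2.2 :=
    Primrec.snd.comp (Primrec.snd.comp Primrec.snd)
  have h6 : PrimrecPred fun x : (List ℕ × ℕ) × (ℕ × (ℕ × ℕ)) =>
      SEdge (tf x.1.1) x.2.2.1 x.2.1 x.2.2.2 :=
    PrimrecPred.or (primrec_edge h1 h4 h3 h5) (primrec_edge h1 h4 h5 h3)
  exact Primrec.ite (PrimrecPred.and (Primrec.nat_lt.comp h4 h2) h6) h5 h3

theorem primrec_enumE : Primrec fun a : List ℕ × ℕ => enumE (tf a.1) a.2 := by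
  unfold enumE
  have h1 : Primrec fun a : List ℕ × ℕ => a.2.unpair.1.unpair.1 :=
    Primrec.fst.comp (Primrec.unpair.comp (Primrec.fst.comp (Primrec.unpair.comp Primrec.snd)))
  have h2 : Primrec fun a : List ℕ × ℕ => Denumerable.ofNat (List (ℕ × ℕ)) a.2.unpair.2 :=
    (Primrec.ofNat _).comp (Primrec.snd.comp (Primrec.unpair.comp Primrec.snd))
  exact Primrec₂.natPair.comp h1 (Primrec.list_foldl (h := fun (a : List ℕ × ℕ)
    (x : ℕ × (ℕ × ℕ)) => walk (tf a.1) a.2.unpair.1.unpair.2 x.1 x.2) h2 h1 primrec_walk)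

theorem cn_dnr_le : WLE (prod CN (DNR ⊤)) DIAG := by
  classical
  obtain ⟨φ, hφ, hφ'⟩ := exists_functional enumE (fun _ k => 2 * k.unpair.1.unpair.2)
    (fun p q n h => ⟨enumE_congr h, rfl⟩) primrec_enumE
    (Primrec.nat_mul.comp (Primrec.const 2) (Primrec.snd.comp (Primrec.unpair.comp
      (Primrec.fst.comp (Primrec.unpair.comp Primrec.snd)))))
  obtain ⟨ψ, hψ, hψ'⟩ := exists_functional
    (fun z n => if n % 2 = 0 then gs (fun k => z (4 * k)) (z 1) else z (2 * (n + 1) + 1))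
    (fun z n => 4 * z 1 + 2 * n + 10)
    (by
      intro p q n h
      have h1 : p 1 = q 1 := h 1 (by omega)
      have h2 := h (2 * (n + 1) + 1) (by omega)
      have h3 := gs_congr (c := fun k => p (4 * k)) (c' := fun k => q (4 * k)) (s := p 1)
        (fun k hk => h (4 * k) (by omega))
      refine ⟨?_, ?_⟩
      · rw [h2, h3, h1]
      · rw [h1])
    (by
      have h1 : Primrec fun a : List ℕ × ℕ => tf a.1 1 := primrec_tf Primrec.fst (Primrec.const 1)
      exact Primrec.ite (Primrec.eq.comp (Primrec.nat_mod.comp Primrec.snd (Primrec.const 2))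
        (Primrec.const 0)) ((primrec_gs 4).comp (Primrec.fst.pair h1))
        (primrec_tf Primrec.fst (Primrec.succ.comp (Primrec.nat_mul.comp (Primrec.const 2)
          (Primrec.succ.comp Primrec.snd)))))
    (by
      have h1 : Primrec fun a : List ℕ × ℕ => tf a.1 1 := primrec_tf Primrec.fst (Primrec.const 1)
      exact Primrec.nat_add.comp (Primrec.nat_add.comp (Primrec.nat_mul.comp (Primrec.const 4) h1)
        (Primrec.nat_mul.comp (Primrec.const 2) Primrec.snd)) (Primrec.const 10))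
  refine ⟨φ, ψ, hφ, hψ, fun p hp => ?_⟩
  obtain ⟨hc, hd⟩ := hp
  have hinst := inst_enumE hc hd
  refine ⟨_, hφ' p, hinst, fun g hg => ⟨_, hψ' _, fun k hk => ?_, fun e => ⟨?_, fun t ht => ?_⟩⟩⟩
  · -- the answer for choice
    have e1 : join p g 1 = g 0 := by simp [join]
    have e2 : (fun k => join p g (4 * k)) = fun k => p (2 * k) := by
      funext k
      have h1 : 4 * k % 2 = 0 := by omega
      have h2 : 4 * k / 2 = 2 * k := by omega
      simp only [join, h1, h2, if_true]
    simp only [left, Nat.mul_zero, Nat.zero_mod, if_true, e1, e2] at hk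
    have hno : ∀ i ≥ g 0, ¬ Chg (fun k => p (2 * k)) i := by
      intro i hi hch
      apply hg 0
      rw [rel_enumE]
      exact Relation.ReflTransGen.single ⟨i, Or.inr (Or.inr ⟨rfl, hi, hch⟩)⟩
    have hconst := gs_const hno (max (g 0) k) (le_max_left _ _)
    apply hno (max (g 0) k) (le_max_left _ _)
    exact ⟨k, Nat.lt_succ_of_le (le_max_right _ _), by rw [hconst]; exact hk⟩
  · exact WithTop.coe_lt_top _
  · have e1 : join p g (2 * (2 * e + 1 + 1) + 1) = g (2 * e + 2) := by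
      have h1 : (2 * (2 * e + 1 + 1) + 1) % 2 ≠ 0 := by omega
      have h2 : (2 * (2 * e + 1 + 1) + 1) / 2 = 2 * e + 2 := by omega
      simp only [join, h1, h2, if_false]
    have h1 : (2 * e + 1) % 2 ≠ 0 := by omega
    simp only [right, h1, if_false] at ht
    rw [e1] at ht
    apply hg (2 * e + 2)
    rw [rel_enumE]
    refine conn_symm (Relation.ReflTransGen.single ⟨t, Or.inl (Or.inl ⟨by omega, by omega, ?_⟩)⟩)
    have h2 : (2 * e + 2 - 2) / 2 = e := by omega
    rw [h2]
    exact ht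

end Pool.Agent.Helper583.WD
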