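import Pool.Agent.Helper583.WDProd2
import Pool.Agent.Helper583.WDPos3

/-!
Continuous Weihrauch reducibility is transitive and products are monotone; DIAG is not
equivalent to an idempotent problem.
-/

namespace Pool.Agent.Helper583.WD

/-- Continuity on a domain. -/
def ContOn (D : (ℕ → ℕ) → Prop) (F : (ℕ → ℕ) → ℕ → ℕ) : Prop :=
  ∀ p, D p → ∀ n, ∃ m, ∀ p', D p' → (∀ i < m, p' i = p i) → F p' n = F p n

theorem ContOn.many {D : (ℕ → ℕ) → Prop} {F : (ℕ → ℕ) → ℕ → ℕ} (h : ContOn D F) {p : ℕ → ℕ}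
    (hp : D p) (k : ℕ) :
    ∃ m, ∀ p', D p' → (∀ i < m, p' i = p i) → ∀ j < k, F p' j = F p j := by
  induction k with
  | zero => exact ⟨0, fun _ _ _ j hj => absurd hj (Nat.not_lt_zero j)⟩
  | succ k ih =>
    obtain ⟨m1, h1⟩ := ih
    obtain ⟨m2, h2⟩ := h p hp k
    refine ⟨m1 + m2, fun p' hp' hag j hj => ?_⟩
    rcases Nat.lt_succ_iff_lt_or_eq.1 hj with h' | h'
    · exact h1 p' hp' (fun i hi => hag i (by omega)) j h'
    · rw [h']
      exact h2 p' hp' (fun i hi => hag i (by omega))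

theorem ContOn.comp {D D' : (ℕ → ℕ) → Prop} {F G : (ℕ → ℕ) → ℕ → ℕ} (hG : ContOn D' G)
    (hF : ContOn D F) (hmap : ∀ p, D p → D' (F p)) : ContOn D (fun p => G (F p)) := by
  intro p hp n
  obtain ⟨m, hm⟩ := hG (F p) (hmap p hp) n
  obtain ⟨m', hm'⟩ := hF.many hp m
  exact ⟨m', fun p' hp' hag => hm (F p') (hmap p' hp') (hm' p' hp' hag)⟩

theorem ContOn.mono {D D' : (ℕ → ℕ) → Prop} {F : (ℕ → ℕ) → ℕ → ℕ} (hF : ContOn D' F)
    (h : ∀ p, D p → D' p) : ContOn D F := by
  intro p hp n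
  obtain ⟨m, hm⟩ := hF p (h p hp) n
  exact ⟨m, fun p' hp' hag => hm p' (h p' hp') hag⟩

theorem contOn_left {D : (ℕ → ℕ) → Prop} : ContOn D left :=
  fun _ _ n => ⟨2 * n + 1, fun _ _ h => h (2 * n) (by omega)⟩

theorem contOn_right {D : (ℕ → ℕ) → Prop} : ContOn D right :=
  fun _ _ n => ⟨2 * n + 2, fun _ _ h => h (2 * n + 1) (by omega)⟩

theorem contOn_id {D : (ℕ → ℕ) → Prop} : ContOn D (fun p => p) :=
  fun _ _ n => ⟨n + 1, fun _ _ h => h n (by omega)⟩

theorem contOn_const {D : (ℕ → ℕ) → Prop} (q : ℕ → ℕ) : ContOn D (fun _ => q) :=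
  fun _ _ _ => ⟨0, fun _ _ _ => rfl⟩

theorem contOn_join {D : (ℕ → ℕ) → Prop} {F G : (ℕ → ℕ) → ℕ → ℕ} (hF : ContOn D F)
    (hG : ContOn D G) : ContOn D (fun p => join (F p) (G p)) := by
  intro p hp n
  obtain ⟨m1, h1⟩ := hF p hp (n / 2)
  obtain ⟨m2, h2⟩ := hG p hp (n / 2)
  refine ⟨m1 + m2, fun p' hp' hag => ?_⟩
  have e1 := h1 p' hp' (fun i hi => hag i (by omega))
  have e2 := h2 p' hp' (fun i hi => hag i (by omega))
  show (if n % 2 = 0 then F p' (n / 2) else G p' (n / 2)) =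
    (if n % 2 = 0 then F p (n / 2) else G p (n / 2))
  rw [e1, e2]

theorem join_left_right (p : ℕ → ℕ) : join (left p) (right p) = p := by
  funext n
  unfold join left right
  split_ifs with h
  · congr 1; omega
  · congr 1; omega

theorem pre_inj {p q : ℕ → ℕ} {m : ℕ} (h : pre p m = pre q m) : ∀ i < m, p i = q i := by
  intro i hi
  have := congrArg (fun l => l[i]?) h
  simpa [pre, hi] using this

theorem functional_of_contOn {D : (ℕ → ℕ) → Prop} {F : (ℕ → ℕ) → ℕ → ℕ} (h : ContOn D F) :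
    ∃ φ : List ℕ × ℕ →. ℕ, ∀ p, D p → Computes φ p (F p) := by
  classical
  refine ⟨fun a => if h : ∃ v, (∃ p, D p ∧ pre p a.1.length = a.1) ∧
    ∀ p, D p → pre p a.1.length = a.1 → F p a.2 = v then Part.some h.choose else Part.none,
    fun p hp n => ⟨?_, ?_⟩⟩
  · obtain ⟨m, hm⟩ := h p hp n
    refine ⟨m, ?_⟩
    have hex : ∃ v, (∃ p', D p' ∧ pre p' (pre p m).length = pre p m) ∧
        ∀ p', D p' → pre p' (pre p m).length = pre p m → F p' n = v := by
      refine ⟨F p n, ⟨p, hp, by rw [pre_length]⟩, fun p' hp' hpre => ?_⟩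
      rw [pre_length] at hpre
      exact hm p' hp' (pre_inj hpre)
    dsimp only
    rw [dif_pos hex]
    have := hex.choose_spec.2 p hp (by rw [pre_length])
    rw [this]
    exact Part.mem_some _
  · intro m v hv
    dsimp only at hv
    split_ifs at hv with hex
    · have h1 := hex.choose_spec.2 p hp (by rw [pre_length])
      rw [Part.mem_some_iff.1 hv, h1]
    · exact absurd hv (Part.notMem_none v)

theorem contOn_of_functional {D : (ℕ → ℕ) → Prop} {F : (ℕ → ℕ) → ℕ → ℕ}
    {φ : List ℕ × ℕ →. ℕ} (h : ∀ p, D p → Computes φ p (F p)) : ContOn D F := by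
  intro p hp n
  obtain ⟨⟨m, hm⟩, -⟩ := h p hp n
  refine ⟨m, fun p' hp' hag => ?_⟩
  rw [← pre_congr (p := p') (q := p) hag] at hm
  exact ((h p' hp' n).2 m _ hm).symm

theorem cle_iff {P Q : Problem} : CLE P Q ↔ ∃ F G : (ℕ → ℕ) → ℕ → ℕ, ContOn P.inst F ∧
    (∀ p, P.inst p → Q.inst (F p)) ∧
    ContOn (fun z => P.inst (left z) ∧ Q.sol (F (left z)) (right z)) G ∧
    ∀ p q, P.inst p → Q.sol (F p) q → P.sol p (G (join p q)) := by
  classical
  constructor
  · rintro ⟨φ, ψ, hred⟩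
    have h1 : ∀ p, ∃ r, P.inst p → Computes φ p r ∧ Q.inst r ∧
        ∀ q, Q.sol r q → ∃ s, Computes ψ (join p q) s ∧ P.sol p s := by
      intro p
      by_cases h : P.inst p
      · obtain ⟨r, hr⟩ := hred p h
        exact ⟨r, fun _ => hr⟩
      · exact ⟨p, fun h' => absurd h' h⟩
    choose F hF using h1
    have h2 : ∀ z, ∃ s, (P.inst (left z) ∧ Q.sol (F (left z)) (right z)) →
        Computes ψ z s ∧ P.sol (left z) s := by
      intro z
      by_cases h : P.inst (left z) ∧ Q.sol (F (left z)) (right z)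
      · obtain ⟨s, hs⟩ := (hF (left z) h.1).2.2 (right z) h.2
        rw [join_left_right] at hs
        exact ⟨s, fun _ => hs⟩
      · exact ⟨z, fun h' => absurd h' h⟩
    choose G hG using h2
    refine ⟨F, G, contOn_of_functional (fun p hp => (hF p hp).1), fun p hp => (hF p hp).2.1,
      contOn_of_functional (fun z hz => (hG z hz).1), fun p q hp hq => ?_⟩
    have := (hG (join p q) (by rw [left_join, right_join]; exact ⟨hp, hq⟩)).2
    rwa [left_join] at this
  · rintro ⟨F, G, hF, hFi, hG, hGs⟩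
    obtain ⟨φ, hφ⟩ := functional_of_contOn hF
    obtain ⟨ψ, hψ⟩ := functional_of_contOn hG
    refine ⟨φ, ψ, fun p hp => ⟨F p, hφ p hp, hFi p hp, fun q hq => ⟨G (join p q), ?_,
      hGs p q hp hq⟩⟩⟩
    exact hψ (join p q) (by rw [left_join, right_join]; exact ⟨hp, hq⟩)

theorem CLE.trans {P Q S : Problem} (h1 : CLE P Q) (h2 : CLE Q S) : CLE P S := by
  obtain ⟨F1, G1, c1, i1, d1, s1⟩ := cle_iff.1 h1
  obtain ⟨F2, G2, c2, i2, d2, s2⟩ := cle_iff.1 h2
  refine cle_iff.2 ⟨fun p => F2 (F1 p),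
    fun z => G1 (join (left z) (G2 (join (F1 (left z)) (right z)))), c2.comp c1 i1,
    fun p hp => i2 _ (i1 p hp), ?_, fun p q hp hq => ?_⟩
  · refine d1.comp (contOn_join contOn_left ?_) ?_
    · refine d2.comp (contOn_join (c1.comp contOn_left fun z hz => hz.1) contOn_right) ?_
      rintro z ⟨hz1, hz2⟩
      rw [left_join, right_join]
      exact ⟨i1 _ hz1, hz2⟩
    · rintro z ⟨hz1, hz2⟩
      rw [left_join, right_join]
      exact ⟨hz1, s2 _ _ (i1 _ hz1) hz2⟩
  · dsimp only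
    rw [left_join, right_join]
    exact s1 p _ hp (s2 _ _ (i1 p hp) hq)

theorem CLE.refl (P : Problem) : CLE P P :=
  cle_iff.2 ⟨fun p => p, right, contOn_id, fun _ h => h, contOn_right, fun p q _ hq => by
    rw [right_join]; exact hq⟩

theorem CLE.prod_mono {P P' Q Q' : Problem} (h1 : CLE P P') (h2 : CLE Q Q') :
    CLE (prod P Q) (prod P' Q') := by
  obtain ⟨F1, G1, c1, i1, d1, s1⟩ := cle_iff.1 h1
  obtain ⟨F2, G2, c2, i2, d2, s2⟩ := cle_iff.1 h2
  refine cle_iff.2 ⟨fun p => join (F1 (left p)) (F2 (right p)),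
    fun z => join (G1 (join (left (left z)) (left (right z))))
      (G2 (join (right (left z)) (right (right z)))), ?_, ?_, ?_, ?_⟩
  · exact contOn_join (c1.comp contOn_left fun z hz => hz.1) (c2.comp contOn_right fun z hz => hz.2)
  · rintro p ⟨hp1, hp2⟩
    refine ⟨?_, ?_⟩
    · rw [left_join]; exact i1 _ hp1
    · rw [right_join]; exact i2 _ hp2
  · have hll : ∀ D, ContOn D fun z => left (left z) := fun D =>
      (contOn_left (D := fun _ => True)).comp contOn_left fun _ _ => trivial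
    have hlr : ∀ D, ContOn D fun z => left (right z) := fun D =>
      (contOn_left (D := fun _ => True)).comp contOn_right fun _ _ => trivial
    have hrl : ∀ D, ContOn D fun z => right (left z) := fun D =>
      (contOn_right (D := fun _ => True)).comp contOn_left fun _ _ => trivial
    have hrr : ∀ D, ContOn D fun z => right (right z) := fun D =>
      (contOn_right (D := fun _ => True)).comp contOn_right fun _ _ => trivial
    refine contOn_join (d1.comp (contOn_join (hll _) (hlr _)) ?_)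
      (d2.comp (contOn_join (hrl _) (hrr _)) ?_)
    · rintro z ⟨⟨hz1, hz2⟩, hz3, hz4⟩
      rw [left_join] at hz3
      rw [left_join, right_join]
      exact ⟨hz1, hz3⟩
    · rintro z ⟨⟨hz1, hz2⟩, hz3, hz4⟩
      rw [right_join] at hz4
      rw [left_join, right_join]
      exact ⟨hz2, hz4⟩
  · rintro p q ⟨hp1, hp2⟩ ⟨hq1, hq2⟩
    rw [left_join] at hq1
    rw [right_join] at hq2
    dsimp only
    rw [left_join, right_join]
    refine ⟨?_, ?_⟩
    · rw [left_join]; exact s1 _ _ hp1 hq1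
    · rw [right_join]; exact s2 _ _ hp2 hq2

theorem dnr_le_prod (k : ℕ∞) : CLE (DNR k) (prod CN (DNR k)) := by
  refine cle_iff.2 ⟨fun p => join (fun _ => 0) p, fun z => right (right z),
    contOn_join (contOn_const _) contOn_id, fun p hp => ?_,
    (contOn_right (D := fun _ => True)).comp contOn_right fun _ _ => trivial, fun p q hp hq => ?_⟩
  · refine ⟨⟨0, fun k => ?_⟩, ?_⟩
    · rw [left_join]; norm_num
    · rw [right_join]; exact hp
  · have := hq.2
    rw [right_join] at this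
    dsimp only
    rw [right_join]
    exact this

theorem not_idempotent (Q : Problem) (h1 : CLE Q DIAG) (h2 : CLE DIAG Q) : ¬ CLE (prod Q Q) Q := by
  intro h
  apply diag_dnr_not_diag
  have h3 : CLE (DNR ⊤) DIAG := (dnr_le_prod ⊤).trans cn_dnr_le.cle
  exact ((CLE.prod_mono h2 (h3.trans h2)).trans h).trans h1

theorem cn_dnr_not_diag (k : ℕ) (hk : 2 ≤ k) : ¬ CLE (prod CN (DNR k)) DIAG := fun h =>
  dnr_not_diag k (by omega) ((dnr_le_prod k).trans h)

end Pool.Agent.Helper583.WD
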