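import Mathlib

/-!
Weihrauch reducibility and the problems used in the statement.
-/

namespace Pool.Agent.Helper583.WD

/-- The finite word of the first `n` values of `x`. -/
def pre (x : ℕ → ℕ) (n : ℕ) : List ℕ := (List.range n).map x

/-- The functional `φ`, reading initial words of its input, sends `p` to `q`. -/
def Computes (φ : List ℕ × ℕ →. ℕ) (p q : ℕ → ℕ) : Prop :=
  ∀ n, (∃ m, q n ∈ φ (pre p m, n)) ∧ ∀ m v, v ∈ φ (pre p m, n) → v = q n

/-- The pairing of two points of Baire space. -/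
def join (p q : ℕ → ℕ) : ℕ → ℕ := fun n => if n % 2 = 0 then p (n / 2) else q (n / 2)

/-- First half of a paired point. -/
def left (p : ℕ → ℕ) : ℕ → ℕ := fun n => p (2 * n)

/-- Second half of a paired point. -/
def right (p : ℕ → ℕ) : ℕ → ℕ := fun n => p (2 * n + 1)

/-- A problem: names of instances, and names of the solutions of an instance. -/
structure Problem where
  inst : (ℕ → ℕ) → Prop
  sol : (ℕ → ℕ) → (ℕ → ℕ) → Prop

/-- The functionals `φ` (forwards) and `ψ` (backwards) reduce the problem `P` to `Q`. -/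
def Reduces (φ ψ : List ℕ × ℕ →. ℕ) (P Q : Problem) : Prop :=
  ∀ p, P.inst p → ∃ r, Computes φ p r ∧ Q.inst r ∧
    ∀ q, Q.sol r q → ∃ s, Computes ψ (join p q) s ∧ P.sol p s

/-- Weihrauch reducibility. -/
def WLE (P Q : Problem) : Prop :=
  ∃ φ ψ : List ℕ × ℕ →. ℕ, Partrec φ ∧ Partrec ψ ∧ Reduces φ ψ P Q

/-- Continuous Weihrauch reducibility. -/
def CLE (P Q : Problem) : Prop := ∃ φ ψ : List ℕ × ℕ →. ℕ, Reduces φ ψ P Q

/-- The parallel product. -/
def prod (P Q : Problem) : Problem where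
  inst p := P.inst (left p) ∧ Q.inst (right p)
  sol p q := P.sol (left p) (left q) ∧ Q.sol (right p) (right q)

/-- The relation enumerated by `p`. -/
def Rel (p : ℕ → ℕ) (x y : ℕ) : Prop := ∃ n, p n = Nat.pair x y

/-- Finding a diagonal function. -/
def DIAG : Problem where
  inst p := Equivalence (Rel p) ∧ ∃ x y, ¬ Rel p x y
  sol p g := ∀ x, ¬ Rel p (g x) x

/-- Choice on the natural numbers. -/
def CN : Problem where
  inst p := ∃ n, ∀ k, p k ≠ n + 1
  sol p q := ∀ k, p k ≠ q 0 + 1

/-- Avoiding, with values less than `k`, a partial function given by an enumeration of its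
graph. -/
def DNR (k : ℕ∞) : Problem where
  inst p := ∀ s t n v w, p s = Nat.pair n v + 1 → p t = Nat.pair n w + 1 → v = w
  sol p q := ∀ n, (q n : ℕ∞) < k ∧ ∀ t, p t ≠ Nat.pair n (q n) + 1

theorem WLE.cle {P Q : Problem} (h : WLE P Q) : CLE P Q := by
  obtain ⟨φ, ψ, -, -, h⟩ := h
  exact ⟨φ, ψ, h⟩

end Pool.Agent.Helper583.WD
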