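import Pool.Agent.Helper583.WDSh2

/-!
The position of DIAG in the family of the problems `DNRF H` and `CN × DNRF H`.
-/

namespace Pool.Agent.Helper583.WD

/-- Finitely many bounds are absorbed by choice on the natural numbers. -/
theorem absorb {H H' : ℕ → ℕ∞} (hH : ∀ n, 2 ≤ H n) {N : ℕ} (hN : ∀ n ≥ N, H' n ≤ H n) :
    CLE (prod CN (DNRF H)) (prod CN (DNRF H')) := by
  classical
  -- forwards
  obtain ⟨E, hE⟩ : ∃ E : (ℕ → ℕ) → ℕ → ℕ, ∀ p k, E p k =
      if left p k.unpair.2 = k.unpair.1.unpair.1 + 1 ∨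
        ((∃ n < N, ∃ v, right p k.unpair.2 = Nat.pair n v + 1) ∧
          ∀ t < k.unpair.1.unpair.2, right p t ≠ right p k.unpair.2)
      then k.unpair.1 + 1 else 0 := ⟨_, fun _ _ => rfl⟩
  have hE' : ∀ p w, (∀ k, E p k ≠ w + 1) ↔ (∀ t, left p t ≠ w.unpair.1 + 1) ∧
      ∀ t n v, n < N → right p t = Nat.pair n v + 1 →
        ∃ t' < w.unpair.2, right p t' = Nat.pair n v + 1 := by
    intro p w
    constructor
    · intro h
      refine ⟨fun t ht => h (Nat.pair w t) ?_, fun t n v hn ht => ?_⟩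
      · rw [hE, Nat.unpair_pair]
        simp only
        rw [if_pos (Or.inl ht)]
      · by_contra hcon
        push Not at hcon
        apply h (Nat.pair w t)
        rw [hE, Nat.unpair_pair]
        simp only
        rw [if_pos (Or.inr ⟨⟨n, hn, v, ht⟩, fun t' ht' h' => hcon t' ht' (h'.trans ht)⟩)]
    · rintro ⟨h1, h2⟩ k hk
      rw [hE] at hk
      split_ifs at hk with hc
      have hw : k.unpair.1 = w := by omega
      rw [hw] at hc
      rcases hc with hc | ⟨⟨n, hn, v, hv⟩, hc⟩
      · exact h1 _ hc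
      · obtain ⟨t', ht', h'⟩ := h2 _ n v hn hv
        exact hc t' ht' (h'.trans hv.symm)
  -- backwards
  obtain ⟨V, hV⟩ : ∃ V : (ℕ → ℕ) → ℕ → ℕ, ∀ z n, V z n =
      if n < N then
        (if ∃ t < (left (right z) 0).unpair.2, right (left z) t = Nat.pair n 0 + 1 then 1 else 0)
      else right (right z) n := ⟨_, fun _ _ => rfl⟩
  refine cle_iff.2 ⟨fun p => join (E p) (right p),
    fun z => join (fun _ => (left (right z) 0).unpair.1) (V z), ?_, ?_, ?_, ?_⟩
  · refine contOn_join ?_ contOn_right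
    intro p _ k
    refine ⟨2 * (k.unpair.2 + k.unpair.1.unpair.2) + 2, fun p' _ hag => ?_⟩
    have h1 : left p' k.unpair.2 = left p k.unpair.2 := hag _ (by omega)
    have h2 : right p' k.unpair.2 = right p k.unpair.2 := hag _ (by omega)
    have h3 : ∀ t < k.unpair.1.unpair.2, right p' t = right p t := fun t ht => hag _ (by omega)
    rw [hE, hE, h1, h2]
    have h4 : (∀ t < k.unpair.1.unpair.2, right p' t ≠ right p k.unpair.2) ↔
        ∀ t < k.unpair.1.unpair.2, right p t ≠ right p k.unpair.2 :=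
      forall₂_congr fun t ht => by rw [h3 t ht]
    simp only [h4]
  · rintro p ⟨⟨u, hu⟩, hp⟩
    refine ⟨?_, ?_⟩
    · rw [left_join]
      -- a stage after which nothing new happens below `N`
      have hs : ∀ M, ∃ s, ∀ t n v, n < M → right p t = Nat.pair n v + 1 →
          ∃ t' < s, right p t' = Nat.pair n v + 1 := by
        intro M
        induction M with
        | zero => exact ⟨0, fun t n v hn => absurd hn (Nat.not_lt_zero n)⟩
        | succ M ih =>
          obtain ⟨s, hs⟩ := ih
          by_cases h : ∃ t v, right p t = Nat.pair M v + 1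
          · obtain ⟨t0, v0, h0⟩ := h
            refine ⟨s + t0 + 1, fun t n v hn ht => ?_⟩
            rcases Nat.lt_succ_iff_lt_or_eq.1 hn with h' | h'
            · obtain ⟨t', ht', h''⟩ := hs t n v h' ht
              exact ⟨t', by omega, h''⟩
            · subst h'
              have := hp t t0 n v v0 ht h0
              subst this
              exact ⟨t0, by omega, h0⟩
          · push Not at h
            refine ⟨s, fun t n v hn ht => ?_⟩
            rcases Nat.lt_succ_iff_lt_or_eq.1 hn with h' | h'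
            · exact hs t n v h' ht
            · subst h'
              exact absurd ht (h t v)
      obtain ⟨s, hs⟩ := hs N
      refine ⟨Nat.pair u s, (hE' p _).2 ⟨fun t => ?_, fun t n v hn ht => ?_⟩⟩
      · rw [Nat.unpair_pair]; exact hu t
      · rw [Nat.unpair_pair]; exact hs t n v hn ht
    · rw [right_join]; exact hp
  · refine contOn_join ?_ ?_
    · intro z _ n
      refine ⟨2, fun z' _ hag => ?_⟩
      have h1 : left (right z') 0 = left (right z) 0 := hag 1 (by omega)
      simp only [h1]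
    · intro z _ n
      refine ⟨4 * (n + (left (right z) 0).unpair.2) + 4, fun z' _ hag => ?_⟩
      have h1 : left (right z') 0 = left (right z) 0 := hag 1 (by omega)
      have h2 : right (right z') n = right (right z) n :=
        hag (2 * (2 * n + 1) + 1) (by omega)
      have h3 : ∀ t < (left (right z) 0).unpair.2, right (left z') t = right (left z) t :=
        fun t ht => hag (2 * (2 * t + 1)) (by omega)
      rw [hV, hV, h1, h2]
      have h4 : (∃ t < (left (right z) 0).unpair.2, right (left z') t = Nat.pair n 0 + 1) ↔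
          ∃ t < (left (right z) 0).unpair.2, right (left z) t = Nat.pair n 0 + 1 :=
        ⟨fun ⟨t, ht, h⟩ => ⟨t, ht, (h3 t ht) ▸ h⟩, fun ⟨t, ht, h⟩ => ⟨t, ht, (h3 t ht).symm ▸ h⟩⟩
      simp only [h4]
  · rintro p q ⟨hp1, hp2⟩ ⟨hq1, hq2⟩
    rw [left_join] at hq1
    rw [right_join] at hq2
    obtain ⟨h1, h2⟩ := (hE' p _).1 hq1
    refine ⟨?_, ?_⟩
    · dsimp only
      rw [left_join, right_join]
      exact h1
    · dsimp only
      rw [right_join]
      intro n
      rw [hV, left_join, right_join]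
      by_cases hn : n < N
      · rw [if_pos hn]
        have h2n : ∀ v : ℕ, v < 2 → (v : ℕ∞) < H n := fun v hv =>
          lt_of_lt_of_le (by exact_mod_cast hv) (hH n)
        split_ifs with h
        · obtain ⟨t', -, ht'⟩ := h
          refine ⟨h2n 1 (by norm_num), fun t ht => ?_⟩
          exact absurd (hp2 t t' n 1 0 ht ht') (by norm_num)
        · refine ⟨h2n 0 (by norm_num), fun t ht => h ?_⟩
          exact h2 t n 0 hn ht
      · rw [if_neg hn]
        exact ⟨lt_of_lt_of_le (hq2 n).1 (hN n (not_lt.1 hn)), (hq2 n).2⟩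

theorem dnrf_le_prod (H : ℕ → ℕ∞) : CLE (DNRF H) (prod CN (DNRF H)) := by
  refine cle_iff.2 ⟨fun p => join (fun _ => 0) p, fun z => right (right z),
    contOn_join (contOn_const _) contOn_id, fun p hp => ?_,
    (contOn_right (D := fun _ => True)).comp contOn_right fun _ _ => trivial, fun p q hp hq => ?_⟩
  · refine ⟨⟨0, fun k => ?_⟩, ?_⟩
    · rw [left_join]; norm_num
    · rw [right_join]; exact hp
  · have := hq.2
    rw [right_join] at this
    dsimp only
    rw [right_join]
    exact this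

/-- Infinitely many two-valued places suffice. -/
theorem dnr2_le {H : ℕ → ℕ∞} (hH : ∀ N, ∃ n ≥ N, H n = 2) : CLE (DNR 2) (DNRF H) := by
  obtain ⟨ι, hι, h2⟩ := Filter.extraction_of_frequently_atTop (P := fun n => H n = 2)
    (Filter.frequently_atTop.2 hH)
  refine cle_iff.2 ⟨fun p t => if p t = 0 then 0 else
      Nat.pair (ι (p t - 1).unpair.1) (p t - 1).unpair.2 + 1, fun z n => right z (ι n),
    ?_, ?_, ?_, ?_⟩
  · intro p _ t
    exact ⟨t + 1, fun p' _ hag => by simp only [hag t (Nat.lt_succ_self t)]⟩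
  · intro p hp s t n v w hs ht
    have key : ∀ s v, (if p s = 0 then 0 else
        Nat.pair (ι (p s - 1).unpair.1) (p s - 1).unpair.2 + 1) = Nat.pair n v + 1 →
        ∃ n', ι n' = n ∧ p s = Nat.pair n' v + 1 := by
      intro s v h
      split_ifs at h with h0
      obtain ⟨e1, e2⟩ := Nat.pair_eq_pair.1 (Nat.succ_injective h)
      refine ⟨_, e1, ?_⟩
      have : Nat.pair (p s - 1).unpair.1 (p s - 1).unpair.2 = p s - 1 := Nat.pair_unpair _
      rw [e2] at this
      omega
    obtain ⟨n1, e1, h1⟩ := key s v hs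
    obtain ⟨n2, e2, h2⟩ := key t w ht
    have : n1 = n2 := hι.injective (e1.trans e2.symm)
    subst this
    exact hp s t n1 v w h1 h2
  · intro z _ n
    exact ⟨2 * ι n + 2, fun z' _ hag => hag _ (by omega)⟩
  · intro p q hp hq n
    dsimp only
    rw [right_join]
    refine ⟨?_, fun t ht => ?_⟩
    · have := (hq (ι n)).1
      rwa [h2] at this
    · apply (hq (ι n)).2 t
      have h0 : p t ≠ 0 := by omega
      simp only [if_neg h0]
      rw [ht, Nat.add_sub_cancel, Nat.unpair_pair]

theorem dnrf_anti {H H' : ℕ → ℕ∞} (h : ∀ n, H' n ≤ H n) : CLE (DNRF H) (DNRF H') := by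
  refine cle_iff.2 ⟨fun p => p, right, contOn_id, fun _ h => h, contOn_right,
    fun p q _ hq => ?_⟩
  rw [right_join]
  intro n
  exact ⟨lt_of_lt_of_le (hq n).1 (h n), (hq n).2⟩

/-- The position of DIAG in the family. -/
theorem family (H : ℕ → ℕ∞) (hH : ∀ n, 2 ≤ H n) :
    (CLE (DNRF H) DIAG ↔ ∃ N, ∀ n ≥ N, H n = ⊤) ∧
      (CLE (prod CN (DNRF H)) DIAG ↔ ∃ N, ∀ n ≥ N, H n = ⊤) ∧
      (CLE DIAG (prod CN (DNRF H)) ↔ ∀ N, ∃ n ≥ N, H n = 2) ∧
      ¬ CLE DIAG (DNRF H) := by
  have hneg : CLE (DNRF H) DIAG → ∃ N, ∀ n ≥ N, H n = ⊤ := by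
    intro h
    by_contra hcon
    push Not at hcon
    exact dnrf_not_diag H hcon h
  have hpos : (∃ N, ∀ n ≥ N, H n = ⊤) → CLE (prod CN (DNRF H)) DIAG := by
    rintro ⟨N, hN⟩
    have h1 : CLE (prod CN (DNRF H)) (prod CN (DNRF fun _ => ⊤)) :=
      absorb hH (N := N) (fun n hn => by rw [hN n hn])
    exact h1.trans cn_dnr_le.cle
  refine ⟨⟨hneg, fun h => (dnrf_le_prod H).trans (hpos h)⟩,
    ⟨fun h => hneg ((dnrf_le_prod H).trans h), hpos⟩, ⟨fun h => ?_, fun h => ?_⟩, fun h => ?_⟩
  · by_contra hcon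
    push Not at hcon
    obtain ⟨N, hN⟩ := hcon
    have h3 : ∀ n ≥ N, (3 : ℕ∞) ≤ H n := by
      intro n hn
      have h1 := hH n
      have h2 := hN n hn
      have h4 : (2 : ℕ∞) < H n := lt_of_le_of_ne h1 (Ne.symm h2)
      have h5 := Order.add_one_le_of_lt h4
      have h6 : (2 : ℕ∞) + 1 = 3 := by norm_num
      rwa [h6] at h5
    have h1 : CLE (prod CN (DNRF H)) (prod CN (DNRF fun _ => 3)) := absorb hH (N := N) h3
    exact diag_not_cn_dnr 3 le_rfl (h.trans h1)
  · exact diag_le.cle.trans (CLE.prod_mono (CLE.refl CN) (dnr2_le h))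
  · exact diag_not_dnr 2 le_rfl (h.trans (dnrf_anti hH))

end Pool.Agent.Helper583.WD
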