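import Pool.Agent.Helper583.WDW2

/-!
DIAG is not reducible to the product of choice on the numbers and weak weak Kőnig's lemma.
-/

namespace Pool.Agent.Helper583.WD

theorem diag_not_cn_wwkl : ¬ CLE DIAG (prod CN WWKL) := by
  classical
  rintro ⟨φ, ψ, hred⟩
  have hred' : ∀ p, ∃ r, DIAG.inst p → Computes φ p r ∧ (prod CN WWKL).inst r ∧
      ∀ q, (prod CN WWKL).sol r q → ∃ s, Computes ψ (join p q) s ∧ DIAG.sol p s := by
    intro p
    by_cases h : DIAG.inst p
    · obtain ⟨r, hr⟩ := hred p h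
      exact ⟨r, fun _ => hr⟩
    · exact ⟨p, fun h' => absurd h' h⟩
  choose R hR using hred'
  let D : ℕ → (ℕ → ℕ) → ℕ → Prop := fun i p M =>
    (∀ q, (∀ t < M, q t = p t) → DIAG.inst q → (∀ t, left (R q) t ≠ i.unpair.1 + 1) →
      (∀ m, 2 ^ m ≤ 2 ^ i.unpair.2 * (Lev m (right (R q))).ncard) → False) ∧
      ∃ c, Col c ∧ Cmp p M c ∧ ∀ x y, x ≤ i → y ≤ i → c x = c y → ∃ j < M, p j = Nat.pair x y
  have h0 : Cond (fun _ => 0) 0 :=
    ⟨fun x => if x = 0 then 0 else 1, ⟨fun x => by dsimp only; split_ifs <;> norm_num,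
      by simp, by simp⟩, fun i hi => absurd hi (Nat.not_lt_zero i)⟩
  have step : ∀ i p M, Cond p M → ∃ p' M', M < M' ∧ (∀ j < M, p' j = p j) ∧ Cond p' M' ∧
      D i p' M' := by
    intro i p M hp
    obtain ⟨p1, M1, hM, hag, ⟨c, hc, hcp⟩, hF⟩ := force_wwkl hR hp i.unpair.1 i.unpair.2
    refine ⟨glue p1 M1 (ec c), M1 + (Nat.pair i i + 1), by omega, fun j hj => ?_,
      ⟨c, hc, cmp_glue hcp _⟩, fun q hq => hF q (fun t ht => ?_), c, hc, cmp_glue hcp _, ?_⟩
    · rw [glue_lt (hj.trans hM)]; exact hag j hj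
    · rw [hq t (by omega), glue_lt ht]
    · intro x y hx hy hxy
      refine ⟨M1 + Nat.pair x y, ?_, ?_⟩
      · have : Nat.pair x y ≤ Nat.pair i i := by
          rcases lt_or_eq_of_le hx with h | h
          · rcases lt_or_eq_of_le hy with h' | h'
            · exact ((Nat.pair_lt_pair_left y h).trans (Nat.pair_lt_pair_right i h')).le
            · subst h'; exact (Nat.pair_lt_pair_left y h).le
          · subst h
            rcases lt_or_eq_of_le hy with h' | h'
            · exact (Nat.pair_lt_pair_right x h').le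
            · rw [h']
        omega
      · rw [glue_ge]
        simp [ec, hxy]
  obtain ⟨p, -, hp⟩ := generic (C := Cond) (D := D) (fun _ => 0) 0 h0 step
  have key : ∀ i, ∃ c, Col c ∧ (∀ j ≤ i, c (p j).unpair.1 = c (p j).unpair.2) ∧
      ∀ x y, x ≤ i → y ≤ i → c x = c y → Rel p x y := by
    intro i
    obtain ⟨p', M', hi, -, hag, -, -, c, hc, hcp, h⟩ := hp i
    refine ⟨c, hc, fun j hj => ?_, fun x y hx hy hxy => ?_⟩
    · rw [hag j (by omega)]; exact hcp j (by omega)
    · obtain ⟨j, hj, hj'⟩ := h x y hx hy hxy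
      exact ⟨j, by rw [hag j hj]; exact hj'⟩
  have hinst : DIAG.inst p := by
    refine ⟨⟨fun x => ?_, fun {x y} hxy => ?_, fun {x y z} hxy hyz => ?_⟩, 0, 1, ?_⟩
    · obtain ⟨c, -, -, h⟩ := key x
      exact h x x le_rfl le_rfl rfl
    · obtain ⟨n, hn⟩ := hxy
      obtain ⟨c, -, h1, h2⟩ := key (n + x + y)
      have := h1 n (by omega)
      rw [hn] at this
      simp only [Nat.unpair_pair] at this
      exact h2 y x (by omega) (by omega) this.symm
    · obtain ⟨n, hn⟩ := hxy
      obtain ⟨n', hn'⟩ := hyz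
      obtain ⟨c, -, h1, h2⟩ := key (n + n' + x + y + z)
      have e1 := h1 n (by omega)
      have e2 := h1 n' (by omega)
      rw [hn] at e1
      rw [hn'] at e2
      simp only [Nat.unpair_pair] at e1 e2
      exact h2 x z (by omega) (by omega) (e1.trans e2)
    · rintro ⟨n, hn⟩
      obtain ⟨c, hc, h1, -⟩ := key n
      have e1 := h1 n le_rfl
      rw [hn] at e1
      simp only [Nat.unpair_pair] at e1
      rw [hc.2.1, hc.2.2] at e1
      exact absurd e1 (by norm_num)
  obtain ⟨-, ⟨⟨n, hn⟩, j, hj⟩, -⟩ := hR p hinst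
  obtain ⟨p', M', -, -, hag, -, hF, -⟩ := hp (Nat.pair n j)
  refine hF p hag hinst (fun t => ?_) (fun m => ?_)
  · rw [Nat.unpair_pair]; exact hn t
  · rw [Nat.unpair_pair]; exact hj m

end Pool.Agent.Helper583.WD
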