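import Pool.Agent.Helper583.WDCl3
import Pool.Agent.Helper583.WDW3

/-!
The compact part of DIAG.
-/

namespace Pool.Agent.Helper583.WD

theorem cn_diag01_le : WLE (prod CN DIAG01) DIAG := by
  obtain ⟨φ, ψ, hφ, hψ, h⟩ := cn_diag_le
  exact ⟨φ, ψ, hφ, hψ, fun p hp => h p ⟨hp.1, hp.2.1, 0, 1, hp.2.2⟩⟩

/-- With a given inequivalent pair, DIAG reduces to two-valued DNR. -/
theorem diag01_le_dnr2 : WLE DIAG01 (DNRF fun _ => 2) := by
  classical
  obtain ⟨φ, hφ, hφ'⟩ := exists_functional
    (fun p n => if (p n).unpair.1 = 0 then Nat.pair (p n).unpair.2 0 + 1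
      else if (p n).unpair.1 = 1 then Nat.pair (p n).unpair.2 1 + 1 else 0) (fun _ n => n + 1)
    (fun p q n h => ⟨by rw [h n (Nat.lt_succ_self n)], rfl⟩)
    (by
      have h1 : Primrec fun a : List ℕ × ℕ => (tf a.1 a.2).unpair :=
        Primrec.unpair.comp (primrec_tf Primrec.fst Primrec.snd)
      exact Primrec.ite (Primrec.eq.comp (Primrec.fst.comp h1) (Primrec.const 0))
        (Primrec.succ.comp (Primrec₂.natPair.comp (Primrec.snd.comp h1) (Primrec.const 0)))
        (Primrec.ite (Primrec.eq.comp (Primrec.fst.comp h1) (Primrec.const 1))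
          (Primrec.succ.comp (Primrec₂.natPair.comp (Primrec.snd.comp h1) (Primrec.const 1)))
          (Primrec.const 0)))
    (Primrec.succ.comp Primrec.snd)
  obtain ⟨ψ, hψ, hψ'⟩ := exists_functional (fun z n => z (2 * n + 1)) (fun _ n => 2 * n + 2)
    (fun p q n h => ⟨h _ (by omega), rfl⟩)
    (primrec_tf Primrec.fst (Primrec.succ.comp (Primrec.nat_mul.comp (Primrec.const 2)
      Primrec.snd)))
    (Primrec.succ.comp (Primrec.succ.comp (Primrec.nat_mul.comp (Primrec.const 2) Primrec.snd)))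
  refine ⟨φ, ψ, hφ, hψ, fun p hp => ⟨_, hφ' p, fun s t n v w hs ht => ?_, fun q hq =>
    ⟨_, hψ' _, fun x hx => ?_⟩⟩⟩
  · have key : ∀ s v, (if (p s).unpair.1 = 0 then Nat.pair (p s).unpair.2 0 + 1
        else if (p s).unpair.1 = 1 then Nat.pair (p s).unpair.2 1 + 1 else 0) = Nat.pair n v + 1 →
        v < 2 ∧ Rel p v n := by
      intro s v h
      split_ifs at h with h1 h2
      · obtain ⟨e1, e2⟩ := Nat.pair_eq_pair.1 (Nat.succ_injective h)
        subst e2
        refine ⟨by norm_num, s, ?_⟩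
        rw [← e1, ← h1, Nat.pair_unpair]
      · obtain ⟨e1, e2⟩ := Nat.pair_eq_pair.1 (Nat.succ_injective h)
        subst e2
        refine ⟨by norm_num, s, ?_⟩
        rw [← e1, ← h2, Nat.pair_unpair]
    obtain ⟨h1, h2⟩ := key s v hs
    obtain ⟨h3, h4⟩ := key t w ht
    by_contra hne
    have h5 := hp.1.trans h2 (hp.1.symm h4)
    rcases Nat.lt_or_gt_of_ne hne with h | h
    · have e1 : v = 0 := by omega
      have e2 : w = 1 := by omega
      rw [e1, e2] at h5
      exact hp.2 h5
    · have e1 : v = 1 := by omega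
      have e2 : w = 0 := by omega
      rw [e1, e2] at h5
      exact hp.2 (hp.1.symm h5)
  · have e : join p q (2 * x + 1) = q x := congrFun (right_join p q) x
    rw [e] at hx
    obtain ⟨h1, h2⟩ := hq x
    dsimp only at h1 h2
    have h3 : q x < 2 := by exact_mod_cast h1
    obtain ⟨t, ht⟩ := hx
    apply h2 t
    rw [ht, Nat.unpair_pair]
    dsimp only
    rcases Nat.lt_or_ge (q x) 1 with h4 | h4
    · have h5 : q x = 0 := by omega
      rw [if_pos h5, h5]
    · have h5 : q x = 1 := by omega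
      rw [if_neg (by omega), if_pos h5, h5]

end Pool.Agent.Helper583.WD
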