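import Pool.Agent.Helper583.WDPos3

/-!
Connected choice on the unit interval reduces to DIAG: the interval computation.
-/

namespace Pool.Agent.Helper583.WD

/-- The rational number with code `c`. -/
noncomputable def val (c : ℕ) : ℝ := (c.unpair.1 : ℝ) / ((c.unpair.2 : ℝ) + 1)

/-- The real `x` of the unit interval is above all the rationals enumerated at the even places and
below all the rationals enumerated at the odd places. -/
def Sat (p : ℕ → ℕ) (x : ℝ) : Prop :=
  0 ≤ x ∧ x ≤ 1 ∧ ∀ t c, (p (2 * t) = c + 1 → val c ≤ x) ∧ (p (2 * t + 1) = c + 1 → x ≤ val c)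

/-- Connected choice on the unit interval: find a point (by rational approximations) of a nonempty
closed interval given by enumerations of rational bounds. -/
def CC : Problem where
  inst p := ∃ x, Sat p x
  sol p q := ∃ x, Sat p x ∧ ∀ n, |x - val (q n)| ≤ (1 / 2) ^ n

/-- The question asked about the interval `[a / D, b / D]`, for `s = (a, b, D)`. -/
def qn (s : ℕ × ℕ × ℕ) : ℕ := Nat.pair (s.1 + s.2.1) (2 * s.2.2 - 1) + 2

/-- The new interval. -/
def stp (v : ℕ) (s : ℕ × ℕ × ℕ) : ℕ × ℕ × ℕ :=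
  if v = 0 then (2 * s.1, s.1 + s.2.1, 2 * s.2.2)
  else if v = 1 then (s.1 + s.2.1, 2 * s.2.1, 2 * s.2.2)
  else if (v - 2).unpair.1 * (2 * s.2.2) ≤ (s.1 + s.2.1) * ((v - 2).unpair.2 + 1) then
    (max (2 * s.1 * ((v - 2).unpair.2 + 1)) ((v - 2).unpair.1 * (2 * s.2.2)),
      (s.1 + s.2.1) * ((v - 2).unpair.2 + 1), 2 * s.2.2 * ((v - 2).unpair.2 + 1))
  else ((s.1 + s.2.1) * ((v - 2).unpair.2 + 1),
    min (2 * s.2.1 * ((v - 2).unpair.2 + 1)) ((v - 2).unpair.1 * (2 * s.2.2)),
    2 * s.2.2 * ((v - 2).unpair.2 + 1))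

/-- The intervals, with a bound for the part of the input which is used. -/
def st (z : ℕ → ℕ) : ℕ → (ℕ × ℕ × ℕ) × ℕ
  | 0 => ((0, 1, 1), 0)
  | n + 1 => (stp (z (2 * qn (st z n).1 + 1)) (st z n).1,
      max (st z n).2 (2 * qn (st z n).1 + 2))

theorem st_congr {p q : ℕ → ℕ} (n : ℕ) (h : ∀ i < (st p n).2, p i = q i) : st p n = st q n := by
  induction n with
  | zero => rfl
  | succ n ih =>
    rw [st] at h
    simp only at h
    have ih' := ih (fun i hi => h i (lt_of_lt_of_le hi (le_max_left _ _)))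
    have h1 := h (2 * qn (st p n).1 + 1) (lt_of_lt_of_le (by omega) (le_max_right _ _))
    rw [st, st, ← ih', h1]

theorem primrec_qn {α : Type*} [Primcodable α] {f : α → ℕ × ℕ × ℕ} (hf : Primrec f) :
    Primrec fun a => qn (f a) := by
  unfold qn
  exact Primrec.succ.comp (Primrec.succ.comp (Primrec₂.natPair.comp
    (Primrec.nat_add.comp (Primrec.fst.comp hf) (Primrec.fst.comp (Primrec.snd.comp hf)))
    (Primrec.nat_sub.comp (Primrec.nat_mul.comp (Primrec.const 2)
      (Primrec.snd.comp (Primrec.snd.comp hf))) (Primrec.const 1))))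

theorem primrec_stp {α : Type*} [Primcodable α] {v : α → ℕ} {s : α → ℕ × ℕ × ℕ} (hv : Primrec v)
    (hs : Primrec s) : Primrec fun a => stp (v a) (s a) := by
  unfold stp
  have ha : Primrec fun x => (s x).1 := Primrec.fst.comp hs
  have hb : Primrec fun x => (s x).2.1 := Primrec.fst.comp (Primrec.snd.comp hs)
  have hD : Primrec fun x => (s x).2.2 := Primrec.snd.comp (Primrec.snd.comp hs)
  have h2a : Primrec fun x => 2 * (s x).1 := Primrec.nat_mul.comp (Primrec.const 2) ha
  have h2b : Primrec fun x => 2 * (s x).2.1 := Primrec.nat_mul.comp (Primrec.const 2) hb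
  have h2D : Primrec fun x => 2 * (s x).2.2 := Primrec.nat_mul.comp (Primrec.const 2) hD
  have hab : Primrec fun x => (s x).1 + (s x).2.1 := Primrec.nat_add.comp ha hb
  have hu : Primrec fun x => (v x - 2).unpair :=
    Primrec.unpair.comp (Primrec.nat_sub.comp hv (Primrec.const 2))
  have hc : Primrec fun x => (v x - 2).unpair.1 := Primrec.fst.comp hu
  have hd : Primrec fun x => (v x - 2).unpair.2 + 1 := Primrec.succ.comp (Primrec.snd.comp hu)
  have hcD : Primrec fun x => (v x - 2).unpair.1 * (2 * (s x).2.2) := Primrec.nat_mul.comp hc h2D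
  have habd : Primrec fun x => ((s x).1 + (s x).2.1) * ((v x - 2).unpair.2 + 1) :=
    Primrec.nat_mul.comp hab hd
  have hDd : Primrec fun x => 2 * (s x).2.2 * ((v x - 2).unpair.2 + 1) :=
    Primrec.nat_mul.comp h2D hd
  refine Primrec.ite (Primrec.eq.comp hv (Primrec.const 0)) (h2a.pair (hab.pair h2D))
    (Primrec.ite (Primrec.eq.comp hv (Primrec.const 1)) (hab.pair (h2b.pair h2D))
    (Primrec.ite (Primrec.nat_le.comp hcD habd) ?_ ?_))
  · exact (Primrec.nat_max.comp (Primrec.nat_mul.comp h2a hd) hcD).pair (habd.pair hDd)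
  · exact habd.pair ((Primrec.nat_min.comp (Primrec.nat_mul.comp h2b hd) hcD).pair hDd)

theorem primrec_st : Primrec fun a : List ℕ × ℕ => st (tf a.1) a.2 := by
  have hstep : Primrec₂ fun (a : List ℕ × ℕ) (x : ℕ × ((ℕ × ℕ × ℕ) × ℕ)) =>
      ((stp (tf a.1 (2 * qn x.2.1 + 1)) x.2.1, max x.2.2 (2 * qn x.2.1 + 2)) :
        (ℕ × ℕ × ℕ) × ℕ) := by
    have h1 : Primrec fun y : (List ℕ × ℕ) × (ℕ × ((ℕ × ℕ × ℕ) × ℕ)) => y.2.2.1 :=
      Primrec.fst.comp (Primrec.snd.comp Primrec.snd)
    have h2 : Primrec fun y : (List ℕ × ℕ) × (ℕ × ((ℕ × ℕ × ℕ) × ℕ)) => y.2.2.2 :=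
      Primrec.snd.comp (Primrec.snd.comp Primrec.snd)
    have h3 : Primrec fun y : (List ℕ × ℕ) × (ℕ × ((ℕ × ℕ × ℕ) × ℕ)) => 2 * qn y.2.2.1 :=
      Primrec.nat_mul.comp (Primrec.const 2) (primrec_qn h1)
    exact (primrec_stp (primrec_tf (Primrec.fst.comp Primrec.fst) (Primrec.succ.comp h3)) h1).pair
      (Primrec.nat_max.comp h2 (Primrec.succ.comp (Primrec.succ.comp h3)))
  refine (Primrec.nat_rec' (f := fun a : List ℕ × ℕ => a.2)
    (g := fun _ => (((0, 1, 1), 0) : (ℕ × ℕ × ℕ) × ℕ))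
    Primrec.snd (Primrec.const _) hstep).of_eq ?_
  rintro ⟨w, s⟩
  induction s with
  | zero => rfl
  | succ s ih =>
    simp only at ih ⊢
    rw [st, ← ih]

/-- Lower end of the interval. -/
noncomputable def lo (s : ℕ × ℕ × ℕ) : ℝ := (s.1 : ℝ) / s.2.2

/-- Upper end of the interval. -/
noncomputable def hi (s : ℕ × ℕ × ℕ) : ℝ := (s.2.1 : ℝ) / s.2.2

theorem val_qn {s : ℕ × ℕ × ℕ} (hD : 0 < s.2.2) : val (qn s - 2) = (lo s + hi s) / 2 := by
  unfold val qn lo hi
  rw [Nat.add_sub_cancel, Nat.unpair_pair]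
  simp only
  have h1 : ((2 * s.2.2 - 1 : ℕ) : ℝ) + 1 = 2 * s.2.2 := by
    have : 2 * s.2.2 - 1 + 1 = 2 * s.2.2 := by omega
    exact_mod_cast this
  have h2 : (0 : ℝ) < s.2.2 := by exact_mod_cast hD
  rw [h1]
  push_cast
  field_simp

/-- The effect of a step: the new interval is the intersection of the old one with the set
described by the answer. -/
theorem stp_spec {v : ℕ} {s : ℕ × ℕ × ℕ} (hD : 0 < s.2.2) (hle : lo s ≤ hi s) :
    0 < (stp v s).2.2 ∧
    (v = 0 → lo (stp v s) = lo s ∧ hi (stp v s) = (lo s + hi s) / 2) ∧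
    (v = 1 → lo (stp v s) = (lo s + hi s) / 2 ∧ hi (stp v s) = hi s) ∧
    (2 ≤ v → val (v - 2) ≤ (lo s + hi s) / 2 →
      lo (stp v s) = max (lo s) (val (v - 2)) ∧ hi (stp v s) = (lo s + hi s) / 2) ∧
    (2 ≤ v → (lo s + hi s) / 2 < val (v - 2) →
      lo (stp v s) = (lo s + hi s) / 2 ∧ hi (stp v s) = min (hi s) (val (v - 2))) := by
  obtain ⟨a, b, D⟩ := s
  have hD' : (0 : ℝ) < D := by exact_mod_cast hD
  have hd : (0 : ℝ) < ((v - 2).unpair.2 : ℝ) + 1 := by positivity
  have hiff : (v - 2).unpair.1 * (2 * D) ≤ (a + b) * ((v - 2).unpair.2 + 1) ↔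
      val (v - 2) ≤ (lo (a, b, D) + hi (a, b, D)) / 2 := by
    unfold val lo hi
    simp only
    rw [← add_div, div_div, div_le_div_iff₀ hd (by positivity)]
    have : ((v - 2).unpair.1 * (2 * D) ≤ (a + b) * ((v - 2).unpair.2 + 1)) ↔
        (((v - 2).unpair.1 : ℝ) * (2 * D) ≤ (a + b) * (((v - 2).unpair.2 : ℝ) + 1)) := by
      exact_mod_cast Iff.rfl
    rw [this, mul_comm (D : ℝ) 2]
  refine ⟨?_, ?_, ?_, ?_, ?_⟩
  · unfold stp
    simp only at hD ⊢
    split_ifs <;> positivity
  · intro hv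
    subst hv
    unfold stp lo hi
    simp only [if_true]
    push_cast
    constructor <;> field_simp
  · intro hv
    subst hv
    unfold stp lo hi
    simp only [if_true, one_ne_zero, if_false]
    push_cast
    constructor <;> field_simp
  · intro hv hval
    have h1 := hiff.2 hval
    unfold stp
    rw [if_neg (by omega), if_neg (by omega), if_pos h1]
    unfold lo hi val
    simp only
    constructor
    · rw [Nat.cast_max]
      rw [← max_div_div_right (Nat.cast_nonneg (2 * D * ((v - 2).unpair.2 + 1)))]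
      push_cast
      congr 1 <;> field_simp
    · push_cast
      field_simp
  · intro hv hval
    have h1 : ¬ (v - 2).unpair.1 * (2 * D) ≤ (a + b) * ((v - 2).unpair.2 + 1) := fun h =>
      absurd (hiff.1 h) (not_le.2 hval)
    unfold stp
    rw [if_neg (by omega), if_neg (by omega), if_neg h1]
    unfold lo hi val
    simp only
    constructor
    · push_cast
      field_simp
    · rw [Nat.cast_min]
      rw [← min_div_div_right (Nat.cast_nonneg (2 * D * ((v - 2).unpair.2 + 1)))]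
      push_cast
      congr 1 <;> field_simp

end Pool.Agent.Helper583.WD
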