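import Pool.Agent.Helper583.WDIvt1

/-!
Connected choice on the unit interval reduces to DIAG: the reduction.
-/

namespace Pool.Agent.Helper583.WD

/-- Comparison of codes of rational numbers. -/
def VLt (c d : ℕ) : Prop := c.unpair.1 * (d.unpair.2 + 1) < d.unpair.1 * (c.unpair.2 + 1)

theorem vlt_iff (c d : ℕ) : VLt c d ↔ val c < val d := by
  unfold VLt val
  rw [div_lt_div_iff₀ (by positivity) (by positivity)]
  exact_mod_cast Iff.rfl

/-- The number `w` is known at stage `T` to be to the left of the interval. -/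
def LC (p : ℕ → ℕ) (T w : ℕ) : Prop :=
  w = 0 ∨ (2 ≤ w ∧ ∃ t < T, p (2 * t) ≠ 0 ∧ VLt (w - 2) (p (2 * t) - 1))

/-- The number `w` is known at stage `T` to be to the right of the interval. -/
def RC (p : ℕ → ℕ) (T w : ℕ) : Prop :=
  w = 1 ∨ (2 ≤ w ∧ ∃ t < T, p (2 * t + 1) ≠ 0 ∧ VLt (p (2 * t + 1) - 1) (w - 2))

open Classical in
/-- The enumeration of the equivalence relation. -/
noncomputable def eI (p : ℕ → ℕ) (k : ℕ) : ℕ :=
  if k.unpair.1.unpair.1 = k.unpair.1.unpair.2 ∨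
    (LC p k.unpair.2 k.unpair.1.unpair.1 ∧ LC p k.unpair.2 k.unpair.1.unpair.2) ∨
    (RC p k.unpair.2 k.unpair.1.unpair.1 ∧ RC p k.unpair.2 k.unpair.1.unpair.2)
  then k.unpair.1 else 0

theorem lc_congr {p q : ℕ → ℕ} {T w : ℕ} (h : ∀ i < 2 * T + 2, p i = q i) : LC p T w ↔ LC q T w := by
  have h1 : (∃ t < T, p (2 * t) ≠ 0 ∧ VLt (w - 2) (p (2 * t) - 1)) ↔
      ∃ t < T, q (2 * t) ≠ 0 ∧ VLt (w - 2) (q (2 * t) - 1) := by
    constructor
    · rintro ⟨t, ht, h'⟩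
      exact ⟨t, ht, by rwa [← h _ (by omega)]⟩
    · rintro ⟨t, ht, h'⟩
      exact ⟨t, ht, by rwa [h _ (by omega)]⟩
  unfold LC
  rw [h1]

theorem rc_congr {p q : ℕ → ℕ} {T w : ℕ} (h : ∀ i < 2 * T + 2, p i = q i) : RC p T w ↔ RC q T w := by
  have h1 : (∃ t < T, p (2 * t + 1) ≠ 0 ∧ VLt (p (2 * t + 1) - 1) (w - 2)) ↔
      ∃ t < T, q (2 * t + 1) ≠ 0 ∧ VLt (q (2 * t + 1) - 1) (w - 2) := by
    constructor
    · rintro ⟨t, ht, h'⟩
      exact ⟨t, ht, by rwa [← h _ (by omega)]⟩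
    · rintro ⟨t, ht, h'⟩
      exact ⟨t, ht, by rwa [h _ (by omega)]⟩
  unfold RC
  rw [h1]

theorem eI_congr {p q : ℕ → ℕ} {k : ℕ} (h : ∀ i < 2 * k.unpair.2 + 2, p i = q i) :
    eI p k = eI q k := by
  have hc : (k.unpair.1.unpair.1 = k.unpair.1.unpair.2 ∨
    (LC p k.unpair.2 k.unpair.1.unpair.1 ∧ LC p k.unpair.2 k.unpair.1.unpair.2) ∨
    (RC p k.unpair.2 k.unpair.1.unpair.1 ∧ RC p k.unpair.2 k.unpair.1.unpair.2)) ↔
    (k.unpair.1.unpair.1 = k.unpair.1.unpair.2 ∨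
    (LC q k.unpair.2 k.unpair.1.unpair.1 ∧ LC q k.unpair.2 k.unpair.1.unpair.2) ∨
    (RC q k.unpair.2 k.unpair.1.unpair.1 ∧ RC q k.unpair.2 k.unpair.1.unpair.2)) := by
    rw [lc_congr h, lc_congr h, rc_congr h, rc_congr h]
  unfold eI
  by_cases hq : (k.unpair.1.unpair.1 = k.unpair.1.unpair.2 ∨
    (LC q k.unpair.2 k.unpair.1.unpair.1 ∧ LC q k.unpair.2 k.unpair.1.unpair.2) ∨
    (RC q k.unpair.2 k.unpair.1.unpair.1 ∧ RC q k.unpair.2 k.unpair.1.unpair.2))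
  · rw [if_pos hq, if_pos (hc.2 hq)]
  · rw [if_neg hq, if_neg (fun h' => hq (hc.1 h'))]

theorem primrec_vlt {α : Type*} [Primcodable α] {f g : α → ℕ} (hf : Primrec f) (hg : Primrec g) :
    PrimrecPred fun x => VLt (f x) (g x) := by
  unfold VLt
  have h1 := Primrec.unpair.comp hf
  have h2 := Primrec.unpair.comp hg
  exact Primrec.nat_lt.comp
    (Primrec.nat_mul.comp (Primrec.fst.comp h1) (Primrec.succ.comp (Primrec.snd.comp h2)))
    (Primrec.nat_mul.comp (Primrec.fst.comp h2) (Primrec.succ.comp (Primrec.snd.comp h1)))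

theorem primrec_lc : PrimrecPred fun x : (List ℕ × ℕ) × ℕ => LC (tf x.1.1) x.1.2 x.2 := by
  unfold LC
  refine PrimrecPred.or (Primrec.eq.comp Primrec.snd (Primrec.const 0))
    (PrimrecPred.and (Primrec.nat_le.comp (Primrec.const 2) Primrec.snd) ?_)
  refine ex_lt (R := fun t (x : (List ℕ × ℕ) × ℕ) => tf x.1.1 (2 * t) ≠ 0 ∧
    VLt (x.2 - 2) (tf x.1.1 (2 * t) - 1)) ?_ (Primrec.snd.comp Primrec.fst)
  have h1 : Primrec fun y : ℕ × ((List ℕ × ℕ) × ℕ) => tf y.2.1.1 (2 * y.1) :=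
    primrec_tf (Primrec.fst.comp (Primrec.fst.comp Primrec.snd))
      (Primrec.nat_mul.comp (Primrec.const 2) Primrec.fst)
  exact PrimrecPred.and (PrimrecPred.not (Primrec.eq.comp h1 (Primrec.const 0)))
    (primrec_vlt (Primrec.nat_sub.comp (Primrec.snd.comp Primrec.snd) (Primrec.const 2))
      (Primrec.nat_sub.comp h1 (Primrec.const 1)))

theorem primrec_rc : PrimrecPred fun x : (List ℕ × ℕ) × ℕ => RC (tf x.1.1) x.1.2 x.2 := by
  unfold RC
  refine PrimrecPred.or (Primrec.eq.comp Primrec.snd (Primrec.const 1))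
    (PrimrecPred.and (Primrec.nat_le.comp (Primrec.const 2) Primrec.snd) ?_)
  refine ex_lt (R := fun t (x : (List ℕ × ℕ) × ℕ) => tf x.1.1 (2 * t + 1) ≠ 0 ∧
    VLt (tf x.1.1 (2 * t + 1) - 1) (x.2 - 2)) ?_ (Primrec.snd.comp Primrec.fst)
  have h1 : Primrec fun y : ℕ × ((List ℕ × ℕ) × ℕ) => tf y.2.1.1 (2 * y.1 + 1) :=
    primrec_tf (Primrec.fst.comp (Primrec.fst.comp Primrec.snd))
      (Primrec.succ.comp (Primrec.nat_mul.comp (Primrec.const 2) Primrec.fst))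
  exact PrimrecPred.and (PrimrecPred.not (Primrec.eq.comp h1 (Primrec.const 0)))
    (primrec_vlt (Primrec.nat_sub.comp h1 (Primrec.const 1))
      (Primrec.nat_sub.comp (Primrec.snd.comp Primrec.snd) (Primrec.const 2)))

theorem primrec_eI : Primrec fun a : List ℕ × ℕ => eI (tf a.1) a.2 := by
  classical
  unfold eI
  have h1 : Primrec fun a : List ℕ × ℕ => a.2.unpair.1 :=
    Primrec.fst.comp (Primrec.unpair.comp Primrec.snd)
  have h2 : Primrec fun a : List ℕ × ℕ => a.2.unpair.1.unpair.1 :=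
    Primrec.fst.comp (Primrec.unpair.comp h1)
  have h3 : Primrec fun a : List ℕ × ℕ => a.2.unpair.1.unpair.2 :=
    Primrec.snd.comp (Primrec.unpair.comp h1)
  have h4 : Primrec fun a : List ℕ × ℕ => a.2.unpair.2 :=
    Primrec.snd.comp (Primrec.unpair.comp Primrec.snd)
  have h5 := Primrec.fst.pair h4
  exact Primrec.ite (PrimrecPred.or (Primrec.eq.comp h2 h3)
    (PrimrecPred.or (PrimrecPred.and (primrec_lc.comp (h5.pair h2)) (primrec_lc.comp (h5.pair h3)))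
      (PrimrecPred.and (primrec_rc.comp (h5.pair h2)) (primrec_rc.comp (h5.pair h3)))))
    h1 (Primrec.const 0)

/-- The number `w` is to the left of the interval. -/
def LA (p : ℕ → ℕ) (w : ℕ) : Prop :=
  w = 0 ∨ (2 ≤ w ∧ ∃ t c, p (2 * t) = c + 1 ∧ val (w - 2) < val c)

/-- The number `w` is to the right of the interval. -/
def RA (p : ℕ → ℕ) (w : ℕ) : Prop :=
  w = 1 ∨ (2 ≤ w ∧ ∃ t c, p (2 * t + 1) = c + 1 ∧ val c < val (w - 2))

theorem la_iff (p : ℕ → ℕ) (w : ℕ) : LA p w ↔ ∃ T, ∀ T' ≥ T, LC p T' w := by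
  constructor
  · rintro (h | ⟨h, t, c, h1, h2⟩)
    · exact ⟨0, fun _ _ => Or.inl h⟩
    · refine ⟨t + 1, fun T' hT' => Or.inr ⟨h, t, by omega, by omega, ?_⟩⟩
      rw [vlt_iff, h1, Nat.add_sub_cancel]
      exact h2
  · rintro ⟨T, h⟩
    rcases h T le_rfl with h | ⟨h, t, -, h1, h2⟩
    · exact Or.inl h
    · refine Or.inr ⟨h, t, p (2 * t) - 1, by omega, ?_⟩
      rwa [vlt_iff] at h2

theorem ra_iff (p : ℕ → ℕ) (w : ℕ) : RA p w ↔ ∃ T, ∀ T' ≥ T, RC p T' w := by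
  constructor
  · rintro (h | ⟨h, t, c, h1, h2⟩)
    · exact ⟨0, fun _ _ => Or.inl h⟩
    · refine ⟨t + 1, fun T' hT' => Or.inr ⟨h, t, by omega, by omega, ?_⟩⟩
      rw [vlt_iff, h1, Nat.add_sub_cancel]
      exact h2
  · rintro ⟨T, h⟩
    rcases h T le_rfl with h | ⟨h, t, -, h1, h2⟩
    · exact Or.inl h
    · refine Or.inr ⟨h, t, p (2 * t + 1) - 1, by omega, ?_⟩
      rwa [vlt_iff] at h2

theorem lc_la {p : ℕ → ℕ} {T w : ℕ} (h : LC p T w) : LA p w := by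
  rcases h with h | ⟨h, t, -, h1, h2⟩
  · exact Or.inl h
  · refine Or.inr ⟨h, t, p (2 * t) - 1, by omega, ?_⟩
    rwa [vlt_iff] at h2

theorem rc_ra {p : ℕ → ℕ} {T w : ℕ} (h : RC p T w) : RA p w := by
  rcases h with h | ⟨h, t, -, h1, h2⟩
  · exact Or.inl h
  · refine Or.inr ⟨h, t, p (2 * t + 1) - 1, by omega, ?_⟩
    rwa [vlt_iff] at h2

theorem rel_eI (p : ℕ → ℕ) (x y : ℕ) :
    Rel (eI p) x y ↔ x = y ∨ (LA p x ∧ LA p y) ∨ (RA p x ∧ RA p y) := by
  have h00 : Nat.pair 0 0 = 0 := by simp [Nat.pair]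
  constructor
  · rintro ⟨k, hk⟩
    unfold eI at hk
    split_ifs at hk with h
    · rw [hk] at h
      simp only [Nat.unpair_pair] at h
      rcases h with h | h | h
      · exact Or.inl h
      · exact Or.inr (Or.inl ⟨lc_la h.1, lc_la h.2⟩)
      · exact Or.inr (Or.inr ⟨rc_ra h.1, rc_ra h.2⟩)
    · have := Nat.pair_eq_pair.1 (h00.trans hk)
      exact Or.inl (this.1.symm.trans this.2)
  · rintro (h | ⟨h1, h2⟩ | ⟨h1, h2⟩)
    · refine ⟨Nat.pair (Nat.pair x y) 0, ?_⟩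
      rw [eI, if_pos]
      · simp only [Nat.unpair_pair]
      · simp only [Nat.unpair_pair]
        exact Or.inl h
    · obtain ⟨T1, h1⟩ := (la_iff p x).1 h1
      obtain ⟨T2, h2⟩ := (la_iff p y).1 h2
      refine ⟨Nat.pair (Nat.pair x y) (max T1 T2), ?_⟩
      rw [eI, if_pos]
      · simp only [Nat.unpair_pair]
      · simp only [Nat.unpair_pair]
        exact Or.inr (Or.inl ⟨h1 _ (le_max_left _ _), h2 _ (le_max_right _ _)⟩)
    · obtain ⟨T1, h1⟩ := (ra_iff p x).1 h1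
      obtain ⟨T2, h2⟩ := (ra_iff p y).1 h2
      refine ⟨Nat.pair (Nat.pair x y) (max T1 T2), ?_⟩
      rw [eI, if_pos]
      · simp only [Nat.unpair_pair]
      · simp only [Nat.unpair_pair]
        exact Or.inr (Or.inr ⟨h1 _ (le_max_left _ _), h2 _ (le_max_right _ _)⟩)

theorem not_la_ra {p : ℕ → ℕ} (hp : CC.inst p) {w : ℕ} (h1 : LA p w) (h2 : RA p w) : False := by
  obtain ⟨x, -, -, hx⟩ := hp
  rcases h1 with h1 | ⟨h1, t, c, h3, h4⟩
  · rcases h2 with h2 | ⟨h2, -⟩ <;> omega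
  · rcases h2 with h2 | ⟨h2, t', c', h5, h6⟩
    · omega
    · have h7 := (hx t c).1 h3
      have h8 := (hx t' c').2 h5
      linarith

theorem inst_eI {p : ℕ → ℕ} (hp : CC.inst p) : DIAG.inst (eI p) := by
  refine ⟨⟨fun x => ?_, fun {x y} h => ?_, fun {x y z} h h' => ?_⟩, 0, 1, fun h => ?_⟩
  · rw [rel_eI]; exact Or.inl rfl
  · rw [rel_eI] at *
    rcases h with h | h | h
    · exact Or.inl h.symm
    · exact Or.inr (Or.inl ⟨h.2, h.1⟩)
    · exact Or.inr (Or.inr ⟨h.2, h.1⟩)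
  · rw [rel_eI] at *
    rcases h with h | h | h
    · rw [h]; exact h'
    · rcases h' with h' | h' | h'
      · rw [← h']; exact Or.inr (Or.inl h)
      · exact Or.inr (Or.inl ⟨h.1, h'.2⟩)
      · exact (not_la_ra hp h.2 h'.1).elim
    · rcases h' with h' | h' | h'
      · rw [← h']; exact Or.inr (Or.inr h)
      · exact (not_la_ra hp h'.1 h.2).elim
      · exact Or.inr (Or.inr ⟨h.1, h'.2⟩)
  · rw [rel_eI] at h
    rcases h with h | h | h
    · exact absurd h (by norm_num)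
    · rcases h.2 with h' | ⟨h', -⟩ <;> omega
    · rcases h.1 with h' | ⟨h', -⟩ <;> omega

end Pool.Agent.Helper583.WD
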