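import Pool.Agent.Helper583.WDIvt2

/-!
Connected choice on the unit interval reduces to DIAG: correctness.
-/

namespace Pool.Agent.Helper583.WD

/-- The invariant of the interval computation. -/
def InvJ (p : ℕ → ℕ) (s : ℕ × ℕ × ℕ) : Prop :=
  0 < s.2.2 ∧ 0 ≤ lo s ∧ hi s ≤ 1 ∧ ∃ x, Sat p x ∧ lo s ≤ x ∧ x ≤ hi s

theorem invJ_step {p g : ℕ → ℕ} (hg : DIAG.sol (eI p) g) {s : ℕ × ℕ × ℕ} (h : InvJ p s) :
    InvJ p (stp (g (qn s)) s) ∧ lo s ≤ lo (stp (g (qn s)) s) ∧ hi (stp (g (qn s)) s) ≤ hi s ∧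
      hi (stp (g (qn s)) s) - lo (stp (g (qn s)) s) ≤ (hi s - lo s) / 2 := by
  obtain ⟨hD, hlo, hhi, x0, ⟨hx0, hx1, hx⟩, hx2, hx3⟩ := h
  have hle : lo s ≤ hi s := hx2.trans hx3
  obtain ⟨h1, h2, h3, h4, h5⟩ := stp_spec (v := g (qn s)) hD hle
  have hu := val_qn hD
  obtain ⟨u, hudef⟩ : ∃ u, u = (lo s + hi s) / 2 := ⟨_, rfl⟩
  rw [← hudef] at hu h2 h3 h4 h5
  have hw2 : 2 ≤ qn s := by unfold qn; omega
  have hgw := hg (qn s)
  rw [rel_eI] at hgw
  push Not at hgw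
  obtain ⟨hg1, hg2, hg3⟩ := hgw
  -- what it means that the question is on one side
  have hLA : ∀ t c, p (2 * t) = c + 1 → u < val c → LA p (qn s) := fun t c h h' =>
    Or.inr ⟨hw2, t, c, h, by rw [hu]; exact h'⟩
  have hRA : ∀ t c, p (2 * t + 1) = c + 1 → val c < u → RA p (qn s) := fun t c h h' =>
    Or.inr ⟨hw2, t, c, h, by rw [hu]; exact h'⟩
  rcases Nat.lt_or_ge (g (qn s)) 2 with hv | hv
  · interval_cases hgv : g (qn s)
    · obtain ⟨e1, e2⟩ := h2 rfl
      have hno : ∀ t c, p (2 * t) = c + 1 → val c ≤ u := fun t c h =>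
        not_lt.1 fun h' => hg2 (Or.inl rfl) (hLA t c h h')
      refine ⟨⟨h1, by rw [e1]; exact hlo, by rw [e2]; linarith, ?_⟩, by rw [e1], by
        rw [e2]; linarith, by rw [e1, e2]; linarith⟩
      rw [e1, e2]
      rcases le_total x0 u with h | h
      · exact ⟨x0, ⟨hx0, hx1, hx⟩, hx2, h⟩
      · exact ⟨u, ⟨by linarith, by linarith, fun t c => ⟨hno t c, fun h' =>
          h.trans ((hx t c).2 h')⟩⟩, by linarith, le_rfl⟩
    · obtain ⟨e1, e2⟩ := h3 rfl
      have hno : ∀ t c, p (2 * t + 1) = c + 1 → u ≤ val c := fun t c h =>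
        not_lt.1 fun h' => hg3 (Or.inl rfl) (hRA t c h h')
      refine ⟨⟨h1, by rw [e1]; linarith, by rw [e2]; exact hhi, ?_⟩, by rw [e1]; linarith, by
        rw [e2], by rw [e1, e2]; linarith⟩
      rw [e1, e2]
      rcases le_total u x0 with h | h
      · exact ⟨x0, ⟨hx0, hx1, hx⟩, h, hx3⟩
      · exact ⟨u, ⟨by linarith, by linarith, fun t c => ⟨fun h' =>
          ((hx t c).1 h').trans h, hno t c⟩⟩, le_rfl, by linarith⟩
  · obtain ⟨v, hvdef⟩ : ∃ v, v = val (g (qn s) - 2) := ⟨_, rfl⟩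
    rw [← hvdef] at h4 h5
    have hLA' : ∀ t c, p (2 * t) = c + 1 → v < val c → LA p (g (qn s)) := fun t c h h' =>
      Or.inr ⟨hv, t, c, h, by rw [← hvdef]; exact h'⟩
    have hRA' : ∀ t c, p (2 * t + 1) = c + 1 → val c < v → RA p (g (qn s)) := fun t c h h' =>
      Or.inr ⟨hv, t, c, h, by rw [← hvdef]; exact h'⟩
    rcases le_or_gt v u with hvu | hvu
    · obtain ⟨e1, e2⟩ := h4 hv hvu
      have hno : ∀ t c, p (2 * t) = c + 1 → val c ≤ u := fun t c h =>
        not_lt.1 fun h' => hg2 (hLA' t c h (lt_of_le_of_lt hvu h')) (hLA t c h h')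
      have hno' : ∀ t c, p (2 * t + 1) = c + 1 → v ≤ val c := fun t c h =>
        not_lt.1 fun h' => hg3 (hRA' t c h h') (hRA t c h (lt_of_lt_of_le h' hvu))
      have hmax := le_max_left (lo s) v
      refine ⟨⟨h1, by rw [e1]; linarith, by rw [e2]; linarith, ?_⟩, by rw [e1]; exact hmax, by
        rw [e2]; linarith, by rw [e1, e2]; linarith⟩
      rw [e1, e2]
      rcases le_total x0 u with h | h
      · rcases le_total v x0 with h' | h'
        · exact ⟨x0, ⟨hx0, hx1, hx⟩, max_le hx2 h', h⟩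
        · exact ⟨v, ⟨by linarith, by linarith, fun t c => ⟨fun h'' =>
            ((hx t c).1 h'').trans h', hno' t c⟩⟩, max_le (by linarith) le_rfl, hvu⟩
      · exact ⟨u, ⟨by linarith, by linarith, fun t c => ⟨hno t c, fun h' =>
          h.trans ((hx t c).2 h')⟩⟩, max_le (by linarith) hvu, le_rfl⟩
    · obtain ⟨e1, e2⟩ := h5 hv hvu
      have hno : ∀ t c, p (2 * t + 1) = c + 1 → u ≤ val c := fun t c h =>
        not_lt.1 fun h' => hg3 (hRA' t c h (h'.trans hvu)) (hRA t c h h')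
      have hno' : ∀ t c, p (2 * t) = c + 1 → val c ≤ v := fun t c h =>
        not_lt.1 fun h' => hg2 (hLA' t c h h') (hLA t c h (hvu.trans h'))
      have hmin := min_le_left (hi s) v
      refine ⟨⟨h1, by rw [e1]; linarith, by rw [e2]; linarith, ?_⟩, by rw [e1]; linarith, by
        rw [e2]; exact hmin, by rw [e1, e2]; linarith⟩
      rw [e1, e2]
      rcases le_total u x0 with h | h
      · rcases le_total x0 v with h' | h'
        · exact ⟨x0, ⟨hx0, hx1, hx⟩, h, le_min hx3 h'⟩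
        · exact ⟨v, ⟨by linarith, by linarith, fun t c => ⟨hno' t c, fun h'' =>
            h'.trans ((hx t c).2 h'')⟩⟩, hvu.le, le_min (by linarith) le_rfl⟩
      · exact ⟨u, ⟨by linarith, by linarith, fun t c => ⟨fun h' =>
          ((hx t c).1 h').trans h, hno t c⟩⟩, le_rfl, le_min (by linarith) hvu.le⟩

theorem cc_le : WLE CC DIAG := by
  obtain ⟨φ, hφ, hφ'⟩ := exists_functional eI (fun _ k => 2 * k.unpair.2 + 2)
    (fun p q n h => ⟨eI_congr h, rfl⟩) primrec_eI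
    (Primrec.succ.comp (Primrec.succ.comp (Primrec.nat_mul.comp (Primrec.const 2)
      (Primrec.snd.comp (Primrec.unpair.comp Primrec.snd)))))
  obtain ⟨ψ, hψ, hψ'⟩ := exists_functional
    (fun z n => Nat.pair (st z n).1.1 ((st z n).1.2.2 - 1)) (fun z n => (st z n).2)
    (fun p q n h => by rw [st_congr n h]; exact ⟨rfl, rfl⟩)
    (Primrec₂.natPair.comp (Primrec.fst.comp (Primrec.fst.comp primrec_st))
      (Primrec.nat_sub.comp (Primrec.snd.comp (Primrec.snd.comp (Primrec.fst.comp primrec_st)))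
        (Primrec.const 1)))
    (Primrec.snd.comp primrec_st)
  refine ⟨φ, ψ, hφ, hψ, fun p hp => ⟨_, hφ' p, inst_eI hp, fun g hg => ⟨_, hψ' _, ?_⟩⟩⟩
  obtain ⟨J, hJ⟩ : ∃ J : ℕ → ℕ × ℕ × ℕ, ∀ n, J n = (st (join p g) n).1 := ⟨_, fun _ => rfl⟩
  have hJ0 : J 0 = (0, 1, 1) := by rw [hJ]; rfl
  have hJs : ∀ n, J (n + 1) = stp (g (qn (J n))) (J n) := by
    intro n
    have : join p g (2 * qn (st (join p g) n).1 + 1) = g (qn (st (join p g) n).1) :=
      congrFun (right_join p g) _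
    rw [hJ, hJ, st, this]
  have hlo0 : lo (J 0) = 0 := by rw [hJ0]; simp [lo]
  have hhi0 : hi (J 0) = 1 := by rw [hJ0]; simp [hi]
  have hinv : ∀ n, InvJ p (J n) ∧ hi (J n) - lo (J n) ≤ (1 / 2) ^ n := by
    intro n
    induction n with
    | zero =>
      obtain ⟨x, hx⟩ := hp
      refine ⟨⟨by rw [hJ0]; norm_num, by rw [hlo0], by rw [hhi0], x, hx, ?_, ?_⟩, ?_⟩
      · rw [hlo0]; exact hx.1
      · rw [hhi0]; exact hx.2.1
      · rw [hlo0, hhi0]; norm_num
    | succ n ih =>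
      obtain ⟨h1, -, -, h4⟩ := invJ_step hg ih.1
      rw [← hJs] at h1 h4
      refine ⟨h1, h4.trans ?_⟩
      rw [pow_succ]
      have := ih.2
      linarith
  have hmono : Monotone fun n => lo (J n) := monotone_nat_of_le_succ fun n => by
    have := (invJ_step hg (hinv n).1).2.1
    rw [← hJs] at this
    exact this
  have hanti : Antitone fun n => hi (J n) := antitone_nat_of_succ_le fun n => by
    have := (invJ_step hg (hinv n).1).2.2.1
    rw [← hJs] at this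
    exact this
  have hle : ∀ n m, lo (J n) ≤ hi (J m) := by
    intro n m
    obtain ⟨⟨-, -, -, x, -, h1, h2⟩, -⟩ := hinv (max n m)
    exact (hmono (le_max_left n m)).trans ((h1.trans h2).trans (hanti (le_max_right n m)))
  have hbdd : BddAbove (Set.range fun n => lo (J n)) := ⟨hi (J 0), by
    rintro _ ⟨n, rfl⟩
    exact hle n 0⟩
  obtain ⟨x, hx⟩ : ∃ x, x = ⨆ n, lo (J n) := ⟨_, rfl⟩
  have hx1 : ∀ n, lo (J n) ≤ x := fun n => by rw [hx]; exact le_ciSup hbdd n
  have hx2 : ∀ n, x ≤ hi (J n) := fun n => by rw [hx]; exact ciSup_le fun m => hle m n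
  refine ⟨x, ⟨by rw [← hlo0]; exact hx1 0, by rw [← hhi0]; exact hx2 0, fun t c =>
    ⟨fun hc => ?_, fun hc => ?_⟩⟩, fun n => ?_⟩
  · by_contra hcon
    push Not at hcon
    obtain ⟨n, hn⟩ := exists_pow_lt_of_lt_one (sub_pos.2 hcon) (by norm_num : (1 / 2 : ℝ) < 1)
    obtain ⟨⟨-, -, -, y, ⟨-, -, hy⟩, h1, h2⟩, h3⟩ := hinv n
    have h4 := (hy t c).1 hc
    have h5 := hx1 n
    linarith
  · by_contra hcon
    push Not at hcon
    obtain ⟨n, hn⟩ := exists_pow_lt_of_lt_one (sub_pos.2 hcon) (by norm_num : (1 / 2 : ℝ) < 1)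
    obtain ⟨⟨-, -, -, y, ⟨-, -, hy⟩, h1, h2⟩, h3⟩ := hinv n
    have h4 := (hy t c).2 hc
    have h5 := hx2 n
    linarith
  · have hD : 0 < (J n).2.2 := (hinv n).1.1
    have h1 : val (Nat.pair (st (join p g) n).1.1 ((st (join p g) n).1.2.2 - 1)) = lo (J n) := by
      rw [← hJ]
      unfold val lo
      rw [Nat.unpair_pair]
      simp only
      have h2 : ((J n).2.2 - 1 : ℕ) + 1 = (J n).2.2 := by omega
      have h3 : (((J n).2.2 - 1 : ℕ) : ℝ) + 1 = (J n).2.2 := by exact_mod_cast h2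
      rw [h3]
    rw [h1, abs_of_nonneg (by linarith [hx1 n])]
    linarith [hx2 n, (hinv n).2]

end Pool.Agent.Helper583.WD
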