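import Pool.Agent.Helper583.WDSh

/-!
DNR with infinitely many bounded values is not reducible to DIAG.
-/

namespace Pool.Agent.Helper583.WD

theorem dnrf_not_diag (H : ℕ → ℕ∞) (hH : ∀ N, ∃ n ≥ N, H n ≠ ⊤) : ¬ CLE (DNRF H) DIAG := by
  classical
  rintro ⟨φ, ψ, hred⟩
  have hred' : ∀ p, ∃ r, (DNRF H).inst p → Computes φ p r ∧ DIAG.inst r ∧
      ∀ g, DIAG.sol r g → ∃ s, Computes ψ (join p g) s ∧ (DNRF H).sol p s := by
    intro p
    by_cases h : (DNRF H).inst p
    · obtain ⟨r, hr⟩ := hred p h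
      exact ⟨r, fun _ => hr⟩
    · exact ⟨p, fun h' => absurd h' h⟩
  choose R hR using hred'
  obtain ⟨pb, M0, a, b, hgb, hsep⟩ := exists_sep' hR
  -- a bounded index which is not declared yet
  obtain ⟨n0, hn0, hHn⟩ := hH ((Finset.range M0).sup (fun t => (pb t - 1).unpair.1) + 1)
  obtain ⟨k, hk⟩ := ENat.ne_top_iff_exists.1 hHn
  have hn0' : ∀ t < M0, ∀ v, pb t ≠ Nat.pair n0 v + 1 := by
    intro t ht v hv
    have := Finset.le_sup (f := fun t => (pb t - 1).unpair.1) (Finset.mem_range.2 ht)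
    rw [hv, Nat.add_sub_cancel, Nat.unpair_pair] at this
    simp only at this
    omega
  have hg0 : Good {n0} pb M0 := by
    refine ⟨hgb.1, fun t ht e v he hmem => ?_⟩
    rw [Finset.mem_singleton] at hmem
    subst hmem
    exact hn0' t ht v he
  obtain ⟨r, hr⟩ : ∃ r, r = Fintype.card (Fin k → Bool) := ⟨_, rfl⟩
  let e : (Fin k → Bool) ≃ Fin r := hr ▸ Fintype.equivFin (Fin k → Bool)
  obtain ⟨D', p1, T1, z, hD', hT1, hp1, hg1, hsh⟩ := shatter hR hsep r {n0} pb M0 le_rfl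
    (fun _ _ => rfl) hg0
  obtain ⟨K, hKdef⟩ : ∃ K : Finset ℕ, K = (Finset.range r).image z := ⟨_, rfl⟩
  have hqI : Ins D' (glue p1 T1 (fun _ => 0)) := hg1.zero
  obtain ⟨q, hq⟩ : ∃ q, q = glue p1 T1 (fun _ => 0) := ⟨_, rfl⟩
  rw [← hq] at hqI
  obtain ⟨tK, htK⟩ := exists_dec hR (p := q) hqI.1 K n0
  have hbr : ∀ i : Fin k, ∃ c M, T1 + tK ≤ M ∧ (∀ j < T1 + tK, c j = q j) ∧ Good {n0} c M ∧
      ∀ s : Fin k → Bool, Forces R c M (col a b (s i)) (z (e s)) := by
    intro i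
    obtain ⟨c, M, hM, hc, hgc, hF⟩ := hsh q (T1 + tK) (by omega)
      (fun j hj => by rw [hq, glue_lt hj]) (hqI.good _)
      (fun j => if h : j < r then e.symm ⟨j, h⟩ i else true)
    refine ⟨c, M, hM, hc, hgc, fun s => ?_⟩
    have := hF (e s) (e s).2
    simpa using this
  choose c M hM hc hgc hF using hbr
  obtain ⟨A, hA⟩ : ∃ A : Fin k → ℕ → ℕ, ∀ i, A i = glue (c i) (M i)
      (fun _ => Nat.pair n0 (i : ℕ) + 1) := ⟨_, fun _ => rfl⟩
  have hAI : ∀ i, Ins ∅ (A i) := by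
    intro i
    rw [hA]
    refine ((hgc i).mono (Finset.empty_subset _) le_rfl).add (fun t ht v hv => ?_)
      (Finset.notMem_empty n0) i
    exact (hgc i).2 t ht n0 v hv (Finset.mem_singleton_self n0)
  have hAc : ∀ i, ∀ j < M i, A i j = c i j := fun i j hj => by rw [hA]; exact glue_lt hj
  have hAq : ∀ i, ∀ j < T1 + tK, A i j = q j := fun i j hj => by
    rw [hAc i j (lt_of_lt_of_le hj (hM i)), hc i j hj]
  have hqb : ∀ j < M0, q j = pb j := fun j hj => by rw [hq, glue_lt (by omega), hp1 j hj]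
  have hsA : ∀ i, ¬ Rel (R (A i)) a b := fun i =>
    hsep _ (fun j hj => by rw [hAq i j (by omega), hqb j hj]) (hAI i)
  have hFA : ∀ i s, Rel (R (A i)) (col a b (s i)) (z (e s)) := fun i s =>
    hF i s (A i) (hAc i) (hAI i)
  -- a common solution
  obtain ⟨g, hg⟩ : ∃ g : ℕ → ℕ, ∀ y, g y =
      z (e (fun i => decide (¬ Rel (R (A i)) a y))) := ⟨_, fun _ => rfl⟩
  have hgK : ∀ y, g y ∈ K := by
    intro y
    rw [hg, hKdef]
    exact Finset.mem_image_of_mem z (Finset.mem_range.2 (e _).2)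
  have hgA : ∀ i, DIAG.sol (R (A i)) g := by
    intro i y hy
    have eA := (hR (A i) (hAI i).1).2.1.1
    have h1 := hFA i (fun i => decide (¬ Rel (R (A i)) a y))
    rw [← hg] at h1
    have h2 := eA.trans h1 hy
    by_cases h : Rel (R (A i)) a y
    · have h3 : col a b (decide (¬ Rel (R (A i)) a y)) = b := by simp [col, h]
      rw [h3] at h2
      exact hsA i (eA.trans h (eA.symm h2))
    · have h3 : col a b (decide (¬ Rel (R (A i)) a y)) = a := by simp [col, h]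
      rw [h3] at h2
      exact h h2
  have hk0 : 0 < k := by
    by_contra hk0
    have hk1 : k = 0 := by omega
    have hsq : ¬ Rel (R q) a b :=
      hsep q hqb (hqI.mono (Finset.empty_subset _))
    obtain ⟨g1, -, -, hg1⟩ := extend hR (A := q) hqI.1 hsq (g0 := fun _ => 0) (N := 0)
      (fun y hy => absurd hy (Nat.not_lt_zero y))
    obtain ⟨s, -, hs⟩ := (hR q hqI.1).2.2 g1 hg1
    have := (hs n0).1
    rw [← hk, hk1] at this
    exact absurd this (by simp)
  rcases htK g hgK with ⟨y, hy, t, m, hm, h⟩ | ⟨m, hm, v, h⟩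
  · exact hgA ⟨0, hk0⟩ y (rel_of_pre hR (hAI _).1 h
      (pre_congr fun j hj => (hAq ⟨0, hk0⟩ j (by omega)).symm))
  · have hv : ∀ i, ∃ s : ℕ → ℕ, (DNRF H).sol (A i) s ∧ s n0 = v := by
      intro i
      obtain ⟨s, hs, hs'⟩ := (hR (A i) (hAI i).1).2.2 g (hgA i)
      refine ⟨s, hs', ?_⟩
      have h2 : pre (join q g) m = pre (join (A i) g) m :=
        pre_congr (join_congr (fun j hj => (hAq i j (by omega)).symm) (fun _ _ => rfl))
      rw [h2] at h
      exact ((hs n0).2 m v h).symm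
    obtain ⟨s, hs, hsv⟩ := hv ⟨0, hk0⟩
    have hvk : v < k := by
      have := (hs n0).1
      rw [hsv, ← hk] at this
      exact_mod_cast this
    obtain ⟨s', hs', hsv'⟩ := hv ⟨v, hvk⟩
    have h3 := (hs' n0).2 (M ⟨v, hvk⟩)
    rw [hsv', hA] at h3
    exact h3 (glue_ge 0)

theorem diag_not_cn_dnrf (H : ℕ → ℕ∞) (hH : ∀ n, 3 ≤ H n) : ¬ CLE DIAG (prod CN (DNRF H)) := by
  intro h
  have h1 : CLE (DNRF H) (DNR 3) := by
    refine cle_iff.2 ⟨fun p => p, right, contOn_id, fun _ h => h, contOn_right,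
      fun p q _ hq => ?_⟩
    rw [right_join]
    intro n
    exact ⟨lt_of_lt_of_le (hq n).1 (hH n), (hq n).2⟩
  exact diag_not_cn_dnr 3 le_rfl (h.trans (CLE.prod_mono (CLE.refl CN) h1))

end Pool.Agent.Helper583.WD
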