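import Pool.Agent.Helper583.WDIvt3
import Pool.Agent.Helper583.WDSh2

/-!
DNR is not reducible to connected choice on the unit interval.
-/

namespace Pool.Agent.Helper583.WD

/-- The solution of connected choice computed from a solution of DIAG. -/
def cs (z : ℕ → ℕ) (n : ℕ) : ℕ := Nat.pair (st z n).1.1 ((st z n).1.2.2 - 1)

theorem cs_sol {p g : ℕ → ℕ} (hp : CC.inst p) (hg : DIAG.sol (eI p) g) : CC.sol p (cs (join p g)) := by
  obtain ⟨J, hJ⟩ : ∃ J : ℕ → ℕ × ℕ × ℕ, ∀ n, J n = (st (join p g) n).1 := ⟨_, fun _ => rfl⟩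
  have hJ0 : J 0 = (0, 1, 1) := by rw [hJ]; rfl
  have hJs : ∀ n, J (n + 1) = stp (g (qn (J n))) (J n) := by
    intro n
    have : join p g (2 * qn (st (join p g) n).1 + 1) = g (qn (st (join p g) n).1) :=
      congrFun (right_join p g) _
    rw [hJ, hJ, st, this]
  have hlo0 : lo (J 0) = 0 := by rw [hJ0]; simp [lo]
  have hhi0 : hi (J 0) = 1 := by rw [hJ0]; simp [hi]
  have hinv : ∀ n, InvJ p (J n) ∧ hi (J n) - lo (J n) ≤ (1 / 2) ^ n := by
    intro n
    induction n with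
    | zero =>
      obtain ⟨x, hx⟩ := hp
      refine ⟨⟨by rw [hJ0]; norm_num, by rw [hlo0], by rw [hhi0], x, hx, ?_, ?_⟩, ?_⟩
      · rw [hlo0]; exact hx.1
      · rw [hhi0]; exact hx.2.1
      · rw [hlo0, hhi0]; norm_num
    | succ n ih =>
      obtain ⟨h1, -, -, h4⟩ := invJ_step hg ih.1
      rw [← hJs] at h1 h4
      refine ⟨h1, h4.trans ?_⟩
      rw [pow_succ]
      have := ih.2
      linarith
  have hmono : Monotone fun n => lo (J n) := monotone_nat_of_le_succ fun n => by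
    have := (invJ_step hg (hinv n).1).2.1
    rw [← hJs] at this
    exact this
  have hanti : Antitone fun n => hi (J n) := antitone_nat_of_succ_le fun n => by
    have := (invJ_step hg (hinv n).1).2.2.1
    rw [← hJs] at this
    exact this
  have hle : ∀ n m, lo (J n) ≤ hi (J m) := by
    intro n m
    obtain ⟨⟨-, -, -, x, -, h1, h2⟩, -⟩ := hinv (max n m)
    exact (hmono (le_max_left n m)).trans ((h1.trans h2).trans (hanti (le_max_right n m)))
  have hbdd : BddAbove (Set.range fun n => lo (J n)) := ⟨hi (J 0), by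
    rintro _ ⟨n, rfl⟩
    exact hle n 0⟩
  obtain ⟨x, hx⟩ : ∃ x, x = ⨆ n, lo (J n) := ⟨_, rfl⟩
  have hx1 : ∀ n, lo (J n) ≤ x := fun n => by rw [hx]; exact le_ciSup hbdd n
  have hx2 : ∀ n, x ≤ hi (J n) := fun n => by rw [hx]; exact ciSup_le fun m => hle m n
  refine ⟨x, ⟨by rw [← hlo0]; exact hx1 0, by rw [← hhi0]; exact hx2 0, fun t c =>
    ⟨fun hc => ?_, fun hc => ?_⟩⟩, fun n => ?_⟩
  · by_contra hcon
    push Not at hcon
    obtain ⟨n, hn⟩ := exists_pow_lt_of_lt_one (sub_pos.2 hcon) (by norm_num : (1 / 2 : ℝ) < 1)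
    obtain ⟨⟨-, -, -, y, ⟨-, -, hy⟩, h1, h2⟩, h3⟩ := hinv n
    have h4 := (hy t c).1 hc
    have h5 := hx1 n
    linarith
  · by_contra hcon
    push Not at hcon
    obtain ⟨n, hn⟩ := exists_pow_lt_of_lt_one (sub_pos.2 hcon) (by norm_num : (1 / 2 : ℝ) < 1)
    obtain ⟨⟨-, -, -, y, ⟨-, -, hy⟩, h1, h2⟩, h3⟩ := hinv n
    have h4 := (hy t c).2 hc
    have h5 := hx2 n
    linarith
  · have hD : 0 < (J n).2.2 := (hinv n).1.1
    have h1 : val (cs (join p g) n) = lo (J n) := by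
      unfold cs
      rw [← hJ]
      unfold val lo
      rw [Nat.unpair_pair]
      simp only
      have h2 : ((J n).2.2 - 1 : ℕ) + 1 = (J n).2.2 := by omega
      have h3 : (((J n).2.2 - 1 : ℕ) : ℝ) + 1 = (J n).2.2 := by exact_mod_cast h2
      rw [h3]
    rw [h1, abs_of_nonneg (by linarith [hx1 n])]
    linarith [hx2 n, (hinv n).2]

theorem contOn_eI {D : (ℕ → ℕ) → Prop} : ContOn D eI :=
  fun _ _ k => ⟨2 * k.unpair.2 + 2, fun _ _ h => eI_congr h⟩

theorem contOn_cs {D : (ℕ → ℕ) → Prop} : ContOn D cs := fun p _ n =>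
  ⟨(st p n).2, fun p' _ h => by unfold cs; rw [st_congr n (fun i hi => (h i hi).symm)]⟩

theorem rel_zero {p : ℕ → ℕ} {w : ℕ} (h : Rel (eI p) 0 w) : LA p w := by
  rw [rel_eI] at h
  rcases h with h | h | h
  · exact Or.inl h.symm
  · exact h.2
  · rcases h.1 with h' | ⟨h', -⟩ <;> omega

theorem rel_one {p : ℕ → ℕ} {w : ℕ} (h : Rel (eI p) 1 w) : RA p w := by
  rw [rel_eI] at h
  rcases h with h | h | h
  · exact Or.inl h.symm
  · rcases h.1 with h' | ⟨h', -⟩ <;> omega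
  · exact h.2

theorem dnr_not_cc : ¬ CLE (DNR ⊤) CC := by
  classical
  intro h
  obtain ⟨F1, G1, c1, i1, d1, s1⟩ := cle_iff.1 h
  obtain ⟨φ, hφ⟩ := functional_of_contOn (D := (DNR ⊤).inst) (F := fun p => eI (F1 p))
    (contOn_eI.comp c1 i1)
  obtain ⟨ψ, hψ⟩ := functional_of_contOn
    (D := fun z => (DNR ⊤).inst (left z) ∧ DIAG.sol (eI (F1 (left z))) (right z))
    (F := fun z => G1 (join (left z) (cs (join (F1 (left z)) (right z))))) (by
      refine d1.comp (contOn_join contOn_left ?_) ?_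
      · refine (contOn_cs (D := fun _ => True)).comp
          (contOn_join (c1.comp contOn_left fun z hz => hz.1) contOn_right) fun _ _ => trivial
      · rintro z ⟨hz1, hz2⟩
        rw [left_join, right_join]
        exact ⟨hz1, cs_sol (i1 _ hz1) hz2⟩)
  have hR : ∀ p, (DNRF fun _ => ⊤).inst p → Computes φ p (eI (F1 p)) ∧ DIAG.inst (eI (F1 p)) ∧
      ∀ g, DIAG.sol (eI (F1 p)) g → ∃ s, Computes ψ (join p g) s ∧ (DNRF fun _ => ⊤).sol p s := by
    intro p hp
    refine ⟨hφ p hp, inst_eI (i1 p hp), fun g hg => ⟨_, hψ (join p g) ?_, ?_⟩⟩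
    · rw [left_join, right_join]; exact ⟨hp, hg⟩
    · rw [left_join, right_join]
      exact s1 p _ hp (cs_sol (i1 p hp) hg)
  have hsep : ∀ p', (∀ j < 0, p' j = (fun _ => 0 : ℕ → ℕ) j) → Ins ∅ p' →
      ¬ Rel (eI (F1 p')) 0 1 := by
    intro p' _ hI h
    rcases rel_zero h with h' | ⟨h', -⟩ <;> omega
  obtain ⟨D', p1, T1, z, -, -, -, hg1, hsh⟩ := shatter (R := fun p => eI (F1 p)) hR hsep 2 ∅
    (fun _ => 0) 0 le_rfl (fun _ _ => rfl)
    ⟨fun s hs => absurd hs (Nat.not_lt_zero s), fun s hs => absurd hs (Nat.not_lt_zero s)⟩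
  have key : ∀ π : ℕ → Bool, ∃ q, (DNR ⊤).inst q ∧ ∀ j < 2, Rel (eI (F1 q)) (col 0 1 (π j)) (z j) := by
    intro π
    obtain ⟨p', M', -, -, hg', hF⟩ := hsh p1 T1 le_rfl (fun _ _ => rfl) hg1 π
    refine ⟨glue p' M' (fun _ => 0), hg'.zero.1, fun j hj => ?_⟩
    exact hF j hj _ (fun i hi => glue_lt hi) hg'.zero
  obtain ⟨q1, hq1, h1⟩ := key fun j => decide (j = 0)
  obtain ⟨q2, hq2, h2⟩ := key fun j => decide (j ≠ 0)
  have a1 : LA (F1 q1) (z 0) := rel_zero (by simpa [col] using h1 0 (by norm_num))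
  have a2 : RA (F1 q1) (z 1) := rel_one (by simpa [col] using h1 1 (by norm_num))
  have a3 : RA (F1 q2) (z 0) := rel_one (by simpa [col] using h2 0 (by norm_num))
  have a4 : LA (F1 q2) (z 1) := rel_zero (by simpa [col] using h2 1 (by norm_num))
  have key2 : ∀ {r : ℕ → ℕ} {u w : ℕ}, CC.inst r → 2 ≤ u → 2 ≤ w → LA r u → RA r w →
      val (u - 2) < val (w - 2) := by
    intro r u w hr hu hw hl hr'
    obtain ⟨x, -, -, hx⟩ := hr
    rcases hl with hl | ⟨-, t, c, h3, h4⟩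
    · omega
    · rcases hr' with hr' | ⟨-, t', c', h5, h6⟩
      · omega
      · have h7 := (hx t c).1 h3
        have h8 := (hx t' c').2 h5
        linarith
  have hz0 : 2 ≤ z 0 := by
    rcases a1 with h | ⟨h, -⟩
    · rcases a3 with h' | ⟨h', -⟩ <;> omega
    · exact h
  have hz1 : 2 ≤ z 1 := by
    rcases a4 with h | ⟨h, -⟩
    · rcases a2 with h' | ⟨h', -⟩ <;> omega
    · exact h
  have e1 := key2 (i1 q1 hq1) hz0 hz1 a1 a2
  have e2 := key2 (i1 q2 hq2) hz1 hz0 a4 a3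
  linarith

end Pool.Agent.Helper583.WD
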