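import Pool.Agent.Helper583.WDAe3

/-!
Finding a Martin-Löf random sequence is not reducible to DIAG.
-/

namespace Pool.Agent.Helper583.WD

/-- The enumeration `r` of pairs `⟨k, w⟩` of a level and a word is a Martin-Löf test: for every
`k` and `n`, at most the fraction `1 / 2 ^ k` of the words of length `n` has an initial segment in
the level `k`. -/
def Test (r : ℕ → ℕ) : Prop :=
  ∀ k n, 2 ^ k * {σ : Fin n → Bool | ∃ t, ∃ m ≤ n,
    r t = Nat.pair k (Encodable.encode (pre (ext σ) m)) + 1}.ncard ≤ 2 ^ n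

/-- The sequence `x` passes every Martin-Löf test which is computable relative to `p`. -/
def Random (p x : ℕ → ℕ) : Prop :=
  ∀ φ : List ℕ × ℕ →. ℕ, Partrec φ → ∀ r, Computes φ p r → Test r →
    ∃ k, ∀ t m, r t ≠ Nat.pair k (Encodable.encode (pre x m)) + 1

/-- Given `p`, find a binary sequence which is Martin-Löf random relative to `p`. -/
def MLR : Problem where
  inst _ := True
  sol p x := (∀ n, x n < 2) ∧ Random p x

theorem aednr_le_mlr : CLE (AeDNR fun n => ((2 ^ (n + 2) : ℕ) : ℕ∞)) MLR := by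
  classical
  obtain ⟨E, hE⟩ : ∃ E : (ℕ → ℕ) → ℕ → ℕ, ∀ p j, E p j =
      if ∃ l : List ℕ, j.unpair.2 = Encodable.encode l ∧ Bad (p j.unpair.1.unpair.1) l ∧
        j.unpair.1.unpair.2 ≤ (p j.unpair.1.unpair.1 - 1).unpair.1
      then Nat.pair j.unpair.1.unpair.2 j.unpair.2 + 1 else 0 := ⟨_, fun _ _ => rfl⟩
  have hE' : ∀ p k (l : List ℕ), (∃ j, E p j = Nat.pair k (Encodable.encode l) + 1) ↔
      ∃ t, Bad (p t) l ∧ k ≤ (p t - 1).unpair.1 := by
    intro p k l
    constructor
    · rintro ⟨j, hj⟩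
      rw [hE] at hj
      split_ifs at hj with hc
      obtain ⟨l', h1, h2, h3⟩ := hc
      obtain ⟨h4, h5⟩ := Nat.pair_eq_pair.1 (Nat.succ_injective hj)
      have h6 : Encodable.encode l' = Encodable.encode l := h1.symm.trans h5
      rw [Encodable.encode_inj] at h6
      subst h6
      rw [h4] at h3
      exact ⟨_, h2, h3⟩
    · rintro ⟨t, ht, hk⟩
      refine ⟨Nat.pair (Nat.pair t k) (Encodable.encode l), ?_⟩
      rw [hE, if_pos]
      · simp only [Nat.unpair_pair]
      · simp only [Nat.unpair_pair]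
        exact ⟨l, rfl, ht, hk⟩
  refine cle_iff.2 ⟨E, fun z n => Nat.ofBits (fun i : Fin (n + 2) =>
    decide (right z (Nat.pair n i) = 1)), ?_, fun _ _ => trivial, ?_, ?_⟩
  · intro p _ j
    refine ⟨j.unpair.1.unpair.1 + 1, fun p' _ hag => ?_⟩
    rw [hE, hE, hag _ (Nat.lt_succ_self _)]
  · intro z _ n
    refine ⟨2 * (Nat.pair n (n + 1)) + 2, fun z' _ hag => ?_⟩
    have : ∀ i : Fin (n + 2), right z' (Nat.pair n i) = right z (Nat.pair n i) := fun i =>
      hag _ (by have := pair_le i.2; omega)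
    simp only [this]
  · intro p q hp hq
    obtain ⟨hq1, hq2⟩ := hq
    -- the test
    have htest : Test (E p) := by
      intro k m
      obtain ⟨B, hB⟩ : ∃ B : ℕ → Finset (Fin m → Bool), ∀ n, B n = Finset.univ.filter fun σ =>
        Nat.pair n (n + 1) < m ∧ ∃ t v, p t = Nat.pair n v + 1 ∧
          ∀ i < n + 2, ext σ (Nat.pair n i) = (v.testBit i).toNat := ⟨_, fun _ => rfl⟩
      have hBc : ∀ n, 2 ^ (n + 2) * (B n).card ≤ 2 ^ m := by
        intro n
        by_cases h : Nat.pair n (n + 1) < m ∧ ∃ t v, p t = Nat.pair n v + 1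
        · obtain ⟨h1, t, v, h2⟩ := h
          refine le_trans (Nat.mul_le_mul_left _ (Finset.card_le_card fun σ hσ => ?_))
            (card_block (v := v) h1)
          rw [hB, Finset.mem_filter] at hσ
          obtain ⟨-, -, t', v', h3, h4⟩ := hσ
          have := hp t' t n v' v h3 h2
          subst this
          exact Finset.mem_filter.2 ⟨Finset.mem_univ _, h4⟩
        · have : B n = ∅ := by
            rw [hB]
            refine Finset.filter_eq_empty_iff.2 fun σ _ hσ => h ?_
            obtain ⟨h1, t, v, h2, -⟩ := hσ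
            exact ⟨h1, t, v, h2⟩
          rw [this]
          simp
      have hsum : 2 ^ k * (∑ i ∈ Finset.range m, (B (k + i)).card) ≤ 2 ^ m := by
        have h1 : ∀ i, (2 : ℝ) ^ k * ((B (k + i)).card : ℝ) ≤ 2 ^ m / 4 * (1 / 2) ^ i := by
          intro i
          have h2 : (2 : ℝ) ^ (k + i + 2) * (B (k + i)).card ≤ 2 ^ m := by
            exact_mod_cast hBc (k + i)
          have h4 : (2 : ℝ) ^ m / 4 * (1 / 2) ^ i = 2 ^ m / (2 ^ (i + 2)) := by
            rw [pow_add, one_div, inv_pow]
            field_simp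
            norm_num
          rw [h4, le_div_iff₀ (by positivity)]
          have h5 : (2 : ℝ) ^ (k + i + 2) = 2 ^ k * 2 ^ (i + 2) := by
            rw [add_assoc, pow_add]
          rw [h5] at h2
          linarith
        have h5 : (∑ i ∈ Finset.range m, (2 : ℝ) ^ k * ((B (k + i)).card : ℝ)) ≤ 2 ^ m / 4 * 2 := by
          calc (∑ i ∈ Finset.range m, (2 : ℝ) ^ k * ((B (k + i)).card : ℝ))
              ≤ ∑ i ∈ Finset.range m, 2 ^ m / 4 * (1 / 2 : ℝ) ^ i :=
                Finset.sum_le_sum fun i _ => h1 i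
            _ = 2 ^ m / 4 * ∑ i ∈ Finset.range m, (1 / 2 : ℝ) ^ i := by rw [Finset.mul_sum]
            _ ≤ 2 ^ m / 4 * 2 :=
              mul_le_mul_of_nonneg_left (sum_geometric_two_le m) (by positivity)
        have h6 : (2 : ℝ) ^ k * (∑ i ∈ Finset.range m, ((B (k + i)).card : ℝ)) ≤ 2 ^ m := by
          rw [Finset.mul_sum]
          have : (0 : ℝ) < 2 ^ m := by positivity
          linarith
        exact_mod_cast h6
      refine le_trans (Nat.mul_le_mul_left _ ?_) hsum
      refine le_trans ?_ (Finset.card_biUnion_le (s := Finset.range m) (t := fun i => B (k + i)))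
      rw [Set.ncard_eq_toFinset_card']
      refine Finset.card_le_card fun σ hσ => ?_
      rw [Set.mem_toFinset] at hσ
      obtain ⟨j, m', hm', hj⟩ := hσ
      obtain ⟨t, ⟨n, v, h1, h2, h3⟩, hk⟩ := (hE' p k _).1 ⟨j, hj⟩
      rw [pre_length] at h2
      rw [h1, Nat.add_sub_cancel, Nat.unpair_pair] at hk
      simp only at hk
      have h4 := Nat.left_le_pair n (n + 1)
      refine Finset.mem_biUnion.2 ⟨n - k, Finset.mem_range.2 (by omega), ?_⟩
      rw [Nat.add_sub_cancel' hk, hB]
      refine Finset.mem_filter.2 ⟨Finset.mem_univ _, by omega, t, v, h1, fun i hi => ?_⟩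
      have h5 := h3 i hi
      rw [pre_get (lt_of_le_of_lt (pair_le hi) h2)] at h5
      exact Option.some_injective _ h5
    obtain ⟨φ, hφ, hφ'⟩ := exists_functional (fun p n => p n) (fun _ n => n + 1)
      (fun p q n h => ⟨h n (Nat.lt_succ_self n), rfl⟩) (primrec_tf Primrec.fst Primrec.snd)
      (Primrec.succ.comp Primrec.snd)
    obtain ⟨k, hk⟩ := hq2 φ hφ (E p) (hφ' (E p)) htest
    refine ⟨k, fun n hn => ?_⟩
    dsimp only
    rw [right_join]
    refine ⟨?_, fun t ht => ?_⟩
    · exact_mod_cast Nat.ofBits_lt_two_pow _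
    · obtain ⟨j, hj⟩ := (hE' p k (pre q (Nat.pair n (n + 1) + 1))).2 ⟨t, ⟨n, _, ht, by
        rw [pre_length]; omega, fun i hi => by
          rw [pre_get (by have := pair_le hi; omega), Nat.testBit_ofBits_lt _ i hi]
          have := hq1 (Nat.pair n i)
          by_cases h3 : q (Nat.pair n i) = 1
          · simp [h3]
          · have h4 : q (Nat.pair n i) = 0 := by omega
            simp [h4]⟩, by
          rw [ht, Nat.add_sub_cancel, Nat.unpair_pair]
          exact hn⟩
      exact hk _ _ hj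

theorem mlr_not_diag : ¬ CLE MLR DIAG := fun h =>
  aednr_not_diag _ (fun N => ⟨N, le_rfl, ENat.natCast_ne_top _⟩) (aednr_le_mlr.trans h)

end Pool.Agent.Helper583.WD
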