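import Pool.Agent.Helper583.WDBasic

/-!
Colourings as instances of DIAG; DIAG is not reducible to DNR.
-/

namespace Pool.Agent.Helper583.WD

/-- An enumeration of the relation given by the colouring `c`. -/
def ec (c : ℕ → ℕ) : ℕ → ℕ := fun k => if c k.unpair.1 = c k.unpair.2 then k else 0

/-- The first `M` values of `p`, followed by `t`. -/
def glue (p : ℕ → ℕ) (M : ℕ) (t : ℕ → ℕ) : ℕ → ℕ := fun i => if i < M then p i else t (i - M)

/-- The first `M` pairs enumerated by `p` are monochromatic. -/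
def Cmp (p : ℕ → ℕ) (M : ℕ) (c : ℕ → ℕ) : Prop := ∀ i < M, c (p i).unpair.1 = c (p i).unpair.2

theorem glue_lt {p : ℕ → ℕ} {M : ℕ} {t : ℕ → ℕ} {i : ℕ} (h : i < M) : glue p M t i = p i := by
  simp [glue, h]

theorem glue_ge {p : ℕ → ℕ} {M : ℕ} {t : ℕ → ℕ} (i : ℕ) : glue p M t (M + i) = t i := by
  simp [glue]

theorem pre_glue {p : ℕ → ℕ} {M : ℕ} {t : ℕ → ℕ} {m : ℕ} (h : m ≤ M) :
    pre (glue p M t) m = pre p m :=
  pre_congr fun _ hi => glue_lt (lt_of_lt_of_le hi h)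

theorem ec_mono (c : ℕ → ℕ) (k : ℕ) : c (ec c k).unpair.1 = c (ec c k).unpair.2 := by
  unfold ec
  split_ifs with h
  · exact h
  · have : Nat.unpair 0 = (0, 0) := by
      have := Nat.unpair_pair 0 0
      simpa [Nat.pair] using this
    rw [this]

theorem cmp_glue {p : ℕ → ℕ} {M : ℕ} {c : ℕ → ℕ} (h : Cmp p M c) (M' : ℕ) :
    Cmp (glue p M (ec c)) M' c := by
  intro i _
  by_cases hi : i < M
  · rw [glue_lt hi]; exact h i hi
  · obtain ⟨j, rfl⟩ := Nat.exists_eq_add_of_le (not_lt.1 hi)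
    rw [glue_ge]; exact ec_mono c j

theorem rel_glue {p : ℕ → ℕ} {M : ℕ} {c : ℕ → ℕ} (h : Cmp p M c) (x y : ℕ) :
    Rel (glue p M (ec c)) x y ↔ c x = c y := by
  constructor
  · rintro ⟨n, hn⟩
    have := cmp_glue h (n + 1) n (Nat.lt_succ_self n)
    rw [hn] at this
    simpa using this
  · intro hxy
    refine ⟨M + Nat.pair x y, ?_⟩
    rw [glue_ge]
    simp [ec, hxy]

theorem inst_glue {p : ℕ → ℕ} {M : ℕ} {c : ℕ → ℕ} (h : Cmp p M c) {a b : ℕ} (hab : c a ≠ c b) :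
    DIAG.inst (glue p M (ec c)) := by
  have h' := rel_glue h
  refine ⟨⟨fun x => ?_, fun {x y} hxy => ?_, fun {x y z} hxy hyz => ?_⟩, a, b, ?_⟩
  · rw [h']
  · rw [h'] at *; exact hxy.symm
  · rw [h'] at *; exact hxy.trans hyz
  · rw [h']; exact hab

theorem avoid2 {k : ℕ∞} {r : ℕ → ℕ} (hr : (DNR k).inst r) {a b : ℕ} (hab : a ≠ b) (n : ℕ) :
    ∃ v, (v = a ∨ v = b) ∧ ∀ t, r t ≠ Nat.pair n v + 1 := by
  by_cases h : ∃ t, r t = Nat.pair n a + 1
  · obtain ⟨s, hs⟩ := h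
    refine ⟨b, Or.inr rfl, fun t ht => hab ?_⟩
    exact hr s t n a b hs ht
  · exact ⟨a, Or.inl rfl, fun t ht => h ⟨t, ht⟩⟩

theorem diag_not_dnr (k : ℕ∞) (hk : 2 ≤ k) : ¬ CLE DIAG (DNR k) := by
  rintro ⟨φ, ψ, hred⟩
  have hk1 : ∀ v : ℕ, v < 2 → (v : ℕ∞) < k := by
    intro v hv
    refine lt_of_lt_of_le ?_ hk
    exact_mod_cast hv
  let c0 : ℕ → ℕ := fun x => if x = 0 then 0 else 1
  let p0 := glue (fun _ => 0) 0 (ec c0)
  have hc0 : Cmp (fun _ => 0) 0 c0 := fun i hi => absurd hi (Nat.not_lt_zero i)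
  obtain ⟨r0, hφ0, hi0, hd0⟩ := hred p0 (inst_glue hc0 (a := 0) (b := 1) (by simp [c0]))
  let P : ℕ → (ℕ → ℕ) → Prop := fun M f =>
    (∃ e < M, ∃ t, ∃ m ≤ M, (Nat.pair e (f e) + 1) ∈ φ (pre p0 m, t)) ∨
      (∃ m ≤ M, ∃ v ≤ M, v ∈ ψ (pre (join p0 f) m, 0))
  have hP : ∃ M, ∀ f : ℕ → ℕ, (∀ x, f x ∈ ({0, 1} : Finset ℕ)) → P M f := by
    apply compact_use
    · rintro M M' f hM (⟨e, he, t, m, hm, h⟩ | ⟨m, hm, v, hv, h⟩)
      · exact Or.inl ⟨e, lt_of_lt_of_le he hM, t, m, hm.trans hM, h⟩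
      · exact Or.inr ⟨m, hm.trans hM, v, hv.trans hM, h⟩
    · rintro M f f' hf (⟨e, he, t, m, hm, h⟩ | ⟨m, hm, v, hv, h⟩)
      · refine Or.inl ⟨e, he, t, m, hm, ?_⟩
        rw [hf e he]; exact h
      · refine Or.inr ⟨m, hm, v, hv, ?_⟩
        rw [pre_congr (q := join p0 f) (join_congr (fun _ _ => rfl)
          (fun i hi => hf i (lt_of_lt_of_le hi hm)))]
        exact h
    · intro f hf
      by_cases hs : (DNR k).sol r0 f
      · obtain ⟨s, hψ, -⟩ := hd0 f hs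
        obtain ⟨⟨m, hm⟩, -⟩ := hψ 0
        exact ⟨max m (s 0), Or.inr ⟨m, le_max_left _ _, s 0, le_max_right _ _, hm⟩⟩
      · have : ∃ n t, r0 t = Nat.pair n (f n) + 1 := by
          by_contra hcon
          push Not at hcon
          apply hs
          intro n
          refine ⟨hk1 _ ?_, fun t => hcon n t⟩
          have := hf n
          simp only [Finset.mem_insert, Finset.mem_singleton] at this
          omega
        obtain ⟨n, t, ht⟩ := this
        obtain ⟨⟨m, hm⟩, -⟩ := hφ0 t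
        rw [ht] at hm
        exact ⟨max (n + 1) m, Or.inl ⟨n, lt_of_lt_of_le (Nat.lt_succ_self n) (le_max_left _ _),
          t, m, le_max_right _ _, hm⟩⟩
  obtain ⟨M, hM⟩ := hP
  obtain ⟨K, hKM, hK⟩ : ∃ K, M ≤ K ∧ ∀ i < M, (p0 i).unpair.1 ≤ K ∧ (p0 i).unpair.2 ≤ K := by
    refine ⟨M + (Finset.range M).sup (fun i => (p0 i).unpair.1 + (p0 i).unpair.2),
      Nat.le_add_right _ _, fun i hi => ?_⟩
    have := Finset.le_sup (f := fun i => (p0 i).unpair.1 + (p0 i).unpair.2)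
      (Finset.mem_range.2 hi)
    constructor <;> omega
  let c1 : ℕ → ℕ := fun x => if x ≤ K then 0 else 1
  have hc1 : Cmp p0 M c1 := by
    intro i hi
    simp [c1, (hK i hi).1, (hK i hi).2]
  let p1 := glue p0 M (ec c1)
  obtain ⟨r1, hφ1, hi1, hd1⟩ := hred p1 (inst_glue hc1 (a := 0) (b := K + 1) (by simp [c1]))
  choose f hf using fun n => avoid2 hi1 (show (0 : ℕ) ≠ 1 by norm_num) n
  have hf1 : (DNR k).sol r1 f := by
    intro n
    refine ⟨hk1 _ ?_, (hf n).2⟩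
    rcases (hf n).1 with h | h <;> omega
  obtain ⟨s, hψ, hs⟩ := hd1 f hf1
  rcases hM f (fun x => by simpa using (hf x).1) with ⟨e, he, t, m, hm, h⟩ | ⟨m, hm, v, hv, h⟩
  · rw [← pre_glue (t := ec c1) hm] at h
    exact (hf e).2 t ((hφ1 t).2 m _ h).symm
  · have h2 : pre (join p0 f) m = pre (join p1 f) m :=
      pre_congr (join_congr (fun i hi => (glue_lt (lt_of_lt_of_le hi hm)).symm) (fun _ _ => rfl))
    rw [h2] at h
    have h3 := (hψ 0).2 m v h
    apply hs 0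
    rw [← h3, rel_glue hc1]
    have : v ≤ K := hv.trans hKM
    simp [c1, this]

end Pool.Agent.Helper583.WD
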