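import Pool.Agent.Helper583.WDNeg1

/-!
DIAG is not reducible to the product of choice on the numbers and three-valued DNR.
-/

namespace Pool.Agent.Helper583.WD

/-- A two-colouring separating `0` and `1`. -/
def Col (c : ℕ → ℕ) : Prop := (∀ x, c x < 2) ∧ c 0 = 0 ∧ c 1 = 1

/-- The first `M` pairs enumerated by `p` are compatible with some two-colouring. -/
def Cond (p : ℕ → ℕ) (M : ℕ) : Prop := ∃ c, Col c ∧ Cmp p M c

theorem avoid3 {k : ℕ∞} {r r' : ℕ → ℕ} (hr : (DNR k).inst r) (hr' : (DNR k).inst r') (n : ℕ) :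
    ∃ v, v < 3 ∧ (∀ t, r t ≠ Nat.pair n v + 1) ∧ ∀ t, r' t ≠ Nat.pair n v + 1 := by
  by_contra hcon
  push Not at hcon
  have h : ∀ v < 3, (∃ t, r t = Nat.pair n v + 1) ∨ ∃ t, r' t = Nat.pair n v + 1 := by
    intro v hv
    by_cases h1 : ∃ t, r t = Nat.pair n v + 1
    · exact Or.inl h1
    · push Not at h1
      exact Or.inr (hcon v hv h1)
  have key : ∀ v w, (∃ t, r t = Nat.pair n v + 1) → (∃ t, r t = Nat.pair n w + 1) → v = w := by
    rintro v w ⟨s, hs⟩ ⟨t, ht⟩
    exact hr s t n v w hs ht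
  have key' : ∀ v w, (∃ t, r' t = Nat.pair n v + 1) → (∃ t, r' t = Nat.pair n w + 1) → v = w := by
    rintro v w ⟨s, hs⟩ ⟨t, ht⟩
    exact hr' s t n v w hs ht
  rcases h 0 (by norm_num) with h0 | h0 <;> rcases h 1 (by norm_num) with h1 | h1 <;>
    rcases h 2 (by norm_num) with h2 | h2
  all_goals first
    | exact absurd (key _ _ h0 h1) (by norm_num)
    | exact absurd (key' _ _ h0 h1) (by norm_num)
    | exact absurd (key _ _ h0 h2) (by norm_num)
    | exact absurd (key' _ _ h0 h2) (by norm_num)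
    | exact absurd (key _ _ h1 h2) (by norm_num)
    | exact absurd (key' _ _ h1 h2) (by norm_num)

/-- Recolouring a point which is isolated in the enumeration. -/
theorem cmp_update {p : ℕ → ℕ} {M : ℕ} {c : ℕ → ℕ} (hc : ∀ x, c x < 2) {x : ℕ}
    (h : Cmp p M (Function.update c x 2)) (i : ℕ) : Cmp p M (Function.update c x i) := by
  intro j hj
  have h1 := h j hj
  have h2 := hc (p j).unpair.1
  have h3 := hc (p j).unpair.2
  simp only [Function.update_apply] at h1 ⊢
  split_ifs at h1 ⊢ <;> omega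

theorem exists_fresh (p : ℕ → ℕ) (M : ℕ) :
    ∃ x, 2 ≤ x ∧ ∀ j < M, (p j).unpair.1 ≠ x ∧ (p j).unpair.2 ≠ x := by
  refine ⟨2 + (Finset.range M).sup (fun i => (p i).unpair.1 + (p i).unpair.2 + 1),
    Nat.le_add_right _ _, fun i hi => ?_⟩
  have := Finset.le_sup (f := fun i => (p i).unpair.1 + (p i).unpair.2 + 1) (Finset.mem_range.2 hi)
  constructor <;> omega

theorem col_update {c : ℕ → ℕ} (hc : Col c) {x : ℕ} (hx : 2 ≤ x) {i : ℕ} (hi : i < 2) :
    Col (Function.update c x i) := by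
  refine ⟨fun y => ?_, ?_, ?_⟩
  · rw [Function.update_apply]
    split_ifs
    · exact hi
    · exact hc.1 y
  · rw [Function.update_of_ne (by omega)]; exact hc.2.1
  · rw [Function.update_of_ne (by omega)]; exact hc.2.2

theorem force_out {k : ℕ∞} (hk : 3 ≤ k) {φ ψ : List ℕ × ℕ →. ℕ}
    (hred : Reduces φ ψ DIAG (prod CN (DNR k))) {p : ℕ → ℕ} {M : ℕ} (hp : Cond p M) (n : ℕ) :
    ∃ p' M', M < M' ∧ (∀ j < M, p' j = p j) ∧ Cond p' M' ∧
      ∃ t, ∃ m ≤ M', (n + 1) ∈ φ (pre p' m, 2 * t) := by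
  by_contra hcon
  have hno : ∀ p' : ℕ → ℕ, (∀ j < M, p' j = p j) → (∀ M', Cond p' M') →
      ∀ t m, (n + 1) ∉ φ (pre p' m, 2 * t) := by
    intro p' h1 h2 t m h3
    exact hcon ⟨p', max m (M + 1), lt_of_lt_of_le (Nat.lt_succ_self M) (le_max_right _ _), h1,
      h2 _, t, m, le_max_left _ _, h3⟩
  have hk1 : ∀ v : ℕ, v < 3 → (v : ℕ∞) < k := by
    intro v hv
    refine lt_of_lt_of_le ?_ hk
    exact_mod_cast hv
  obtain ⟨c, hc, hcp⟩ := hp
  obtain ⟨x, hx2, hx⟩ := exists_fresh p M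
  have hc2 : Cmp p M (Function.update c x 2) := by
    intro j hj
    rw [Function.update_of_ne (hx j hj).1, Function.update_of_ne (hx j hj).2]
    exact hcp j hj
  let p0 := glue p M (ec (Function.update c x 2))
  have hp0 : ∀ i M', Cmp p0 M' (Function.update c x i) := fun i M' =>
    cmp_update hc.1 (cmp_glue hc2 M') i
  have hpM : ∀ j < M, p0 j = p j := fun j hj => glue_lt hj
  have hA0 := hno p0 hpM
    (fun M' => ⟨_, col_update hc hx2 (show 0 < 2 by norm_num), hp0 0 M'⟩)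
  obtain ⟨r0, hφ0, hi0, hd0⟩ := hred p0 (inst_glue hc2 (a := 0) (b := 1) (by
    rw [Function.update_of_ne (by omega), Function.update_of_ne (by omega), hc.2.1, hc.2.2]
    norm_num))
  have hsol0 : ∀ (p' r' : ℕ → ℕ), Computes φ p' r' → (∀ t m, (n + 1) ∉ φ (pre p' m, 2 * t)) →
      CN.sol (left r') (fun _ => n) := by
    intro p' r' h1 h2 t ht
    obtain ⟨⟨m, hm⟩, -⟩ := h1 (2 * t)
    have : r' (2 * t) = n + 1 := ht
    rw [this] at hm
    exact h2 t m hm
  let P : ℕ → (ℕ → ℕ) → Prop := fun M f =>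
    (∃ e < M, ∃ t, ∃ m ≤ M, (Nat.pair e (f e) + 1) ∈ φ (pre p0 m, 2 * t + 1)) ∨
      (∃ m ≤ M, ∃ v, v ∈ ψ (pre (join p0 (join (fun _ => n) f)) m, x))
  have hP : ∃ M, ∀ f : ℕ → ℕ, (∀ x, f x ∈ ({0, 1, 2} : Finset ℕ)) → P M f := by
    apply compact_use
    · rintro M M' f hM (⟨e, he, t, m, hm, h⟩ | ⟨m, hm, v, h⟩)
      · exact Or.inl ⟨e, lt_of_lt_of_le he hM, t, m, hm.trans hM, h⟩
      · exact Or.inr ⟨m, hm.trans hM, v, h⟩
    · rintro M f f' hf (⟨e, he, t, m, hm, h⟩ | ⟨m, hm, v, h⟩)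
      · refine Or.inl ⟨e, he, t, m, hm, ?_⟩
        rw [hf e he]; exact h
      · refine Or.inr ⟨m, hm, v, ?_⟩
        rw [pre_congr (q := join p0 (join (fun _ => n) f)) (join_congr (fun _ _ => rfl)
          (join_congr (fun _ _ => rfl) (fun i hi => hf i (lt_of_lt_of_le hi hm))))]
        exact h
    · intro f hf
      by_cases hs : (DNR k).sol (right r0) f
      · obtain ⟨s, hψ, -⟩ := hd0 (join (fun _ => n) f) (by
          refine ⟨?_, ?_⟩
          · rw [left_join]; exact hsol0 p0 r0 hφ0 hA0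
          · rw [right_join]; exact hs)
        obtain ⟨⟨m, hm⟩, -⟩ := hψ x
        exact ⟨m, Or.inr ⟨m, le_rfl, s x, hm⟩⟩
      · have : ∃ n t, right r0 t = Nat.pair n (f n) + 1 := by
          by_contra hcon
          push Not at hcon
          apply hs
          intro n
          refine ⟨hk1 _ ?_, fun t => hcon n t⟩
          have := hf n
          simp only [Finset.mem_insert, Finset.mem_singleton] at this
          omega
        obtain ⟨e, t, ht⟩ := this
        obtain ⟨⟨m, hm⟩, -⟩ := hφ0 (2 * t + 1)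
        have ht' : r0 (2 * t + 1) = Nat.pair e (f e) + 1 := ht
        rw [ht'] at hm
        exact ⟨max (e + 1) m, Or.inl ⟨e, lt_of_lt_of_le (Nat.lt_succ_self e) (le_max_left _ _),
          t, m, le_max_right _ _, hm⟩⟩
  obtain ⟨M1, hM1⟩ := hP
  obtain ⟨M', hMM', hM1'⟩ : ∃ M', M ≤ M' ∧ M1 ≤ M' := ⟨max M M1, le_max_left _ _, le_max_right _ _⟩
  let q : ℕ → ℕ → ℕ := fun i => glue p0 M' (ec (Function.update c x i))
  have hqM : ∀ i, ∀ j < M, q i j = p j := by
    intro i j hj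
    have : q i j = p0 j := glue_lt (lt_of_lt_of_le hj hMM')
    rw [this]; exact hpM j hj
  have hqrel : ∀ i y z, Rel (q i) y z ↔ Function.update c x i y = Function.update c x i z :=
    fun i => rel_glue (hp0 i M')
  have hqA : ∀ i < 2, ∀ t m, (n + 1) ∉ φ (pre (q i) m, 2 * t) := fun i hi =>
    hno (q i) (hqM i) fun M'' => ⟨_, col_update hc hx2 hi, cmp_glue (hp0 i M') M''⟩
  have hqred : ∀ i, ∃ r, Computes φ (q i) r ∧ (prod CN (DNR k)).inst r ∧
      ∀ q', (prod CN (DNR k)).sol r q' → ∃ s, Computes ψ (join (q i) q') s ∧ DIAG.sol (q i) s := by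
    intro i
    exact hred (q i) (inst_glue (hp0 i M') (a := 0) (b := 1) (by
      rw [Function.update_of_ne (by omega), Function.update_of_ne (by omega), hc.2.1, hc.2.2]
      norm_num))
  choose r hφr hir hdr using hqred
  choose f hf3 hf0 hf1 using fun e => avoid3 (hir 0).2 (hir 1).2 e
  have hfsol : ∀ i < 2, (DNR k).sol (right (r i)) f := by
    intro i hi
    interval_cases i
    · exact fun e => ⟨hk1 _ (hf3 e), hf0 e⟩
    · exact fun e => ⟨hk1 _ (hf3 e), hf1 e⟩
  rcases hM1 f (fun e => by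
      have := hf3 e
      simp only [Finset.mem_insert, Finset.mem_singleton]
      omega) with ⟨e, he, t, m, hm, h⟩ | ⟨m, hm, v, h⟩
  · have h1 : pre p0 m = pre (q 0) m := (pre_glue (hm.trans hM1')).symm
    rw [h1] at h
    exact hf0 e t ((hφr 0 (2 * t + 1)).2 m _ h).symm
  · have hv : ∀ i < 2, ¬ Rel (q i) v x := by
      intro i hi
      obtain ⟨s, hs, hs'⟩ := hdr i (join (fun _ => n) f) (by
        refine ⟨?_, ?_⟩
        · rw [left_join]; exact hsol0 (q i) (r i) (hφr i) (hqA i hi)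
        · rw [right_join]; exact hfsol i hi)
      have h2 : pre (join p0 (join (fun _ => n) f)) m = pre (join (q i) (join (fun _ => n) f)) m :=
        pre_congr (join_congr
          (fun j hj => (glue_lt (lt_of_lt_of_le hj (hm.trans hM1'))).symm) (fun _ _ => rfl))
      rw [h2] at h
      rw [(hs x).2 m v h]
      exact hs' x
    by_cases hvx : v = x
    · exact hv 0 (by norm_num) ((hqrel 0 v x).2 (by rw [hvx]))
    · exact hv (c v) (hc.1 v) ((hqrel (c v) v x).2 (by
        rw [Function.update_of_ne hvx, Function.update_self]))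

theorem diag_not_cn_dnr (k : ℕ∞) (hk : 3 ≤ k) : ¬ CLE DIAG (prod CN (DNR k)) := by
  rintro ⟨φ, ψ, hred⟩
  let D : ℕ → (ℕ → ℕ) → ℕ → Prop := fun i p M =>
    (∃ t, ∃ m ≤ M, (i + 1) ∈ φ (pre p m, 2 * t)) ∧
      ∃ c, Col c ∧ Cmp p M c ∧ ∀ x y, x ≤ i → y ≤ i → c x = c y → ∃ j < M, p j = Nat.pair x y
  have h0 : Cond (fun _ => 0) 0 :=
    ⟨fun x => if x = 0 then 0 else 1, ⟨fun x => by dsimp only; split_ifs <;> norm_num,
      by simp, by simp⟩, fun i hi => absurd hi (Nat.not_lt_zero i)⟩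
  have step : ∀ i p M, Cond p M → ∃ p' M', M < M' ∧ (∀ j < M, p' j = p j) ∧ Cond p' M' ∧
      D i p' M' := by
    intro i p M hp
    obtain ⟨p1, M1, hM, hag, ⟨c, hc, hcp⟩, t, m, hm, hφ⟩ := force_out hk hred hp i
    refine ⟨glue p1 M1 (ec c), M1 + (Nat.pair i i + 1), by omega, fun j hj => ?_,
      ⟨c, hc, cmp_glue hcp _⟩, ⟨t, m, by omega, ?_⟩, c, hc, cmp_glue hcp _, ?_⟩
    · rw [glue_lt (hj.trans hM)]; exact hag j hj
    · rw [pre_glue hm]; exact hφ
    · intro x y hx hy hxy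
      refine ⟨M1 + Nat.pair x y, ?_, ?_⟩
      · have : Nat.pair x y ≤ Nat.pair i i := by
          rcases lt_or_eq_of_le hx with h | h
          · rcases lt_or_eq_of_le hy with h' | h'
            · exact ((Nat.pair_lt_pair_left y h).trans (Nat.pair_lt_pair_right i h')).le
            · subst h'; exact (Nat.pair_lt_pair_left y h).le
          · subst h
            rcases lt_or_eq_of_le hy with h' | h'
            · exact (Nat.pair_lt_pair_right x h').le
            · rw [h']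
        omega
      · rw [glue_ge]
        simp [ec, hxy]
  obtain ⟨p, -, hp⟩ := generic (C := Cond) (D := D) (fun _ => 0) 0 h0 step
  have key : ∀ i, ∃ c, Col c ∧ (∀ j ≤ i, c (p j).unpair.1 = c (p j).unpair.2) ∧
      ∀ x y, x ≤ i → y ≤ i → c x = c y → Rel p x y := by
    intro i
    obtain ⟨p', M', hi, -, hag, -, -, c, hc, hcp, h⟩ := hp i
    refine ⟨c, hc, fun j hj => ?_, fun x y hx hy hxy => ?_⟩
    · rw [hag j (by omega)]; exact hcp j (by omega)
    · obtain ⟨j, hj, hj'⟩ := h x y hx hy hxy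
      exact ⟨j, by rw [hag j hj]; exact hj'⟩
  have hinst : DIAG.inst p := by
    refine ⟨⟨fun x => ?_, fun {x y} hxy => ?_, fun {x y z} hxy hyz => ?_⟩, 0, 1, ?_⟩
    · obtain ⟨c, -, -, h⟩ := key x
      exact h x x le_rfl le_rfl rfl
    · obtain ⟨n, hn⟩ := hxy
      obtain ⟨c, -, h1, h2⟩ := key (n + x + y)
      have := h1 n (by omega)
      rw [hn] at this
      simp only [Nat.unpair_pair] at this
      exact h2 y x (by omega) (by omega) this.symm
    · obtain ⟨n, hn⟩ := hxy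
      obtain ⟨n', hn'⟩ := hyz
      obtain ⟨c, -, h1, h2⟩ := key (n + n' + x + y + z)
      have e1 := h1 n (by omega)
      have e2 := h1 n' (by omega)
      rw [hn] at e1
      rw [hn'] at e2
      simp only [Nat.unpair_pair] at e1 e2
      exact h2 x z (by omega) (by omega) (e1.trans e2)
    · rintro ⟨n, hn⟩
      obtain ⟨c, hc, h1, -⟩ := key n
      have e1 := h1 n le_rfl
      rw [hn] at e1
      simp only [Nat.unpair_pair] at e1
      rw [hc.2.1, hc.2.2] at e1
      exact absurd e1 (by norm_num)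
  obtain ⟨r, hφ, ⟨⟨n, hn⟩, -⟩, -⟩ := hred p hinst
  obtain ⟨p', M', -, -, hag, -, ⟨t, m, hm, h⟩, -⟩ := hp n
  rw [pre_congr (q := p) (fun i hi => (hag i (lt_of_lt_of_le hi hm)).symm)] at h
  exact hn t ((hφ (2 * t)).2 m _ h).symm

end Pool.Agent.Helper583.WD
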