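import Pool.Agent.Helper583.WDNeg2

/-!
No bounded DNR problem is reducible to DIAG.
-/

namespace Pool.Agent.Helper583.WD

/-- Instances of DNR in which no index in `D` occurs. -/
def Ins (D : Finset ℕ) (p : ℕ → ℕ) : Prop :=
  (∀ s t n v w, p s = Nat.pair n v + 1 → p t = Nat.pair n w + 1 → v = w) ∧
    ∀ t n v, p t = Nat.pair n v + 1 → n ∉ D

/-- The finite version of `Ins`. -/
def Good (D : Finset ℕ) (p : ℕ → ℕ) (M : ℕ) : Prop :=
  (∀ s < M, ∀ t < M, ∀ n v w, p s = Nat.pair n v + 1 → p t = Nat.pair n w + 1 → v = w) ∧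
    ∀ t < M, ∀ n v, p t = Nat.pair n v + 1 → n ∉ D

theorem Ins.good {D : Finset ℕ} {p : ℕ → ℕ} (h : Ins D p) (M : ℕ) : Good D p M :=
  ⟨fun s _ t _ => h.1 s t, fun t _ => h.2 t⟩

theorem Ins.mono {D D' : Finset ℕ} {p : ℕ → ℕ} (h : Ins D' p) (hD : D ⊆ D') : Ins D p :=
  ⟨h.1, fun t n v ht hn => h.2 t n v ht (hD hn)⟩

theorem Good.zero {D : Finset ℕ} {p : ℕ → ℕ} {M : ℕ} (h : Good D p M) :
    Ins D (glue p M (fun _ => 0)) := by
  have key : ∀ t n v, glue p M (fun _ => 0) t = Nat.pair n v + 1 → t < M ∧ p t = Nat.pair n v + 1 := by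
    intro t n v ht
    by_cases htM : t < M
    · rw [glue_lt htM] at ht; exact ⟨htM, ht⟩
    · obtain ⟨j, rfl⟩ := Nat.exists_eq_add_of_le (not_lt.1 htM)
      rw [glue_ge] at ht
      exact absurd ht (by omega)
  refine ⟨fun s t n v w hs ht => ?_, fun t n v ht => ?_⟩
  · obtain ⟨h1, h2⟩ := key s n v hs
    obtain ⟨h3, h4⟩ := key t n w ht
    exact h.1 s h1 t h3 n v w h2 h4
  · obtain ⟨h1, h2⟩ := key t n v ht
    exact h.2 t h1 n v h2

theorem Good.add {D : Finset ℕ} {p : ℕ → ℕ} {M : ℕ} (h : Good D p M) {n : ℕ}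
    (hn : ∀ t < M, ∀ v, p t ≠ Nat.pair n v + 1) (hD : n ∉ D) (j : ℕ) :
    Ins D (glue p M (fun _ => Nat.pair n j + 1)) := by
  have key : ∀ t e v, glue p M (fun _ => Nat.pair n j + 1) t = Nat.pair e v + 1 →
      (t < M ∧ p t = Nat.pair e v + 1) ∨ (e = n ∧ v = j) := by
    intro t e v ht
    by_cases htM : t < M
    · rw [glue_lt htM] at ht; exact Or.inl ⟨htM, ht⟩
    · obtain ⟨i, rfl⟩ := Nat.exists_eq_add_of_le (not_lt.1 htM)
      rw [glue_ge] at ht
      have := Nat.pair_eq_pair.1 (Nat.succ_injective ht)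
      exact Or.inr ⟨this.1.symm, this.2.symm⟩
  refine ⟨fun s t e v w hs ht => ?_, fun t e v ht => ?_⟩
  · rcases key s e v hs with ⟨h1, h2⟩ | ⟨h1, h2⟩ <;> rcases key t e w ht with ⟨h3, h4⟩ | ⟨h3, h4⟩
    · exact h.1 s h1 t h3 e v w h2 h4
    · subst h3; exact absurd h2 (hn s h1 v)
    · subst h1; exact absurd h4 (hn t h3 w)
    · rw [h2, h4]
  · rcases key t e v ht with ⟨h1, h2⟩ | ⟨h1, h2⟩
    · exact h.2 t h1 e v h2
    · rw [h1]; exact hD

theorem exists_index (D : Finset ℕ) (p : ℕ → ℕ) (M : ℕ) :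
    ∃ n, n ∉ D ∧ ∀ t < M, ∀ v, p t ≠ Nat.pair n v + 1 := by
  refine ⟨D.sup id + (Finset.range M).sup (fun t => (p t - 1).unpair.1) + 1, fun h => ?_,
    fun t ht v hv => ?_⟩
  · have := Finset.le_sup (f := id) h
    simp only [id] at this
    omega
  · have := Finset.le_sup (f := fun t => (p t - 1).unpair.1) (Finset.mem_range.2 ht)
    rw [hv, Nat.add_sub_cancel, Nat.unpair_pair] at this
    simp only at this
    omega

/-- First case: `k + 1` numbers can be kept inequivalent. -/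
theorem case_one {k : ℕ} (hk : 0 < k) {φ ψ : List ℕ × ℕ →. ℕ} {R : (ℕ → ℕ) → ℕ → ℕ}
    (hR : ∀ p, (DNR k).inst p → Computes φ p (R p) ∧ DIAG.inst (R p) ∧
      ∀ g, DIAG.sol (R p) g → ∃ s, Computes ψ (join p g) s ∧ (DNR k).sol p s)
    {p : ℕ → ℕ} {M : ℕ} {D S : Finset ℕ} (hg : Good D p M)
    (hS : ∀ p', (∀ j < M, p' j = p j) → Ins D p' → ∀ a ∈ S, ∀ b ∈ S, a ≠ b → ¬ Rel (R p') a b)
    (hcard : k < S.card) : False := by
  classical
  obtain ⟨n, hnD, hn⟩ := exists_index D p M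
  let p0 := glue p M (fun _ => 0)
  have hp0 : Ins D p0 := hg.zero
  have hpM : ∀ j < M, p0 j = p j := fun j hj => glue_lt hj
  obtain ⟨hφ0, hi0, hd0⟩ := hR p0 hp0.1
  have hn0 : ∀ M', ∀ t < M', ∀ v, p0 t ≠ Nat.pair n v + 1 := by
    intro M' t _ v ht
    by_cases htM : t < M
    · rw [hpM t htM] at ht; exact hn t htM v ht
    · obtain ⟨j, rfl⟩ := Nat.exists_eq_add_of_le (not_lt.1 htM)
      have : p0 (M + j) = 0 := glue_ge j
      omega
  let P : ℕ → (ℕ → ℕ) → Prop := fun M g =>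
    (∃ x < M, ∃ t, ∃ m ≤ M, Nat.pair (g x) x ∈ φ (pre p0 m, t)) ∨
      (∃ m ≤ M, ∃ v, v ∈ ψ (pre (join p0 g) m, n))
  have hP : ∃ M, ∀ g : ℕ → ℕ, (∀ x, g x ∈ S) → P M g := by
    apply compact_use
    · rintro M M' f hM (⟨e, he, t, m, hm, h⟩ | ⟨m, hm, v, h⟩)
      · exact Or.inl ⟨e, lt_of_lt_of_le he hM, t, m, hm.trans hM, h⟩
      · exact Or.inr ⟨m, hm.trans hM, v, h⟩
    · rintro M f f' hf (⟨e, he, t, m, hm, h⟩ | ⟨m, hm, v, h⟩)
      · refine Or.inl ⟨e, he, t, m, hm, ?_⟩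
        rw [hf e he]; exact h
      · refine Or.inr ⟨m, hm, v, ?_⟩
        rw [pre_congr (q := join p0 f) (join_congr (fun _ _ => rfl)
          (fun i hi => hf i (lt_of_lt_of_le hi hm)))]
        exact h
    · intro g _
      by_cases hs : DIAG.sol (R p0) g
      · obtain ⟨s, hψ, -⟩ := hd0 g hs
        obtain ⟨⟨m, hm⟩, -⟩ := hψ n
        exact ⟨m, Or.inr ⟨m, le_rfl, s n, hm⟩⟩
      · have : ∃ x, Rel (R p0) (g x) x := by
          by_contra hcon
          push Not at hcon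
          exact hs hcon
        obtain ⟨x, t, ht⟩ := this
        obtain ⟨⟨m, hm⟩, -⟩ := hφ0 t
        rw [ht] at hm
        exact ⟨max (x + 1) m, Or.inl ⟨x, lt_of_lt_of_le (Nat.lt_succ_self x) (le_max_left _ _),
          t, m, le_max_right _ _, hm⟩⟩
  obtain ⟨M1, hM1⟩ := hP
  obtain ⟨M', hMM', hM1'⟩ : ∃ M', M ≤ M' ∧ M1 ≤ M' := ⟨max M M1, le_max_left _ _, le_max_right _ _⟩
  let q : ℕ → ℕ → ℕ := fun j => glue p0 M' (fun _ => Nat.pair n j + 1)
  have hqI : ∀ j, Ins D (q j) := fun j => (hp0.good M').add (hn0 M') hnD j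
  have hqM : ∀ i, ∀ j < M, q i j = p j := by
    intro i j hj
    have : q i j = p0 j := glue_lt (lt_of_lt_of_le hj hMM')
    rw [this]; exact hpM j hj
  have hqS : ∀ j, ∀ a ∈ S, ∀ b ∈ S, a ≠ b → ¬ Rel (R (q j)) a b := fun j => hS (q j) (hqM j) (hqI j)
  have havoid : ∀ x, ∃ a ∈ S, ∀ j < k, ¬ Rel (R (q j)) a x := by
    intro x
    by_contra hcon
    push Not at hcon
    choose! u hu hu' using hcon
    obtain ⟨a, ha, b, hb, hab, huab⟩ := Finset.exists_ne_map_eq_of_card_lt_of_maps_to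
      (s := S) (t := Finset.range k) (f := u) (by simpa using hcard)
      (fun a ha => Finset.mem_coe.2 (Finset.mem_range.2 (hu a ha)))
    have h1 := hu' a ha
    have h2 := hu' b hb
    rw [← huab] at h2
    have he := (hR (q (u a)) (hqI (u a)).1).2.1.1
    exact hqS (u a) a ha b hb hab (he.trans h1 (he.symm h2))
  choose g hgS hgR using havoid
  rcases hM1 g hgS with ⟨x, hx, t, m, hm, h⟩ | ⟨m, hm, v, h⟩
  · have h1 : pre p0 m = pre (q 0) m := (pre_glue (hm.trans hM1')).symm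
    rw [h1] at h
    exact hgR x 0 hk ⟨t, ((hR (q 0) (hqI 0).1).1 t |>.2 m _ h).symm⟩
  · have hv : ∀ j < k, ∃ s : ℕ → ℕ, (DNR k).sol (q j) s ∧ s n = v := by
      intro j hj
      obtain ⟨s, hs, hs'⟩ := (hR (q j) (hqI j).1).2.2 g (fun x => hgR x j hj)
      refine ⟨s, hs', ?_⟩
      have h2 : pre (join p0 g) m = pre (join (q j) g) m :=
        pre_congr (join_congr
          (fun i hi => (glue_lt (lt_of_lt_of_le hi (hm.trans hM1'))).symm) (fun _ _ => rfl))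
      rw [h2] at h
      exact ((hs n).2 m v h).symm
    obtain ⟨s, hs, hsv⟩ := hv 0 hk
    have hvk : v < k := by
      have := (hs n).1
      rw [hsv] at this
      exact_mod_cast this
    obtain ⟨s', hs', hsv'⟩ := hv v hvk
    have h3 := (hs' n).2 M'
    rw [hsv'] at h3
    exact h3 (glue_ge 0)

/-- Second case: some finite set is maximal. -/
theorem case_two {k : ℕ} {φ ψ : List ℕ × ℕ →. ℕ} {R : (ℕ → ℕ) → ℕ → ℕ}
    (hR : ∀ p, (DNR k).inst p → Computes φ p (R p) ∧ DIAG.inst (R p) ∧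
      ∀ g, DIAG.sol (R p) g → ∃ s, Computes ψ (join p g) s ∧ (DNR k).sol p s)
    {w : ℕ → ℕ} {M : ℕ} {D S : Finset ℕ} (hg : Good D w M)
    (hS : ∀ p', (∀ j < M, p' j = w j) → Ins D p' → ∀ a ∈ S, ∀ b ∈ S, a ≠ b → ¬ Rel (R p') a b)
    (hmax : ∀ (p : ℕ → ℕ) (M' : ℕ) (D' S' : Finset ℕ), Good D' p M' →
      (∀ p', (∀ j < M', p' j = p j) → Ins D' p' → ∀ a ∈ S', ∀ b ∈ S', a ≠ b → ¬ Rel (R p') a b) →
      S'.card ≤ S.card) : False := by
  classical
  obtain ⟨n, hnD, hn⟩ := exists_index D w M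
  have hDD' : D ⊆ insert n D := Finset.subset_insert n D
  let C : (ℕ → ℕ) → ℕ → Prop := fun p M' => Good (insert n D) p M' ∧ M ≤ M' ∧ ∀ j < M, p j = w j
  let E : ℕ → (ℕ → ℕ) → ℕ → Prop := fun x p M' =>
    ∃ a ∈ S, ∃ t, ∃ m ≤ M', Nat.pair a x ∈ φ (pre p m, t)
  have hw : C w M := by
    refine ⟨⟨hg.1, fun t ht e v he hmem => ?_⟩, le_rfl, fun _ _ => rfl⟩
    rcases Finset.mem_insert.1 hmem with h | h
    · subst h; exact hn t ht v he
    · exact hg.2 t ht e v he h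
  have step : ∀ x p M', C p M' → ∃ p' M'', M' < M'' ∧ (∀ j < M', p' j = p j) ∧ C p' M'' ∧
      E x p' M'' := by
    rintro x p M' ⟨hgood, hMM', hpw⟩
    -- it suffices to find an instance
    suffices h : ∃ p', (∀ j < M', p' j = p j) ∧ Ins (insert n D) p' ∧ ∃ a ∈ S, Rel (R p') a x by
      obtain ⟨p', h1, h2, a, ha, t, ht⟩ := h
      obtain ⟨⟨m, hm⟩, -⟩ := (hR p' h2.1).1 t
      rw [ht] at hm
      refine ⟨p', max m (M' + 1), lt_of_lt_of_le (Nat.lt_succ_self M') (le_max_right _ _), h1,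
        ⟨h2.good _, hMM'.trans ((Nat.le_succ M').trans (le_max_right _ _)), fun j hj => ?_⟩,
        a, ha, t, m, le_max_left _ _, hm⟩
      rw [h1 j (lt_of_lt_of_le hj hMM')]; exact hpw j hj
    by_cases hxS : x ∈ S
    · refine ⟨glue p M' (fun _ => 0), fun j hj => glue_lt hj, hgood.zero, x, hxS, ?_⟩
      exact (hR _ hgood.zero.1).2.1.1.refl x
    · by_contra hcon
      push Not at hcon
      have hsep : ∀ p', (∀ j < M', p' j = p j) → Ins (insert n D) p' → ∀ a ∈ insert x S,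
          ∀ b ∈ insert x S, a ≠ b → ¬ Rel (R p') a b := by
        intro p' h1 h2 a ha b hb hab hrel
        have he := (hR p' h2.1).2.1.1
        have hpw' : ∀ j < M, p' j = w j := by
          intro j hj
          rw [h1 j (lt_of_lt_of_le hj hMM')]; exact hpw j hj
        rcases Finset.mem_insert.1 ha with ha' | ha' <;> rcases Finset.mem_insert.1 hb with hb' | hb'
        · exact hab (ha'.trans hb'.symm)
        · subst ha'
          exact hcon p' h1 h2 b hb' (he.symm hrel)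
        · subst hb'
          exact hcon p' h1 h2 a ha' hrel
        · exact hS p' hpw' (h2.mono hDD') a ha' b hb' hab hrel
      have := hmax p M' (insert n D) (insert x S) hgood hsep
      rw [Finset.card_insert_of_notMem hxS] at this
      omega
  obtain ⟨p, hpw, hp⟩ := generic (C := C) (D := E) w M hw step
  have hpI : Ins (insert n D) p := by
    refine ⟨fun s t e v u hs ht => ?_, fun t e v ht => ?_⟩
    · obtain ⟨p', M', hi, -, hag, ⟨h1, -⟩, -⟩ := hp (s + t)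
      rw [hag s (by omega)] at hs
      rw [hag t (by omega)] at ht
      exact h1.1 s (by omega) t (by omega) e v u hs ht
    · obtain ⟨p', M', hi, -, hag, ⟨h1, -⟩, -⟩ := hp t
      rw [hag t (by omega)] at ht
      exact h1.2 t (by omega) e v ht
  obtain ⟨hφ, hi, hd⟩ := hR p hpI.1
  have hrel : ∀ x, ∃ a ∈ S, ∃ t, ∃ m, Nat.pair a x ∈ φ (pre p m, t) := by
    intro x
    obtain ⟨p', M', -, -, hag, -, a, ha, t, m, hm, h⟩ := hp x
    refine ⟨a, ha, t, m, ?_⟩
    rw [pre_congr (q := p') (fun i hi => hag i (lt_of_lt_of_le hi hm))]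
    exact h
  choose a haS t m hφa using hrel
  have haR : ∀ x, Rel (R p) (a x) x := fun x => ⟨t x, ((hφ (t x)).2 _ _ (hφa x)).symm⟩
  have hSp := hS p hpw (hpI.mono hDD')
  have hcard : ∃ u ∈ S, ∃ v ∈ S, u ≠ v := by
    by_contra hcon
    push Not at hcon
    obtain ⟨y, z, hyz⟩ := hi.2
    apply hyz
    have := hcon (a y) (haS y) (a z) (haS z)
    exact hi.1.trans (hi.1.symm (haR y)) (this ▸ haR z)
  obtain ⟨u, hu, v, hv, huv⟩ := hcard
  have hex : ∀ x, ∃ b ∈ S, b ≠ a x := by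
    intro x
    by_cases h : u = a x
    · exact ⟨v, hv, fun h' => huv (h.trans h'.symm)⟩
    · exact ⟨u, hu, h⟩
  choose b hbS hba using hex
  obtain ⟨s, hψ, hs⟩ := hd b (fun x hx =>
    hSp (b x) (hbS x) (a x) (haS x) (hba x) (hi.1.trans hx (hi.1.symm (haR x))))
  obtain ⟨⟨m0, hm0⟩, -⟩ := hψ n
  obtain ⟨N, hNM, hN0, hN⟩ : ∃ N, M ≤ N ∧ m0 ≤ N ∧ ∀ x < m0, m x ≤ N := by
    refine ⟨M + m0 + (Finset.range m0).sup m, by omega, by omega, fun x hx => ?_⟩
    have := Finset.le_sup (f := m) (Finset.mem_range.2 hx)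
    omega
  let p1 := glue p N (fun _ => Nat.pair n (s n) + 1)
  have hp1 : Ins D p1 := by
    refine ((hpI.mono hDD').good N).add (fun t _ v ht => ?_) hnD (s n)
    exact hpI.2 t n v ht (Finset.mem_insert_self n D)
  have hp1w : ∀ j < M, p1 j = w j := by
    intro j hj
    have : p1 j = p j := glue_lt (lt_of_lt_of_le hj hNM)
    rw [this]; exact hpw j hj
  obtain ⟨hφ1, hi1, hd1⟩ := hR p1 hp1.1
  have hS1 := hS p1 hp1w hp1
  have hex1 : ∀ x, ∃ c, (x < m0 → c = b x) ∧ ¬ Rel (R p1) c x := by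
    intro x
    by_cases hx : x < m0
    · refine ⟨b x, fun _ => rfl, fun hx' => ?_⟩
      have h1 := hφa x
      rw [← pre_glue (t := fun _ => Nat.pair n (s n) + 1) (hN x hx)] at h1
      have h2 : Rel (R p1) (a x) x := ⟨t x, ((hφ1 (t x)).2 _ _ h1).symm⟩
      exact hS1 (b x) (hbS x) (a x) (haS x) (hba x) (hi1.1.trans hx' (hi1.1.symm h2))
    · by_cases h : Rel (R p1) u x
      · exact ⟨v, fun h' => absurd h' hx, fun h' =>
          hS1 u hu v hv huv (hi1.1.trans h (hi1.1.symm h'))⟩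
      · exact ⟨u, fun h' => absurd h' hx, h⟩
  choose c hc hc' using hex1
  obtain ⟨s1, hψ1, hs1⟩ := hd1 c hc'
  have h2 : pre (join p b) m0 = pre (join p1 c) m0 :=
    pre_congr (join_congr (fun i hi => (glue_lt (lt_of_lt_of_le hi hN0)).symm)
      (fun i hi => (hc i hi).symm))
  rw [h2] at hm0
  have h3 : s n = s1 n := (hψ1 n).2 m0 _ hm0
  have h4 := (hs1 n).2 N
  rw [← h3] at h4
  exact h4 (glue_ge 0)

theorem dnr_not_diag (k : ℕ) (hk : 0 < k) : ¬ CLE (DNR k) DIAG := by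
  classical
  rintro ⟨φ, ψ, hred⟩
  have hred' : ∀ p, ∃ r, (DNR k).inst p → Computes φ p r ∧ DIAG.inst r ∧
      ∀ g, DIAG.sol r g → ∃ s, Computes ψ (join p g) s ∧ (DNR k).sol p s := by
    intro p
    by_cases h : (DNR k).inst p
    · obtain ⟨r, hr⟩ := hred p h
      exact ⟨r, fun _ => hr⟩
    · exact ⟨p, fun h' => absurd h' h⟩
  choose R hR using hred'
  let Q : ℕ → Prop := fun m => ∃ (p : ℕ → ℕ) (M : ℕ) (D S : Finset ℕ), Good D p M ∧
    (∀ p', (∀ j < M, p' j = p j) → Ins D p' → ∀ a ∈ S, ∀ b ∈ S, a ≠ b → ¬ Rel (R p') a b) ∧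
    S.card = m
  have hb : ∀ m, Q m → m ≤ k := by
    rintro m ⟨p, M, D, S, hg, hS, hm⟩
    by_contra hcon
    push Not at hcon
    exact case_one hk hR hg hS (hm ▸ hcon)
  have h0 : Q 0 := ⟨fun _ => 0, 0, ∅, ∅, ⟨fun s hs => absurd hs (Nat.not_lt_zero s),
    fun s hs => absurd hs (Nat.not_lt_zero s)⟩, fun p' _ _ a ha => absurd ha (Finset.notMem_empty a),
    rfl⟩
  obtain ⟨p, M, D, S, hg, hS, hm⟩ : Q (Nat.findGreatest Q k) :=
    Nat.findGreatest_spec (P := Q) (Nat.zero_le k) h0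
  refine case_two hR hg hS fun p' M' D' S' hg' hS' => ?_
  rw [hm]
  have hq : Q S'.card := ⟨p', M', D', S', hg', hS', rfl⟩
  exact Nat.le_findGreatest (hb _ hq) hq

end Pool.Agent.Helper583.WD
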