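import Pool.Agent.Helper583.WDNeg3

/-!
Computable functionals with a modulus; DIAG reduces to the product of choice on the numbers
and two-valued DNR.
-/

namespace Pool.Agent.Helper583.WD

/-- A word read as a function. -/
def tf (w : List ℕ) : ℕ → ℕ := fun i => w.getD i 0

theorem tf_pre (p : ℕ → ℕ) {m i : ℕ} (h : i < m) : tf (pre p m) i = p i := by
  simp [tf, pre, List.getD, h]

theorem primrec_tf {α : Type*} [Primcodable α] {f : α → List ℕ} {g : α → ℕ} (hf : Primrec f)
    (hg : Primrec g) : Primrec fun a => tf (f a) (g a) :=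
  (Primrec.list_getD 0).comp hf hg

theorem exists_functional (F b : (ℕ → ℕ) → ℕ → ℕ)
    (H : ∀ p q n, (∀ i < b p n, p i = q i) → F p n = F q n ∧ b q n = b p n)
    (hF : Primrec fun a : List ℕ × ℕ => F (tf a.1) a.2)
    (hb : Primrec fun a : List ℕ × ℕ => b (tf a.1) a.2) :
    ∃ φ : List ℕ × ℕ →. ℕ, Partrec φ ∧ ∀ p, Computes φ p (F p) := by
  refine ⟨fun a => ((if b (tf a.1) a.2 ≤ a.1.length then some (F (tf a.1) a.2) else none :
    Option ℕ) : Part ℕ), ?_, ?_⟩
  · apply Computable.ofOption
    apply Primrec.to_comp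
    exact Primrec.ite (Primrec.nat_le.comp hb (Primrec.list_length.comp Primrec.fst))
      (Primrec.option_some.comp hF) (Primrec.const none)
  · intro p n
    refine ⟨⟨b p n, ?_⟩, fun m v hv => ?_⟩
    · have h := H p (tf (pre p (b p n))) n (fun i hi => (tf_pre p hi).symm)
      simp [h.2, ← h.1]
    · by_cases h : b (tf (pre p m)) n ≤ m
      · have h' := H (tf (pre p m)) p n (fun i hi => tf_pre p (lt_of_lt_of_le hi h))
        simp [h] at hv
        rw [hv]; exact h'.1
      · simp [h] at hv

theorem ex_lt {β : Type*} [Primcodable β] {R : ℕ → β → Prop} (hR : PrimrecRel R) {f : β → ℕ}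
    (hf : Primrec f) : PrimrecPred fun b => ∃ k < f b, R k b :=
  (hR.exists_mem_list.comp (Primrec.list_range.comp hf) Primrec.id).of_eq (by simp)

section DiagLe

/-- The first pair of interest. -/
def pa (k : ℕ) : ℕ := Nat.pair k.unpair.1.unpair.1.unpair.1 k.unpair.1.unpair.2

/-- The second pair of interest. -/
def pb (k : ℕ) : ℕ := Nat.pair k.unpair.1.unpair.1.unpair.2 k.unpair.1.unpair.2

open Classical in
/-- The DNR instance built from an enumeration of an equivalence relation. -/
noncomputable def fR (p : ℕ → ℕ) (k : ℕ) : ℕ :=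
  if (∃ i < k.unpair.2, p i = pa k ∨ p i = pb k) then 0
  else if p k.unpair.2 = pa k then Nat.pair k.unpair.1 0 + 1
  else if p k.unpair.2 = pb k then Nat.pair k.unpair.1 1 + 1
  else 0

theorem fR_congr {p q : ℕ → ℕ} {k : ℕ} (h : ∀ i ≤ k, p i = q i) : fR p k = fR q k := by
  have hk : k.unpair.2 ≤ k := Nat.unpair_right_le k
  have h1 : (∃ i < k.unpair.2, p i = pa k ∨ p i = pb k) ↔
      (∃ i < k.unpair.2, q i = pa k ∨ q i = pb k) := by
    constructor
    · rintro ⟨i, hi, h'⟩
      exact ⟨i, hi, by rwa [← h i (by omega)]⟩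
    · rintro ⟨i, hi, h'⟩
      exact ⟨i, hi, by rwa [h i (by omega)]⟩
  unfold fR
  rw [h _ hk]
  simp only [h1]

theorem primrec_pa : Primrec pa := by
  unfold pa
  exact Primrec₂.natPair.comp
    (Primrec.fst.comp (Primrec.unpair.comp (Primrec.fst.comp (Primrec.unpair.comp
      (Primrec.fst.comp Primrec.unpair)))))
    (Primrec.snd.comp (Primrec.unpair.comp (Primrec.fst.comp Primrec.unpair)))

theorem primrec_pb : Primrec pb := by
  unfold pb
  exact Primrec₂.natPair.comp
    (Primrec.snd.comp (Primrec.unpair.comp (Primrec.fst.comp (Primrec.unpair.comp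
      (Primrec.fst.comp Primrec.unpair)))))
    (Primrec.snd.comp (Primrec.unpair.comp (Primrec.fst.comp Primrec.unpair)))

theorem primrec_fR : Primrec fun a : List ℕ × ℕ => fR (tf a.1) a.2 := by
  unfold fR
  have h1 : Primrec fun a : List ℕ × ℕ => a.2.unpair.1 :=
    Primrec.fst.comp (Primrec.unpair.comp Primrec.snd)
  have h2 : Primrec fun a : List ℕ × ℕ => a.2.unpair.2 :=
    Primrec.snd.comp (Primrec.unpair.comp Primrec.snd)
  have h3 : Primrec fun a : List ℕ × ℕ => tf a.1 a.2.unpair.2 := primrec_tf Primrec.fst h2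
  have h4 : Primrec fun a : List ℕ × ℕ => pa a.2 := primrec_pa.comp Primrec.snd
  have h5 : Primrec fun a : List ℕ × ℕ => pb a.2 := primrec_pb.comp Primrec.snd
  refine Primrec.ite ?_ (Primrec.const 0) (Primrec.ite (Primrec.eq.comp h3 h4)
    (Primrec.succ.comp (Primrec₂.natPair.comp h1 (Primrec.const 0)))
    (Primrec.ite (Primrec.eq.comp h3 h5)
      (Primrec.succ.comp (Primrec₂.natPair.comp h1 (Primrec.const 1))) (Primrec.const 0)))
  refine ex_lt (R := fun i a => tf a.1 i = pa a.2 ∨ tf a.1 i = pb a.2) ?_ h2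
  have h6 : Primrec fun x : ℕ × (List ℕ × ℕ) => tf x.2.1 x.1 :=
    primrec_tf (Primrec.fst.comp Primrec.snd) Primrec.fst
  exact PrimrecPred.or (Primrec.eq.comp h6 (h4.comp Primrec.snd))
    (Primrec.eq.comp h6 (h5.comp Primrec.snd))

theorem diag_le : WLE DIAG (prod CN (DNR 2)) := by
  obtain ⟨φ, hφ, hφ'⟩ := exists_functional
    (fun p n => if n % 2 = 0 then p (n / 2) + 1 else fR p (n / 2)) (fun _ n => n + 1)
    (by
      intro p q n h
      refine ⟨?_, rfl⟩
      have h1 : n / 2 < n + 1 := lt_of_le_of_lt (Nat.div_le_self _ _) (Nat.lt_succ_self n)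
      rw [h _ h1, fR_congr (fun i hi => h i (by omega))])
    (by
      have h1 : Primrec fun a : List ℕ × ℕ => a.2 / 2 :=
        Primrec.nat_div.comp Primrec.snd (Primrec.const 2)
      exact Primrec.ite (Primrec.eq.comp (Primrec.nat_mod.comp Primrec.snd (Primrec.const 2))
        (Primrec.const 0)) (Primrec.succ.comp (primrec_tf Primrec.fst h1))
        (primrec_fR.comp (Primrec.fst.pair h1)))
    (Primrec.succ.comp Primrec.snd)
  obtain ⟨ψ, hψ, hψ'⟩ := exists_functional
    (fun z x => if z (4 * Nat.pair (z 1) x + 3) = 0 then (z 1).unpair.1 else (z 1).unpair.2)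
    (fun z x => 4 * Nat.pair (z 1) x + 4)
    (by
      intro p q n h
      have h1 : p 1 = q 1 := h 1 (by omega)
      have h2 := h (4 * Nat.pair (p 1) n + 3) (by omega)
      refine ⟨?_, ?_⟩
      · rw [h2, h1]
      · rw [h1])
    (by
      have h1 : Primrec fun a : List ℕ × ℕ => tf a.1 1 := primrec_tf Primrec.fst (Primrec.const 1)
      have h2 : Primrec fun a : List ℕ × ℕ => 4 * Nat.pair (tf a.1 1) a.2 + 3 :=
        Primrec.nat_add.comp (Primrec.nat_mul.comp (Primrec.const 4)
          (Primrec₂.natPair.comp h1 Primrec.snd)) (Primrec.const 3)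
      exact Primrec.ite (Primrec.eq.comp (primrec_tf Primrec.fst h2) (Primrec.const 0))
        (Primrec.fst.comp (Primrec.unpair.comp h1)) (Primrec.snd.comp (Primrec.unpair.comp h1)))
    (by
      have h1 : Primrec fun a : List ℕ × ℕ => tf a.1 1 := primrec_tf Primrec.fst (Primrec.const 1)
      exact Primrec.nat_add.comp (Primrec.nat_mul.comp (Primrec.const 4)
          (Primrec₂.natPair.comp h1 Primrec.snd)) (Primrec.const 4))
  refine ⟨φ, ψ, hφ, hψ, fun p hp => ?_⟩
  obtain ⟨he, u, v, huv⟩ := hp
  refine ⟨_, hφ' p, ⟨⟨Nat.pair u v, fun k hk => ?_⟩, fun s t n x y hs ht => ?_⟩, fun q hq =>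
    ⟨_, hψ' _, fun x => ?_⟩⟩
  · have h1 : 2 * k % 2 = 0 := by omega
    have h2 : 2 * k / 2 = k := by omega
    simp only [left, h1, h2, if_true] at hk
    exact huv ⟨k, Nat.succ_injective hk⟩
  · have key : ∀ s n x, right (fun n => if n % 2 = 0 then p (n / 2) + 1 else fR p (n / 2)) s =
        Nat.pair n x + 1 → s.unpair.1 = n ∧ (∀ i < s.unpair.2, ¬ (p i = pa s ∨ p i = pb s)) ∧
          ((x = 0 ∧ p s.unpair.2 = pa s) ∨ (x = 1 ∧ p s.unpair.2 ≠ pa s ∧ p s.unpair.2 = pb s)) := by
      intro s n x hs
      have h1 : (2 * s + 1) % 2 ≠ 0 := by omega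
      have h2 : (2 * s + 1) / 2 = s := by omega
      simp only [right, h1, h2, if_false, fR] at hs
      split_ifs at hs with h3 h4 h5
      · have := Nat.pair_eq_pair.1 (Nat.succ_injective hs)
        push Not at h3
        exact ⟨this.1, fun i hi => by push Not; exact h3 i hi, Or.inl ⟨this.2.symm, h4⟩⟩
      · have := Nat.pair_eq_pair.1 (Nat.succ_injective hs)
        push Not at h3
        exact ⟨this.1, fun i hi => by push Not; exact h3 i hi, Or.inr ⟨this.2.symm, h4, h5⟩⟩
    obtain ⟨s1, s2, s3⟩ := key s n x hs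
    obtain ⟨t1, t2, t3⟩ := key t n y ht
    have hab : pa s = pa t ∧ pb s = pb t := by
      simp only [pa, pb, s1, t1, and_self]
    have hle1 : ¬ s.unpair.2 < t.unpair.2 := by
      intro hlt
      apply t2 _ hlt
      rw [← hab.1, ← hab.2]
      rcases s3 with h | h
      · exact Or.inl h.2
      · exact Or.inr h.2.2
    have hle2 : ¬ t.unpair.2 < s.unpair.2 := by
      intro hlt
      apply s2 _ hlt
      rw [hab.1, hab.2]
      rcases t3 with h | h
      · exact Or.inl h.2
      · exact Or.inr h.2.2
    have heq : s.unpair.2 = t.unpair.2 := by omega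
    rw [heq, hab.1, hab.2] at s3
    rcases s3 with h | h <;> rcases t3 with h' | h'
    · rw [h.1, h'.1]
    · exact absurd h.2 h'.2.1
    · exact absurd h'.2 h.2.1
    · rw [h.1, h'.1]
  · obtain ⟨hN, hf⟩ := hq
    have e1 : join p q 1 = q 0 := by simp [join]
    have e2 : join p q (4 * Nat.pair (q 0) x + 3) = right q (Nat.pair (q 0) x) := by
      have h1 : (4 * Nat.pair (q 0) x + 3) % 2 ≠ 0 := by omega
      have h2 : (4 * Nat.pair (q 0) x + 3) / 2 = 2 * Nat.pair (q 0) x + 1 := by omega
      simp only [join, right, h1, h2, if_false]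
    rw [e1, e2]
    set N := q 0 with hNdef
    set a := N.unpair.1 with ha
    set b := N.unpair.2 with hb
    have hNab : N = Nat.pair a b := by rw [ha, hb, Nat.pair_unpair]
    have hab : ¬ Rel p a b := by
      rintro ⟨k, hk⟩
      apply hN k
      have h1 : 2 * k % 2 = 0 := by omega
      have h2 : 2 * k / 2 = k := by omega
      simp only [left, h1, h2, if_true]
      rw [hk, ← hNab, Nat.mul_zero, ← hNdef]
    -- the values for the index
    have hval : ∀ m, fR p (Nat.pair (Nat.pair N x) m) ≠
        Nat.pair (Nat.pair N x) (right q (Nat.pair N x)) + 1 := by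
      intro m
      have := (hf (Nat.pair N x)).2 (Nat.pair (Nat.pair N x) m)
      have h1 : (2 * (Nat.pair (Nat.pair N x) m) + 1) % 2 ≠ 0 := by omega
      have h2 : (2 * (Nat.pair (Nat.pair N x) m) + 1) / 2 = Nat.pair (Nat.pair N x) m := by omega
      simp only [right, h1, h2, if_false] at this
      exact this
    have hpa : ∀ m, pa (Nat.pair (Nat.pair N x) m) = Nat.pair a x := by
      intro m; simp only [pa, Nat.unpair_pair, ← ha]
    have hpb : ∀ m, pb (Nat.pair (Nat.pair N x) m) = Nat.pair b x := by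
      intro m; simp only [pb, Nat.unpair_pair, ← hb]
    split_ifs with h0
    · -- the value is 0
      intro hrel
      classical
      have hm : ∃ m, p m = Nat.pair a x := hrel
      have hspec := Nat.find_spec hm
      have hmin := fun i (hi : i < Nat.find hm) => Nat.find_min hm hi
      apply hval (Nat.find hm)
      rw [h0]
      unfold fR
      rw [if_neg, if_pos]
      · simp only [Nat.unpair_pair]
      · rw [hpa]; simp only [Nat.unpair_pair]; exact hspec
      · rintro ⟨i, hi, h⟩
        rw [hpa, hpb] at h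
        simp only [Nat.unpair_pair] at hi
        rcases h with h | h
        · exact hmin i hi h
        · exact hab (he.trans hrel (he.symm ⟨i, h⟩))
    · have h1 : right q (Nat.pair N x) = 1 := by
        have := (hf (Nat.pair N x)).1
        have h2 : right q (Nat.pair N x) < 2 := by exact_mod_cast this
        omega
      intro hrel
      classical
      have hm : ∃ m, p m = Nat.pair b x := hrel
      have hspec := Nat.find_spec hm
      have hmin := fun i (hi : i < Nat.find hm) => Nat.find_min hm hi
      apply hval (Nat.find hm)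
      rw [h1]
      unfold fR
      have hno : ∀ i, p i ≠ Nat.pair a x := fun i hi => hab (he.trans ⟨i, hi⟩ (he.symm hrel))
      rw [if_neg, if_neg, if_pos]
      · simp only [Nat.unpair_pair]
      · rw [hpb]; simp only [Nat.unpair_pair]; exact hspec
      · rw [hpa]; exact hno _
      · rintro ⟨i, hi, h⟩
        rw [hpa, hpb] at h
        simp only [Nat.unpair_pair] at hi
        rcases h with h | h
        · exact hno i h
        · exact hmin i hi h

end DiagLe

end Pool.Agent.Helper583.WD
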