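import Pool.Agent.Helper583.WDPos1

/-!
The product of choice on the numbers and DNR reduces to DIAG.
-/

namespace Pool.Agent.Helper583.WD

open Classical in
/-- The guess at stage `s` for a number which is not excluded by `c`. -/
noncomputable def gs (c : ℕ → ℕ) : ℕ → ℕ
  | 0 => 0
  | s + 1 => if ∃ k < s + 1, c k = gs c s + 1 then gs c s + 1 else gs c s

/-- The guess changes at stage `s`. -/
def Chg (c : ℕ → ℕ) (s : ℕ) : Prop := ∃ k < s + 1, c k = gs c s + 1

theorem gs_succ_of_chg {c : ℕ → ℕ} {s : ℕ} (h : Chg c s) : gs c (s + 1) = gs c s + 1 := by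
  rw [gs]; exact if_pos h

theorem gs_succ_of_not {c : ℕ → ℕ} {s : ℕ} (h : ¬ Chg c s) : gs c (s + 1) = gs c s := by
  rw [gs]; exact if_neg h

theorem gs_congr {c c' : ℕ → ℕ} {s : ℕ} (h : ∀ k < s, c k = c' k) : gs c s = gs c' s := by
  induction s with
  | zero => rfl
  | succ s ih =>
    have ih' := ih (fun k hk => h k (by omega))
    have h1 : Chg c s ↔ Chg c' s := by
      unfold Chg
      rw [ih']
      constructor
      · rintro ⟨k, hk, h'⟩
        exact ⟨k, hk, by rwa [← h k hk]⟩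
      · rintro ⟨k, hk, h'⟩
        exact ⟨k, hk, by rwa [h k hk]⟩
    by_cases hc : Chg c s
    · rw [gs_succ_of_chg hc, gs_succ_of_chg (h1.1 hc), ih']
    · rw [gs_succ_of_not hc, gs_succ_of_not (fun h' => hc (h1.2 h')), ih']

theorem chg_congr {c c' : ℕ → ℕ} {s : ℕ} (h : ∀ k < s + 1, c k = c' k) : Chg c s ↔ Chg c' s := by
  unfold Chg
  rw [gs_congr (c := c) (c' := c') (s := s) (fun k hk => h k (by omega))]
  constructor
  · rintro ⟨k, hk, h'⟩
    exact ⟨k, hk, by rwa [← h k hk]⟩
  · rintro ⟨k, hk, h'⟩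
    exact ⟨k, hk, by rwa [h k hk]⟩

theorem gs_mono (c : ℕ → ℕ) : Monotone (gs c) := by
  apply monotone_nat_of_le_succ
  intro s
  by_cases h : Chg c s
  · rw [gs_succ_of_chg h]; omega
  · rw [gs_succ_of_not h]

theorem gs_le {c : ℕ → ℕ} {N : ℕ} (hN : ∀ k, c k ≠ N + 1) (s : ℕ) : gs c s ≤ N := by
  induction s with
  | zero => exact Nat.zero_le _
  | succ s ih =>
    by_cases h : Chg c s
    · rw [gs_succ_of_chg h]
      obtain ⟨k, -, hk⟩ := h
      have : gs c s ≠ N := fun h' => hN k (by rw [hk, h'])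
      omega
    · rw [gs_succ_of_not h]; exact ih

theorem exists_stable {c : ℕ → ℕ} {N : ℕ} (hN : ∀ k, c k ≠ N + 1) : ∃ s0, ∀ i ≥ s0, ¬ Chg c i := by
  classical
  have hex : ∃ d s, N - gs c s = d := ⟨_, 0, rfl⟩
  obtain ⟨s0, hs0⟩ := Nat.find_spec hex
  refine ⟨s0, fun i hi hch => ?_⟩
  have h1 : Nat.find hex ≤ N - gs c (i + 1) := Nat.find_min' hex ⟨i + 1, rfl⟩
  have h2 := gs_le hN (i + 1)
  have h3 := gs_le hN s0
  have h4 := gs_mono c hi
  rw [gs_succ_of_chg hch] at h1 h2
  omega

theorem gs_const {c : ℕ → ℕ} {u : ℕ} (h : ∀ i ≥ u, ¬ Chg c i) : ∀ i ≥ u, gs c i = gs c u := by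
  intro i hi
  induction i, hi using Nat.le_induction with
  | base => rfl
  | succ i hi ih => rw [gs_succ_of_not (h i hi), ih]

/-- Edges given by the partial function. -/
def FEdge (p : ℕ → ℕ) (i a b : ℕ) : Prop :=
  a ≠ 0 ∧ a % 2 = 0 ∧ p (2 * i + 1) = Nat.pair ((a - 2) / 2) b + 1

/-- Edges of the graph at stage `i`. -/
def Edge (p : ℕ → ℕ) (i a b : ℕ) : Prop :=
  FEdge p i a b ∨ (a = 0 ∧ b ≤ i ∧ Chg (fun k => p (2 * k)) i)

/-- Symmetric version. -/
def SEdge (p : ℕ → ℕ) (i a b : ℕ) : Prop := Edge p i a b ∨ Edge p i b a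

open Classical in
/-- One step of a walk. -/
noncomputable def walk (p : ℕ → ℕ) (B cur : ℕ) (s : ℕ × ℕ) : ℕ :=
  if s.1 < B ∧ SEdge p s.1 cur s.2 then s.2 else cur

/-- The enumeration of the equivalence relation generated by the edges. -/
noncomputable def enumE (p : ℕ → ℕ) (k : ℕ) : ℕ :=
  Nat.pair k.unpair.1.unpair.1 ((Denumerable.ofNat (List (ℕ × ℕ)) k.unpair.2).foldl
    (walk p k.unpair.1.unpair.2) k.unpair.1.unpair.1)

theorem edge_congr {p q : ℕ → ℕ} {i a b : ℕ} (h : ∀ j < 2 * i + 2, p j = q j) :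
    Edge p i a b ↔ Edge q i a b := by
  unfold Edge FEdge
  rw [h (2 * i + 1) (by omega), chg_congr (c := fun k => p (2 * k)) (c' := fun k => q (2 * k))
    (fun k hk => h (2 * k) (by omega))]

theorem walk_congr {p q : ℕ → ℕ} {B : ℕ} (h : ∀ j < 2 * B, p j = q j) (cur : ℕ) (s : ℕ × ℕ) :
    walk p B cur s = walk q B cur s := by
  unfold walk
  by_cases hs : s.1 < B
  · have h1 : SEdge p s.1 cur s.2 ↔ SEdge q s.1 cur s.2 := by
      unfold SEdge
      rw [edge_congr (fun j hj => h j (by omega)), edge_congr (fun j hj => h j (by omega))]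
    by_cases h2 : SEdge p s.1 cur s.2
    · rw [if_pos ⟨hs, h2⟩, if_pos ⟨hs, h1.1 h2⟩]
    · rw [if_neg (fun h' => h2 h'.2), if_neg (fun h' => h2 (h1.2 h'.2))]
  · rw [if_neg (fun h' => hs h'.1), if_neg (fun h' => hs h'.1)]

theorem enumE_congr {p q : ℕ → ℕ} {k : ℕ} (h : ∀ j < 2 * k.unpair.1.unpair.2, p j = q j) :
    enumE p k = enumE q k := by
  unfold enumE
  congr 1
  apply List.foldl_ext
  intro a b _
  exact walk_congr h a b

/-- The reflexive and transitive closure. -/
def Conn (p : ℕ → ℕ) : ℕ → ℕ → Prop := Relation.ReflTransGen (fun a b => ∃ i, SEdge p i a b)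

theorem conn_symm {p : ℕ → ℕ} {a b : ℕ} (h : Conn p a b) : Conn p b a := by
  induction h with
  | refl => exact Relation.ReflTransGen.refl
  | tail _ hyz ih =>
    obtain ⟨i, hi⟩ := hyz
    exact Relation.ReflTransGen.head ⟨i, hi.symm⟩ ih

theorem conn_walk (p : ℕ → ℕ) (B : ℕ) (L : List (ℕ × ℕ)) (x : ℕ) :
    Conn p x (L.foldl (walk p B) x) := by
  classical
  induction L generalizing x with
  | nil => exact Relation.ReflTransGen.refl
  | cons s L ih =>
    rw [List.foldl_cons]
    refine Relation.ReflTransGen.trans ?_ (ih _)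
    unfold walk
    split_ifs with h
    · exact Relation.ReflTransGen.single ⟨s.1, h.2⟩
    · exact Relation.ReflTransGen.refl

theorem walk_conn {p : ℕ → ℕ} {x z : ℕ} (h : Conn p x z) :
    ∃ B, ∃ L : List (ℕ × ℕ), (∀ s ∈ L, s.1 < B) ∧ L.foldl (walk p B) x = z := by
  classical
  induction h with
  | refl => exact ⟨0, [], by simp, rfl⟩
  | @tail y z _ hyz ih =>
    obtain ⟨B, L, hL, hy⟩ := ih
    obtain ⟨i, hi⟩ := hyz
    refine ⟨max B (i + 1), L ++ [(i, z)], ?_, ?_⟩
    · intro s hs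
      rcases List.mem_append.1 hs with h | h
      · exact lt_of_lt_of_le (hL s h) (le_max_left _ _)
      · rw [List.mem_singleton.1 h]
        exact lt_of_lt_of_le (Nat.lt_succ_self i) (le_max_right _ _)
    · rw [List.foldl_append]
      have h1 : L.foldl (walk p (max B (i + 1))) x = L.foldl (walk p B) x := by
        apply List.foldl_ext
        intro a b hb
        have h2 := hL b hb
        have h3 : b.1 < max B (i + 1) := lt_of_lt_of_le h2 (le_max_left _ _)
        simp only [walk, h2, h3, true_and]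
      rw [h1, hy]
      have h4 : i < max B (i + 1) := lt_of_lt_of_le (Nat.lt_succ_self i) (le_max_right _ _)
      simp only [List.foldl_cons, List.foldl_nil, walk, h4, hi, true_and, if_true]

theorem rel_enumE (p : ℕ → ℕ) (x z : ℕ) : Rel (enumE p) x z ↔ Conn p x z := by
  constructor
  · rintro ⟨k, hk⟩
    have := Nat.pair_eq_pair.1 hk
    rw [← this.2, ← this.1]
    exact conn_walk p _ _ _
  · intro h
    obtain ⟨B, L, -, hL⟩ := walk_conn h
    refine ⟨Nat.pair (Nat.pair x B) (Encodable.encode L), ?_⟩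
    simp only [enumE, Nat.unpair_pair, Denumerable.ofNat_encode, hL]

theorem conn_invariant {p : ℕ → ℕ} {S : ℕ → Prop} (h : ∀ i a b, Edge p i a b → (S a ↔ S b))
    {a b : ℕ} (hab : Conn p a b) : S a ↔ S b := by
  induction hab with
  | refl => exact Iff.rfl
  | tail _ hyz ih =>
    obtain ⟨i, hi | hi⟩ := hyz
    · exact ih.trans (h i _ _ hi)
    · exact ih.trans (h i _ _ hi).symm

/-- Following the partial function. -/
def FStep (p : ℕ → ℕ) (a b : ℕ) : Prop := ∃ i, FEdge p i a b

theorem odd_end {p : ℕ → ℕ} {a b : ℕ} (ha : a % 2 = 1)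
    (h : Relation.ReflTransGen (FStep p) a b) : b = a := by
  rcases Relation.ReflTransGen.cases_head h with h | ⟨c, ⟨i, hi⟩, -⟩
  · exact h.symm
  · have := hi.2.1
    omega

theorem inst_enumE {p : ℕ → ℕ} {k : ℕ∞} (hc : CN.inst (left p)) (hd : (DNR k).inst (right p)) :
    DIAG.inst (enumE p) := by
  classical
  obtain ⟨N, hN⟩ := hc
  refine ⟨⟨fun x => ?_, fun {x y} h => ?_, fun {x y z} h h' => ?_⟩, ?_⟩
  · rw [rel_enumE]; exact Relation.ReflTransGen.refl
  · rw [rel_enumE] at *; exact conn_symm h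
  · rw [rel_enumE] at *; exact Relation.ReflTransGen.trans h h'
  obtain ⟨s0, hs0⟩ := exists_stable (c := fun k => p (2 * k)) hN
  have hfun : Relator.RightUnique (FStep p) := by
    rintro a b c ⟨i, hi⟩ ⟨j, hj⟩
    exact hd i j _ _ _ hi.2.2 hj.2.2
  have hy : ∃ y, y % 2 = 1 ∧ ∀ a ≤ s0, ¬ Relation.ReflTransGen (FStep p) a y := by
    by_contra hcon
    push Not at hcon
    have hcon' : ∀ j, ∃ a ≤ s0, Relation.ReflTransGen (FStep p) a (2 * j + 1) :=
      fun j => hcon (2 * j + 1) (by omega)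
    choose a ha ha' using hcon'
    obtain ⟨i, hi, j, hj, hij, haij⟩ := Finset.exists_ne_map_eq_of_card_lt_of_maps_to
      (s := Finset.range (s0 + 2)) (t := Finset.range (s0 + 1)) (f := a) (by simp)
      (fun j _ => Finset.mem_coe.2 (Finset.mem_range.2 (Nat.lt_succ_of_le (ha j))))
    have h1 := ha' i
    have h2 := ha' j
    rw [← haij] at h2
    rcases Relation.ReflTransGen.total_of_right_unique hfun h1 h2 with h | h
    · have := odd_end (by omega) h
      omega
    · have := odd_end (by omega) h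
      omega
  obtain ⟨y, hy1, hy2⟩ := hy
  refine ⟨y, 0, fun h => ?_⟩
  rw [rel_enumE] at h
  have hinv := conn_invariant (S := fun a => Relation.ReflTransGen (FStep p) a y) (by
    rintro i a b (hab | ⟨ha, hb, hch⟩)
    · constructor
      · intro h
        rcases Relation.ReflTransGen.cases_head h with h | ⟨c, hc, hcy⟩
        · have := hab.2.1
          omega
        · rw [hfun ⟨i, hab⟩ hc]; exact hcy
      · intro h
        exact Relation.ReflTransGen.head ⟨i, hab⟩ h
    · have hi : i < s0 := by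
        by_contra hcon
        exact hs0 i (not_lt.1 hcon) hch
      constructor
      · intro h
        exact absurd h (hy2 a (by omega))
      · intro h
        exact absurd h (hy2 b (by omega))) h
  exact hy2 0 (Nat.zero_le _) (hinv.1 Relation.ReflTransGen.refl)

end Pool.Agent.Helper583.WD
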