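import Pool.Agent.Helper583.WDNeg3

/-!
The product of DIAG with DNR is not reducible to DIAG.
-/

namespace Pool.Agent.Helper583.WD

/-- Instances of DIAG compatible with a two-colouring that separates `0` and `1`. -/
def TwoE (e : ℕ → ℕ) : Prop := DIAG.inst e ∧ ∃ c, Col c ∧ ∀ M, Cmp e M c

theorem ins_empty {d : ℕ → ℕ} : Ins ∅ d ↔ (DNR ⊤).inst d :=
  ⟨fun h => h.1, fun h => ⟨h, fun _ _ _ _ => Finset.notMem_empty _⟩⟩

theorem pre_join_congr {e e' d d' : ℕ → ℕ} {m T : ℕ} (hm : m ≤ T) (he : ∀ j < T, e j = e' j)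
    (hd : ∀ j < T, d j = d' j) : pre (join e d) m = pre (join e' d') m :=
  pre_congr (join_congr (fun i hi => he i (lt_of_lt_of_le hi hm))
    (fun i hi => hd i (lt_of_lt_of_le hi hm)))

/-- Either `g` is refuted by time `M`, or the output at `k` is found by time `M`. -/
def Dec (φ ψ : List ℕ × ℕ →. ℕ) (p : ℕ → ℕ) (k M : ℕ) (g : ℕ → ℕ) : Prop :=
  (∃ y < M, ∃ t, ∃ m ≤ M, Nat.pair (g y) y ∈ φ (pre p m, t)) ∨
    (∃ m ≤ M, ∃ v, v ∈ ψ (pre (join p g) m, k))

theorem Dec.mono {φ ψ : List ℕ × ℕ →. ℕ} {p : ℕ → ℕ} {k M M' : ℕ} {g : ℕ → ℕ} (hM : M ≤ M')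
    (h : Dec φ ψ p k M g) : Dec φ ψ p k M' g := by
  rcases h with ⟨e, he, t, m, hm, h⟩ | ⟨m, hm, v, h⟩
  · exact Or.inl ⟨e, lt_of_lt_of_le he hM, t, m, hm.trans hM, h⟩
  · exact Or.inr ⟨m, hm.trans hM, v, h⟩

section

variable {P : Problem} {φ ψ : List ℕ × ℕ →. ℕ} {R : (ℕ → ℕ) → ℕ → ℕ}
  (hR : ∀ p, P.inst p → Computes φ p (R p) ∧ DIAG.inst (R p) ∧
    ∀ g, DIAG.sol (R p) g → ∃ s, Computes ψ (join p g) s ∧ P.sol p s)

include hR

theorem exists_dec {p : ℕ → ℕ} (hp : P.inst p) (S : Finset ℕ) (k : ℕ) :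
    ∃ M, ∀ g : ℕ → ℕ, (∀ x, g x ∈ S) → Dec φ ψ p k M g := by
  obtain ⟨hφ0, hi0, hd0⟩ := hR p hp
  apply compact_use S (fun M g => Dec φ ψ p k M g)
  · intro M M' f hM h
    exact h.mono hM
  · rintro M f f' hf (⟨e, he, t, m, hm, h⟩ | ⟨m, hm, v, h⟩)
    · refine Or.inl ⟨e, he, t, m, hm, ?_⟩
      rw [hf e he]; exact h
    · refine Or.inr ⟨m, hm, v, ?_⟩
      rw [pre_congr (q := join p f) (join_congr (fun _ _ => rfl)
        (fun i hi => hf i (lt_of_lt_of_le hi hm)))]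
      exact h
  · intro g _
    by_cases hs : DIAG.sol (R p) g
    · obtain ⟨s, hψ, -⟩ := hd0 g hs
      obtain ⟨⟨m, hm⟩, -⟩ := hψ k
      exact ⟨m, Or.inr ⟨m, le_rfl, s k, hm⟩⟩
    · have : ∃ x, Rel (R p) (g x) x := by
        by_contra hcon
        push Not at hcon
        exact hs hcon
      obtain ⟨x, t, ht⟩ := this
      obtain ⟨⟨m, hm⟩, -⟩ := hφ0 t
      rw [ht] at hm
      exact ⟨max (x + 1) m, Or.inl ⟨x, lt_of_lt_of_le (Nat.lt_succ_self x) (le_max_left _ _),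
        t, m, le_max_right _ _, hm⟩⟩

/-- Relations found on an initial word. -/
theorem rel_of_pre {p p' : ℕ → ℕ} (hp' : P.inst p') {m t x y : ℕ}
    (h : Nat.pair x y ∈ φ (pre p m, t)) (hpre : pre p m = pre p' m) : Rel (R p') x y := by
  rw [hpre] at h
  exact ⟨t, (((hR p' hp').1 t).2 m _ h).symm⟩

theorem pre_of_rel {p : ℕ → ℕ} (hp : P.inst p) {x y : ℕ} (h : Rel (R p) x y) :
    ∃ t m, Nat.pair x y ∈ φ (pre p m, t) := by
  obtain ⟨t, ht⟩ := h
  obtain ⟨⟨m, hm⟩, -⟩ := (hR p hp).1 t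
  rw [ht] at hm
  exact ⟨t, m, hm⟩

/-- If all four patterns occur there is a common solution. -/
theorem four {A B : ℕ → ℕ} (hA : P.inst A) (hB : P.inst B) {a b w1 w2 : ℕ} {K : Finset ℕ}
    (ha : a ∈ K) (hb : b ∈ K) (h1 : w1 ∈ K) (h2 : w2 ∈ K)
    (hAab : ¬ Rel (R A) a b) (hBab : ¬ Rel (R B) a b)
    (hA1 : Rel (R A) a w1) (hB1 : Rel (R B) b w1) (hA2 : Rel (R A) b w2)
    (hB2 : Rel (R B) a w2) :
    ∃ g : ℕ → ℕ, (∀ y, g y ∈ K) ∧ DIAG.sol (R A) g ∧ DIAG.sol (R B) g := by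
  classical
  have eA := (hR A hA).2.1.1
  have eB := (hR B hB).2.1.1
  have key : ∀ k, ∃ w ∈ K, ¬ Rel (R A) w k ∧ ¬ Rel (R B) w k := by
    intro k
    by_cases hAk : Rel (R A) a k
    · by_cases hBk : Rel (R B) a k
      · exact ⟨b, hb, fun h => hAab (eA.trans hAk (eA.symm h)),
          fun h => hBab (eB.trans hBk (eB.symm h))⟩
      · exact ⟨w2, h2, fun h => hAab (eA.trans hAk (eA.symm (eA.trans hA2 h))),
          fun h => hBk (eB.trans hB2 h)⟩
    · by_cases hBk : Rel (R B) a k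
      · exact ⟨w1, h1, fun h => hAk (eA.trans hA1 h),
          fun h => hBab (eB.trans hBk (eB.symm (eB.trans hB1 h)))⟩
      · exact ⟨a, ha, hAk, hBk⟩
  choose g hg hgA hgB using key
  exact ⟨g, hg, hgA, hgB⟩

/-- A solution with values `a` and `b` extending a given one. -/
theorem extend {A : ℕ → ℕ} (hA : P.inst A) {a b : ℕ} (hAab : ¬ Rel (R A) a b) {g0 : ℕ → ℕ}
    {N : ℕ} (h : ∀ y < N, ¬ Rel (R A) (g0 y) y) :
    ∃ g : ℕ → ℕ, (∀ y < N, g y = g0 y) ∧ (∀ y, N ≤ y → g y = a ∨ g y = b) ∧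
      DIAG.sol (R A) g := by
  classical
  have eA := (hR A hA).2.1.1
  refine ⟨fun y => if y < N then g0 y else if Rel (R A) a y then b else a, fun y hy => ?_,
    fun y hy => ?_, fun y hy => ?_⟩
  · simp [hy]
  · simp only [not_lt.2 hy, if_false]
    split_ifs
    · exact Or.inr rfl
    · exact Or.inl rfl
  · dsimp only at hy
    split_ifs at hy with h1 h2
    · exact h y h1 hy
    · exact hAab (eA.trans h2 (eA.symm hy))
    · exact h2 hy

end

/-- Some pair of numbers is permanently separated. -/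
theorem exists_sep {φ ψ : List ℕ × ℕ →. ℕ} {R : (ℕ → ℕ) → ℕ → ℕ}
    (hR : ∀ p, (prod DIAG (DNR ⊤)).inst p → Computes φ p (R p) ∧ DIAG.inst (R p) ∧
      ∀ g, DIAG.sol (R p) g → ∃ s, Computes ψ (join p g) s ∧ (prod DIAG (DNR ⊤)).sol p s) :
    ∃ (e d : ℕ → ℕ) (M a b : ℕ), (∃ c, Col c ∧ Cmp e M c) ∧ Good ∅ d M ∧
      ∀ e' d', (∀ j < M, e' j = e j) → (∀ j < M, d' j = d j) → TwoE e' → Ins ∅ d' →
        ¬ Rel (R (join e' d')) a b := by
  classical
  by_contra hcon
  push Not at hcon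
  let l : (ℕ → ℕ) → ℕ → ℕ := fun u j => (u j).unpair.1
  let r : (ℕ → ℕ) → ℕ → ℕ := fun u j => (u j).unpair.2
  let C : (ℕ → ℕ) → ℕ → Prop := fun u M => (∃ c, Col c ∧ Cmp (l u) M c) ∧ Good ∅ (r u) M
  let D : ℕ → (ℕ → ℕ) → ℕ → Prop := fun i u M =>
    (∃ t, ∃ m ≤ M, i ∈ φ (pre (join (l u) (r u)) m, t)) ∧
      ∃ c, Col c ∧ Cmp (l u) M c ∧ ∀ x y, x ≤ i → y ≤ i → c x = c y → ∃ j < M, l u j = Nat.pair x y
  have h0 : C (fun _ => 0) 0 :=
    ⟨⟨fun x => if x = 0 then 0 else 1, ⟨fun x => by dsimp only; split_ifs <;> norm_num,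
      by simp, by simp⟩, fun i hi => absurd hi (Nat.not_lt_zero i)⟩,
      fun s hs => absurd hs (Nat.not_lt_zero s), fun s hs => absurd hs (Nat.not_lt_zero s)⟩
  have step : ∀ i u M, C u M → ∃ u' M', M < M' ∧ (∀ j < M, u' j = u j) ∧ C u' M' ∧ D i u' M' := by
    rintro i u M ⟨hc, hg⟩
    obtain ⟨e', d', he, hd, ⟨hi, c, hc, hcmp⟩, hins, hrel⟩ :=
      hcon (l u) (r u) M i.unpair.1 i.unpair.2 hc hg
    have hinst : (prod DIAG (DNR ⊤)).inst (join e' d') := by
      refine ⟨?_, ?_⟩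
      · rw [left_join]; exact hi
      · rw [right_join]; exact hins.1
    obtain ⟨t, m, hm⟩ := pre_of_rel hR hinst hrel
    rw [Nat.pair_unpair] at hm
    -- pinning
    let M1 := M + m
    let e1 := glue e' M1 (ec c)
    let M2 := M1 + (Nat.pair i i + 1)
    obtain ⟨U, hU⟩ : ∃ U : ℕ → ℕ, ∀ j, U j = Nat.pair (e1 j) (d' j) := ⟨_, fun _ => rfl⟩
    have hl : l U = e1 := by funext j; simp [l, hU]
    have hr : r U = d' := by funext j; simp [r, hU]
    refine ⟨U, M2, by omega, fun j hj => ?_, ?_, ?_⟩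
    · have h1 : e1 j = e' j := glue_lt (by omega)
      rw [hU, h1, he j hj, hd j hj]
      exact Nat.pair_unpair _
    · refine ⟨⟨c, hc, ?_⟩, ?_⟩
      · rw [hl]
        exact cmp_glue (hcmp M1) M2
      · rw [hr]
        exact hins.good M2
    · show (∃ t, ∃ m ≤ M2, i ∈ φ (pre (join (l U) (r U)) m, t)) ∧
        ∃ c, Col c ∧ Cmp (l U) M2 c ∧ ∀ x y, x ≤ i → y ≤ i → c x = c y →
          ∃ j < M2, l U j = Nat.pair x y
      rw [hl, hr]
      refine ⟨⟨t, m, by omega, ?_⟩, c, hc, cmp_glue (hcmp M1) M2, ?_⟩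
      · have : pre (join e1 d') m = pre (join e' d') m :=
          pre_join_congr (T := M1) (by omega) (fun j hj => glue_lt hj) (fun _ _ => rfl)
        rw [this]; exact hm
      · intro x y hx hy hxy
        refine ⟨M1 + Nat.pair x y, ?_, ?_⟩
        · have : Nat.pair x y ≤ Nat.pair i i := by
            rcases lt_or_eq_of_le hx with h | h
            · rcases lt_or_eq_of_le hy with h' | h'
              · exact ((Nat.pair_lt_pair_left y h).trans (Nat.pair_lt_pair_right i h')).le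
              · subst h'; exact (Nat.pair_lt_pair_left y h).le
            · subst h
              rcases lt_or_eq_of_le hy with h' | h'
              · exact (Nat.pair_lt_pair_right x h').le
              · rw [h']
          omega
        · have h3 : e1 (M1 + Nat.pair x y) = ec c (Nat.pair x y) := glue_ge _
          rw [h3]
          simp [ec, hxy]
  obtain ⟨u, -, hu⟩ := generic (C := C) (D := D) (fun _ => 0) 0 h0 step
  have key : ∀ i, ∃ c, Col c ∧ (∀ j ≤ i, c (l u j).unpair.1 = c (l u j).unpair.2) ∧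
      ∀ x y, x ≤ i → y ≤ i → c x = c y → Rel (l u) x y := by
    intro i
    obtain ⟨u', M', hi, -, hag, -, -, c, hc, hcp, h⟩ := hu i
    refine ⟨c, hc, fun j hj => ?_, fun x y hx hy hxy => ?_⟩
    · have : l u j = l u' j := by simp only [l]; rw [hag j (by omega)]
      rw [this]; exact hcp j (by omega)
    · obtain ⟨j, hj, hj'⟩ := h x y hx hy hxy
      refine ⟨j, ?_⟩
      have : l u j = l u' j := by simp only [l]; rw [hag j hj]
      rw [this]; exact hj'
  have hinst : (prod DIAG (DNR ⊤)).inst (join (l u) (r u)) := by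
    refine ⟨?_, ?_⟩
    · rw [left_join]
      refine ⟨⟨fun x => ?_, fun {x y} hxy => ?_, fun {x y z} hxy hyz => ?_⟩, 0, 1, ?_⟩
      · obtain ⟨c, -, -, h⟩ := key x
        exact h x x le_rfl le_rfl rfl
      · obtain ⟨n, hn⟩ := hxy
        obtain ⟨c, -, h1, h2⟩ := key (n + x + y)
        have := h1 n (by omega)
        rw [hn] at this
        simp only [Nat.unpair_pair] at this
        exact h2 y x (by omega) (by omega) this.symm
      · obtain ⟨n, hn⟩ := hxy
        obtain ⟨n', hn'⟩ := hyz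
        obtain ⟨c, -, h1, h2⟩ := key (n + n' + x + y + z)
        have e1 := h1 n (by omega)
        have e2 := h1 n' (by omega)
        rw [hn] at e1
        rw [hn'] at e2
        simp only [Nat.unpair_pair] at e1 e2
        exact h2 x z (by omega) (by omega) (e1.trans e2)
      · rintro ⟨n, hn⟩
        obtain ⟨c, hc, h1, -⟩ := key n
        have e1 := h1 n le_rfl
        rw [hn] at e1
        simp only [Nat.unpair_pair] at e1
        rw [hc.2.1, hc.2.2] at e1
        exact absurd e1 (by norm_num)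
    · rw [right_join]
      intro s t n v w hs ht
      obtain ⟨u', M', hi, -, hag, ⟨-, h1⟩, -⟩ := hu (s + t)
      have e1 : r u s = r u' s := by simp only [r]; rw [hag s (by omega)]
      have e2 : r u t = r u' t := by simp only [r]; rw [hag t (by omega)]
      rw [e1] at hs
      rw [e2] at ht
      exact h1.1 s (by omega) t (by omega) n v w hs ht
  obtain ⟨-, ⟨-, x, y, hxy⟩, -⟩ := hR _ hinst
  obtain ⟨u', M', -, -, hag, -, ⟨t, m, hm, h⟩, -⟩ := hu (Nat.pair x y)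
  apply hxy
  refine rel_of_pre hR hinst h (pre_join_congr hm (fun j hj => ?_) (fun j hj => ?_))
  · simp only [l]; rw [hag j hj]
  · simp only [r]; rw [hag j hj]

end Pool.Agent.Helper583.WD
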