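import Pool.Agent.Helper583.WDProd

/-!
The product of DIAG with DNR is not reducible to DIAG: the main argument.
-/

namespace Pool.Agent.Helper583.WD

theorem diag_dnr_not_diag : ¬ CLE (prod DIAG (DNR ⊤)) DIAG := by
  classical
  rintro ⟨φ, ψ, hred⟩
  have hred' : ∀ p, ∃ r, (prod DIAG (DNR ⊤)).inst p → Computes φ p r ∧ DIAG.inst r ∧
      ∀ g, DIAG.sol r g → ∃ s, Computes ψ (join p g) s ∧ (prod DIAG (DNR ⊤)).sol p s := by
    intro p
    by_cases h : (prod DIAG (DNR ⊤)).inst p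
    · obtain ⟨r, hr⟩ := hred p h
      exact ⟨r, fun _ => hr⟩
    · exact ⟨p, fun h' => absurd h' h⟩
  choose R hR using hred'
  obtain ⟨e, d, M, a, b, ⟨c0, hc0, hcmp0⟩, hgood, hsep⟩ := exists_sep hR
  obtain ⟨x, hx2, hx⟩ := exists_fresh e M
  have hc2 : Cmp e M (Function.update c0 x 2) := by
    intro j hj
    rw [Function.update_of_ne (hx j hj).1, Function.update_of_ne (hx j hj).2]
    exact hcmp0 j hj
  have h01 : ∀ i, Function.update c0 x i 0 ≠ Function.update c0 x i 1 := by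
    intro i
    rw [Function.update_of_ne (by omega), Function.update_of_ne (by omega), hc0.2.1, hc0.2.2]
    norm_num
  obtain ⟨e0, he0def⟩ : ∃ e0, e0 = glue e M (ec (Function.update c0 x 2)) := ⟨_, rfl⟩
  have he0 : ∀ i M', Cmp e0 M' (Function.update c0 x i) := fun i M' => by
    rw [he0def]; exact cmp_update hc0.1 (cmp_glue hc2 M') i
  have he0e : ∀ j < M, e0 j = e j := fun j hj => by rw [he0def]; exact glue_lt hj
  have hTwo0 : TwoE e0 := ⟨by rw [he0def]; exact inst_glue hc2 (h01 2), _,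
    col_update hc0 hx2 (show 0 < 2 by norm_num), fun M' => he0 0 M'⟩
  obtain ⟨ef, hef⟩ : ∃ ef : ℕ → ℕ → ℕ → ℕ, ∀ i T, ef i T = glue e0 T (ec (Function.update c0 x i)) :=
    ⟨_, fun _ _ => rfl⟩
  have hefTwo : ∀ i < 2, ∀ T, TwoE (ef i T) := fun i hi T => by
    rw [hef]
    exact ⟨inst_glue (he0 i T) (h01 i), _, col_update hc0 hx2 hi, fun M' => cmp_glue (he0 i T) M'⟩
  have hefrel : ∀ i T y z, Rel (ef i T) y z ↔
      Function.update c0 x i y = Function.update c0 x i z := fun i T y z => by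
    rw [hef]; exact rel_glue (he0 i T) y z
  have hefe : ∀ i T, ∀ j < T, ef i T j = e0 j := fun i T j hj => by rw [hef]; exact glue_lt hj
  have hinst : ∀ e' d', TwoE e' → Ins ∅ d' → (prod DIAG (DNR ⊤)).inst (join e' d') := by
    intro e' d' he' hd'
    refine ⟨?_, ?_⟩
    · rw [left_join]; exact he'.1
    · rw [right_join]; exact hd'.1
  obtain ⟨d0, hd0def⟩ : ∃ d0, d0 = glue d M (fun _ => 0) := ⟨_, rfl⟩
  have hd0 : Ins ∅ d0 := by rw [hd0def]; exact hgood.zero
  have hd0d : ∀ j < M, d0 j = d j := fun j hj => by rw [hd0def]; exact glue_lt hj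
  obtain ⟨M0, hMM0, hM0⟩ : ∃ M0, M ≤ M0 ∧ ∀ g : ℕ → ℕ, (∀ y, g y ∈ ({a, b} : Finset ℕ)) →
      Dec φ ψ (join e0 d0) (2 * x) M0 g := by
    obtain ⟨M0', hM0'⟩ := exists_dec hR (hinst e0 d0 hTwo0 hd0) {a, b} (2 * x)
    exact ⟨M + M0', by omega, fun g hg => (hM0' g hg).mono (by omega)⟩
  have hsepE : ∀ e' d', TwoE e' → Ins ∅ d' → (∀ j < M, e' j = e0 j) → (∀ j < M, d' j = d0 j) →
      ¬ Rel (R (join e' d')) a b := fun e' d' h1 h2 h3 h4 =>
    hsep e' d' (fun j hj => (h3 j hj).trans (he0e j hj)) (fun j hj => (h4 j hj).trans (hd0d j hj))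
      h1 h2
  -- the output at `x`
  have hval : ∀ i < 2, ∀ dl T g m v, Ins ∅ dl → DIAG.sol (R (join (ef i T) dl)) g →
      v ∈ ψ (pre (join (join (ef i T) dl) g) m, 2 * x) → v ≠ x ∧ c0 v ≠ i := by
    intro i hi dl T g m v hdl hg hv
    obtain ⟨s, hs, hs1, -⟩ := (hR _ (hinst _ dl (hefTwo i hi T) hdl)).2.2 g hg
    have h1 := (hs (2 * x)).2 m v hv
    have h2 : ¬ Rel (left (join (ef i T) dl)) (left s x) x := hs1 x
    have h3 : left s x = v := h1.symm
    rw [left_join, hefrel, h3, Function.update_self] at h2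
    have hvx : v ≠ x := by
      intro h
      rw [h, Function.update_self] at h2
      exact h2 rfl
    rw [Function.update_of_ne hvx] at h2
    exact ⟨hvx, h2⟩
  -- no common solution
  have hno : ∀ (K : Finset ℕ) (d1 : ℕ → ℕ) (t' : ℕ),
      (∀ g : ℕ → ℕ, (∀ y, g y ∈ K) → Dec φ ψ (join e0 d1) (2 * x) t' g) →
      ∀ dA TA dB TB, Ins ∅ dA → Ins ∅ dB → t' ≤ TA → t' ≤ TB → (∀ j < t', dA j = d1 j) →
      (∀ j < t', dB j = d1 j) → ¬ ∃ g : ℕ → ℕ, (∀ y, g y ∈ K) ∧
        DIAG.sol (R (join (ef 0 TA) dA)) g ∧ DIAG.sol (R (join (ef 1 TB) dB)) g := by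
    rintro K d1 t' hdec dA TA dB TB hA hB hTA hTB hdA hdB ⟨g, hg, hgA, hgB⟩
    have hjA : ∀ m ≤ t', ∀ i < m, join e0 d1 i = join (ef 0 TA) dA i := fun m hm =>
      join_congr (fun i hi => (hefe 0 TA i (by omega)).symm) (fun i hi => (hdA i (by omega)).symm)
    have hjB : ∀ m ≤ t', ∀ i < m, join e0 d1 i = join (ef 1 TB) dB i := fun m hm =>
      join_congr (fun i hi => (hefe 1 TB i (by omega)).symm) (fun i hi => (hdB i (by omega)).symm)
    rcases hdec g hg with ⟨y, hy, t, m, hm, h⟩ | ⟨m, hm, v, h⟩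
    · exact hgA y (rel_of_pre hR (hinst _ _ (hefTwo 0 (by norm_num) TA) hA) h
        (pre_congr (hjA m hm)))
    · have hpA : pre (join (join e0 d1) g) m = pre (join (join (ef 0 TA) dA) g) m :=
        pre_congr (join_congr (hjA m hm) (fun _ _ => rfl))
      have hpB : pre (join (join e0 d1) g) m = pre (join (join (ef 1 TB) dB) g) m :=
        pre_congr (join_congr (hjB m hm) (fun _ _ => rfl))
      have h1 := hval 0 (by norm_num) dA TA g m v hA hgA (hpA ▸ h)
      have h2 := hval 1 (by norm_num) dB TB g m v hB hgB (hpB ▸ h)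
      have h3 := hc0.1 v
      have h4 := h1.2
      have h5 := h2.2
      omega
  -- some number below `M0` gets different values
  have hnon : ∀ dA TA dB TB, Ins ∅ dA → Ins ∅ dB → M0 ≤ TA → M0 ≤ TB →
      (∀ j < M0, dA j = d0 j) → (∀ j < M0, dB j = d0 j) → ∃ y < M0,
        (Rel (R (join (ef 0 TA) dA)) a y ∧ Rel (R (join (ef 1 TB) dB)) b y) ∨
          (Rel (R (join (ef 0 TA) dA)) b y ∧ Rel (R (join (ef 1 TB) dB)) a y) := by
    intro dA TA dB TB hA hB hTA hTB hdA hdB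
    by_contra hcon
    push Not at hcon
    have iA := hinst _ _ (hefTwo 0 (by norm_num) TA) hA
    have iB := hinst _ _ (hefTwo 1 (by norm_num) TB) hB
    have eA := (hR _ iA).2.1.1
    have eB := (hR _ iB).2.1.1
    have sA := hsepE _ _ (hefTwo 0 (by norm_num) TA) hA (fun j hj => hefe 0 TA j (by omega))
      (fun j hj => hdA j (by omega))
    have sB := hsepE _ _ (hefTwo 1 (by norm_num) TB) hB (fun j hj => hefe 1 TB j (by omega))
      (fun j hj => hdB j (by omega))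
    obtain ⟨g0, hg0⟩ : ∃ g0 : ℕ → ℕ, ∀ y, g0 y =
        if Rel (R (join (ef 0 TA) dA)) a y ∨ Rel (R (join (ef 1 TB) dB)) a y then b else a :=
      ⟨_, fun _ => rfl⟩
    have hg0ab : ∀ y, g0 y = a ∨ g0 y = b := by
      intro y
      rw [hg0]
      split_ifs
      · exact Or.inr rfl
      · exact Or.inl rfl
    have hg0' : ∀ y < M0, ¬ Rel (R (join (ef 0 TA) dA)) (g0 y) y ∧
        ¬ Rel (R (join (ef 1 TB) dB)) (g0 y) y := by
      intro y hy
      have h1 := hcon y hy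
      rw [hg0]
      split_ifs with h
      · rcases h with h | h
        · exact ⟨fun h' => sA (eA.trans h (eA.symm h')), h1.1 h⟩
        · exact ⟨fun h' => h1.2 h' h, fun h' => sB (eB.trans h (eB.symm h'))⟩
      · push Not at h
        exact h
    obtain ⟨gA, hgA1, hgA2, hgA3⟩ := extend hR iA sA (g0 := g0) (N := M0) (fun y hy => (hg0' y hy).1)
    obtain ⟨gB, hgB1, hgB2, hgB3⟩ := extend hR iB sB (g0 := g0) (N := M0) (fun y hy => (hg0' y hy).2)
    have hjA : ∀ m ≤ M0, ∀ i < m, join e0 d0 i = join (ef 0 TA) dA i := fun m hm =>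
      join_congr (fun i hi => (hefe 0 TA i (by omega)).symm) (fun i hi => (hdA i (by omega)).symm)
    have hjB : ∀ m ≤ M0, ∀ i < m, join e0 d0 i = join (ef 1 TB) dB i := fun m hm =>
      join_congr (fun i hi => (hefe 1 TB i (by omega)).symm) (fun i hi => (hdB i (by omega)).symm)
    rcases hM0 gA (fun y => by
      simp only [Finset.mem_insert, Finset.mem_singleton]
      by_cases hy : y < M0
      · rw [hgA1 y hy]; exact hg0ab y
      · exact hgA2 y (not_lt.1 hy)) with ⟨y, hy, t, m, hm, h⟩ | ⟨m, hm, v, h⟩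
    · exact hgA3 y (rel_of_pre hR iA h (pre_congr (hjA m hm)))
    · have hpA : pre (join (join e0 d0) gA) m = pre (join (join (ef 0 TA) dA) gA) m :=
        pre_congr (join_congr (hjA m hm) (fun _ _ => rfl))
      have hpB : pre (join (join e0 d0) gA) m = pre (join (join (ef 1 TB) dB) gB) m :=
        pre_congr (join_congr (hjB m hm) (fun i hi => by
          rw [hgA1 i (by omega), hgB1 i (by omega)]))
      have h1 := hval 0 (by norm_num) dA TA gA m v hA hgA3 (hpA ▸ h)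
      have h2 := hval 1 (by norm_num) dB TB gB m v hB hgB3 (hpB ▸ h)
      have h3 := hc0.1 v
      have h4 := h1.2
      have h5 := h2.2
      omega
  -- types
  obtain ⟨ty, hty⟩ : ∃ ty : (ℕ → ℕ) → ℕ → (Fin M0 → Prop × Prop × Prop × Prop),
      ∀ dl T y, ty dl T y = (Rel (R (join (ef 0 T) dl)) a y, Rel (R (join (ef 0 T) dl)) b y,
        Rel (R (join (ef 1 T) dl)) a y, Rel (R (join (ef 1 T) dl)) b y) := ⟨_, fun _ _ _ => rfl⟩
  have hCL : ∀ (K : Finset ℕ) (d1 : ℕ → ℕ) (t' : ℕ),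
      (∀ g : ℕ → ℕ, (∀ y, g y ∈ K) → Dec φ ψ (join e0 d1) (2 * x) t' g) →
      a ∈ K → b ∈ K → (∀ y < M0, y ∈ K) → M0 ≤ t' → (∀ j < M0, d1 j = d0 j) →
      ∀ z ∈ K, ∀ dl1 T1 dl2 T2, Ins ∅ dl1 → Ins ∅ dl2 → t' ≤ T1 → t' ≤ T2 →
      (∀ j < t', dl1 j = d1 j) → (∀ j < t', dl2 j = d1 j) →
      (∀ i < 2, Rel (R (join (ef i T1) dl1)) a z) → (∀ i < 2, Rel (R (join (ef i T2) dl2)) b z) →
      ty dl1 T1 ≠ ty dl2 T2 := by
    intro K d1 t' hdec ha hb hK hMt hd1 z hz dl1 T1 dl2 T2 hl1 hl2 hT1 hT2 hd1' hd2' hz1 hz2 heq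
    have i1 : ∀ i < 2, (prod DIAG (DNR ⊤)).inst (join (ef i T1) dl1) := fun i hi =>
      hinst _ _ (hefTwo i hi T1) hl1
    have i2 : ∀ i < 2, (prod DIAG (DNR ⊤)).inst (join (ef i T2) dl2) := fun i hi =>
      hinst _ _ (hefTwo i hi T2) hl2
    have s1 : ∀ i < 2, ¬ Rel (R (join (ef i T1) dl1)) a b := fun i hi =>
      hsepE _ _ (hefTwo i hi T1) hl1 (fun j hj => hefe i T1 j (by omega))
        (fun j hj => by rw [hd1' j (by omega), hd1 j (by omega)])
    have s2 : ∀ i < 2, ¬ Rel (R (join (ef i T2) dl2)) a b := fun i hi =>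
      hsepE _ _ (hefTwo i hi T2) hl2 (fun j hj => hefe i T2 j (by omega))
        (fun j hj => by rw [hd2' j (by omega), hd1 j (by omega)])
    obtain ⟨y, hy, hcase⟩ := hnon dl2 T2 dl1 T1 hl2 hl1 (by omega) (by omega)
      (fun j hj => by rw [hd2' j (by omega), hd1 j hj])
      (fun j hj => by rw [hd1' j (by omega), hd1 j hj])
    rcases hcase with ⟨h1, h2⟩ | ⟨h1, h2⟩
    · exact hno K d1 t' hdec dl2 T2 dl1 T1 hl2 hl1 hT2 hT1 hd2' hd1'
        (four hR (i2 0 (by norm_num)) (i1 1 (by norm_num)) ha hb (hK y hy) hz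
          (s2 0 (by norm_num)) (s1 1 (by norm_num)) h1 h2 (hz2 0 (by norm_num))
          (hz1 1 (by norm_num)))
    · have hq := congrFun heq ⟨y, hy⟩
      rw [hty, hty] at hq
      have e1 : Rel (R (join (ef 0 T1) dl1)) b y := by
        have : (Rel (R (join (ef 0 T1) dl1)) b y) = (Rel (R (join (ef 0 T2) dl2)) b y) :=
          congrArg (fun q : Prop × Prop × Prop × Prop => q.2.1) hq
        rw [this]; exact h1
      have e2 : Rel (R (join (ef 1 T2) dl2)) a y := by
        have : (Rel (R (join (ef 1 T1) dl1)) a y) = (Rel (R (join (ef 1 T2) dl2)) a y) :=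
          congrArg (fun q : Prop × Prop × Prop × Prop => q.2.2.1) hq
        rw [← this]; exact h2
      exact hno K d1 t' hdec dl1 T1 dl2 T2 hl1 hl2 hT1 hT2 hd1' hd2'
        (four hR (i1 0 (by norm_num)) (i2 1 (by norm_num)) ha hb hz (hK y hy)
          (s1 0 (by norm_num)) (s2 1 (by norm_num)) (hz1 0 (by norm_num)) (hz2 1 (by norm_num))
          e1 e2)
  -- one branching
  have hnode : ∀ d1 T, Ins ∅ d1 → (∀ j < M0, d1 j = d0 j) → M0 ≤ T → (∀ j ≥ T, d1 j = 0) →
      ∃ dl Tl d2 T2, Ins ∅ dl ∧ T ≤ Tl ∧ (∀ j < T, dl j = d1 j) ∧ Ins ∅ d2 ∧ T ≤ T2 ∧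
        (∀ j < T, d2 j = d1 j) ∧ (∀ j ≥ T2, d2 j = 0) ∧
        ∀ dl' Tl', Ins ∅ dl' → T2 ≤ Tl' → (∀ j < T2, dl' j = d2 j) → ty dl Tl ≠ ty dl' Tl' := by
    intro d1 T hd1 hd1' hMT hsupp
    obtain ⟨n, -, hn⟩ := exists_index ∅ d1 T
    have hn' : ∀ t v, d1 t ≠ Nat.pair n v + 1 := by
      intro t v
      by_cases ht : t < T
      · exact hn t ht v
      · rw [hsupp t (not_lt.1 ht)]; omega
    have i1 := hinst e0 d1 hTwo0 hd1
    obtain ⟨Mn, hMn⟩ := exists_dec hR i1 {a, b} (2 * n + 1)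
    obtain ⟨K, hKdef⟩ : ∃ K : Finset ℕ, K = insert a (insert b (Finset.range (M0 + Mn))) := ⟨_, rfl⟩
    have haK : a ∈ K := by rw [hKdef]; simp
    have hbK : b ∈ K := by rw [hKdef]; simp
    have hrK : ∀ y < M0 + Mn, y ∈ K := by
      intro y hy
      rw [hKdef]
      simp only [Finset.mem_insert, Finset.mem_range]
      exact Or.inr (Or.inr hy)
    obtain ⟨t0, ht0⟩ := exists_dec hR i1 K (2 * x)
    obtain ⟨t', ht'def⟩ : ∃ t', t' = T + Mn + t0 := ⟨_, rfl⟩
    obtain ⟨dd, hdd⟩ : ∃ dd : ℕ → ℕ → ℕ, ∀ l, dd l = glue d1 t' (fun _ => Nat.pair n l + 1) :=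
      ⟨_, fun _ => rfl⟩
    have hddI : ∀ l, Ins ∅ (dd l) := by
      intro l
      rw [hdd]
      exact (hd1.good t').add (fun t _ v => hn' t v) (Finset.notMem_empty n) l
    have hddlt : ∀ l, ∀ j < t', dd l j = d1 j := fun l j hj => by rw [hdd]; exact glue_lt hj
    have iq : ∀ l, (prod DIAG (DNR ⊤)).inst (join e0 (dd l)) := fun l => hinst _ _ hTwo0 (hddI l)
    have sq : ∀ l, ¬ Rel (R (join e0 (dd l))) a b := fun l =>
      hsepE _ _ hTwo0 (hddI l) (fun _ _ => rfl)
        (fun j hj => by rw [hddlt l j (by omega), hd1' j (by omega)])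
    have hz : ∃ z < Mn, (∃ l, Rel (R (join e0 (dd l))) a z) ∧ ∃ l, Rel (R (join e0 (dd l))) b z := by
      by_contra hcon
      push Not at hcon
      obtain ⟨g0, hg0⟩ : ∃ g0 : ℕ → ℕ, ∀ z, g0 z =
          if ∃ l, Rel (R (join e0 (dd l))) a z then b else a := ⟨_, fun _ => rfl⟩
      have hg0' : ∀ z < Mn, ∀ l, ¬ Rel (R (join e0 (dd l))) (g0 z) z := by
        intro z hz l
        rw [hg0]
        split_ifs with h
        · obtain ⟨l', hl'⟩ := h
          exact hcon z hz ⟨l', hl'⟩ l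
        · push Not at h
          exact h l
      rcases hMn g0 (fun y => by
        simp only [Finset.mem_insert, Finset.mem_singleton]
        rw [hg0]
        split_ifs
        · exact Or.inr rfl
        · exact Or.inl rfl) with ⟨y, hy, t, m, hm, h⟩ | ⟨m, hm, v, h⟩
      · exact hg0' y hy 0 (rel_of_pre hR (iq 0) h (pre_join_congr (T := t') (by omega)
          (fun _ _ => rfl) (fun j hj => (hddlt 0 j hj).symm)))
      · obtain ⟨g1, hg1, -, hg1'⟩ := extend hR (iq v) (sq v) (g0 := g0) (N := Mn)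
          (fun y hy => hg0' y hy v)
        obtain ⟨s, hs, -, hs2⟩ := (hR _ (iq v)).2.2 g1 hg1'
        have hp : pre (join (join e0 d1) g0) m = pre (join (join e0 (dd v)) g1) m :=
          pre_congr (join_congr (join_congr (fun _ _ => rfl)
            (fun j hj => (hddlt v j (by omega)).symm)) (fun i hi => (hg1 i (by omega)).symm))
        rw [hp] at h
        have h1 : v = s (2 * n + 1) := (hs (2 * n + 1)).2 m v h
        have h2 := (hs2 n).2 t'
        rw [right_join] at h2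
        apply h2
        have h3 : right s n = v := h1.symm
        rw [h3, hdd]
        exact glue_ge 0
    obtain ⟨z, hzM, ⟨l, hl⟩, l', hl'⟩ := hz
    obtain ⟨t1, m1, h1⟩ := pre_of_rel hR (iq l) hl
    obtain ⟨t2, m2, h2⟩ := pre_of_rel hR (iq l') hl'
    refine ⟨dd l, t' + m1, glue (dd l') (t' + m2) (fun _ => 0), t' + m2, hddI l, by omega,
      fun j hj => hddlt l j (by omega), ((hddI l').good _).zero, by omega, fun j hj => ?_,
      fun j hj => ?_, ?_⟩
    · rw [glue_lt (by omega), hddlt l' j (by omega)]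
    · obtain ⟨i, rfl⟩ := Nat.exists_eq_add_of_le hj
      exact glue_ge i
    · intro dl' Tl' hdl' hTl' hag
      have hag' : ∀ j < t' + m2, dl' j = dd l' j := fun j hj => by rw [hag j hj, glue_lt hj]
      refine hCL K d1 t' (fun g hg => (ht0 g hg).mono (by omega)) haK hbK
        (fun y hy => hrK y (by omega)) (by omega) hd1' z (hrK z (by omega)) (dd l) (t' + m1) dl' Tl'
        (hddI l) hdl' (by omega) (by omega) (hddlt l)
        (fun j hj => by rw [hag' j (by omega), hddlt l' j hj]) ?_ ?_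
      · intro i hi
        exact rel_of_pre hR (hinst _ _ (hefTwo i hi _) (hddI l)) h1
          (pre_join_congr (T := t' + m1) (by omega) (fun j hj => (hefe i _ j hj).symm)
            (fun _ _ => rfl))
      · intro i hi
        exact rel_of_pre hR (hinst _ _ (hefTwo i hi _) hdl') h2
          (pre_join_congr (T := t' + m2) (by omega) (fun j hj => (hefe i _ j (by omega)).symm)
            (fun j hj => (hag' j hj).symm))
  -- many types
  have hcomb : ∀ N d1 T, Ins ∅ d1 → (∀ j < M0, d1 j = d0 j) → M0 ≤ T → (∀ j ≥ T, d1 j = 0) →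
      ∃ F : Finset (Fin M0 → Prop × Prop × Prop × Prop), F.card = N ∧ ∀ τ ∈ F, ∃ dl Tl,
        Ins ∅ dl ∧ T ≤ Tl ∧ (∀ j < T, dl j = d1 j) ∧ ty dl Tl = τ := by
    intro N
    induction N with
    | zero =>
      intro d1 T _ _ _ _
      exact ⟨∅, rfl, fun τ hτ => absurd hτ (Finset.notMem_empty τ)⟩
    | succ N ih =>
      intro d1 T hd1 hd1' hMT hsupp
      obtain ⟨dl, Tl, d2, T2, hdl, hTl, hdl', hd2, hT2, hd2', hsupp2, hdiff⟩ :=
        hnode d1 T hd1 hd1' hMT hsupp
      obtain ⟨F, hF, hF'⟩ := ih d2 T2 hd2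
        (fun j hj => by rw [hd2' j (by omega), hd1' j hj]) (by omega) hsupp2
      refine ⟨insert (ty dl Tl) F, ?_, fun τ hτ => ?_⟩
      · rw [Finset.card_insert_of_notMem, hF]
        intro hmem
        obtain ⟨dl3, Tl3, h1, h2, h3, h4⟩ := hF' _ hmem
        exact hdiff dl3 Tl3 h1 h2 h3 h4.symm
      · rcases Finset.mem_insert.1 hτ with h | h
        · exact ⟨dl, Tl, hdl, hTl, hdl', h.symm⟩
        · obtain ⟨dl3, Tl3, h1, h2, h3, h4⟩ := hF' _ h
          exact ⟨dl3, Tl3, h1, by omega, fun j hj => by rw [h3 j (by omega), hd2' j hj], h4⟩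
  have : Fintype (Fin M0 → Prop × Prop × Prop × Prop) := Fintype.ofFinite _
  obtain ⟨F, hF, -⟩ := hcomb (Fintype.card (Fin M0 → Prop × Prop × Prop × Prop) + 1) d0 M0 hd0
    (fun _ _ => rfl) le_rfl (fun j hj => by
      obtain ⟨i, rfl⟩ := Nat.exists_eq_add_of_le (hMM0.trans hj)
      rw [hd0def]
      exact glue_ge i)
  have := Finset.card_le_univ F
  omega

end Pool.Agent.Helper583.WD
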