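import Pool.Agent.Helper583.WDComp

/-!
DNR with infinitely many bounded values is not reducible to DIAG: definitions and the separated
pair.
-/

namespace Pool.Agent.Helper583.WD

/-- Avoiding a partial function given by an enumeration of its graph, with the `n`-th value
less than `H n`. -/
def DNRF (H : ℕ → ℕ∞) : Problem where
  inst p := ∀ s t n v w, p s = Nat.pair n v + 1 → p t = Nat.pair n w + 1 → v = w
  sol p q := ∀ n, (q n : ℕ∞) < H n ∧ ∀ t, p t ≠ Nat.pair n (q n) + 1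

theorem Good.mono {D D' : Finset ℕ} {p : ℕ → ℕ} {M M' : ℕ} (h : Good D' p M') (hD : D ⊆ D')
    (hM : M ≤ M') : Good D p M :=
  ⟨fun s hs t ht => h.1 s (by omega) t (by omega),
    fun t ht n v hv hn => h.2 t (by omega) n v hv (hD hn)⟩

theorem Good.congr {D : Finset ℕ} {p p' : ℕ → ℕ} {M : ℕ} (h : Good D p M)
    (hp : ∀ j < M, p' j = p j) : Good D p' M :=
  ⟨fun s hs t ht n v w h1 h2 => h.1 s hs t ht n v w (hp s hs ▸ h1) (hp t ht ▸ h2),
    fun t ht n v hv => h.2 t ht n v (hp t ht ▸ hv)⟩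

section

variable {H : ℕ → ℕ∞} {φ ψ : List ℕ × ℕ →. ℕ} {R : (ℕ → ℕ) → ℕ → ℕ}
  (hR : ∀ p, (DNRF H).inst p → Computes φ p (R p) ∧ DIAG.inst (R p) ∧
    ∀ g, DIAG.sol (R p) g → ∃ s, Computes ψ (join p g) s ∧ (DNRF H).sol p s)

include hR

/-- Some pair of numbers is permanently separated. -/
theorem exists_sep' : ∃ (p : ℕ → ℕ) (M a b : ℕ), Good ∅ p M ∧
    ∀ p', (∀ j < M, p' j = p j) → Ins ∅ p' → ¬ Rel (R p') a b := by
  classical
  by_contra hcon
  push Not at hcon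
  let C : (ℕ → ℕ) → ℕ → Prop := fun p M => Good ∅ p M
  let D : ℕ → (ℕ → ℕ) → ℕ → Prop := fun i p M => ∃ t, ∃ m ≤ M, i ∈ φ (pre p m, t)
  have h0 : C (fun _ => 0) 0 :=
    ⟨fun s hs => absurd hs (Nat.not_lt_zero s), fun s hs => absurd hs (Nat.not_lt_zero s)⟩
  have step : ∀ i u M, C u M → ∃ u' M', M < M' ∧ (∀ j < M, u' j = u j) ∧ C u' M' ∧ D i u' M' := by
    intro i u M hu
    obtain ⟨p', hp', hI, hrel⟩ := hcon u M i.unpair.1 i.unpair.2 hu
    obtain ⟨t, m, hm⟩ := pre_of_rel hR (p := p') hI.1 hrel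
    rw [Nat.pair_unpair] at hm
    exact ⟨p', M + m + 1, by omega, hp', hI.good _, t, m, by omega, hm⟩
  obtain ⟨p, -, hp⟩ := generic (C := C) (D := D) (fun _ => 0) 0 h0 step
  have hpI : (DNRF H).inst p := by
    intro s t e v u hs ht
    obtain ⟨p', M', hi, -, hag, h1, -⟩ := hp (s + t)
    rw [hag s (by omega)] at hs
    rw [hag t (by omega)] at ht
    exact h1.1 s (by omega) t (by omega) e v u hs ht
  obtain ⟨-, ⟨-, x, y, hxy⟩, -⟩ := hR p hpI
  obtain ⟨p', M', -, -, hag, -, t, m, hm, h⟩ := hp (Nat.pair x y)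
  exact hxy (rel_of_pre hR hpI h (pre_congr fun j hj => (hag j (by omega)).symm))

end

/-- The relation between `x` and `y` holds in all extensions of a finite condition. -/
def Forces (R : (ℕ → ℕ) → ℕ → ℕ) (p : ℕ → ℕ) (M x y : ℕ) : Prop :=
  ∀ p', (∀ j < M, p' j = p j) → Ins ∅ p' → Rel (R p') x y

theorem Forces.mono {R : (ℕ → ℕ) → ℕ → ℕ} {p p' : ℕ → ℕ} {M M' x y : ℕ} (h : Forces R p M x y)
    (hM : M ≤ M') (hp : ∀ j < M, p' j = p j) : Forces R p' M' x y :=
  fun q hq hI => h q (fun j hj => (hq j (by omega)).trans (hp j hj)) hI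

/-- One of two numbers. -/
def col (a b : ℕ) : Bool → ℕ := fun β => if β then a else b

/-- The number `z` can be put in the class of `a` and in the class of `b`, keeping `D`
undeclared. -/
def Free (R : (ℕ → ℕ) → ℕ → ℕ) (a b : ℕ) (D : Finset ℕ) (p : ℕ → ℕ) (M z : ℕ) : Prop :=
  ∀ β : Bool, ∃ p' M', M ≤ M' ∧ (∀ j < M, p' j = p j) ∧ Good D p' M' ∧
    Forces R p' M' (col a b β) z

theorem Free.anti {R : (ℕ → ℕ) → ℕ → ℕ} {a b : ℕ} {D : Finset ℕ} {p p' : ℕ → ℕ} {M M' z : ℕ}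
    (h : Free R a b D p' M' z) (hM : M ≤ M') (hp : ∀ j < M, p' j = p j) : Free R a b D p M z := by
  intro β
  obtain ⟨q, N, h1, h2, h3, h4⟩ := h β
  exact ⟨q, N, by omega, fun j hj => (h2 j (by omega)).trans (hp j hj), h3, h4⟩

section

variable {H : ℕ → ℕ∞} {φ ψ : List ℕ × ℕ →. ℕ} {R : (ℕ → ℕ) → ℕ → ℕ}
  (hR : ∀ p, (DNRF H).inst p → Computes φ p (R p) ∧ DIAG.inst (R p) ∧
    ∀ g, DIAG.sol (R p) g → ∃ s, Computes ψ (join p g) s ∧ (DNRF H).sol p s)
  {pb : ℕ → ℕ} {M0 a b : ℕ}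
  (hsep : ∀ p', (∀ j < M0, p' j = pb j) → Ins ∅ p' → ¬ Rel (R p') a b)

include hR hsep

/-- At every condition not declaring `n` some number below a fixed bound is free. -/
theorem node {D : Finset ℕ} {n : ℕ} (hn : n ∉ D) {p0 : ℕ → ℕ} {T : ℕ} (hT : M0 ≤ T)
    (hp0 : ∀ j < M0, p0 j = pb j) (hg : Good (insert n D) p0 T) :
    ∃ Mn, ∀ p M, T + Mn ≤ M → (∀ j < T + Mn, p j = glue p0 T (fun _ => 0) j) →
      Good (insert n D) p M → ∃ z < Mn, Free R a b D p M z := by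
  classical
  have hq0 := hg.zero
  obtain ⟨Mn, hMn⟩ := exists_dec hR (p := glue p0 T (fun _ => 0)) hq0.1 {a, b} n
  refine ⟨Mn, fun p M hM hp hgp => ?_⟩
  by_contra hcon
  push Not at hcon
  have hcon' : ∀ z, ∃ β : Bool, z < Mn → ∀ p' M', M ≤ M' → (∀ j < M, p' j = p j) → Good D p' M' →
      ¬ Forces R p' M' (col a b β) z := by
    intro z
    by_cases hz : z < Mn
    · have := hcon z hz
      unfold Free at this
      push Not at this
      obtain ⟨β, hβ⟩ := this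
      exact ⟨β, fun _ => hβ⟩
    · exact ⟨true, fun h => absurd h hz⟩
  choose β hβ using hcon'
  have hnp : ∀ t < M, ∀ v, p t ≠ Nat.pair n v + 1 := fun t ht v hv =>
    hgp.2 t ht n v hv (Finset.mem_insert_self n D)
  have hgD : Good D p M := hgp.mono (Finset.subset_insert n D) le_rfl
  obtain ⟨q, hq⟩ : ∃ q : ℕ → ℕ → ℕ, ∀ l, q l = glue p M (fun _ => Nat.pair n l + 1) :=
    ⟨_, fun _ => rfl⟩
  have hqD : ∀ l, Ins D (q l) := fun l => by rw [hq]; exact hgD.add hnp hn l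
  have hqI : ∀ l, Ins ∅ (q l) := fun l => (hqD l).mono (Finset.empty_subset D)
  have hqp : ∀ l, ∀ j < M, q l j = p j := fun l j hj => by rw [hq]; exact glue_lt hj
  have hqb : ∀ l, ∀ j < M0, q l j = pb j := fun l j hj => by
    rw [hqp l j (by omega), hp j (by omega), glue_lt (by omega), hp0 j hj]
  have hno : ∀ l, ∀ z < Mn, ¬ Rel (R (q l)) (col a b (β z)) z := by
    intro l z hz hrel
    obtain ⟨t, m, hm⟩ := pre_of_rel hR (p := q l) (hqI l).1 hrel
    refine hβ z hz (q l) (M + m) (by omega) (hqp l) ((hqD l).good _) ?_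
    intro p' hp' hI
    exact rel_of_pre hR (p := q l) (p' := p') hI.1 hm
      (pre_congr fun j hj => (hp' j (by omega)).symm)
  obtain ⟨g0, hg0⟩ : ∃ g0 : ℕ → ℕ, ∀ z, g0 z = col a b (β z) := ⟨_, fun _ => rfl⟩
  have hpre : ∀ l, ∀ m ≤ Mn, ∀ i < m, glue p0 T (fun _ => 0) i = q l i := fun l m hm i hi => by
    rw [hqp l i (by omega), hp i (by omega)]
  rcases hMn g0 (fun y => by
    simp only [Finset.mem_insert, Finset.mem_singleton]
    rw [hg0]
    unfold col
    split_ifs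
    · exact Or.inl rfl
    · exact Or.inr rfl) with ⟨y, hy, t, m, hm, h⟩ | ⟨m, hm, v, h⟩
  · have := rel_of_pre hR (p' := q 0) (hqI 0).1 h (pre_congr (hpre 0 m hm))
    rw [hg0] at this
    exact hno 0 y hy this
  · obtain ⟨g1, hg1, -, hg1'⟩ := extend hR (A := q v) (hqI v).1 (hsep _ (hqb v) (hqI v))
      (g0 := g0) (N := Mn) (fun y hy => by rw [hg0]; exact hno v y hy)
    obtain ⟨s, hs, hs2⟩ := (hR _ (hqI v).1).2.2 g1 hg1'
    have hp' : pre (join (glue p0 T (fun _ => 0)) g0) m = pre (join (q v) g1) m :=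
      pre_congr (join_congr (hpre v m hm) (fun i hi => (hg1 i (by omega)).symm))
    rw [hp'] at h
    have h1 : v = s n := (hs n).2 m v h
    apply (hs2 n).2 M
    rw [← h1, hq]
    exact glue_ge 0

/-- Some number is persistently free. -/
theorem persist {D : Finset ℕ} {n : ℕ} (hn : n ∉ D) {p0 : ℕ → ℕ} {T : ℕ} (hT : M0 ≤ T)
    (hp0 : ∀ j < M0, p0 j = pb j) (hg : Good (insert n D) p0 T) :
    ∃ p1 T1 z, T ≤ T1 ∧ (∀ j < T, p1 j = p0 j) ∧ Good (insert n D) p1 T1 ∧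
      ∀ p M, T1 ≤ M → (∀ j < T1, p j = p1 j) → Good (insert n D) p M → Free R a b D p M z := by
  classical
  obtain ⟨Mn, hMn⟩ := node hR hsep hn hT hp0 hg
  let Q : ℕ → Prop := fun k => ∃ p M, T + Mn ≤ M ∧ (∀ j < T + Mn, p j = glue p0 T (fun _ => 0) j) ∧
    Good (insert n D) p M ∧ ((Finset.range Mn).filter (Free R a b D p M)).card = k
  have hQ : ∃ k, Q k := ⟨_, glue p0 T (fun _ => 0), T + Mn, le_rfl, fun _ _ => rfl,
    hg.zero.good _, rfl⟩
  obtain ⟨p1, T1, hT1, hp1, hg1, hk⟩ := Nat.find_spec hQ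
  obtain ⟨z, hz, hzf⟩ := hMn p1 T1 hT1 hp1 hg1
  refine ⟨p1, T1, z, by omega, fun j hj => ?_, hg1, fun p M hM hp hgp => ?_⟩
  · rw [hp1 j (by omega), glue_lt hj]
  · have hsub : (Finset.range Mn).filter (Free R a b D p M) ⊆
        (Finset.range Mn).filter (Free R a b D p1 T1) := by
      intro y hy
      rw [Finset.mem_filter] at hy ⊢
      exact ⟨hy.1, hy.2.anti hM hp⟩
    have hQ' : Q ((Finset.range Mn).filter (Free R a b D p M)).card :=
      ⟨p, M, by omega, fun j hj => (hp j (by omega)).trans (hp1 j hj), hgp, rfl⟩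
    have hle := Nat.find_min' hQ hQ'
    rw [← hk] at hle
    have heq := Finset.eq_of_subset_of_card_le hsub hle
    have hmem : z ∈ (Finset.range Mn).filter (Free R a b D p1 T1) :=
      Finset.mem_filter.2 ⟨Finset.mem_range.2 hz, hzf⟩
    rw [← heq] at hmem
    exact (Finset.mem_filter.1 hmem).2

/-- Arbitrarily many numbers can be coloured independently. -/
theorem shatter (r : ℕ) : ∀ (D : Finset ℕ) (p0 : ℕ → ℕ) (T : ℕ), M0 ≤ T →
    (∀ j < M0, p0 j = pb j) → Good D p0 T →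
    ∃ (D' : Finset ℕ) (p1 : ℕ → ℕ) (T1 : ℕ) (z : ℕ → ℕ), D ⊆ D' ∧ T ≤ T1 ∧
      (∀ j < T, p1 j = p0 j) ∧ Good D' p1 T1 ∧
      ∀ p M, T1 ≤ M → (∀ j < T1, p j = p1 j) → Good D' p M → ∀ π : ℕ → Bool,
        ∃ p' M', M ≤ M' ∧ (∀ j < M, p' j = p j) ∧ Good D p' M' ∧
          ∀ j < r, Forces R p' M' (col a b (π j)) (z j) := by
  classical
  induction r with
  | zero =>
    intro D p0 T hT hp0 hg
    exact ⟨D, p0, T, fun _ => 0, subset_rfl, le_rfl, fun _ _ => rfl, hg,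
      fun p M _ _ hgp π => ⟨p, M, le_rfl, fun _ _ => rfl, hgp,
        fun j hj => absurd hj (Nat.not_lt_zero j)⟩⟩
  | succ r ih =>
    intro D p0 T hT hp0 hg
    obtain ⟨n, hnD, hn⟩ := exists_index D p0 T
    have hg' : Good (insert n D) p0 T := by
      refine ⟨hg.1, fun t ht e v he hmem => ?_⟩
      rcases Finset.mem_insert.1 hmem with h | h
      · subst h; exact hn t ht v he
      · exact hg.2 t ht e v he h
    obtain ⟨p1, T1, z0, hT1, hp1, hg1, hfree⟩ := persist hR hsep hnD hT hp0 hg'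
    obtain ⟨D', p2, T2, z, hD', hT2, hp2, hg2, hsh⟩ := ih (insert n D) p1 T1 (by omega)
      (fun j hj => (hp1 j (by omega)).trans (hp0 j hj)) hg1
    refine ⟨D', p2, T2, fun j => if j = r then z0 else z j,
      (Finset.subset_insert n D).trans hD', by omega,
      fun j hj => (hp2 j (by omega)).trans (hp1 j hj), hg2, fun p M hM hp hgp π => ?_⟩
    obtain ⟨p', M', hM', hp', hgp', hF⟩ := hsh p M hM hp hgp π
    obtain ⟨p'', M'', hM'', hp'', hgp'', hF'⟩ := hfree p' M' (by omega)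
      (fun j hj => by rw [hp' j (by omega), hp j (by omega), hp2 j hj]) hgp' (π r)
    refine ⟨p'', M'', by omega, fun j hj => (hp'' j (by omega)).trans (hp' j hj), hgp'',
      fun j hj => ?_⟩
    by_cases hjr : j = r
    · subst hjr
      simpa using hF'
    · simp only [if_neg hjr]
      exact (hF j (by omega)).mono hM'' hp''

end

end Pool.Agent.Helper583.WD
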