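import Pool.Agent.Helper583.WDWWKL

/-!
DIAG is not reducible to the product of choice on the numbers and weak weak Kőnig's lemma.
-/

namespace Pool.Agent.Helper583.WD

/-- The words of length `m` without an enumerated initial segment. -/
def Lev (m : ℕ) (r : ℕ → ℕ) : Set (Fin m → Bool) :=
  {σ | ∀ t, ∀ m' ≤ m, r t ≠ Encodable.encode (pre (ext σ) m') + 1}

theorem ext_lt {m : ℕ} (σ : Fin m → Bool) (i : ℕ) : ext σ i < 2 := by
  unfold ext
  split_ifs with h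
  · cases σ ⟨i, h⟩ <;> simp
  · norm_num

theorem exists_fresh' (p : ℕ → ℕ) (M : ℕ) :
    ∃ x, 2 ≤ x ∧ ∀ j < M, (p j).unpair.1 < x ∧ (p j).unpair.2 < x := by
  refine ⟨2 + (Finset.range M).sup (fun i => (p i).unpair.1 + (p i).unpair.2 + 1),
    Nat.le_add_right _ _, fun i hi => ?_⟩
  have := Finset.le_sup (f := fun i => (p i).unpair.1 + (p i).unpair.2 + 1) (Finset.mem_range.2 hi)
  constructor <;> omega

section

variable {φ ψ : List ℕ × ℕ →. ℕ} {R : (ℕ → ℕ) → ℕ → ℕ}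
  (hR : ∀ p, DIAG.inst p → Computes φ p (R p) ∧ (prod CN WWKL).inst (R p) ∧
    ∀ q, (prod CN WWKL).sol (R p) q → ∃ s, Computes ψ (join p q) s ∧ DIAG.sol p s)

include hR

theorem out_of_pre {p p' : ℕ → ℕ} (hp' : DIAG.inst p') {m t v : ℕ}
    (h : v ∈ φ (pre p m, t)) (hpre : ∀ i < m, p i = p' i) : R p' t = v := by
  rw [pre_congr hpre] at h
  exact (((hR p' hp').1 t).2 m _ h).symm

theorem closed_aux {p : ℕ → ℕ} {M n j : ℕ}
    (hcon : ∀ p' M', M < M' → (∀ i < M, p' i = p i) → Cond p' M' → ∃ q, (∀ i < M', q i = p' i) ∧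
      DIAG.inst q ∧ (∀ t, left (R q) t ≠ n + 1) ∧ ∀ m, 2 ^ m ≤ 2 ^ j * (Lev m (right (R q))).ncard)
    (p' : ℕ → ℕ) (hp' : ∀ i < M, p' i = p i) (hC : ∀ M', Cond p' M') (hi : DIAG.inst p') :
    (∀ t, left (R p') t ≠ n + 1) ∧ ∀ m, 2 ^ m ≤ 2 ^ j * (Lev m (right (R p'))).ncard := by
  classical
  have hφ := (hR p' hi).1
  refine ⟨fun t ht => ?_, fun m => ?_⟩
  · obtain ⟨⟨m0, hm0⟩, -⟩ := hφ (2 * t)
    have ht' : R p' (2 * t) = n + 1 := ht
    rw [ht'] at hm0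
    obtain ⟨q, hq, hqi, hq1, -⟩ := hcon p' (M + 1 + m0) (by omega) hp' (hC _)
    exact hq1 t (out_of_pre hR hqi hm0 fun i hi => (hq i (by omega)).symm)
  · have hw : ∀ σ : Fin m → Bool, ∃ m0, σ ∉ Lev m (right (R p')) → ∃ t, ∃ m' ≤ m,
        Encodable.encode (pre (ext σ) m') + 1 ∈ φ (pre p' m0, 2 * t + 1) := by
      intro σ
      by_cases h : σ ∈ Lev m (right (R p'))
      · exact ⟨0, fun h' => absurd h h'⟩
      · have h1 : ∃ t, ∃ m' ≤ m, right (R p') t = Encodable.encode (pre (ext σ) m') + 1 := by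
          by_contra h2
          push Not at h2
          exact h h2
        obtain ⟨t, m', hm', h3⟩ := h1
        obtain ⟨⟨m0, hm0⟩, -⟩ := hφ (2 * t + 1)
        have h4 : R p' (2 * t + 1) = Encodable.encode (pre (ext σ) m') + 1 := h3
        rw [h4] at hm0
        exact ⟨m0, fun _ => ⟨t, m', hm', hm0⟩⟩
    choose m0 hm0 using hw
    obtain ⟨q, hq, hqi, -, hq2⟩ := hcon p' (M + 1 + Finset.univ.sup m0) (by omega) hp' (hC _)
    refine (hq2 m).trans (Nat.mul_le_mul_left _ (Set.ncard_le_ncard (fun σ hσ => ?_)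
      (Set.toFinite _)))
    by_contra h
    obtain ⟨t, m', hm', h1⟩ := hm0 σ h
    have h2 := Finset.le_sup (f := m0) (Finset.mem_univ σ)
    exact hσ t m' hm' (out_of_pre hR hqi h1 fun i hi => (hq i (by omega)).symm)

theorem force_wwkl {p : ℕ → ℕ} {M : ℕ} (hp : Cond p M) (n j : ℕ) :
    ∃ p' M', M < M' ∧ (∀ i < M, p' i = p i) ∧ Cond p' M' ∧ ∀ q, (∀ i < M', q i = p' i) →
      DIAG.inst q → (∀ t, left (R q) t ≠ n + 1) →
      (∀ m, 2 ^ m ≤ 2 ^ j * (Lev m (right (R q))).ncard) → False := by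
  classical
  by_contra hcon0
  have hcon : ∀ p' M', M < M' → (∀ i < M, p' i = p i) → Cond p' M' → ∃ q, (∀ i < M', q i = p' i) ∧
      DIAG.inst q ∧ (∀ t, left (R q) t ≠ n + 1) ∧
      ∀ m, 2 ^ m ≤ 2 ^ j * (Lev m (right (R q))).ncard := by
    intro p' M' h1 h2 h3
    by_contra h4
    exact hcon0 ⟨p', M', h1, h2, h3, fun q h5 h6 h7 h8 => h4 ⟨q, h5, h6, h7, h8⟩⟩
  have hno := closed_aux hR hcon
  obtain ⟨c, hc, hcp⟩ := hp
  obtain ⟨x, hx2, hx⟩ := exists_fresh' p M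
  obtain ⟨K, hK⟩ : ∃ K, K = 2 ^ (j + 1) + 1 := ⟨_, rfl⟩
  obtain ⟨cc, hcc⟩ : ∃ cc : ℕ → ℕ, ∀ y, cc y = if x ≤ y ∧ y < x + K then y else c y :=
    ⟨_, fun _ => rfl⟩
  obtain ⟨ci, hci⟩ : ∃ ci : ℕ → ℕ → ℕ, ∀ i y, ci i y =
      if x ≤ y ∧ y < x + K then (if y = x + i then 1 else 0) else c y := ⟨_, fun _ _ => rfl⟩
  have hcmpcc : Cmp p M cc := by
    intro i hi
    have := hx i hi
    rw [hcc, hcc, if_neg (by omega), if_neg (by omega)]
    exact hcp i hi
  have hfine : ∀ i u w, cc u = cc w → ci i u = ci i w := by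
    intro i u w h
    rw [hcc, hcc] at h
    rw [hci, hci]
    have h1 := hc.1 u
    have h2 := hc.1 w
    split_ifs at h ⊢ <;> first | rfl | omega
  have hcol : ∀ i, Col (ci i) := by
    intro i
    refine ⟨fun y => ?_, ?_, ?_⟩
    · rw [hci]
      have := hc.1 y
      split_ifs <;> omega
    · rw [hci, if_neg (by omega)]; exact hc.2.1
    · rw [hci, if_neg (by omega)]; exact hc.2.2
  obtain ⟨p0, hp0⟩ : ∃ p0, p0 = glue p M (ec cc) := ⟨_, rfl⟩
  have hp0c : ∀ i M', Cmp p0 M' (ci i) := fun i M' t ht => by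
    rw [hp0]
    exact hfine i _ _ (cmp_glue hcmpcc M' t ht)
  have hp0p : ∀ i < M, p0 i = p i := fun i hi => by rw [hp0]; exact glue_lt hi
  have hp0i : DIAG.inst p0 := by
    rw [hp0]
    refine inst_glue hcmpcc (a := 0) (b := 1) ?_
    rw [hcc, hcc, if_neg (by omega), if_neg (by omega), hc.2.1, hc.2.2]
    norm_num
  obtain ⟨hn0, -⟩ := hno p0 hp0p (fun M' => ⟨ci 0, hcol 0, hp0c 0 M'⟩) hp0i
  have hCN : ∀ r y, (∀ t, left r t ≠ n + 1) → WWKL.sol (right r) y →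
      (prod CN WWKL).sol r (join (fun _ => n) y) := by
    intro r y h1 h2
    refine ⟨?_, ?_⟩
    · rw [left_join]; exact h1
    · rw [right_join]; exact h2
  have h01 : ∀ y : ℕ → ℕ, (∀ t, y t ∈ ({0, 1} : Finset ℕ)) → ∀ t, y t < 2 := by
    intro y hy t
    have := hy t
    simp only [Finset.mem_insert, Finset.mem_singleton] at this
    omega
  -- first compactness
  have hmono1 : ∀ A B (y : ℕ → ℕ), A ≤ B →
      ((∃ t, ∃ m' ≤ A, ∃ m ≤ A, Encodable.encode (pre y m') + 1 ∈ φ (pre p0 m, 2 * t + 1)) ∨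
      (∀ l < K, ∃ m ≤ A, ∃ v, v ∈ ψ (pre (join p0 (join (fun _ => n) y)) m, x + l))) →
      (∃ t, ∃ m' ≤ B, ∃ m ≤ B, Encodable.encode (pre y m') + 1 ∈ φ (pre p0 m, 2 * t + 1)) ∨
      (∀ l < K, ∃ m ≤ B, ∃ v, v ∈ ψ (pre (join p0 (join (fun _ => n) y)) m, x + l)) := by
    rintro A B y hAB (⟨t, m', hm', m, hm, h⟩ | h)
    · exact Or.inl ⟨t, m', hm'.trans hAB, m, hm.trans hAB, h⟩
    · refine Or.inr fun l hl => ?_
      obtain ⟨m, hm, h'⟩ := h l hl
      exact ⟨m, hm.trans hAB, h'⟩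
  obtain ⟨M1', hM1'⟩ : ∃ M1, ∀ y : ℕ → ℕ, (∀ t, y t ∈ ({0, 1} : Finset ℕ)) →
      (∃ t, ∃ m' ≤ M1, ∃ m ≤ M1, Encodable.encode (pre y m') + 1 ∈ φ (pre p0 m, 2 * t + 1)) ∨
      (∀ l < K, ∃ m ≤ M1, ∃ v, v ∈ ψ (pre (join p0 (join (fun _ => n) y)) m, x + l)) := by
    apply compact_use ({0, 1} : Finset ℕ) (fun M1 y =>
      (∃ t, ∃ m' ≤ M1, ∃ m ≤ M1, Encodable.encode (pre y m') + 1 ∈ φ (pre p0 m, 2 * t + 1)) ∨
      (∀ l < K, ∃ m ≤ M1, ∃ v, v ∈ ψ (pre (join p0 (join (fun _ => n) y)) m, x + l)))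
    · exact hmono1
    · rintro A y y' hy (⟨t, m', hm', m, hm, h⟩ | h)
      · refine Or.inl ⟨t, m', hm', m, hm, ?_⟩
        rw [pre_congr (q := y) (fun i hi => hy i (lt_of_lt_of_le hi hm'))]
        exact h
      · refine Or.inr fun l hl => ?_
        obtain ⟨m, hm, v, h'⟩ := h l hl
        refine ⟨m, hm, v, ?_⟩
        rw [pre_congr (q := join p0 (join (fun _ => n) y)) (join_congr (fun _ _ => rfl)
          (join_congr (fun _ _ => rfl) (fun i hi => hy i (lt_of_lt_of_le hi hm))))]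
        exact h'
    · intro y hy
      by_cases hs : WWKL.sol (right (R p0)) y
      · obtain ⟨s, hψ, -⟩ := (hR p0 hp0i).2.2 _ (hCN _ y hn0 hs)
        choose f hf using fun l => (hψ (x + l)).1
        refine ⟨(Finset.range K).sup f, Or.inr fun l hl => ⟨f l, ?_, _, hf l⟩⟩
        exact Finset.le_sup (f := f) (Finset.mem_range.2 hl)
      · have : ∃ t m', right (R p0) t = Encodable.encode (pre y m') + 1 := by
          by_contra h
          push Not at h
          exact hs ⟨h01 y hy, h⟩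
        obtain ⟨t, m', h⟩ := this
        obtain ⟨⟨m, hm⟩, -⟩ := (hR p0 hp0i).1 (2 * t + 1)
        have h' : R p0 (2 * t + 1) = Encodable.encode (pre y m') + 1 := h
        rw [h'] at hm
        exact ⟨m' + m, Or.inl ⟨t, m', by omega, m, by omega, hm⟩⟩
  obtain ⟨M1, hMM1, hM1⟩ : ∃ M1, M ≤ M1 ∧ ∀ y : ℕ → ℕ, (∀ t, y t ∈ ({0, 1} : Finset ℕ)) →
      (∃ t, ∃ m' ≤ M1, ∃ m ≤ M1, Encodable.encode (pre y m') + 1 ∈ φ (pre p0 m, 2 * t + 1)) ∨
      (∀ l < K, ∃ m ≤ M1, ∃ v, v ∈ ψ (pre (join p0 (join (fun _ => n) y)) m, x + l)) :=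
    ⟨M + M1', by omega, fun y hy => hmono1 M1' (M + M1') y (by omega) (hM1' y hy)⟩
  -- the instances
  obtain ⟨A, hA⟩ : ∃ A : ℕ → ℕ → ℕ, ∀ i, A i = glue p0 M1 (ec (ci i)) := ⟨_, fun _ => rfl⟩
  have hAp0 : ∀ i, ∀ t < M1, A i t = p0 t := fun i t ht => by rw [hA]; exact glue_lt ht
  have hAc : ∀ i M', Cmp (A i) M' (ci i) := fun i M' => by
    rw [hA]; exact cmp_glue (hp0c i M1) M'
  have hAp : ∀ i, ∀ t < M, A i t = p t := fun i t ht => by
    rw [hAp0 i t (by omega), hp0p t ht]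
  have hAi : ∀ i, DIAG.inst (A i) := by
    intro i
    rw [hA]
    refine inst_glue (hp0c i M1) (a := 0) (b := 1) ?_
    rw [(hcol i).2.1, (hcol i).2.2]
    norm_num
  have hArel : ∀ i y z, Rel (A i) y z ↔ ci i y = ci i z := fun i y z => by
    rw [hA]; exact rel_glue (hp0c i M1) y z
  have hAn : ∀ i, (∀ t, left (R (A i)) t ≠ n + 1) ∧
      ∀ m, 2 ^ m ≤ 2 ^ j * (Lev m (right (R (A i)))).ncard := fun i =>
    hno (A i) (hAp i) (fun M' => ⟨ci i, hcol i, hAc i M'⟩) (hAi i)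
  have hpre : ∀ i y m, m ≤ M1 → pre (join p0 (join (fun _ => n) y)) m =
      pre (join (A i) (join (fun _ => n) y)) m := fun i y m hm =>
    pre_congr (join_congr (fun t ht => (hAp0 i t (by omega)).symm) (fun _ _ => rfl))
  -- second compactness
  have hM2 : ∀ i, ∃ M2, ∀ y : ℕ → ℕ, (∀ t, y t ∈ ({0, 1} : Finset ℕ)) →
      (∃ t, ∃ m' ≤ M2, right (R (A i)) t = Encodable.encode (pre y m') + 1) ∨
      (M1 ≤ M2 ∧ ∀ l < K, ∀ v, (∃ m ≤ M1, v ∈ ψ (pre (join p0 (join (fun _ => n) y)) m, x + l)) →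
        ci i v ≠ ci i (x + l)) := by
    intro i
    apply compact_use ({0, 1} : Finset ℕ) (fun M2 y =>
      (∃ t, ∃ m' ≤ M2, right (R (A i)) t = Encodable.encode (pre y m') + 1) ∨
      (M1 ≤ M2 ∧ ∀ l < K, ∀ v, (∃ m ≤ M1, v ∈ ψ (pre (join p0 (join (fun _ => n) y)) m, x + l)) →
        ci i v ≠ ci i (x + l)))
    · rintro B C y hBC (⟨t, m', hm', h⟩ | ⟨h1, h2⟩)
      · exact Or.inl ⟨t, m', hm'.trans hBC, h⟩
      · exact Or.inr ⟨h1.trans hBC, h2⟩
    · rintro B y y' hy (⟨t, m', hm', h⟩ | ⟨h1, h2⟩)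
      · refine Or.inl ⟨t, m', hm', ?_⟩
        rw [pre_congr (q := y) (fun i hi => hy i (lt_of_lt_of_le hi hm'))]
        exact h
      · refine Or.inr ⟨h1, fun l hl v hv => h2 l hl v ?_⟩
        obtain ⟨m, hm, h'⟩ := hv
        refine ⟨m, hm, ?_⟩
        rw [pre_congr (q := join p0 (join (fun _ => n) y)) (join_congr (fun _ _ => rfl)
          (join_congr (fun _ _ => rfl) (fun i hi => hy i (by omega))))] at h'
        exact h'
    · intro y hy
      by_cases hs : WWKL.sol (right (R (A i))) y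
      · refine ⟨M1, Or.inr ⟨le_rfl, fun l hl v hv => ?_⟩⟩
        obtain ⟨m, hm, h⟩ := hv
        rw [hpre i y m hm] at h
        obtain ⟨s, hψ, hs'⟩ := (hR (A i) (hAi i)).2.2 _ (hCN _ y (hAn i).1 hs)
        have h1 : v = s (x + l) := (hψ (x + l)).2 m v h
        have h2 := hs' (x + l)
        rw [hArel, ← h1] at h2
        exact h2
      · have : ∃ t m', right (R (A i)) t = Encodable.encode (pre y m') + 1 := by
          by_contra h
          push Not at h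
          exact hs ⟨h01 y hy, h⟩
        obtain ⟨t, m', h⟩ := this
        exact ⟨m', Or.inl ⟨t, m', le_rfl, h⟩⟩
  choose M2 hM2 using hM2
  obtain ⟨m, hm1, hm2⟩ : ∃ m, M1 ≤ m ∧ ∀ i < K, M2 i ≤ m := by
    refine ⟨M1 + (Finset.range K).sup M2, by omega, fun i hi => ?_⟩
    have := Finset.le_sup (f := M2) (Finset.mem_range.2 hi)
    omega
  -- what a surviving word does
  have hlev : ∀ i < K, ∀ σ ∈ Lev m (right (R (A i))),
      (∀ l < K, ∃ v, ∃ m ≤ M1, v ∈ ψ (pre (join p0 (join (fun _ => n) (ext σ))) m, x + l)) ∧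
      ∀ l < K, ∀ v, (∃ m ≤ M1, v ∈ ψ (pre (join p0 (join (fun _ => n) (ext σ))) m, x + l)) →
        ci i v ≠ ci i (x + l) := by
    intro i hi σ hσ
    have hy : ∀ t, ext σ t ∈ ({0, 1} : Finset ℕ) := by
      intro t
      have := ext_lt σ t
      simp only [Finset.mem_insert, Finset.mem_singleton]
      omega
    refine ⟨?_, ?_⟩
    · rcases hM1 (ext σ) hy with ⟨t, m', hm', m0, hm0, h⟩ | h
      · exact absurd (out_of_pre hR (hAi i) h fun t ht => (hAp0 i t (by omega)).symm)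
          (hσ t m' (by omega))
      · intro l hl
        obtain ⟨m0, hm0, v, h'⟩ := h l hl
        exact ⟨v, m0, hm0, h'⟩
    · rcases hM2 i (ext σ) hy with ⟨t, m', hm', h⟩ | ⟨-, h⟩
      · exact absurd h (hσ t m' (hm'.trans (hm2 i hi)))
      · exact h
  -- counting
  have htwo : ∀ σ : Fin m → Bool,
      ((Finset.range K).filter fun i => σ ∈ Lev m (right (R (A i)))).card ≤ 2 := by
    intro σ
    by_contra hlt
    obtain ⟨a, b, d, ha, hb, hd, hab, had, hbd⟩ := Finset.two_lt_card_iff.1 (not_le.1 hlt)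
    rw [Finset.mem_filter, Finset.mem_range] at ha hb hd
    obtain ⟨v, hv⟩ := (hlev a ha.1 σ ha.2).1 a ha.1
    have e1 := (hlev a ha.1 σ ha.2).2 a ha.1 v hv
    have e2 := (hlev b hb.1 σ hb.2).2 a ha.1 v hv
    have e3 := (hlev d hd.1 σ hd.2).2 a ha.1 v hv
    rw [hci, hci] at e1 e2 e3
    have h1 := hc.1 v
    have ha1 := ha.1
    split_ifs at e1 e2 e3 <;> omega
  have hsum : ∑ i ∈ Finset.range K, (Lev m (right (R (A i)))).ncard ≤ 2 * 2 ^ m := by
    have h1 : ∀ i, (Lev m (right (R (A i)))).ncard =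
        ((Finset.univ : Finset (Fin m → Bool)).filter fun σ =>
          σ ∈ Lev m (right (R (A i)))).card := by
      intro i
      rw [Set.ncard_eq_toFinset_card']
      congr 1
      ext σ
      simp
    rw [Finset.sum_congr rfl fun i _ => h1 i]
    have h2 := Finset.sum_card_bipartiteAbove_eq_sum_card_bipartiteBelow
      (s := Finset.range K) (t := (Finset.univ : Finset (Fin m → Bool)))
      (fun i σ => σ ∈ Lev m (right (R (A i))))
    unfold Finset.bipartiteAbove Finset.bipartiteBelow at h2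
    rw [h2]
    calc ∑ σ : Fin m → Bool, ((Finset.range K).filter fun i => σ ∈ Lev m (right (R (A i)))).card
        ≤ ∑ _σ : Fin m → Bool, 2 := Finset.sum_le_sum fun σ _ => htwo σ
      _ = 2 * 2 ^ m := by
        rw [Finset.sum_const, Finset.card_univ, Fintype.card_fun, Fintype.card_bool,
          Fintype.card_fin, smul_eq_mul, mul_comm]
  have h3 : K * 2 ^ m ≤ 2 ^ j * (2 * 2 ^ m) := by
    calc K * 2 ^ m = ∑ _i ∈ Finset.range K, 2 ^ m := by
          rw [Finset.sum_const, Finset.card_range, smul_eq_mul]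
      _ ≤ ∑ i ∈ Finset.range K, 2 ^ j * (Lev m (right (R (A i)))).ncard :=
          Finset.sum_le_sum fun i _ => (hAn i).2 m
      _ = 2 ^ j * ∑ i ∈ Finset.range K, (Lev m (right (R (A i)))).ncard := by
          rw [Finset.mul_sum]
      _ ≤ 2 ^ j * (2 * 2 ^ m) := Nat.mul_le_mul_left _ hsum
  have h4 : 0 < 2 ^ m := by positivity
  have h5 : 2 ^ j * (2 * 2 ^ m) = 2 ^ (j + 1) * 2 ^ m := by rw [pow_succ]; ring
  rw [h5] at h3
  have h6 := Nat.le_of_mul_le_mul_right h3 h4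
  omega

end

end Pool.Agent.Helper583.WD
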