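import Pool.Agent.Helper583.WDFam

/-!
Weak weak Kőnig's lemma is not reducible to DIAG.
-/

namespace Pool.Agent.Helper583.WD

/-- The binary word `σ`, followed by zeros. -/
def ext {n : ℕ} (σ : Fin n → Bool) : ℕ → ℕ := fun i => if h : i < n then (σ ⟨i, h⟩).toNat else 0

/-- Weak weak Kőnig's lemma: the tree of the binary words without an enumerated initial segment
contains at least the fraction `1 / 2 ^ j` of the words of each length; find a path. -/
def WWKL : Problem where
  inst p := ∃ j, ∀ n, 2 ^ n ≤ 2 ^ j *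
    {σ : Fin n → Bool | ∀ t, ∀ m ≤ n, p t ≠ Encodable.encode (pre (ext σ) m) + 1}.ncard
  sol p q := (∀ n, q n < 2) ∧ ∀ t m, p t ≠ Encodable.encode (pre q m) + 1

theorem card_fix {m : ℕ} (s : Finset (Fin m)) (τ : Fin m → Bool) :
    2 ^ s.card * (Finset.univ.filter fun σ : Fin m → Bool => ∀ j ∈ s, σ j = τ j).card = 2 ^ m := by
  classical
  have h1 : (Finset.univ.filter fun σ : Fin m → Bool => ∀ j ∈ s, σ j = τ j) =
      Fintype.piFinset (fun j => if j ∈ s then {τ j} else Finset.univ) := by
    ext σ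
    simp only [Finset.mem_filter, Finset.mem_univ, true_and, Fintype.mem_piFinset]
    refine forall_congr' fun j => ?_
    by_cases hj : j ∈ s
    · simp [hj]
    · simp [hj]
  have h2 : (Fintype.piFinset (fun j => if j ∈ s then {τ j} else Finset.univ) :
      Finset (Fin m → Bool)).card = 2 ^ (m - s.card) := by
    rw [Fintype.card_piFinset]
    have : ∀ j : Fin m, (if j ∈ s then ({τ j} : Finset Bool) else Finset.univ).card =
        if j ∈ s then 1 else 2 := by
      intro j
      split_ifs <;> simp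
    rw [Finset.prod_congr rfl (fun j _ => this j), Finset.prod_ite, Finset.prod_const_one,
      Finset.prod_const, one_mul]
    congr 1
    have h3 : (Finset.univ.filter fun j : Fin m => j ∉ s) = sᶜ := by ext; simp
    rw [h3, Finset.card_compl, Fintype.card_fin]
  have h4 : s.card ≤ m := by
    have := Finset.card_le_univ s
    rwa [Fintype.card_fin] at this
  rw [h1, h2, ← pow_add, Nat.add_sub_cancel' h4]

theorem card_block {m n v : ℕ} (h : Nat.pair n (n + 1) < m) :
    2 ^ (n + 2) * (Finset.univ.filter fun σ : Fin m → Bool =>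
      ∀ i < n + 2, ext σ (Nat.pair n i) = (v.testBit i).toNat).card ≤ 2 ^ m := by
  classical
  have hlt : ∀ i : Fin (n + 2), Nat.pair n i < m := by
    intro i
    refine lt_of_le_of_lt ?_ h
    rcases Nat.lt_succ_iff_lt_or_eq.1 i.2 with h' | h'
    · exact (Nat.pair_lt_pair_right n h').le
    · rw [h']
  obtain ⟨e, he⟩ : ∃ e : Fin (n + 2) → Fin m, ∀ i, e i = ⟨Nat.pair n i, hlt i⟩ := ⟨_, fun _ => rfl⟩
  have hinj : Function.Injective e := by
    intro i j hij
    rw [he, he] at hij
    have := congrArg Fin.val hij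
    simp only at this
    exact Fin.ext (Nat.pair_eq_pair.1 this).2
  obtain ⟨τ, hτ⟩ : ∃ τ : Fin m → Bool, ∀ i, τ (e i) = v.testBit i := by
    refine ⟨fun j => v.testBit (j : ℕ).unpair.2, fun i => ?_⟩
    rw [he]
    simp only [Nat.unpair_pair]
  have hc : (Finset.univ.image e).card = n + 2 := by
    rw [Finset.card_image_of_injective _ hinj, Finset.card_univ, Fintype.card_fin]
  have := card_fix (Finset.univ.image e) τ
  rw [hc] at this
  rw [← this]
  refine Nat.mul_le_mul_left _ (Finset.card_le_card fun σ hσ => ?_)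
  rw [Finset.mem_filter] at hσ ⊢
  refine ⟨Finset.mem_univ _, fun j hj => ?_⟩
  obtain ⟨i, -, rfl⟩ := Finset.mem_image.1 hj
  have h1 := hσ.2 i i.2
  rw [hτ]
  unfold ext at h1
  rw [dif_pos (hlt i)] at h1
  rw [he]
  cases h2 : σ ⟨Nat.pair n i, hlt i⟩ <;> cases h3 : v.testBit i <;> simp_all

/-- The excluded words. -/
def Bad (x : ℕ) (l : List ℕ) : Prop :=
  ∃ n v, x = Nat.pair n v + 1 ∧ Nat.pair n (n + 1) < l.length ∧
    ∀ i < n + 2, l[Nat.pair n i]? = some (v.testBit i).toNat

theorem pair_le {n i : ℕ} (hi : i < n + 2) : Nat.pair n i ≤ Nat.pair n (n + 1) := by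
  rcases Nat.lt_succ_iff_lt_or_eq.1 hi with h' | h'
  · exact (Nat.pair_lt_pair_right n h').le
  · rw [h']

theorem pre_get {q : ℕ → ℕ} {m j : ℕ} (h : j < m) : (pre q m)[j]? = some (q j) := by
  simp [pre, h]

theorem dnrf_le_wwkl : CLE (DNRF fun n => ((2 ^ (n + 2) : ℕ) : ℕ∞)) WWKL := by
  classical
  obtain ⟨E, hE⟩ : ∃ E : (ℕ → ℕ) → ℕ → ℕ, ∀ p k, E p k =
      if ∃ l : List ℕ, k.unpair.2 = Encodable.encode l ∧ Bad (p k.unpair.1) l
      then k.unpair.2 + 1 else 0 := ⟨_, fun _ _ => rfl⟩
  have hE' : ∀ p (l : List ℕ), (∃ k, E p k = Encodable.encode l + 1) ↔ ∃ t, Bad (p t) l := by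
    intro p l
    constructor
    · rintro ⟨k, hk⟩
      rw [hE] at hk
      split_ifs at hk with hc
      obtain ⟨l', h1, h2⟩ := hc
      have h3 : Encodable.encode l' = Encodable.encode l := by omega
      rw [Encodable.encode_inj] at h3
      subst h3
      exact ⟨_, h2⟩
    · rintro ⟨t, ht⟩
      refine ⟨Nat.pair t (Encodable.encode l), ?_⟩
      rw [hE, Nat.unpair_pair]
      simp only
      rw [if_pos ⟨l, rfl, ht⟩]
  refine cle_iff.2 ⟨E, fun z n => Nat.ofBits (fun i : Fin (n + 2) =>
    decide (right z (Nat.pair n i) = 1)), ?_, ?_, ?_, ?_⟩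
  · intro p _ k
    refine ⟨k.unpair.1 + 1, fun p' _ hag => ?_⟩
    rw [hE, hE, hag _ (Nat.lt_succ_self _)]
  · intro p hp
    refine ⟨1, fun m => ?_⟩
    -- the excluded words of length `m`
    obtain ⟨B, hB⟩ : ∃ B : ℕ → Finset (Fin m → Bool), ∀ n, B n = Finset.univ.filter fun σ =>
      Nat.pair n (n + 1) < m ∧ ∃ t v, p t = Nat.pair n v + 1 ∧
        ∀ i < n + 2, ext σ (Nat.pair n i) = (v.testBit i).toNat := ⟨_, fun _ => rfl⟩
    have hBc : ∀ n, 2 ^ (n + 2) * (B n).card ≤ 2 ^ m := by
      intro n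
      by_cases h : Nat.pair n (n + 1) < m ∧ ∃ t v, p t = Nat.pair n v + 1
      · obtain ⟨h1, t, v, h2⟩ := h
        refine le_trans (Nat.mul_le_mul_left _ (Finset.card_le_card fun σ hσ => ?_))
          (card_block (v := v) h1)
        rw [hB, Finset.mem_filter] at hσ
        obtain ⟨-, -, t', v', h3, h4⟩ := hσ
        have := hp t' t n v' v h3 h2
        subst this
        exact Finset.mem_filter.2 ⟨Finset.mem_univ _, h4⟩
      · have : B n = ∅ := by
          rw [hB]
          refine Finset.filter_eq_empty_iff.2 fun σ _ hσ => h ?_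
          obtain ⟨h1, t, v, h2, -⟩ := hσ
          exact ⟨h1, t, v, h2⟩
        rw [this]
        simp
    have hsum : 2 * (∑ n ∈ Finset.range m, (B n).card) ≤ 2 ^ m := by
      have h1 : ∀ n, ((B n).card : ℝ) ≤ 2 ^ m / 4 * (1 / 2) ^ n := by
        intro n
        have h2 : (2 : ℝ) ^ (n + 2) * (B n).card ≤ 2 ^ m := by exact_mod_cast hBc n
        have h3 : (0 : ℝ) < 2 ^ n := by positivity
        have h4 : (2 : ℝ) ^ m / 4 * (1 / 2) ^ n = 2 ^ m / (2 ^ (n + 2)) := by
          rw [pow_add, one_div, inv_pow]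
          field_simp
          norm_num
        rw [h4, le_div_iff₀ (by positivity)]
        linarith
      have h5 : (∑ n ∈ Finset.range m, ((B n).card : ℝ)) ≤ 2 ^ m / 4 * 2 := by
        calc (∑ n ∈ Finset.range m, ((B n).card : ℝ))
            ≤ ∑ n ∈ Finset.range m, 2 ^ m / 4 * (1 / 2 : ℝ) ^ n :=
              Finset.sum_le_sum fun n _ => h1 n
          _ = 2 ^ m / 4 * ∑ n ∈ Finset.range m, (1 / 2 : ℝ) ^ n := by rw [Finset.mul_sum]
          _ ≤ 2 ^ m / 4 * 2 := mul_le_mul_of_nonneg_left (sum_geometric_two_le m) (by positivity)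
      have h6 : (2 : ℝ) * (∑ n ∈ Finset.range m, ((B n).card : ℝ)) ≤ 2 ^ m := by linarith
      exact_mod_cast h6
    obtain ⟨S, hS⟩ : ∃ S : Set (Fin m → Bool), S = {σ : Fin m → Bool |
      ∀ t, ∀ m' ≤ m, E p t ≠ Encodable.encode (pre (ext σ) m') + 1} := ⟨_, rfl⟩
    rw [← hS]
    have hcov : (Finset.univ : Finset (Fin m → Bool)) ⊆
        S.toFinset ∪ (Finset.range m).biUnion B := by
      intro σ _
      by_cases hσ : σ ∈ S
      · exact Finset.mem_union_left _ (Set.mem_toFinset.2 hσ)
      · apply Finset.mem_union_right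
        rw [hS] at hσ
        simp only [Set.mem_ofPred_eq] at hσ
        push Not at hσ
        obtain ⟨k, m', hm', hk⟩ := hσ
        obtain ⟨t, n, v, h1, h2, h3⟩ := (hE' p _).1 ⟨k, hk⟩
        rw [pre_length] at h2
        refine Finset.mem_biUnion.2 ⟨n, Finset.mem_range.2 ?_, ?_⟩
        · have := Nat.left_le_pair n (n + 1)
          omega
        · rw [hB]
          refine Finset.mem_filter.2 ⟨Finset.mem_univ _, by omega, t, v, h1, fun i hi => ?_⟩
          have h4 := h3 i hi
          rw [pre_get (lt_of_le_of_lt (pair_le hi) h2)] at h4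
          exact Option.some_injective _ h4
    have h7 := Finset.card_le_card hcov
    have h8 := Finset.card_union_le S.toFinset ((Finset.range m).biUnion B)
    have h9 := Finset.card_biUnion_le (s := Finset.range m) (t := B)
    rw [Finset.card_univ, Fintype.card_fun, Fintype.card_bool, Fintype.card_fin] at h7
    rw [Set.ncard_eq_toFinset_card']
    omega
  · intro z _ n
    refine ⟨2 * (Nat.pair n (n + 1)) + 2, fun z' _ hag => ?_⟩
    have : ∀ i : Fin (n + 2), right z' (Nat.pair n i) = right z (Nat.pair n i) := fun i =>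
      hag _ (by have := pair_le i.2; omega)
    simp only [this]
  · intro p q hp hq n
    dsimp only
    rw [right_join]
    refine ⟨?_, fun t ht => ?_⟩
    · exact_mod_cast Nat.ofBits_lt_two_pow _
    · obtain ⟨h1, h2⟩ := hq
      obtain ⟨k, hk⟩ := (hE' p (pre q (Nat.pair n (n + 1) + 1))).2 ⟨t, n, _, ht, by
        rw [pre_length]; omega, fun i hi => by
          rw [pre_get (by have := pair_le hi; omega), Nat.testBit_ofBits_lt _ i hi]
          have := h1 (Nat.pair n i)
          by_cases h3 : q (Nat.pair n i) = 1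
          · simp [h3]
          · have h4 : q (Nat.pair n i) = 0 := by omega
            simp [h4]⟩
      exact h2 _ _ hk

theorem wwkl_not_diag : ¬ CLE WWKL DIAG := fun h =>
  dnrf_not_diag _ (fun N => ⟨N, le_rfl, ENat.natCast_ne_top _⟩) (dnrf_le_wwkl.trans h)

end Pool.Agent.Helper583.WD
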